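import Pool.Agent.P.MP_b3a239_gt.TLBasic

/-!
Abstract algebra of two drags of the leftmost strand and of the quantum torus they produce.
-/

set_option maxSynthPendingDepth 3

noncomputable section

namespace Pool.Agent.P.MP_b3a239_gt

/-- `A ^ n` as a unit of an algebra -/
def sc (A : Type) [Ring A] [Algebra R A] (n : ℤ) : Aˣ where
  val := algebraMap R A (a n)
  inv := algebraMap R A (a (-n))
  val_inv := by rw [← map_mul, a_mul_neg, map_one]
  inv_val := by rw [← map_mul, mul_comm, a_mul_neg, map_one]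

/-- the normalised product of two drags -/
def mv {A : Type} [Ring A] [Algebra R A] (X Y : Aˣ) : Aˣ := -sc A (-3) * Y * X

/-- the normalised product in the quantum torus -/
def tm {A : Type} [Ring A] [Algebra R A] (x y : Aˣ) : Aˣ := sc A 1 * x * y

/-- the boundary of the punctured torus -/
def del {A : Type} [Ring A] (X Y : Aˣ) : Aˣ := Y * X⁻¹ * Y⁻¹ * X

/-- Euclidean algorithm on a pair -/
def euc {Γ : Type} (μ : Γ → Γ → Γ) (p q : ℕ) (x y : Γ) : Γ × Γ :=
  if p = 0 ∨ q = 0 then (x, y) else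
    if q ≤ p then euc μ (p - q) q x (μ x y) else euc μ p (q - p) (μ x y) y
termination_by p + q
decreasing_by all_goals omega

/-- a word in two drags -/
def Mw {A : Type} [Monoid A] (X Y : A) (bs : List Bool) : A :=
  (bs.map fun b => if b then X else Y).prod

/-- `Q` is the part of `P` with at least one strand; cap and cup at `0` and at `1` -/
structure Base (P Q : Type) [AddCommGroup P] [Module R P] [AddCommGroup Q] [Module R Q] where
  κ : Q →ₗ[R] P
  ι : P →ₗ[R] Q
  j : Q →ₗ[R] P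
  u : Module.End R Q
  c : Module.End R Q
  κι : ∀ w, κ (ι w) = dd • w
  κu : ∀ w, κ (u w) = j w
  cι : ∀ w, c (ι (j w)) = w
  cu : ∀ w, c (u w) = dd • w

variable {P Q L : Type} [AddCommGroup P] [Module R P] [AddCommGroup Q] [Module R Q]
  [AddCommGroup L] [Module R L]

namespace Base
variable (b : Base P Q)

def σ : Module.End R Q := a (-1) • (1 : Module.End R Q) + a 1 • (b.ι ∘ₗ b.κ)

/-- the closed loop along a drag -/
def γ (X : Module.End R Q) : Module.End R P := b.κ ∘ₗ X ∘ₗ b.ι

structure Drag (X : (Module.End R Q)ˣ) : Prop where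
  cu : (X : Module.End R Q) * b.u = b.u * X
  cc : (X : Module.End R Q) * b.c = b.c * X
  B1 : (X : Module.End R Q) * b.σ * X * b.σ = b.σ * X * b.σ * X
  B5 : ∀ w, b.κ (X.1 (b.σ (X.1 w))) = (-a 3) • b.κ w

structure Pair (X Y : (Module.End R Q)ˣ) : Prop where
  hX : b.Drag X
  hY : b.Drag Y
  B3 : (X : Module.End R Q) * b.σ * Y = b.σ * Y * b.σ * X * b.σ

structure Sys (α : P →ₗ[R] L) (X Y : (Module.End R Q)ˣ) (x y : (Module.End R L)ˣ) : Prop where
  tor : y * x = sc _ 2 * x * y
  GX : ∀ w, α (b.γ X w) = x.1 (α w) + x⁻¹.1 (α w)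
  GY : ∀ w, α (b.γ Y w) = y.1 (α w) + y⁻¹.1 (α w)
  J : ∀ w, α (b.κ (X⁻¹.1 (Y.1 w))) + a 2 • x⁻¹.1 (α (b.κ (Y.1 w))) +
    a 4 • y⁻¹.1 (α (b.κ (X⁻¹.1 w))) + a 2 • y⁻¹.1 (x⁻¹.1 (α (b.κ w))) = 0

end Base

/-- shift on sequences -/
def xZ (L : Type) [AddCommGroup L] [Module R L] : (Module.End R (ℤ → L))ˣ where
  val := LinearMap.funLeft R L (· + 1)
  inv := LinearMap.funLeft R L (· - 1)
  val_inv := by ext v i; simp
  inv_val := by ext v i; simp

/-- diagonal operator on sequences -/
def yZ (L : Type) [AddCommGroup L] [Module R L] : (Module.End R (ℤ → L))ˣ where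
  val := LinearMap.pi fun i => (-a (-(2 * i))) • LinearMap.proj i
  inv := LinearMap.pi fun i => (-a (2 * i)) • LinearMap.proj i
  val_inv := by ext v i; simp [smul_smul, ← a_add]
  inv_val := by ext v i; simp [smul_smul, ← a_add]

/-- the sequence of the Chebyshev colourings of the loop `g` -/
def cheb (π : P →ₗ[R] L) (g : Module.End R P) : P →ₗ[R] (ℤ → L) :=
  LinearMap.pi fun i => -(π ∘ₗ Polynomial.aeval g (Polynomial.Chebyshev.S R (i - 1)))

end Pool.Agent.P.MP_b3a239_gt
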