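import Pool.Agent.P.MP_b3a239_gt.Alg

/-! Consequences of the relations between drags; the relations are stable under the moves. -/

set_option maxSynthPendingDepth 3

noncomputable section

namespace Pool.Agent.P.MP_b3a239_gt

section Sc
variable {A : Type} [Ring A] [Algebra R A]

theorem sc_val (n : ℤ) : (sc A n : A) = algebraMap R A (a n) := rfl
theorem sc_add (m n : ℤ) : sc A (m + n) = sc A m * sc A n :=
  Units.ext (by rw [Units.val_mul, sc_val, sc_val, sc_val, a_add, map_mul])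
@[simp] theorem sc_zero : sc A 0 = 1 := Units.ext (by rw [sc_val, a_zero, map_one, Units.val_one])
theorem sc_inv (n : ℤ) : (sc A n)⁻¹ = sc A (-n) :=
  inv_eq_of_mul_eq_one_right (by rw [← sc_add, add_neg_cancel, sc_zero])
theorem sc_comm (n : ℤ) (x : Aˣ) : sc A n * x = x * sc A n :=
  Units.ext (by rw [Units.val_mul, Units.val_mul, sc_val, Algebra.commutes])

private theorem nsc_comm (n : ℤ) (x : Aˣ) : -sc A n * x = x * -sc A n := by
  rw [neg_mul, mul_neg, sc_comm]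

theorem del_mv_left (X Y : Aˣ) : del X (mv X Y) = del X Y := by
  have h := nsc_comm (A := A) (-3)
  unfold del mv
  generalize -sc A (-3) = s at h ⊢
  calc s * Y * X * X⁻¹ * (s * Y * X)⁻¹ * X = s * (Y * X⁻¹ * Y⁻¹) * s⁻¹ * X := by group
    _ = Y * X⁻¹ * Y⁻¹ * X := by rw [h]; group

theorem del_mv_right (X Y : Aˣ) : del (mv X Y) Y = del X Y := by
  unfold del mv
  have h := nsc_comm (A := A) (-3)
  generalize -sc A (-3) = s at h ⊢
  calc Y * (s * Y * X)⁻¹ * Y⁻¹ * (s * Y * X) = Y * X⁻¹ * Y⁻¹ * s⁻¹ * Y⁻¹ * (s * Y) * X := by group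
    _ = Y * X⁻¹ * Y⁻¹ * s⁻¹ * (Y⁻¹ * Y) * s * X := by rw [h]; group
    _ = Y * X⁻¹ * Y⁻¹ * X := by group

end Sc

variable {P Q : Type} [AddCommGroup P] [Module R P] [AddCommGroup Q] [Module R Q]
  {b : Base P Q} {X Y : (Module.End R Q)ˣ}

theorem sc_apply (n : ℤ) (w : Q) : (sc (Module.End R Q) n).1 w = a n • w := rfl
theorem mv_apply (w : Q) : (mv X Y).1 w = (-a (-3)) • Y.1 (X.1 w) := by
  rw [neg_smul]
  rfl
theorem mv_inv_apply (w : Q) : (mv X Y)⁻¹.1 w = (-a 3) • X⁻¹.1 (Y⁻¹.1 w) := by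
  have e : (mv X Y)⁻¹ = -sc _ 3 * X⁻¹ * Y⁻¹ := by
    rw [mv, mul_inv_rev, mul_inv_rev, inv_neg, sc_inv, neg_neg, ← mul_assoc, ← nsc_comm,
      mul_assoc]
  rw [e, neg_smul]
  rfl
theorem tm_apply (w : Q) : (tm X Y).1 w = a 1 • X.1 (Y.1 w) := rfl
theorem tm_inv_apply (w : Q) : (tm X Y)⁻¹.1 w = a (-1) • Y⁻¹.1 (X⁻¹.1 w) := by
  have e : (tm X Y)⁻¹ = sc _ (-1) * Y⁻¹ * X⁻¹ := by
    rw [tm, mul_inv_rev, mul_inv_rev, sc_inv, ← mul_assoc, ← sc_comm, mul_assoc]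
  rw [e]
  rfl

namespace Alg1Aux

theorem hAB : a 1 * a (-1) = 1 := a_mul_neg 1
theorem a2 : a 2 = a 1 ^ 2 := by rw [a_pow]; rfl
theorem a3 : a 3 = a 1 ^ 3 := by rw [a_pow]; rfl
theorem a4 : a 4 = a 1 ^ 4 := by rw [a_pow]; rfl
theorem b2 : a (-2) = a (-1) ^ 2 := by rw [a_pow]; rfl
theorem b3 : a (-3) = a (-1) ^ 3 := by rw [a_pow]; rfl
theorem b4 : a (-4) = a (-1) ^ 4 := by rw [a_pow]; rfl
theorem hdd : dd = -a 1 ^ 2 - a (-1) ^ 2 := by rw [← a2, ← b2, dd]; ring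

theorem inv_app (X : (Module.End R Q)ˣ) (w : Q) : X⁻¹.1 (X.1 w) = w := by
  rw [← Module.End.mul_apply, Units.inv_mul, Module.End.one_apply]

theorem app_inv (X : (Module.End R Q)ˣ) (w : Q) : X.1 (X⁻¹.1 w) = w := by
  rw [← Module.End.mul_apply, Units.mul_inv, Module.End.one_apply]

theorem σ_app (b : Base P Q) (w : Q) : b.σ w = a (-1) • w + a 1 • b.ι (b.κ w) := rfl

theorem γ_app (b : Base P Q) (X : Module.End R Q) (w : P) : b.γ X w = b.κ (X (b.ι w)) := rfl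

theorem σ_σ' (b : Base P Q) (w : Q) : b.σ (a 1 • w + a (-1) • b.ι (b.κ w)) = w := by
  have h := hAB
  simp only [σ_app, map_add, map_smul, b.κι, hdd]
  match_scalars <;> grind

theorem comm_app {X u : Module.End R Q} (h : X * u = u * X) (w : Q) : X (u w) = u (X w) :=
  LinearMap.congr_fun h w

theorem comm_inv {X : (Module.End R Q)ˣ} {u : Module.End R Q} (h : X.1 * u = u * X.1) (w : Q) :
    X⁻¹.1 (u w) = u (X⁻¹.1 w) := by
  conv_lhs => rw [← app_inv X w, ← comm_app h, inv_app]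

theorem B3_app (h : b.Pair X Y) (w : Q) :
    X.1 (b.σ (Y.1 w)) = b.σ (Y.1 (b.σ (X.1 (b.σ w)))) := LinearMap.congr_fun h.B3 w

theorem B1_app (h : b.Drag X) (w : Q) :
    X.1 (b.σ (X.1 (b.σ w))) = b.σ (X.1 (b.σ (X.1 w))) := LinearMap.congr_fun h.B1 w

end Alg1Aux

open Alg1Aux

namespace Base

theorem κ_σ (b : Base P Q) (w : Q) : b.κ (b.σ w) = (-a 3) • b.κ w := by
  have h := hAB
  simp only [σ_app, map_add, map_smul, b.κι, hdd, a3]
  match_scalars; grind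
theorem σ_ι (b : Base P Q) (w : P) : b.σ (b.ι w) = (-a 3) • b.ι w := by
  have h := hAB
  simp only [σ_app, map_smul, b.κι, hdd, a3]
  match_scalars; grind

theorem Drag.κ_σ (h : b.Drag X) (w : Q) : b.κ (X.1 (b.σ w)) = (-a 3) • b.κ (X⁻¹.1 w) := by
  rw [← h.B5, app_inv]
theorem Drag.H (h : b.Drag X) (w : Q) :
    b.γ X (b.κ w) = -(a (-2) • b.κ (X.1 w)) - a 2 • b.κ (X⁻¹.1 w) := by
  have h0 := hAB
  have e := h.κ_σ w
  simp only [σ_app, map_add, map_smul, a3] at e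
  rw [γ_app, a2, b2]
  linear_combination (norm := (match_scalars <;> grind)) a (-1) • e
theorem Drag.γ_inv (h : b.Drag X) : b.γ ↑X⁻¹ = b.γ X := by
  ext w
  have h0 := hAB
  have e := h.H (b.ι w)
  simp only [γ_app, map_smul, b.κι, hdd, a2, b2] at e ⊢
  linear_combination (norm := (match_scalars <;> grind)) a (-1) ^ 2 • e
theorem Drag.CH (h : b.Drag X) (w : Q) :
    b.γ X (b.j w) = -(a (-2) • b.j (X.1 w)) - a 2 • b.j (X⁻¹.1 w) := by
  rw [← b.κu, h.H, comm_app h.cu, comm_inv h.cu, b.κu, b.κu]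

theorem Pair.Gam (h : b.Pair X Y) (w : P) :
    b.γ Y (b.γ X w) = a 1 • b.γ (mv X Y).1 w - a (-4) • b.γ (X⁻¹ * Y).1 w := by
  have h0 := hAB
  have e := congrArg b.κ (B3_app h (b.ι w))
  rw [h.hX.κ_σ, b.κ_σ, b.σ_ι] at e
  simp only [σ_app, map_add, map_smul, a3] at e
  simp only [γ_app, mv_apply, Units.val_mul, Module.End.mul_apply, map_smul, b3, b4]
  linear_combination (norm := (match_scalars <;> grind)) (-a (-1) ^ 7) • e
theorem Pair.Gam' (h : b.Pair X Y) (w : P) :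
    a 2 • b.γ (Y * X⁻¹).1 w =
      b.γ (X⁻¹ * Y).1 w + a 2 • b.γ X (b.γ Y w) - b.γ Y (b.γ X w) := by
  have h0 := hAB
  have e1 := B3_app h (a 1 • X⁻¹.1 (b.ι w) + a (-1) • b.ι (b.κ (X⁻¹.1 (b.ι w))))
  rw [σ_σ', app_inv, b.σ_ι] at e1
  have e := congrArg (fun v => b.κ (X⁻¹.1 v)) e1
  simp only [inv_app, b.κ_σ] at e
  simp only [σ_app, map_add, map_smul, a3] at e
  rw [← h.hX.γ_inv]
  simp only [γ_app, Units.val_mul, Module.End.mul_apply, a2]
  linear_combination (norm := (match_scalars <;> grind)) (-a (-1) ^ 2) • e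
theorem Pair.B8 (h : b.Pair X Y) (w : Q) :
    a (-2) • X.1 (Y.1 w) + a 2 • X⁻¹.1 (Y.1 w) = a (-4) • Y.1 (X.1 w) + a 4 • Y.1 (X⁻¹.1 w) := by
  have h0 := hAB
  have e := B3_app h (b.u w)
  have e1 := congrArg b.κ e
  rw [h.hX.κ_σ, b.κ_σ, comm_app h.hY.cu, comm_inv h.hX.cu, b.κu] at e1
  have e1' := congrArg (fun v => b.c (b.ι v)) e1
  have e2 := congrArg b.c e
  have e3 := congrArg (fun v => Y.1 (b.c (b.ι v))) (h.hX.CH w)
  simp only [σ_app, γ_app, map_add, map_sub, map_neg, map_smul, comm_app h.hX.cu,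
    comm_app h.hY.cu, ← comm_app h.hX.cc, ← comm_app h.hY.cc, b.κu, b.cι, b.cu, hdd, a2, a3,
    b2] at e1' e2 e3
  rw [a2, a4, b2, b4]
  linear_combination (norm := (match_scalars <;> grind))
    (-a 1) • e2 - a (-1) • e1' - a 1 ^ 2 • e3

private theorem drag_mv (h : b.Pair X Y) : b.Drag (mv X Y) where
  cu := by
    ext w
    simp only [Module.End.mul_apply, mv_apply, map_smul, comm_app h.hX.cu, comm_app h.hY.cu]
  cc := by
    ext w
    simp only [Module.End.mul_apply, mv_apply, map_smul, comm_app h.hX.cc, comm_app h.hY.cc]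
  B1 := by
    ext w
    simp only [Module.End.mul_apply, mv_apply, map_smul]
    rw [B3_app h, B3_app h, B1_app h.hY, B1_app h.hX, B1_app h.hY]
  B5 := fun w => by
    have h0 := hAB
    simp only [mv_apply, map_smul]
    rw [B3_app h, h.hY.B5, b.κ_σ, h.hX.B5, a3, b3]
    match_scalars; grind

theorem Pair.left (h : b.Pair X Y) : b.Pair X (mv X Y) where
  hX := h.hX
  hY := drag_mv h
  B3 := by
    ext w
    simp only [Module.End.mul_apply, mv_apply, map_smul]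
    rw [B3_app h, B1_app h.hX]
theorem Pair.right (h : b.Pair X Y) : b.Pair (mv X Y) Y where
  hX := drag_mv h
  hY := h.hY
  B3 := by
    ext w
    simp only [Module.End.mul_apply, mv_apply, map_smul]
    rw [B3_app h, B1_app h.hY]

end Base

end Pool.Agent.P.MP_b3a239_gt
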