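import Pool.Agent.P.MP_b3a239_gt.Alg1

/-! The torus system is stable under the moves, forwards and backwards. -/

set_option maxSynthPendingDepth 3

noncomputable section

namespace Pool.Agent.P.MP_b3a239_gt

variable {P Q L : Type} [AddCommGroup P] [Module R P] [AddCommGroup Q] [Module R Q]
  [AddCommGroup L] [Module R L] {b : Base P Q} {X Y : (Module.End R Q)ˣ} {α : P →ₗ[R] L}
  {x y : (Module.End R L)ˣ}

namespace Alg2

theorem AB : a 1 * a (-1) = 1 := a_mul_neg 1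
theorem p2 : a 2 = a 1 ^ 2 := by rw [a_pow]; norm_num
theorem p3 : a 3 = a 1 ^ 3 := by rw [a_pow]; norm_num
theorem p4 : a 4 = a 1 ^ 4 := by rw [a_pow]; norm_num
theorem p6 : a 6 = a 1 ^ 6 := by rw [a_pow]; norm_num
theorem n2 : a (-2) = a (-1) ^ 2 := by rw [a_pow]; norm_num
theorem n3 : a (-3) = a (-1) ^ 3 := by rw [a_pow]; norm_num
theorem n4 : a (-4) = a (-1) ^ 4 := by rw [a_pow]; norm_num
theorem n6 : a (-6) = a (-1) ^ 6 := by rw [a_pow]; norm_num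

theorem mi (x : (Module.End R L)ˣ) (w : L) : x.1 (x⁻¹.1 w) = w :=
  LinearMap.congr_fun x.mul_inv w

theorem im (x : (Module.End R L)ˣ) (w : L) : x⁻¹.1 (x.1 w) = w :=
  LinearMap.congr_fun x.inv_mul w

theorem cancel (n : ℤ) {v w : L} (h : a n • v = a n • w) : v = w := by
  have := congrArg (a (-n) • ·) h
  simp only [smul_smul] at this
  rwa [mul_comm, a_mul_neg, one_smul, one_smul] at this

theorem c0 (h : y * x = sc _ 2 * x * y) (w : L) : y.1 (x.1 w) = a 2 • x.1 (y.1 w) := by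
  have := LinearMap.congr_fun (congrArg Units.val h) w
  simp only [Units.val_mul, Module.End.mul_apply, sc_apply] at this
  exact this

theorem c1 (h : y * x = sc _ 2 * x * y) (w : L) : x.1 (y.1 w) = a (-2) • y.1 (x.1 w) := by
  rw [c0 h, smul_smul, mul_comm, a_mul_neg, one_smul]

theorem c2 (h : y * x = sc _ 2 * x * y) (w : L) : x⁻¹.1 (y.1 w) = a 2 • y.1 (x⁻¹.1 w) := by
  have := congrArg x⁻¹.1 (c1 h (x⁻¹.1 w))
  rw [im, mi, map_smul] at this
  rw [this, smul_smul, a_mul_neg, one_smul]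

theorem c3 (h : y * x = sc _ 2 * x * y) (w : L) : x.1 (y⁻¹.1 w) = a 2 • y⁻¹.1 (x.1 w) := by
  have := congrArg y⁻¹.1 (c0 h (y⁻¹.1 w))
  rwa [im, mi, map_smul] at this

theorem c4 (h : y * x = sc _ 2 * x * y) (w : L) :
    x⁻¹.1 (y⁻¹.1 w) = a (-2) • y⁻¹.1 (x⁻¹.1 w) := by
  have := congrArg y⁻¹.1 (c2 h (y⁻¹.1 w))
  rw [mi, map_smul, im] at this
  rw [this, smul_smul, mul_comm, a_mul_neg, one_smul]

theorem tor_of (h : ∀ w, y.1 (x.1 w) = a 2 • x.1 (y.1 w)) : y * x = sc _ 2 * x * y := by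
  refine Units.ext (LinearMap.ext fun w => ?_)
  simp only [Units.val_mul, Module.End.mul_apply, sc_apply]
  exact h w

theorem H (h : b.Drag X) (g : ∀ w, α (b.γ X w) = x.1 (α w) + x⁻¹.1 (α w)) (w : Q) :
    x.1 (α (b.κ w)) + x⁻¹.1 (α (b.κ w)) + a (-2) • α (b.κ (X.1 w)) +
      a 2 • α (b.κ (X⁻¹.1 w)) = 0 := by
  rw [← g, h.H, map_sub, map_neg, map_smul, map_smul]
  abel

theorem Jι (h : b.Drag X) (s : b.Sys α X Y x y) (w : P) :
    α (b.γ (X⁻¹ * Y).1 w) + a 2 • x⁻¹.1 (y.1 (α w) + y⁻¹.1 (α w)) +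
      a 4 • y⁻¹.1 (x.1 (α w) + x⁻¹.1 (α w)) + a 2 • y⁻¹.1 (x⁻¹.1 (dd • α w)) = 0 := by
  have h1 := s.J (b.ι w)
  rw [← s.GY, ← s.GX, ← h.γ_inv, ← map_smul α, ← b.κι]
  exact h1

theorem GM (h : b.Pair X Y) (s : b.Sys α X Y x y) (w : P) :
    α (b.γ (mv X Y).1 w) = (tm x y).1 (α w) + (tm x y)⁻¹.1 (α w) := by
  have h1 := congrArg α (h.Gam w)
  have h2 := Jι h.hX s w
  rw [s.GY, s.GX, map_sub, map_smul, map_smul] at h1
  refine cancel 1 ?_
  rw [tm_apply, tm_inv_apply]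
  simp only [map_add, map_smul, c1 s.tor, c2 s.tor, c4 s.tor, dd] at h1 h2 ⊢
  have e := AB
  linear_combination (norm := skip) (-1 : R) • h1 + a (-4) • h2
  match_scalars <;> (try simp only [p2, p4, n2, n4]) <;> grind

theorem JL (h : b.Drag X) (g : ∀ w, α (b.γ X w) = x.1 (α w) + x⁻¹.1 (α w)) (w : Q) :
    α (b.κ (X⁻¹.1 ((mv X Y).1 w))) + a 2 • x⁻¹.1 (α (b.κ ((mv X Y).1 w))) +
      a 4 • (tm x y)⁻¹.1 (α (b.κ (X⁻¹.1 w))) + a 2 • (tm x y)⁻¹.1 (x⁻¹.1 (α (b.κ w))) =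
    (-a (-3)) • (α (b.κ (X⁻¹.1 (Y.1 (X.1 w)))) + a 2 • x⁻¹.1 (α (b.κ (Y.1 (X.1 w)))) +
      a 4 • y⁻¹.1 (α (b.κ (X⁻¹.1 (X.1 w)))) + a 2 • y⁻¹.1 (x⁻¹.1 (α (b.κ (X.1 w))))) := by
  have h1 := congrArg (fun v => y⁻¹.1 (x⁻¹.1 v)) (H h g w)
  simp only [mv_apply, tm_inv_apply, map_add, map_smul, map_zero, im] at h1 ⊢
  have e := AB
  linear_combination (norm := skip) a 1 • h1
  match_scalars <;> (try simp only [p2, p4, n2, n3]) <;> grind

theorem JR (h : b.Drag Y) (g : ∀ w, α (b.γ Y w) = y.1 (α w) + y⁻¹.1 (α w))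
    (t : y * x = sc _ 2 * x * y) (w : Q) :
    α (b.κ ((mv X Y)⁻¹.1 (Y.1 w))) + a 2 • (tm x y)⁻¹.1 (α (b.κ (Y.1 w))) +
      a 4 • y⁻¹.1 (α (b.κ ((mv X Y)⁻¹.1 w))) + a 2 • y⁻¹.1 ((tm x y)⁻¹.1 (α (b.κ w))) =
    (-a 3) • (α (b.κ (X⁻¹.1 (Y.1 (Y⁻¹.1 w)))) + a 2 • x⁻¹.1 (α (b.κ (Y.1 (Y⁻¹.1 w)))) +
      a 4 • y⁻¹.1 (α (b.κ (X⁻¹.1 (Y⁻¹.1 w)))) + a 2 • y⁻¹.1 (x⁻¹.1 (α (b.κ (Y⁻¹.1 w))))) := by
  have h1 := congrArg (fun v => y⁻¹.1 (x⁻¹.1 v)) (H h g w)
  simp only [mv_inv_apply, tm_inv_apply, map_add, map_smul, map_zero, im, mi, c2 t, c4 t] at h1 ⊢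
  have e := AB
  linear_combination (norm := skip) a 3 • h1
  match_scalars <;> (try simp only [p2, p3, p4, n2]) <;> grind

theorem ne3 {v : L} (h : (0 : L) = (-a 3) • v) : v = 0 :=
  cancel 3 (by rw [smul_zero, ← neg_eq_zero, ← neg_smul, ← h])

theorem ne3' {v : L} (h : (0 : L) = (-a (-3)) • v) : v = 0 :=
  cancel (-3) (by rw [smul_zero, ← neg_eq_zero, ← neg_smul, ← h])

end Alg2

open Alg2

namespace Base

theorem Sys.left (h : b.Pair X Y) (s : b.Sys α X Y x y) : b.Sys α X (mv X Y) x (tm x y) where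
  tor := tor_of fun w => by
    simp only [tm_apply, map_smul, c0 s.tor]
    rw [smul_comm]
  GX := s.GX
  GY := GM h s
  J w := by rw [JL h.hX s.GX, s.J, smul_zero]

theorem Sys.right (h : b.Pair X Y) (s : b.Sys α X Y x y) : b.Sys α (mv X Y) Y (tm x y) y where
  tor := tor_of fun w => by
    simp only [tm_apply, map_smul, c0 s.tor]
    rw [smul_comm]
  GX := GM h s
  GY := s.GY
  J w := by rw [JR h.hY s.GY s.tor, s.J, smul_zero]

theorem Sys.left_back (h : b.Pair X Y) (s : b.Sys α X (mv X Y) x (tm x y)) : b.Sys α X Y x y := by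
  have t : y * x = sc _ 2 * x * y := tor_of fun w => by
    have h1 := congrArg x⁻¹.1 (c0 s.tor w)
    simp only [tm_apply, map_smul, im] at h1
    exact cancel 1 (h1.trans (smul_comm _ _ _))
  refine ⟨t, s.GX, fun w => ?_, fun w => ?_⟩
  · have h1 := congrArg α (h.left.Gam' w)
    have h2 := Jι h.hX s w
    have h3 : b.γ (mv X Y * X⁻¹).1 w = (-a (-3)) • b.γ Y w := by
      simp only [Base.γ, LinearMap.comp_apply, Units.val_mul, Module.End.mul_apply, mv_apply, mi,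
        map_smul]
    rw [h3] at h1
    simp only [map_add, map_sub, map_smul, s.GX, s.GY] at h1
    refine cancel (-1) ?_
    simp only [tm_apply, tm_inv_apply, map_add, map_smul, c1 t, c2 t, c3 t, c4 t, dd, mi, im]
      at h1 h2
    have e := AB
    linear_combination (norm := skip) (-1 : R) • h1 - h2
    match_scalars <;> (try simp only [p2, p4, n2, n3]) <;> grind
  · have h1 := JL (Y := Y) (y := y) h.hX s.GX (X⁻¹.1 w)
    rw [s.J, mi] at h1
    exact ne3' h1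

theorem Sys.right_back (h : b.Pair X Y) (s : b.Sys α (mv X Y) Y (tm x y) y) :
    b.Sys α X Y x y := by
  have t : y * x = sc _ 2 * x * y := tor_of fun w => by
    have h1 := c0 s.tor (y⁻¹.1 w)
    simp only [tm_apply, map_smul, mi] at h1
    exact cancel 1 (h1.trans (smul_comm _ _ _))
  refine ⟨t, fun w => ?_, s.GY, fun w => ?_⟩
  · have h2 := Jι h.right.hX s w
    have h3 : b.γ ((mv X Y)⁻¹ * Y).1 w = (-a 3) • b.γ X w := by
      rw [← h.hX.γ_inv]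
      simp only [Base.γ, LinearMap.comp_apply, Units.val_mul, Module.End.mul_apply, mv_inv_apply,
        im, map_smul]
    rw [h3] at h2
    refine cancel 3 ?_
    simp only [tm_apply, tm_inv_apply, map_add, map_smul, c1 t, c2 t, c4 t, dd, im] at h2
    have e := AB
    linear_combination (norm := skip) (-1 : R) • h2
    match_scalars <;> (try simp only [p2, p3, p4, n2]) <;> grind
  · have h1 := JR (X := X) h.hY s.GY t (Y.1 w)
    rw [s.J, im] at h1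
    exact ne3 h1

end Base

end Pool.Agent.P.MP_b3a239_gt
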