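import Pool.Agent.P.MP_b3a239_gt.Alg2

/-! The Euclidean algorithm on drags and on the torus. -/

set_option maxSynthPendingDepth 3

noncomputable section

namespace Pool.Agent.P.MP_b3a239_gt

section Euc
variable {Γ Γ' : Type} {μ : Γ → Γ → Γ} {μ' : Γ' → Γ' → Γ'}

theorem euc_ind (S : Γ → Γ → Prop) (hl : ∀ x y, S x y → S x (μ x y))
    (hr : ∀ x y, S x y → S (μ x y) y) (p q : ℕ) {x y : Γ} (h : S x y) :
    S (euc μ p q x y).1 (euc μ p q x y).2 := by
  induction hn : p + q using Nat.strong_induction_on generalizing p q x y with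
  | _ n ih =>
    rw [euc]
    split_ifs with h1 h2
    · exact h
    · exact ih _ (by omega) _ _ (hl _ _ h) rfl
    · exact ih _ (by omega) _ _ (hr _ _ h) rfl

theorem euc_ind₂ (S : Γ → Γ → Γ' → Γ' → Prop)
    (hl : ∀ x y x' y', S x y x' y' → S x (μ x y) x' (μ' x' y'))
    (hr : ∀ x y x' y', S x y x' y' → S (μ x y) y (μ' x' y') y') (p q : ℕ) {x y : Γ} {x' y' : Γ'}
    (h : S x y x' y') :
    S (euc μ p q x y).1 (euc μ p q x y).2 (euc μ' p q x' y').1 (euc μ' p q x' y').2 := by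
  induction hn : p + q using Nat.strong_induction_on generalizing p q x y x' y' with
  | _ n ih =>
    rw [euc, euc.eq_1 μ']
    split_ifs with h1 h2
    · exact h
    · exact ih _ (by omega) _ _ (hl _ _ _ _ h) rfl
    · exact ih _ (by omega) _ _ (hr _ _ _ _ h) rfl

end Euc

section Units
variable {A : Type} [Ring A] [Algebra R A] {p q : ℕ}

namespace Alg3

theorem cop_left (h : q ≤ p) (hpq : p.Coprime q) : (p - q).Coprime q :=
  (Nat.coprime_sub_self_left h).2 hpq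

theorem cop_right (h : p ≤ q) (hpq : p.Coprime q) : p.Coprime (q - p) :=
  (Nat.coprime_sub_self_right h).2 hpq

theorem c_comm (z : Aˣ) : Commute (-sc A 3) z := Commute.neg_left (sc_comm 3 z)

theorem c_mv (X Y : Aˣ) : -sc A 3 * mv X Y = Y * X := by
  rw [mv, ← mul_assoc, ← mul_assoc, neg_mul_neg, ← sc_add]
  simp

theorem Mw_step {X Y X' Y' : Aˣ} {xs ys : List Bool} {i j : ℕ}
    (hx : -sc A 3 * Mw X Y xs = (-sc A 3) ^ i * X') (hy : -sc A 3 * Mw X Y ys = (-sc A 3) ^ j * Y') :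
    -sc A 3 * Mw X Y (ys ++ xs) = (-sc A 3) ^ (j + i) * mv X' Y' := by
  have h0 : Mw X Y (ys ++ xs) = Mw X Y ys * Mw X Y xs := by
    simp only [Mw, List.map_append, List.prod_append]
  refine mul_left_cancel (a := -sc A 3) ?_
  calc -sc A 3 * (-sc A 3 * Mw X Y (ys ++ xs))
      = (-sc A 3 * Mw X Y ys) * (-sc A 3 * Mw X Y xs) := by
        rw [h0, mul_assoc, (c_comm (Mw X Y ys)).left_comm]
    _ = (-sc A 3) ^ (j + i) * (Y' * X') := by
        rw [hx, hy, pow_add, mul_assoc, mul_assoc, ((c_comm Y').pow_left i).left_comm]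
    _ = -sc A 3 * ((-sc A 3) ^ (j + i) * mv X' Y') := by
        rw [← c_mv X' Y', (c_comm _).left_comm]

theorem Mw_twist (X Y : Aˣ) (n p q : ℕ) (hn : p + q ≤ n) (hq : 1 ≤ q) (hpq : p.Coprime q)
    {X' Y' : Aˣ} {xs ys : List Bool} {i j : ℕ}
    (hx : -sc A 3 * Mw X Y xs = (-sc A 3) ^ i * X') (hy : -sc A 3 * Mw X Y ys = (-sc A 3) ^ j * Y') :
    -sc A 3 * Mw X Y (twist^[n] (p, q, xs, ys)).2.2.2 =
      (-sc A 3) ^ (p * i + q * j) * (euc mv p q X' Y').2 := by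
  induction n generalizing p q X' Y' xs ys i j with
  | zero => omega
  | succ n ih =>
    by_cases hp : p = 0
    · subst hp
      obtain rfl : q = 1 := by simpa using hpq
      rw [Function.iterate_fixed (by simp [twist]), euc]
      simpa using hy
    rw [Function.iterate_succ_apply, twist, euc, if_neg (show ¬ (p = 0 ∨ q = 0) by omega),
      if_neg (show ¬ (p = 0 ∨ q = 0) by omega)]
    split_ifs with h2
    · rw [ih _ _ (by omega) hq (cop_left h2 hpq) hx (Mw_step hx hy)]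
      obtain ⟨k, rfl⟩ := Nat.exists_eq_add_of_le h2
      rw [Nat.add_sub_cancel_left]
      congr 2
      ring
    · rw [ih _ _ (by omega) (by omega) (cop_right (by omega) hpq) (Mw_step hx hy) hy]
      obtain ⟨k, rfl⟩ := Nat.exists_eq_add_of_le (show p ≤ q by omega)
      rw [Nat.add_sub_cancel_left]
      congr 2
      ring

theorem Mw_curve (X Y : Aˣ) (p q : ℕ) (hq : 1 ≤ q) (hpq : p.Coprime q) {X' Y' : Aˣ}
    {xs ys : List Bool} {i j : ℕ}
    (hx : -sc A 3 * Mw X Y xs = (-sc A 3) ^ i * X') (hy : -sc A 3 * Mw X Y ys = (-sc A 3) ^ j * Y') :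
    -sc A 3 * Mw X Y (curve p q xs ys) = (-sc A 3) ^ (p * i + q * j) * (euc mv p q X' Y').2 :=
  Mw_twist X Y _ p q le_rfl hq hpq hx hy

theorem sc_left (n : ℤ) (x y : Aˣ) : x * (sc A n * y) = sc A n * (x * y) := by
  rw [← mul_assoc, ← sc_comm, mul_assoc]

theorem sc_sc (m n : ℤ) (y : Aˣ) : sc A m * (sc A n * y) = sc A (m + n) * y := by
  rw [sc_add, mul_assoc]

theorem pow_tor {x y : Aˣ} (h : y * x = sc A 2 * x * y) (n : ℕ) :
    y ^ n * x = sc A (2 * n) * (x * y ^ n) := by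
  induction n with
  | zero => simp
  | succ n ih =>
    rw [pow_succ', mul_assoc, ih, sc_left, ← mul_assoc y x, h, mul_assoc, mul_assoc, sc_sc]
    congr 2

theorem tm_pow {x y : Aˣ} (h : y * x = sc A 2 * x * y) (n : ℕ) :
    tm x y ^ n = sc A (n * n) * (x ^ n * y ^ n) := by
  induction n with
  | zero => simp
  | succ n ih =>
    have e : ((n + 1 : ℕ) : ℤ) * ((n + 1 : ℕ) : ℤ) = n * n + (1 + 2 * n) := by
      push_cast
      ring
    rw [pow_succ, ih, tm, e, mul_assoc, mul_assoc (sc A 1), sc_left 1, mul_assoc (x ^ n),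
      ← mul_assoc (y ^ n), pow_tor h, mul_assoc (sc A (2 * n)), sc_left _ (x ^ n), sc_sc, sc_sc,
      pow_succ, pow_succ, add_assoc]
    simp only [mul_assoc]

theorem tor_left {x y : Aˣ} (h : y * x = sc A 2 * x * y) :
    tm x y * x = sc A 2 * x * tm x y := by
  rw [tm, mul_assoc, mul_assoc, h, mul_assoc (sc A 2), mul_assoc (sc A 2), mul_assoc (sc A 1),
    sc_left 2 x, sc_left 1 x, sc_sc, sc_sc, add_comm]

theorem tor_right {x y : Aˣ} (h : y * x = sc A 2 * x * y) :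
    y * tm x y = sc A 2 * tm x y * y := by
  rw [tm, mul_assoc (sc A 1), sc_left, ← mul_assoc y, h]
  simp only [mul_assoc, sc_sc, add_comm]

end Alg3

open Alg3

theorem euc_mv_snd (hq : 1 ≤ q) (hpq : p.Coprime q) (X Y : Aˣ) :
    Mw X Y (curve p q [true] [false]) = (-sc A 3) ^ (p + q - 1) * (euc mv p q X Y).2 := by
  have h := Mw_curve X Y p q hq hpq (X' := X) (Y' := Y) (xs := [true]) (ys := [false]) (i := 1)
    (j := 1) (by simp [Mw]) (by simp [Mw])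
  rw [mul_one, mul_one, show p + q = p + q - 1 + 1 by omega, pow_succ', mul_assoc] at h
  exact mul_left_cancel h

theorem euc_tm_snd (hq : 1 ≤ q) (hpq : p.Coprime q) {x y : Aˣ} (h : y * x = sc A 2 * x * y) :
    (euc tm p q x y).2 = sc A (p * q) * x ^ p * y ^ q := by
  induction hn : p + q using Nat.strong_induction_on generalizing p q x y with
  | _ n ih =>
    rw [euc]
    by_cases hp : p = 0
    · subst hp
      obtain rfl : q = 1 := by simpa using hpq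
      simp
    rw [if_neg (show ¬ (p = 0 ∨ q = 0) by omega)]
    split_ifs with h2
    · rw [ih _ (by omega) hq (cop_left h2 hpq) (tor_left h) rfl, tm_pow h]
      obtain ⟨k, rfl⟩ := Nat.exists_eq_add_of_le h2
      rw [Nat.add_sub_cancel_left, mul_assoc, sc_left _ (x ^ k), sc_sc, ← mul_assoc (x ^ k),
        ← pow_add, mul_assoc, add_comm k q]
      congr 2
      push_cast
      ring
    · rw [ih _ (by omega) (by omega) (cop_right (by omega) hpq) (tor_right h) rfl, tm_pow h]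
      obtain ⟨k, rfl⟩ := Nat.exists_eq_add_of_le (show p ≤ q by omega)
      rw [Nat.add_sub_cancel_left, sc_sc, mul_assoc, mul_assoc, ← pow_add, mul_assoc]
      congr 2
      push_cast
      ring

theorem euc_del (p q : ℕ) (X Y : Aˣ) : del (euc mv p q X Y).1 (euc mv p q X Y).2 = del X Y :=
  euc_ind (fun X' Y' => del X' Y' = del X Y) (fun _ _ h => (del_mv_left _ _).trans h)
    (fun _ _ h => (del_mv_right _ _).trans h) p q rfl

theorem euc_mv_mem (H : Subgroup Aˣ) (hs : ∀ n, sc A n ∈ H) (hn : -1 ∈ H) (p q : ℕ) {X Y : Aˣ}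
    (hX : X ∈ H) (hY : Y ∈ H) : (euc mv p q X Y).1 ∈ H ∧ (euc mv p q X Y).2 ∈ H := by
  have key : ∀ X Y : Aˣ, X ∈ H ∧ Y ∈ H → mv X Y ∈ H := fun X Y h => by
    rw [mv, ← neg_one_mul]
    exact H.mul_mem (H.mul_mem (H.mul_mem hn (hs _)) h.2) h.1
  exact euc_ind (fun X Y => X ∈ H ∧ Y ∈ H) (fun X Y h => ⟨h.1, key X Y h⟩)
    (fun X Y h => ⟨key X Y h, h.2⟩) p q ⟨hX, hY⟩

theorem euc_tm_mem (H : Subgroup Aˣ) (hs : ∀ n, sc A n ∈ H) (p q : ℕ) (x y : Aˣ) :
    ((euc tm p q x y).1 ∈ H ∧ (euc tm p q x y).2 ∈ H) ↔ (x ∈ H ∧ y ∈ H) := by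
  refine euc_ind (fun x' y' => (x' ∈ H ∧ y' ∈ H) ↔ (x ∈ H ∧ y ∈ H)) (fun x' y' h => ?_)
    (fun x' y' h => ?_) p q Iff.rfl
  · rw [← h]
    exact and_congr_right fun hx => H.mul_mem_cancel_left (H.mul_mem (hs 1) hx)
  · rw [← h]
    refine and_congr_left fun hy => ?_
    rw [tm, H.mul_mem_cancel_right hy, H.mul_mem_cancel_left (hs 1)]

theorem euc_tm_surj (p q : ℕ) (x' y' : Aˣ) : ∃ x y, euc tm p q x y = (x', y') := by
  induction hn : p + q using Nat.strong_induction_on generalizing p q with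
  | _ n ih =>
    by_cases h1 : p = 0 ∨ q = 0
    · exact ⟨x', y', by rw [euc, if_pos h1]⟩
    by_cases h2 : q ≤ p
    · obtain ⟨x, y, h⟩ := ih _ (by omega) (p - q) q rfl
      refine ⟨x, (sc A 1 * x)⁻¹ * y, ?_⟩
      rw [euc, if_neg h1, if_pos h2, tm, mul_inv_cancel_left, h]
    · obtain ⟨x, y, h⟩ := ih _ (by omega) p (q - p) rfl
      refine ⟨(sc A 1)⁻¹ * (x * y⁻¹), y, ?_⟩
      rw [euc, if_neg h1, if_neg h2, tm, mul_inv_cancel_left, inv_mul_cancel_right, h]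

end Units

variable {P Q L L' : Type} [AddCommGroup P] [Module R P] [AddCommGroup Q] [Module R Q]
  [AddCommGroup L] [Module R L] [AddCommGroup L'] [Module R L'] {b : Base P Q}
  {X Y : (Module.End R Q)ˣ} {α : P →ₗ[R] L} {x y : (Module.End R L)ˣ}

theorem Base.Pair.euc (h : b.Pair X Y) (p q : ℕ) :
    b.Pair (euc mv p q X Y).1 (euc mv p q X Y).2 :=
  euc_ind b.Pair (fun _ _ h => h.left) (fun _ _ h => h.right) p q h

theorem Base.Sys.euc_iff (h : b.Pair X Y) (p q : ℕ) :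
    b.Sys α (euc mv p q X Y).1 (euc mv p q X Y).2 (euc tm p q x y).1 (euc tm p q x y).2 ↔
      b.Sys α X Y x y :=
  (euc_ind₂ (fun X' Y' x' y' => b.Pair X' Y' ∧ (b.Sys α X' Y' x' y' ↔ b.Sys α X Y x y))
    (fun _ _ _ _ h => ⟨h.1.left, Iff.trans ⟨Sys.left_back h.1, Sys.left h.1⟩ h.2⟩)
    (fun _ _ _ _ h => ⟨h.1.right, Iff.trans ⟨Sys.right_back h.1, Sys.right h.1⟩ h.2⟩)
    p q ⟨h, Iff.rfl⟩).2

theorem euc_tm_map (φ : L →ₗ[R] L') {x' y' : (Module.End R L')ˣ} (hx : ∀ w, φ (x.1 w) = x'.1 (φ w))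
    (hy : ∀ w, φ (y.1 w) = y'.1 (φ w)) (p q : ℕ) :
    (∀ w, φ ((euc tm p q x y).1.1 w) = (euc tm p q x' y').1.1 (φ w)) ∧
      ∀ w, φ ((euc tm p q x y).2.1 w) = (euc tm p q x' y').2.1 (φ w) := by
  have key : ∀ (x y : (Module.End R L)ˣ) (x' y' : (Module.End R L')ˣ),
      ((∀ w, φ (x.1 w) = x'.1 (φ w)) ∧ ∀ w, φ (y.1 w) = y'.1 (φ w)) →
      ∀ w, φ ((tm x y).1 w) = (tm x' y').1 (φ w) := fun x y x' y' h w => by
    rw [tm_apply, tm_apply, map_smul, h.1, h.2]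
  exact euc_ind₂ (fun (x y : (Module.End R L)ˣ) (x' y' : (Module.End R L')ˣ) => (∀ w, φ (x.1 w) = x'.1 (φ w)) ∧
      ∀ w, φ (y.1 w) = y'.1 (φ w))
    (fun _ _ _ _ h => ⟨h.1, key _ _ _ _ h⟩) (fun _ _ _ _ h => ⟨key _ _ _ _ h, h.2⟩) p q ⟨hx, hy⟩

/-- the image of `α` generates `L` under the torus -/
def GenBy (α : P →ₗ[R] L) (x y : (Module.End R L)ˣ) : Prop :=
  ∀ S : Submodule R L, LinearMap.range α ≤ S → (∀ w ∈ S, x.1 w ∈ S) → (∀ w ∈ S, x⁻¹.1 w ∈ S) →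
    (∀ w ∈ S, y.1 w ∈ S) → (∀ w ∈ S, y⁻¹.1 w ∈ S) → S = ⊤

theorem GenBy.euc (h : GenBy α x y) (p q : ℕ) :
    GenBy α (euc tm p q x y).1 (euc tm p q x y).2 := by
  refine euc_ind (GenBy α) (fun x y h S h0 h1 h2 h3 h4 => h S h0 h1 h2 (fun w hw => ?_) fun w hw => ?_)
    (fun x y h S h0 h1 h2 h3 h4 => h S h0 (fun w hw => ?_) (fun w hw => ?_) h3 h4) p q h
  · have := S.smul_mem (a (-1)) (h2 _ (h3 w hw))
    rwa [tm_apply, map_smul, Alg2.im, smul_smul, mul_comm, a_mul_neg, one_smul] at this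
  · have := S.smul_mem (a 1) (h4 _ (h1 w hw))
    rwa [tm_inv_apply, Alg2.im, smul_smul, a_mul_neg, one_smul] at this
  · have := S.smul_mem (a (-1)) (h1 _ (h4 w hw))
    rwa [tm_apply, Alg2.mi, smul_smul, mul_comm, a_mul_neg, one_smul] at this
  · have := S.smul_mem (a 1) (h3 _ (h2 w hw))
    rwa [tm_inv_apply, map_smul, Alg2.mi, smul_smul, a_mul_neg, one_smul] at this

/-- the relations of the lens space -/
def Jsub (α : P →ₗ[R] L) (y : (Module.End R L)ˣ) : Submodule R L :=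
  LinearMap.range (y⁻¹.1 + 1) ⊔ LinearMap.range α

theorem Base.Sys.slide_mem (s : b.Sys α X Y x y) (w : Q) :
    x⁻¹.1 (α (b.κ (Y.1 w))) - x⁻¹.1 (α (b.κ w)) ∈ Jsub α y := by
  have h1 : ∀ v, y⁻¹.1 v + v ∈ Jsub α y := fun v => Submodule.mem_sup_left ⟨v, rfl⟩
  have h2 : ∀ v, α v ∈ Jsub α y := fun v => Submodule.mem_sup_right ⟨v, rfl⟩
  have h3 : x⁻¹.1 (α (b.κ (Y.1 w))) - x⁻¹.1 (α (b.κ w)) =
      a 2 • α (b.κ (X⁻¹.1 w)) - a (-2) • α (b.κ (X⁻¹.1 (Y.1 w))) -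
        a 2 • (y⁻¹.1 (α (b.κ (X⁻¹.1 w))) + α (b.κ (X⁻¹.1 w))) -
        (y⁻¹.1 (x⁻¹.1 (α (b.κ w))) + x⁻¹.1 (α (b.κ w))) := by
    have e := Alg2.AB
    linear_combination (norm := skip) a (-2) • s.J w
    match_scalars <;> (try simp only [Alg2.p2, Alg2.p4, Alg2.n2]) <;> grind
  rw [h3]
  exact sub_mem (sub_mem (sub_mem (Submodule.smul_mem _ _ (h2 _)) (Submodule.smul_mem _ _ (h2 _)))
    (Submodule.smul_mem _ _ (h1 _))) (h1 _)

theorem Base.Sys.surj (s : b.Sys α X Y x y) (h : GenBy α x y) (v : L) :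
    ∃ w, v - x⁻¹.1 (α w) ∈ Jsub α y := by
  let E : Submodule R L := LinearMap.range α ⊔ LinearMap.range (x⁻¹.1 ∘ₗ α)
  have e1 : ∀ w, α w ∈ E := fun w => Submodule.mem_sup_left ⟨w, rfl⟩
  have e2 : ∀ w, x⁻¹.1 (α w) ∈ E := fun w => Submodule.mem_sup_right ⟨w, rfl⟩
  have ex : E ≤ E.comap x.1 := by
    refine sup_le ?_ ?_
    · rintro _ ⟨w, rfl⟩
      rw [Submodule.mem_comap, eq_sub_of_add_eq (s.GX w).symm]
      exact sub_mem (e1 _) (e2 _)
    · rintro _ ⟨w, rfl⟩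
      rw [Submodule.mem_comap, LinearMap.comp_apply, Alg2.mi]
      exact e1 _
  have ex' : E ≤ E.comap x⁻¹.1 := by
    refine sup_le ?_ ?_
    · rintro _ ⟨w, rfl⟩
      exact e2 _
    · rintro _ ⟨w, rfl⟩
      rw [Submodule.mem_comap, LinearMap.comp_apply, eq_sub_of_add_eq' (s.GX w).symm, map_sub,
        Alg2.im]
      exact sub_mem (e2 _) (e1 _)
  let N : Submodule R L := sInf {S | E ≤ S ∧ (∀ w ∈ S, y.1 w ∈ S) ∧ ∀ w ∈ S, y⁻¹.1 w ∈ S}
  have n0 : E ≤ N := le_sInf fun S hS => hS.1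
  have n1 : ∀ w ∈ N, y.1 w ∈ N := fun w hw =>
    Submodule.mem_sInf.2 fun S hS => hS.2.1 w (Submodule.mem_sInf.1 hw S hS)
  have n2 : ∀ w ∈ N, y⁻¹.1 w ∈ N := fun w hw =>
    Submodule.mem_sInf.2 fun S hS => hS.2.2 w (Submodule.mem_sInf.1 hw S hS)
  have n3 : N ≤ N.comap x.1 := sInf_le ⟨fun w hw => n0 (ex hw), fun w hw => by
      rw [Submodule.mem_comap, Alg2.c1 s.tor]
      exact N.smul_mem _ (n1 _ hw), fun w hw => by
      rw [Submodule.mem_comap, Alg2.c3 s.tor]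
      exact N.smul_mem _ (n2 _ hw)⟩
  have n4 : N ≤ N.comap x⁻¹.1 := sInf_le ⟨fun w hw => n0 (ex' hw), fun w hw => by
      rw [Submodule.mem_comap, Alg2.c2 s.tor]
      exact N.smul_mem _ (n1 _ hw), fun w hw => by
      rw [Submodule.mem_comap, Alg2.c4 s.tor]
      exact N.smul_mem _ (n2 _ hw)⟩
  have hN : N = ⊤ := h N (le_sup_left.trans n0) (fun w hw => n3 hw) (fun w hw => n4 hw) n1 n2
  let K : Submodule R L := Jsub α y ⊔ LinearMap.range (x⁻¹.1 ∘ₗ α)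
  have k1 : ∀ v, y⁻¹.1 v + v ∈ K := fun v =>
    Submodule.mem_sup_left (Submodule.mem_sup_left ⟨v, rfl⟩)
  have hK : N ≤ K := sInf_le ⟨sup_le_sup_right le_sup_right _, fun w hw => by
      have := sub_mem (k1 (y.1 w)) hw
      rwa [Alg2.im, add_sub_cancel_left] at this, fun w hw => by
      have := sub_mem (k1 w) hw
      rwa [add_sub_cancel_right] at this⟩
  obtain ⟨z, hz, _, ⟨w, rfl⟩, h2⟩ := Submodule.mem_sup.1 (hK (hN ▸ Submodule.mem_top : v ∈ N))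
  exact ⟨w, by rw [← h2, LinearMap.comp_apply, add_sub_cancel_right]; exact hz⟩

end Pool.Agent.P.MP_b3a239_gt
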