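import Pool.Agent.P.MP_b3a239_gt.Alg1

/-! A map that does not see the drag `Y` gives a torus system on sequences. -/

set_option maxSynthPendingDepth 3

noncomputable section

namespace Pool.Agent.P.MP_b3a239_gt

variable {P Q L : Type} [AddCommGroup P] [Module R P] [AddCommGroup Q] [Module R Q]
  [AddCommGroup L] [Module R L] {b : Base P Q} {X Y : (Module.End R Q)ˣ} {π : P →ₗ[R] L}

namespace Alg4

open Polynomial Polynomial.Chebyshev

theorem two_ind (p : ℤ → Prop) (h0 : p 0) (h1 : p 1) (up : ∀ j, p (j - 1) → p j → p (j + 1))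
    (down : ∀ j, p (j + 1) → p j → p (j - 1)) (j : ℤ) : p j :=
  Polynomial.Chebyshev.induct p h0 h1
    (fun n ha hb => by
      have := up (n + 1) (by rwa [add_sub_cancel_right]) ha
      rwa [add_assoc] at this)
    (fun n ha hb => down (-n) hb ha) j

section Ring
variable {A : Type} [Ring A] [Algebra R A]

/-- Chebyshev polynomials of an element -/
def Sv (g : A) (j : ℤ) : A := aeval g (S R j)

theorem Sv_succ (g : A) (j : ℤ) : Sv g (j + 1) = g * Sv g j - Sv g (j - 1) := by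
  simp only [Sv, S_add_one, map_sub, map_mul, aeval_X]

theorem Sv_succ' (g : A) (j : ℤ) : Sv g (j + 1) = Sv g j * g - Sv g (j - 1) := by
  rw [Sv, S_add_one, mul_comm]
  simp only [Sv, map_sub, map_mul, aeval_X]

theorem Sv_zero (g : A) : Sv g 0 = 1 := by simp [Sv]
theorem Sv_neg_one (g : A) : Sv g (-1) = 0 := by simp [Sv]
theorem Sv_neg_two (g : A) : Sv g (-2) = -1 := by simp [Sv]
theorem Sv_neg (g : A) (j : ℤ) : Sv g (-j) = -Sv g (j - 2) := by rw [Sv, S_neg, map_neg, Sv]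
theorem Sv_neg_sub_one (g : A) (j : ℤ) : Sv g (-j - 1) = -Sv g (j - 1) := by
  rw [Sv, S_neg_sub_one, map_neg, Sv]
theorem Sv_neg_sub_two (g : A) (j : ℤ) : Sv g (-j - 2) = -Sv g j := by
  rw [Sv, S_neg_sub_two, map_neg, Sv]

theorem zpow_eq (s : Aˣ) (j : ℤ) :
    (s ^ j).1 = s.1 * Sv (s.1 + s⁻¹.1) (j - 1) - Sv (s.1 + s⁻¹.1) (j - 2) := by
  set h : A := s.1 + s⁻¹.1 with hh
  have hc : s.1 * h = h * s.1 := by rw [hh, mul_add, add_mul, Units.mul_inv, Units.inv_mul]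
  have r1 : ∀ j : ℤ, (s ^ (j + 1)).1 + (s ^ (j - 1)).1 = h * (s ^ j).1 := fun j => by
    rw [hh, add_mul, ← Units.val_mul, ← Units.val_mul, add_comm j 1, zpow_one_add, sub_eq_neg_add,
      zpow_add, zpow_neg_one]
  have r2 : ∀ j : ℤ, s.1 * Sv h (j + 1 - 1) - Sv h (j + 1 - 2) +
      (s.1 * Sv h (j - 1 - 1) - Sv h (j - 1 - 2)) = h * (s.1 * Sv h (j - 1) - Sv h (j - 2)) := by
    intro j
    rw [show j + 1 - 1 = j - 1 + 1 by ring, show j + 1 - 2 = j - 2 + 1 by ring,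
      show j - 1 - 2 = j - 2 - 1 by ring, Sv_succ, Sv_succ, mul_sub, mul_sub, ← mul_assoc, hc,
      mul_assoc]
    abel
  refine two_ind (fun j => (s ^ j).1 = s.1 * Sv h (j - 1) - Sv h (j - 2)) ?_ ?_ (fun j ha hb => ?_)
    (fun j ha hb => ?_) j
  · simp [Sv_neg_one, Sv_neg_two]
  · norm_num [Sv_zero, Sv_neg_one]
  · have := r1 j
    rw [ha, hb, ← r2] at this
    exact add_right_cancel this
  · have := r1 j
    rw [ha, hb, ← r2] at this
    exact add_left_cancel this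

theorem Sv_sub (s : Aˣ) (j : ℤ) :
    Sv (s.1 + s⁻¹.1) j - Sv (s.1 + s⁻¹.1) (j - 2) = (s ^ j).1 + (s ^ (-j)).1 := by
  rw [zpow_eq, zpow_eq, Sv_neg_sub_one, Sv_neg_sub_two, mul_neg]
  abel

theorem sc_zpow (n j : ℤ) : sc A n ^ j = sc A (n * j) := by
  induction j using Int.induction_on with
  | zero => simp
  | succ j ih => rw [zpow_add_one, ih, ← sc_add, mul_add, mul_one]
  | pred j ih => rw [zpow_sub_one, ih, sc_inv, ← sc_add, mul_sub, mul_one, sub_eq_add_neg]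

end Ring

theorem Sv_map {M N : Type} [AddCommGroup M] [Module R M] [AddCommGroup N] [Module R N]
    (φ : M →ₗ[R] N) {g : Module.End R N} {h : Module.End R M} (e : ∀ w, g (φ w) = φ (h w)) (j : ℤ)
    (w : M) : Sv g j (φ w) = φ (Sv h j w) := by
  unfold Sv
  generalize S R j = p
  induction p using Polynomial.induction_on generalizing w with
  | C c => simp
  | add p q hp hq => simp only [map_add, LinearMap.add_apply, hp, hq]
  | monomial n c ih =>
    rw [pow_succ, ← mul_assoc, map_mul _ _ Polynomial.X, map_mul _ _ Polynomial.X, aeval_X, aeval_X,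
      Module.End.mul_apply, Module.End.mul_apply, e, ih]

theorem mi (x : (Module.End R L)ˣ) (w : L) : x.1 (x⁻¹.1 w) = w :=
  LinearMap.congr_fun x.mul_inv w

theorem im (x : (Module.End R L)ˣ) (w : L) : x⁻¹.1 (x.1 w) = w :=
  LinearMap.congr_fun x.inv_mul w

/-- a multiple of the inverse drag -/
def ss (n : ℤ) (X : (Module.End R Q)ˣ) : (Module.End R Q)ˣ := -sc _ n * X⁻¹

/-- the symmetrised operator -/
def hs (n : ℤ) (X : (Module.End R Q)ˣ) : Module.End R Q := (ss n X).1 + (ss n X)⁻¹.1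

theorem ss_apply (n : ℤ) (w : Q) : (ss n X).1 w = -(a n • X⁻¹.1 w) := by
  rw [ss, Units.val_mul, Units.val_neg, Module.End.mul_apply, LinearMap.neg_apply, sc_apply]

theorem ss_inv_apply (n : ℤ) (w : Q) : (ss n X)⁻¹.1 w = -(a (-n) • X.1 w) := by
  rw [ss, mul_inv_rev, inv_inv, inv_neg, sc_inv, Units.val_mul, Units.val_neg, Module.End.mul_apply,
    LinearMap.neg_apply, sc_apply, map_neg, map_smul]

theorem hs_apply (n : ℤ) (w : Q) : hs n X w = -(a (-n) • X.1 w) - a n • X⁻¹.1 w := by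
  rw [hs, LinearMap.add_apply, ss_apply, ss_inv_apply]
  abel

theorem ss_zpow (j : ℤ) (w : Q) : (ss 4 X ^ j).1 w = a (2 * j) • (ss 2 X ^ j).1 w := by
  have h1 : ss 4 X = sc _ 2 * ss 2 X := by
    rw [ss, ss, ← mul_assoc, mul_neg, ← sc_add]
    rfl
  have h2 : Commute (sc (Module.End R Q) 2) (ss 2 X) := sc_comm 2 _
  rw [h1, h2.mul_zpow, sc_zpow, Units.val_mul, Module.End.mul_apply, sc_apply]

theorem S_κ (h : b.Drag X) (j : ℤ) (w : Q) : Sv (b.γ X) j (b.κ w) = b.κ (Sv (hs 2 X) j w) :=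
  Sv_map b.κ (fun w => by rw [h.H, hs_apply, map_sub, map_neg, map_smul, map_smul]) j w

theorem S_Y (h : b.Pair X Y) (j : ℤ) (w : Q) : Sv (hs 2 X) j (Y.1 w) = Y.1 (Sv (hs 4 X) j w) :=
  Sv_map Y.1 (fun w => by
    rw [hs_apply, hs_apply, map_sub, map_neg, map_smul, map_smul]
    linear_combination (norm := skip) (-1 : R) • h.B8 w
    module) j w

theorem S_Z (n j : ℤ) (w : Q) : Sv (hs n X) j (X⁻¹.1 w) = X⁻¹.1 (Sv (hs n X) j w) :=
  Sv_map X⁻¹.1 (fun w => by
    rw [hs_apply, hs_apply, map_sub, map_neg, map_smul, map_smul, mi, im]) j w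

theorem zpow_apply (n j : ℤ) (w : Q) : (ss n X ^ j).1 w =
    -(a n • X⁻¹.1 (Sv (hs n X) (j - 1) w)) - Sv (hs n X) (j - 2) w := by
  rw [zpow_eq, LinearMap.sub_apply, Module.End.mul_apply, ss_apply]
  rfl

theorem ZY (h : b.Pair X Y) (hπ : ∀ w, π (b.κ (Y.1 w)) = π (b.κ w)) (w : Q) :
    π (b.κ (X⁻¹.1 (Y.1 w))) = a 6 • π (b.κ (X⁻¹.1 w)) := by
  have h1 : X.1 (b.σ (Y.1 w)) = b.σ (Y.1 (b.σ (X.1 (b.σ w)))) := LinearMap.congr_fun h.B3 w
  have h2 := h.hX.κ_σ (Y.1 w)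
  rw [h1, b.κ_σ] at h2
  have h3 : b.κ (Y.1 (b.σ (X.1 (b.σ w)))) = b.κ (X⁻¹.1 (Y.1 w)) := by
    have := congrArg ((-a (-3)) • ·) h2
    simp only [smul_smul, neg_mul_neg] at this
    rwa [mul_comm, a_mul_neg, one_smul, one_smul] at this
  rw [← h3, hπ, b.κ_σ, h.hX.κ_σ, smul_smul, map_smul, neg_mul_neg, ← a_add]
  rfl

theorem κsι (h : b.Drag X) (j : ℤ) (w : P) : b.κ ((ss 2 X ^ j).1 (b.ι w)) =
    a (-2) • Sv (b.γ X) (j - 2) w - a 2 • Sv (b.γ X) j w := by
  have h1 : b.κ (X⁻¹.1 (b.ι w)) = b.γ X w := LinearMap.congr_fun h.γ_inv w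
  have h2 := LinearMap.congr_fun (Sv_succ' (b.γ X) (j - 1)) w
  rw [sub_add_cancel, LinearMap.sub_apply, Module.End.mul_apply, show j - 1 - 1 = j - 2 by ring] at h2
  rw [zpow_apply, ← S_Z, map_sub, map_neg, map_smul, ← S_κ h, ← S_κ h, h1, b.κι, map_smul, h2, dd]
  module

theorem κhι (h : b.Drag X) (j : ℤ) (w : P) : b.κ (Sv (hs 4 X) (j - 1) (b.ι w)) =
    -((a (2 * j) + a (-(2 * j))) • Sv (b.γ X) (j - 1) w) := by
  have r : ∀ j : ℤ, b.κ (Sv (hs 4 X) (j + 1 - 1) (b.ι w)) - b.κ (Sv (hs 4 X) (j - 1 - 1) (b.ι w)) =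
      -((a (2 * (j + 1)) + a (-(2 * (j + 1)))) • Sv (b.γ X) (j + 1 - 1) w) -
        -((a (2 * (j - 1)) + a (-(2 * (j - 1)))) • Sv (b.γ X) (j - 1 - 1) w) := by
    intro j
    have h1 := LinearMap.congr_fun (Sv_sub (ss 4 X) j) (b.ι w)
    rw [LinearMap.sub_apply, LinearMap.add_apply, ss_zpow, ss_zpow] at h1
    rw [add_sub_cancel_right, show j - 1 - 1 = j - 2 by ring, ← map_sub]
    erw [h1]
    rw [map_add, map_smul, map_smul, κsι h, κsι h, Sv_neg, Sv_neg_sub_two, LinearMap.neg_apply,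
      LinearMap.neg_apply, show 2 * (j + 1) = 2 * j + 2 by ring,
      show -(2 * j + 2) = 2 * -j + -2 by ring, show 2 * (j - 1) = 2 * j + -2 by ring,
      show -(2 * j + -2) = 2 * -j + 2 by ring]
    simp only [a_add]
    module
  refine two_ind (fun j => b.κ (Sv (hs 4 X) (j - 1) (b.ι w)) =
    -((a (2 * j) + a (-(2 * j))) • Sv (b.γ X) (j - 1) w)) ?_ ?_ (fun j ha _ => ?_)
    (fun j ha _ => ?_) j
  · simp [Sv_neg_one]
  · simp only [sub_self, Sv_zero, Module.End.one_apply, b.κι, dd, neg_smul, mul_one]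
  · have := r j
    rw [ha] at this
    exact sub_left_injective this
  · have := r j
    rw [ha] at this
    exact sub_right_injective this

theorem cheb_apply (π : P →ₗ[R] L) (g : Module.End R P) (w : P) (i : ℤ) :
    cheb π g w i = -π (Sv g (i - 1) w) := rfl

theorem x_apply (v : ℤ → L) (i : ℤ) : (xZ L).1 v i = v (i + 1) := rfl
theorem xi_apply (v : ℤ → L) (i : ℤ) : (xZ L)⁻¹.1 v i = v (i - 1) := rfl
theorem y_apply (v : ℤ → L) (i : ℤ) : (yZ L).1 v i = (-a (-(2 * i))) • v i := rfl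
theorem yi_apply (v : ℤ → L) (i : ℤ) : (yZ L)⁻¹.1 v i = (-a (2 * i)) • v i := rfl

end Alg4

open Alg4

theorem cheb_zero (π : P →ₗ[R] L) (g : Module.End R P) (w : P) : cheb π g w 0 = 0 := by
  rw [cheb_apply, zero_sub, Sv_neg_one, LinearMap.zero_apply, map_zero, neg_zero]

theorem cheb_neg_one (π : P →ₗ[R] L) (g : Module.End R P) (w : P) : cheb π g w (-1) = π w := by
  rw [cheb_apply, show (-1 : ℤ) - 1 = -2 by norm_num, Sv_neg_two, LinearMap.neg_apply, map_neg,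
    neg_neg, Module.End.one_apply]

theorem Base.Pair.sys_cheb (h : b.Pair X Y) (hπ : ∀ w, π (b.κ (Y.1 w)) = π (b.κ w)) :
    b.Sys (cheb π (b.γ X)) X Y (xZ L) (yZ L) where
  tor := by
    refine Units.ext (LinearMap.ext fun v => funext fun i => ?_)
    simp only [Units.val_mul, Module.End.mul_apply, sc_apply, Pi.smul_apply, x_apply, y_apply]
    rw [smul_smul, mul_neg, ← a_add]
    congr 3
    ring
  GX w := funext fun i => by
    have h2 := LinearMap.congr_fun (Sv_succ' (b.γ X) (i - 1)) w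
    rw [LinearMap.sub_apply, Module.End.mul_apply, sub_add_cancel] at h2
    simp only [Pi.add_apply, x_apply, xi_apply, cheb_apply, add_sub_cancel_right]
    rw [h2, map_sub]
    abel
  GY w := funext fun i => by
    simp only [Pi.add_apply, y_apply, yi_apply, cheb_apply]
    have h1 : b.γ Y w = b.κ (Y.1 (b.ι w)) := rfl
    rw [h1, S_κ h.hX, S_Y h, hπ, κhι h.hX, map_neg, map_smul]
    module
  J w := funext fun i => by
    have h1 := congrArg (fun v => π (b.κ v)) (ss_zpow (X := X) i w)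
    simp only [zpow_apply, map_sub, map_neg, map_smul] at h1
    simp only [Pi.add_apply, Pi.smul_apply, Pi.zero_apply, xi_apply, yi_apply, cheb_apply,
      S_κ h.hX, S_Z, S_Y h, hπ, ZY h hπ, show i - 1 - 1 = i - 2 by ring]
    have e4 : a 4 = a 2 * a 2 := by rw [← a_add]; rfl
    have e6 : a 6 = a 2 * a 2 * a 2 := by rw [← a_add, ← a_add]; rfl
    rw [e4] at h1
    rw [e4, e6]
    linear_combination (norm := skip) a 2 • h1
    module

theorem Base.Pair.del_eq (h : b.Pair X Y) (hπ : ∀ w, π (b.κ (Y.1 w)) = π (b.κ w)) (w : Q) :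
    π (b.j ((del X Y).1 w)) = a (-6) • π (b.j w) := by
  have hu : ∀ {Z : (Module.End R Q)ˣ}, b.Drag Z → ∀ v, b.u (Z.1 v) = Z.1 (b.u v) :=
    fun hZ v => (LinearMap.congr_fun hZ.cu v).symm
  have hu' : ∀ {Z : (Module.End R Q)ˣ}, b.Drag Z → ∀ v, b.u (Z⁻¹.1 v) = Z⁻¹.1 (b.u v) :=
    fun {Z} hZ v => by
      have := congrArg Z⁻¹.1 (hu hZ (Z⁻¹.1 v))
      rw [mi, im] at this
      exact this.symm
  have h1 := ZY h hπ (Y⁻¹.1 (X.1 (b.u w)))
  rw [mi, im] at h1
  simp only [del, Units.val_mul, Module.End.mul_apply]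
  rw [← b.κu, ← b.κu, hu h.hY, hu' h.hX, hu' h.hY, hu h.hX, hπ, h1, smul_smul, mul_comm, a_mul_neg,
    one_smul]

end Pool.Agent.P.MP_b3a239_gt
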