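import Pool.Agent.P.MP_b3a239_gt.VE

/-! Closed formulas for a strand that passes `l` strands. -/

set_option maxSynthPendingDepth 3

noncomputable section

namespace Pool.Agent.P.MP_b3a239_gt

variable {k : Type} [CommRing k] [Algebra R k] {l m : ℕ} {w : F k}

private theorem hAB : a 1 * a (-1) = 1 := a_mul_neg 1
private theorem a2 : a 2 = a 1 ^ 2 := by rw [a_pow]; rfl
private theorem a3 : a 3 = a 1 ^ 3 := by rw [a_pow]; rfl
private theorem a6 : a 6 = a 1 ^ 6 := by rw [a_pow]; rfl
private theorem am2 : a (-2) = a (-1) ^ 2 := by rw [a_pow]; rfl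
private theorem f0 : f 0 = 1 - a 1 ^ 4 := by rw [a_pow]; rfl

private theorem sg_apply (s : Bool) (x : F k) : vρ k (sg s 0) x =
    a (if s then 1 else -1) • x + a (if s then -1 else 1) • vρ k (U 0) (vρ k (C 0) x) := by
  simp only [sg, map_add, map_smul, map_one, map_mul, LinearMap.add_apply, LinearMap.smul_apply,
    Module.End.one_apply, Module.End.mul_apply]

private theorem sg_same (s b : Bool) (x : F k) : vρ k (sg s 0) (cons k b (cons k b x)) =
    a (if s then 1 else -1) • cons k b (cons k b x) := by
  rw [sg_apply, vρ_C_zero, if_pos rfl, map_zero, smul_zero, add_zero]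

private theorem sg_false_pm (x : F k) : vρ k (sg false 0) (cons k true (cons k false x)) =
    a 1 • cons k false (cons k true x) := by
  have := hAB
  simp only [sg_apply, vρ_C_zero, vρ_U_zero, Bool.true_eq_false, Bool.false_eq_true, if_true,
    if_false, am2]
  match_scalars <;> grind

private theorem sg_false_mp (x : F k) : vρ k (sg false 0) (cons k false (cons k true x)) =
    a 1 • cons k true (cons k false x) + (a (-1) * f 0) • cons k false (cons k true x) := by
  have := hAB
  simp only [sg_apply, vρ_C_zero, vρ_U_zero, Bool.false_eq_true, if_false, map_neg,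
    LinearMap.map_smul_of_tower, am2, a2, f0]
  match_scalars <;> grind

private theorem sg_true_mp (x : F k) : vρ k (sg true 0) (cons k false (cons k true x)) =
    a (-1) • cons k true (cons k false x) := by
  have := hAB
  simp only [sg_apply, vρ_C_zero, vρ_U_zero, Bool.false_eq_true, if_true, if_false, map_neg,
    LinearMap.map_smul_of_tower, am2, a2]
  match_scalars <;> grind

private theorem pR_step (s : Bool) (l : ℕ) (x : F k) :
    vρ k (pR s 0 (l + 1)) x = vρ k (shn 1 (pR s 0 l)) (vρ k (sg s 0) x) := by
  rw [pR_succ', shn_pR, map_mul, Module.End.mul_apply]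

private theorem pL_step (s : Bool) (l : ℕ) (x : F k) :
    vρ k (pL s 0 (l + 1)) x = vρ k (sg s 0) (vρ k (shn 1 (pL s 0 l)) x) := by
  rw [pL_succ', shn_pL, map_mul, Module.End.mul_apply]

/-- induction on the number of strands that are passed -/
private theorem pass_ind {P : ℕ → F k → Prop} (h₀ : ∀ w, P 0 w)
    (hs : ∀ l m u v, l ≤ m → u ∈ vLv k m → v ∈ vLv k m → P l u → P l v →
      P (l + 1) (cons k true u + cons k false v))
    (h : l ≤ m) (hw : w ∈ vLv k m) : P l w := by
  induction l generalizing m w with
  | zero => exact h₀ w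
  | succ l ih =>
    obtain ⟨m, rfl⟩ : ∃ n, m = n + 1 := ⟨m - 1, by omega⟩
    obtain ⟨u, hu, v, hv, rfl⟩ := exists_cons_of_mem_vLv hw
    exact hs l m u v (by omega) hu hv (ih (by omega) hu) (ih (by omega) hv)

omit [Algebra R k] in
private theorem cons_apply (b c : Bool) (x : F k) (s : List Bool) :
    cons k b x (c :: s) = if b = c then x s else 0 := by
  split_ifs with h
  · subst h
    exact Finsupp.mapDomain_apply (List.cons_injective) x s
  · refine Finsupp.mapDomain_of_notMem_range x _ ?_
    rintro ⟨t, ht⟩
    exact h (List.cons.inj ht).1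

omit [Algebra R k] in
private theorem cons_sep {u v u' v' : F k}
    (h : cons k true u + cons k false v = cons k true u' + cons k false v') : u = u' ∧ v = v' := by
  constructor <;> ext s
  · simpa [cons_apply] using DFunLike.congr_fun h (true :: s)
  · simpa [cons_apply] using DFunLike.congr_fun h (false :: s)

theorem pR_true_false (h : l ≤ m) (hw : w ∈ vLv k m) :
    vρ k (pR true 0 l) (cons k false w) = insAt k l false (KP k (-1) l w) := by
  refine pass_ind (P := fun l w => vρ k (pR true 0 l) (cons k false w) =
    insAt k l false (KP k (-1) l w)) (fun w => by simp [pR, insAt_zero]) ?_ h hw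
  intro l m u v _ _ _ hu hv
  simp only [map_add, pR_step, sg_same, sg_true_mp, LinearMap.map_smul_of_tower, vρ_shn_cons,
    KP_cons, insAt_succ_cons, hu, hv, Bool.false_eq_true, if_true, if_false, neg_neg]

theorem pR_false_true (h : l ≤ m) (hw : w ∈ vLv k m) :
    vρ k (pR false 0 l) (cons k true w) = insAt k l true (KP k (-1) l w) := by
  refine pass_ind (P := fun l w => vρ k (pR false 0 l) (cons k true w) =
    insAt k l true (KP k (-1) l w)) (fun w => by simp [pR, insAt_zero]) ?_ h hw
  intro l m u v _ _ _ hu hv
  simp only [map_add, pR_step, sg_same, sg_false_pm, LinearMap.map_smul_of_tower, vρ_shn_cons,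
    KP_cons, insAt_succ_cons, hu, hv, Bool.false_eq_true, if_true, if_false, neg_neg]

theorem pR_false_false (h : l ≤ m) (hw : w ∈ vLv k m) :
    vρ k (pR false 0 l) (cons k false w) =
      insAt k l false (KP k 1 l w) + f 0 • insAt k l true (FP k l (KP k (-1) l w)) := by
  refine pass_ind (P := fun l w => vρ k (pR false 0 l) (cons k false w) =
    insAt k l false (KP k 1 l w) + f 0 • insAt k l true (FP k l (KP k (-1) l w)))
    (fun w => by simp [pR, insAt_zero]) ?_ h hw
  intro l m u v hl hu' _ hu hv
  have := hAB
  simp only [map_add, pR_step, sg_same, sg_false_mp, LinearMap.map_smul_of_tower, vρ_shn_cons,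
    KP_cons, FP_true, FP_false, insAt_succ_cons, hu, hv, pR_false_true hl hu', Bool.false_eq_true,
    if_true, if_false, neg_neg, a2, am2]
  match_scalars <;> grind

theorem pL_false_false (h : l ≤ m) (hw : w ∈ vLv k m) :
    vρ k (pL false 0 l) (insAt k l false w) = cons k false (KP k 1 l w) := by
  refine pass_ind (P := fun l w => vρ k (pL false 0 l) (insAt k l false w) =
    cons k false (KP k 1 l w)) (fun w => by simp [pL, insAt_zero]) ?_ h hw
  intro l m u v _ _ _ hu hv
  simp only [map_add, pL_step, sg_same, sg_false_pm, LinearMap.map_smul_of_tower, vρ_shn_cons,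
    KP_cons, insAt_succ_cons, hu, hv, Bool.false_eq_true, if_true, if_false]

theorem pL_false_true (h : l ≤ m) (hw : w ∈ vLv k m) :
    vρ k (pL false 0 l) (insAt k l true w) =
      cons k true (KP k (-1) l w) + (a (-2) * f 0) • cons k false (EP k l (KP k (-1) l w)) := by
  refine pass_ind (P := fun l w => vρ k (pL false 0 l) (insAt k l true w) =
    cons k true (KP k (-1) l w) + (a (-2) * f 0) • cons k false (EP k l (KP k (-1) l w)))
    (fun w => by simp [pL, insAt_zero]) ?_ h hw
  intro l m u v _ _ _ hu hv
  have := hAB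
  simp only [map_add, pL_step, sg_same, sg_false_pm, sg_false_mp, LinearMap.map_smul_of_tower,
    vρ_shn_cons, KP_cons, EP_true, EP_false, insAt_succ_cons, hu, hv, Bool.false_eq_true, if_true,
    if_false, neg_neg, a2, am2]
  match_scalars <;> grind

theorem mon_true (h : l ≤ m) (hw : w ∈ vLv k m) :
    vρ k (fin false 0 l) (cons k true w) =
      cons k true (KP k (-2) l w) + (a (-2) * f 0) • cons k false (EP k l (KP k (-2) l w)) := by
  rw [fin, map_mul, Module.End.mul_apply, pR_false_true h hw, pL_false_true h (KP_mem hw), KP_KP]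
  rfl

theorem mon_false (h : l ≤ m) (hw : w ∈ vLv k m) :
    vρ k (fin false 0 l) (cons k false w) =
      cons k false (KP k 2 l w) + (a 2 * f 0) • cons k true (FP k l (KP k (-2) l w)) +
        (f 0 * f 0) • cons k false (EP k l (FP k l (KP k (-2) l w))) := by
  have := hAB
  rw [fin, map_mul, Module.End.mul_apply, pR_false_false h hw, map_add, map_smul,
    pL_false_false h (KP_mem hw), pL_false_true h (FP_mem (KP_mem hw)), KP_FP, KP_KP, KP_KP]
  simp only [LinearMap.map_smul_of_tower, Int.reduceNeg, Int.reduceAdd, Int.reduceMul, neg_neg, a2,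
    am2]
  match_scalars <;> grind

/-- on invariant vectors the full monodromy of strand `0` is `A ^ 6` -/
theorem mon_inv (hw : w ∈ vLv k (m + 1)) (h₀ : prW k 0 w = w) (hE : EE k w = 0) (hF : FF k w = 0) :
    vρ k (fin false 0 m) w = a 6 • w := by
  obtain ⟨y, hy, z, hz, rfl⟩ := exists_cons_of_mem_vLv hw
  have := hAB
  have e1 : prW k 0 (cons k true y) = cons k true (prW k (-1) y) := by
    simpa using prW_cons (-1) true y
  have e2 : prW k 0 (cons k false z) = cons k false (prW k 1 z) := by
    simpa using prW_cons 1 false z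
  rw [map_add, e1, e2] at h₀
  obtain ⟨wy, wz⟩ := cons_sep h₀
  have h1 : a 2 • EP k m y + z = 0 := by
    refine (cons_sep (u' := 0) (v := a (-2) • EP k m z) (v' := 0) ?_).1
    rw [map_add, EE_true, EE_false, EE_eq_EP le_rfl hy, EE_eq_EP le_rfl hz] at hE
    simp only [map_add, map_zero, LinearMap.map_smul_of_tower, add_zero, add_assoc, hE]
  have h2 : y + a (-2) • FP k m z = 0 := by
    refine (cons_sep (u := a 2 • FP k m y) (u' := 0) ?_).2
    rw [map_add, FF_true, FF_false, FF_eq_FP le_rfl hy, FF_eq_FP le_rfl hz] at hF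
    simp only [map_add, map_zero, LinearMap.map_smul_of_tower, add_zero]
    rw [← hF]
    abel
  have hEy : EP k m y = -(a (-2) • z) := by
    rw [eq_neg_of_add_eq_zero_right h1, smul_neg, neg_neg, smul_smul, mul_comm, a_mul_neg 2,
      one_smul]
  have hFz : FP k m z = -(a 2 • y) := by
    rw [eq_neg_of_add_eq_zero_left h2, smul_neg, neg_neg, smul_smul, a_mul_neg 2, one_smul]
  rw [map_add, mon_true le_rfl hy, mon_false le_rfl hz, KP_of_prW hy wy, KP_of_prW hz wz,
    KP_of_prW hz wz]
  simp only [LinearMap.map_smul_of_tower, map_neg, hEy, hFz, Int.reduceNeg, Int.reduceMul, a2, am2,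
    a6, f0]
  match_scalars <;> grind

theorem mon_true_wt (hw : w ∈ vLv k m) (h₀ : prW k (-1) w = w) :
    vρ k (fin false 0 m) (cons k true w) - a 6 • cons k true w = a 2 • Et k (cons k false w) := by
  have := hAB
  rw [mon_true le_rfl hw, KP_of_prW hw h₀, Et_false, Et_apply, EE_eq_EP le_rfl hw]
  simp only [LinearMap.map_smul_of_tower, Int.reduceNeg, Int.reduceMul, a2, am2, a6, f0]
  match_scalars <;> grind

end Pool.Agent.P.MP_b3a239_gt
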