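import Pool.Agent.P.MP_b3a239_gt.Tower1

/-! The towers of planar words and of link diagrams. -/

set_option maxSynthPendingDepth 3

open FreeAlgebra

noncomputable section

namespace Pool.Agent.P.MP_b3a239_gt

def Pl.mk : Pl → Bool
  | .box _ => true
  | _ => false

def Sl.mk : Sl → Bool
  | .hole _ => true
  | _ => false

abbrev relP (L : List (ℕ × ℕ)) : ℕ → ℕ → PA → Prop :=
  fun m j x => PlanarRel m x ∨ BoxRel (par L j).1 (par L j).2 x

abbrev OP (L : List (ℕ × ℕ)) : Type := Op Pl.step (relP L)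

abbrev OS (L : List (ℕ × ℕ)) : Type := Op Sl.step (SkeinRel (par L))

variable (L : List (ℕ × ℕ))

theorem Tower_wd_one {σ : Type} (s : σ) : wd [s] = ι R s := by rw [wd_cons, wd_nil, mul_one]

theorem Tower_wd_two {σ : Type} (s s' : σ) : wd [s, s'] = ι R s * ι R s' := by
  rw [wd_cons, Tower_wd_one]

theorem Tower_wd_mem {σ : Type} {mk : σ → Bool} {e : ℕ} (r : List σ) (h : r.countP mk = e) :
    wd r ∈ Mk mk e := h ▸ wd_mem_Mk mk r

theorem Tower_one_mem {σ : Type} {mk : σ → Bool} {e : ℕ} (s : σ) (h : [s].countP mk = e) :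
    ι R s ∈ Mk mk e := Tower_wd_one s ▸ Tower_wd_mem _ h

theorem Tower_emb_mem (y : FA) : emb y ∈ Mk Pl.mk 0 := by
  induction y using FreeAlgebra.induction with
  | grade0 r =>
    rw [AlgHom.commutes, Algebra.algebraMap_eq_smul_one]
    exact Submodule.smul_mem _ _ (Tower_wd_mem [] rfl)
  | grade1 g =>
    cases g with
    | u l => exact (emb_U l).symm ▸ Tower_one_mem (Pl.u l) rfl
    | c l => exact (emb_C l).symm ▸ Tower_one_mem (Pl.c l) rfl
  | mul x y hx hy => rw [map_mul]; exact mul_mem_Mk (e := 0) (e' := 0) hx hy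
  | add x y hx hy => rw [map_add]; exact add_mem hx hy

theorem Tower_two_mem {σ : Type} {mk : σ → Bool} {e : ℕ} (s s' : σ) (h : [s, s'].countP mk = e) :
    ι R s * ι R s' ∈ Mk mk e := Tower_wd_two s s' ▸ Tower_wd_mem _ h

theorem Tower_planar_mem {m : ℕ} {x : PA} (h : PlanarRel m x) :
    x ∈ Mk Pl.mk 0 ∨ x ∈ Mk Pl.mk 1 := by
  have h1 : (1 : PA) ∈ Mk Pl.mk 0 := Tower_wd_mem [] rfl
  cases h with
  | uu i j _ => exact .inl (sub_mem (Tower_two_mem _ _ rfl) (Tower_two_mem _ _ rfl))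
  | cc i j _ => exact .inl (sub_mem (Tower_two_mem _ _ rfl) (Tower_two_mem _ _ rfl))
  | cu i j _ => exact .inl (sub_mem (Tower_two_mem _ _ rfl) (Tower_two_mem _ _ rfl))
  | uc i j _ => exact .inl (sub_mem (Tower_two_mem _ _ rfl) (Tower_two_mem _ _ rfl))
  | loop i _ => exact .inl (add_mem (Tower_two_mem _ _ rfl) (Submodule.smul_mem _ _ h1))
  | zig i _ => exact .inl (sub_mem (Tower_two_mem _ _ rfl) h1)
  | zag i _ => exact .inl (sub_mem (Tower_two_mem _ _ rfl) h1)
  | bu b i => exact .inr (sub_mem (Tower_two_mem _ _ rfl) (Tower_two_mem _ _ rfl))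
  | bc b i => exact .inr (sub_mem (Tower_two_mem _ _ rfl) (Tower_two_mem _ _ rfl))

theorem Tower_lm_sub {σ : Type} {step : σ → ℕ × ℕ → Option (ℕ × ℕ)}
    {rel : ℕ → ℕ → FreeAlgebra R σ → Prop} {m j : ℕ} {x x' : FreeAlgebra R σ}
    (h : rel m j (x - x')) {y : Op step rel} (hy : y ∈ Cp step rel (m, j)) :
    lm step rel x y = lm step rel x' y := by
  have := lm_rel h hy
  rwa [map_sub, LinearMap.sub_apply, sub_eq_zero] at this

theorem Tower_lm_one {σ : Type} {step : σ → ℕ × ℕ → Option (ℕ × ℕ)}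
    {rel : ℕ → ℕ → FreeAlgebra R σ → Prop} {m j : ℕ} {x : FreeAlgebra R σ}
    (h : rel m j (x - 1)) {y : Op step rel} (hy : y ∈ Cp step rel (m, j)) :
    lm step rel x y = y := by
  rw [Tower_lm_sub h hy, map_one, Module.End.one_apply]

theorem Tower_lm_loop {σ : Type} {step : σ → ℕ × ℕ → Option (ℕ × ℕ)}
    {rel : ℕ → ℕ → FreeAlgebra R σ → Prop} {m j : ℕ} {x : FreeAlgebra R σ}
    (h : rel m j (x + (a 2 + a (-2)) • 1)) {y : Op step rel} (hy : y ∈ Cp step rel (m, j)) :
    lm step rel x y = dd • y := by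
  have := lm_rel h hy
  rw [map_add, map_smul, map_one, LinearMap.add_apply, LinearMap.smul_apply,
    Module.End.one_apply] at this
  rw [dd, neg_smul, eq_neg_iff_add_eq_zero, this]

theorem Tower_passR (s : Bool) (i l : ℕ) : (passR s i l).countP Sl.mk = 0 := by
  induction l with
  | zero => rfl
  | succ l ih => simp [passR, ih, Sl.mk]

theorem Tower_passL (s : Bool) (i l : ℕ) : (passL s i l).countP Sl.mk = 0 := by
  induction l with
  | zero => rfl
  | succ l ih => simp [passL, ih, Sl.mk]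

theorem Tower_drag (bs : List Bool) (l : ℕ) :
    (bs.foldr drag ([], l, [])).1.countP Sl.mk = 0 ∧
      (bs.foldr drag ([], l, [])).2.2.countP Sl.mk = 0 := by
  induction bs with
  | nil => exact ⟨rfl, rfl⟩
  | cons b bs ih =>
    rw [List.foldr_cons]
    generalize bs.foldr drag ([], l, []) = z at ih
    obtain ⟨top, l', bot⟩ := z
    obtain ⟨h1, h2⟩ := ih
    cases b <;>
      simp only [drag, List.countP_append, Tower_passL, Tower_passR, List.countP_cons,
        List.countP_nil, Sl.mk] <;>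
      exact ⟨h1, h2⟩

theorem Tower_close (bs : List Bool) (l : ℕ) :
    (close (bs.foldr drag ([], l, []))).countP Sl.mk = 1 := by
  obtain ⟨h1, h2⟩ := Tower_drag bs l
  generalize bs.foldr drag ([], l, []) = z at h1 h2
  obtain ⟨top, l', bot⟩ := z
  simp only at h1 h2
  simp only [close, List.countP_append, h1, h2]
  rfl

theorem Tower_skein_mem {pq : ℕ → ℕ × ℕ} {m j : ℕ} {x : FreeAlgebra R Sl}
    (h : SkeinRel pq m j x) : x ∈ Mk Sl.mk 0 ∨ x ∈ Mk Sl.mk 1 := by
  have h1 : (1 : FreeAlgebra R Sl) ∈ Mk Sl.mk 0 := Tower_wd_mem [] rfl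
  cases h with
  | isotopy x y h =>
    cases h with
    | holeL => exact .inr (sub_mem (Tower_wd_mem _ rfl) (Tower_wd_mem _ rfl))
    | holeR => exact .inr (sub_mem (Tower_wd_mem _ rfl) (Tower_wd_mem _ rfl))
    | _ => exact .inl (sub_mem (Tower_wd_mem _ rfl) (Tower_wd_mem _ rfl))
  | skein s i _ =>
    exact .inl (sub_mem (sub_mem (Tower_wd_mem _ rfl) (Submodule.smul_mem _ _ h1))
      (Submodule.smul_mem _ _ (Tower_wd_mem _ rfl)))
  | loop i _ => exact .inl (add_mem (Tower_wd_mem _ rfl) (Submodule.smul_mem _ _ h1))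
  | slide l _ =>
    exact .inr (sub_mem (Tower_wd_mem _ (Tower_close _ l))
      (Submodule.smul_mem _ _ (Tower_wd_mem _ rfl)))

theorem Rep_le_Mk (m : ℕ) : Rep m ≤ Mk Pl.mk 1 := by
  refine Submodule.span_le.2 ?_
  rintro _ ⟨y, b, -, rfl⟩
  exact mul_mem_Mk (e := 0) (e' := 1) (Tower_emb_mem y) (Tower_one_mem (Pl.box b) rfl)

theorem cupCap_P : CupCap Pl.step (relP L) Pl.mk .u .c := by
  refine ⟨⟨?_, ?_⟩, fun _ _ _ => rfl, fun _ _ _ => rfl, fun i l m j h _ y hy => ?_,
    fun i l m j h _ y hy => ?_, fun i l m j h _ y hy => ?_, fun i l m j h _ y hy => ?_,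
    fun l m j h y hy => ?_, fun l m j h y hy => ?_, fun l m j h y hy => ?_⟩
  · rintro (l | l | b) ⟨m, j⟩ t' h <;> simp only [Pl.step] at h
    · split_ifs at h
      cases h
      rfl
    · split_ifs at h
      cases h
      rfl
    · cases h
      rfl
  · rintro m j ρ (h | h)
    · exact Tower_planar_mem h
    · obtain ⟨m, hm⟩ := h.rep
      exact .inr (Rep_le_Mk m hm)
  · simpa only [Tower_wd_two, cup, cap] using Tower_lm_sub (.inl (.uu i l h)) hy
  · simpa only [Tower_wd_two, cup, cap] using Tower_lm_sub (.inl (.cc i l h)) hy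
  · simpa only [Tower_wd_two, cup, cap] using Tower_lm_sub (.inl (.cu i l h)) hy
  · simpa only [Tower_wd_two, cup, cap] using Tower_lm_sub (.inl (.uc i l h)) hy
  · simpa only [Tower_wd_two, cup, cap] using Tower_lm_loop (.inl (.loop l h)) hy
  · simpa only [Tower_wd_two, cup, cap] using Tower_lm_one (.inl (.zig l h)) hy
  · simpa only [Tower_wd_two, cup, cap] using Tower_lm_one (.inl (.zag l h)) hy

theorem cupCap_S : CupCap Sl.step (SkeinRel (par L)) Sl.mk (.gen .cup) (.gen .cap) := by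
  refine ⟨⟨?_, fun m j ρ h => Tower_skein_mem h⟩, fun _ _ _ => rfl, fun _ _ _ => rfl,
    fun i l m j h h' y hy => ?_,
    fun i l m j h h' y hy => ?_, fun i l m j h h' y hy => ?_, fun i l m j h h' y hy => ?_,
    fun l m j h y hy => Tower_lm_loop (.loop l h) hy,
    fun l m j h y hy => Tower_lm_one (.isotopy _ _ (.zig l h)) hy,
    fun l m j h y hy => Tower_lm_one (.isotopy _ _ (.zag l h)) hy⟩
  · rintro (⟨γ, l⟩ | l) ⟨m, j⟩ t' h <;> simp only [Sl.step] at h <;> split_ifs at h <;> cases h <;>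
      rfl
  · obtain ⟨d, rfl⟩ := Nat.exists_eq_add_of_le h
    rw [add_right_comm]
    exact Tower_lm_sub (.isotopy _ _ (.comm .cup .cup i d h')) hy
  · obtain ⟨d, rfl⟩ := Nat.exists_eq_add_of_le h
    rw [add_right_comm]
    exact Tower_lm_sub (.isotopy _ _ (.comm .cap .cap i d (by simp only [Gen.src]; omega))) hy
  · obtain ⟨d, rfl⟩ := Nat.exists_eq_add_of_le h
    rw [add_right_comm]
    exact Tower_lm_sub (.isotopy _ _ (.comm .cup .cap i d h')) hy
  · obtain ⟨d, rfl⟩ := Nat.exists_eq_add_of_le h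
    rw [add_right_comm]
    exact (Tower_lm_sub
      (.isotopy _ _ (.comm .cap .cup i d (by simp only [Gen.src]; omega))) hy).symm

def ΓP : GT (OP L) := (cupCap_P L).exists_gt.choose
def ΓS : GT (OS L) := (cupCap_S L).exists_gt.choose

theorem ΓP_U (l : ℕ) : (ΓP L).ρ (U l) = lm _ _ (cup l) := (cupCap_P L).exists_gt.choose_spec.1 l
theorem ΓP_C (l : ℕ) : (ΓP L).ρ (C l) = lm _ _ (cap l) := (cupCap_P L).exists_gt.choose_spec.2.1 l
theorem ΓP_Cp (m j : ℕ) : (ΓP L).Cp m j = Cp _ _ (m, j) :=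
  (cupCap_P L).exists_gt.choose_spec.2.2 m j
theorem ΓS_U (l : ℕ) : (ΓS L).ρ (U l) = lm _ _ (ι R (.gen .cup l)) :=
  (cupCap_S L).exists_gt.choose_spec.1 l
theorem ΓS_C (l : ℕ) : (ΓS L).ρ (C l) = lm _ _ (ι R (.gen .cap l)) :=
  (cupCap_S L).exists_gt.choose_spec.2.1 l
theorem ΓS_Cp (m j : ℕ) : (ΓS L).Cp m j = Cp _ _ (m, j) :=
  (cupCap_S L).exists_gt.choose_spec.2.2 m j

theorem ΓP_ρ (x : FA) : (ΓP L).ρ x = lm _ _ (emb x) := by
  have : (ΓP L).ρ = (lm _ _).comp emb := by
    refine FreeAlgebra.hom_ext (funext fun g => ?_)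
    cases g with
    | u l => exact (ΓP_U L l).trans (congrArg _ (emb_U l).symm)
    | c l => exact (ΓP_C L l).trans (congrArg _ (emb_C l).symm)
  rw [this]
  rfl

/-- the box `b` of the summand `j` as an operator -/
def gP (j : ℕ) (b : Box) : Module.End R (OP L) := lm _ _ (bx b) * (ΓP L).pr j

theorem gP_apply {m j : ℕ} (b : Box) {w : OP L} (hw : w ∈ (ΓP L).Cp m j) :
    gP L j b w = lm _ _ (bx b) w := by
  rw [gP, Module.End.mul_apply, (ΓP L).pr_eq hw, if_pos rfl]

theorem ev_gP (j : ℕ) {m : ℕ} {x : PA} (hx : x ∈ Rep m) :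
    ev ((ΓP L).hom j).ρ (gP L j) x = lm _ _ x * (ΓP L).pr j := by
  induction hx using Submodule.span_induction with
  | mem x hx =>
    obtain ⟨y, b, -, rfl⟩ := hx
    rw [ev_emb_mul, ev_bx, GT.hom_ρ, ΓP_ρ, map_mul, gP, mul_assoc]
  | zero => simp
  | add x y _ _ hx hy => rw [map_add, map_add, hx, hy, add_mul]
  | smul c x _ hx => rw [map_smul, map_smul, hx, smul_mul_assoc]

theorem Tower_box_comm (b : Box) (x : FA) :
    lm _ _ (bx b) * (ΓP L).ρ x = (ΓP L).ρ (shn b.legs x) * lm _ _ (bx b) := by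
  induction x using FreeAlgebra.induction with
  | grade0 r => simp only [AlgHom.commutes, Algebra.commutes]
  | grade1 g =>
    refine (ΓP L).ext fun m j w hw => ?_
    rw [ΓP_Cp] at hw
    cases g with
    | u l =>
      change (_ * (ΓP L).ρ (U l)) w = ((ΓP L).ρ (shn _ (U l)) * _) w
      rw [shn_U, ΓP_U, ΓP_U, ← map_mul, ← map_mul]
      exact (Tower_lm_sub (.inl (.bu b l)) hw).symm
    | c l =>
      change (_ * (ΓP L).ρ (C l)) w = ((ΓP L).ρ (shn _ (C l)) * _) w
      rw [shn_C, ΓP_C, ΓP_C, ← map_mul, ← map_mul]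
      exact (Tower_lm_sub (.inl (.bc b l)) hw).symm
  | mul x y hx hy => rw [map_mul, map_mul, map_mul, ← mul_assoc, hx, mul_assoc, hy, mul_assoc]
  | add x y hx hy => rw [map_add, map_add, map_add, mul_add, add_mul, hx, hy]

theorem boxes_gP (j : ℕ) : ((ΓP L).hom j).Boxes (par L j).1 (par L j).2 (gP L j) := by
  refine ⟨fun b => ⟨fun m j' h w hw => ?_, fun m w hw => ?_, fun x => ?_⟩, fun x hx => ?_⟩
  · rw [gP, Module.End.mul_apply, (ΓP L).pr_eq hw, if_neg h, map_zero]
  · rw [gP_apply L b hw, ΓP_Cp]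
    exact lm_mem rfl (ΓP_Cp L m j ▸ hw)
  · rw [gP, mul_assoc, GT.pr_comm, ← mul_assoc, Tower_box_comm, mul_assoc]
  · obtain ⟨m, hm⟩ := hx.rep
    rw [ev_gP L j hm]
    refine (ΓP L).ext fun m j' w hw => ?_
    rw [Module.End.mul_apply, (ΓP L).pr_eq hw, LinearMap.zero_apply]
    split_ifs with h
    · subst h
      exact lm_rel (.inr hx) (ΓP_Cp L m j' ▸ hw)
    · exact map_zero _

theorem ΓS_cr (s : Bool) {l m j : ℕ} (h : l + 2 ≤ m) {w : OS L} (hw : w ∈ (ΓS L).Cp m j) :
    lm _ _ (ι R (Sl.gen (.cr s) l)) w = (ΓS L).ρ (sg s l) w := by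
  have h1 := lm_rel (SkeinRel.skein (pq := par L) (j := j) s l h) (ΓS_Cp L m j ▸ hw)
  rw [sub_sub, map_sub, LinearMap.sub_apply, sub_eq_zero, Tower_wd_one, Tower_wd_two] at h1
  rw [h1, sg]
  simp only [map_add, map_smul, map_one, map_mul, ΓS_U, ΓS_C]

/-- evaluation of planar words in a tower with given boxes -/
theorem planar_lift {O : Type} [AddCommGroup O] [Module R O] (Γ : GT O)
    (g : ℕ → Box → Module.End R O) (hg : ∀ j, (Γ.hom j).Boxes (par L j).1 (par L j).2 (g j))
    (e : O) (he : e ∈ Γ.Cp 0 0) : ∃ φ : OP L →ₗ[R] O, φ (mkO _ _ 1) = e ∧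
      (∀ m j, ∀ y ∈ (ΓP L).Cp m j, φ y ∈ Γ.Cp m j) ∧ (∀ x y, φ ((ΓP L).ρ x y) = Γ.ρ x (φ y)) ∧
      ∀ j b y, φ (gP L j b y) = g j b (φ y) := by
  obtain ⟨op, hU, hC, hB⟩ : ∃ op : ℕ → Pl → Module.End R O, (∀ j l, op j (.u l) = Γ.ρ (U l)) ∧
      (∀ j l, op j (.c l) = Γ.ρ (C l)) ∧ ∀ j b, op j (.box b) = g j b :=
    ⟨fun j s => match s with
      | .u l => Γ.ρ (U l)
      | .c l => Γ.ρ (C l)
      | .box b => g j b, fun _ _ => rfl, fun _ _ => rfl, fun _ _ => rfl⟩
  have lU : ∀ j l, lift R (op j) (cup l) = Γ.ρ (U l) := fun j l => by rw [cup, lift_ι_apply, hU]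
  have lC : ∀ j l, lift R (op j) (cap l) = Γ.ρ (C l) := fun j l => by rw [cap, lift_ι_apply, hC]
  have lB : ∀ j b, lift R (op j) (ι R (.box b)) = g j b := fun j l => by rw [lift_ι_apply, hB]
  have lE : ∀ j y, lift R (op j) (emb y) = Γ.ρ y := fun j y => by
    have : (lift R (op j)).comp emb = Γ.ρ := by
      refine FreeAlgebra.hom_ext (funext fun g => ?_)
      cases g with
      | u l => exact (congrArg _ (emb_U l)).trans (lU j l)
      | c l => exact (congrArg _ (emb_C l)).trans (lC j l)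
    rw [← this]
    rfl
  have lR : ∀ j m, ∀ x ∈ Rep m, lift R (op j) x = ev (Γ.hom j).ρ (g j) x := fun j m x hx => by
    induction hx using Submodule.span_induction with
    | mem x hx =>
      obtain ⟨y, b, -, rfl⟩ := hx
      rw [ev_emb_mul, ev_bx, GT.hom_ρ, map_mul, lE, bx, lB]
    | zero => simp
    | add x y _ _ hx hy => rw [map_add, map_add, hx, hy]
    | smul c x _ hx => rw [map_smul, map_smul, hx]
  obtain ⟨φ, h1, h2, h3⟩ := open_lift (cupCap_P L).marked op (fun t => Γ.Cp t.1 t.2) e he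
    (by
      rintro j (l | l | b) h
      · rw [hU, hU]
      · rw [hC, hC]
      · cases h)
    (by
      rintro (l | l | b) ⟨m, j⟩ t' h w hw <;> simp only [Pl.step] at h
      · split_ifs at h with hl
        cases h
        rw [hU]
        exact Γ.memU hl hw
      · split_ifs at h with hl
        cases h
        obtain ⟨m, rfl⟩ : ∃ k, m = k + 2 := ⟨m - 2, by omega⟩
        rw [hC]
        exact Γ.memC (by omega) hw
      · cases h
        rw [hB]
        exact ((hg j).mem b).2.1 m w hw)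
    (by
      rintro (l | l | b) ⟨m, j⟩ h w hw <;> simp only [Pl.step] at h
      · split_ifs at h with hl
        rw [hU]
        exact Γ.U0 (by omega) hw
      · split_ifs at h with hl
        rw [hC]
        exact Γ.C0 (by omega) hw
      · cases h)
    (by
      rintro m j ρ (h | h) w hw
      · cases h with
        | uu i l h => simp only [map_sub, map_mul, lU, Γ.wk.uu i l h, sub_self, LinearMap.zero_apply]
        | cc i l h => simp only [map_sub, map_mul, lC, Γ.wk.cc i l h, sub_self, LinearMap.zero_apply]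
        | cu i l h =>
          simp only [map_sub, map_mul, lU, lC, Γ.wk.cu i l h, sub_self, LinearMap.zero_apply]
        | uc i l h =>
          simp only [map_sub, map_mul, lU, lC, Γ.wk.uc i l h, sub_self, LinearMap.zero_apply]
        | loop i h =>
          simp only [map_add, map_mul, map_smul, map_one, lU, lC, LinearMap.add_apply,
            LinearMap.smul_apply, Module.End.mul_apply, Module.End.one_apply, Γ.loop h hw, dd,
            neg_smul, neg_add_cancel]
        | zig i h =>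
          simp only [map_sub, map_mul, map_one, lU, lC, LinearMap.sub_apply,
            Module.End.mul_apply, Module.End.one_apply, Γ.zig h hw, sub_self]
        | zag i h =>
          simp only [map_sub, map_mul, map_one, lU, lC, LinearMap.sub_apply,
            Module.End.mul_apply, Module.End.one_apply, Γ.zag h hw, sub_self]
        | bu b i =>
          simp only [map_sub, map_mul, lU, lB, ((hg j).mem b).2.2 (U i), shn_U, sub_self,
            LinearMap.zero_apply]
        | bc b i =>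
          simp only [map_sub, map_mul, lC, lB, ((hg j).mem b).2.2 (C i), shn_C, sub_self,
            LinearMap.zero_apply]
      · obtain ⟨m', hm⟩ := h.rep
        rw [lR j m' ρ hm, (hg j).rel ρ h, LinearMap.zero_apply])
  have h4 : ∀ m j, ∀ y ∈ (ΓP L).Cp m j, φ y ∈ Γ.Cp m j := fun m j y hy =>
    h2 (m, j) y (ΓP_Cp L m j ▸ hy)
  refine ⟨φ, h1, h4, fun x => ?_, fun j b y => ?_⟩
  · induction x using FreeAlgebra.induction with
    | grade0 r => intro y; simp
    | grade1 s =>
      intro y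
      refine LinearMap.congr_fun ((ΓP L).ext (φ := φ ∘ₗ (ΓP L).ρ (ι R s)) (ψ := Γ.ρ (ι R s) ∘ₗ φ)
        fun m j w hw => ?_) y
      rw [ΓP_Cp] at hw
      cases s with
      | u l =>
        change φ ((ΓP L).ρ (U l) w) = Γ.ρ (U l) (φ w)
        rw [ΓP_U, cup, h3 _ _ w hw, hU]
      | c l =>
        change φ ((ΓP L).ρ (C l) w) = Γ.ρ (C l) (φ w)
        rw [ΓP_C, cap, h3 _ _ w hw, hC]
    | mul x x' hx hx' => intro y; simp only [map_mul, Module.End.mul_apply, hx, hx']
    | add x x' hx hx' => intro y; simp only [map_add, LinearMap.add_apply, hx, hx']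
  · refine LinearMap.congr_fun ((ΓP L).ext (φ := φ ∘ₗ gP L j b) (ψ := g j b ∘ₗ φ)
      fun m j' w hw => ?_) y
    change φ (gP L j b w) = g j b (φ w)
    by_cases h : j' = j
    · subst h
      rw [gP_apply L b hw, bx, h3 _ _ w (ΓP_Cp L m j' ▸ hw), hB]
    · rw [((boxes_gP L j).mem b).1 m j' h w hw, ((hg j).mem b).1 m j' h _ (h4 m j' w hw), map_zero]

theorem par_adm {L : List (ℕ × ℕ)} (hL : ∀ x ∈ L, 2 ≤ x.1 ∧ x.1.Coprime x.2) (j : ℕ) :
    2 ≤ (par L j).1 ∧ (par L j).1.Coprime (par L j).2 := by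
  rw [par]
  by_cases h : j < L.length
  · rw [List.getD_eq_getElem _ _ h]
    exact hL _ (List.getElem_mem h)
  · rw [List.getD_eq_default _ _ (not_lt.1 h)]
    simp

end Pool.Agent.P.MP_b3a239_gt
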