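import Pool.Agent.P.MP_b3a239_gt.TLBasic

/-! Reidemeister moves and naturality of passing strands, on infinitely many strands. -/

set_option maxSynthPendingDepth 3

noncomputable section

namespace Pool.Agent.P.MP_b3a239_gt

theorem mkT_wk : Wk mkT := by
  refine ⟨fun i j h => ?_, fun i j h => ?_, fun i j h => ?_, fun i j h => ?_⟩ <;>
    rw [← map_mul, ← map_mul, mkT_eq_iff] <;> refine ⟨0, fun B _ _ T m _ w _ => ?_⟩ <;>
    rw [map_mul, map_mul]
  · rw [T.wk.uu _ _ h]
  · rw [T.wk.cc _ _ h]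
  · rw [T.wk.cu _ _ h]
  · rw [T.wk.uc _ _ h]

theorem mkT_loop (l : ℕ) : mkT (C l * U l) = dd • (1 : TT) := by
  rw [← map_one mkT, ← map_smul, mkT_eq_iff]
  refine ⟨l, fun B _ _ T m hm w hw => ?_⟩
  simpa using T.loop hm hw

theorem mkT_zig (l : ℕ) : mkT (C (l + 1) * U l) = 1 := by
  rw [← map_one mkT, mkT_eq_iff]
  refine ⟨l + 1, fun B _ _ T m hm w hw => ?_⟩
  simpa using T.zig hm hw

theorem mkT_zag (l : ℕ) : mkT (C l * U (l + 1)) = 1 := by
  rw [← map_one mkT, mkT_eq_iff]
  refine ⟨l + 1, fun B _ _ T m hm w hw => ?_⟩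
  simpa using T.zag hm hw

theorem mkT_shn {x y : FA} (h : mkT x = mkT y) (k : ℕ) : mkT (shn k x) = mkT (shn k y) := by
  obtain ⟨M, h⟩ := mkT_eq_iff.1 h
  refine mkT_eq_iff.2 ⟨M + k, fun B _ _ T m hm w hw => ?_⟩
  obtain ⟨m, rfl⟩ : ∃ m', m = m' + k := ⟨m - k, by omega⟩
  exact h B (T.shift k) m (by omega) w hw

namespace KitAux

/-- the coefficient of the identity in a crossing -/
def al (s : Bool) : R := a (if s then 1 else -1)

theorem al_mul (s : Bool) : al s * al (!s) = 1 := by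
  cases s <;> simp [al, ← a_add]

theorem dd_eq (s : Bool) : dd = -(al s ^ 2 + al (!s) ^ 2) := by
  cases s <;> simp [al, a_pow, dd, add_comm]

theorem a3_eq (s : Bool) : a (if s then -3 else 3) = al (!s) ^ 3 := by
  cases s <;> simp [al, a_pow]

theorem sgT (s : Bool) (l : ℕ) :
    mkT (sg s l) = al s • (1 : TT) + al (!s) • (mkT (U l) * mkT (C l)) := by
  cases s <;> simp [sg, al]

theorem loop (l : ℕ) : mkT (C l) * mkT (U l) = dd • (1 : TT) := by rw [← map_mul, mkT_loop]
theorem zig (l : ℕ) : mkT (C (l + 1)) * mkT (U l) = 1 := by rw [← map_mul, mkT_zig]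
theorem zag (l : ℕ) : mkT (C l) * mkT (U (l + 1)) = 1 := by rw [← map_mul, mkT_zag]

theorem loop' (l : ℕ) (z : TT) : mkT (C l) * (mkT (U l) * z) = dd • z := by
  rw [← mul_assoc, loop, smul_mul_assoc, one_mul]
theorem zig' (l : ℕ) (z : TT) : mkT (C (l + 1)) * (mkT (U l) * z) = z := by
  rw [← mul_assoc, zig, one_mul]
theorem zag' (l : ℕ) (z : TT) : mkT (C l) * (mkT (U (l + 1)) * z) = z := by
  rw [← mul_assoc, zag, one_mul]

theorem inv (s : Bool) (l : ℕ) : mkT (sg (!s) l) * mkT (sg s l) = 1 := by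
  have h := al_mul s
  simp only [sgT, Bool.not_not, add_mul, mul_add, smul_mul_assoc, mul_smul_comm, one_mul, mul_one,
    mul_assoc, loop', dd_eq s]
  match_scalars <;> grind

theorem inv' (s : Bool) (l : ℕ) : mkT (sg s l) * mkT (sg (!s) l) = 1 := by
  simpa using inv (!s) l

theorem cupSlide (s : Bool) (i : ℕ) :
    mkT (sg s i) * mkT (U (i + 1)) = mkT (sg (!s) (i + 1)) * mkT (U i) := by
  simp only [sgT, Bool.not_not, add_mul, smul_mul_assoc, one_mul, mul_one, mul_assoc, zig, zag]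
  rw [add_comm]

theorem capSlide (s : Bool) (i : ℕ) :
    mkT (C (i + 1)) * mkT (sg s i) = mkT (C i) * mkT (sg (!s) (i + 1)) := by
  simp only [sgT, Bool.not_not, mul_add, mul_smul_comm, mul_one, zig', zag']
  rw [add_comm]

theorem K1 (s : Bool) (p : ℕ) :
    mkT (sg s p) * mkT (sg s (p + 1)) * mkT (U p) = mkT (U (p + 1)) := by
  have h := cupSlide (!s) p
  rw [Bool.not_not] at h
  rw [mul_assoc, ← h, ← mul_assoc, inv', one_mul]

theorem K2 (s : Bool) (p : ℕ) :
    mkT (sg s (p + 1)) * mkT (sg s p) * mkT (U (p + 1)) = mkT (U p) := by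
  rw [mul_assoc, cupSlide, ← mul_assoc, inv', one_mul]

theorem K3 (s : Bool) (p : ℕ) :
    mkT (C (p + 1)) * mkT (sg s p) * mkT (sg s (p + 1)) = mkT (C p) := by
  rw [capSlide, mul_assoc, inv, mul_one]

theorem K4 (s : Bool) (p : ℕ) :
    mkT (C p) * mkT (sg s (p + 1)) * mkT (sg s p) = mkT (C (p + 1)) := by
  have h := capSlide (!s) p
  rw [Bool.not_not] at h
  rw [← h, mul_assoc, inv, mul_one]

theorem sg_U_far (s : Bool) {i j : ℕ} (h : i ≤ j) :
    mkT (sg s (j + 2)) * mkT (U i) = mkT (U i) * mkT (sg s j) := by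
  have e := mkT_wk.far (Loc.u (m := j) h) (sg s 0)
  rw [shn_sg, shn_sg, zero_add, zero_add] at e
  exact e.symm

theorem C_sg_far (s : Bool) {i j : ℕ} (h : i ≤ j) :
    mkT (C i) * mkT (sg s (j + 2)) = mkT (sg s j) * mkT (C i) := by
  have e := mkT_wk.far (Loc.c (m := j) h) (sg s 0)
  rwa [shn_sg, shn_sg, zero_add, zero_add] at e

theorem pR_U_far (s : Bool) (i l : ℕ) :
    mkT (pR s i l) * mkT (U (i + l + 1)) = mkT (U (i + l + 1)) * mkT (pR s i l) := by
  have e := mkT_wk.far (loc_pR s (i := i) (l := l) le_rfl) (U 0)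
  rwa [shn_U, zero_add] at e

theorem pR_C_far (s : Bool) (i l : ℕ) :
    mkT (pR s i l) * mkT (C (i + l + 1)) = mkT (C (i + l + 1)) * mkT (pR s i l) := by
  have e := mkT_wk.far (loc_pR s (i := i) (l := l) le_rfl) (C 0)
  rwa [shn_C, zero_add] at e

theorem pR_sg_far (s t : Bool) (i l : ℕ) :
    mkT (pR s i l) * mkT (sg t (i + l + 1)) = mkT (sg t (i + l + 1)) * mkT (pR s i l) := by
  have e := mkT_wk.far (loc_pR s (i := i) (l := l) le_rfl) (sg t 0)
  rwa [shn_sg, zero_add] at e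

theorem pR_succ (s : Bool) (i l : ℕ) :
    mkT (pR s i (l + 1)) = mkT (sg s (i + l)) * mkT (pR s i l) := by rw [pR, map_mul]

theorem pL_succ (s : Bool) (i l : ℕ) :
    mkT (pL s i (l + 1)) = mkT (pL s i l) * mkT (sg s (i + l)) := by rw [pL, map_mul]

theorem natU (s : Bool) (i : ℕ) {j m : ℕ} (h : j ≤ m) :
    mkT (pR s i (m + 2)) * mkT (U (i + j + 1)) = mkT (U (i + j)) * mkT (pR s i m) := by
  induction m, h using Nat.le_induction with
  | base =>
    rw [pR_succ, pR_succ, mul_assoc, mul_assoc, pR_U_far, ← mul_assoc, ← mul_assoc, ← add_assoc,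
      K2]
  | succ m hm ih =>
    rw [pR_succ, mul_assoc, ih, ← mul_assoc, ← add_assoc, sg_U_far s (by omega), pR_succ,
      mul_assoc]

theorem natC (s : Bool) (i : ℕ) {j m : ℕ} (h : j ≤ m) :
    mkT (pR s i m) * mkT (C (i + j + 1)) = mkT (C (i + j)) * mkT (pR s i (m + 2)) := by
  induction m, h using Nat.le_induction with
  | base =>
    rw [pR_succ, pR_succ, pR_C_far, ← mul_assoc, ← mul_assoc, ← add_assoc, K4]
  | succ m hm ih =>
    rw [pR_succ, mul_assoc, ih, ← mul_assoc, ← C_sg_far s (by omega), pR_succ s i (m + 2),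
      mul_assoc, ← add_assoc]

theorem RL (s : Bool) (i l : ℕ) : mkT (pR (!s) i l) * mkT (pL s i l) = 1 := by
  induction l with
  | zero => simp [pR, pL]
  | succ l ih => rw [pR_succ, pL_succ, mul_assoc, ← mul_assoc _ _ (mkT (sg s _)), ih, one_mul, inv]

theorem LR (s : Bool) (i l : ℕ) : mkT (pL (!s) i l) * mkT (pR s i l) = 1 := by
  induction l with
  | zero => simp [pR, pL]
  | succ l ih => rw [pR_succ, pL_succ, mul_assoc, ← mul_assoc _ _ (mkT (pR s i l)), inv, one_mul, ih]

theorem LR' (s : Bool) (i l : ℕ) : mkT (pL s i l) * mkT (pR (!s) i l) = 1 := by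
  simpa using LR (!s) i l

theorem cupC_succ (l : ℕ) : mkT (cupC (l + 1)) = mkT (U l) * mkT (cupC l) := by
  rw [cupC, map_mul]

theorem capC_succ (l : ℕ) : mkT (capC (l + 1)) = mkT (capC l) * mkT (C l) := by
  rw [capC, map_mul]

end KitAux

open KitAux

theorem sg_inv (s : Bool) (l : ℕ) : mkT (sg (!s) l * sg s l) = 1 := by rw [map_mul, inv]
theorem sg_U (s : Bool) (l : ℕ) :
    mkT (sg s l * U l) = (-a (if s then -3 else 3)) • mkT (U l) := by
  have h := al_mul s
  simp only [map_mul, sgT, add_mul, smul_mul_assoc, mul_smul_comm, one_mul, mul_one,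
    mul_assoc, loop, dd_eq s, a3_eq]
  match_scalars; grind
theorem C_sg (s : Bool) (l : ℕ) :
    mkT (C l * sg s l) = (-a (if s then -3 else 3)) • mkT (C l) := by
  have h := al_mul s
  simp only [map_mul, sgT, mul_add, mul_smul_comm, mul_one, loop', dd_eq s, a3_eq]
  match_scalars; grind
theorem sg_cupSlide (s : Bool) (i : ℕ) :
    mkT (sg s i * U (i + 1)) = mkT (sg (!s) (i + 1) * U i) := by rw [map_mul, map_mul, cupSlide]
theorem sg_capSlide (s : Bool) (i : ℕ) :
    mkT (C (i + 1) * sg s i) = mkT (C i * sg (!s) (i + 1)) := by rw [map_mul, map_mul, capSlide]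
theorem sg_r3 (r s t : Bool) (h : r = s ∨ s = t) (i : ℕ) :
    mkT (sg t i * sg s (i + 1) * sg r i) = mkT (sg r (i + 1) * sg s i * sg t (i + 1)) := by
  simp only [map_mul]
  rcases h with rfl | rfl
  · rw [sgT t, sgT t, mul_add, add_mul, add_mul]
    simp only [smul_mul_assoc, mul_smul_comm, one_mul, mul_one]
    rw [← mul_assoc, K2, mul_assoc (mkT (U i)), mul_assoc (mkT (U i)), K4]
  · rw [sgT r, sgT r, mul_add, add_mul, add_mul]
    simp only [smul_mul_assoc, mul_smul_comm, one_mul, mul_one]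
    rw [← mul_assoc, K1, mul_assoc (mkT (U (i + 1))), mul_assoc (mkT (U (i + 1))), K3]

theorem natR {m n : ℕ} {x : FA} (h : Loc m n x) (s : Bool) (i : ℕ) :
    mkT (pR s i n * shn (i + 1) x) = mkT (shn i x * pR s i m) := by
  rw [map_mul, map_mul]
  induction h with
  | one m => simp
  | @u m j h =>
    rw [shn_U, shn_U, show j + (i + 1) = i + j + 1 by omega, add_comm j i]
    exact natU s i h
  | @c m j h =>
    rw [shn_C, shn_C, show j + (i + 1) = i + j + 1 by omega, add_comm j i]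
    exact natC s i h
  | mul _ _ ih₁ ih₂ =>
    simp only [map_mul]
    rw [← mul_assoc, ih₁, mul_assoc, ih₂, mul_assoc]
  | add _ _ ih₁ ih₂ => simp only [map_add, mul_add, add_mul, ih₁, ih₂]
  | smul c _ ih => simp only [map_smul, mul_smul_comm, smul_mul_assoc, ih]
  | zero m n => simp
theorem natL {m n : ℕ} {x : FA} (h : Loc m n x) (s : Bool) (i : ℕ) :
    mkT (pL s i n * shn i x) = mkT (shn (i + 1) x * pL s i m) := by
  have e := natR h (!s) i
  simp only [map_mul] at e ⊢
  calc mkT (pL s i n) * mkT (shn i x)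
      = mkT (pL s i n) * (mkT (shn i x) * mkT (pR (!s) i m)) * mkT (pL s i m) := by
        rw [mul_assoc, mul_assoc, RL, mul_one]
    _ = _ := by rw [← e, ← mul_assoc, LR', one_mul]
theorem natFin {m n : ℕ} {x : FA} (h : Loc m n x) (s : Bool) (i : ℕ) :
    mkT (fin s i n * shn (i + 1) x) = mkT (shn (i + 1) x * fin s i m) := by
  have e := natR h s i
  have e' := natL h s i
  simp only [fin, map_mul] at e e' ⊢
  rw [mul_assoc, e, ← mul_assoc, e', mul_assoc]
theorem pR_pL (s : Bool) (i l : ℕ) : mkT (pR (!s) i l * pL s i l) = 1 := by rw [map_mul, RL]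
theorem pL_pR (s : Bool) (i l : ℕ) : mkT (pL (!s) i l * pR s i l) = 1 := by rw [map_mul, LR]
theorem fin_inv (s : Bool) (i l : ℕ) : mkT (fin (!s) i l * fin s i l) = 1 := by
  simp only [fin, map_mul]
  rw [mul_assoc, ← mul_assoc (mkT (pR _ _ _)), RL, one_mul, LR]

theorem cupR (s : Bool) (i l : ℕ) : mkT (pR s i l * pR s (i + 1) l * U i) = mkT (U (i + l)) := by
  simp only [map_mul]
  induction l with
  | zero => simp [pR]
  | succ l ih =>
    rw [pR_succ, pR_succ, show i + 1 + l = i + l + 1 by omega, mul_assoc (mkT (sg s (i + l))),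
      ← mul_assoc (mkT (pR s i l)), pR_sg_far, mul_assoc, mul_assoc, mul_assoc,
      ← mul_assoc (mkT (pR s i l)), ih, ← mul_assoc, K1, add_assoc]
theorem cupL (s : Bool) (i l : ℕ) : mkT (pL s (i + 1) l * pL s i l * U (i + l)) = mkT (U i) := by
  rw [map_mul, ← cupR (!s)]
  simp only [map_mul]
  rw [mul_assoc, mul_assoc, ← mul_assoc (mkT (pL s i l)), LR', one_mul, ← mul_assoc, LR', one_mul]
theorem capR (s : Bool) (i l : ℕ) : mkT (C (i + l) * pR s i l * pR s (i + 1) l) = mkT (C i) := by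
  simp only [map_mul]
  induction l with
  | zero => simp [pR]
  | succ l ih =>
    rw [pR_succ, pR_succ, show i + 1 + l = i + l + 1 by omega, ← add_assoc, ← mul_assoc,
      ← mul_assoc, mul_assoc _ (mkT (pR s i l)), pR_sg_far, ← mul_assoc, K3, ih]
theorem capL (s : Bool) (i l : ℕ) : mkT (C i * pL s (i + 1) l * pL s i l) = mkT (C (i + l)) := by
  rw [map_mul, map_mul, ← capR (!s) i l]
  simp only [map_mul]
  rw [mul_assoc _ (mkT (pR (!s) (i + 1) l)), RL, mul_one, mul_assoc, RL, mul_one]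

theorem zigC (l : ℕ) : mkT (shn l (capC l) * cupC l) = 1 := by
  rw [map_mul]
  induction l with
  | zero => simp [capC, cupC]
  | succ l ih =>
    have e := mkT_wk.far (Loc.u (m := l) le_rfl) (capC l)
    rw [capC_succ', cupC_succ, map_mul, shn_C, shn_shn, map_mul, zero_add,
      show 1 + (l + 1) = l + 2 by omega, mul_assoc, ← mul_assoc (mkT (shn _ _)), ← e, mul_assoc,
      ih, mul_one, zig]
theorem zagC (l : ℕ) : mkT (capC l * shn l (cupC l)) = 1 := by
  rw [map_mul]
  induction l with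
  | zero => simp [capC, cupC]
  | succ l ih =>
    have e := mkT_wk.far (Loc.c (m := l) le_rfl) (cupC l)
    rw [cupC_succ', capC_succ, map_mul, shn_U, shn_shn, map_mul, zero_add,
      show 1 + (l + 1) = l + 2 by omega, mul_assoc, ← mul_assoc (mkT (C l)), e, mul_assoc, zag,
      mul_one, ih]
theorem rot_C_cupC {i l : ℕ} (h : i ≤ l) :
    mkT (C i * cupC (l + 2)) = mkT (U (2 * l - i) * cupC l) := by
  simp only [map_mul]
  induction l, h using Nat.le_induction with
  | base => rw [cupC_succ, zag', cupC_succ, show 2 * i - i = i by omega]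
  | succ l hl ih =>
    rw [cupC_succ, ← mul_assoc, mkT_wk.uc _ _ hl, mul_assoc, ih, ← mul_assoc,
      ← mkT_wk.uu _ _ (by omega), cupC_succ, mul_assoc,
      show 2 * (l + 1) - i = 2 * l - i + 2 by omega]
theorem rot_C_cupC' {i l : ℕ} (h : i ≤ l) :
    mkT (C (2 * l + 2 - i) * cupC (l + 2)) = mkT (U i * cupC l) := by
  simp only [map_mul]
  induction l, h using Nat.le_induction with
  | base => rw [cupC_succ, show 2 * i + 2 - i = i + 1 + 1 by omega, zig', cupC_succ]
  | succ l hl ih =>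
    rw [cupC_succ, ← mul_assoc, show 2 * (l + 1) + 2 - i = 2 * l + 2 - i + 2 by omega,
      mkT_wk.cu _ _ (by omega), mul_assoc, ih, ← mul_assoc, mkT_wk.uu _ _ hl, cupC_succ, mul_assoc]
theorem rot_capC_U {i l : ℕ} (h : i ≤ l) :
    mkT (capC (l + 2) * U (l + 2 + i)) = mkT (capC l * C (l - i)) := by
  simp only [map_mul]
  induction i generalizing l with
  | zero => rw [capC_succ, mul_assoc, zag, mul_one, capC_succ, Nat.sub_zero]
  | succ i ih =>
    obtain ⟨l, rfl⟩ : ∃ k, l = k + 1 := ⟨l - 1, by omega⟩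
    rw [capC_succ, mul_assoc, show l + 1 + 2 + (i + 1) = l + 2 + i + 2 by omega,
      mkT_wk.uc _ _ (by omega), ← mul_assoc, ih (by omega), mul_assoc,
      ← mkT_wk.cc _ _ (by omega), capC_succ, mul_assoc, show l + 1 - (i + 1) = l - i by omega]
theorem rot_capC_U' {i l : ℕ} (h : i ≤ l) :
    mkT (capC (l + 2) * U (l - i)) = mkT (capC l * C (l + i)) := by
  simp only [map_mul]
  induction i generalizing l with
  | zero =>
    rw [capC_succ, Nat.sub_zero, mul_assoc, zig, mul_one, capC_succ, add_zero]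
  | succ i ih =>
    obtain ⟨l, rfl⟩ : ∃ k, l = k + 1 := ⟨l - 1, by omega⟩
    rw [capC_succ, mul_assoc, show l + 1 - (i + 1) = l - i by omega,
      mkT_wk.cu _ _ (by omega), ← mul_assoc, ih (by omega), mul_assoc,
      mkT_wk.cc _ _ (by omega), capC_succ, mul_assoc, show l + 1 + (i + 1) = l + i + 2 by omega]

end Pool.Agent.P.MP_b3a239_gt
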