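import Pool.Agent.P.MP_b3a239_gt.SpanW

/-! Spanning by cups and the graph construction of natural maps. -/

set_option maxSynthPendingDepth 3

noncomputable section

namespace Pool.Agent.P.MP_b3a239_gt

variable {B B' I : Type} [AddCommGroup B] [Module R B] [AddCommGroup B'] [Module R B']
  {T : TM B} {T' : TM B'} {g : I → B} {g' : I → B'} {lv : I → ℕ} {l m n : ℕ}

theorem TM.gen_mem_N (T : TM B) (g : I → B) (lv : I → ℕ) (i : I) : g i ∈ T.N g lv (lv i) :=
  Submodule.subset_span ⟨i, 1, CupW.one _, by simp⟩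
theorem TM.N_le_Gn (T : TM B) (g : I → B) (lv : I → ℕ) (m : ℕ) : T.N g lv m ≤ T.Gn g lv m :=
  Submodule.span_mono (by
    rintro _ ⟨i, x, hx, rfl⟩
    exact ⟨i, x, hx.loc, rfl⟩)

private theorem span_map_mem {s : Set B} {S : Submodule R B'} (φ : B →ₗ[R] B')
    (h : ∀ y ∈ s, φ y ∈ S) {w : B} (hw : w ∈ Submodule.span R s) : φ w ∈ S := by
  have : Submodule.span R s ≤ S.comap φ := Submodule.span_le.2 fun y hy => h y hy
  exact this hw

theorem TM.N_U (h : l ≤ m) {w : B} (hw : w ∈ T.N g lv m) : T.ρ (U l) w ∈ T.N g lv (m + 2) := by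
  refine span_map_mem (T.ρ (U l)) ?_ hw
  rintro _ ⟨i, x, hx, rfl⟩
  exact Submodule.subset_span ⟨i, U l * x, hx.cons h, by simp⟩
theorem TM.N_cupW {x : FA} (h : CupW m n x) {w : B} (hw : w ∈ T.N g lv m) :
    T.ρ x w ∈ T.N g lv n := by
  refine span_map_mem (T.ρ x) ?_ hw
  rintro _ ⟨i, y, hy, rfl⟩
  exact Submodule.subset_span ⟨i, x * y, h.mul hy, by simp⟩
theorem TM.gen_mem_Gn (T : TM B) (g : I → B) (lv : I → ℕ) (i : I) : g i ∈ T.Gn g lv (lv i) :=
  Submodule.subset_span ⟨i, 1, Loc.one _, by simp⟩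
theorem TM.Gn_loc {x : FA} (h : Loc m n x) {w : B} (hw : w ∈ T.Gn g lv m) :
    T.ρ x w ∈ T.Gn g lv n := by
  refine span_map_mem (T.ρ x) ?_ hw
  rintro _ ⟨i, y, hy, rfl⟩
  exact Submodule.subset_span ⟨i, x * y, h.mul hy, by simp⟩
theorem TM.Gn_le (hg : ∀ i, g i ∈ T.Lv (lv i)) (m : ℕ) : T.Gn g lv m ≤ T.Lv m := by
  refine Submodule.span_le.2 ?_
  rintro _ ⟨i, y, hy, rfl⟩
  exact T.mem hy (hg i)
/-- induction over the generated submodule -/
theorem TM.Gn_ind (hg : ∀ i, g i ∈ T.Lv (lv i)) (S : ℕ → Submodule R B) (h₀ : ∀ i, g i ∈ S (lv i))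
    (hU : ∀ l m w, l ≤ m → w ∈ T.Gn g lv m → w ∈ S m → T.ρ (U l) w ∈ S (m + 2))
    (hC : ∀ l m w, l ≤ m → w ∈ T.Gn g lv (m + 2) → w ∈ S (m + 2) → T.ρ (C l) w ∈ S m) (m : ℕ) :
    T.Gn g lv m ≤ S m := by
  have _ := hg
  have key : ∀ {a b : ℕ} {x : FA}, Loc a b x → ∀ w, w ∈ T.Gn g lv a → w ∈ S a → T.ρ x w ∈ S b := by
    intro a b x hx
    induction hx with
    | one a => intro w _ hw; simpa using hw
    | u hj => intro w h1 h2; exact hU _ _ w hj h1 h2
    | c hj => intro w h1 h2; exact hC _ _ w hj h1 h2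
    | mul hy hx ihy ihx =>
      intro w h1 h2
      rw [map_mul, Module.End.mul_apply]
      exact ihy _ (TM.Gn_loc hx h1) (ihx w h1 h2)
    | add hx hy ihx ihy =>
      intro w h1 h2
      rw [map_add, LinearMap.add_apply]
      exact (S _).add_mem (ihx w h1 h2) (ihy w h1 h2)
    | smul c hx ih =>
      intro w h1 h2
      rw [map_smul, LinearMap.smul_apply]
      exact (S _).smul_mem c (ih w h1 h2)
    | zero a b => intro w _ _; simp
  refine Submodule.span_le.2 ?_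
  rintro _ ⟨i, y, hy, rfl⟩
  exact key hy _ (T.gen_mem_Gn g lv i) (h₀ i)

private theorem span_cap_cup (hg : T.Fam g lv) (i : I) {k : ℕ} {x : FA} (hx : CupW (lv i) k x) :
    ∀ l m, k = m + 2 → l ≤ m → T.ρ (C l) (T.ρ x (g i)) ∈ T.N g lv m := by
  induction hx with
  | one =>
    intro l m hk hl
    simpa using hg.cap i l m hk hl
  | @cons n j x hx hj ih =>
    intro l m hk hl
    obtain rfl : n = m := by omega
    have hlv : T.ρ x (g i) ∈ T.Lv n := T.mem hx.loc (hg.mem i)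
    have hN : T.ρ x (g i) ∈ T.N g lv n := Submodule.subset_span ⟨i, x, hx, rfl⟩
    rw [map_mul, Module.End.mul_apply]
    rcases lt_trichotomy l j with h | rfl | h
    · rcases eq_or_lt_of_le (Nat.succ_le_of_lt h) with h1 | h1
      · obtain rfl : j = l + 1 := h1.symm
        rw [T.zag hj hlv]
        exact hN
      · obtain ⟨j, rfl⟩ : ∃ j', j = j' + 2 := ⟨j - 2, by omega⟩
        obtain ⟨n, rfl⟩ : ∃ n', n = n' + 2 := ⟨n - 2, by omega⟩
        have e := congr($(T.wk.uc l j (by omega)) (T.ρ x (g i)))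
        simp only [Module.End.mul_apply] at e
        rw [e]
        exact TM.N_U (by omega) (ih l n rfl (by omega))
    · rw [T.loop hl hlv]
      exact Submodule.smul_mem _ _ hN
    · rcases eq_or_lt_of_le (Nat.succ_le_of_lt h) with h1 | h1
      · obtain rfl : l = j + 1 := h1.symm
        rw [T.zig hl hlv]
        exact hN
      · obtain ⟨l, rfl⟩ : ∃ l', l = l' + 2 := ⟨l - 2, by omega⟩
        obtain ⟨n, rfl⟩ : ∃ n', n = n' + 2 := ⟨n - 2, by omega⟩
        have e := congr($(T.wk.cu j l (by omega)) (T.ρ x (g i)))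
        simp only [Module.End.mul_apply] at e
        rw [e]
        exact TM.N_U (by omega) (ih l n rfl (by omega))

theorem TM.Fam.N_C (hg : T.Fam g lv) (h : l ≤ m) {w : B} (hw : w ∈ T.N g lv (m + 2)) :
    T.ρ (C l) w ∈ T.N g lv m := by
  refine span_map_mem (T.ρ (C l)) ?_ hw
  rintro _ ⟨i, x, hx, rfl⟩
  exact span_cap_cup hg i hx l m rfl h
theorem TM.Fam.Gn_eq (hg : T.Fam g lv) (m : ℕ) : T.Gn g lv m = T.N g lv m :=
  le_antisymm (TM.Gn_ind hg.mem (T.N g lv) (T.gen_mem_N g lv)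
    (fun _ _ _ h _ hw => TM.N_U h hw) (fun _ _ _ h _ hw => hg.N_C h hw) m) (T.N_le_Gn g lv m)
theorem TM.N_eq_cups (T : TM B) (g : I → B) (cr : I → ℕ × ℕ) (m : ℕ) :
    T.N g (fun i => (cr i).1 + (cr i).2) m =
      Submodule.span R {y | ∃ i w, core w = cr i ∧ w.length = m ∧ y = T.ρ (cups w) (g i)} := by
  unfold TM.N
  congr 1
  ext y
  constructor
  · rintro ⟨i, x, hx, rfl⟩
    have hx' : CupW (etaW (cr i).1 (cr i).2).length m x := by
      rw [length_etaW]
      exact hx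
    obtain ⟨w, h1, h2, h3⟩ := CupW.exists_word _ hx'
    refine ⟨i, w, by rw [h1, core_etaW], h2, ?_⟩
    rw [h3 _ T.ρ T.wk, cups_etaW, map_one, mul_one]
  · rintro ⟨i, w, h1, h2, rfl⟩
    refine ⟨i, cups w, ?_, rfl⟩
    have := cupW_cups w
    rw [h1, h2] at this
    exact this

/-- If the family of pairs is closed under caps and the first components are independent then the
generated submodule of the product is a graph. -/
theorem graph_of_indep (cr : I → ℕ × ℕ)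
    (hg : (T.prod T').Fam (fun i => (g i, g' i)) fun i => (cr i).1 + (cr i).2)
    (hi : LinearIndependent R
      fun p : {p : List Bool × I // core p.1 = cr p.2} => T.ρ (cups p.1.1) (g p.1.2)) (y : B')
    (hy : ((0, y) : B × B') ∈
      ⨆ m, (T.prod T').Gn (fun i => (g i, g' i)) (fun i => (cr i).1 + (cr i).2) m) : y = 0 := by
  have hle : (⨆ m, (T.prod T').Gn (fun i => (g i, g' i)) (fun i => (cr i).1 + (cr i).2) m) ≤
      Submodule.span R (Set.range fun p : {p : List Bool × I // core p.1 = cr p.2} =>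
        ((T.ρ (cups p.1.1) (g p.1.2), T'.ρ (cups p.1.1) (g' p.1.2)) : B × B')) := by
    refine iSup_le fun m => ?_
    rw [hg.Gn_eq, TM.N_eq_cups]
    refine Submodule.span_mono ?_
    rintro _ ⟨i, w, h1, -, rfl⟩
    exact ⟨⟨(w, i), h1⟩, rfl⟩
  obtain ⟨c, hc⟩ := Finsupp.mem_span_range_iff_exists_finsupp.1 (hle hy)
  have h1 := congr(LinearMap.fst R B B' $hc)
  have h2 := congr(LinearMap.snd R B B' $hc)
  rw [map_finsuppSum] at h1 h2
  simp only [map_smul, LinearMap.fst_apply, LinearMap.snd_apply] at h1 h2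
  have hc0 : c = 0 := linearIndependent_iff.1 hi c (by rw [Finsupp.linearCombination_apply]; exact h1)
  rw [← h2, hc0]
  simp

/-- A graph defines a natural map on every module generated by the first components. -/
theorem lift_of_graph (hg : ∀ i, g i ∈ T.Lv (lv i)) (hg' : ∀ i, g' i ∈ T'.Lv (lv i))
    (hlv : ∀ m, T.Lv m ≤ T.Gn g lv m) (htop : ⨆ m, T.Lv m = ⊤)
    (h : ∀ y : B', ((0, y) : B × B') ∈ ⨆ m, (T.prod T').Gn (fun i => (g i, g' i)) lv m → y = 0) :
    ∃ φ : B →ₗ[R] B', GMap T T' φ ∧ ∀ i, φ (g i) = g' i := by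
  have hgg : ∀ i, ((g i, g' i) : B × B') ∈ (T.prod T').Lv (lv i) := fun i => ⟨hg i, hg' i⟩
  have hex : ∀ m, ∀ w ∈ T.Lv m,
      ∃ y, ((w, y) : B × B') ∈ (T.prod T').Gn (fun i => (g i, g' i)) lv m := by
    intro m w hw
    have : T.Gn g lv m ≤
        ((T.prod T').Gn (fun i => (g i, g' i)) lv m).map (LinearMap.fst R B B') := by
      refine Submodule.span_le.2 ?_
      rintro _ ⟨i, x, hx, rfl⟩
      exact ⟨(T.prod T').ρ x (g i, g' i), Submodule.subset_span ⟨i, x, hx, rfl⟩, rfl⟩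
    obtain ⟨⟨w', y⟩, h1, h2⟩ := this (hlv m hw)
    obtain rfl : w' = w := h2
    exact ⟨y, h1⟩
  generalize hG : (⨆ m, (T.prod T').Gn (fun i => (g i, g' i)) lv m) = G at h
  have hle : ∀ m, (T.prod T').Gn (fun i => (g i, g' i)) lv m ≤ G := fun m =>
    hG ▸ le_iSup (fun m => (T.prod T').Gn (fun i => (g i, g' i)) lv m) m
  let π : G →ₗ[R] B := LinearMap.fst R B B' ∘ₗ G.subtype
  have hinj : Function.Injective π := by
    rw [injective_iff_map_eq_zero]
    rintro ⟨⟨w, y⟩, hz⟩ h0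
    obtain rfl : w = 0 := h0
    obtain rfl := h y hz
    rfl
  have hsur : Function.Surjective π := by
    rw [← LinearMap.range_eq_top, eq_top_iff, ← htop]
    refine iSup_le fun m w hw => ?_
    obtain ⟨y, hy⟩ := hex m w hw
    exact ⟨⟨(w, y), hle m hy⟩, rfl⟩
  let e := LinearEquiv.ofBijective π ⟨hinj, hsur⟩
  let φ : B →ₗ[R] B' := LinearMap.snd R B B' ∘ₗ G.subtype ∘ₗ e.symm.toLinearMap
  have hφ : ∀ w y, ((w, y) : B × B') ∈ G → φ w = y := by
    intro w y hz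
    have : e.symm w = ⟨(w, y), hz⟩ := by
      rw [LinearEquiv.symm_apply_eq]
      rfl
    change (e.symm w : B × B').2 = y
    rw [this]
  refine ⟨φ, ⟨?_, ?_, ?_⟩, fun i => hφ _ _ (hle _ ((T.prod T').gen_mem_Gn _ lv i))⟩
  · intro m w hw
    obtain ⟨y, hy⟩ := hex m w hw
    rw [hφ w y (hle m hy)]
    exact (TM.Gn_le hgg m hy).2
  · intro l m w hl hw
    obtain ⟨y, hy⟩ := hex m w hw
    rw [hφ w y (hle m hy)]
    exact hφ _ _ (hle _ (TM.Gn_loc (Loc.u hl) hy))
  · intro l m w hl hw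
    obtain ⟨y, hy⟩ := hex _ w hw
    rw [hφ w y (hle _ hy)]
    exact hφ _ _ (hle _ (TM.Gn_loc (Loc.c hl) hy))

/-- uniqueness of natural maps -/
theorem GMap.ext_gen (hg : ∀ i, g i ∈ T.Lv (lv i)) (hlv : ∀ m, T.Lv m ≤ T.Gn g lv m)
    (htop : ⨆ m, T.Lv m = ⊤) {φ ψ : B →ₗ[R] B'} (hφ : GMap T T' φ) (hψ : GMap T T' ψ)
    (h : ∀ i, φ (g i) = ψ (g i)) : φ = ψ := by
  have key : (⊤ : Submodule R B) ≤ LinearMap.eqLocus φ ψ := by
    rw [← htop]
    refine iSup_le fun m => (hlv m).trans (Submodule.span_le.2 ?_)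
    rintro _ ⟨i, x, hx, rfl⟩
    change φ _ = ψ _
    rw [hφ.nat hx (hg i), hψ.nat hx (hg i), h i]
  ext w
  exact key Submodule.mem_top

/-- a morphism to level zero is a combination of words of caps -/
theorem TM.loc_zero_mem (T : TM B) {x : FA} (h : Loc m 0 x) {w : B} (hw : w ∈ T.Lv m) :
    T.ρ x w ∈ Submodule.span R {y | ∃ d, y = T.ρ (capw d) w ∧ Loc m 0 (capw d)} := by
  let J : Type := {p : ℕ × List ℕ // Loc m p.1 (capw p.2)}
  let gJ : J → B := fun p => T.ρ (capw p.1.2) w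
  let lJ : J → ℕ := fun p => p.1.1
  have hF : T.Fam gJ lJ := by
    refine ⟨fun p => T.mem p.2 hw, ?_⟩
    rintro ⟨⟨k, d⟩, hp⟩ l n hk hl
    obtain rfl : k = n + 2 := hk
    have hq : Loc m n (capw (l :: d)) := by
      rw [capw_cons]
      exact (Loc.c hl).mul hp
    have := T.gen_mem_N gJ lJ ⟨(n, l :: d), hq⟩
    simpa [gJ, lJ, capw_cons] using this
  have h0 : w ∈ T.Gn gJ lJ m := by
    have hq : Loc m m (capw []) := by
      rw [capw_nil]
      exact Loc.one m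
    simpa [gJ, lJ] using T.gen_mem_Gn gJ lJ ⟨(m, []), hq⟩
  have h1 := TM.Gn_loc h h0
  rw [hF.Gn_eq] at h1
  refine Submodule.span_mono ?_ h1
  rintro _ ⟨⟨⟨k, d⟩, hp⟩, y, hy, rfl⟩
  obtain rfl : k = 0 := Nat.le_zero.1 hy.le
  obtain rfl : y = 1 := hy.eq_one
  exact ⟨d, by simp [gJ], hp⟩

end Pool.Agent.P.MP_b3a239_gt
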