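import Pool.Agent.P.MP_b3a239_gt.VRel
import Pool.Agent.P.MP_b3a239_gt.Span
import Pool.Agent.P.MP_b3a239_gt.Kit

/-! An identity on infinitely many strands between local morphisms holds on the level itself. -/

set_option maxSynthPendingDepth 3

noncomputable section

namespace Pool.Agent.P.MP_b3a239_gt

theorem Transfer_down {B : Type} [AddCommGroup B] [Module R B] (T : TM B) {m n : ℕ} {z : FA}
    (hz : Loc m n z) (h : mkT z = 0)
    (hinj : ∀ j, ∀ v ∈ T.Lv (n + j), T.ρ (U n) v = 0 → v = 0) {w : B} (hw : w ∈ T.Lv m) :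
    T.ρ z w = 0 := by
  obtain ⟨M, hM⟩ := mkT_eq_iff.1 (h.trans (map_zero mkT).symm)
  have key : ∀ N j, M ≤ j + N → ∀ v ∈ T.Lv (m + j), T.ρ z v = 0 := by
    intro N
    induction N with
    | zero =>
      intro j hj v hv
      rw [hM B T (m + j) (by omega) v hv, map_zero, LinearMap.zero_apply]
    | succ N ih =>
      intro j hj v hv
      refine hinj j _ (T.mem (hz.padR j) hv) ?_
      have h1 := LinearMap.congr_fun (T.wk.far hz (U 0)) v
      rw [shn_U, shn_U, zero_add, zero_add, Module.End.mul_apply, Module.End.mul_apply] at h1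
      rw [← h1]
      exact ih (j + 2) (by omega) _ (T.memU (Nat.le_add_right m j) hv)
  exact key M 0 (by omega) w hw

theorem Transfer_pos {B : Type} [AddCommGroup B] [Module R B] (T : TM B) {m n : ℕ} {z : FA}
    (hz : Loc m (n + 1) z) (h : mkT z = 0) {w : B} (hw : w ∈ T.Lv m) : T.ρ z w = 0 :=
  Transfer_down T hz h (fun j v hv h0 => by
    rw [← T.zag (l := n) (Nat.le_add_right _ j) hv, h0, map_zero]) hw

theorem Transfer_zero {B : Type} [AddCommGroup B] [Module R B] (T : TM B) {m n : ℕ} {z : FA}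
    (hz : Loc m n z) (h : mkT z = 0) {w : B} (hw : w ∈ T.Lv m) : T.ρ z w = 0 := by
  rcases n with _ | n
  swap
  · exact Transfer_pos T hz h hw
  rcases m with _ | m
  · have h0 : bas R [] ∈ (TF R).Lv 0 := bas_mem_vLv []
    have h1 : (TF R).ρ z (bas R []) = 0 := Transfer_down (TF R) hz h (fun j v hv h1 => by
      have h2 := (TF R).loop (Nat.zero_le _) hv
      rw [h1, map_zero] at h2
      exact (smul_eq_zero.1 h2.symm).resolve_left dd_ne_zero) h0
    have hF : (T.prod (TF R)).Fam (fun _ : Unit => (w, bas R [])) (fun _ => 0) :=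
      ⟨fun _ => ⟨hw, h0⟩, fun _ _ _ h => by omega⟩
    have h2 := TM.Gn_loc hz ((T.prod (TF R)).gen_mem_Gn (fun _ : Unit => (w, bas R []))
      (fun _ => 0) ())
    rw [hF.Gn_eq] at h2
    have h3 : (T.prod (TF R)).N (fun _ : Unit => (w, bas R [])) (fun _ => 0) 0 ≤
        Submodule.span R {(w, bas R [])} := Submodule.span_mono (by
      rintro _ ⟨_, x, hx, rfl⟩
      rw [hx.eq_one, map_one]
      rfl)
    obtain ⟨c, hc⟩ := Submodule.mem_span_singleton.1 (h3 h2)
    have h4 : c • w = T.ρ z w := congrArg Prod.fst hc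
    have h5 : c • bas R [] = (TF R).ρ z (bas R []) := congrArg Prod.snd hc
    rw [h1, smul_eq_zero] at h5
    rw [← h4, h5.resolve_right (Finsupp.single_ne_zero.2 one_ne_zero), zero_smul]
  · have h1 : mkT (shn 1 z * U 0) = 0 := by
      rw [map_mul, mkT_shn (h.trans (map_zero mkT).symm) 1, map_zero, map_zero, zero_mul]
    have h2 : T.ρ (shn 1 (shn 1 z * U 0)) w = 0 :=
      Transfer_pos (T.shift 1) ((hz.shn 1).mul (Loc.u (Nat.zero_le m))) h1 hw
    have h3 := LinearMap.congr_fun (T.wk.far (Loc.c (le_refl 0)) z) (T.ρ (U 1) w)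
    rw [map_mul, shn_shn, shn_U, map_mul, Module.End.mul_apply] at h2
    rw [shn_zero, Module.End.mul_apply, Module.End.mul_apply, h2, map_zero,
      T.zag (l := 0) (by omega) hw] at h3
    exact h3.symm

theorem TM.transfer {B : Type} [AddCommGroup B] [Module R B] (T : TM B) {m n : ℕ} {x y : FA}
    (hx : Loc m n x) (hy : Loc m n y) (h : mkT x = mkT y) {w : B} (hw : w ∈ T.Lv m) :
    T.ρ x w = T.ρ y w := by
  have h1 := Transfer_zero T (hx.sub hy) (by rw [map_sub, h, sub_self]) hw
  rwa [map_sub, LinearMap.sub_apply, sub_eq_zero] at h1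

end Pool.Agent.P.MP_b3a239_gt
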