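import Pool.Agent.P.MP_b3a239_gt.TLBasic

/-! Evaluation of Laurent polynomials at a non-zero complex number. -/

set_option maxSynthPendingDepth 3

noncomputable section

namespace Pool.Agent.P.MP_b3a239_gt

/-- evaluation at `A = ζ` -/
def evC (ζ : ℂˣ) : R →+* ℂ := LaurentPolynomial.eval₂ (Int.castRingHom ℂ) ζ

theorem evC_a (ζ : ℂˣ) (n : ℤ) : evC ζ (a n) = (ζ : ℂ) ^ n := by
  simp [evC, a]

/-- the complex numbers as an algebra over `R` with `A = ζ` -/
def Cx (_ζ : ℂˣ) : Type := ℂ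

instance (ζ : ℂˣ) : Field (Cx ζ) := inferInstanceAs (Field ℂ)
instance (ζ : ℂˣ) : CharZero (Cx ζ) := inferInstanceAs (CharZero ℂ)
instance (ζ : ℂˣ) : Algebra R (Cx ζ) := RingHom.toAlgebra (S := Cx ζ) (evC ζ)

theorem algebraMap_Cx (ζ : ℂˣ) (r : R) : algebraMap R (Cx ζ) r = evC ζ r := rfl

/-- the imaginary unit -/
def iU : ℂˣ := Units.mk0 Complex.I Complex.I_ne_zero

abbrev Ci : Type := Cx iU

end Pool.Agent.P.MP_b3a239_gt
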