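import Pool.Agent.P.MP_b3a239_gt.Defs

/-! The two modules as types with their own names, so that statements about them stay short. -/

noncomputable section

namespace Pool.Agent.P.MP_b3a239_gt

/-- The skein module `Skein L`. -/
def Sk (L : List (ℕ × ℕ)) : Type := Skein L

instance instAddCommGroupSk (L : List (ℕ × ℕ)) : AddCommGroup (Sk L) :=
  Submodule.Quotient.addCommGroup _

instance instModuleSk (L : List (ℕ × ℕ)) : Module R (Sk L) := Submodule.Quotient.module _

/-- The presented module `Model L`. -/
def Md (L : List (ℕ × ℕ)) : Type := Model L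

instance instAddCommGroupMd (L : List (ℕ × ℕ)) : AddCommGroup (Md L) :=
  Submodule.Quotient.addCommGroup _

instance instModuleMd (L : List (ℕ × ℕ)) : Module R (Md L) := Submodule.Quotient.module _

/-- The class of the word that puts one box `b j` for every summand and then the caps `d`. -/
def wordM (L : List (ℕ × ℕ)) (b : Fin L.length → Box) (d : List ℕ) : Md L := word L b d

/-- The words all of whose boxes are normal span the presented module. -/
def NormalSpan (L : List (ℕ × ℕ)) : Prop :=
  Submodule.span R {x | ∃ b d, (∀ j, (b j).Normal (par L j).1) ∧ x = wordM L b d} = ⊤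

/-- The field `ℚ(A)`. -/
abbrev K : Type := FractionRing R

/-- The vector `(∏ j, chi (p j) (q j) (r j) (n j))` indexed by the tuples `r`. -/
def chiVec (L : List (ℕ × ℕ)) (n : Fin L.length → ℤ) : Idx L → K :=
  fun r => algebraMap R K (∏ j : Fin L.length, chi (par L j).1 (par L j).2 (r j) (n j))

/-- The torsion submodule of the presented module is the kernel of a linear map to `ℚ(A) ^ Idx L`
which sends the word of the boxes `t (n j)` to `chiVec L n`. -/
def TorsionKer (L : List (ℕ × ℕ)) : Prop :=
  ∃ φ : Md L →ₗ[R] (Idx L → K), (∀ n, φ (wordM L (fun j => .t (n j)) []) = chiVec L n) ∧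
    Submodule.torsion R (Md L) = LinearMap.ker φ

/-- Every torsion element is killed by a product of factors `1 - A ^ (4 k + 4)`. -/
def TorsionKilled (S : Type) [AddCommGroup S] [Module R S] : Prop :=
  ∀ x ∈ Submodule.torsion R S, ∃ r ∈ Submonoid.closure (Set.range f), r • x = 0

/-- The torsion submodule is finitely generated. -/
def TorsionFG (S : Type) [AddCommGroup S] [Module R S] : Prop :=
  Module.Finite R (Submodule.torsion R S)

/-- The module is a direct sum of cyclic modules. -/
def CyclicSum (S : Type) [AddCommGroup S] [Module R S] : Prop :=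
  ∃ (ι : Type) (I : ι → Ideal R), Nonempty (S ≃ₗ[R] DirectSum ι fun i => R ⧸ I i)

end Pool.Agent.P.MP_b3a239_gt
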