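import Pool.Agent.P.MP_b3a239_gt.CxDef

/-! A module of finite rank with infinitely many independent functionals at `A = i` has torsion
that is not finitely generated. -/

set_option maxSynthPendingDepth 3

noncomputable section

namespace Pool.Agent.P.MP_b3a239_gt

open Polynomial in
theorem evC_iU_eq_zero_iff (r : R) : evC iU r = 0 ↔ 1 + a 2 ∣ r := by
  have hI : ((iU : ℂˣ) : ℂ) = Complex.I := rfl
  constructor
  · intro h
    obtain ⟨n, p, hp⟩ := LaurentPolynomial.exists_T_pow r
    have e : r = toLaurent p * a (-n) := by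
      rw [hp, mul_assoc]
      change r = r * (a n * a (-n))
      rw [a_mul_neg, mul_one]
    have h1 : aeval Complex.I p = 0 := by
      have h2 : evC iU (toLaurent p) = 0 := by rw [hp, map_mul, h, zero_mul]
      rw [evC, LaurentPolynomial.eval₂_toLaurent] at h2
      exact h2
    have hm : (X ^ 2 + 1 : ℤ[X]).Monic := by monicity!
    have hd : (X ^ 2 + 1 : ℤ[X]) ∣ p := by
      rw [← modByMonic_eq_zero_iff_dvd hm]
      have h2 : aeval Complex.I (p %ₘ (X ^ 2 + 1)) = 0 := by
        rw [aeval_modByMonic_eq_self_of_root (by simp), h1]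
      have h3 : (p %ₘ (X ^ 2 + 1)).degree ≤ 1 := by
        have h4 := degree_modByMonic_lt p hm
        have h5 : (X ^ 2 + 1 : ℤ[X]).degree = 2 := by compute_degree!
        rw [h5] at h4
        exact Order.le_of_lt_succ h4
      rw [eq_X_add_C_of_degree_le_one h3] at h2 ⊢
      simp only [map_add, map_mul, aeval_X, eq_intCast, map_intCast] at h2
      have h6 := congrArg Complex.re h2
      have h7 := congrArg Complex.im h2
      simp at h6 h7
      simp [h6, h7]
    obtain ⟨c, rfl⟩ := hd
    have e2 : toLaurent (X ^ 2 + 1 : ℤ[X]) = 1 + a 2 := by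
      rw [map_add, toLaurent_X_pow, map_one, add_comm]
      rfl
    rw [e, map_mul, e2, mul_assoc]
    exact dvd_mul_right _ _
  · rintro ⟨c, rfl⟩
    rw [map_mul, map_add, map_one, evC_a, hI]
    have : (1 : ℂ) + Complex.I ^ (2 : ℤ) = 0 := by
      rw [zpow_ofNat, Complex.I_sq]
      ring
    rw [this, zero_mul]

private theorem pi_ne_zero : (1 + a 2 : R) ≠ 0 := by
  intro h
  have h1 := congrArg (evC 1) h
  rw [map_add, map_one, evC_a, map_zero] at h1
  norm_num at h1

private theorem exists_pow_not_dvd {r : R} (hr : r ≠ 0) : ∃ n : ℕ, ¬ (1 + a 2) ^ n ∣ r := by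
  have : IsNoetherianRing R :=
    IsLocalization.isNoetherianRing (Submonoid.powers (Polynomial.X : Polynomial ℤ)) R
      inferInstance
  have hu : ¬ IsUnit (1 + a 2 : R) := fun h =>
    (h.map (evC iU)).ne_zero ((evC_iU_eq_zero_iff _).2 dvd_rfl)
  obtain ⟨n, c, hc, rfl⟩ := WfDvdMonoid.max_power_factor' hr hu
  refine ⟨n + 1, fun h => hc ?_⟩
  rw [pow_succ] at h
  exact (mul_dvd_mul_iff_left (pow_ne_zero n pi_ne_zero)).1 h

private theorem cancel_pi {S ι : Type} [AddCommGroup S] [Module R S] [Fintype ι] (y : ι → S)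
    (n : ℕ) : ∀ r : ι → R, (∃ i, ¬ (1 + a 2) ^ n ∣ r i) →
      ∑ i, r i • y i ∈ Submodule.torsion R S →
      ∃ r' : ι → R, (∃ i, ¬ 1 + a 2 ∣ r' i) ∧ ∑ i, r' i • y i ∈ Submodule.torsion R S := by
  induction n with
  | zero =>
    rintro r ⟨i, hi⟩
    exact absurd (by simp) hi
  | succ n ih =>
    rintro r ⟨i, hi⟩ hr
    by_cases h : ∃ i, ¬ 1 + a 2 ∣ r i
    · exact ⟨r, h, hr⟩
    · push Not at h
      choose r' hr' using h
      refine ih r' ⟨i, fun hd => hi ?_⟩ ?_
      · rw [hr' i, pow_succ']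
        exact mul_dvd_mul_left _ hd
      · obtain ⟨c, hc⟩ := (Submodule.mem_torsion_iff _).1 hr
        refine (Submodule.mem_torsion_iff _).2
          ⟨c * ⟨1 + a 2, mem_nonZeroDivisors_of_ne_zero pi_ne_zero⟩, ?_⟩
        rw [mul_smul, ← hc]
        congr 1
        rw [Submonoid.smul_def, Finset.smul_sum]
        refine Finset.sum_congr rfl fun j _ => ?_
        rw [hr' j, mul_smul]

private theorem exists_rel {S I ι : Type} [AddCommGroup S] [Module R S] [Fintype I] [Fintype ι]
    (s : I → S) (hs : ∀ x : S, ∃ r : R, r ≠ 0 ∧ r • x ∈ Submodule.span R (Set.range s))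
    (y : ι → S) (hc : Fintype.card I < Fintype.card ι) :
    ∃ r' : ι → R, (∃ i, ¬ 1 + a 2 ∣ r' i) ∧ ∑ i, r' i • y i ∈ Submodule.torsion R S := by
  choose ρ h0 hρ using hs
  have h1 : ∀ i, ∃ m : I → R, ∑ j, m j • s j = ρ (y i) • y i := fun i =>
    (Submodule.mem_span_range_iff_exists_fun R).1 (hρ (y i))
  choose m hm using h1
  have h2 : ¬ LinearIndependent R m := fun h => by
    have h3 := h.fintype_card_le_finrank
    rw [Module.finrank_fintype_fun_eq_card] at h3
    omega
  obtain ⟨c, hc0, i, hi⟩ := Fintype.not_linearIndependent_iff.1 h2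
  obtain ⟨n, hn⟩ := exists_pow_not_dvd (mul_ne_zero hi (h0 (y i)))
  refine cancel_pi y n (fun i => c i * ρ (y i)) ⟨i, hn⟩ ?_
  have e : ∑ i, (c i * ρ (y i)) • y i = ∑ j, (∑ i, c i • m i) j • s j := by
    simp only [mul_smul, ← hm, Finset.smul_sum, Finset.sum_apply, Pi.smul_apply, smul_eq_mul,
      Finset.sum_smul]
    exact Finset.sum_comm
  rw [e, hc0]
  simp

theorem not_finite_torsion {S I : Type} [AddCommGroup S] [Module R S] [Finite I] (s : I → S)
    (hs : ∀ x : S, ∃ r : R, r ≠ 0 ∧ r • x ∈ Submodule.span R (Set.range s))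
    (Ψ : ℕ → S →ₗ[R] Ci) (x : ℕ → S) (h₁ : ∀ K, Ψ K (x K) ≠ 0) (h₀ : ∀ K k, k < K → Ψ K (x k) = 0) :
    ¬ Module.Finite R (Submodule.torsion R S) := by
  intro hfin
  have := Fintype.ofFinite I
  obtain ⟨M, t, ht⟩ := Submodule.fg_iff_exists_fin_generating_family.1
    ((Module.Finite.iff_fg).1 hfin)
  set D := Fintype.card I + M + 1 with hD
  let Φ : S →ₗ[R] (Fin D → Ci) := LinearMap.pi fun K => Ψ K
  let W : Submodule Ci (Fin D → Ci) := Submodule.span Ci (Set.range fun i => Φ (t i))
  have hW : Module.finrank Ci W ≤ M := by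
    have h := finrank_range_le_card (R := Ci) fun i => Φ (t i)
    rw [Fintype.card_fin] at h
    exact h
  have hT : ∀ z ∈ Submodule.torsion R S, Φ z ∈ W := by
    intro z hz
    rw [← ht] at hz
    obtain ⟨c, rfl⟩ := (Submodule.mem_span_range_iff_exists_fun R).1 hz
    rw [map_sum]
    refine W.sum_mem fun i _ => ?_
    rw [map_smul, ← algebraMap_smul Ci]
    exact W.smul_mem _ (Submodule.subset_span ⟨i, rfl⟩)
  have hind : LinearIndependent Ci fun k : Fin D => Φ (x k) := by
    have hdet : (Matrix.of fun k K : Fin D => Ψ K (x k)).det ≠ 0 := by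
      rw [Matrix.det_of_isLowerTriangular (Matrix.of fun k K : Fin D => Ψ K (x k))
        fun i j hij => h₀ j i (show i < j from hij)]
      exact Finset.prod_ne_zero_iff.2 fun i _ => h₁ i
    exact Matrix.linearIndependent_rows_of_det_ne_zero hdet
  have hsp : Submodule.span Ci (Set.range fun k : Fin D => Φ (x k)) = ⊤ :=
    hind.span_eq_top_of_card_eq_finrank (by simp)
  obtain ⟨κ, e, he, hspan, hli⟩ :=
    exists_linearIndependent' Ci fun k : Fin D => W.mkQ (Φ (x k))
  have : Fintype κ := Fintype.ofInjective e he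
  have htop : Submodule.span Ci (Set.range fun k : Fin D => W.mkQ (Φ (x k))) = ⊤ := by
    have h2 := congrArg (Submodule.map W.mkQ) hsp
    rw [Submodule.map_span, ← Set.range_comp, Submodule.map_top, Submodule.range_mkQ] at h2
    exact h2
  have hcard : Fintype.card I < Fintype.card κ := by
    have h2 := finrank_span_eq_card hli
    rw [hspan, htop, finrank_top] at h2
    have h3 := Submodule.finrank_quotient_add_finrank W
    rw [Module.finrank_fintype_fun_eq_card, Fintype.card_fin] at h3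
    omega
  obtain ⟨r, ⟨i, hi⟩, hr⟩ := exists_rel s hs (fun k => x (e k)) hcard
  have h2 : ∑ k, algebraMap R Ci (r k) • W.mkQ (Φ (x (e k))) = 0 := by
    have h3 : W.mkQ (Φ (∑ k, r k • x (e k))) = 0 := (Submodule.Quotient.mk_eq_zero W).2 (hT _ hr)
    rw [← h3, map_sum, map_sum]
    refine Finset.sum_congr rfl fun k _ => ?_
    rw [Φ.map_smul, ← algebraMap_smul Ci (r k), map_smul]
  exact hi ((evC_iU_eq_zero_iff _).1 (Fintype.linearIndependent_iff.1 hli _ h2 i))

theorem not_free_of_torsion {S : Type} [AddCommGroup S] [Module R S]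
    (h : ¬ Module.Finite R (Submodule.torsion R S)) : ¬ Module.Free R S := by
  intro hf
  apply h
  have e : Submodule.torsion R S = ⊥ :=
    Submodule.isTorsionFree_iff_torsion_eq_bot.1 inferInstance
  rw [e]
  infer_instance

end Pool.Agent.P.MP_b3a239_gt
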