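import Pool.Agent.P.MP_b3a239_gt.LLift

/-! Reduction of boxes to normal boxes, and to the boxes `t n` up to torsion. -/

set_option maxSynthPendingDepth 3

noncomputable section

namespace Pool.Agent.P.MP_b3a239_gt

theorem chi_neg (p q : ℕ) (r n : ℤ) : chi p q r (-n) = chi p q r n := by
  have h1 : ((p : ℤ) ∣ -n - r ∨ (p : ℤ) ∣ -n + r) ↔ ((p : ℤ) ∣ n - r ∨ (p : ℤ) ∣ n + r) := by
    rw [show -n - r = -(n + r) by ring, show -n + r = -(n - r) by ring, dvd_neg, dvd_neg, or_comm]
  have h2 : (((q : ℤ) + 1) * (-n - r)).negOnePow = (((q : ℤ) + 1) * (n - r)).negOnePow :=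
    (Int.negOnePow_eq_iff _ _).2 ⟨-((q + 1) * n), by ring⟩
  simp only [chi, h1, h2, neg_sq]

theorem chi_add {p q : ℕ} (hp : 2 ≤ p) (hpq : p.Coprime q) (r n : ℤ) :
    chi p q r (n + p) = -((-1) ^ q * a (-(p * q) - 2 * q * n)) * chi p q r n := by
  have h1 : ((p : ℤ) ∣ n + p - r ∨ (p : ℤ) ∣ n + p + r) ↔ ((p : ℤ) ∣ n - r ∨ (p : ℤ) ∣ n + r) := by
    rw [show n + p - r = n - r + p by ring, show n + p + r = n + r + p by ring,
      dvd_add_self_right, dvd_add_self_right]
  simp only [chi, h1]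
  split_ifs with hc
  · obtain ⟨c, hc⟩ : (p : ℤ) ∣ n ^ 2 - r ^ 2 := by
      rw [sq_sub_sq]
      rcases hc with h | h
      · exact h.mul_left _
      · exact h.mul_right _
    have hp0 : (p : ℤ) ≠ 0 := by omega
    have e1 : (n ^ 2 - r ^ 2) / p = c := by rw [hc, Int.mul_ediv_cancel_left _ hp0]
    have e2 : ((n + p) ^ 2 - r ^ 2) / p = c + 2 * n + p := by
      rw [show (n + p) ^ 2 - r ^ 2 = p * (c + 2 * n + p) by linear_combination hc,
        Int.mul_ediv_cancel_left _ hp0]
    have e3 : ((((((q : ℤ) + 1) * p).negOnePow : ℤˣ) : ℤ) : R) = -(-1) ^ q := by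
      rcases Nat.even_or_odd q with hq | hq
      · have hpo : Odd p := by
          rcases Nat.even_or_odd p with h | h
          · have := Nat.dvd_gcd h.two_dvd hq.two_dvd
            rw [hpq] at this
            omega
          · exact h
        rw [Int.negOnePow_odd, hq.neg_one_pow]
        · simp
        · exact_mod_cast (hq.add_one.mul hpo).natCast (R := ℤ)
      · rw [Int.negOnePow_even, hq.neg_one_pow]
        · simp
        · exact_mod_cast (hq.add_one.mul_right p).natCast (α := ℤ)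
    rw [e1, e2, show ((q : ℤ) + 1) * (n + p - r) = (q + 1) * p + (q + 1) * (n - r) by ring,
      Int.negOnePow_add, show -((q : ℤ) * (c + 2 * n + p)) = (-(p * q) - 2 * q * n) + -(q * c) by
        ring, a_add]
    simp only [Units.smul_def, zsmul_eq_mul, Units.val_mul, Int.cast_mul, e3]
    ring
  · simp

theorem chi_diag {p : ℕ} (q : ℕ) (hp : 2 ≤ p) (r s : Fin (p / 2 + 1)) :
    chi p q r s = if r = s then 1 else 0 := by
  split_ifs with h
  · subst h
    simp [chi]
  · have hr := r.2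
    have hs := s.2
    have hne : (r : ℕ) ≠ s := fun e => h (Fin.ext e)
    rw [chi, if_neg]
    rintro (h1 | h1)
    · have := Int.eq_zero_of_abs_lt_dvd h1 (abs_lt.2 ⟨by omega, by omega⟩)
      omega
    · have := Int.eq_zero_of_abs_lt_dvd h1 (abs_lt.2 ⟨by omega, by omega⟩)
      omega

theorem Normal_per {p : ℕ} (hp : 2 ≤ p) {P : ℤ → Prop} (hneg : ∀ n, P n → P (-n))
    (hadd : ∀ n, P (n + p) ↔ P n) (h0 : ∀ r : ℕ, r ≤ p / 2 → P r) (n : ℤ) : P n := by
  have h1 : ∀ r : ℤ, 0 ≤ r → r < p → P r := by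
    intro r hr hr'
    obtain ⟨r, rfl⟩ := Int.eq_ofNat_of_zero_le hr
    by_cases h : r ≤ p / 2
    · exact h0 r h
    · have := (hadd _).2 (hneg _ (h0 (p - r) (by omega)))
      rwa [show -((p - r : ℕ) : ℤ) + p = r by omega] at this
  have h2 : ∀ (r c : ℤ), P r → P (r + c * p) := by
    intro r c hr
    induction c using Int.induction_on with
    | zero => simpa using hr
    | succ c ih => rw [show r + ((c : ℤ) + 1) * p = r + c * p + p by ring]; exact (hadd _).2 ih
    | pred c ih =>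
      refine (hadd _).1 ?_
      rwa [show r + (-(c : ℤ) - 1) * p + p = r + -c * p by ring]
  have := h2 (n % p) (n / p) (h1 _ (Int.emod_nonneg _ (by omega)) (Int.emod_lt_of_pos _ (by omega)))
  rwa [Int.emod_add_ediv_mul] at this

variable {B : Type} [AddCommGroup B] [Module R B] {T : TM B} {p q : ℕ} {g : Box → B}

theorem Normal_evG (ρ : FA →ₐ[R] Module.End R B) (g : Box → B) (k : ℕ) (n : ℤ) :
    ev ρ g (G k n) = g (.G k n) := ev_bx ρ g (.G k n)

theorem Normal_evt (ρ : FA →ₐ[R] Module.End R B) (g : Box → B) (n : ℤ) :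
    ev ρ g (t n) = g (.t n) := ev_bx ρ g (.t n)

theorem Normal_unit (q : ℕ) (e : ℤ) : IsUnit ((-1) ^ q * a e : R) :=
  (isUnit_one.neg.pow q).mul (isUnit_a e)

theorem TM.Boxes.t_neg (h : T.Boxes p q g) (n : ℤ) : g (.t (-n)) = g (.t n) := by
  have h0 : g (.G 0 0) = 0 := (Normal_evG T.ρ g 0 0).symm.trans (h.rel _ (.zero 0))
  have hs : ∀ n, g (.G 0 n) + g (.G 0 (-n)) = 0 := fun n => by
    have := h.rel _ (.sym 0 n)
    rwa [map_add, show Om 0 n = G 0 n from rfl, show Om 0 (-n) = G 0 (-n) from rfl, Normal_evG,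
      Normal_evG] at this
  have key : ∀ m : ℕ, g (.t (-m)) = g (.t m) ∧ g (.t (-(m + 1))) = g (.t (m + 1)) := by
    intro m
    induction m with
    | zero =>
      refine ⟨by simp, ?_⟩
      have := h.sph.sph₀ 0
      rw [h0, smul_zero, eq_comm, sub_eq_zero] at this
      simpa using this.symm
    | succ m ih =>
      refine ⟨by simpa using ih.2, ?_⟩
      have h1 := h.sph.sph₀ (m + 1)
      have h2 := h.sph.sph₀ (-(m + 1))
      have h3 := congrArg (f 0 • ·) (hs (m + 1))
      simp only [smul_add, smul_zero, h1, h2] at h3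
      rw [show (m : ℤ) + 1 - 1 = m by ring, show -((m : ℤ) + 1) + 1 = -m by ring, ih.1,
        show -((m : ℤ) + 1) - 1 = -(m + 1 + 1) by ring] at h3
      push_cast
      rw [← sub_eq_zero, ← neg_eq_zero, ← h3]
      abel
  obtain ⟨m, rfl | rfl⟩ := n.eq_nat_or_neg
  · exact (key m).1
  · rw [neg_neg, (key m).1]

theorem TM.Boxes.t_add (h : T.Boxes p q g) (n : ℤ) :
    g (.t (n + p)) = -((-1) ^ q * a (-(p * q) - 2 * q * n)) • g (.t n) := by
  have := h.rel _ (.lenst n)
  rw [map_add, map_smul, Normal_evt, Normal_evt] at this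
  rw [neg_smul, eq_neg_iff_add_eq_zero, this]

theorem Normal_low {I : Type} {g' : I → B} {lv : I → ℕ} (ht : ∀ n, g (.t n) ∈ T.Gn g' lv 0)
    (k : ℕ) (hG : ∀ j < k, ∀ n, g (.G j n) ∈ T.Gn g' lv (2 * j)) (i : ℕ) (n : ℤ) :
    ev T.ρ g (low k (i + 1) n) ∈ T.Gn g' lv (2 * k) := by
  induction k generalizing i with
  | zero =>
    rw [low]
    split_ifs
    · rw [Normal_evt]; exact ht n
    · rw [map_zero]; exact Submodule.zero_mem _
  | succ k ih =>
    rw [low, ← emb_RtF, ev_emb_mul]
    refine TM.Gn_loc (loc_RtF k) ?_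
    cases i with
    | zero => rw [low, Normal_evG]; exact hG k (by omega) n
    | succ i => exact ih (fun j hj => hG j (by omega)) i

theorem Normal_Om {I : Type} {g' : I → B} {lv : I → ℕ}
    (k : ℕ) (hG : ∀ j < k, ∀ n, g (.G j n) ∈ T.Gn g' lv (2 * j)) (n : ℤ) :
    ev T.ρ g (Om k n) - g (.G k n) ∈ T.Gn g' lv (2 * k) := by
  have key : Submodule.span R {x | ∃ y j n', j < k ∧ Loc (2 * j) (2 * k) y ∧ x = emb y * G j n'} ≤
      (T.Gn g' lv (2 * k)).comap (ev T.ρ g) := by
    refine Submodule.span_le.2 ?_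
    rintro _ ⟨y, j, n', hj, hy, rfl⟩
    show ev T.ρ g _ ∈ T.Gn g' lv (2 * k)
    rw [ev_emb_mul, Normal_evG]
    exact TM.Gn_loc hy (hG j hj n')
  have := key (Om_sub_mem k n)
  rwa [Submodule.mem_comap, map_sub, Normal_evG] at this

theorem TM.Boxes.normal (h : T.Boxes p q g) (hp : 2 ≤ p) (b : Box) :
    g b ∈ T.Gn (fun b' : {b' : Box // b'.Normal p} => g b'.1) (fun b' => b'.1.legs) b.legs := by
  set g' := fun b' : {b' : Box // b'.Normal p} => g b'.1 with hg'
  set lv := fun b' : {b' : Box // b'.Normal p} => b'.1.legs with hlv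
  have hgen : ∀ b : Box, b.Normal p → g b ∈ T.Gn g' lv b.legs := fun b hb =>
    T.gen_mem_Gn g' lv ⟨b, hb⟩
  have ht : ∀ n, g (.t n) ∈ T.Gn g' lv 0 := by
    have key : ∀ r : ℕ, r ≤ p / 2 → g (.t r) ∈ T.Gn g' lv 0 ∧ g (.t (r + 1)) ∈ T.Gn g' lv 0 := by
      intro r
      induction r with
      | zero => exact fun _ => ⟨hgen (.t 0) (Or.inl rfl), hgen (.t 1) (Or.inr rfl)⟩
      | succ r ih =>
        intro hr
        obtain ⟨h1, h2⟩ := ih (by omega)
        refine ⟨by exact_mod_cast h2, ?_⟩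
        have h3 := h.sph.sph₀ (r + 1)
        have h4 : g (.G 0 (r + 1)) ∈ T.Gn g' lv 0 := hgen (.G 0 (r + 1)) ⟨by omega, by omega⟩
        rw [show (r : ℤ) + 1 - 1 = r by ring, eq_sub_iff_add_eq] at h3
        push_cast
        rw [← h3]
        exact Submodule.add_mem _ (Submodule.smul_mem _ _ h4) h1
    refine Normal_per hp (fun n hn => by rwa [h.t_neg]) (fun n => ?_) fun r hr => (key r hr).1
    rw [h.t_add]
    exact Submodule.smul_mem_iff_of_isUnit _ (Normal_unit q _).neg
  have hG : ∀ k n, g (.G k n) ∈ T.Gn g' lv (2 * k) := by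
    intro k
    induction k using Nat.strong_induction_on with
    | _ k ih =>
      refine Normal_per hp (fun n hn => ?_) (fun n => ?_) fun r hr => ?_
      · have h1 := h.rel _ (.sym k n)
        rw [map_add] at h1
        have h2 := Normal_Om k ih n
        have h3 := Normal_Om k ih (-n)
        have e : g (.G k (-n)) = -(ev T.ρ g (Om k n) - g (.G k n)) -
            (ev T.ρ g (Om k (-n)) - g (.G k (-n))) - g (.G k n) := by
          rw [eq_neg_of_add_eq_zero_left h1]; abel
        rw [e]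
        exact Submodule.sub_mem _ (Submodule.sub_mem _ (Submodule.neg_mem _ h2) h3) hn
      · have h1 := h.rel _ (.lensG k n)
        rw [map_add, Finset.sum_range_succ', map_add, map_sum, map_smul, low, Normal_evG,
          Normal_evG, ← eq_neg_iff_add_eq_zero] at h1
        rw [h1, Submodule.neg_mem_iff, Submodule.add_mem_iff_right]
        · have hg0 : gauss q 0 = 1 := by cases q <;> rfl
          rw [hg0, mul_one, Nat.cast_zero, sub_zero]
          exact Submodule.smul_mem_iff_of_isUnit _ (Normal_unit q _)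
        · refine Submodule.sum_mem _ fun i _ => ?_
          rw [map_smul]
          exact Submodule.smul_mem _ _ (Normal_low ht k ih i _)
      · rcases Nat.eq_zero_or_pos r with rfl | hr0
        · have h2 := Normal_Om k ih 0
          rwa [h.rel _ (.zero k), zero_sub, Submodule.neg_mem_iff] at h2
        · exact hgen (.G k r) ⟨by omega, by omega⟩
  cases b with
  | G k n => exact hG k n
  | t n => exact ht n

theorem TM.Boxes.t_eq (h : T.Boxes p q g) (hp : 2 ≤ p) (hpq : p.Coprime q) (n : ℤ) :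
    g (.t n) = ∑ r : Fin (p / 2 + 1), chi p q r n • g (.t r) := by
  refine Normal_per (P := fun n => g (.t n) = ∑ r : Fin (p / 2 + 1), chi p q r n • g (.t r)) hp
    (fun n hn => ?_) (fun n => ?_) (fun r hr => ?_) n
  · simp only [h.t_neg, chi_neg]
    exact hn
  · simp only [h.t_add, chi_add hp hpq, mul_smul, ← Finset.smul_sum]
    exact (Normal_unit q _).neg.smul_left_cancel
  · have := fun s : Fin (p / 2 + 1) => chi_diag q hp s ⟨r, by omega⟩
    simp only [this]
    simp

theorem TM.Boxes.tors (h : T.Boxes p q g) (hp : 2 ≤ p) (hpq : p.Coprime q) (b : Box) :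
    ∃ r ∈ Submonoid.closure (Set.range f), r • g b ∈
      T.Gn (fun b' : {b' : Box // ∃ s : Fin (p / 2 + 1), b' = .t s} => g b'.1)
        (fun b' => b'.1.legs) b.legs := by
  set g' := fun b' : {b' : Box // ∃ s : Fin (p / 2 + 1), b' = .t s} => g b'.1 with hg'
  set lv := fun b' : {b' : Box // ∃ s : Fin (p / 2 + 1), b' = .t s} => b'.1.legs with hlv
  have ht : ∀ n, g (.t n) ∈ T.Gn g' lv 0 := fun n => by
    rw [h.t_eq hp hpq n]
    exact Submodule.sum_mem _ fun s _ => Submodule.smul_mem _ _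
      (T.gen_mem_Gn g' lv ⟨.t s, s, rfl⟩)
  have hG : ∀ k n, ∃ r ∈ Submonoid.closure (Set.range f),
      r • g (.G k n) ∈ T.Gn g' lv (2 * k) := by
    intro k
    induction k with
    | zero =>
      intro n
      refine ⟨f 0, Submonoid.subset_closure ⟨0, rfl⟩, ?_⟩
      rw [h.sph.sph₀]
      exact Submodule.sub_mem _ (ht _) (ht _)
    | succ k ih =>
      intro n
      obtain ⟨r₁, hr₁, h₁⟩ := ih (n + 1)
      obtain ⟨r₂, hr₂, h₂⟩ := ih (n - 1)
      refine ⟨r₁ * r₂ * f (k + 1), Submonoid.mul_mem _ (Submonoid.mul_mem _ hr₁ hr₂)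
        (Submonoid.subset_closure ⟨k + 1, rfl⟩), ?_⟩
      rw [mul_smul, h.sph.sph, ← map_smul]
      refine TM.Gn_loc (loc_RtF k) ?_
      rw [smul_sub, smul_comm (r₁ * r₂) (a _)]
      refine Submodule.sub_mem _ ?_ (Submodule.smul_mem _ _ ?_)
      · rw [mul_comm r₁ r₂, mul_smul]; exact Submodule.smul_mem _ _ h₁
      · rw [mul_smul]; exact Submodule.smul_mem _ _ h₂
  cases b with
  | G k n => exact hG k n
  | t n => exact ⟨1, Submonoid.one_mem _, by rw [one_smul]; exact ht n⟩

end Pool.Agent.P.MP_b3a239_gt
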