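import Pool.Agent.P.MP_b3a239_gt.VTL

/-! Concatenation, change of coefficients, exchange of letters. -/

set_option maxSynthPendingDepth 3

noncomputable section

namespace Pool.Agent.P.MP_b3a239_gt

variable {k : Type} [CommRing k] [Algebra R k]

theorem VRel_ind {k : Type} [CommRing k] {P : F k → Prop} (h₀ : P 0)
    (hb : ∀ (c : k) (u : List Bool), P (c • bas k u)) (ha : ∀ u w, P u → P w → P (u + w))
    (w : F k) : P w := by
  induction w using Finsupp.induction_linear with
  | zero => exact h₀
  | add u v hu hv => exact ha u v hu hv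
  | single u c =>
    have := hb c u
    rwa [bas, Finsupp.smul_single, smul_eq_mul, mul_one] at this

theorem VRel_app_smul (c : R) (u w : F k) : app k (c • u) w = c • app k u w := by
  rw [← algebraMap_smul k c u, map_smul, LinearMap.smul_apply, algebraMap_smul]

theorem VRel_U_succ (l : ℕ) : U (l + 1) = shn 1 (U l) := (shn_U 1 l).symm

theorem VRel_C_succ (l : ℕ) : C (l + 1) = shn 1 (C l) := (shn_C 1 l).symm

theorem VRel_app_U (j : ℕ) (u : List Bool) (h : j ≤ u.length) (w : F k) :
    vρ k (U j) (app k (bas k u) w) = app k (vρ k (U j) (bas k u)) w := by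
  induction j generalizing u with
  | zero =>
    rw [vρ_U_zero, vρ_U_zero, map_sub, LinearMap.sub_apply, VRel_app_smul, app_cons, app_cons,
      app_cons, app_cons]
  | succ j ih =>
    cases u with
    | nil => simp at h
    | cons b u =>
      rw [← cons_bas, app_cons, VRel_U_succ, vρ_shn_cons, vρ_shn_cons, app_cons,
        ih u (by simpa using h)]

theorem VRel_app_C (j : ℕ) (u : List Bool) (h : j + 2 ≤ u.length) (w : F k) :
    vρ k (C j) (app k (bas k u) w) = app k (vρ k (C j) (bas k u)) w := by
  induction j generalizing u with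
  | zero =>
    match u, h with
    | b :: c :: u, _ =>
      rw [← cons_bas, ← cons_bas, app_cons, app_cons, vρ_C_zero, vρ_C_zero]
      split_ifs
      · simp
      · rfl
      · rw [map_neg, LinearMap.neg_apply, VRel_app_smul]
  | succ j ih =>
    cases u with
    | nil => simp at h
    | cons b u =>
      rw [← cons_bas, app_cons, VRel_C_succ, vρ_shn_cons, vρ_shn_cons, app_cons,
        ih u (by simp at h; omega)]

theorem vρ_app_left {m n : ℕ} {x : FA} (h : Loc m n x) {u : F k} (hu : u ∈ vLv k m) (w : F k) :
    vρ k x (app k u w) = app k (vρ k x u) w := by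
  induction h generalizing u with
  | one m => simp
  | @u m j hj =>
    refine vLv_ind (P := fun u => vρ k (U j) (app k u w) = app k (vρ k (U j) u) w)
      (by simp) (fun u hu => VRel_app_U j u (by omega) w) ?_ ?_ hu
    · intro c u _ ih
      rw [map_smul, LinearMap.smul_apply, vρ_smul, vρ_smul, ih, map_smul, LinearMap.smul_apply]
    · intro u v _ _ h1 h2
      simp only [map_add, LinearMap.add_apply, h1, h2]
  | @c m j hj =>
    refine vLv_ind (P := fun u => vρ k (C j) (app k u w) = app k (vρ k (C j) u) w)
      (by simp) (fun u hu => VRel_app_C j u (by omega) w) ?_ ?_ hu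
    · intro c u _ ih
      rw [map_smul, LinearMap.smul_apply, vρ_smul, vρ_smul, ih, map_smul, LinearMap.smul_apply]
    · intro u v _ _ h1 h2
      simp only [map_add, LinearMap.add_apply, h1, h2]
  | mul hy hx ihy ihx =>
    rw [map_mul, Module.End.mul_apply, Module.End.mul_apply, ihx hu]
    exact ihy ((TF k).mem hx hu)
  | add hx hy ihx ihy =>
    simp only [map_add, LinearMap.add_apply, ihx hu, ihy hu]
  | smul c hx ih =>
    rw [map_smul, LinearMap.smul_apply, LinearMap.smul_apply, ih hu, VRel_app_smul]
  | zero m n => simp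

theorem VRel_app_right (x : FA) (u : List Bool) (w : F k) :
    vρ k (shn u.length x) (app k (bas k u) w) = app k (bas k u) (vρ k x w) := by
  induction u with
  | nil => simp
  | cons b u ih =>
    rw [← cons_bas, app_cons, app_cons, List.length_cons, ← shn_shn, vρ_shn_cons, ih]

theorem vρ_app_right {m : ℕ} (x : FA) {u : F k} (hu : u ∈ vLv k m) (w : F k) :
    vρ k (shn m x) (app k u w) = app k u (vρ k x w) := by
  refine vLv_ind (P := fun u => vρ k (shn m x) (app k u w) = app k u (vρ k x w))
    (by simp) (fun u hu => by subst hu; exact VRel_app_right x u w) ?_ ?_ hu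
  · intro c u _ ih
    rw [map_smul, LinearMap.smul_apply, LinearMap.smul_apply, vρ_smul, ih]
  · intro u v _ _ h1 h2
    simp only [map_add, LinearMap.add_apply, h1, h2]


section Cmap
variable {k' : Type} [CommRing k'] [Algebra R k'] (χ : k →ₗ[R] k')

theorem cmap_smul_bas (c : k) (w : List Bool) : cmap χ (c • bas k w) = χ c • bas k' w := by
  simp [cmap, bas]

theorem cmap_cons (b : Bool) (w : F k) : cmap χ (cons k b w) = cons k' b (cmap χ w) := by
  induction w using VRel_ind with
  | h₀ => simp
  | hb c u => rw [map_smul, cons_bas, cmap_smul_bas, cmap_smul_bas, map_smul, cons_bas]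
  | ha u v hu hv => simp only [map_add, hu, hv]

theorem cmap_snoc (b : Bool) (w : F k) : cmap χ (snoc k b w) = snoc k' b (cmap χ w) := by
  induction w using VRel_ind with
  | h₀ => simp
  | hb c u => rw [map_smul, snoc_bas, cmap_smul_bas, cmap_smul_bas, map_smul, snoc_bas]
  | ha u v hu hv => simp only [map_add, hu, hv]

theorem VRel_cmap_U (l : ℕ) (w : F k) : cmap χ (vρ k (U l) w) = vρ k' (U l) (cmap χ w) := by
  induction l generalizing w with
  | zero => rw [vρ_U_zero, vρ_U_zero, map_sub, map_smul]; simp only [cmap_cons]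
  | succ l ih =>
    induction w using VRel_ind with
    | h₀ => simp
    | hb c u =>
      cases u with
      | nil =>
        rw [cmap_smul_bas, vρ_smul, vρ_smul, vρ_U_bas, vρ_U_bas]
        simp [uL]
      | cons b u =>
        rw [← cons_bas, ← map_smul, VRel_U_succ, vρ_shn_cons, cmap_cons, cmap_cons, vρ_shn_cons, ih]
    | ha u v hu hv => simp only [map_add, hu, hv]

theorem VRel_cmap_C (l : ℕ) (w : F k) : cmap χ (vρ k (C l) w) = vρ k' (C l) (cmap χ w) := by
  induction l generalizing w with
  | zero =>
    induction w using VRel_ind with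
    | h₀ => simp
    | hb c u =>
      match u with
      | [] =>
        rw [cmap_smul_bas, vρ_smul, vρ_smul, vρ_C_bas, vρ_C_bas]
        simp [cL]
      | [b] =>
        rw [cmap_smul_bas, vρ_smul, vρ_smul, vρ_C_bas, vρ_C_bas]
        cases b <;> simp [cL]
      | b :: b' :: u =>
        rw [← cons_bas, ← cons_bas, ← map_smul, ← map_smul, cmap_cons, cmap_cons, vρ_C_zero,
          vρ_C_zero]
        split_ifs
        · simp
        · rfl
        · rw [map_neg, map_smul]
    | ha u v hu hv => simp only [map_add, hu, hv]
  | succ l ih =>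
    induction w using VRel_ind with
    | h₀ => simp
    | hb c u =>
      cases u with
      | nil =>
        rw [cmap_smul_bas, vρ_smul, vρ_smul, vρ_C_bas, vρ_C_bas]
        simp [cL]
      | cons b u =>
        rw [← cons_bas, ← map_smul, VRel_C_succ, vρ_shn_cons, cmap_cons, cmap_cons, vρ_shn_cons, ih]
    | ha u v hu hv => simp only [map_add, hu, hv]

theorem cmap_vρ (x : FA) (w : F k) : cmap χ (vρ k x w) = vρ k' x (cmap χ w) := by
  induction x using FreeAlgebra.induction generalizing w with
  | grade0 r => simp
  | grade1 g =>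
    cases g with
    | u l => exact VRel_cmap_U χ l w
    | c l => exact VRel_cmap_C χ l w
  | mul x y hx hy => simp only [map_mul, Module.End.mul_apply, hx, hy]
  | add x y hx hy => simp only [map_add, LinearMap.add_apply, hx, hy]

theorem cmap_mem_vLv {m : ℕ} {w : F k} (h : w ∈ vLv k m) : cmap χ w ∈ vLv k' m := by
  rw [mem_vLv] at h ⊢
  intro u hu
  refine h u fun h0 => hu ?_
  simp [cmap, h0]

theorem cmap_cmap {k'' : Type} [CommRing k''] [Algebra R k''] (χ' : k' →ₗ[R] k'') (w : F k) :
    cmap χ' (cmap χ w) = cmap (χ' ∘ₗ χ) w := by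
  ext u
  simp [cmap]

theorem cmap_id (w : F k) : cmap (LinearMap.id : k →ₗ[R] k) w = w := by
  ext u
  simp [cmap]

/-- semilinearity -/
theorem cmap_smul {c : k} {c' : k'} (h : ∀ e, χ (c * e) = c' * χ e) (w : F k) :
    cmap χ (c • w) = c' • cmap χ w := by
  ext u
  simp [cmap, h]


end Cmap

omit [Algebra R k] in
theorem VRel_swp_cons (b : Bool) (w : F k) : swp k (cons k b w) = cons k (!b) (swp k w) := by
  induction w using VRel_ind with
  | h₀ => simp
  | hb c u => simp
  | ha u v hu hv => simp only [map_add, hu, hv]

theorem VRel_a_two (h : algebraMap R k (a 2) = -1) (w : F k) : a 2 • w = -w := by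
  rw [← algebraMap_smul k, h, neg_one_smul]

theorem VRel_a_neg_two (h : algebraMap R k (a 2) = -1) (w : F k) : a (-2) • w = -w := by
  have h1 : a 2 • a (-2) • w = w := by rw [smul_smul, a_mul_neg, one_smul]
  rw [VRel_a_two h] at h1
  exact neg_eq_iff_eq_neg.1 h1

theorem VRel_swp_U (h : algebraMap R k (a 2) = -1) (l : ℕ) (w : F k) :
    swp k (vρ k (U l) w) = vρ k (U l) (swp k w) := by
  induction l generalizing w with
  | zero =>
    rw [vρ_U_zero, vρ_U_zero, VRel_a_neg_two h, VRel_a_neg_two h, map_sub, map_neg]
    simp only [VRel_swp_cons, Bool.not_true, Bool.not_false]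
    abel
  | succ l ih =>
    induction w using VRel_ind with
    | h₀ => simp
    | hb c u =>
      cases u with
      | nil =>
        rw [map_smul (swp k), swp_bas, List.map_nil, vρ_smul, vρ_U_bas]
        simp [uL]
      | cons b u =>
        rw [← cons_bas, ← map_smul, VRel_U_succ, vρ_shn_cons, VRel_swp_cons, VRel_swp_cons,
          vρ_shn_cons, ih]
    | ha u v hu hv => simp only [map_add, hu, hv]

theorem VRel_swp_C (h : algebraMap R k (a 2) = -1) (l : ℕ) (w : F k) :
    swp k (vρ k (C l) w) = vρ k (C l) (swp k w) := by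
  induction l generalizing w with
  | zero =>
    induction w using VRel_ind with
    | h₀ => simp
    | hb c u =>
      match u with
      | [] =>
        rw [map_smul (swp k), swp_bas, List.map_nil, vρ_smul, vρ_C_bas]
        simp [cL]
      | [b] =>
        rw [map_smul (swp k), swp_bas, vρ_smul, vρ_smul, vρ_C_bas, vρ_C_bas]
        cases b <;> simp [cL]
      | b :: b' :: u =>
        rw [← cons_bas, ← cons_bas, ← map_smul, ← map_smul, VRel_swp_cons, VRel_swp_cons,
          vρ_C_zero, vρ_C_zero]
        cases b <;> cases b' <;> simp [VRel_a_two h]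
    | ha u v hu hv => simp only [map_add, hu, hv]
  | succ l ih =>
    induction w using VRel_ind with
    | h₀ => simp
    | hb c u =>
      cases u with
      | nil =>
        rw [map_smul (swp k), swp_bas, List.map_nil, vρ_smul, vρ_C_bas]
        simp [cL]
      | cons b u =>
        rw [← cons_bas, ← map_smul, VRel_C_succ, vρ_shn_cons, VRel_swp_cons, VRel_swp_cons,
          vρ_shn_cons, ih]
    | ha u v hu hv => simp only [map_add, hu, hv]

/-- at `A ^ 2 = -1` the exchange of the letters is natural -/
theorem swp_vρ (h : algebraMap R k (a 2) = -1) (x : FA) (w : F k) :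
    swp k (vρ k x w) = vρ k x (swp k w) := by
  induction x using FreeAlgebra.induction generalizing w with
  | grade0 r => simp
  | grade1 g =>
    cases g with
    | u l => exact VRel_swp_U h l w
    | c l => exact VRel_swp_C h l w
  | mul x y hx hy => simp only [map_mul, Module.End.mul_apply, hx, hy]
  | add x y hx hy => simp only [map_add, LinearMap.add_apply, hx, hy]

theorem swp_mem_vLv {m : ℕ} {w : F k} (h : w ∈ vLv k m) : swp k w ∈ vLv k m := by
  refine vLv_ind (P := fun w => swp k w ∈ vLv k m) (by simp) ?_ ?_ ?_ h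
  · intro u hu
    rw [swp_bas]
    have := bas_mem_vLv (k := k) (u.map not)
    rwa [List.length_map, hu] at this
  · intro c w _ ih
    rw [map_smul]
    exact smul_mem_vLv c ih
  · intro u v _ _ h1 h2
    rw [map_add]
    exact add_mem h1 h2


theorem smul_natl (c : k) : (TF k).Natl ((LinearMap.lsmul k (F k) c).restrictScalars R) := by
  refine ⟨fun y => ?_, fun m w hw => smul_mem_vLv c hw⟩
  refine LinearMap.ext fun w => ?_
  exact (vρ_smul y c w).symm

theorem cmap_mulLeft (c : k) (w : F k) : cmap (LinearMap.mulLeft R c) w = c • w := by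
  ext u
  simp [cmap]

theorem cmap_gmap {k' : Type} [CommRing k'] [Algebra R k'] (χ : k →ₗ[R] k') :
    GMap (TF k) (TF k') (cmap χ) :=   ⟨fun hw => cmap_mem_vLv χ hw, fun _ _ => cmap_vρ χ _ _, fun _ _ => cmap_vρ χ _ _⟩


end Pool.Agent.P.MP_b3a239_gt
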