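import Pool.Agent.P.MP_b3a239_gt.Tower
import Pool.Agent.P.MP_b3a239_gt.Span
import Pool.Agent.P.MP_b3a239_gt.VRel

/-! Words of boxes and caps span the presented module; evaluation in the vertex model. -/

set_option maxSynthPendingDepth 3

open FreeAlgebra

noncomputable section

namespace Pool.Agent.P.MP_b3a239_gt

variable (L : List (ℕ × ℕ))

/-- boxes from the top to the bottom -/
def Bx (bs : List Box) : OP L := mkO _ _ (wd (bs.map .box))

theorem Words_cons (b : Box) (bs : List Box) :
    Bx L (b :: bs) = lm _ _ (ι R (Pl.box b)) (Bx L bs) := by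
  rw [Bx, Bx, lm_mkO, List.map_cons, wd_cons]

theorem Bx_mem (bs : List Box) : Bx L bs ∈ (ΓP L).Cp (bs.map Box.legs).sum bs.length := by
  rw [ΓP_Cp]
  induction bs with
  | nil => exact one_mem_Cp
  | cons b bs ih =>
    rw [Words_cons, List.map_cons, List.sum_cons, add_comm, List.length_cons]
    exact lm_mem rfl ih

theorem Bx_cons (b : Box) (bs : List Box) : Bx L (b :: bs) = gP L bs.length b (Bx L bs) := by
  rw [gP_apply L b (Bx_mem L bs), Words_cons, bx]

theorem Words_emb (d : List ℕ) : emb (capw d) = wd (d.map Pl.c) := by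
  induction d with
  | nil => simp
  | cons i d ih => rw [capw_cons, map_mul, ih, emb_C, List.map_cons, wd_cons, cap]

theorem word_eq (b : Fin L.length → Box) (d : List ℕ) :
    word L b d = toPres _ _ L.length ((ΓP L).ρ (capw d) (Bx L (List.ofFn b).reverse)) := by
  rw [ΓP_ρ, Bx, lm_mkO, toPres_mkO, Words_emb, ← wd_append, List.map_reverse, List.map_ofFn]
  rfl

theorem Words_capw (d : List ℕ) (i : ℕ) : capw (d ++ [i]) = capw d * C i := by
  simp [capw]

/-- caps on boxes without legs give zero -/
theorem word_eq_zero (b : Fin L.length → Box) (hb : ∀ j, (b j).legs = 0) {d : List ℕ}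
    (hd : d ≠ []) : word L b d = 0 := by
  obtain ⟨d, i, rfl⟩ := (List.eq_nil_or_concat' d).resolve_left hd
  have h := Bx_mem L (List.ofFn b).reverse
  have h0 : (((List.ofFn b).reverse).map Box.legs).sum = 0 := by
    rw [List.sum_eq_zero_iff]
    intro x hx
    obtain ⟨c, hc, rfl⟩ := List.mem_map.1 hx
    obtain ⟨j, rfl⟩ := List.mem_ofFn.1 (List.mem_reverse.1 hc)
    exact hb j
  rw [h0] at h
  rw [word_eq, Words_capw, map_mul, Module.End.mul_apply, (ΓP L).C0 (by omega) h, map_zero,
    map_zero]

/-- Temperley-Lieb morphisms on top of good boxes -/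
def WordsW (good : ℕ → Box → Prop) (m j : ℕ) : Submodule R (OP L) :=
  Submodule.span R {y | ∃ (bs : List Box) (x : FA), bs.length = j ∧
    (∀ i b, bs.reverse[i]? = some b → good i b) ∧ Loc (bs.map Box.legs).sum m x ∧
    y = (ΓP L).ρ x (Bx L bs)}

/-- saturation with respect to a submonoid -/
def WordsSat {B : Type} [AddCommGroup B] [Module R B] (S : Submonoid R) (W : Submodule R B) :
    Submodule R B where
  carrier := {y | ∃ r ∈ S, r • y ∈ W}
  zero_mem' := ⟨1, S.one_mem, by simp⟩
  add_mem' := by
    rintro y z ⟨r, hr, hy⟩ ⟨r', hr', hz⟩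
    refine ⟨r * r', S.mul_mem hr hr', ?_⟩
    rw [smul_add]
    refine W.add_mem ?_ ?_
    · rw [mul_comm, mul_smul]; exact W.smul_mem _ hy
    · rw [mul_smul]; exact W.smul_mem _ hz
  smul_mem' := by
    rintro c y ⟨r, hr, hy⟩
    exact ⟨r, hr, by rw [smul_comm]; exact W.smul_mem _ hy⟩

theorem WordsW_loc (good : ℕ → Box → Prop) {m n j : ℕ} {x : FA} (hx : Loc m n x) {y : OP L}
    (hy : y ∈ WordsW L good m j) : (ΓP L).ρ x y ∈ WordsW L good n j := by
  have : WordsW L good m j ≤ (WordsW L good n j).comap ((ΓP L).ρ x) := by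
    refine Submodule.span_le.2 ?_
    rintro _ ⟨bs, x', h1, h2, h3, rfl⟩
    refine Submodule.subset_span ⟨bs, x * x', h1, h2, hx.mul h3, ?_⟩
    rw [map_mul, Module.End.mul_apply]
  exact this hy

theorem WordsW_box (good : ℕ → Box → Prop) {m j : ℕ} {b : Box} (hb : good j b) {y : OP L}
    (hy : y ∈ WordsW L good m j) : gP L j b y ∈ WordsW L good (m + b.legs) (j + 1) := by
  have : WordsW L good m j ≤ (WordsW L good (m + b.legs) (j + 1)).comap (gP L j b) := by
    refine Submodule.span_le.2 ?_
    rintro _ ⟨bs, x, rfl, h2, h3, rfl⟩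
    refine Submodule.subset_span ⟨b :: bs, shn b.legs x, rfl, fun i c hc => ?_, ?_, ?_⟩
    · rw [List.reverse_cons] at hc
      rcases lt_or_ge i bs.reverse.length with hi | hi
      · rw [List.getElem?_append_left hi] at hc
        exact h2 i c hc
      · rw [List.getElem?_append_right hi, List.getElem?_singleton] at hc
        split_ifs at hc with h0
        rw [List.length_reverse] at hi h0
        obtain rfl : i = bs.length := by omega
        obtain rfl : b = c := Option.some.inj hc
        exact hb
    · rw [List.map_cons, List.sum_cons, add_comm]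
      exact h3.shn _
    · have h4 := ((boxes_gP L bs.length).mem b).2.2 x
      rw [Bx_cons, ← Module.End.mul_apply, h4, Module.End.mul_apply]
  exact this hy

theorem WordsW_gn (good : ℕ → Box → Prop) {m j k : ℕ} {φ : Module.End R (OP L)}
    (hφ : φ ∈ ((ΓP L).hom j).Gn (fun b' : {b' // good j b'} => gP L j b'.1)
      (fun b' => b'.1.legs) k) {y : OP L} (hy : y ∈ WordsW L good m j) :
    φ y ∈ WordsW L good (m + k) (j + 1) := by
  have : ((ΓP L).hom j).Gn (fun b' : {b' // good j b'} => gP L j b'.1) (fun b' => b'.1.legs) k ≤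
      (WordsW L good (m + k) (j + 1)).comap (LinearMap.applyₗ y) := by
    refine Submodule.span_le.2 ?_
    rintro _ ⟨b, x, hx, rfl⟩
    exact WordsW_loc L good ((hx.padR m).cast (add_comm _ _) (add_comm _ _))
      (WordsW_box L good b.2 hy)
  exact this hφ

/-- If every box is, up to a factor in `S`, generated by good boxes, then so is every element. -/
theorem span_words (S : Submonoid R) (good : ℕ → Box → Prop)
    (h : ∀ j b, ∃ r ∈ S, r • gP L j b ∈ ((ΓP L).hom j).Gn (fun b' : {b' // good j b'} => gP L j b'.1)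
      (fun b' => b'.1.legs) b.legs) (x : Model L) :
    ∃ r ∈ S, r • x ∈ Submodule.span R
      {y | ∃ b d, (∀ j : Fin L.length, good j (b j)) ∧ y = word L b d} := by
  have key : ∀ t, Cp Pl.step (relP L) t ≤ WordsSat S (WordsW L good t.1 t.2) := by
    refine Cp_ind (fun t => WordsSat S (WordsW L good t.1 t.2)) ⟨1, S.one_mem, ?_⟩ ?_
    · rw [one_smul]
      refine Submodule.subset_span ⟨[], 1, rfl, by simp, Loc.one _, ?_⟩
      rw [map_one (ΓP L).ρ]
      rfl
    · rintro s ⟨m, j⟩ t' y hs hy ⟨r, hr, hw⟩
      rcases s with l | l | b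
      · simp only [Pl.step] at hs
        split_ifs at hs with hl
        obtain rfl := Option.some.inj hs
        refine ⟨r, hr, ?_⟩
        have h1 := WordsW_loc L good (Loc.u hl) hw
        rwa [map_smul, ΓP_U] at h1
      · simp only [Pl.step] at hs
        split_ifs at hs with hl
        obtain rfl := Option.some.inj hs
        refine ⟨r, hr, ?_⟩
        have h1 := WordsW_loc L good
          ((Loc.c (m := m - 2) (j := l) (by omega)).cast (by omega : m - 2 + 2 = m) rfl) hw
        rwa [map_smul, ΓP_C] at h1
      · obtain rfl := Option.some.inj hs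
        obtain ⟨r', hr', h1⟩ := h j b
        refine ⟨r' * r, S.mul_mem hr' hr, ?_⟩
        have h2 := WordsW_gn L good h1 hw
        rw [← ΓP_Cp] at hy
        rwa [LinearMap.smul_apply, map_smul, smul_smul, gP_apply L b hy] at h2
  obtain ⟨y, hy, rfl⟩ := toPres_surj L.length x
  obtain ⟨r, hr, hw⟩ := key _ hy
  refine ⟨r, hr, ?_⟩
  have : WordsW L good 0 L.length ≤ (Submodule.span R
      {y | ∃ b d, (∀ j : Fin L.length, good j (b j)) ∧ y = word L b d}).comap
        (toPres Pl.step (relP L) L.length) := by
    refine Submodule.span_le.2 ?_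
    rintro _ ⟨bs, x, h1, h2, h3, rfl⟩
    have h4 := ((ΓP L).tm bs.length).loc_zero_mem h3 (Bx_mem L bs)
    refine Submodule.span_le.2 ?_ h4
    rintro _ ⟨d, rfl, -⟩
    have hl : ∀ j : Fin L.length, j.1 < bs.reverse.length := fun j => by
      rw [List.length_reverse, h1]; exact j.2
    have h5 : (List.ofFn fun j : Fin L.length => bs.reverse[j.1]'(hl j)) = bs.reverse :=
      List.ext_getElem (by rw [List.length_ofFn, List.length_reverse, h1]) fun i _ _ => by
        rw [List.getElem_ofFn]
    refine Submodule.subset_span ⟨fun j => bs.reverse[j.1]'(hl j), d,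
      fun j => h2 j _ (List.getElem?_eq_getElem (hl j)), ?_⟩
    rw [word_eq, h5, List.reverse_reverse]
    rfl
  have h6 := this hw
  rwa [Submodule.mem_comap, map_smul] at h6

theorem Words_append (hi lo : List Box) :
    Bx L (hi ++ lo) = lm _ _ (wd (hi.map Pl.box)) (Bx L lo) := by
  rw [Bx, Bx, lm_mkO, List.map_append, wd_append]

/-- a linear relation between boxes of one summand holds in every word -/
theorem word_update (b : Fin L.length → Box) (d : List ℕ) (j : Fin L.length) {I : Type}
    (s : Finset I) (c : I → R) (b' : I → Box) (h : ∑ i ∈ s, c i • gP L j (b' i) = 0) :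
    ∑ i ∈ s, c i • word L (Function.update b j (b' i)) d = 0 := by
  have h1 : ∀ x, List.ofFn (Function.update b j x) = (List.ofFn b).set j x := fun x =>
    List.ext_getElem (by simp) fun i _ _ => by
      rw [List.getElem_ofFn, List.getElem_set, List.getElem_ofFn, Function.update_apply]
      simp only [Fin.ext_iff, eq_comm]
  have hj : j.1 < (List.ofFn b).length := by simp
  have h2 : ((List.ofFn b).take j).reverse.length = j := by
    rw [List.length_reverse, List.length_take, min_eq_left hj.le]
  have h3 : ∀ x, word L (Function.update b j x) d = toPres _ _ L.length ((ΓP L).ρ (capw d)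
      (lm _ _ (wd (((List.ofFn b).drop (j + 1)).reverse.map Pl.box))
        (gP L j x (Bx L ((List.ofFn b).take j).reverse)))) := fun x => by
    rw [word_eq, h1, List.set_eq_take_append_cons_drop, if_pos hj, List.reverse_append,
      List.reverse_cons, List.append_assoc, Words_append, List.singleton_append, Bx_cons, h2]
  have h4 := LinearMap.congr_fun h (Bx L ((List.ofFn b).take j).reverse)
  simp only [LinearMap.sum_apply, LinearMap.zero_apply, LinearMap.smul_apply] at h4
  simp only [h3, ← map_smul (toPres _ _ _), ← map_sum (toPres _ _ _), ← map_smul ((ΓP L).ρ _),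
    ← map_sum ((ΓP L).ρ _), ← map_smul (lm _ _ _), ← map_sum (lm _ _ _)]
  rw [h4, map_zero, map_zero, map_zero]

theorem TM.boxes_zero {B : Type} [AddCommGroup B] [Module R B] (T : TM B) (p q : ℕ) :
    T.Boxes p q fun _ => 0 := by
  refine ⟨fun _ => zero_mem _, fun x hx => ?_⟩
  obtain ⟨m, hm⟩ := hx.rep
  exact ((GMap.zero T T).ev (g := fun _ => 0) (fun _ => zero_mem _) hm).symm

section Eval
variable {k : Type} [CommRing k] [Algebra R k] (g : ℕ → Box → F k)

/-- the operators of the slices in the vertex model -/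
def WordsOp (j : ℕ) : Pl → Module.End R (F k)
  | .u l => vρ k (U l)
  | .c l => vρ k (C l)
  | .box b => (app k (g j b)).restrictScalars R

theorem WordsOp_emb (j : ℕ) (y : FA) : lift R (WordsOp g j) (emb y) = vρ k y := by
  have : (lift R (WordsOp g j)).comp emb = vρ k := by
    refine FreeAlgebra.hom_ext (funext fun s => ?_)
    rcases s with l | l
    · exact (congrArg (lift R (WordsOp g j)) (emb_U l)).trans (lift_ι_apply _ _)
    · exact (congrArg (lift R (WordsOp g j)) (emb_C l)).trans (lift_ι_apply _ _)
  exact AlgHom.congr_fun this y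

theorem WordsOp_cup (j l : ℕ) : lift R (WordsOp g j) (cup l) = vρ k (U l) := lift_ι_apply _ _

theorem WordsOp_cap (j l : ℕ) : lift R (WordsOp g j) (cap l) = vρ k (C l) := lift_ι_apply _ _

theorem WordsOp_box (j : ℕ) (b : Box) (w : F k) :
    lift R (WordsOp g j) (ι R (Pl.box b)) w = app k (g j b) w := by
  rw [lift_ι_apply]
  rfl

theorem WordsOp_rep (j : ℕ) (hg : ∀ b, g j b ∈ vLv k b.legs) {m : ℕ} {x : PA} (hx : x ∈ Rep m)
    (w : F k) : lift R (WordsOp g j) x w = app k (ev (vρ k) (g j) x) w := by
  induction hx using Submodule.span_induction with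
  | mem x hx =>
    obtain ⟨y, b, hy, rfl⟩ := hx
    rw [map_mul, Module.End.mul_apply, WordsOp_emb, ev_emb_mul, ev_bx, bx, WordsOp_box,
      vρ_app_left hy (hg b)]
  | zero => simp
  | add x y _ _ hx hy => simp only [map_add, LinearMap.add_apply, hx, hy]
  | smul c x _ hx =>
    rw [map_smul, map_smul, LinearMap.smul_apply, hx, LinearMap.map_smul_of_tower,
      LinearMap.smul_apply]

theorem WordsOp_planar (j : ℕ) (hg : ∀ b, g j b ∈ vLv k b.legs) {m : ℕ} {x : PA}
    (hx : PlanarRel m x) {w : F k} (hw : w ∈ vLv k m) : lift R (WordsOp g j) x w = 0 := by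
  cases hx with
  | uu i l h => simp only [map_sub, map_mul, WordsOp_cup, vρ_wk.uu i l h, sub_self,
      LinearMap.zero_apply]
  | cc i l h => simp only [map_sub, map_mul, WordsOp_cap, vρ_wk.cc i l h, sub_self,
      LinearMap.zero_apply]
  | cu i l h => simp only [map_sub, map_mul, WordsOp_cup, WordsOp_cap, vρ_wk.cu i l h, sub_self,
      LinearMap.zero_apply]
  | uc i l h => simp only [map_sub, map_mul, WordsOp_cup, WordsOp_cap, vρ_wk.uc i l h, sub_self,
      LinearMap.zero_apply]
  | loop i h =>
    simp only [map_add, map_mul, map_smul, map_one, WordsOp_cup, WordsOp_cap, LinearMap.add_apply,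
      Module.End.mul_apply, LinearMap.smul_apply, Module.End.one_apply, vρ_loop h hw, dd, neg_smul,
      neg_add_cancel]
  | zig i h =>
    simp only [map_sub, map_mul, map_one, WordsOp_cup, WordsOp_cap, LinearMap.sub_apply,
      Module.End.mul_apply, Module.End.one_apply, vρ_zig h hw, sub_self]
  | zag i h =>
    simp only [map_sub, map_mul, map_one, WordsOp_cup, WordsOp_cap, LinearMap.sub_apply,
      Module.End.mul_apply, Module.End.one_apply, vρ_zag h hw, sub_self]
  | bu b i =>
    simp only [map_sub, map_mul, WordsOp_cup, LinearMap.sub_apply, Module.End.mul_apply,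
      WordsOp_box, ← vρ_app_right (U i) (hg b), shn_U, sub_self]
  | bc b i =>
    simp only [map_sub, map_mul, WordsOp_cap, LinearMap.sub_apply, Module.End.mul_apply,
      WordsOp_box, ← vρ_app_right (C i) (hg b), shn_C, sub_self]

end Eval

theorem Words_capw_mem {m j : ℕ} {w : OP L} (hw : w ∈ (ΓP L).Cp m j) (d : List ℕ) :
    ∃ n, (ΓP L).ρ (capw d) w ∈ (ΓP L).Cp n j := by
  induction d with
  | nil => exact ⟨m, by simpa using hw⟩
  | cons i d ih =>
    obtain ⟨n, hn⟩ := ih
    rw [capw_cons, map_mul, Module.End.mul_apply]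
    rcases lt_or_ge n (i + 2) with h | h
    · exact ⟨0, by rw [(ΓP L).C0 h hn]; exact zero_mem _⟩
    · obtain ⟨n, rfl⟩ : ∃ n', n = n' + 2 := ⟨n - 2, by omega⟩
      exact ⟨n, (ΓP L).memC (by omega) hn⟩

theorem model_eval {k : Type} [CommRing k] [Algebra R k] (g : ℕ → Box → F k)
    (hg : ∀ j, (TF k).Boxes (par L j).1 (par L j).2 (g j)) : ∃ Φ : Model L →ₗ[R] k, ∀ b d,
      Φ (word L b d) = vρ k (capw d) (cat (List.ofFn fun j : Fin L.length => g j (b j)).reverse) [] := by
  obtain ⟨φ, h1, h2, h3⟩ := open_lift (cupCap_P L).marked (WordsOp g) (fun t => vLv k t.1)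
    (bas k []) (bas_mem_vLv [])
    (by
      rintro j (l | l | b) hs
      · rfl
      · rfl
      · exact absurd hs (by simp [Pl.mk]))
    (by
      rintro (l | l | b) ⟨m, j⟩ t' hs w hw
      · simp only [Pl.step] at hs
        split_ifs at hs with hl
        obtain rfl := Option.some.inj hs
        exact vρ_memU hw
      · simp only [Pl.step] at hs
        split_ifs at hs with hl
        obtain rfl := Option.some.inj hs
        refine vρ_memC (m := m - 2) ?_
        rwa [show m - 2 + 2 = m by omega]
      · obtain rfl := Option.some.inj hs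
        exact app_mem_vLv ((hg j).mem b) hw)
    (by
      rintro (l | l | b) ⟨m, j⟩ hs w hw
      · simp only [Pl.step] at hs
        split_ifs at hs with hl
        exact TF_strict.U0 (not_le.1 hl) hw
      · simp only [Pl.step] at hs
        split_ifs at hs with hl
        exact TF_strict.C0 (not_le.1 hl) hw
      · exact absurd hs (by simp [Pl.step]))
    (by
      rintro m j x (hx | hx) w hw
      · exact WordsOp_planar g j (hg j).mem hx hw
      · obtain ⟨n, hn⟩ := hx.rep
        have h0 : ev (vρ k) (g j) x = 0 := (hg j).rel x hx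
        rw [WordsOp_rep g j (hg j).mem hn, h0, map_zero, LinearMap.zero_apply])
  obtain ⟨Φ, hΦ⟩ := pres_lift (cupCap_P L).marked L.length (Finsupp.lapply [] ∘ₗ φ) (by
    intro m hm y hy
    by_contra h0
    exact hm (mem_vLv.1 (h2 _ y hy) [] h0).symm)
  have hB : ∀ (n : ℕ) (b : Fin n → Box), φ (Bx L (List.ofFn b).reverse) =
      cat (List.ofFn fun j : Fin n => g j (b j)).reverse := by
    intro n
    induction n with
    | zero => intro b; exact h1
    | succ n ih =>
      intro b
      have hm := Bx_mem L (List.ofFn fun i : Fin n => b i.castSucc).reverse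
      rw [ΓP_Cp] at hm
      rw [List.ofFn_succ_last, List.ofFn_succ_last, List.reverse_append, List.reverse_append,
        List.reverse_singleton, List.reverse_singleton, List.singleton_append,
        List.singleton_append, Words_cons, h3 _ _ _ hm, ih, List.length_reverse, List.length_ofFn]
      rfl
  have hC : ∀ {m j : ℕ} {w : OP L}, w ∈ (ΓP L).Cp m j → ∀ d,
      φ ((ΓP L).ρ (capw d) w) = vρ k (capw d) (φ w) := by
    intro m j w hw d
    induction d with
    | nil => simp
    | cons i d ih =>
      obtain ⟨n, hn⟩ := Words_capw_mem L hw d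
      rw [ΓP_Cp] at hn
      rw [capw_cons, map_mul, map_mul, Module.End.mul_apply, Module.End.mul_apply, ← ih, ΓP_C, cap,
        h3 _ _ _ hn]
      rfl
  refine ⟨Φ, fun b d => ?_⟩
  have hm := Bx_mem L (List.ofFn b).reverse
  obtain ⟨n, hn⟩ := Words_capw_mem L hm d
  rw [List.length_reverse, List.length_ofFn, ΓP_Cp] at hn
  rw [word_eq, hΦ n _ hn, LinearMap.comp_apply, hC hm, hB]
  rfl

end Pool.Agent.P.MP_b3a239_gt
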