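import Pool.Agent.P.MP_b3a239_gt.Phi
import Pool.Agent.P.MP_b3a239_gt.Normal
import Pool.Agent.P.MP_b3a239_gt.Words

/-! Generation, torsion and rank of the presented module. -/

set_option maxSynthPendingDepth 3

noncomputable section

namespace Pool.Agent.P.MP_b3a239_gt

variable {L : List (ℕ × ℕ)}

/-- the words of boxes `t (r j)` -/
def tw (L : List (ℕ × ℕ)) (r : Idx L) : Model L := word L (fun j => .t (r j)) []

theorem span_normal (hL : ∀ x ∈ L, 2 ≤ x.1 ∧ x.1.Coprime x.2) :
    Submodule.span R {x | ∃ b d, (∀ j, (b j).Normal (par L j).1) ∧ x = word L b d} = ⊤ := by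
  refine eq_top_iff.2 fun x _ => ?_
  obtain ⟨r, hr, h⟩ := span_words L ⊥ (fun j b => b.Normal (par L j).1) (fun j b =>
    ⟨1, one_mem _, by
      rw [one_smul]
      exact (boxes_gP L j).normal (par_adm hL j).1 b⟩) x
  rwa [Submonoid.mem_bot.1 hr, one_smul] at h

theorem exists_smul_mem_tw (hL : ∀ x ∈ L, 2 ≤ x.1 ∧ x.1.Coprime x.2) (x : Model L) :
    ∃ r ∈ Submonoid.closure (Set.range f), r • x ∈ Submodule.span R (Set.range (tw L)) := by
  obtain ⟨r, hr, h⟩ := span_words L (Submonoid.closure (Set.range f))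
    (fun j b => ∃ s : Fin ((par L j).1 / 2 + 1), b = .t s)
    (fun j b => (boxes_gP L j).tors (par_adm hL j).1 (par_adm hL j).2 b) x
  refine ⟨r, hr, Submodule.span_le.2 ?_ h⟩
  rintro _ ⟨b, d, hb, rfl⟩
  choose s hs using hb
  obtain rfl : b = fun j => .t (s j) := funext hs
  by_cases hd : d = []
  · subst hd
    exact Submodule.subset_span ⟨s, rfl⟩
  · rw [word_eq_zero L _ (fun j => rfl) hd]
    exact Submodule.zero_mem _

theorem ne_zero_of_mem_closure {r : R} (h : r ∈ Submonoid.closure (Set.range f)) : r ≠ 0 := by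
  induction h using Submonoid.closure_induction with
  | mem x hx =>
    obtain ⟨k, rfl⟩ := hx
    exact f_ne_zero k
  | one => exact one_ne_zero
  | mul x y _ _ hx hy => exact mul_ne_zero hx hy

theorem rank_cat {k : Type} [CommRing k] (l : List k) :
    cat (l.map fun c => c • bas k []) = l.prod • bas k [] := by
  induction l with
  | nil => simp [cat]
  | cons c l ih =>
    have e : cat ((c :: l).map fun c => c • bas k []) =
        app k (c • bas k []) (cat (l.map fun c => c • bas k [])) := rfl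
    rw [e, ih, map_smul, app_nil_right, List.prod_cons, smul_smul, mul_comm]

theorem rank_phi (hL : ∀ x ∈ L, 2 ≤ x.1 ∧ x.1.Coprime x.2) :
    ∃ φ : Model L →ₗ[R] (Idx L → FractionRing R),
      ∀ n : Fin L.length → ℤ, φ (word L (fun j => .t (n j)) []) =
        fun r => algebraMap R _ (∏ j : Fin L.length, chi (par L j).1 (par L j).2 (r j) (n j)) := by
  have key : ∀ r : Idx L, ∃ Φ : Model L →ₗ[R] KK, ∀ n : Fin L.length → ℤ,
      Φ (word L (fun j => .t (n j)) []) =
        algebraMap R KK (∏ j : Fin L.length, chi (par L j).1 (par L j).2 (r j) (n j)) := by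
    intro r
    choose g hg hgt using fun j : ℕ => boxes_chi (par_adm hL j).1 (par_adm hL j).2
      (if h : j < L.length then (r ⟨j, h⟩ : ℤ) else 0)
    obtain ⟨Φ, hΦ⟩ := model_eval L g hg
    refine ⟨Φ, fun n => ?_⟩
    have e : (List.ofFn fun j : Fin L.length => g j (.t (n j))).reverse =
        (List.ofFn fun j : Fin L.length =>
          algebraMap R KK (chi (par L j).1 (par L j).2 (r j) (n j))).reverse.map
            fun c => c • bas KK [] := by
      rw [List.map_reverse, List.map_ofFn]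
      congr 2
      funext j
      rw [hgt, dif_pos j.2]
      rfl
    have e1 : capw [] = 1 := rfl
    rw [hΦ, e, rank_cat, e1, map_one, Module.End.one_apply, List.prod_reverse, List.prod_ofFn,
      map_prod, Finsupp.smul_apply, bas, Finsupp.single_eq_same, smul_eq_mul, mul_one]
  choose Φ hΦ using key
  exact ⟨LinearMap.pi Φ, fun n => funext fun r => hΦ r n⟩

theorem rank_coeff (hL : ∀ x ∈ L, 2 ≤ x.1 ∧ x.1.Coprime x.2)
    {φ : Model L →ₗ[R] (Idx L → FractionRing R)}
    (hφ : ∀ n : Fin L.length → ℤ, φ (word L (fun j => .t (n j)) []) =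
      fun r => algebraMap R _ (∏ j : Fin L.length, chi (par L j).1 (par L j).2 (r j) (n j)))
    {c : Idx L → R} (h : φ (∑ s, c s • tw L s) = 0) (r : Idx L) : c r = 0 := by
  have e : ∀ s : Idx L, φ (tw L s) r = if r = s then 1 else 0 := fun s => by
    rw [tw, hφ]
    simp only [chi_diag _ (par_adm hL _).1, Finset.prod_boole, Finset.mem_univ, forall_const]
    by_cases hrs : r = s
    · rw [if_pos hrs, if_pos fun j => congrFun hrs j, map_one]
    · rw [if_neg hrs, if_neg fun h' => hrs (funext h'), map_zero]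
  have h1 := congrFun h r
  simp only [map_sum, map_smul, Finset.sum_apply, Pi.smul_apply, e, smul_ite, smul_zero,
    Finset.sum_ite_eq, Finset.mem_univ, if_true, Pi.zero_apply] at h1
  rw [← Algebra.algebraMap_eq_smul_one] at h1
  exact (IsFractionRing.injective R (FractionRing R)) (h1.trans (map_zero _).symm)

theorem rank_kill (hL : ∀ x ∈ L, 2 ≤ x.1 ∧ x.1.Coprime x.2)
    {φ : Model L →ₗ[R] (Idx L → FractionRing R)}
    (hφ : ∀ n : Fin L.length → ℤ, φ (word L (fun j => .t (n j)) []) =
      fun r => algebraMap R _ (∏ j : Fin L.length, chi (par L j).1 (par L j).2 (r j) (n j)))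
    {x : Model L} (hx : φ x = 0) : ∃ r ∈ Submonoid.closure (Set.range f), r • x = 0 := by
  obtain ⟨r, hr, h⟩ := exists_smul_mem_tw hL x
  obtain ⟨c, hc⟩ := (Submodule.mem_span_range_iff_exists_fun R).1 h
  refine ⟨r, hr, ?_⟩
  have h0 := rank_coeff hL hφ (c := c) (by rw [hc, map_smul, hx, smul_zero])
  rw [← hc]
  exact Finset.sum_eq_zero fun s _ => by rw [h0, zero_smul]

theorem rank_tors {φ : Model L →ₗ[R] (Idx L → FractionRing R)} {x : Model L}
    (hx : x ∈ Submodule.torsion R (Model L)) : φ x = 0 := by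
  obtain ⟨r, hr⟩ := hx
  have h := congrArg φ hr
  rw [Submonoid.smul_def, map_smul, map_zero] at h
  funext s
  have h1 := congrFun h s
  rw [Pi.smul_apply, Algebra.smul_def, Pi.zero_apply] at h1
  exact (mul_eq_zero.1 h1).resolve_left fun h2 => nonZeroDivisors.ne_zero r.2
    (IsFractionRing.injective R (FractionRing R) (h2.trans (map_zero _).symm))

theorem exists_phi (hL : ∀ x ∈ L, 2 ≤ x.1 ∧ x.1.Coprime x.2) :
    ∃ φ : Model L →ₗ[R] (Idx L → FractionRing R),
      (∀ n : Fin L.length → ℤ, φ (word L (fun j => .t (n j)) []) =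
        fun r => algebraMap R _ (∏ j : Fin L.length, chi (par L j).1 (par L j).2 (r j) (n j))) ∧
      LinearMap.ker φ = Submodule.torsion R (Model L) := by
  obtain ⟨φ, hφ⟩ := rank_phi hL
  refine ⟨φ, hφ, le_antisymm (fun x hx => ?_) fun x hx => rank_tors hx⟩
  obtain ⟨r, hr, h⟩ := rank_kill hL hφ hx
  exact ⟨⟨r, mem_nonZeroDivisors_of_ne_zero (ne_zero_of_mem_closure hr)⟩, h⟩

theorem torsion_killed (hL : ∀ x ∈ L, 2 ≤ x.1 ∧ x.1.Coprime x.2) {x : Model L}
    (hx : x ∈ Submodule.torsion R (Model L)) :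
    ∃ r ∈ Submonoid.closure (Set.range f), r • x = 0 := by
  obtain ⟨φ, hφ⟩ := rank_phi hL
  exact rank_kill hL hφ (rank_tors hx)

theorem rank_model (hL : ∀ x ∈ L, 2 ≤ x.1 ∧ x.1.Coprime x.2) :
    Module.rank R (Model L) = ((L.map fun x => x.1 / 2 + 1).prod : ℕ) := by
  obtain ⟨φ, hφ⟩ := rank_phi hL
  have hli : LinearIndependent R (tw L) :=
    Fintype.linearIndependent_iff.2 fun c hc => rank_coeff hL hφ (by rw [hc, map_zero])
  have h0 : Module.rank R (Model L ⧸ Submodule.span R (Set.range (tw L))) = 0 := by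
    refine rank_eq_zero_iff.2 fun y => ?_
    obtain ⟨x, rfl⟩ := Submodule.Quotient.mk_surjective _ y
    obtain ⟨r, hr, h⟩ := exists_smul_mem_tw hL x
    refine ⟨r, ne_zero_of_mem_closure hr, ?_⟩
    rw [← Submodule.Quotient.mk_smul]
    exact (Submodule.Quotient.mk_eq_zero _).2 h
  rw [← rank_quotient_add_rank_of_isDomain (Submodule.span R (Set.range (tw L))), h0, zero_add,
    rank_span hli, Cardinal.mk_range_eq _ hli.injective, Cardinal.mk_fintype, Fintype.card_pi,
    ← Fin.prod_univ_fun_getElem]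
  congr 1
  refine Finset.prod_congr rfl fun j _ => ?_
  rw [Fintype.card_fin, par, List.getD_eq_getElem _ _ j.2]

end Pool.Agent.P.MP_b3a239_gt
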