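import Pool.Agent.P.MP_b3a239_gt.NTVec
import Pool.Agent.P.MP_b3a239_gt.NTAlg
import Pool.Agent.P.MP_b3a239_gt.Rank

/-! The torsion is not finitely generated. -/

set_option maxSynthPendingDepth 3

noncomputable section

namespace Pool.Agent.P.MP_b3a239_gt

variable {L : List (ℕ × ℕ)}

private theorem par_ok (hL : ∀ x ∈ L, 2 ≤ x.1 ∧ x.1.Coprime x.2) (j : ℕ) :
    2 ≤ (par L j).1 ∧ (par L j).1.Coprime (par L j).2 := by
  unfold par
  rcases lt_or_ge j L.length with h | h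
  · rw [List.getD_eq_getElem _ _ h]
    exact hL _ (List.getElem_mem h)
  · rw [List.getD_eq_default _ _ h]
    exact ⟨le_rfl, by decide⟩

private theorem a_two_Ci : algebraMap R Ci (a 2) = -1 := by
  have h : evC iU (a 2) = -1 := by
    rw [evC_a, zpow_ofNat]
    exact Complex.I_sq
  exact h

private theorem cat_scalars (l : List (F Ci)) (h : ∀ u ∈ l, ∃ e : Ci, e ≠ 0 ∧ u = e • bas Ci [])
    (l' : List (F Ci)) : ∃ e : Ci, e ≠ 0 ∧ cat (l ++ l') = e • cat l' := by
  induction l with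
  | nil => exact ⟨1, one_ne_zero, by rw [List.nil_append, one_smul]⟩
  | cons u l ih =>
    obtain ⟨e, he, h1⟩ := ih fun v hv => h v (List.mem_cons_of_mem _ hv)
    obtain ⟨e', he', rfl⟩ := h u List.mem_cons_self
    refine ⟨e' * e, mul_ne_zero he' he, ?_⟩
    change app Ci (e' • bas Ci []) (cat (l ++ l')) = _
    rw [h1, map_smul (app Ci), LinearMap.smul_apply, app_nil_left, smul_smul]

private theorem pow_gmap (z : Module.End Ci (F Ci)) (h1 : ∀ x w, z (vρ Ci x w) = vρ Ci x (z w))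
    (h2 : ∀ m w, w ∈ vLv Ci m → z w ∈ vLv Ci m) (n : ℕ) :
    GMap (TF Ci) (TF Ci) ((z ^ n).restrictScalars R) := by
  have h3 : ∀ x w, (z ^ n) (vρ Ci x w) = vρ Ci x ((z ^ n) w) := by
    intro x
    induction n with
    | zero => exact fun _ => rfl
    | succ n ih =>
      intro w
      rw [pow_succ', Module.End.mul_apply, Module.End.mul_apply, ih, h1]
  have h4 : ∀ m w, w ∈ vLv Ci m → (z ^ n) w ∈ vLv Ci m := by
    intro m w hw
    clear h3
    induction n with
    | zero => exact hw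
    | succ n ih =>
      rw [pow_succ', Module.End.mul_apply]
      exact h2 _ _ ih
  exact ⟨fun hw => h4 _ _ hw, fun _ _ => h3 _ _, fun _ _ => h3 _ _⟩

/-- the operator applied to the boxes of the `j`-th summand -/
private def opNT (K : ℕ) : ℕ → Module.End Ci (F Ci)
  | 0 => FF Ci ^ (2 * K)
  | 1 => EE Ci ^ (2 * K)
  | _ + 2 => 1

private theorem opNT_gmap (K j : ℕ) : GMap (TF Ci) (TF Ci) ((opNT K j).restrictScalars R) := by
  rcases j with _ | _ | j
  · exact pow_gmap _ FF_vρ (fun _ _ => FF_mem) _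
  · exact pow_gmap _ EE_vρ (fun _ _ => EE_mem) _
  · exact GMap.id _

theorem exists_functionals (hL : ∀ x ∈ L, 2 ≤ x.1 ∧ x.1.Coprime x.2) (hn : 2 ≤ L.length) :
    ∃ (Ψ : ℕ → Model L →ₗ[R] Ci) (x : ℕ → Model L),
      (∀ K, Ψ K (x K) ≠ 0) ∧ ∀ K k, k < K → Ψ K (x k) = 0 := by
  choose Θ n₀ c c' h1 h2 h3 h4 h5 h6 using fun j =>
    exists_boxes_Ci (par_ok hL j).1 (par_ok hL j).2
  have hb : ∀ K j, (TF Ci).Boxes (par L j).1 (par L j).2
      fun b => ((opNT K j).restrictScalars R ∘ₗ Θ j) (vec b) := fun K j =>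
    boxes_of_kill (par_ok hL j).1 (par_ok hL j).2 ((opNT_gmap K j).comp (h1 j))
      (fun w => by rw [LinearMap.comp_apply, h2, map_zero])
      (fun w => by rw [LinearMap.comp_apply, h3, map_neg, LinearMap.comp_apply])
      (fun l => by rw [LinearMap.comp_apply, h4, map_zero])
  choose Ψ hΨ using fun K => model_eval L _ (hb K)
  obtain ⟨x, y, L', rfl⟩ : ∃ x y L', L = x :: y :: L' := by
    rcases L with _ | ⟨x, _ | ⟨y, L'⟩⟩
    · simp at hn
    · simp at hn
    · exact ⟨x, y, L', rfl⟩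
  have key : ∀ K k, ∃ e : Ci, e ≠ 0 ∧
      Ψ K (word _ (fun j => .G (if j.1 < 2 then 2 * k else 0) (n₀ j)) (List.range (4 * k))) =
        e * vρ Ci (capC (4 * k)) (app Ci ((EE Ci ^ (2 * K)) (Θ 1 (vec (.G (2 * k) (n₀ 1)))))
          ((FF Ci ^ (2 * K)) (Θ 0 (vec (.G (2 * k) (n₀ 0)))))) [] := by
    intro K k
    obtain ⟨e, he, h⟩ := cat_scalars
      (List.ofFn fun j : Fin L'.length => Θ (j + 1 + 1) (vec (.G 0 (n₀ (j + 1 + 1))))).reverse
      (fun u hu => by
        obtain ⟨j, rfl⟩ := (List.mem_ofFn' _ _).1 (List.mem_reverse.1 hu)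
        refine ⟨_, h6 (j + 1 + 1) 0, ?_⟩
        beta_reduce
        rw [h5, add_smul]
        simp [eta, etaW])
      [(EE Ci ^ (2 * K)) (Θ 1 (vec (.G (2 * k) (n₀ 1)))),
        (FF Ci ^ (2 * K)) (Θ 0 (vec (.G (2 * k) (n₀ 0))))]
    refine ⟨e, he, ?_⟩
    rw [hΨ, ← capC_eq, ← smul_eq_mul e, ← Finsupp.smul_apply, ← vρ_smul]
    congr 2
    refine Eq.trans ?_ (h.trans ?_)
    · congr 1
      simp only [List.length_cons, List.ofFn_succ, List.reverse_cons, List.append_assoc]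
      rfl
    · simp [cat]
  refine ⟨Ψ, fun k => word _ (fun j => .G (if j.1 < 2 then 2 * k else 0) (n₀ j))
    (List.range (4 * k)), fun K => ?_, fun K k hk => ?_⟩
  · obtain ⟨e, he, h⟩ := key K K
    have hs : ((-1) ^ K * (2 * K).factorial : Ci) ≠ 0 :=
      mul_ne_zero (pow_ne_zero _ (neg_ne_zero.2 one_ne_zero))
        (Nat.cast_ne_zero.2 (Nat.factorial_ne_zero _))
    rw [h, h5, h5, map_add (EE Ci ^ (2 * K)), map_add (FF Ci ^ (2 * K)), map_smul, map_smul,
      map_smul, map_smul, (EE_pow_even a_two_Ci K).1, (EE_pow_even a_two_Ci K).2,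
      (FF_pow_even a_two_Ci K).1, (FF_pow_even a_two_Ci K).2, ← add_smul, ← add_smul, smul_smul,
      smul_smul, map_smul, map_smul (app Ci), LinearMap.smul_apply, app_bas, vρ_smul, vρ_smul,
      capC_replicate, Finsupp.smul_apply, Finsupp.smul_apply, bas, Finsupp.single_eq_same,
      smul_eq_mul, smul_eq_mul, mul_one]
    exact mul_ne_zero he (mul_ne_zero (mul_ne_zero (h6 0 K) hs) (mul_ne_zero (h6 1 K) hs))
  · obtain ⟨e, he, h⟩ := key K k
    have h7 : (FF Ci ^ (2 * K)) (Θ 0 (vec (.G (2 * k) (n₀ 0)))) = 0 := by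
      rw [h5, map_add, map_smul, map_smul, eta, swp_bas, FF_pow_eq_zero, FF_pow_eq_zero,
        smul_zero, smul_zero, add_zero]
      · simp [etaW, List.count_replicate]
        omega
      · simp [etaW, List.count_replicate]
        omega
    rw [h, h7, map_zero, map_zero, Finsupp.zero_apply, mul_zero]

theorem torsion_not_finite (hL : ∀ x ∈ L, 2 ≤ x.1 ∧ x.1.Coprime x.2) (hn : 2 ≤ L.length) :
    ¬ Module.Finite R (Submodule.torsion R (Model L)) := by
  obtain ⟨Ψ, x, h₁, h₀⟩ := exists_functionals hL hn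
  refine not_finite_torsion (tw L) (fun y => ?_) Ψ x h₁ h₀
  obtain ⟨r, hr, h⟩ := exists_smul_mem_tw hL y
  exact ⟨r, ne_zero_of_mem_closure hr, h⟩

end Pool.Agent.P.MP_b3a239_gt
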