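import Pool.Agent.P.MP_b3a239_gt.Roots2

/-! No integral functional for opposite orientations. -/

set_option maxSynthPendingDepth 3

noncomputable section

namespace Pool.Agent.P.MP_b3a239_gt

/-- the substitution `A ↦ A ^ 3` -/
private def sub3 : R →+* R :=
  LaurentPolynomial.eval₂ (Int.castRingHom R) (isUnit_a 3).unit

private theorem sub3_a (n : ℤ) : sub3 (a n) = a (3 * n) := by
  have h : ∀ m : ℤ, (((isUnit_a 3).unit ^ m : Rˣ) : R) = a (3 * m) := by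
    intro m
    induction m using Int.induction_on with
    | zero => simp
    | succ i ih =>
      rw [zpow_add_one, Units.val_mul, ih, IsUnit.unit_spec, ← a_add]; congr 1
    | pred i ih =>
      have h2 : (((isUnit_a 3).unit⁻¹ : Rˣ) : R) = a (-3) := by
        apply Units.inv_eq_of_mul_eq_one_right
        rw [IsUnit.unit_spec]; exact a_mul_neg 3
      rw [zpow_sub_one, Units.val_mul, ih, h2, ← a_add]; congr 1; ring
  rw [← h n]
  simp [sub3, a]

private theorem evC_sub3 (B : ℂˣ) (r : R) : evC B (sub3 r) = evC (B ^ 3) r := by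
  induction r using LaurentPolynomial.induction_on' with
  | add p q hp hq => simp [map_add, hp, hq]
  | C_mul_T n z =>
    have e : (LaurentPolynomial.C z * LaurentPolynomial.T n : R) = (z : R) * a n := by
      simp [a]
    rw [e, map_mul, map_mul, map_mul, sub3_a, evC_a, evC_a, map_intCast, map_intCast, map_intCast,
      zpow_mul]
    simp

private theorem evC_f {ζ : ℂˣ} {k : ℕ} (h : (ζ : ℂ) ^ (4 * (k + 1)) = 1) : evC ζ (f k) = 0 := by
  have e : (4 * (k : ℤ) + 4) = ((4 * (k + 1) : ℕ) : ℤ) := by push_cast; ring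
  rw [f, map_sub, map_one, evC_a, e, zpow_natCast, h, sub_self]

private theorem evC_chi_pos (ζ : ℂˣ) (q : ℕ) (r n : ℤ) (h : (3 : ℤ) ∣ n - r ∨ (3 : ℤ) ∣ n + r) :
    evC ζ (chi 3 q r n) = ((((q + 1) * (n - r)).negOnePow : ℤˣ) : ℤ) *
      (ζ : ℂ) ^ (-(q * ((n ^ 2 - r ^ 2) / 3)) : ℤ) := by
  rw [chi, if_pos (by simpa using h), Units.smul_def, zsmul_eq_mul, map_mul, map_intCast, evC_a]
  simp

private theorem evC_chi_neg (ζ : ℂˣ) (q : ℕ) (r n : ℤ)
    (h : ¬ ((3 : ℤ) ∣ n - r ∨ (3 : ℤ) ∣ n + r)) : evC ζ (chi 3 q r n) = 0 := by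
  rw [chi, if_neg (by simpa using h), map_zero]

private theorem infinite_roots (g : ℕ → ℕ) (hg : Function.Injective g) (hg0 : ∀ m, g m ≠ 0)
    {S : Set ℂˣ} (h : ∀ m, ∀ ζ : ℂˣ, IsPrimitiveRoot (ζ : ℂ) (g m) → ζ ∈ S) : S.Infinite := by
  have ex : ∀ m, ∃ ζ : ℂˣ, IsPrimitiveRoot (ζ : ℂ) (g m) := by
    intro m
    have h1 := Complex.isPrimitiveRoot_exp (g m) (hg0 m)
    exact ⟨Units.mk0 _ (Complex.exp_ne_zero _), h1⟩
  choose z hz using ex
  refine Set.infinite_of_injective_forall_mem (f := z) ?_ fun m => h m _ (hz m)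
  intro i j hij
  apply hg
  exact (hz i).unique (hij ▸ hz j)

private theorem prim_four {ζ : ℂ} {N : ℕ} (hN : N ≠ 0) (h : IsPrimitiveRoot ζ (4 * N)) :
    IsPrimitiveRoot (ζ ^ 4) N :=
  h.pow (by omega) rfl

private theorem D_one_ne {ζ : ℂˣ} {M : ℕ} (h : IsPrimitiveRoot (ζ : ℂ) (4 * (3 * M + 2 + 1)))
    {q : ℕ} (hq : q = 1 ∨ q = 2) :
    evC ζ (pf (3 * M + 2) (chi 3 q 1) 1) ≠ 0 := by
  rw [evC_pf (prim_four (by omega) h), evC_chi_pos _ _ _ _ (Or.inl ⟨M + 1, by push_cast; ring⟩),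
    evC_chi_pos _ _ _ _ (Or.inl ⟨-(M + 1), by push_cast; ring⟩)]
  have e1 : ((1 + (((3 * M + 2 : ℕ) : ℤ) + 1)) ^ 2 - 1 ^ 2) / 3 =
      2 * (M + 1) + 3 * (M + 1) ^ 2 := by
    apply Int.ediv_eq_of_eq_mul_right (by norm_num); push_cast; ring
  have e2 : ((1 - (((3 * M + 2 : ℕ) : ℤ) + 1)) ^ 2 - 1 ^ 2) / 3 =
      -(2 * (M + 1)) + 3 * (M + 1) ^ 2 := by
    apply Int.ediv_eq_of_eq_mul_right (by norm_num); push_cast; ring
  have e3 : ((q : ℤ) + 1) * (1 - (((3 * M + 2 : ℕ) : ℤ) + 1) - 1) =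
      -(((q : ℤ) + 1) * (1 + (((3 * M + 2 : ℕ) : ℤ) + 1) - 1)) := by ring
  rw [e1, e2, e3, Int.negOnePow_neg, ← mul_sub]
  have hz : (ζ : ℂ) ≠ 0 := ζ.ne_zero
  refine mul_ne_zero (by exact_mod_cast Units.ne_zero _) ?_
  intro h0
  have h1 : (ζ : ℂ) ^ ((q : ℤ) * (4 * (M + 1))) = 1 := by
    have e : (q : ℤ) * (4 * (M + 1)) = -(q * (-(2 * ((M : ℤ) + 1)) + 3 * (M + 1) ^ 2)) -
      -(q * (2 * ((M : ℤ) + 1) + 3 * (M + 1) ^ 2)) := by ring
    rw [e, zpow_sub₀ hz, sub_eq_zero.1 h0, div_self (zpow_ne_zero _ hz)]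
  rw [h.zpow_eq_one_iff_dvd] at h1
  obtain ⟨c, hc⟩ := h1
  have hM : (4 * ((M : ℤ) + 1)) ≠ 0 := by positivity
  have : (q : ℤ) = 3 * c := by
    apply mul_left_cancel₀ hM
    push_cast at hc
    linear_combination hc
  rcases hq with rfl | rfl <;> omega

private theorem D_zero_eq {ζ : ℂˣ} {M : ℕ} (h : IsPrimitiveRoot (ζ : ℂ) (4 * (3 * M + 2 + 1)))
    (q : ℕ) : evC ζ (pf (3 * M + 2) (chi 3 q 0) 1) = 0 := by
  rw [evC_pf (prim_four (by omega) h), evC_chi_neg _ _ _ _ (by push_cast; omega),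
    evC_chi_neg _ _ _ _ (by push_cast; omega), sub_self]

private theorem prim_cube {B : ℂˣ} {M : ℕ} (h : IsPrimitiveRoot (B : ℂ) (4 * (3 * M + 1))) :
    IsPrimitiveRoot ((B ^ 3 : ℂˣ) : ℂ) (4 * (3 * M + 1)) := by
  rw [Units.val_pow_eq_pow_val]
  apply h.pow_of_coprime
  have : 4 * (3 * M + 1) = 1 + 3 * (4 * M + 1) := by ring
  rw [this, Nat.coprime_add_mul_left_right]
  simp

private theorem E_zero {B : ℂˣ} {M : ℕ} (h : IsPrimitiveRoot (B : ℂ) (4 * (3 * M + 1)))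
    (q : ℕ) : evC (B ^ 3) (pf (3 * M) (chi 3 q 0) (3 * M + 1)) = -1 := by
  rw [evC_pf (prim_four (by omega) (prim_cube h)), evC_chi_neg _ _ _ _ (by push_cast; omega),
    evC_chi_pos _ _ _ _ (by push_cast; omega)]
  simp

private theorem E_one {B : ℂˣ} {M : ℕ} (h : IsPrimitiveRoot (B : ℂ) (4 * (3 * M + 1)))
    (q : ℕ) : evC (B ^ 3) (pf (3 * M) (chi 3 q 1) (3 * M + 1)) = (-1) ^ (q + 1) * (B : ℂ) ^ q := by
  rw [evC_pf (prim_four (by omega) (prim_cube h)), evC_chi_pos _ _ _ _ (by push_cast; omega),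
    evC_chi_neg _ _ _ _ (by push_cast; omega), sub_zero]
  have e1 : ((3 * (M : ℤ) + 1 + (((3 * M : ℕ) : ℤ) + 1)) ^ 2 - 1 ^ 2) / 3 =
      12 * M ^ 2 + 8 * M + 1 := by
    apply Int.ediv_eq_of_eq_mul_right (by norm_num); push_cast; ring
  have e2 : ((q : ℤ) + 1) * (3 * (M : ℤ) + 1 + (((3 * M : ℕ) : ℤ) + 1) - 1) =
      ((q + 1 : ℕ) : ℤ) + 2 * ((q + 1) * (3 * M)) := by push_cast; ring
  have hz : (B : ℂ) ≠ 0 := B.ne_zero
  rw [e1, e2, Int.negOnePow_add, Int.negOnePow_two_mul, mul_one, Int.coe_negOnePow_natCast,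
    Units.val_pow_eq_pow_val, ← zpow_natCast (B : ℂ) 3, ← zpow_mul]
  have e3 : ((3 : ℕ) : ℤ) * -((q : ℤ) * (12 * M ^ 2 + 8 * M + 1)) =
      (q : ℤ) + ((4 * (3 * M + 1) : ℕ) : ℤ) * (-(q * (3 * M + 1))) := by push_cast; ring
  rw [e3, zpow_add₀ hz, zpow_mul, zpow_natCast, zpow_natCast, h.pow_eq_one, one_zpow, mul_one]
  push_cast
  rfl

theorem eq_zero_of_dvd (c : Fin 2 → Fin 2 → R) (h : ∀ (k : ℕ) (n n' : ℤ),
    f k ∣ ∑ r : Fin 2, ∑ s : Fin 2, pf k (chi 3 1 r) n * pf k (chi 3 2 s) n' * c r s) : c = 0 := by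
  have key : ∀ (ζ : ℂˣ) (k : ℕ) (n n' : ℤ), (ζ : ℂ) ^ (4 * (k + 1)) = 1 →
      evC ζ (pf k (chi 3 1 0) n) * evC ζ (pf k (chi 3 2 0) n') * evC ζ (c 0 0) +
      evC ζ (pf k (chi 3 1 0) n) * evC ζ (pf k (chi 3 2 1) n') * evC ζ (c 0 1) +
      (evC ζ (pf k (chi 3 1 1) n) * evC ζ (pf k (chi 3 2 0) n') * evC ζ (c 1 0) +
      evC ζ (pf k (chi 3 1 1) n) * evC ζ (pf k (chi 3 2 1) n') * evC ζ (c 1 1)) = 0 := by
    intro ζ k n n' hζ
    obtain ⟨d, hd⟩ := h k n n'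
    have h2 := congrArg (evC ζ) hd
    rw [map_mul, evC_f hζ, zero_mul] at h2
    simpa [Fin.sum_univ_two] using h2
  have h11 : c 1 1 = 0 := by
    apply eq_zero_of_infinite
    refine infinite_roots (fun M => 4 * (3 * M + 2 + 1)) (fun i j hij => by simpa using hij)
      (fun m => by simp) fun M ζ hζ => ?_
    have h2 := key ζ (3 * M + 2) 1 1 hζ.pow_eq_one
    rw [D_zero_eq hζ, D_zero_eq hζ] at h2
    have h3 := D_one_ne hζ (q := 1) (Or.inl rfl)
    have h4 := D_one_ne hζ (q := 2) (Or.inr rfl)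
    simpa [h3, h4] using h2
  have hP : sub3 (c 0 0) + sub3 (c 0 1) * a 2 - sub3 (c 1 0) * a 1 = 0 := by
    apply eq_zero_of_infinite
    refine infinite_roots (fun M => 4 * (3 * M + 1)) (fun i j hij => by simpa using hij)
      (fun m => by simp) fun M B hB => ?_
    have h2 := key (B ^ 3) (3 * M) (3 * M + 1) (3 * M + 1) (prim_cube hB).pow_eq_one
    rw [E_zero hB, E_zero hB, E_one hB, E_one hB, h11, map_zero] at h2
    simp only [Set.mem_ofPred_eq, map_sub, map_add, map_mul, evC_sub3, evC_a, zpow_ofNat]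
    linear_combination h2
  have all : ∀ ζ : ℂˣ, evC ζ (c 0 0) = 0 ∧ evC ζ (c 0 1) = 0 ∧ evC ζ (c 1 0) = 0 := by
    intro ζ
    obtain ⟨b, hb⟩ := IsAlgClosed.exists_pow_nat_eq (ζ : ℂ) (n := 3) (by norm_num)
    have hb0 : b ≠ 0 := by
      rintro rfl
      exact ζ.ne_zero (by simpa using hb.symm)
    have hw := Complex.isPrimitiveRoot_exp 3 (by norm_num)
    set w := Complex.exp (2 * Real.pi * Complex.I / (3 : ℕ)) with hwdef
    have hw3 : w ^ 3 = 1 := hw.pow_eq_one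
    have hw1 : w ≠ 1 := hw.ne_one (by norm_num)
    have hw0 : w ≠ 0 := Complex.exp_ne_zero _
    have hws : 1 + w + w ^ 2 = 0 := by
      have : (w - 1) * (1 + w + w ^ 2) = 0 := by linear_combination hw3
      exact (mul_eq_zero.1 this).resolve_left (sub_ne_zero.2 hw1)
    have ev : ∀ (x : ℂ) (hx : x ≠ 0), x ^ 3 = ζ →
        evC ζ (c 0 0) + evC ζ (c 0 1) * x ^ 2 - evC ζ (c 1 0) * x = 0 := by
      intro x hx hx3
      have h2 := congrArg (evC (Units.mk0 x hx)) hP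
      have e : (Units.mk0 x hx) ^ 3 = ζ := by ext; simpa using hx3
      simp only [map_sub, map_add, map_mul, evC_sub3, evC_a, zpow_ofNat, e, map_zero] at h2
      simpa using h2
    have a0 := ev b hb0 hb
    have a1 := ev (w * b) (mul_ne_zero hw0 hb0) (by rw [mul_pow, hw3, hb, one_mul])
    have a2 := ev (w ^ 2 * b) (mul_ne_zero (pow_ne_zero _ hw0) hb0)
      (by rw [mul_pow, ← pow_mul, mul_comm 2 3, pow_mul, hw3, hb]; simp)
    set x := evC ζ (c 0 0)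
    set y := evC ζ (c 0 1)
    set z := evC ζ (c 1 0)
    have hx : x = 0 := by
      have : 3 * x = 0 := by
        linear_combination a0 + a1 + a2 - (y * b ^ 2 - z * b) * hws - y * b ^ 2 * w * hw3
      simpa using this
    have hz : z = 0 := by
      have : (w * (w - 1) * b) * z = 0 := by
        linear_combination a1 - w ^ 2 * a0 - (1 - w ^ 2) * hx
      exact (mul_eq_zero.1 this).resolve_left
        (mul_ne_zero (mul_ne_zero hw0 (sub_ne_zero.2 hw1)) hb0)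
    have hy : y = 0 := by
      have : b ^ 2 * y = 0 := by linear_combination a0 - hx + b * hz
      exact (mul_eq_zero.1 this).resolve_left (pow_ne_zero _ hb0)
    exact ⟨hx, hy, hz⟩
  have inf : (Set.univ : Set ℂˣ).Infinite :=
    infinite_roots (fun M => M + 1) (fun i j hij => by simpa using hij) (fun m => by simp)
      fun _ _ _ => Set.mem_univ _
  have h00 : c 0 0 = 0 := eq_zero_of_infinite (inf.mono fun ζ _ => (all ζ).1)
  have h01 : c 0 1 = 0 := eq_zero_of_infinite (inf.mono fun ζ _ => (all ζ).2.1)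
  have h10 : c 1 0 = 0 := eq_zero_of_infinite (inf.mono fun ζ _ => (all ζ).2.2)
  funext r s
  fin_cases r <;> fin_cases s
  · exact h00
  · exact h01
  · exact h10
  · exact h11

end Pool.Agent.P.MP_b3a239_gt
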