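import Pool.Agent.P.MP_b3a239_gt.Two
import Pool.Agent.P.MP_b3a239_gt.Roots

/-! The module depends on the relative orientation of the summands. -/

set_option maxSynthPendingDepth 3

noncomputable section

namespace Pool.Agent.P.MP_b3a239_gt

private theorem orient_unit (k : ℕ) : IsUnit ((-a 2) ^ k) := (isUnit_a 2).neg.pow k

private theorem orient_w2 (x y : ℕ × ℕ) (n : Fin 2 → ℤ) :
    word [x, y] (fun j => .t (n j)) [] = w2 x y (.t (n 0)) (.t (n 1)) [] := by
  unfold w2
  congr 1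
  funext j
  fin_cases j <;> rfl

private theorem orient_cop {q : ℕ} (hq : q = 1 ∨ q = 2) :
    2 ≤ ((3, q) : ℕ × ℕ).1 ∧ ((3, q) : ℕ × ℕ).1.Coprime ((3, q) : ℕ × ℕ).2 := by
  rcases hq with rfl | rfl <;> decide

private theorem orient_T2 {q q' : ℕ} (hq : q = 1 ∨ q = 2) (hq' : q' = 1 ∨ q' = 2) (k : ℕ)
    (n n' : ℤ) : (f 0 * f k) • T2 (3, q) (3, q') k n n' = (-a 2) ^ k •
      ∑ r : Fin 2, ∑ s : Fin 2,
        (pf k (chi 3 q r) n * pf k (chi 3 q' s) n') • w2 (3, q) (3, q') (.t r) (.t s) [] := by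
  have key : ∀ (p : ℕ), p = 3 → ∀ F : ℕ → Model [(3, q), (3, q')],
      ∑ r : Fin (p / 2 + 1), F r = ∑ r : Fin 2, F r := by
    rintro _ rfl F
    rfl
  rw [T2_eq (3, q) (3, q') (orient_cop hq) (orient_cop hq') k n n']
  congr 1
  refine (key _ rfl fun r => ∑ s : Fin (((3, q') : ℕ × ℕ).1 / 2 + 1),
    (pf k (chi 3 q r) n * pf k (chi 3 q' s) n') • w2 (3, q) (3, q') (.t r) (.t s) []).trans ?_
  exact Finset.sum_congr rfl fun r _ => key _ rfl fun s =>
    (pf k (chi 3 q r) n * pf k (chi 3 q' s) n') • w2 (3, q) (3, q') (.t r) (.t s) []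

theorem hom_eq_zero (ψ : Model [(3, 1), (3, 2)] →ₗ[R] R) : ψ = 0 := by
  have h1 := orient_cop (q := 1) (Or.inl rfl)
  have h2 := orient_cop (q := 2) (Or.inr rfl)
  have hc : (fun r s : Fin 2 => ψ (w2 (3, 1) (3, 2) (.t r) (.t s) [])) = 0 := by
    refine eq_zero_of_dvd _ fun k n n' => ?_
    have h := congrArg ψ (orient_T2 (Or.inl rfl) (Or.inr rfl) k n n')
    simp only [map_smul, map_sum, smul_eq_mul] at h
    rw [← (orient_unit k).dvd_mul_left]
    exact ⟨f 0 * ψ (T2 (3, 1) (3, 2) k n n'), by rw [← mul_assoc, mul_comm (f k), h]⟩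
  have hL : ∀ x ∈ [((3, 1) : ℕ × ℕ), (3, 2)], 2 ≤ x.1 ∧ x.1.Coprime x.2 := by
    intro x hx
    simp only [List.mem_cons, List.not_mem_nil, or_false] at hx
    rcases hx with rfl | rfl
    exacts [h1, h2]
  refine LinearMap.ext fun x => ?_
  obtain ⟨r, hr, hx⟩ := exists_smul_mem_tw hL x
  have hk : Submodule.span R (Set.range (tw [((3, 1) : ℕ × ℕ), (3, 2)])) ≤ LinearMap.ker ψ := by
    rw [Submodule.span_le]
    rintro _ ⟨i, rfl⟩
    have e := orient_w2 (3, 1) (3, 2) fun j => (i j : ℕ)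
    have e2 := congrFun (congrFun hc ⟨i ⟨0, by decide⟩, (i _).2.trans_eq (by decide)⟩)
      ⟨i ⟨1, by decide⟩, (i _).2.trans_eq (by decide)⟩
    exact (congrArg ψ e).trans e2
  have h0 := hk hx
  rw [LinearMap.mem_ker, map_smul, smul_eq_mul] at h0
  exact (mul_eq_zero.1 h0).resolve_left (ne_zero_of_mem_closure hr)

private theorem orient_chi (q : ℕ) :
    chi 3 q 0 0 = 1 ∧ chi 3 q 0 1 = 0 ∧ chi 3 q 1 0 = 0 ∧ chi 3 q 1 1 = 1 := by
  have h := chi_diag (p := 3) q (by norm_num)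
  exact ⟨h ⟨0, by decide⟩ ⟨0, by decide⟩, h ⟨0, by decide⟩ ⟨1, by decide⟩,
    h ⟨1, by decide⟩ ⟨0, by decide⟩, h ⟨1, by decide⟩ ⟨1, by decide⟩⟩

theorem exists_hom_ne_zero {q : ℕ} (hq : q = 1 ∨ q = 2) :
    ∃ ψ : Model [(3, q), (3, q)] →ₗ[R] R, ψ ≠ 0 := by
  have h1 := orient_cop hq
  have hL : ∀ x ∈ [((3, q) : ℕ × ℕ), (3, q)], 2 ≤ x.1 ∧ x.1.Coprime x.2 := by
    intro x hx
    simp only [List.mem_cons, List.not_mem_nil, or_false, or_self] at hx
    rw [hx]
    exact h1
  obtain ⟨φ, hφ, -⟩ := exists_phi hL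
  have hinj : Function.Injective (algebraMap R KK) := IsFractionRing.injective R KK
  let i01 : Idx [((3, q) : ℕ × ℕ), (3, q)] := fun j =>
    match j with
    | ⟨0, _⟩ => ⟨0, Nat.succ_pos _⟩
    | ⟨1, _⟩ => ⟨1, by simp [par]⟩
  let i10 : Idx [((3, q) : ℕ × ℕ), (3, q)] := fun j =>
    match j with
    | ⟨0, _⟩ => ⟨1, by simp [par]⟩
    | ⟨1, _⟩ => ⟨0, Nat.succ_pos _⟩
  obtain ⟨lam, hlam⟩ : ∃ lam : Model [((3, q) : ℕ × ℕ), (3, q)] →ₗ[R] KK, ∀ n n' : ℤ,
      lam (w2 (3, q) (3, q) (.t n) (.t n') []) =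
        algebraMap R KK (chi 3 q 0 n * chi 3 q 1 n' - chi 3 q 1 n * chi 3 q 0 n') := by
    refine ⟨LinearMap.proj i01 ∘ₗ φ - LinearMap.proj i10 ∘ₗ φ, fun n n' => ?_⟩
    have e := orient_w2 (3, q) (3, q) ![n, n']
    have e2 := hφ ![n, n']
    have e3 : φ (w2 (3, q) (3, q) (.t n) (.t n') []) = _ := (congrArg φ e.symm).trans e2
    simp only [LinearMap.sub_apply, LinearMap.comp_apply, LinearMap.proj_apply, e3, map_sub]
    congr 2
    · exact Fin.prod_univ_two _
    · exact Fin.prod_univ_two _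
  obtain ⟨c00, c01, c10, c11⟩ := orient_chi q
  let S : Submodule R KK := LinearMap.range (Algebra.linearMap R KK)
  have ht : ∀ n n' : ℤ, lam (w2 (3, q) (3, q) (.t n) (.t n') []) ∈ S := fun n n' =>
    ⟨_, (hlam n n').symm⟩
  have hb : ∀ (n : ℤ) (b : Box), b.legs = 0 → f 0 • lam (w2 (3, q) (3, q) (.t n) b []) ∈ S := by
    intro n b hb
    cases b with
    | t n' => exact S.smul_mem _ (ht n n')
    | G k n' =>
      obtain rfl : k = 0 := by
        simp only [Box.legs] at hb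
        omega
      rw [← map_smul, w2_t_G, map_sub]
      exact S.sub_mem (ht _ _) (ht _ _)
  have hall : ∀ x, ((f 0 * f 0) • lam) x ∈ S := by
    have hle : (⊤ : Submodule R (Model [((3, q) : ℕ × ℕ), (3, q)])) ≤
        S.comap ((f 0 * f 0) • lam) := by
      rw [← span_two (3, q) (3, q), Submodule.span_le]
      rintro _ (⟨k, n, n', rfl⟩ | ⟨b₀, b₁, h₀, h₁, rfl⟩)
      · have h := congrArg lam (orient_T2 hq hq k n n')
        obtain ⟨m, hm⟩ := f_dvd_det hq k n n'
        have hs : lam (∑ r : Fin 2, ∑ s : Fin 2, (pf k (chi 3 q r) n * pf k (chi 3 q s) n') •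
            w2 (3, q) (3, q) (.t r) (.t s) []) = algebraMap R KK (f k * m) := by
          rw [← hm]
          simp only [Fin.sum_univ_two, map_add, map_smul, hlam, Fin.val_zero, Fin.val_one,
            Nat.cast_zero, Nat.cast_one, c00, c01, c10, c11]
          simp only [Algebra.smul_def, map_mul, map_sub, map_zero, map_one]
          ring
        rw [map_smul, map_smul] at h
        have h' : (f 0 * f k) • lam (T2 (3, q) (3, q) k n n') =
            (-a 2) ^ k • algebraMap R KK (f k * m) := h.trans (congrArg _ hs)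
        have hfk : algebraMap R KK (f k) ≠ 0 := (map_ne_zero_iff _ hinj).2 (f_ne_zero k)
        refine ⟨f 0 * (-a 2) ^ k * m, ?_⟩
        apply mul_left_cancel₀ hfk
        simp only [Algebra.smul_def, map_mul] at h'
        simp only [Algebra.linearMap_apply, LinearMap.smul_apply, Algebra.smul_def, map_mul]
        linear_combination (-algebraMap R KK (f 0)) * h'
      · change (f 0 * f 0) • lam _ ∈ S
        cases b₀ with
        | t n =>
          rw [mul_smul]
          exact S.smul_mem _ (hb n b₁ h₁)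
        | G k n =>
          obtain rfl : k = 0 := by
            simp only [Box.legs] at h₀
            omega
          rw [mul_smul, ← map_smul lam, w2_G_t, map_sub, smul_sub]
          exact S.sub_mem (hb _ _ h₁) (hb _ _ h₁)
    exact fun x => hle Submodule.mem_top
  refine ⟨LinearMap.codRestrictOfInjective _ (Algebra.linearMap R KK) hinj hall, fun h0 => ?_⟩
  have h := LinearMap.codRestrictOfInjective_comp_apply _ (Algebra.linearMap R KK) hinj hall
    (w2 (3, q) (3, q) (.t 0) (.t 1) [])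
  rw [h0, LinearMap.zero_apply, map_zero, LinearMap.smul_apply, hlam, c00, c01, c10, c11,
    Algebra.smul_def, ← map_mul] at h
  have h' := (map_eq_zero_iff _ hinj).1 h.symm
  simp [f_ne_zero] at h'

end Pool.Agent.P.MP_b3a239_gt
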