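import Pool.Agent.P.MP_b3a239_gt.Equiv
import Pool.Agent.P.MP_b3a239_gt.NT
import Pool.Agent.P.MP_b3a239_gt.Orient

/-! Assembly. -/

set_option maxSynthPendingDepth 3

noncomputable section

namespace Pool.Agent.P.MP_b3a239_gt

theorem torsion_equiv {S S' : Type} [AddCommGroup S] [Module R S] [AddCommGroup S'] [Module R S']
    (e : S ≃ₗ[R] S') (x : S) : x ∈ Submodule.torsion R S ↔ e x ∈ Submodule.torsion R S' := by
  constructor
  · rintro ⟨r, hr⟩
    exact ⟨r, by rw [Submonoid.smul_def, ← map_smul, ← Submonoid.smul_def, hr, map_zero]⟩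
  · rintro ⟨r, hr⟩
    refine ⟨r, e.injective ?_⟩
    rw [Submonoid.smul_def, map_smul, ← Submonoid.smul_def, hr, map_zero]

theorem not_equiv {q : ℕ} (hq : q = 1 ∨ q = 2) :
    IsEmpty (Skein [(3, q), (3, q)] ≃ₗ[R] Skein [(3, 1), (3, 2)]) := by
  refine ⟨fun e => ?_⟩
  obtain ⟨e₁⟩ := skein_equiv (L := [(3, q), (3, q)]) (by rcases hq with rfl | rfl <;> decide)
  obtain ⟨e₂⟩ := skein_equiv (L := [(3, 1), (3, 2)]) (by decide)
  obtain ⟨ψ, hψ⟩ := exists_hom_ne_zero hq
  apply hψ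
  have h := hom_eq_zero (ψ ∘ₗ (e₂.symm.trans (e.symm.trans e₁)).toLinearMap)
  refine LinearMap.ext fun x => ?_
  simpa using congr($h ((e₂.symm.trans (e.symm.trans e₁)).symm x))

theorem main :
    (∀ L : List (ℕ × ℕ), (∀ x ∈ L, 2 ≤ x.1 ∧ x.1.Coprime x.2) → 2 ≤ L.length →
      ∃ e : Skein L ≃ₗ[R] Model L,
        Submodule.span R {x | ∃ b d, (∀ j, (b j).Normal (par L j).1) ∧ x = word L b d} = ⊤ ∧
        (∃ φ : Model L →ₗ[R] (Idx L → FractionRing R),
          (∀ n : Fin L.length → ℤ, φ (word L (fun j => .t (n j)) []) =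
            fun r => algebraMap R _ (∏ j : Fin L.length, chi (par L j).1 (par L j).2 (r j) (n j))) ∧
          ∀ x, x ∈ Submodule.torsion R (Skein L) ↔ φ (e x) = 0) ∧
        (∀ x ∈ Submodule.torsion R (Skein L), ∃ r ∈ Submonoid.closure (Set.range f), r • x = 0) ∧
        Module.rank R (Skein L) = ((L.map fun x => x.1 / 2 + 1).prod : ℕ) ∧
        ¬ Module.Finite R (Submodule.torsion R (Skein L)) ∧ ¬ Module.Free R (Skein L)) ∧
    IsEmpty (Skein [(3, 1), (3, 1)] ≃ₗ[R] Skein [(3, 1), (3, 2)]) ∧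
    IsEmpty (Skein [(3, 2), (3, 2)] ≃ₗ[R] Skein [(3, 1), (3, 2)]) := by
  refine ⟨fun L hL hn => ?_, not_equiv (.inl rfl), not_equiv (.inr rfl)⟩
  obtain ⟨e⟩ := skein_equiv hL
  obtain ⟨φ, h₁, h₂⟩ := exists_phi hL
  have hT : ¬ Module.Finite R (Submodule.torsion R (Skein L)) := by
    intro h
    apply torsion_not_finite hL hn
    have : (Submodule.torsion R (Skein L)).map e.toLinearMap = Submodule.torsion R (Model L) := by
      ext y
      constructor
      · rintro ⟨x, hx, rfl⟩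
        exact (torsion_equiv e x).1 hx
      · intro hy
        exact ⟨e.symm y, (torsion_equiv e _).2 (by simpa using hy), by simp⟩
    rw [← this]
    infer_instance
  refine ⟨e, span_normal hL, ⟨φ, h₁, fun x => ?_⟩, fun x hx => ?_, ?_, hT, not_free_of_torsion hT⟩
  · rw [torsion_equiv e, ← h₂, LinearMap.mem_ker]
  · obtain ⟨r, hr, h⟩ := torsion_killed hL ((torsion_equiv e x).1 hx)
    exact ⟨r, hr, e.injective (by rw [map_smul, h, map_zero])⟩
  · rw [e.rank_eq, rank_model hL]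

end Pool.Agent.P.MP_b3a239_gt
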