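import Pool.Agent.P.MP_b3a239_gt.Normal
import Pool.Agent.P.MP_b3a239_gt.CxDef

/-! Evaluation at roots of unity. -/

set_option maxSynthPendingDepth 3

noncomputable section

namespace Pool.Agent.P.MP_b3a239_gt

open Polynomial

/-- the shift by two -/
private def sh2 : Module.End ℂ (ℤ → ℂ) := LinearMap.funLeft ℂ ℂ fun m => m + 2

private theorem sh2_apply (ν : ℤ → ℂ) (m : ℤ) : sh2 ν m = ν (m + 2) := rfl

private theorem sh2_pow (k : ℕ) (ν : ℤ → ℂ) (m : ℤ) : (sh2 ^ k) ν m = ν (m + 2 * k) := by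
  induction k generalizing m with
  | zero => simp
  | succ k ih =>
    rw [pow_succ', Module.End.mul_apply, sh2_apply, ih]
    congr 1
    push_cast
    ring

private theorem evC_pf_aux (ζ : ℂˣ) (μ : ℤ → R) (k : ℕ) (n : ℤ) :
    evC ζ (pf k μ n) = (aeval sh2 (∏ j ∈ Finset.range (k + 1),
      (X - Polynomial.C ((((ζ : ℂ) ^ 4)⁻¹) ^ j * 1)))) (fun m => evC ζ (μ m)) (n - (k + 1)) := by
  induction k generalizing n with
  | zero =>
    simp only [pf, map_sub, zero_add, Finset.prod_range_one, pow_zero, mul_one, aeval_X,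
      map_one, LinearMap.sub_apply, Module.End.one_apply, Pi.sub_apply, sh2_apply, Nat.cast_zero]
    congr 3
    ring
  | succ k ih =>
    rw [Finset.prod_range_succ, mul_comm, map_mul, Module.End.mul_apply, map_sub, aeval_X,
      aeval_C, LinearMap.sub_apply, Pi.sub_apply, sh2_apply, Module.algebraMap_end_apply,
      Pi.smul_apply, smul_eq_mul, pf, map_sub, smul_eq_mul, map_mul, ih, ih, evC_a]
    have e1 : n + 1 - ((k : ℤ) + 1) = n - (((k + 1 : ℕ) : ℤ) + 1) + 2 := by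
      push_cast
      ring
    have e2 : n - 1 - ((k : ℤ) + 1) = n - (((k + 1 : ℕ) : ℤ) + 1) := by
      push_cast
      ring
    have e3 : (ζ : ℂ) ^ (-4 * ((k : ℤ) + 1)) = (((ζ : ℂ) ^ 4)⁻¹) ^ (k + 1) * 1 := by
      rw [mul_one, inv_pow, ← pow_mul, ← zpow_natCast, ← zpow_neg]
      congr 1
    rw [e1, e2, e3]

theorem evC_pf {ζ : ℂˣ} {N : ℕ} (h : IsPrimitiveRoot ((ζ : ℂ) ^ 4) (N + 1)) (μ : ℤ → R) (n : ℤ) :
    evC ζ (pf N μ n) = evC ζ (μ (n + (N + 1))) - evC ζ (μ (n - (N + 1))) := by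
  rw [evC_pf_aux, ← X_pow_sub_C_eq_prod h.inv (Nat.succ_pos N) (one_pow _), map_sub, map_pow,
    aeval_X, map_one, map_one, LinearMap.sub_apply, Pi.sub_apply, sh2_pow, Module.End.one_apply]
  congr 3
  push_cast
  ring

private theorem evC_toLaurent (ζ : ℂˣ) (p : ℤ[X]) :
    evC ζ (toLaurent p) = eval (ζ : ℂ) (p.map (Int.castRingHom ℂ)) := by
  rw [evC, LaurentPolynomial.eval₂_toLaurent, eval_map]

private theorem exists_poly (r : R) : ∃ (n : ℤ) (p : ℤ[X]), r = toLaurent p * a n := by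
  obtain ⟨n, p, h⟩ := LaurentPolynomial.exists_T_pow r
  refine ⟨-n, p, ?_⟩
  rw [h, mul_assoc]
  change r = r * (a n * a (-n))
  rw [a_mul_neg, mul_one]

private theorem eval_eq_zero {ζ : ℂˣ} {p : ℤ[X]} {n : ℤ} (h : evC ζ (toLaurent p * a n) = 0) :
    eval (ζ : ℂ) (p.map (Int.castRingHom ℂ)) = 0 := by
  rw [map_mul, evC_a, evC_toLaurent] at h
  exact (mul_eq_zero.1 h).resolve_right (zpow_ne_zero _ ζ.ne_zero)

theorem f_dvd_of_roots (k : ℕ) {r : R}
    (h : ∀ ζ : ℂˣ, (ζ : ℂ) ^ (4 * k + 4) = 1 → evC ζ r = 0) : f k ∣ r := by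
  obtain ⟨n, p, rfl⟩ := exists_poly r
  have hM : 0 < 4 * k + 4 := by omega
  have hm : (X ^ (4 * k + 4) - Polynomial.C 1 : ℤ[X]).Monic := monic_X_pow_sub_C _ hM.ne'
  have hd : (X ^ (4 * k + 4) - Polynomial.C 1 : ℤ[X]) ∣ p := by
    rw [← map_dvd_map (Int.castRingHom ℂ) Int.cast_injective hm]
    have hz := Complex.isPrimitiveRoot_exp (4 * k + 4) hM.ne'
    rw [Polynomial.map_sub, Polynomial.map_pow, map_X, map_C, (Int.castRingHom ℂ).map_one,
      X_pow_sub_C_eq_prod hz hM (one_pow _)]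
    refine Finset.prod_dvd_of_coprime ?_ fun i _ => ?_
    · intro i hi j hj hij
      refine isCoprime_X_sub_C_of_isUnit_sub (Ne.isUnit (sub_ne_zero.2 fun e => hij ?_))
      rw [mul_one, mul_one] at e
      exact hz.pow_inj (Finset.mem_range.1 hi) (Finset.mem_range.1 hj) e
    · rw [dvd_iff_isRoot, mul_one]
      have h0 : Complex.exp (2 * Real.pi * Complex.I / (4 * k + 4 : ℕ)) ^ i ≠ 0 :=
        pow_ne_zero _ (Complex.exp_ne_zero _)
      refine eval_eq_zero (ζ := Units.mk0 _ h0) (h _ ?_)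
      rw [Units.val_mk0, ← pow_mul, mul_comm i, pow_mul, hz.pow_eq_one, one_pow]
  obtain ⟨c, rfl⟩ := hd
  have e : toLaurent (X ^ (4 * k + 4) - Polynomial.C 1 : ℤ[X]) = -f k := by
    rw [map_sub, toLaurent_X_pow, C_1, map_one, f, neg_sub]
    congr 1
  rw [map_mul, e, mul_assoc]
  exact (dvd_neg.2 dvd_rfl).mul_right _

theorem eq_zero_of_infinite {r : R} (h : Set.Infinite {ζ : ℂˣ | evC ζ r = 0}) : r = 0 := by
  obtain ⟨n, p, rfl⟩ := exists_poly r
  have h1 : p.map (Int.castRingHom ℂ) = 0 := by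
    apply eq_zero_of_infinite_isRoot
    refine (h.image (f := fun ζ : ℂˣ => (ζ : ℂ)) Units.val_injective.injOn).mono ?_
    rintro _ ⟨ζ, hζ, rfl⟩
    exact eval_eq_zero hζ
  rw [Polynomial.map_eq_zero_iff Int.cast_injective] at h1
  rw [h1, map_zero, zero_mul]

end Pool.Agent.P.MP_b3a239_gt
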