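import Pool.Agent.P.MP_b3a239_gt.Two
import Pool.Agent.P.MP_b3a239_gt.Roots1

/-! With two summands of order at least three the module is not a direct sum of cyclic modules. -/

set_option maxSynthPendingDepth 3

noncomputable section

namespace Pool.Agent.P.MP_b3a239_gt

namespace NotCyc

theorem par_good {L : List (ℕ × ℕ)} (hL : ∀ x ∈ L, 2 ≤ x.1 ∧ x.1.Coprime x.2) (j : ℕ) :
    2 ≤ (par L j).1 ∧ (par L j).1.Coprime (par L j).2 := by
  unfold par
  rcases lt_or_ge j L.length with h | h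
  · rw [List.getD_eq_getElem _ _ h]
    exact hL _ (List.getElem_mem h)
  · rw [List.getD_eq_default _ _ h]
    exact ⟨le_rfl, by decide⟩

theorem cat_append (l l' : List (F KK)) : cat (l ++ l') = app KK (cat l) (cat l') := by
  induction l with
  | nil => exact (app_nil_left _).symm
  | cons u l ih =>
    change app KK u (cat (l ++ l')) = app KK (app KK u (cat l)) (cat l')
    rw [ih, app_assoc]

theorem cat_rev_succ {n : ℕ} (v : Fin (n + 1) → F KK) :
    cat (List.ofFn v).reverse = app KK (cat (List.ofFn fun j : Fin n => v j.succ).reverse) (v 0) := by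
  rw [List.ofFn_succ, List.reverse_cons, cat_append]
  simp [cat]

theorem cat_none {n : ℕ} (v : ℕ → F KK) (h : ∀ l, v l = bas KK []) :
    cat (List.ofFn fun l : Fin n => v l).reverse = bas KK [] := by
  induction n generalizing v with
  | zero => rfl
  | succ n ih =>
    rw [cat_rev_succ]
    simp only [Fin.val_succ, Fin.val_zero]
    rw [ih (fun l => v (l + 1)) fun l => h _, h, app_nil_left]

theorem cat_one {n j : ℕ} (hj : j < n) (v : ℕ → F KK) (h : ∀ l, l ≠ j → v l = bas KK []) :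
    cat (List.ofFn fun l : Fin n => v l).reverse = v j := by
  induction n generalizing v j with
  | zero => omega
  | succ n ih =>
    rw [cat_rev_succ]
    simp only [Fin.val_succ, Fin.val_zero]
    rcases j with _ | j
    · rw [cat_none (fun l => v (l + 1)) fun l => h _ (by omega), app_nil_left]
    · rw [ih (j := j) (by omega) (fun l => v (l + 1)) fun l hl => h _ (by omega), h 0 (by omega),
        app_nil_right]

theorem cat_two {n i j : ℕ} (hij : i < j) (hj : j < n) (v : ℕ → F KK)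
    (h : ∀ l, l ≠ i → l ≠ j → v l = bas KK []) :
    cat (List.ofFn fun l : Fin n => v l).reverse = app KK (v j) (v i) := by
  induction n generalizing v i j with
  | zero => omega
  | succ n ih =>
    rw [cat_rev_succ]
    simp only [Fin.val_succ, Fin.val_zero]
    obtain ⟨j, rfl⟩ : ∃ k, j = k + 1 := ⟨j - 1, by omega⟩
    rcases i with _ | i
    · rw [cat_one (j := j) (by omega) (fun l => v (l + 1)) fun l hl => h _ (by omega) (by omega)]
    · rw [ih (i := i) (j := j) (by omega) (by omega) (fun l => v (l + 1))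
        fun l h₁ h₂ => h _ (by omega) (by omega), h 0 (by omega) (by omega), app_nil_right]

theorem chi_zero_zero (p q : ℕ) : chi p q 0 0 = 1 := by simp [chi]

/-- the value of two boxes joined by nested arcs -/
theorem pair_val {x y : ℕ × ℕ} (hx : 2 ≤ x.1 ∧ x.1.Coprime x.2) (hy : 2 ≤ y.1 ∧ y.1.Coprime y.2)
    {g g' : Box → F KK} (hg : (TF KK).Boxes x.1 x.2 g) (hg' : (TF KK).Boxes y.1 y.2 g')
    (ht : ∀ n, g (.t n) = algebraMap R KK (chi x.1 x.2 0 n) • bas KK [])
    (ht' : ∀ n, g' (.t n) = algebraMap R KK (chi y.1 y.2 0 n) • bas KK []) (k : ℕ) (n n' : ℤ) :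
    (f 0 * f k) • vρ KK (capw (List.range (2 * k))) (app KK (g' (.G k n')) (g (.G k n))) [] =
      algebraMap R KK ((-a 2) ^ k * (pf k (chi x.1 x.2 0) n * pf k (chi y.1 y.2 0) n')) := by
  obtain ⟨Φ, hΦ⟩ := model_eval [x, y] (k := KK)
    (fun j => if j = 0 then g else if j = 1 then g' else fun _ => 0) fun j => by
      rcases j with _ | _ | j
      · exact hg
      · exact hg'
      · exact TM.boxes_zero _ _ _
  have h₁ : ∀ b b' d, Φ (w2 x y b b' d) = vρ KK (capw d) (app KK (g' b') (g b)) [] := by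
    intro b b' d
    rw [w2, hΦ]
    simp [cat, List.ofFn_succ]
  have h₂ := congrArg Φ (T2_eq x y hx hy k n n')
  rw [map_smul, T2, h₁] at h₂
  rw [h₂, map_smul, map_sum, map_mul, Algebra.smul_def]
  congr 1
  have h₃ : ∀ (r : Fin (x.1 / 2 + 1)) (s : Fin (y.1 / 2 + 1)), Φ (w2 x y (.t r) (.t s) []) =
      if r = 0 then if s = 0 then 1 else 0 else 0 := by
    intro r s
    have e₁ := chi_diag x.2 hx.1 0 r
    have e₂ := chi_diag y.2 hy.1 0 s
    simp only [Fin.val_zero, Nat.cast_zero] at e₁ e₂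
    rw [h₁, ht, ht', e₁, e₂, capw_nil, map_one, map_smul, app_nil_right]
    by_cases hr : r = 0 <;> by_cases hs : s = 0 <;> simp [hr, hs, eq_comm, bas]
  simp only [map_sum, map_smul, h₃, smul_ite, smul_zero, Finset.sum_ite_irrel, Finset.sum_const_zero,
    Finset.sum_ite_eq', Finset.mem_univ, if_true]
  rw [Algebra.smul_def, mul_one]
  rfl

theorem evC_pf_one {p : ℕ} (q : ℕ) (hp : 3 ≤ p) {ζ : ℂˣ} {k : ℕ} (hk : p ∣ k)
    (h : IsPrimitiveRoot ((ζ : ℂ) ^ 4) (k + 1)) :
    evC ζ (pf k (chi p q 0) (-(k + 1))) = 1 := by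
  have h₁ : ¬ (p : ℤ) ∣ -(k + 1) - (k + 1) := by
    intro h₂
    have h₃ : (p : ℤ) ∣ 2 := by
      have h₄ : (p : ℤ) ∣ k := Int.natCast_dvd_natCast.2 hk
      have h₅ := (h₂.add (h₄.mul_left 2)).neg_right
      rwa [show -(-((k : ℤ) + 1) - (k + 1) + 2 * k) = 2 by ring] at h₅
    have := Int.le_of_dvd (by norm_num) h₃
    omega
  rw [evC_pf h, neg_add_cancel, chi_zero_zero, chi, if_neg (by simpa using h₁), map_one, map_zero,
    sub_zero]

theorem exists_functional {L : List (ℕ × ℕ)} (hL : ∀ x ∈ L, 2 ≤ x.1 ∧ x.1.Coprime x.2) {i j : ℕ}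
    (hij : i < j) (hj : j < L.length) (hpi : 3 ≤ (par L i).1) (hpj : 3 ≤ (par L j).1) :
    ∃ Φ : Model L →ₗ[R] KK, ∀ D : R, (∀ x, ∃ r : R, D • Φ x = algebraMap R KK r) → D = 0 := by
  choose g hg ht using fun l => boxes_chi (par_good hL l).1 (par_good hL l).2 0
  obtain ⟨Φ, hΦ⟩ := model_eval L g hg
  refine ⟨Φ, fun D hD => eq_zero_of_infinite ?_⟩
  set P := (par L i).1 * (par L j).1 with hP
  have hP0 : 0 < P := by positivity
  have key : ∀ (m : ℕ) (ζ : ℂˣ), IsPrimitiveRoot (ζ : ℂ) (4 * (P * m + 1)) → evC ζ D = 0 := by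
    intro m ζ hζ
    have h4 : IsPrimitiveRoot ((ζ : ℂ) ^ 4) (P * m + 1) := hζ.pow (by omega) rfl
    obtain ⟨r, hr⟩ := hD (word L (fun l => if l.1 = i ∨ l.1 = j then
      .G (P * m) (-((P * m : ℕ) + 1)) else .t 0) (List.range (2 * (P * m))))
    have h₁ := cat_two hij hj (fun l => g l (if l = i ∨ l = j then
      .G (P * m) (-((P * m : ℕ) + 1)) else .t 0)) fun l h₁ h₂ => by
        rw [if_neg (by tauto), ht, chi_zero_zero, map_one, one_smul]
    rw [hΦ, h₁, if_pos (.inr rfl), if_pos (.inl rfl)] at hr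
    have h₂ := pair_val (par_good hL i) (par_good hL j) (hg i) (hg j) (ht i) (ht j) (P * m)
      (-((P * m : ℕ) + 1)) (-((P * m : ℕ) + 1))
    have h₃ := congrArg (D • ·) h₂
    rw [smul_comm, hr, Algebra.smul_def, Algebra.smul_def, ← map_mul, ← map_mul] at h₃
    have h₄ := congrArg (evC ζ) (IsFractionRing.injective R KK h₃)
    have h₅ : evC ζ (f (P * m)) = 0 := by
      rw [f, map_sub, map_one, evC_a, show (4 * ((P * m : ℕ) : ℤ) + 4) =
        ((4 * (P * m + 1) : ℕ) : ℤ) by push_cast; ring, zpow_natCast, hζ.pow_eq_one, sub_self]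
    simp only [map_mul, h₅, mul_zero, zero_mul] at h₄
    rw [evC_pf_one _ hpi ⟨(par L j).1 * m, by rw [hP, mul_assoc]⟩ h4,
      evC_pf_one _ hpj ⟨(par L i).1 * m, by rw [hP]; ring⟩ h4, mul_one, mul_one] at h₄
    exact (mul_eq_zero.1 h₄.symm).resolve_right
      (((isUnit_a 2).neg.pow _).map (evC ζ)).ne_zero
  have ex : ∀ m : ℕ, ∃ ζ : ℂˣ, IsPrimitiveRoot (ζ : ℂ) (4 * (P * m + 1)) := fun m =>
    ⟨Units.mk0 _ (Complex.exp_ne_zero _), Complex.isPrimitiveRoot_exp _ (by omega)⟩
  choose z hz using ex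
  refine Set.infinite_of_injective_forall_mem (f := z) (fun m m' h => ?_) fun m => key m _ (hz m)
  have h₁ := (hz m).unique (h ▸ hz m')
  exact Nat.eq_of_mul_eq_mul_left hP0 (by omega)

/-- on a direct sum of cyclic modules of finite rank every functional has bounded denominators -/
theorem common_denom {S J : Type} [AddCommGroup S] [Module R S] [Finite J] (s : J → S)
    (hs : ∀ x : S, ∃ r : R, r ≠ 0 ∧ r • x ∈ Submodule.span R (Set.range s)) {ι : Type}
    {I : ι → Ideal R} (e : S ≃ₗ[R] DirectSum ι fun i => R ⧸ I i) (Φ : S →ₗ[R] KK) :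
    ∃ D : R, D ≠ 0 ∧ ∀ x, ∃ r : R, D • Φ x = algebraMap R KK r := by
  classical
  have := Fintype.ofFinite J
  let ε : ι → S := fun i => e.symm (DirectSum.lof R ι (fun i => R ⧸ I i) i 1)
  let σ : Finset ι := Finset.univ.biUnion fun j => (e (s j)).support
  have h₀ : ∀ i, i ∉ σ → Φ (ε i) = 0 := by
    intro i hi
    obtain ⟨r, hr, h⟩ := hs (ε i)
    have h₁ : DirectSum.component R ι (fun i => R ⧸ I i) i (e (r • ε i)) = 0 := by
      refine (Submodule.span_le (p := LinearMap.ker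
        (DirectSum.component R ι (fun i => R ⧸ I i) i ∘ₗ e.toLinearMap))).2 ?_ h
      rintro _ ⟨j, rfl⟩
      by_contra h₂
      exact hi (Finset.mem_biUnion.2 ⟨j, Finset.mem_univ _, DFinsupp.mem_support_iff.2 h₂⟩)
    have h₂ : r • ε i = 0 := by
      rw [map_smul, LinearEquiv.apply_symm_apply, map_smul, DirectSum.component.lof_self] at h₁
      rw [← map_smul, ← map_smul, h₁, map_zero, map_zero]
    have h₃ := congrArg Φ h₂
    rw [map_smul, map_zero, Algebra.smul_def] at h₃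
    exact (mul_eq_zero.1 h₃).resolve_left (Phi_ne hr)
  obtain ⟨D, hD⟩ := IsLocalization.exist_integer_multiples (nonZeroDivisors R) σ fun i => Φ (ε i)
  refine ⟨D, nonZeroDivisors.coe_ne_zero D, fun x => ?_⟩
  obtain ⟨y, rfl⟩ := e.symm.surjective x
  induction y using DirectSum.induction_on with
  | zero => exact ⟨0, by simp⟩
  | of i c =>
    obtain ⟨c, rfl⟩ := Ideal.Quotient.mk_surjective c
    have h₁ : e.symm (DirectSum.of (fun i => R ⧸ I i) i (Ideal.Quotient.mk _ c)) = c • ε i := by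
      rw [← map_smul, ← map_smul, ← DirectSum.lof_eq_of R, Algebra.smul_def, mul_one]
      rfl
    rw [h₁, map_smul, smul_comm]
    by_cases hi : i ∈ σ
    · obtain ⟨r, hr⟩ := hD i hi
      exact ⟨c * r, by rw [← hr, map_mul, Algebra.smul_def]⟩
    · exact ⟨0, by rw [h₀ i hi, smul_zero, smul_zero, map_zero]⟩
  | add y z hy hz =>
    obtain ⟨r, hr⟩ := hy
    obtain ⟨r', hr'⟩ := hz
    exact ⟨r + r', by rw [map_add, map_add, smul_add, hr, hr', map_add]⟩

end NotCyc

theorem not_cyclic {L : List (ℕ × ℕ)} (hL : ∀ x ∈ L, 2 ≤ x.1 ∧ x.1.Coprime x.2) {i j : ℕ}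
    (hij : i < j) (hj : j < L.length) (hpi : 3 ≤ (par L i).1) (hpj : 3 ≤ (par L j).1) {ι : Type}
    (I : ι → Ideal R) : IsEmpty (Model L ≃ₗ[R] DirectSum ι fun i => R ⧸ I i) := by
  refine ⟨fun e => ?_⟩
  obtain ⟨Φ, hΦ⟩ := NotCyc.exists_functional hL hij hj hpi hpj
  obtain ⟨D, hD, h⟩ := NotCyc.common_denom (tw L) (fun y => by
    obtain ⟨r, hr, h⟩ := exists_smul_mem_tw hL y
    exact ⟨r, ne_zero_of_mem_closure hr, h⟩) e Φ
  exact hD (hΦ D h)

end Pool.Agent.P.MP_b3a239_gt
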