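import Mathlib

/-!
Kauffman bracket skein modules of connected sums of lens spaces over `ℤ[A, A⁻¹]`.

The connected sum `L(p₁,q₁) # ⋯ # L(pₙ,qₙ)` (minus balls) is the handlebody
(disc with `n` holes) × interval with a 2-handle attached along a `(pⱼ, qⱼ)` curve on the `j`-th
handle.  Framed links in the handlebody are blackboard framed diagrams in the holed disc, cut
into horizontal slices.  A word of slices is read from the top of the picture (head of the list,
left factor of a product) to the bottom.  Strands are numbered from the left, starting at `0`.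
-/

open FreeAlgebra

noncomputable section

namespace Pool.Agent.P.MP_b3a239_gt

/-- The ground ring `ℤ[A, A⁻¹]`. -/
abbrev R : Type := LaurentPolynomial ℤ

/-- `a n = A ^ n`. -/
def a (n : ℤ) : R := LaurentPolynomial.T n

/-! ### Modules presented by words of slices -/

section Pres
variable {σ : Type} (step : σ → ℕ × ℕ → Option (ℕ × ℕ))

/-- The number of strands at the top of a word and the number of marked slices (holes or boxes)
in it; `none` if the slices do not fit together. -/
def ty : List σ → Option (ℕ × ℕ)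
  | [] => some (0, 0)
  | s :: w => (ty w).bind (step s)

/-- A word as an element of the free module on all words. -/
def wd (w : List σ) : FreeAlgebra R σ := (w.map (ι R)).prod

/-- The free `R`-module on the closed words with exactly `n` marked slices, modulo the local
relations `rel m j` that may be applied on top of a word with `m` strands and `j` marks. -/
abbrev Pres (rel : ℕ → ℕ → FreeAlgebra R σ → Prop) (n : ℕ) : Type :=
  FreeAlgebra R σ ⧸ Submodule.span R
    ({x | ∃ w, ty step w ≠ some (0, n) ∧ x = wd w} ∪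
      {x | ∃ u w m j ρ, ty step w = some (m, j) ∧ rel m j ρ ∧ x = wd u * ρ * wd w})

end Pres

/-! ### Link diagrams in the disc with holes and the skein module -/

/-- Cup, cap, crossing; in `cr s` the strand from lower left to upper right is on top iff `s`. -/
inductive Gen where
  | cup | cap | cr (s : Bool)

def Gen.src : Gen → ℕ
  | .cup => 0
  | _ => 2

def Gen.tgt : Gen → ℕ
  | .cap => 0
  | _ => 2

/-- `gen γ l`: the tangle `γ` with `l` vertical strands on its left.  `hole l`: the next hole of
the disc, with `l` vertical strands passing on its left and all others on its right. -/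
inductive Sl where
  | gen (γ : Gen) (l : ℕ) | hole (l : ℕ)

def Sl.step : Sl → ℕ × ℕ → Option (ℕ × ℕ)
  | .gen γ l, (m, j) => if l + γ.src ≤ m then some (m - γ.src + γ.tgt, j) else none
  | .hole l, (m, j) => if l ≤ m then some (m, j + 1) else none

open Sl Gen in
/-- Regular isotopy in the holed disc, applied on top of `m` strands: exchange of heights (also
with a hole, on either side), zigzags, turning crossings, Reidemeister moves II and III. -/
inductive Move (m : ℕ) : List Sl → List Sl → Prop
  | comm (γ η : Gen) (i j : ℕ) : i + γ.src + j + η.src ≤ m →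
      Move m [gen η (i + γ.tgt + j), gen γ i] [gen γ i, gen η (i + γ.src + j)]
  | holeL (γ : Gen) (i j : ℕ) : i + γ.src + j ≤ m →
      Move m [hole (i + γ.tgt + j), gen γ i] [gen γ i, hole (i + γ.src + j)]
  | holeR (γ : Gen) (l j : ℕ) : l + j + γ.src ≤ m →
      Move m [hole l, gen γ (l + j)] [gen γ (l + j), hole l]
  | zig (i : ℕ) : i + 1 ≤ m → Move m [gen cap (i + 1), gen cup i] []
  | zag (i : ℕ) : i + 1 ≤ m → Move m [gen cap i, gen cup (i + 1)] []
  | cupSlide (s : Bool) (i : ℕ) : i + 1 ≤ m →
      Move m [gen (cr s) i, gen cup (i + 1)] [gen (cr !s) (i + 1), gen cup i]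
  | capSlide (s : Bool) (i : ℕ) : i + 3 ≤ m →
      Move m [gen cap (i + 1), gen (cr s) i] [gen cap i, gen (cr !s) (i + 1)]
  | reid2 (s : Bool) (i : ℕ) : i + 2 ≤ m → Move m [gen (cr !s) i, gen (cr s) i] []
  | reid3 (r s t : Bool) (i : ℕ) : r = s ∨ s = t → i + 3 ≤ m →
      Move m [gen (cr t) i, gen (cr s) (i + 1), gen (cr r) i]
        [gen (cr r) (i + 1), gen (cr s) i, gen (cr t) (i + 1)]

/-- Strand `i` moves to the right across `l` strands, over them iff `s`. -/
def passR (s : Bool) (i : ℕ) : ℕ → List Sl
  | 0 => []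
  | l + 1 => .gen (.cr s) (i + l) :: passR s i l

/-- Strand `i + l` moves to the left across `l` strands, under them iff `s`. -/
def passL (s : Bool) (i : ℕ) : ℕ → List Sl
  | 0 => []
  | l + 1 => passL s i l ++ [.gen (.cr s) (i + l)]

/-- `(top, l, bot)` is the piece of diagram `top ++ [hole l] ++ bot` in which `top` has two more
input strands `0, 1`; they start at two points `P, Q` on the left boundary just above the hole.
`drag true` drags `Q` once along the longitude of the handle (over all strands, around the hole),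
`drag false` once along the meridian (under the `l` strands, through the hole, back over them). -/
def drag : Bool → List Sl × ℕ × List Sl → List Sl × ℕ × List Sl
  | true, (top, l, bot) =>
      (top ++ passL false 1 l ++ [.gen .cap (l + 1)] ++ passR true 1 l, l + 1, .gen .cup l :: bot)
  | false, (top, l, bot) => (top ++ passL false 1 l ++ passR false 1 l, l, bot)

/-- Join `P` and `Q` by a cup. -/
def close : List Sl × ℕ × List Sl → List Sl
  | (top, l, bot) => top ++ [.gen .cup 0, .hole l] ++ bot

/-- `(p, q, x, y)` stands for the simple closed curve `p x + q y` on the torus, where the simple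
loops `x, y` (words in two letters) meet once.  One step of the Euclidean algorithm writes the same
curve in a new pair of such loops (a Dehn twist). -/
def twist : ℕ × ℕ × List Bool × List Bool → ℕ × ℕ × List Bool × List Bool
  | (p, q, x, y) => if p = 0 ∨ q = 0 then (p, q, x, y) else
      if q ≤ p then (p - q, q, x, y ++ x) else (p, q - p, y ++ x, y)

/-- For coprime `p, q` with `q ≥ 1` the algorithm stops at `(0, 1, _, w)` after at most `p + q`
steps; `w` is the curve `p x + q y` as a word. -/
def curve (p q : ℕ) (x y : List Bool) : List Bool := (twist^[p + q] (p, q, x, y)).2.2.2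

/-- Isotopy, the Kauffman bracket relations, and the slide over the 2-handle of the `j`-th
summand: a small cup at the left boundary just above the `j`-th hole is band summed with the curve
`p · longitude + q · meridian`; the factor `(-A³)^(p+q-1)` turns the blackboard framing of the
drawn curve into the framing parallel to the boundary torus. -/
inductive SkeinRel (pq : ℕ → ℕ × ℕ) (m j : ℕ) : FreeAlgebra R Sl → Prop
  | isotopy (x y : List Sl) : Move m x y → SkeinRel pq m j (wd x - wd y)
  | skein (s : Bool) (i : ℕ) : i + 2 ≤ m → SkeinRel pq m j (wd [.gen (.cr s) i] -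
      a (if s then 1 else -1) • 1 - a (if s then -1 else 1) • wd [.gen .cup i, .gen .cap i])
  | loop (i : ℕ) : i ≤ m →
      SkeinRel pq m j (wd [.gen .cap i, .gen .cup i] + (a 2 + a (-2)) • 1)
  | slide (l : ℕ) : l ≤ m → SkeinRel pq m j
      (wd (close ((curve (pq j).1 (pq j).2 [true] [false]).foldr drag ([], l, []))) -
        (-a 3) ^ ((pq j).1 + (pq j).2 - 1) • wd (close ([], l, [])))

/-- The parameters of the `j`-th summand. -/
def par (L : List (ℕ × ℕ)) (j : ℕ) : ℕ × ℕ := L.getD j (2, 1)

/-- The Kauffman bracket skein module of the connected sum of the lens spaces `L(p, q)`,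
`(p, q) ∈ L`. -/
abbrev Skein (L : List (ℕ × ℕ)) : Type := Pres Sl.step (SkeinRel (par L)) L.length

/-! ### The presentation -/

/-- Generators of one summand: `G k n` has `2 k` legs, `t n` has none. -/
inductive Box where
  | G (k : ℕ) (n : ℤ) | t (n : ℤ)

def Box.legs : Box → ℕ
  | .G k _ => 2 * k
  | .t _ => 0

/-- Planar words: cups, caps, and boxes whose legs become the leftmost strands.  The `j`-th box
from the bottom belongs to the `j`-th summand. -/
inductive Pl where
  | u (l : ℕ) | c (l : ℕ) | box (b : Box)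

def Pl.step : Pl → ℕ × ℕ → Option (ℕ × ℕ)
  | .u l, (m, j) => if l ≤ m then some (m + 2, j) else none
  | .c l, (m, j) => if l + 2 ≤ m then some (m - 2, j) else none
  | .box b, (m, j) => some (m + b.legs, j + 1)

abbrev PA : Type := FreeAlgebra R Pl

def cup (l : ℕ) : PA := ι R (.u l)
def cap (l : ℕ) : PA := ι R (.c l)
def G (k : ℕ) (n : ℤ) : PA := ι R (.box (.G k n))
def t (n : ℤ) : PA := ι R (.box (.t n))

/-- `f k = 1 - A ^ (4 k + 4)`. -/
def f (k : ℕ) : R := 1 - a (4 * k + 4)

/-- Gaussian binomial coefficient in the variable `A ^ 4`. -/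
def gauss : ℕ → ℕ → R
  | _, 0 => 1
  | 0, _ + 1 => 0
  | n + 1, i + 1 => gauss n i + a (4 * (i + 1)) * gauss n (i + 1)

/-- A combination of cups from `2 k` to `2 k + 2` strands. -/
def Rt (k : ℕ) : PA := -∑ j ∈ Finset.range (k + 1), (a (2 * j + 2) * f (k - j)) • cup (k + j)

/-- `low k i n = Rt (k-1) ⋯ Rt (k-i) G (k-i) n` for `i ≤ k`, with `t n` in place of the last
factor for `i = k + 1`, and `0` for `i > k + 1`. -/
def low : ℕ → ℕ → ℤ → PA
  | k, 0, n => G k n
  | 0, i + 1, n => if i = 0 then t n else 0
  | k + 1, i + 1, n => Rt k * low k i n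

/-- A Temperley-Lieb morphism from `2 k` to `2 k + 2` strands. -/
def Tt (k : ℕ) : PA :=
  ∑ j ∈ Finset.range (k + 1), a (2 * j - 4 * k) • cup (k + j) +
    ∑ i ∈ Finset.range k, a (-2 * i - 2 * k) • cup i +
    ∑ i ∈ Finset.range k, ∑ j ∈ Finset.range k,
      a (2 * (j - i - k + 1)) • (cup i * cup (k - 1 + j) * cap (k - 1))

/-- Nesting: one more arc around everything. -/
def nest : PA →ₐ[R] PA := lift R fun
  | .u l => cup (l + 1)
  | .c l => cap (l + 1)
  | .box (.G k n) => G (k + 1) n - a (-2) • (Tt k * G k (n - 1))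
  | .box (.t _) => 0

/-- `Om k n = G k n + terms with G j (n + j - k)`, `j < k`. -/
def Om (k : ℕ) (n : ℤ) : PA := nest^[k] (G 0 n)

/-- Temperley-Lieb relations (planar isotopy and the loop value) on top of `m` strands. -/
inductive PlanarRel (m : ℕ) : PA → Prop
  | uu (i j : ℕ) : i ≤ j → PlanarRel m (cup (j + 2) * cup i - cup i * cup j)
  | cc (i j : ℕ) : i ≤ j → PlanarRel m (cap j * cap i - cap i * cap (j + 2))
  | cu (i j : ℕ) : i ≤ j → PlanarRel m (cap (j + 2) * cup i - cup i * cap j)
  | uc (i j : ℕ) : i ≤ j → PlanarRel m (cap i * cup (j + 2) - cup j * cap i)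
  | loop (i : ℕ) : i ≤ m → PlanarRel m (cap i * cup i + (a 2 + a (-2)) • 1)
  | zig (i : ℕ) : i + 1 ≤ m → PlanarRel m (cap (i + 1) * cup i - 1)
  | zag (i : ℕ) : i + 1 ≤ m → PlanarRel m (cap i * cup (i + 1) - 1)
  | bu (b : Box) (i : ℕ) :
      PlanarRel m (cup (i + b.legs) * ι R (.box b) - ι R (.box b) * cup i)
  | bc (b : Box) (i : ℕ) :
      PlanarRel m (cap (i + b.legs) * ι R (.box b) - ι R (.box b) * cap i)

/-- The relations of the summand `L(p, q)`. -/
inductive BoxRel (p q : ℕ) : PA → Prop
  | capG (k i : ℕ) (n : ℤ) : i + 2 ≤ 2 * k → i + 1 ≠ k → BoxRel p q (cap i * G k n)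
  | capMid (k : ℕ) (n : ℤ) :
      BoxRel p q (cap k * G (k + 1) n - G k (n + 1) + a (-4 * (k + 1)) • G k (n - 1))
  | sphere (k : ℕ) (n : ℤ) :
      BoxRel p q (f k • G k n - low k 1 (n + 1) + a (-4 * k) • low k 1 (n - 1))
  | lensG (k : ℕ) (n : ℤ) : BoxRel p q (G k (n + p) + ∑ i ∈ Finset.range (q + 1),
      ((-1) ^ q * a (-(p * q) - 2 * q * (n + k + 1) + 4 * i * (i - 1 - k)) * gauss q i) •
        low k i (n - i))
  | lenst (n : ℤ) : BoxRel p q (t (n + p) + ((-1) ^ q * a (-(p * q) - 2 * q * n)) • t n)
  | sym (k : ℕ) (n : ℤ) : BoxRel p q (Om k n + Om k (-n))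
  | zero (k : ℕ) : BoxRel p q (Om k 0)

/-- The presented module. -/
abbrev Model (L : List (ℕ × ℕ)) : Type :=
  Pres Pl.step (fun m j x => PlanarRel m x ∨ BoxRel (par L j).1 (par L j).2 x) L.length

/-- The class of the word that puts one box `b j` for every summand and then the caps `d`. -/
def word (L : List (ℕ × ℕ)) (b : Fin L.length → Box) (d : List ℕ) : Model L :=
  Submodule.Quotient.mk (wd (d.map .c ++ (List.ofFn fun j => .box (b j)).reverse))

/-- The boxes `G k n` with `1 ≤ n ≤ p / 2`, `t 0` and `t 1`. -/
def Box.Normal (p : ℕ) : Box → Prop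
  | .G _ n => 1 ≤ n ∧ n ≤ (p / 2 : ℕ)
  | .t n => n = 0 ∨ n = 1

/-- `chi p q r n` is `± A ^ (-q (n² - r²) / p)` if `n ≡ ± r` modulo `p`, and `0` otherwise. -/
def chi (p q : ℕ) (r n : ℤ) : R :=
  if (p : ℤ) ∣ n - r ∨ (p : ℤ) ∣ n + r then
    (((q + 1) * (n - r)).negOnePow : ℤˣ) • a (-(q * ((n ^ 2 - r ^ 2) / p))) else 0

/-- Tuples `(r j)` with `0 ≤ r j ≤ p j / 2`. -/
abbrev Idx (L : List (ℕ × ℕ)) : Type := ∀ j : Fin L.length, Fin ((par L j).1 / 2 + 1)

end Pool.Agent.P.MP_b3a239_gt
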