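import Pool.Agent.P.MP_b3a239_gt.Local

/-! The lens relations in closed form. -/

set_option maxSynthPendingDepth 3

noncomputable section

namespace Pool.Agent.P.MP_b3a239_gt

variable {B : Type} [AddCommGroup B] [Module R B] {T : TM B} {p q : ℕ}

theorem Lens_cinv (p q : ℕ) (w : FM) :
    cmap (cinv p q) w = ((-1) ^ q * a (-(p * q))) • cmap (Yc (-q)) (XX (-p) • w) :=
  Finsupp.ext fun u => cinv_eq p q (w u)

theorem Lens_succ (q : ℕ) (w : FM) :
    cmap (Yc (-(q + 1 : ℕ))) w = cmap (Yc (-1)) (cmap (Yc (-q)) w) := by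
  rw [cmap_cmap, Yc_comp, Nat.cast_succ, neg_add, add_comm]

theorem Lens_zero (w : FM) : cmap (Yc (-(0 : ℕ))) w = w := by
  rw [Nat.cast_zero, neg_zero, Yc_zero, cmap_id]

theorem Lens_ypow (q : ℕ) {v : LL} {w : FM} (h : (v : NN) = ER.mkQ w) :
    ((yT⁻¹ ^ q).1 v : NN) = ER.mkQ (((-1) ^ q : R) • cmap (Yc (-q)) w) := by
  induction q with
  | zero => rw [Lens_zero, pow_zero, pow_zero, one_smul]; exact h
  | succ q ih =>
    rw [pow_succ', Units.val_mul, Module.End.mul_apply, yT_inv_coe ih, Lens_succ, map_smul,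
      pow_succ, mul_neg_one, neg_smul]

theorem Lens_gauss : ∀ n i : ℕ, n < i → gauss n i = 0
  | _, 0, h => absurd h (Nat.not_lt_zero _)
  | 0, _ + 1, _ => rfl
  | n + 1, i + 1, h => by
    rw [gauss, Lens_gauss n i (by omega), Lens_gauss n (i + 1) (by omega), mul_zero, add_zero]

theorem Lens_gauss_zero (n : ℕ) : gauss n 0 = 1 := by cases n <;> rfl

theorem Lens_low_zero (k : ℕ) (n : ℤ) : low k 0 n = bx (.G k n) := by cases k <;> rfl

theorem Lens_low_one (k : ℕ) (n : ℤ) : low (k + 1) 1 n = emb (RtF k) * bx (.G k n) := by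
  rw [emb_RtF, ← Lens_low_zero]
  rfl

theorem Lens_low : ∀ (k i : ℕ) (n : ℤ), k + 1 < i → low k i n = 0
  | _, 0, _, h => absurd h (Nat.not_lt_zero _)
  | 0, i + 1, n, h => by rw [low, if_neg (by omega)]
  | k + 1, i + 1, n, h => by rw [low, Lens_low k i n (by omega), mul_zero]

theorem Lens_Yc_low (k i : ℕ) (n : ℤ) :
    cmap (Yc (-1)) (ev (vρ MM) vec (low k i n)) - a (-2 * (n + k - i + 1)) •
      (ev (vρ MM) vec (low k i n) + a (-4 * (k - i)) • ev (vρ MM) vec (low k (i + 1) (n - 1))) ∈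
        ER := by
  rcases le_or_gt i (k + 1) with h | h
  · exact Yc_low k i n h
  · rw [Lens_low k i n h, Lens_low k (i + 1) _ (by omega)]
    simp

theorem Lens_pascal (L : ℕ → B) (q k : ℕ) (n : ℤ) :
    ∑ i ∈ Finset.range (q + 1 + 1),
      (a (-(2 * (q + 1 : ℕ) * (n + k + 1)) + 4 * i * (i - 1 - k)) * gauss (q + 1) i) • L i =
    ∑ i ∈ Finset.range (q + 1), (a (-(2 * q * (n + k + 1)) + 4 * i * (i - 1 - k)) * gauss q i) •
      a (-2 * (n - i + k - i + 1)) • (L i + a (-4 * (k - i)) • L (i + 1)) := by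
  have h : ∑ i ∈ Finset.range (q + 1 + 1), (a (-(2 * q * (n + k + 1)) + 4 * i * (i - 1 - k)) *
      gauss q i) • a (-2 * (n - i + k - i + 1)) • L i = ∑ i ∈ Finset.range (q + 1),
      (a (-(2 * q * (n + k + 1)) + 4 * i * (i - 1 - k)) * gauss q i) •
        a (-2 * (n - i + k - i + 1)) • L i := by
    rw [Finset.sum_range_succ, Lens_gauss q (q + 1) (by omega), mul_zero, zero_smul, add_zero]
  simp only [smul_add, Finset.sum_add_distrib]
  rw [← h, Finset.sum_range_succ' _ (q + 1), Finset.sum_range_succ' _ (q + 1),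
    add_right_comm (Finset.sum _ _), ← Finset.sum_add_distrib]
  have key : ∀ (m m₁ m₂ : ℤ) (g : R), m = m₁ + m₂ → a m * g = a m₁ * g * a m₂ := by
    rintro _ m₁ m₂ g rfl
    rw [a_add]
    ring
  congr 1
  · refine Finset.sum_congr rfl fun i _ => ?_
    rw [gauss, smul_smul, smul_smul, smul_smul, ← add_smul, mul_add, add_comm, ← mul_assoc,
      ← a_add, mul_assoc (a _ * gauss q i), ← a_add]
    congr 2 <;> refine key _ _ _ _ ?_ <;> push_cast <;> ring
  · rw [Lens_gauss_zero, Lens_gauss_zero, smul_smul]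
    congr 1
    refine key _ _ _ _ ?_
    push_cast
    ring

theorem Lens_ER (χ : MM →ₗ[R] MM) {w : FM} (h : w ∈ ER) : cmap χ w ∈ ER := by
  obtain ⟨u, rfl⟩ := h
  exact ⟨_, (cmap_Et χ u).symm⟩

theorem cT_inv_coe (hp : 2 ≤ p) (hpq : p.Coprime q) {v : LL} {w : FM} (h : (v : NN) = ER.mkQ w) :
    ((euc tm p q xT yT).2⁻¹.1 v : NN) = ER.mkQ (cmap (cinv p q) w) := by
  have hq : 1 ≤ q := Nat.pos_of_ne_zero fun h0 => by
    rw [h0, Nat.coprime_zero_right] at hpq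
    omega
  have h1 : ((sc (Module.End R LL) (-(p * q))).1 v : NN) = ER.mkQ (a (-(p * q)) • w) := by
    rw [sc_apply, Submodule.coe_smul, h, map_smul]
  rw [euc_tm_snd hq hpq sys_L.tor, mul_inv_rev, mul_inv_rev, sc_inv, ← inv_pow, ← zpow_natCast xT,
    ← zpow_neg, Units.val_mul, Units.val_mul, Module.End.mul_apply, Module.End.mul_apply,
    Lens_ypow q (xT_zpow_coe _ h1), Lens_cinv, smul_comm (XX _), map_smul (cmap _), smul_smul]

theorem Yc_pow_G (q k : ℕ) (n : ℤ) :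
    cmap (Yc (-q)) (vec (.G k n)) - ∑ i ∈ Finset.range (q + 1),
      (a (-(2 * q * (n + k + 1)) + 4 * i * (i - 1 - k)) * gauss q i) •
        ev (vρ MM) vec (low k i (n - i)) ∈ ER := by
  induction q with
  | zero => simp [Lens_gauss_zero, Lens_low_zero, Yc_zero, cmap_id]
  | succ q ih =>
    have h := ER.add_mem (Lens_ER (Yc (-1)) ih) (ER.sum_mem (t := Finset.range (q + 1)) fun i _ =>
      ER.smul_mem (a (-(2 * q * (n + k + 1)) + 4 * i * (i - 1 - k)) * gauss q i)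
        (Lens_Yc_low k i (n - i)))
    rw [Lens_pascal (fun i => ev (vρ MM) vec (low k i (n - i))), Lens_succ]
    simp only [map_sub, map_sum, map_smul, smul_sub, Finset.sum_sub_distrib, sub_add_sub_cancel,
      sub_sub n] at h
    exact_mod_cast h

theorem Lens_G (k : ℕ) (n : ℤ) : G k n = bx (.G k n) := rfl
theorem Lens_t (n : ℤ) : t n = bx (.t n) := rfl

theorem Lens_c (hp : 2 ≤ p) (hpq : p.Coprime q) (b : Box) :
    (((euc tm p q xT yT).2⁻¹.1 + 1) (bL b) : NN) = ER.mkQ (vec b + cmap (cinv p q) (vec b)) := by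
  rw [LinearMap.add_apply, Submodule.coe_add, cT_inv_coe hp hpq (bL_coe b), map_add, add_comm]
  rfl

theorem Lens_lensG (hp : 2 ≤ p) (hpq : p.Coprime q) (k : ℕ) (n : ℤ) :
    ev TL.ρ bL (G k (n + p) + ∑ i ∈ Finset.range (q + 1),
      ((-1) ^ q * a (-(p * q) - 2 * q * (n + k + 1) + 4 * i * (i - 1 - k)) * gauss q i) •
        low k i (n - i)) = ((euc tm p q xT yT).2⁻¹.1 + 1) (bL (.G k (n + p))) := by
  obtain ⟨m, hm⟩ := (BoxRel.lensG (p := p) (q := q) k n).rep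
  refine Subtype.ext ?_
  have e : XX (-p) • vec (.G k (n + p)) = vec (.G k n) := by
    rw [vec, vec, smul_smul, ← mul_assoc, ← XX_add, add_comm n, neg_add_cancel_left]
  have h := ER.smul_mem ((-1) ^ q * a (-(p * q))) (Yc_pow_G q k n)
  rw [ev_bL_coe hm, Lens_c hp hpq, Lens_cinv, e, eq_comm, Submodule.mkQ_apply,
    Submodule.mkQ_apply, Submodule.Quotient.eq, map_add, Lens_G, ev_bx, add_sub_add_left_eq_sub,
    map_sum]
  rw [smul_sub, Finset.smul_sum] at h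
  refine (congrArg (· ∈ ER) (congrArg _ (Finset.sum_congr rfl fun i _ => ?_))).mp h
  rw [map_smul, smul_smul, sub_eq_add_neg (-(p * q : ℤ)), add_assoc (-(p * q : ℤ)),
    a_add (-(p * q : ℤ))]
  simp only [mul_assoc]

theorem Lens_lenst (hp : 2 ≤ p) (hpq : p.Coprime q) (n : ℤ) :
    ev TL.ρ bL (t (n + p) + ((-1) ^ q * a (-(p * q) - 2 * q * n)) • t n) =
      ((euc tm p q xT yT).2⁻¹.1 + 1) (bL (.t (n + p))) := by
  obtain ⟨m, hm⟩ := (BoxRel.lenst (p := p) (q := q) n).rep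
  refine Subtype.ext ?_
  rw [ev_bL_coe hm, Lens_c hp hpq, map_add (ev _ _), map_smul, Lens_t, Lens_t, ev_bx, ev_bx]
  refine congrArg (fun w => ER.mkQ (vec (.t (n + p)) + w)) ?_
  rw [vec, vec, cmap_smul_bas, map_smul, cinv, cf_XX, add_sub_cancel_right, ← smul_assoc,
    smul_comm (f 0)]

theorem Lens_om (l : ℕ) : αL (om l) = ev TL.ρ bL (Om l 0) := by
  rw [← αL_om, zpow_zero]
  rfl

theorem Lens_nat (p q : ℕ) : GMap TL TL ((euc tm p q xT yT).2⁻¹.1 + 1) :=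
  (((euc_tm_mem TL.natU TL.sc_mem_natU p q xT yT).2 ⟨xT_nat, yT_nat⟩).2.2.add
    (TM.Natl.one TL)).gmap

theorem local_rel (hp : 2 ≤ p) (hpq : p.Coprime q) {x : PA} (h : BoxRel p q x) :
    ev TL.ρ bL x ∈ JL p q := by
  have z : ∀ {v : LL}, v = 0 → v ∈ JL p q := fun h => h ▸ Submodule.zero_mem _
  cases h with
  | capG k i n h1 h2 =>
    refine z ?_
    rw [← emb_C, ev_emb_mul, Lens_G, ev_bx, sph_bL.capG k i n h1 h2]
  | capMid k n =>
    refine z ?_
    rw [map_add, map_sub, map_smul, ← emb_C, ev_emb_mul, Lens_G, Lens_G, Lens_G, ev_bx, ev_bx,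
      ev_bx, sph_bL.capMid]
    abel
  | sphere k n =>
    refine z ?_
    rw [map_add, map_sub, map_smul, map_smul, Lens_G, ev_bx]
    cases k with
    | zero =>
      rw [low, low, if_pos rfl, if_pos rfl, Lens_t, Lens_t, ev_bx, ev_bx, sph_bL.sph₀]
      simp
    | succ k =>
      rw [Lens_low_one, Lens_low_one, ev_emb_mul, ev_emb_mul, ev_bx, ev_bx,
        sph_bL.sph, map_sub, map_smul, Nat.cast_succ]
      abel
  | lensG k n =>
    rw [Lens_lensG hp hpq]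
    exact Submodule.mem_sup_left ⟨_, rfl⟩
  | lenst n =>
    rw [Lens_lenst hp hpq]
    exact Submodule.mem_sup_left ⟨_, rfl⟩
  | sym k n =>
    refine Submodule.mem_sup_right ⟨⟨(XX n + XX (-n)) • omF k, Submodule.mem_iSup_of_mem (2 * k)
      (sym_smul_mem_Gn n ((TF MM).gen_mem_Gn omF (fun l => 2 * l) k))⟩, Subtype.ext ?_⟩
    rw [αL_coe, ev_bL_coe ((Rep _).add_mem (Om_mem_Rep k n) (Om_mem_Rep k (-n))), map_add (ev _ _),
      ev_Om, ev_Om, smul_smul, ← add_smul, ← add_mul, mul_comm]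
  | zero k => exact Submodule.mem_sup_right ⟨_, Lens_om k⟩

theorem local_iota (hp : 2 ≤ p) (hpq : p.Coprime q) {g : Box → B} (h : T.Boxes p q g) :
    ∃ φ : LL →ₗ[R] B, GMap TL T φ ∧ (∀ b, φ (bL b) = g b) ∧ ∀ v ∈ JL p q, φ v = 0 := by
  obtain ⟨φ, hφ, hb⟩ := L_lift h.sph
  have key : ∀ x, BoxRel p q x → φ (ev TL.ρ bL x) = 0 := fun x hx => by
    obtain ⟨m, hm⟩ := hx.rep
    rw [hφ.ev bL_mem hm, funext hb, h.rel x hx]
  have h1 : φ ∘ₗ ((euc tm p q xT yT).2⁻¹.1 + 1) = 0 := by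
    refine L_ext (hφ.comp (Lens_nat p q)) (GMap.zero TL T) fun b => ?_
    rw [LinearMap.comp_apply, LinearMap.zero_apply]
    cases b with
    | G k n => rw [← sub_add_cancel n p, ← Lens_lensG hp hpq, key _ (.lensG k _)]
    | t n => rw [← sub_add_cancel n p, ← Lens_lenst hp hpq, key _ (.lenst _)]
  have h2 : φ ∘ₗ αL = 0 := V_ext (hφ.comp αL_gmap) (GMap.zero TV T) fun l => by
    rw [LinearMap.comp_apply, LinearMap.zero_apply, Lens_om, key _ (.zero l)]
  exact ⟨φ, hφ, hb, fun v hv => (sup_le (LinearMap.range_le_ker_iff.2 h1)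
    (LinearMap.range_le_ker_iff.2 h2) : JL p q ≤ LinearMap.ker φ) hv⟩

theorem boxes_of_theta (hp : 2 ≤ p) (hpq : p.Coprime q) {Θ : LL →ₗ[R] B} (hΘ : GMap TL T Θ)
    (h : ∀ v ∈ JL p q, Θ v = 0) : T.Boxes p q fun b => Θ (bL b) := by
  refine ⟨fun b => hΘ.mem (bL_mem b), fun x hx => ?_⟩
  obtain ⟨m, hm⟩ := hx.rep
  rw [← hΘ.ev bL_mem hm, h _ (local_rel hp hpq hx)]

theorem boxes_of_kill (hp : 2 ≤ p) (hpq : p.Coprime q) {Ψ : FM →ₗ[R] B} (hΨ : GMap (TF MM) T Ψ)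
    (hE : ∀ w, Ψ (Et MM w) = 0) (hc : ∀ w, Ψ (cmap (cinv p q) w) = -Ψ w)
    (hV : ∀ l, Ψ (dl • omF l) = 0) : T.Boxes p q fun b => Ψ (vec b) := by
  have hk : ER ≤ LinearMap.ker Ψ := by
    rintro _ ⟨w, rfl⟩
    exact hE w
  have e : ∀ w, ER.liftQ Ψ hk (ER.mkQ w) = Ψ w := fun _ => rfl
  have g1 : GMap TN T (ER.liftQ Ψ hk) := by
    refine ⟨?_, ?_, ?_⟩
    · rintro m _ ⟨w, hw, rfl⟩
      exact hΨ.mem hw
    · rintro l m _ hl ⟨w, hw, rfl⟩
      exact hΨ.natU hl hw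
    · rintro l m _ hl ⟨w, hw, rfl⟩
      exact hΨ.natC hl hw
  have g2 : GMap TL T (ER.liftQ Ψ hk ∘ₗ LS.subtype) := g1.comp TM.gen_gmap
  have h1 : (ER.liftQ Ψ hk ∘ₗ LS.subtype) ∘ₗ ((euc tm p q xT yT).2⁻¹.1 + 1) = 0 := by
    refine L_ext (g2.comp (Lens_nat p q)) (GMap.zero TL T) fun b => ?_
    rw [LinearMap.comp_apply, LinearMap.comp_apply, Submodule.subtype_apply, Lens_c hp hpq, e,
      map_add, hc, add_neg_cancel, LinearMap.zero_apply]
  have h2 : (ER.liftQ Ψ hk ∘ₗ LS.subtype) ∘ₗ αL = 0 :=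
    V_ext (g2.comp αL_gmap) (GMap.zero TV T) fun l => by
      rw [LinearMap.comp_apply, LinearMap.comp_apply, Submodule.subtype_apply, αL_coe, e, om_coe, hV,
        LinearMap.zero_apply]
  exact boxes_of_theta hp hpq g2 fun v hv => (sup_le (LinearMap.range_le_ker_iff.2 h1)
    (LinearMap.range_le_ker_iff.2 h2) : JL p q ≤ LinearMap.ker _) hv

end Pool.Agent.P.MP_b3a239_gt
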