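import Pool.Agent.P.MP_b3a239_gt.SkLift
import Pool.Agent.P.MP_b3a239_gt.Lens

/-! The skein module is the presented module. -/

set_option maxSynthPendingDepth 3

open FreeAlgebra

noncomputable section

namespace Pool.Agent.P.MP_b3a239_gt

/-- two natural families of operators that are intertwined on generators are intertwined -/
private theorem intertwine {B I O O' : Type} [AddCommGroup B] [Module R B] [AddCommGroup O]
    [Module R O] [AddCommGroup O'] [Module R O'] {T : TM B} {g : I → B} {lv : I → ℕ}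
    (hg : ∀ i, g i ∈ T.Lv (lv i)) (hlv : ∀ m, T.Lv m ≤ T.Gn g lv m) (htop : ⨆ m, T.Lv m = ⊤)
    {Γ : GT O} {Γ' : GT O'} {j : ℕ} {ψ : B →ₗ[R] Module.End R O} {ψ' : B →ₗ[R] Module.End R O'}
    (hψ : GMap T (Γ.hom j) ψ) (hψ' : GMap T (Γ'.hom j) ψ') (φ : O →ₗ[R] O')
    (hφ : ∀ x y, φ (Γ.ρ x y) = Γ'.ρ x (φ y)) (h : ∀ i y, φ (ψ (g i) y) = ψ' (g i) (φ y)) (v : B)
    (y : O) : φ (ψ v y) = ψ' v (φ y) := by
  let S : Submodule R B := LinearMap.eqLocus
    ((LinearMap.llcomp R O O O' φ) ∘ₗ ψ) ((LinearMap.lcomp R O' φ) ∘ₗ ψ')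
  have hS : ∀ v, v ∈ S ↔ ∀ y, φ (ψ v y) = ψ' v (φ y) := fun v => by
    simp [S, LinearMap.mem_eqLocus, LinearMap.ext_iff]
  have key : ∀ m, T.Gn g lv m ≤ S := by
    intro m
    refine TM.Gn_ind hg (fun _ => S) (fun i => (hS _).2 (h i)) ?_ ?_ m
    · intro l m w hl hw hw'
      have hw₁ := TM.Gn_le hg m hw
      refine (hS _).2 fun y => ?_
      rw [hψ.natU hl hw₁, hψ'.natU hl hw₁, GT.hom_ρ, GT.hom_ρ, Module.End.mul_apply,
        Module.End.mul_apply, hφ, (hS _).1 hw']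
    · intro l m w hl hw hw'
      have hw₁ := TM.Gn_le hg _ hw
      refine (hS _).2 fun y => ?_
      rw [hψ.natC hl hw₁, hψ'.natC hl hw₁, GT.hom_ρ, GT.hom_ρ, Module.End.mul_apply,
        Module.End.mul_apply, hφ, (hS _).1 hw']
  have : (⊤ : Submodule R B) ≤ S := by
    rw [← htop]
    exact iSup_le fun m => (hlv m).trans (key m)
  exact (hS v).1 (this trivial) y

theorem skein_equiv {L : List (ℕ × ℕ)} (hL : ∀ x ∈ L, 2 ≤ x.1 ∧ x.1.Coprime x.2) :
    Nonempty (Skein L ≃ₗ[R] Model L) := by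
  have hp := par_adm hL
  choose ιg hι₁ hι₂ hι₃ using fun j => local_iota (hp j).1 (hp j).2 (boxes_gP L j)
  let ψ : ℕ → V →ₗ[R] Module.End R (OP L) := fun j => ιg j ∘ₗ φL (par L j).1 (par L j).2
  have hψ : ∀ j, GMap TV ((ΓP L).hom j) (ψ j) := fun j => (hι₁ j).comp (φL_gmap _ _)
  obtain ⟨al, al₀, al₁, al₂, al₃⟩ := skein_lift L (ΓP L) ψ hψ (fun j l => by
    have := hι₃ j _ (local_slide (hp j).1 (hp j).2 (El l))
    rw [map_sub, map_smul, sub_eq_zero] at this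
    exact this) (mkO _ _ 1) (by rw [ΓP_Cp]; exact one_mem_Cp)
  choose Ψ hΨ₁ hΨ₂ hΨ₃ using exists_ΨS L
  choose Θ hΘ₁ hΘ₂ hΘ₃ using fun j => local_theta (hp j).1 (hp j).2 (hΨ₁ j) (hΨ₃ j)
  obtain ⟨be, be₀, be₁, be₂, be₃⟩ := planar_lift L (ΓS L) (fun j b => Θ j (bL b))
    (fun j => boxes_of_theta (hp j).1 (hp j).2 (hΘ₁ j) (hΘ₃ j)) (mkO _ _ 1)
    (by rw [ΓS_Cp]; exact one_mem_Cp)
  have hc : ∀ j v y, be (ιg j v y) = Θ j v (be y) := fun j =>
    intertwine bL_mem TL_Lv_le TL_strict.top (hι₁ j) (hΘ₁ j) be be₂ fun b y => by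
      rw [hι₂, be₃]
  have hd : ∀ j w y, al (Ψ j w y) = ψ j w (al y) := fun j =>
    intertwine om_mem TV_Lv_le TV_strict.top (hΨ₁ j) (hψ j) al al₂ fun l y => by
      have := (ΓS L).ext (φ := al ∘ₗ Ψ j (om l)) (ψ := ψ j (om l) ∘ₗ al) fun m j' w hw => by
        rw [LinearMap.comp_apply, LinearMap.comp_apply]
        by_cases hj : j' = j
        · subst hj
          have h₁ : (ΓS L).ρ (cupC l) w ∈ (ΓS L).Cp (m + 2 * l) j' :=
            ((ΓS L).tm j').mem (loc_cupC l m) hw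
          rw [hΨ₂, oS, Module.End.mul_apply, Module.End.mul_apply, (ΓS L).pr_eq hw, if_pos rfl,
            al₃ j' l _ (by omega) _ h₁, al₂, GT.hole_cupC (hψ j') l (al₁ _ _ _ hw)]
        · rw [((hΨ₁ j).mem (om_mem l)).1 m j' hj w hw,
            ((hψ j).mem (om_mem l)).1 m j' hj _ (al₁ _ _ _ hw), map_zero]
      exact congr($this y)
  have hd' : ∀ j v y, al (Θ j v y) = ιg j v (al y) := fun j v y => by
    obtain ⟨w, hw⟩ := local_surj (par L j).1 (par L j).2 v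
    have h₁ := hΘ₃ j _ hw
    have h₂ := hι₃ j _ hw
    rw [map_sub, sub_eq_zero] at h₁ h₂
    rw [h₁, h₂, hΘ₂, hd]
    rfl
  refine pres_equiv (cupCap_S L).marked (cupCap_P L).marked _ al be ?_ ?_ ?_ ?_
  · rintro ⟨m, j⟩ y hy
    rw [← ΓP_Cp]
    exact al₁ m j y (by rwa [ΓS_Cp])
  · rintro ⟨m, j⟩ y hy
    rw [← ΓS_Cp]
    exact be₁ m j y (by rwa [ΓP_Cp])
  · intro m y hy
    refine Cp_ind (fun _ => LinearMap.eqLocus (be ∘ₗ al) LinearMap.id) ?_ ?_ _ hy
    · simp [LinearMap.mem_eqLocus, al₀, be₀]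
    · rintro s ⟨m, j⟩ t' y hs hy ih
      rw [← ΓS_Cp] at hy
      simp only [LinearMap.mem_eqLocus, LinearMap.comp_apply, LinearMap.id_apply] at ih ⊢
      rcases s with ⟨_ | _ | s, l⟩ | l
      · rw [← ΓS_U, al₂, be₂, ih]
      · rw [← ΓS_C, al₂, be₂, ih]
      · have hl : l + 2 ≤ m := by
          by_contra h
          simp [Sl.step, Gen.src, h] at hs
        rw [ΓS_cr L s hl hy, al₂, be₂, ih]
      · have hl : l ≤ m := by
          by_contra h
          simp [Sl.step, h] at hs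
        rw [al₃ j l m hl y hy, ← hole_oS L (hΨ₂ j) hl hy, GT.hole, GT.hole, Module.End.mul_apply,
          Module.End.mul_apply, be₂, ← hΘ₂]
        exact congrArg _ ((hc j _ _).trans (by rw [ih]))
  · intro m y hy
    refine Cp_ind (fun _ => LinearMap.eqLocus (al ∘ₗ be) LinearMap.id) ?_ ?_ _ hy
    · simp [LinearMap.mem_eqLocus, al₀, be₀]
    · rintro s ⟨m, j⟩ t' y hs hy ih
      rw [← ΓP_Cp] at hy
      simp only [LinearMap.mem_eqLocus, LinearMap.comp_apply, LinearMap.id_apply] at ih ⊢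
      rcases s with l | l | b
      · have := ΓP_U L l
        rw [cup] at this
        rw [← this, be₂, al₂, ih]
      · have := ΓP_C L l
        rw [cap] at this
        rw [← this, be₂, al₂, ih]
      · have := gP_apply L b hy
        rw [bx] at this
        rw [← this, be₃, hd', ih, hι₂]

end Pool.Agent.P.MP_b3a239_gt
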