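import Pool.Agent.P.MP_b3a239_gt.VLift2

/-! Induction principles for `Q`. -/

set_option maxSynthPendingDepth 3

noncomputable section

namespace Pool.Agent.P.MP_b3a239_gt

variable {B : Type} [AddCommGroup B] [Module R B]

theorem El_coe (l : ℕ) : ((El l : V) : FM) = vρ MM (U 0) (omF l) := rfl
theorem Dl_coe (l : ℕ) : ((Dl l : V) : FM) = vρ MM (U 1 * U 0) (omF l) := by
  change vρ MM (shn 1 (U 0)) (vρ MM (U 0) (omF l)) = _
  rw [shn_U, map_mul]
  rfl
theorem El_mem (l : ℕ) : El l ∈ TQ.Lv (2 * l + 1) := TV.memU (Nat.zero_le _) (om_mem l)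
theorem TQ_strict : TQ.Strict := TM.tq_strict _
theorem TQ_coe (x : FA) (w : Q) : ((TQ.ρ x w : V) : FM) = vρ MM (shn 1 x) (w : V) := rfl

/-- `Q` is generated by the `El l` under the strands `1, 2, …` -/
theorem TQ_Lv_le (m : ℕ) : TQ.Lv m ≤ TQ.Gn El (fun l => 2 * l + 1) m := by
  have h : TV.Gn om (fun l => 2 * l) (m + 1) ≤
      (TQ.Gn El (fun l => 2 * l + 1) m).map TV.pos.subtype := by
    refine Submodule.span_le.2 ?_
    rintro _ ⟨l, x, hx, rfl⟩
    refine ⟨TQ.ρ (C 0 * shn 1 x) (El l), TM.Gn_loc (.mul (.c (Nat.zero_le m)) (hx.shn 1))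
      (TQ.gen_mem_Gn El (fun l => 2 * l + 1) l), ?_⟩
    have h1 := LinearMap.congr_fun (TV.wk.far (Loc.u (le_refl 0)) x) (om l)
    rw [shn_zero, Module.End.mul_apply, Module.End.mul_apply] at h1
    change TV.ρ (shn 1 (C 0 * shn 1 x)) (TV.ρ (U 0) (om l)) = _
    rw [map_mul, shn_shn, shn_C, map_mul, Module.End.mul_apply, ← h1]
    exact TV.zig (Nat.le_add_left 1 m) (TV.mem hx (om_mem l))
  intro w hw
  obtain ⟨w', hw', e⟩ := h (TV_Lv_le (m + 1) hw)
  rwa [← Subtype.ext e]

theorem Q_ext {T : TM B} {φ ψ : Q →ₗ[R] B} (hφ : GMap TQ T φ) (hψ : GMap TQ T ψ)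
    (h : ∀ l, φ (El l) = ψ (El l)) : φ = ψ :=
  GMap.ext_gen El_mem TQ_Lv_le TQ_strict.top hφ hψ h

/-- `Q` is generated by the `Dl l` under the strands `2, 3, …` -/
theorem Q_ind₂ (S : Submodule R Q) (h₀ : ∀ l, Dl l ∈ S)
    (h : ∀ x, ∀ w ∈ S, TQ.ρ (shn 1 x) w ∈ S) : S = ⊤ := by
  have h1 : ∀ m, TV.Gn om (fun l => 2 * l) (m + 1) ≤ S.map TV.pos.subtype := by
    intro m
    refine Submodule.span_le.2 ?_
    rintro _ ⟨l, x, hx, rfl⟩
    rcases m with _ | m
    · rw [hx.eq_zero_of_odd (by dsimp only; omega), map_zero, LinearMap.zero_apply]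
      exact Submodule.zero_mem _
    · refine ⟨_, h (C 0 * C 1 * shn 2 x) _ (h₀ l), ?_⟩
      have hv := TV.mem hx (om_mem l)
      have h2 := LinearMap.congr_fun
        (TV.wk.far (Loc.mul (Loc.u (j := 1) (by omega)) (Loc.u (le_refl 0))) x) (om l)
      simp only [shn_zero, map_mul, Module.End.mul_apply] at h2
      have h3 := LinearMap.congr_fun (TV.wk.cu 1 1 le_rfl) (TV.ρ (U 0) (TV.ρ x (om l)))
      rw [Module.End.mul_apply, Module.End.mul_apply] at h3
      change TV.ρ (shn 1 (shn 1 (C 0 * C 1 * shn 2 x)))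
        (TV.ρ (shn 1 (U 0)) (TV.ρ (U 0) (om l))) = _
      simp only [map_mul, shn_shn, shn_C, shn_U, Module.End.mul_apply]
      rw [← h2, h3, TV.zig (l := 0) (by omega) hv, TV.zig (l := 1) (by omega) hv]
  rw [eq_top_iff, ← TQ_strict.top, iSup_le_iff]
  intro m w hw
  obtain ⟨w', hw', e⟩ := h1 m (TV_Lv_le (m + 1) hw)
  rwa [← Subtype.ext e]

/-- A natural map to a torsion free module on whose image the monodromy is `A ^ 6` vanishes as
soon as it vanishes on level zero. -/
theorem GMap.vanish {B' : Type} [AddCommGroup B'] [Module R B'] {T : TM B} {T' : TM B'}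
    (hB : ∀ (r : R) (y : B'), r ≠ 0 → r • y = 0 → y = 0) (htop : ⨆ m, T.Lv m = ⊤) {φ : B →ₗ[R] B'}
    (hφ : GMap T T' φ)
    (hM : ∀ m, ∀ w ∈ T.Lv (m + 1), T'.ρ (fin false 0 m) (φ w) = a 6 • φ w)
    (h₀ : ∀ w ∈ T.Lv 0, φ w = 0) : φ = 0 := by
  have key : ∀ m, ∀ w ∈ T.Lv m, φ w = 0 := by
    intro m
    induction m using Nat.strong_induction_on with
    | _ m ih =>
      rcases m with _ | m
      · exact h₀
      have h1 : ∀ i, i + 2 ≤ m + 1 → ∀ w ∈ T.Lv (m + 1),
          φ (T.ρ (sg false i) w) = a (-1) • φ w := by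
        intro i hi w hw
        obtain ⟨n, rfl⟩ : ∃ n, m = n + 1 := ⟨m - 1, by omega⟩
        have h2 := T.memC (l := i) (m := n) (by omega) hw
        have h3 := hφ.natU (l := i) (by omega) h2
        rw [ih n (by omega) _ h2, map_zero] at h3
        simp [sg, h3]
      have h4 : ∀ l, l ≤ m → ∀ w ∈ T.Lv (m + 1),
          φ (T.ρ (pR false 0 l) w) = a (-l) • φ w ∧ φ (T.ρ (pL false 0 l) w) = a (-l) • φ w := by
        intro l
        induction l with
        | zero => intro _ w _; simp [pR, pL]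
        | succ l ihl =>
          intro hl w hw
          have e : (-((l + 1 : ℕ) : ℤ)) = -1 + -l := by push_cast; ring
          rw [pR, pL, map_mul, map_mul, Module.End.mul_apply, Module.End.mul_apply,
            h1 _ (by omega) _ (T.mem (loc_pR false (by omega)) hw), (ihl (by omega) w hw).1,
            (ihl (by omega) _ (T.mem (loc_sg false (by omega)) hw)).2, h1 _ (by omega) _ hw,
            smul_smul, smul_smul, e, a_add]
          exact ⟨rfl, by rw [mul_comm]⟩
      intro w hw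
      have h5 := hφ.nat (loc_fin false (i := 0) (l := m) (m := m + 1) (by omega)) hw
      rw [hM m w hw, fin, map_mul, Module.End.mul_apply,
        (h4 m le_rfl _ (T.mem (loc_pR false (by omega)) hw)).2, (h4 m le_rfl w hw).1, smul_smul,
        ← a_add, ← sub_eq_zero, ← sub_smul] at h5
      refine hB _ _ (fun e => ?_) h5
      have h6 := congrArg LaurentPolynomial.degree (sub_eq_zero.1 e)
      rw [a, a, LaurentPolynomial.degree_T, LaurentPolynomial.degree_T, WithBot.coe_inj] at h6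
      omega
  rw [← LinearMap.ker_eq_top, eq_top_iff, ← htop, iSup_le_iff]
  exact key

end Pool.Agent.P.MP_b3a239_gt
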