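import Pool.Agent.P.MP_b3a239_gt.Tower
import Pool.Agent.P.MP_b3a239_gt.VLift

/-! The operator of a hole with `l` strands on its left. -/

set_option maxSynthPendingDepth 3

open FreeAlgebra

noncomputable section

namespace Pool.Agent.P.MP_b3a239_gt

section General
variable {O : Type} [AddCommGroup O] [Module R O] {Γ : GT O} {ψ : V →ₗ[R] Module.End R O}
  {i j l m : ℕ} {w : O}

def GT.hole (Γ : GT O) (ψ : V →ₗ[R] Module.End R O) (l : ℕ) : Module.End R O :=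
  Γ.ρ (shn l (capC l)) * ψ (om l)

private theorem hole_tr (Γ : GT O) {a b k M : ℕ} {x y : FA} (hx : Loc a b x) (hy : Loc a b y)
    (h : mkT x = mkT y) (hM : a + k ≤ M) (hw : w ∈ Γ.Cp M j) :
    Γ.ρ (shn k x) w = Γ.ρ (shn k y) w :=
  (Γ.tm j).transfer (m := M) (n := b + k + (M - (a + k)))
    (((hx.shn k).padR _).cast (by omega) rfl) (((hy.shn k).padR _).cast (by omega) rfl)
    (mkT_shn h k) hw

private theorem hole_tr0 (Γ : GT O) {a b M : ℕ} {x y : FA} (hx : Loc a b x) (hy : Loc a b y)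
    (h : mkT x = mkT y) (hM : a ≤ M) (hw : w ∈ Γ.Cp M j) : Γ.ρ x w = Γ.ρ y w := by
  simpa using hole_tr Γ (k := 0) hx hy h hM hw

private theorem hole_loc (Γ : GT O) {a b : ℕ} {x : FA} (hx : Loc a b x) (hw : w ∈ Γ.Cp a j) :
    Γ.ρ x w ∈ Γ.Cp b j := (Γ.tm j).mem hx hw

private theorem hole_arcs (hψ : GMap TV (Γ.hom j) ψ) : (Γ.hom j).Arcs fun l => ψ (om l) :=
  hψ.arcs arcs_om

private theorem hole_om_mem (hψ : GMap TV (Γ.hom j) ψ) (l : ℕ) (hw : w ∈ Γ.Cp m j) :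
    ψ (om l) w ∈ Γ.Cp (m + 2 * l) (j + 1) := ((hole_arcs hψ).mem l).2.1 m w hw

private theorem hole_om_comm (hψ : GMap TV (Γ.hom j) ψ) (l : ℕ) (x : FA) (w : O) :
    ψ (om l) (Γ.ρ x w) = Γ.ρ (shn (2 * l) x) (ψ (om l) w) :=
  congr($(((hole_arcs hψ).mem l).2.2 x) w)

private theorem hole_apply (l : ℕ) (w : O) :
    Γ.hole ψ l w = Γ.ρ (shn l (capC l)) (ψ (om l) w) := rfl

private theorem hole_mul (x y : FA) (w : O) : Γ.ρ (x * y) w = Γ.ρ x (Γ.ρ y w) := by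
  rw [map_mul]; rfl

private theorem hole_farw {a b : ℕ} {x : FA} (h : Loc a b x) (y : FA) (w : O) :
    Γ.ρ x (Γ.ρ (shn a y) w) = Γ.ρ (shn b y) (Γ.ρ x w) := congr($(Γ.wk.far h y) w)

private theorem hole_kill (k : ℕ) : ∀ (l n : ℕ) (w : O), n < k + 2 * l → (0 < l ∨ k ≤ n) →
    w ∈ Γ.Cp n j → Γ.ρ (shn k (capC l)) w = 0 := by
  intro l
  induction l with
  | zero => intro n w h1 h2 _; omega
  | succ l ih =>
    intro n w h1 _ hw
    rw [capC, map_mul, hole_mul, shn_C]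
    by_cases h : n < l + k + 2
    · rw [Γ.C0 h hw, map_zero]
    · obtain ⟨n, rfl⟩ : ∃ n', n = n' + 2 := ⟨n - 2, by omega⟩
      exact ih n _ (by omega) (Or.inr (by omega)) (Γ.memC (by omega) hw)

theorem GT.hole_mem (hψ : GMap TV (Γ.hom j) ψ) (h : l ≤ m) (hw : w ∈ Γ.Cp m j) :
    Γ.hole ψ l w ∈ Γ.Cp m (j + 1) :=
  (Γ.tm (j + 1)).mem (((loc_capC l (m - l)).shn l).cast (by omega) (by omega))
    (hole_om_mem hψ l hw)
theorem GT.hole_none (hψ : GMap TV (Γ.hom j) ψ) (h : m < l) (hw : w ∈ Γ.Cp m j) :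
    Γ.hole ψ l w = 0 :=
  hole_kill l l _ _ (by omega) (Or.inl (by omega)) (hole_om_mem hψ l hw)
theorem GT.hole_U (hψ : GMap TV (Γ.hom j) ψ) (hi : i ≤ l) (h : l ≤ m) (hw : w ∈ Γ.Cp m j) :
    Γ.hole ψ (l + 2) (Γ.ρ (U i) w) = Γ.ρ (U i) (Γ.hole ψ l w) := by
  have hx : Loc (2 * l + 2) 0 (capC (l + 2) * U (l + 2 + i)) :=
    ((loc_capC (l + 2) 0).cast (by omega) rfl).mul (Loc.u (by omega))
  have hy : Loc (2 * l + 2) 0 (capC l * C (l - i)) :=
    ((loc_capC l 0).cast (by omega) rfl).mul (Loc.c (by omega))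
  have e1 := hole_tr Γ (k := l + 2) hx hy (rot_capC_U hi) (by omega) (hole_om_mem hψ (l + 2) hw)
  have e2 : Γ.ρ (C (2 * l + 2 - i)) (ψ (om (l + 2)) w) = Γ.ρ (U i) (ψ (om l) w) :=
    congr($((hole_arcs hψ).right i l hi) w)
  rw [map_mul, map_mul (shn _), hole_mul, hole_mul, shn_U, shn_C,
    show l - i + (l + 2) = 2 * l + 2 - i by omega, e2,
    show l + 2 + i + (l + 2) = i + 2 * (l + 2) by omega] at e1
  rw [hole_apply, hole_apply, hole_om_comm hψ, shn_U, e1, hole_farw (Loc.u hi)]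
theorem GT.hole_C (hψ : GMap TV (Γ.hom j) ψ) (hi : i ≤ l) (h : l + 2 ≤ m) (hw : w ∈ Γ.Cp m j) :
    Γ.hole ψ l (Γ.ρ (C i) w) = Γ.ρ (C i) (Γ.hole ψ (l + 2) w) := by
  have hx : Loc (2 * l + 2) 0 (capC (l + 2) * U (l - i)) :=
    ((loc_capC (l + 2) 0).cast (by omega) rfl).mul (Loc.u (by omega))
  have hy : Loc (2 * l + 2) 0 (capC l * C (l + i)) :=
    ((loc_capC l 0).cast (by omega) rfl).mul (Loc.c (by omega))
  have e1 := hole_tr Γ (k := l) hx hy (rot_capC_U' hi) (by omega) (hole_om_mem hψ l hw)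
  have e2 : Γ.ρ (C i) (ψ (om (l + 2)) w) = Γ.ρ (U (2 * l - i)) (ψ (om l) w) :=
    congr($((hole_arcs hψ).left i l hi) w)
  rw [map_mul, map_mul (shn _), hole_mul, hole_mul, shn_U, shn_C,
    show l - i + l = 2 * l - i by omega, ← e2, show l + i + l = i + 2 * l by omega] at e1
  rw [hole_apply, hole_apply, hole_om_comm hψ, shn_C, ← e1, hole_farw (Loc.c hi)]
theorem GT.hole_sg (hψ : GMap TV (Γ.hom j) ψ) (s : Bool) (hi : i + 2 ≤ l) (h : l ≤ m)
    (hw : w ∈ Γ.Cp m j) : Γ.hole ψ l (Γ.ρ (sg s i) w) = Γ.ρ (sg s i) (Γ.hole ψ l w) := by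
  obtain ⟨l, rfl⟩ : ∃ l', l = l' + 2 := ⟨l - 2, by omega⟩
  obtain ⟨m, rfl⟩ : ∃ m', m = m' + 2 := ⟨m - 2, by omega⟩
  have e : Γ.hole ψ (l + 2) (Γ.ρ (U i * C i) w) = Γ.ρ (U i * C i) (Γ.hole ψ (l + 2) w) := by
    rw [hole_mul, hole_mul, GT.hole_U hψ (by omega) (by omega : l ≤ m) (Γ.memC (by omega) hw),
      GT.hole_C hψ (by omega) h hw]
  simp only [sg, map_add, map_smul, map_one, LinearMap.add_apply, LinearMap.smul_apply,
    Module.End.one_apply, e]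
theorem GT.hole_far (hψ : GMap TV (Γ.hom j) ψ) (l : ℕ) (x : FA) (w : O) :
    Γ.hole ψ l (Γ.ρ (shn l x) w) = Γ.ρ (shn l x) (Γ.hole ψ l w) := by
  have e : Γ.ρ (shn l (capC l)) (Γ.ρ (shn l (shn (0 + 2 * l) x)) (ψ (om l) w)) =
      Γ.ρ (shn l (shn 0 x)) (Γ.ρ (shn l (capC l)) (ψ (om l) w)) :=
    congr($((Γ.wk.shift l).far (loc_capC l 0) x) (ψ (om l) w))
  rw [shn_zero, shn_shn] at e
  rw [hole_apply, hole_apply, hole_om_comm hψ, shn_shn, ← e, show 0 + 2 * l + l = l + 2 * l by omega]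
theorem GT.hole_cupC (hψ : GMap TV (Γ.hom j) ψ) (l : ℕ) (hw : w ∈ Γ.Cp m j) :
    Γ.hole ψ l (Γ.ρ (cupC l) w) = ψ (om l) w := by
  have hx : Loc l l (capC l * shn l (cupC l)) :=
    (loc_capC l l).mul (((loc_cupC l 0).shn l).cast (by omega) (by omega))
  have e := hole_tr Γ (k := l) hx (Loc.one l) ((zagC l).trans (map_one mkT).symm) (by omega)
    (hole_om_mem hψ l hw)
  rw [map_mul, hole_mul, shn_shn, map_one, map_one, Module.End.one_apply] at e
  rw [hole_apply, hole_om_comm hψ, two_mul, e]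
/-- an operator is determined by its partial closure -/
theorem GT.eq_zero_of_cap {φ : Module.End R O} {k : ℕ} (hφ : φ ∈ Γ.homLv j (k + l))
    (h : ∀ m, l ≤ m → ∀ w ∈ Γ.Cp m j, Γ.ρ (shn k (capC l)) (φ w) = 0) : φ = 0 := by
  refine Γ.hom_ext hφ (zero_mem (Γ.homLv j 0)) fun m w hw => ?_
  have hx : Loc l l (capC l * shn l (cupC l)) :=
    (loc_capC l l).mul (((loc_cupC l 0).shn l).cast (by omega) (by omega))
  have e := hole_tr Γ (k := k) hx (Loc.one l) ((zagC l).trans (map_one mkT).symm) (by omega)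
    (hφ.2.1 m w hw)
  have e2 : φ (Γ.ρ (cupC l) w) = Γ.ρ (shn (k + l) (cupC l)) (φ w) := congr($(hφ.2.2 (cupC l)) w)
  rw [map_mul, hole_mul, shn_shn, map_one, map_one, Module.End.one_apply, add_comm l k, ← e2,
    h (m + 2 * l) (by omega) _ (hole_loc Γ (loc_cupC l m) hw)] at e
  exact e.symm

end General

variable (L : List (ℕ × ℕ))

/-- `l` arcs around the hole number `j` -/
def oS (j l : ℕ) : Module.End R (OS L) :=
  lm _ _ (ι R (Sl.hole l)) * (ΓS L).ρ (cupC l) * (ΓS L).pr j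

private theorem hole_H_mem {l m j : ℕ} (h : l ≤ m) {w : OS L} (hw : w ∈ (ΓS L).Cp m j) :
    lm _ _ (ι R (Sl.hole l)) w ∈ (ΓS L).Cp m (j + 1) := by
  rw [ΓS_Cp] at hw ⊢
  exact lm_mem (by simp [Sl.step, h]) hw

private theorem hole_H_none {l m j : ℕ} (h : m < l) {w : OS L} (hw : w ∈ (ΓS L).Cp m j) :
    lm _ _ (ι R (Sl.hole l)) w = 0 := by
  rw [ΓS_Cp] at hw
  exact lm_none (by simp [Sl.step, h]) hw

private theorem hole_move {m j : ℕ} {s s' r r' : Sl} (h : Move m [s, s'] [r, r']) {w : OS L}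
    (hw : w ∈ (ΓS L).Cp m j) :
    lm _ _ (ι R s) (lm _ _ (ι R s') w) = lm _ _ (ι R r) (lm _ _ (ι R r') w) := by
  rw [ΓS_Cp] at hw
  have e := lm_rel (SkeinRel.isotopy (pq := par L) (j := j) _ _ h) hw
  simp only [wd_cons, wd_nil, mul_one, map_sub, map_mul, LinearMap.sub_apply,
    Module.End.mul_apply] at e
  exact sub_eq_zero.1 e

private theorem hole_H_far (l : ℕ) (x : FA) :
    lm _ _ (ι R (Sl.hole l)) * (ΓS L).ρ (shn l x) =
      (ΓS L).ρ (shn l x) * lm _ _ (ι R (Sl.hole l)) := by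
  induction x using FreeAlgebra.induction with
  | grade0 r =>
    rw [AlgHom.commutes, AlgHom.commutes]
    exact (Algebra.commutes r _).symm
  | grade1 g =>
    refine (ΓS L).ext fun m j w hw => ?_
    cases g with
    | u i =>
      change lm _ _ (ι R (Sl.hole l)) ((ΓS L).ρ (shn l (U i)) w) =
        (ΓS L).ρ (shn l (U i)) (lm _ _ (ι R (Sl.hole l)) w)
      rw [shn_U, add_comm i l]
      by_cases h : l + i ≤ m
      · rw [ΓS_U]
        exact hole_move L (Move.holeR .cup l i h) hw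
      · rw [(ΓS L).U0 (by omega) hw, map_zero]
        by_cases h' : l ≤ m
        · exact ((ΓS L).U0 (by omega) (hole_H_mem L h' hw)).symm
        · rw [hole_H_none L (by omega) hw, map_zero]
    | c i =>
      change lm _ _ (ι R (Sl.hole l)) ((ΓS L).ρ (shn l (C i)) w) =
        (ΓS L).ρ (shn l (C i)) (lm _ _ (ι R (Sl.hole l)) w)
      rw [shn_C, add_comm i l]
      by_cases h : l + i + 2 ≤ m
      · rw [ΓS_C]
        exact hole_move L (Move.holeR .cap l i h) hw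
      · rw [(ΓS L).C0 (by omega) hw, map_zero]
        by_cases h' : l ≤ m
        · exact ((ΓS L).C0 (by omega) (hole_H_mem L h' hw)).symm
        · rw [hole_H_none L (by omega) hw, map_zero]
  | mul x y hx hy => rw [map_mul, map_mul, ← mul_assoc, hx, mul_assoc, hy, mul_assoc]
  | add x y hx hy => rw [map_add, map_add, mul_add, add_mul, hx, hy]

private theorem hole_H_farw (l : ℕ) (x : FA) (w : OS L) :
    lm _ _ (ι R (Sl.hole l)) ((ΓS L).ρ (shn l x) w) =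
      (ΓS L).ρ (shn l x) (lm _ _ (ι R (Sl.hole l)) w) := congr($(hole_H_far L l x) w)

private theorem hole_H_U {i l m j : ℕ} (hi : i ≤ l) (h : l ≤ m) {w : OS L}
    (hw : w ∈ (ΓS L).Cp m j) : lm _ _ (ι R (Sl.hole (l + 2))) ((ΓS L).ρ (U i) w) =
      (ΓS L).ρ (U i) (lm _ _ (ι R (Sl.hole l)) w) := by
  obtain ⟨d, rfl⟩ := Nat.exists_eq_add_of_le hi
  have e := hole_move L (Move.holeL .cup i d h) hw
  rw [ΓS_U, show i + d + 2 = i + 2 + d by omega]
  exact e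

private theorem hole_H_C {i l m j : ℕ} (hi : i ≤ l) (h : l + 2 ≤ m) {w : OS L}
    (hw : w ∈ (ΓS L).Cp m j) : lm _ _ (ι R (Sl.hole l)) ((ΓS L).ρ (C i) w) =
      (ΓS L).ρ (C i) (lm _ _ (ι R (Sl.hole (l + 2))) w) := by
  obtain ⟨d, rfl⟩ := Nat.exists_eq_add_of_le hi
  have e := hole_move L (Move.holeL .cap i d (m := m) (by simp only [Gen.src]; omega)) hw
  rw [ΓS_C, show i + d + 2 = i + 2 + d by omega]
  exact e

private theorem hole_oS_apply (j l : ℕ) (w : OS L) :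
    oS L j l w = lm _ _ (ι R (Sl.hole l)) ((ΓS L).ρ (cupC l) ((ΓS L).pr j w)) := rfl

private theorem hole_oS_mem (j l : ℕ) : oS L j l ∈ (ΓS L).homLv j (2 * l) := by
  refine ⟨fun m j' h w hw => ?_, fun m w hw => ?_, fun x => ?_⟩
  · rw [hole_oS_apply, (ΓS L).pr_eq hw, if_neg h, map_zero, map_zero]
  · rw [hole_oS_apply, (ΓS L).pr_eq hw, if_pos rfl]
    exact hole_H_mem L (by omega) (((ΓS L).tm j).mem (loc_cupC l m) hw)
  · have e := (ΓS L).wk.far (loc_cupC l 0) x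
    rw [shn_zero, zero_add] at e
    have e2 := hole_H_far L l (shn l x)
    rw [shn_shn, ← two_mul] at e2
    rw [oS, mul_assoc, (ΓS L).pr_comm, ← mul_assoc, mul_assoc _ ((ΓS L).ρ (cupC l)), e,
      ← mul_assoc, e2]
    simp only [mul_assoc]

theorem arcs_oS (j : ℕ) : ((ΓS L).hom j).Arcs (oS L j) := by
  refine ⟨hole_oS_mem L j, fun i l hi => ?_, fun i l hi => ?_⟩
  · refine (ΓS L).hom_ext (k := 2 * l + 2) (k' := 2 * l + 2)
      ((ΓS L).hom_memC (by omega) (hole_oS_mem L j (l + 2)))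
      ((ΓS L).hom_memU (by omega) (hole_oS_mem L j l)) fun m w hw => ?_
    change (ΓS L).ρ (C i) (oS L j (l + 2) w) = (ΓS L).ρ (U (2 * l - i)) (oS L j l w)
    have hx : Loc 0 (2 * l + 2) (C i * cupC (l + 2)) :=
      (Loc.c (by omega)).mul ((loc_cupC (l + 2) 0).cast rfl (by omega))
    have hy : Loc 0 (2 * l + 2) (U (2 * l - i) * cupC l) :=
      (Loc.u (by omega)).mul ((loc_cupC l 0).cast rfl (by omega))
    have e := hole_tr0 (ΓS L) hx hy (rot_C_cupC hi) (Nat.zero_le m) hw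
    have e2 := hole_H_farw L l (U (l - i)) ((ΓS L).ρ (cupC l) w)
    rw [shn_U, show l - i + l = 2 * l - i by omega] at e2
    rw [hole_mul, hole_mul] at e
    rw [hole_oS_apply, hole_oS_apply, (ΓS L).pr_eq hw, if_pos rfl,
      ← hole_H_C L hi (by omega) (hole_loc _ (loc_cupC (l + 2) m) hw), ← e2, ← e]
  · refine (ΓS L).hom_ext (k := 2 * l + 2) (k' := 2 * l + 2)
      ((ΓS L).hom_memC (by omega) (hole_oS_mem L j (l + 2)))
      ((ΓS L).hom_memU (by omega) (hole_oS_mem L j l)) fun m w hw => ?_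
    change (ΓS L).ρ (C (2 * l + 2 - i)) (oS L j (l + 2) w) = (ΓS L).ρ (U i) (oS L j l w)
    have hx : Loc 0 (2 * l + 2) (C (2 * l + 2 - i) * cupC (l + 2)) :=
      (Loc.c (by omega)).mul ((loc_cupC (l + 2) 0).cast rfl (by omega))
    have hy : Loc 0 (2 * l + 2) (U i * cupC l) :=
      (Loc.u (by omega)).mul ((loc_cupC l 0).cast rfl (by omega))
    have e := hole_tr0 (ΓS L) hx hy (rot_C_cupC' hi) (Nat.zero_le m) hw
    have e2 := hole_H_farw L (l + 2) (C (l - i)) ((ΓS L).ρ (cupC (l + 2)) w)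
    rw [shn_C, show l - i + (l + 2) = 2 * l + 2 - i by omega] at e2
    rw [hole_mul, hole_mul] at e
    rw [hole_oS_apply, hole_oS_apply, (ΓS L).pr_eq hw, if_pos rfl, ← e2, e]
    exact hole_H_U L hi (by omega) (((ΓS L).tm j).mem (loc_cupC l m) hw)

theorem hole_oS {j l m : ℕ} {ψ : V →ₗ[R] Module.End R (OS L)} (hψ : ∀ l, ψ (om l) = oS L j l)
    (h : l ≤ m) {w : OS L} (hw : w ∈ (ΓS L).Cp m j) :
    (ΓS L).hole ψ l w = lm _ _ (ι R (Sl.hole l)) w := by
  have hx : Loc l l (shn l (capC l) * cupC l) :=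
    (((loc_capC l 0).shn l).cast (by omega) (by omega)).mul (loc_cupC l l)
  have e := hole_tr0 (ΓS L) hx (Loc.one l) ((zigC l).trans (map_one mkT).symm) h hw
  rw [hole_mul, map_one, Module.End.one_apply] at e
  rw [hole_apply, hψ, hole_oS_apply, (ΓS L).pr_eq hw, if_pos rfl, ← hole_H_farw, e]

end Pool.Agent.P.MP_b3a239_gt
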