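import Pool.Agent.P.MP_b3a239_gt.VEta

/-! Intersection of the image of `Et` with a lattice of normal forms. -/

set_option maxSynthPendingDepth 3

noncomputable section

namespace Pool.Agent.P.MP_b3a239_gt

variable {k : Type} [CommRing k] [Algebra R k]

/-- normal forms of weight zero with `2 j` unmatched letters and coefficients in `D j` -/
def Lam (D : ℕ → Submodule R k) : Submodule R (F k) :=
  Submodule.span R {y | ∃ w j c, core w = (j, j) ∧ c ∈ D j ∧ y = c • NF k w}

theorem Inter_repr {D : ℕ → Submodule R k} {y : F k} (hy : y ∈ Lam D) {w : List Bool} {j : ℕ}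
    (hw : core w = (j, j)) : (nfB k).repr y w ∈ D j := by
  classical
  induction hy using Submodule.span_induction with
  | mem y h =>
    obtain ⟨u, i, c, hu, hc, rfl⟩ := h
    rw [← nfB_apply, map_smul, Module.Basis.repr_self, Finsupp.smul_apply, Finsupp.single_apply]
    split_ifs with e
    · obtain rfl : i = j := (Prod.mk.inj (hu.symm.trans (e ▸ hw))).1
      rwa [smul_eq_mul, mul_one]
    · rw [smul_zero]
      exact zero_mem _
  | zero => simp
  | add y z _ _ h h' => simpa only [map_add, Finsupp.add_apply] using add_mem h h'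
  | smul r y _ h =>
    rw [← algebraMap_smul k r y, map_smul, Finsupp.smul_apply, smul_eq_mul, ← Algebra.smul_def]
    exact Submodule.smul_mem _ r h

theorem Inter_prW {D : ℕ → Submodule R k} {y : F k} (hy : y ∈ Lam D) : prW k 0 y = y := by
  induction hy using Submodule.span_induction with
  | mem y h =>
    obtain ⟨u, i, c, hu, -, rfl⟩ := h
    rw [map_smul, prW_NF, if_pos (by rw [wt_eq_core, hu, sub_self])]
  | zero => simp
  | add y z _ _ h h' => rw [map_add, h, h']
  | smul r y _ h => rw [LinearMap.map_smul_of_tower, h]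

theorem Inter_Et_NF {u : List Bool} {j : ℕ} (hu : core u = (j, j + 2)) : Et k (NF k u) =
    a (2 * j - 4 * (j + 1)) • vρ k (cups (upW u))
      (f (j + 1) • eta k (j + 1) (j + 1) - vρ k (RtF j) (eta k j j)) := by
  rw [NF, hu, Et_vρ, Et_eta, map_smul, cups_upW hu]

theorem Inter_cup {w : List Bool} {j : ℕ} (hw : core w = (j + 1, j + 1)) :
    CupW (2 * j + 2) w.length (cups w) := by
  have h := cupW_cups w
  rwa [hw, show j + 1 + (j + 1) = 2 * j + 2 by omega] at h

theorem Inter_top {w : List Bool} {j : ℕ} (hw : core w = (j + 1, j + 1)) :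
    vρ k (cups w) (eta k (j + 1) (j + 1)) = NF k w := by rw [NF, hw]

theorem Inter_mem {D : ℕ → Submodule R k} (hmono : ∀ j, D (j + 1) ≤ D j) {w : List Bool} {j : ℕ}
    {c : k} (hw : core w = (j + 1, j + 1)) (hc : c ∈ D (j + 1)) :
    c • vρ k (cups w) (f (j + 1) • eta k (j + 1) (j + 1) - vρ k (RtF j) (eta k j j)) ∈ Lam D := by
  rw [map_sub, map_smul, Inter_top hw, smul_sub, smul_comm c]
  refine sub_mem (Submodule.smul_mem _ _ (Submodule.subset_span ⟨w, j + 1, c, hw, hc, rfl⟩)) ?_
  simp only [RtF, map_neg, map_sum, map_smul, LinearMap.neg_apply, LinearMap.sum_apply,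
    LinearMap.smul_apply, smul_neg, Finset.smul_sum]
  refine neg_mem (sum_mem fun i hi => ?_)
  rw [smul_comm c]
  refine Submodule.smul_mem _ _ (Submodule.subset_span ?_)
  have h1 : CupW (etaW j j).length w.length (cups w * (U (j + i) * 1)) := by
    rw [length_etaW, ← two_mul]
    exact (Inter_cup hw).mul (.cons (.one _) (by have := Finset.mem_range.1 hi; omega))
  obtain ⟨w', e1, -, e2⟩ := h1.exists_word
  refine ⟨w', j, c, e1.trans (core_etaW _ _), hmono j hc, ?_⟩
  rw [NF, e1, core_etaW, e2 _ (vρ k) vρ_wk, cups_etaW, map_one, mul_one, mul_one, map_mul,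
    Module.End.mul_apply]

open Classical in
theorem Inter_coef {u u₀ : List Bool} {j n : ℕ} (hu : core u = (j, j + 2))
    (hu₀ : core u₀ = (n, n + 2)) (h : j ≤ n) : (nfB k).repr (Et k (NF k u)) (upW u₀) =
      if u = u₀ then a (2 * n - 4 * (n + 1)) • f (n + 1) • (1 : k) else 0 := by
  have c1 := core_upW hu
  have c2 := core_upW hu₀
  have z : (nfB k).repr (vρ k (cups (upW u)) (vρ k (RtF j) (eta k j j))) (upW u₀) = 0 :=
    repr_of_mem_Fil (cupW_Low_mem_Fil (Inter_cup c1)
      (RtF_mem_Low j (two_mul j ▸ eta_mem_vLv j j))) (by rw [c2]; omega)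
  have sm : ∀ (r : R) (y : F k), (nfB k).repr (r • y) (upW u₀) = r • (nfB k).repr y (upW u₀) :=
    fun r y => by
      rw [← algebraMap_smul k r y, map_smul, Finsupp.smul_apply, smul_eq_mul, ← Algebra.smul_def]
  rw [Inter_Et_NF hu, map_sub (vρ k _), map_smul (vρ k _), Inter_top c1, sm, map_sub,
    Finsupp.sub_apply, z, sub_zero, sm, ← nfB_apply, Module.Basis.repr_self, Finsupp.single_apply]
  by_cases e : u = u₀
  · obtain rfl : j = n := (Prod.mk.inj (hu.symm.trans (e ▸ hu₀))).1
    rw [if_pos e, if_pos (congrArg upW e)]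
  · rw [if_neg e, if_neg, smul_zero, smul_zero]
    intro e'
    obtain rfl : j = n := Nat.succ_injective (Prod.mk.inj (c1.symm.trans (e' ▸ c2))).1
    exact e (upW_inj hu hu₀ e')

theorem Inter_main (D : ℕ → Submodule R k)
    (hsat : ∀ j c, f (j + 1) • c ∈ D (j + 1) → c ∈ D (j + 1)) (hmono : ∀ j, D (j + 1) ≤ D j)
    (n : ℕ) (s : Finset (List Bool)) (c : List Bool → k)
    (hs : ∀ u ∈ s, ∃ j < n, core u = (j, j + 2)) (hx : ∑ u ∈ s, c u • Et k (NF k u) ∈ Lam D) :
    ∑ u ∈ s, c u • Et k (NF k u) ∈ Submodule.span R {y | ∃ w j c, core w = (j + 1, j + 1) ∧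
      c ∈ D (j + 1) ∧
      y = c • vρ k (cups w) (f (j + 1) • eta k (j + 1) (j + 1) - vρ k (RtF j) (eta k j j))} := by
  classical
  induction n generalizing s with
  | zero =>
    rw [Finset.sum_eq_zero fun u hu => by obtain ⟨j, hj, -⟩ := hs u hu; omega]
    exact zero_mem _
  | succ n ih =>
    have hc : ∀ u ∈ s.filter fun u => core u = (n, n + 2), c u ∈ D (n + 1) := by
      intro u₀ h₀
      obtain ⟨h₁, h₂⟩ := Finset.mem_filter.1 h₀
      have h₃ := Inter_repr hx (core_upW h₂)
      rw [map_sum, Finsupp.finsetSum_apply, Finset.sum_eq_single_of_mem u₀ h₁ fun u hu e => by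
        obtain ⟨j, hj, hu'⟩ := hs u hu
        rw [map_smul, Finsupp.smul_apply, Inter_coef hu' h₂ (by omega), if_neg e, smul_zero],
        map_smul, Finsupp.smul_apply, Inter_coef h₂ h₂ le_rfl, if_pos rfl, smul_eq_mul,
        mul_smul_comm, mul_smul_comm, mul_one] at h₃
      have h₄ := Submodule.smul_mem _ (a (-(2 * n - 4 * (n + 1)))) h₃
      rw [smul_smul, mul_comm, a_mul_neg, one_smul] at h₄
      exact hsat _ _ h₄
    rw [← Finset.sum_filter_add_sum_filter_not s fun u => core u = (n, n + 2)] at hx ⊢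
    refine add_mem (sum_mem fun u hu => ?_) (ih _ (fun u hu => ?_) ((add_mem_cancel_left
      (sum_mem fun u hu => ?_)).1 hx))
    · have h₂ := (Finset.mem_filter.1 hu).2
      rw [Inter_Et_NF h₂, smul_comm]
      exact Submodule.smul_mem _ _
        (Submodule.subset_span ⟨upW u, n, c u, core_upW h₂, hc u hu, rfl⟩)
    · obtain ⟨h₁, h₂⟩ := Finset.mem_filter.1 hu
      obtain ⟨j, hj, e⟩ := hs u h₁
      exact ⟨j, lt_of_le_of_ne (by omega) fun e' => h₂ (e' ▸ e), e⟩
    · have h₂ := (Finset.mem_filter.1 hu).2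
      rw [Inter_Et_NF h₂, smul_comm]
      exact Submodule.smul_mem _ _ (Inter_mem hmono (core_upW h₂) (hc u hu))

theorem inter_Et (D : ℕ → Submodule R k) (hsat : ∀ j c, f (j + 1) • c ∈ D (j + 1) → c ∈ D (j + 1))
    (hmono : ∀ j, D (j + 1) ≤ D j) (x : F k) (hx : Et k x ∈ Lam D) :
    Et k x ∈ Submodule.span R {y | ∃ w j c, core w = (j + 1, j + 1) ∧ c ∈ D (j + 1) ∧
      y = c • vρ k (cups w) (f (j + 1) • eta k (j + 1) (j + 1) - vρ k (RtF j) (eta k j j))} := by
  classical
  have e1 : Et k x = Et k (prW k (-2) x) := by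
    rw [← Inter_prW hx, Et_apply, Et_apply, LinearMap.map_smul_of_tower, ← prW_EE]
    rfl
  have e2 : Et k x = ∑ u ∈ ((nfB k).repr x).support.filter fun u => wt u = -2,
      (nfB k).repr x u • Et k (NF k u) := by
    rw [e1, Finset.sum_filter]
    conv_lhs => rw [← (nfB k).linearCombination_repr x, Finsupp.linearCombination_apply,
      Finsupp.sum, map_sum, map_sum]
    refine Finset.sum_congr rfl fun u _ => ?_
    rw [map_smul, map_smul, nfB_apply, prW_NF]
    split_ifs <;> simp
  rw [e2] at hx ⊢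
  refine Inter_main D hsat hmono (((nfB k).repr x).support.sup (fun u => (core u).1) + 1) _ _
    (fun u hu => ?_) hx
  obtain ⟨h₁, h₂⟩ := Finset.mem_filter.1 hu
  rw [wt_eq_core] at h₂
  exact ⟨(core u).1, Nat.lt_succ_of_le (Finset.le_sup (f := fun u => (core u).1) h₁),
    Prod.ext rfl (by omega)⟩

/-- invariant vectors meet the image of `Et` trivially -/
theorem inv_inter_Et (hf : ∀ j (c : k), f j • c = 0 → c = 0) {y : F k}
    (hy : y ∈ Submodule.span k {y | ∃ m x, Loc 0 m x ∧ y = vρ k x (bas k [])})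
    (hE : y ∈ LinearMap.range (Et k)) : y = 0 := by
  obtain ⟨x, rfl⟩ := hE
  let D : ℕ → Submodule R k := fun j => if j = 0 then ⊤ else ⊥
  have h1 : ∀ z ∈ Submodule.span k {y | ∃ m x, Loc 0 m x ∧ y = vρ k x (bas k [])}, ∀ c : k,
      c • z ∈ Lam D := by
    intro z hz
    induction hz using Submodule.span_induction with
    | mem z h =>
      obtain ⟨m, x, hx, rfl⟩ := h
      have hF : (TF k).Fam (fun _ : Unit => bas k []) fun _ => 0 + 0 :=
        ⟨fun _ => bas_mem_vLv [], fun _ _ _ h => by omega⟩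
      have h2 : vρ k x (bas k []) ∈ (TF k).Gn (fun _ : Unit => bas k []) (fun _ => 0 + 0) m :=
        Submodule.subset_span ⟨(), x, hx, rfl⟩
      rw [hF.Gn_eq, (TF k).N_eq_cups _ fun _ => (0, 0)] at h2
      intro c
      generalize vρ k x (bas k []) = z at h2
      induction h2 using Submodule.span_induction with
      | mem z h =>
        obtain ⟨_, w, hw, -, rfl⟩ := h
        exact Submodule.subset_span ⟨w, 0, c, hw, trivial, by rw [NF, hw]; rfl⟩
      | zero => simp
      | add y z _ _ h h' => simpa only [smul_add] using add_mem h h'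
      | smul r y _ h => simpa only [smul_comm c r] using Submodule.smul_mem _ r h
    | zero => simp
    | add y z _ _ h h' => exact fun c => by simpa only [smul_add] using add_mem (h c) (h' c)
    | smul r y _ h => exact fun c => by simpa only [smul_smul] using h (c * r)
  have h2 := inter_Et D (fun j c h => hf _ c h) (fun j => bot_le) x
    (by simpa only [one_smul] using h1 _ hy 1)
  refine (Submodule.span_eq_bot.2 ?_).le h2
  rintro _ ⟨w, j, c, -, hc, rfl⟩
  rw [show c = 0 from hc, zero_smul]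

end Pool.Agent.P.MP_b3a239_gt
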