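import Pool.Agent.P.MP_b3a239_gt.Kit

/-! The braid identities behind the relations between the two drags. -/

set_option maxSynthPendingDepth 3

noncomputable section

namespace Pool.Agent.P.MP_b3a239_gt

theorem Kit2_t {x y : TT} (h : x = y) (t : TT) : x * t = y * t := by rw [h]

theorem Kit2_cap (l : ℕ) (t : TT) :
    mkT (C (l + 1)) * (mkT (pR true 1 l) * (mkT (pL true 1 l) * (mkT (sg true (l + 1)) * t))) =
      (-a (-3)) • (mkT (C (l + 1)) * (mkT (pR false 1 l) * (mkT (pL false 1 l) * t))) := by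
  have h1 := Kit2_t (natL (loc_pR true (i := 0) (l := l) (m := l + 1) (by omega)) true 1)
  have h2 := Kit2_t (capR true 1 l)
  have h3 := Kit2_t (capL true 1 l)
  have h4 := Kit2_t (C_sg true 1)
  have h5 := Kit2_t (pL_pR false 1 l)
  have h6 := Kit2_t (pR_pL false 1 l)
  have h7 := Kit2_t (congrArg mkT (pL_succ' true 1 l))
  simp only [pL, shn_pR, map_mul, mul_assoc, zero_add, Nat.add_comm 1 l, one_mul, Bool.not_false,
    smul_mul_assoc, if_true] at h1 h2 h3 h4 h5 h6 h7
  conv_lhs => rw [← h6 t, ← h5 (mkT (pL false 1 l) * t)]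
  rw [h1, h2, h7, h4, h3]

theorem tauU_T (l : ℕ) : mkT (C (l + 1) * pR true 1 l * U 0) = mkT (pL false 0 l) := by
  have h1 := cupR true 0 l
  have h2 := Kit2_t (pL_pR true 0 l)
  have h3 := Kit2_t (mkT_wk.far (loc_pL false (i := 0) (l := l) (m := l + 1) (by omega)) (C 0))
  have h4 := mkT_zig l
  simp only [shn_C, map_mul, mul_assoc, zero_add, one_mul, Bool.not_true] at h1 h2 h3 h4 ⊢
  rw [← h2 (mkT (pR true 1 l) * mkT (U 0)), h1, ← h3, h4, mul_one]

theorem s0D_T (s : Bool) : mkT (sg s 0 * U 1 * U 0) = mkT (sg s 2 * U 1 * U 0) := by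
  have h1 := Kit2_t (mkT_zag 0)
  have h2 := Kit2_t (mkT_zig 1)
  have h3 := mkT_wk.uu 0 0 le_rfl
  simp only [sg, map_mul, map_add, map_smul, map_one, add_mul, smul_mul_assoc, mul_assoc, zero_add,
    one_mul, Nat.reduceAdd] at h1 h2 h3 ⊢
  rw [h1, h2, h3]

theorem B1Y_T (l : ℕ) : mkT (sg false 2 * fin false 3 l * sg false 2 * fin false 3 l) =
    mkT (fin false 3 l * sg false 2 * fin false 3 l * sg false 2) := by
  have h1 := natFin (loc_fin false (i := 0) (l := l) (m := l + 1) (by omega)) false 2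
  rw [fin_succ, shn_fin] at h1
  simpa only [mul_assoc] using h1

theorem B5Y_T (l : ℕ) :
    mkT (fin false 1 l * sg false 0 * fin false 1 l * U 0) = mkT ((-a 3) • U 0) := by
  have h1 := Kit2_t (natR (loc_pL false (i := 0) (l := l) (m := l + 1) (by omega)) false 0)
  have h2 := cupR false 0 l
  have h3 := cupL false 0 l
  have h4 := sg_U false l
  have h5 := Kit2_t (congrArg mkT (pR_succ' false 0 l))
  simp only [fin, pR, shn_pL, map_mul, map_smul, mul_assoc, zero_add, add_zero, Bool.false_eq_true,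
    if_false] at h1 h2 h3 h4 h5 ⊢
  rw [← h5, h1, h2, h4, mul_smul_comm, mul_smul_comm, h3]

theorem B3_T (l : ℕ) : mkT (fin false 3 l * sg false 2 * shn 2 (tau l)) =
    mkT (sg false 2 * shn 2 (tau l) * sg false 2 * fin false 3 (l + 1) * sg false 2) := by
  have h1 := natFin ((Loc.c (le_refl l)).mul
    (loc_pR true (i := 0) (l := l) (m := l + 2) (by omega))) false 2
  have h2 := Kit2_t (natL (loc_fin false (i := 0) (l := l) (m := l + 1) (by omega)) false 2)
  rw [fin_succ false 2 (l + 1)] at h1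
  simp only [tau, pL_succ', shn_pL, shn_pR, shn_fin, shn_C, map_mul, mul_assoc, zero_add,
    Nat.reduceAdd, add_assoc] at h1 h2 ⊢
  rw [← h1, h2]

theorem monU_T (l : ℕ) :
    mkT (fin false 0 (l + 1) * U 0) = mkT (a 6 • (fin true 1 l * U 0)) := by
  have h1 := B5Y_T l
  have h2 := Kit2_t (fin_inv false 1 l)
  have h3 := sg_U false 0
  simp only [fin_succ, map_mul, map_smul, mul_assoc, zero_add, one_mul, Bool.false_eq_true,
    if_false, Bool.not_false] at h1 h2 h3 ⊢
  rw [h3, mul_smul_comm, mul_smul_comm, ← h2 (mkT (sg false 0) * _), h1, mul_smul_comm, smul_smul,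
    neg_mul_neg, ← a_add]
  rfl

theorem del_T (l : ℕ) : mkT (C (l + 1) * pR true 1 l * fin true 1 (l + 1) * U 0) =
    mkT (a (-6) • (pL false 0 l * pR false 0 l * pL false 0 l)) := by
  have h1 := Kit2_t (natR ((loc_pR false (i := 0) (l := l) (m := l + 1) (by omega)).mul
    (loc_pL false (i := 0) (l := l) (m := l + 1) (by omega))) true 1)
  have h2 := mkT_wk.far (Loc.u (le_refl 0)) (pR false 0 l * pL false 0 l)
  have h3 := Kit2_t (C_sg true (l + 1))
  have h4 := Kit2_t (tauU_T l)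
  simp only [fin, pL, pR, shn_pL, shn_pR, map_mul, map_smul, mul_assoc, zero_add, add_zero,
    Nat.add_comm 1 l, smul_mul_assoc, if_true, Nat.reduceAdd] at h1 h2 h3 h4 ⊢
  rw [Kit2_cap, ← h1, ← h2, h3, h4, smul_smul, neg_mul_neg, ← a_add]
  rfl

theorem del_T' (l : ℕ) : mkT (fin false 1 (2 * l) * fin true 1 l * pL false 1 l) =
    mkT (pL false 1 l * fin false (l + 1) l) := by
  have h1 := Kit2_t (pR_pL true 1 l)
  have h2 := pR_pL false 1 l
  simp only [fin, two_mul, pL_add, pR_add, map_mul, mul_assoc, Nat.add_comm 1 l, one_mul,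
    Bool.not_true, Bool.not_false] at h1 h2 ⊢
  rw [h1, h2, mul_one]

theorem link_T (l : ℕ) : mkT (tau l * shn (l + 3) (capC (l + 1)) * U (3 * l + 4)) =
    mkT (shn (l + 2) (capC l) * tau l) := by
  have h1 := mkT_wk.far (((loc_capC l 0).shn (l + 4)).cast (m' := 3 * l + 4) (n' := l + 4)
    (by omega) (by omega)) (U 0)
  have h2 := Kit2_t (mkT_zag (l + 3))
  have h3 := mkT_wk.far (loc_tau (le_refl (l + 2))) (capC l)
  simp only [capC_succ', shn_shn, shn_U, shn_C, map_mul, mul_assoc, zero_add, one_mul,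
    show 1 + (l + 3) = l + 4 by omega] at h1 h2 h3 ⊢
  rw [h1, h2, h3]

end Pool.Agent.P.MP_b3a239_gt
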