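import Pool.Agent.P.MP_b3a239_gt.LMod
import Pool.Agent.P.MP_b3a239_gt.Inter

/-! Universal property of `LL`. -/

set_option maxSynthPendingDepth 3

noncomputable section

namespace Pool.Agent.P.MP_b3a239_gt

variable {B : Type} [AddCommGroup B] [Module R B]

/-- the relations that do not depend on the lens space -/
structure TM.Sph (T : TM B) (g : Box → B) : Prop where
  mem : ∀ b, g b ∈ T.Lv b.legs
  capG : ∀ k i n, i + 2 ≤ 2 * k → i + 1 ≠ k → T.ρ (C i) (g (.G k n)) = 0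
  capMid : ∀ k n, T.ρ (C k) (g (.G (k + 1) n)) =
    g (.G k (n + 1)) - a (-4 * (k + 1)) • g (.G k (n - 1))
  sph₀ : ∀ n, f 0 • g (.G 0 n) = g (.t (n + 1)) - g (.t (n - 1))
  sph : ∀ k n, f (k + 1) • g (.G (k + 1) n) =
    T.ρ (RtF k) (g (.G k (n + 1)) - a (-4 * (k + 1)) • g (.G k (n - 1)))

theorem TM.Boxes.sph {T : TM B} {p q : ℕ} {g : Box → B} (h : T.Boxes p q g) : T.Sph g := by
  have eG : ∀ k n, ev T.ρ g (G k n) = g (.G k n) := fun k n => ev_bx _ _ _
  have et : ∀ n, ev T.ρ g (t n) = g (.t n) := fun n => ev_bx _ _ _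
  refine ⟨h.mem, fun k i n h1 h2 => ?_, fun k n => ?_, fun n => ?_, fun k n => ?_⟩
  · have := h.rel _ (.capG k i n h1 h2)
    rwa [← emb_C, ev_emb_mul, eG] at this
  · have := h.rel _ (.capMid k n)
    rw [map_add, map_sub, map_smul, ← emb_C, ev_emb_mul, eG, eG, eG] at this
    rw [← sub_eq_zero, ← this]
    abel
  · have := h.rel _ (.sphere 0 n)
    simp only [low, if_true, map_add, map_sub, map_smul, eG, et, Nat.cast_zero, mul_zero, a_zero,
      one_smul] at this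
    rw [← sub_eq_zero, ← this]
    abel
  · have := h.rel _ (.sphere (k + 1) n)
    simp only [low, map_add, map_sub, map_smul, ← emb_RtF, ev_emb_mul, eG, Nat.cast_succ] at this
    rw [map_sub, map_smul]
    rw [← sub_eq_zero, ← this]
    abel

theorem vec_sub_LLift (k : ℕ) (n : ℤ) :
    vec (.G k (n + 1)) - a (-4 * (k + 1)) • vec (.G k (n - 1)) =
      (XX n * PP (k + 1)) • eta MM k k := by
  rw [vec, vec, ← smul_assoc, ← sub_smul, PP_succ, pii, XX_add, sub_eq_add_neg n, XX_add]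
  congr 1
  simp only [Algebra.smul_def, Nat.cast_succ]
  ring

theorem vec_capG_LLift (k i : ℕ) (n : ℤ) (h : i + 1 ≠ k) : vρ MM (C i) (vec (.G k n)) = 0 := by
  rw [vec, vρ_smul, C_eta, if_neg fun h' => h h'.1, smul_zero]

theorem vec_capMid_LLift (k : ℕ) (n : ℤ) : vρ MM (C k) (vec (.G (k + 1) n)) =
    vec (.G k (n + 1)) - a (-4 * (k + 1)) • vec (.G k (n - 1)) := by
  rw [vec_sub_LLift, vec, vρ_smul, C_eta, if_pos ⟨rfl, by omega⟩]
  rfl

theorem vec_sph₀_LLift (n : ℤ) : f 0 • vec (.G 0 n) = vec (.t (n + 1)) - vec (.t (n - 1)) := by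
  rw [vec, vec, vec, ← smul_assoc, ← sub_smul, PP_zero, dl, XX_add, sub_eq_add_neg n, XX_add,
    mul_sub, smul_sub]
  rfl

theorem vec_sph_LLift (k : ℕ) (n : ℤ) : f (k + 1) • vec (.G (k + 1) n) -
    vρ MM (RtF k) (vec (.G k (n + 1)) - a (-4 * (k + 1)) • vec (.G k (n - 1))) =
      (XX n * PP (k + 1)) • (f (k + 1) • eta MM (k + 1) (k + 1) - vρ MM (RtF k) (eta MM k k)) := by
  rw [vec_sub_LLift, vec, vρ_smul, smul_sub, smul_comm]

theorem sph_bL : TL.Sph bL := by
  refine ⟨bL_mem, fun k i n _ h => Subtype.ext ?_, fun k n => Subtype.ext ?_,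
    fun n => Subtype.ext ?_, fun k n => Subtype.ext ?_⟩
  · exact (congrArg ER.mkQ (vec_capG_LLift k i n h)).trans (map_zero _)
  · exact congrArg ER.mkQ (vec_capMid_LLift k n)
  · exact congrArg ER.mkQ (vec_sph₀_LLift n)
  · refine (Submodule.Quotient.eq ER).2 (show _ ∈ ER from vec_sph_LLift k n ▸
      ⟨(XX n * PP (k + 1)) • a (-(2 * k - 4 * (k + 1))) • eta MM k (k + 2), ?_⟩)
    rw [map_smul, LinearMap.map_smul_of_tower, Et_eta, smul_smul (a _), mul_comm (a _), a_mul_neg,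
      one_smul]

namespace LLift

/-- the smaller family of boxes -/
def bo : (ℕ × ℤ) ⊕ Bool → Box
  | .inl i => .G i.1 i.2
  | .inr b => .t (if b then 1 else 0)

def cr : (ℕ × ℤ) ⊕ Bool → ℕ × ℕ
  | .inl i => (i.1, i.1)
  | .inr _ => (0, 0)

def co : (ℕ × ℤ) ⊕ Bool → MM
  | .inl i => XX i.2 * PP i.1
  | .inr b => f 0 • XX (if b then 1 else 0)

def DD : ℕ → Submodule R MM
  | 0 => ⊤
  | j + 1 => (Ideal.span {PP (j + 1)}).restrictScalars R

theorem mem_DD {j : ℕ} {c : MM} : c ∈ DD (j + 1) ↔ PP (j + 1) ∣ c := Ideal.mem_span_singleton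

theorem vec_bo (i : (ℕ × ℤ) ⊕ Bool) : vec (bo i) = co i • eta MM (cr i).1 (cr i).2 := by
  cases i <;> rfl

theorem legs_bo (i : (ℕ × ℤ) ⊕ Bool) : (bo i).legs = (cr i).1 + (cr i).2 := by
  cases i
  · exact two_mul _
  · rfl

theorem indep (s : ℕ × ℕ) : LinearIndependent R fun i : {i // cr i = s} => co i.1 := by
  by_cases hs : s.1 = 0
  · have := dl_f_indep.comp (fun i : {i // cr i = s} => i.1.map Prod.snd id) (by
      rintro ⟨⟨k, n⟩ | b, rfl⟩ ⟨⟨k', n'⟩ | b', h⟩ e <;>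
        simp only [cr, Prod.mk.injEq] at h hs <;> simp_all)
    refine (congrArg (fun v => LinearIndependent R v) (funext ?_)).mp this
    rintro ⟨⟨k, n⟩ | b, rfl⟩
    · obtain rfl : k = 0 := hs
      rfl
    · rfl
  · have := (XX_mul_indep (PP_ne_zero s.1)).comp
      (fun i : {i // cr i = s} => i.1.elim Prod.snd fun _ => 0) (by
        rintro ⟨⟨k, n⟩ | b, rfl⟩ ⟨⟨k', n'⟩ | b', h⟩ e <;>
        simp only [cr, Prod.mk.injEq] at h hs <;> simp_all)
    refine (congrArg (fun v => LinearIndependent R v) (funext ?_)).mp this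
    rintro ⟨⟨k, n⟩ | b, rfl⟩
    · rfl
    · exact absurd rfl hs

variable {T : TM B} {g : Box → B}

/-- the graph -/
def Ga (T : TM B) (g : Box → B) (m : ℕ) : Submodule R (FM × B) :=
  ((TF MM).prod T).Gn (fun i => (vec (bo i), g (bo i))) (fun i => (cr i).1 + (cr i).2) m

theorem N_mem (i : (ℕ × ℤ) ⊕ Bool) : (vec (bo i), g (bo i)) ∈ ((TF MM).prod T).N
    (fun i => (vec (bo i), g (bo i))) (fun i => (cr i).1 + (cr i).2) ((cr i).1 + (cr i).2) :=
  TM.gen_mem_N _ (fun i => (vec (bo i), g (bo i))) (fun i => (cr i).1 + (cr i).2) i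

theorem G_mem (k : ℕ) (n : ℤ) : (vec (.G k n), g (.G k n)) ∈ Ga T g (2 * k) :=
  two_mul k ▸ TM.N_le_Gn _ _ _ _ (N_mem (Sum.inl (k, n)))

theorem box_mem (h : T.Sph g) (b : Box) : (vec b, g b) ∈ Ga T g b.legs := by
  rcases b with ⟨k, n⟩ | n
  · exact G_mem k n
  have e : ∀ n, ((vec (.t (n + 1)), g (.t (n + 1))) : FM × B) - (vec (.t (n - 1)), g (.t (n - 1))) ∈
      Ga T g 0 := fun n => by
    rw [Prod.mk_sub_mk, ← vec_sph₀_LLift, ← h.sph₀, ← Prod.smul_mk]
    exact Submodule.smul_mem _ (f 0) (G_mem 0 n)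
  refine (show (vec (.t n), g (.t n)) ∈ Ga T g 0 ∧
    (vec (.t (n + 1)), g (.t (n + 1))) ∈ Ga T g 0 from ?_).1
  induction n using Int.induction_on with
  | zero => exact ⟨TM.N_le_Gn _ _ _ _ (N_mem (Sum.inr false)), TM.N_le_Gn _ _ _ _ (N_mem (Sum.inr true))⟩
  | succ n ih =>
    have := e (n + 1)
    rw [add_sub_cancel_right] at this
    exact ⟨ih.2, (Submodule.sub_mem_iff_left _ ih.1).1 this⟩
  | pred n ih =>
    rw [sub_add_cancel]
    exact ⟨(Submodule.sub_mem_iff_right _ ih.2).1 (e _), ih.1⟩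

theorem fam (h : T.Sph g) : ((TF MM).prod T).Fam (fun i => (vec (bo i), g (bo i)))
    fun i => (cr i).1 + (cr i).2 := by
  refine ⟨fun i => legs_bo i ▸ ⟨vec_mem _, h.mem _⟩, ?_⟩
  rintro (⟨k, n⟩ | b) l m e hl
  · change k + k = m + 2 at e
    change ((vρ MM (C l) (vec (.G k n)), T.ρ (C l) (g (.G k n))) : FM × B) ∈ _
    by_cases hk : l + 1 = k
    · subst hk
      obtain rfl : m = l + l := by omega
      rw [vec_capMid_LLift, h.capMid, ← Prod.mk_sub_mk, ← Prod.smul_mk]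
      exact Submodule.sub_mem _ (N_mem (Sum.inl (l, n + 1)))
        (Submodule.smul_mem _ (a (-4 * (l + 1))) (N_mem (Sum.inl (l, n - 1))))
    · rw [vec_capG_LLift _ _ _ hk, h.capG _ _ _ (by omega) hk]
      exact Submodule.zero_mem _
  · exact absurd e (by simp [cr])

theorem lam (h : T.Sph g) : ⨆ m, Ga T g m ≤ (Lam DD).comap (LinearMap.fst R FM B) := by
  refine iSup_le fun m => ?_
  rw [Ga, (fam h).Gn_eq, TM.N_eq_cups]
  refine Submodule.span_le.2 ?_
  rintro _ ⟨i, w, hw, -, rfl⟩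
  refine Submodule.subset_span ⟨w, (cr i).1, co i, hw.trans (by cases i <;> rfl), ?_, ?_⟩
  · rcases i with ⟨_ | k, n⟩ | b
    · trivial
    · exact mem_DD.2 (Dvd.intro_left _ rfl)
    · trivial
  · change vρ MM (cups w) (vec (bo i)) = _
    rw [vec_bo, vρ_smul, NF, hw]

theorem graph (h : T.Sph g) {x : FM} {y : B} (hx : x ∈ ER) (hy : (x, y) ∈ ⨆ m, Ga T g m) :
    y = 0 := by
  obtain ⟨x, rfl⟩ := hx
  have h1 := inter_Et DD (fun j c hc => mem_DD.2 (PP_dvd_of_smul (f_ne_zero _) _ (mem_DD.1 hc)))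
    (fun j => by
      rcases j with _ | j
      · exact le_top
      · exact fun c hc => mem_DD.2 ((Dvd.intro _ (PP_succ _).symm).trans (mem_DD.1 hc)))
    x (lam h hy)
  have h2 : ((Et MM x, 0) : FM × B) ∈ ⨆ m, Ga T g m := by
    refine (Submodule.span_le.2 ?_ : _ ≤ (⨆ m, Ga T g m).comap (LinearMap.inl R FM B)) h1
    rintro _ ⟨w, j, _, hw, hc, rfl⟩
    obtain ⟨e, rfl⟩ := mem_DD.1 hc
    have he : e ∈ Submodule.span R (Set.range XX) := MM_span ▸ Submodule.mem_top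
    induction he using Submodule.span_induction with
    | mem _ he =>
      obtain ⟨n, rfl⟩ := he
      have l1 : Loc (2 * (j + 1)) w.length (cups w) :=
        (cupW_cups w).loc.cast (by rw [hw, two_mul]) rfl
      have h3 := TM.Gn_loc l1 (Submodule.sub_mem _ (Submodule.smul_mem _ (f (j + 1))
        (G_mem (T := T) (g := g) (j + 1) n)) (TM.Gn_loc (loc_RtF j) (Submodule.sub_mem _
          (G_mem j (n + 1)) (Submodule.smul_mem _ (a (-4 * (j + 1))) (G_mem j (n - 1))))))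
      refine Submodule.mem_iSup_of_mem w.length ((congrArg (· ∈ _) (Prod.ext ?_ ?_)).mp h3)
      · exact (congrArg (vρ MM (cups w)) (vec_sph_LLift j n)).trans (by
          rw [vρ_smul, mul_comm]; rfl)
      · exact (congrArg (T.ρ (cups w)) (sub_eq_zero.2 (h.sph j n))).trans (map_zero _)
    | zero =>
      rw [mul_zero, zero_smul]
      exact Submodule.zero_mem _
    | add u v _ _ hu hv =>
      rw [mul_add, add_smul]
      exact Submodule.add_mem _ (hu (mem_DD.2 (Dvd.intro _ rfl))) (hv (mem_DD.2 (Dvd.intro _ rfl)))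
    | smul r u _ hu =>
      rw [mul_smul_comm, smul_assoc]
      exact Submodule.smul_mem _ r (hu (mem_DD.2 (Dvd.intro _ rfl)))
  refine graph_of_indep cr (fam h) (tri_indep cr co (fun i => vec (bo i)) (fun i => ?_) indep) y ?_
  · rw [vec_bo, sub_self]
    exact Submodule.zero_mem _
  · have := Submodule.sub_mem _ hy h2
    rwa [Prod.mk_sub_mk, sub_self, sub_zero] at this

end LLift

theorem L_lift {T : TM B} {g : Box → B} (h : T.Sph g) :
    ∃ φ : LL →ₗ[R] B, GMap TL T φ ∧ ∀ b, φ (bL b) = g b := by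
  refine TM.gen_lift h.mem fun y hy => ?_
  have e : ⨆ m, (TN.prod T).Gn (fun b => (vecN b, g b)) Box.legs m ≤
      (⨆ m, LLift.Ga T g m).map (ER.mkQ.prodMap LinearMap.id) := by
    refine iSup_le fun m => Submodule.span_le.2 ?_
    rintro _ ⟨b, x, hx, rfl⟩
    exact ⟨_, Submodule.mem_iSup_of_mem m (TM.Gn_loc hx (LLift.box_mem h b)), rfl⟩
  obtain ⟨⟨x, y'⟩, h1, h2⟩ := e hy
  obtain rfl : y' = y := congrArg Prod.snd h2
  exact LLift.graph h ((Submodule.Quotient.mk_eq_zero ER).1 (congrArg Prod.fst h2)) h1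

end Pool.Agent.P.MP_b3a239_gt
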