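import Pool.Agent.P.MP_b3a239_gt.VLift

/-! The module `LL` generated by the boxes modulo the image of `Et`, with its torus action. -/

set_option maxSynthPendingDepth 3

noncomputable section

namespace Pool.Agent.P.MP_b3a239_gt

def ER : Submodule R FM := (LinearMap.range (Et MM)).restrictScalars R

theorem ER_stable (x : FA) : ∀ w ∈ ER, (TF MM).ρ x w ∈ ER := by
  rintro _ ⟨u, rfl⟩
  exact ⟨vρ MM x u, Et_vρ x u⟩

abbrev NN : Type := FM ⧸ ER

instance : AddCommGroup NN := Submodule.Quotient.addCommGroup ER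
instance : Module R NN := Submodule.Quotient.module ER

def TN : TM NN := (TF MM).quo ER ER_stable

theorem TN_strict : TN.Strict := by
  refine ⟨?_, ?_, ?_⟩
  · rintro l m _ h ⟨w, hw, rfl⟩
    exact (congrArg ER.mkQ (TF_strict.U0 h hw)).trans (map_zero _)
  · rintro l m _ h ⟨w, hw, rfl⟩
    exact (congrArg ER.mkQ (TF_strict.C0 h hw)).trans (map_zero _)
  · change ⨆ m, ((TF MM).Lv m).map ER.mkQ = ⊤
    rw [← Submodule.map_iSup, TF_strict.top, Submodule.map_top, Submodule.range_mkQ]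

theorem TN_mk (x : FA) (w : FM) : TN.ρ x (ER.mkQ w) = ER.mkQ (vρ MM x w) := rfl

theorem mkQ_gmap : GMap (TF MM) TN ER.mkQ :=
  ⟨fun hw => ⟨_, hw, rfl⟩, fun _ _ => rfl, fun _ _ => rfl⟩

def vecN (b : Box) : NN := ER.mkQ (vec b)

theorem vecN_mem (b : Box) : vecN b ∈ TN.Lv b.legs := ⟨_, vec_mem b, rfl⟩

def LS : Submodule R NN := ⨆ m, TN.Gn vecN Box.legs m

abbrev LL : Type := ↥LS

instance : AddCommGroup LL := Submodule.addCommGroup LS
instance : Module R LL := Submodule.module LS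

def TL : TM LL := TN.gen TN_strict vecN Box.legs vecN_mem

def bL (b : Box) : LL := TN.genEl vecN Box.legs b

theorem TL_strict : TL.Strict := TM.gen_strict
theorem TL_coe (x : FA) (w : LL) : (TL.ρ x w : NN) = TN.ρ x w := rfl
theorem bL_coe (b : Box) : (bL b : NN) = ER.mkQ (vec b) := rfl
theorem bL_mem (b : Box) : bL b ∈ TL.Lv b.legs := TM.genEl_mem b
theorem TL_Lv_le (m : ℕ) : TL.Lv m ≤ TL.Gn bL Box.legs m := TM.gen_Lv_le m

theorem L_ext {B : Type} [AddCommGroup B] [Module R B] {T : TM B} {φ ψ : LL →ₗ[R] B}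
    (hφ : GMap TL T φ) (hψ : GMap TL T ψ) (h : ∀ b, φ (bL b) = ψ (bL b)) : φ = ψ :=
  GMap.ext_gen bL_mem TL_Lv_le TL_strict.top hφ hψ h

theorem ev_bL_coe {m : ℕ} {x : PA} (hx : x ∈ Rep m) :
    (ev TL.ρ bL x : NN) = ER.mkQ (ev (vρ MM) vec x) := by
  have h₁ := GMap.ev (T := TL) (T' := TN) (φ := LS.subtype) TM.gen_gmap bL_mem hx
  have h₂ := GMap.ev mkQ_gmap (g := vec) vec_mem hx
  exact h₁.trans h₂.symm

private theorem LMod_ev_mem {m : ℕ} {x : PA} (hx : x ∈ Rep m) :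
    ER.mkQ (ev (vρ MM) vec x) ∈ TN.Gn vecN Box.legs m := by
  rw [← ev_bL_coe hx]
  exact ev_mem (T := TL) bL_mem hx

private theorem LMod_smul_ER (c : MM) {w : FM} (hw : w ∈ ER) : c • w ∈ ER := by
  obtain ⟨u, rfl⟩ := hw
  exact ⟨c • u, map_smul _ _ _⟩

private theorem LMod_cmap_ER (χ : MM →ₗ[R] MM) {w : FM} (hw : w ∈ ER) : cmap χ w ∈ ER := by
  obtain ⟨u, rfl⟩ := hw
  exact ⟨cmap χ u, (cmap_Et χ u).symm⟩

private theorem LMod_dl_mem {m : ℕ} {w : FM} (hw : w ∈ (TF MM).Gn omF (fun l => 2 * l) m) :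
    ER.mkQ (dl • w) ∈ TN.Gn vecN Box.legs m := by
  induction hw using Submodule.span_induction with
  | mem y hy =>
    obtain ⟨l, x, hx, rfl⟩ := hy
    have h := LMod_ev_mem (Om_mem_Rep l 0)
    rw [ev_Om, XX_zero, one_mul] at h
    have h' := TM.Gn_loc hx h
    rw [TN_mk, vρ_smul] at h'
    exact h'
  | zero => rw [smul_zero, map_zero]; exact zero_mem _
  | add y z _ _ hy hz => rw [smul_add, map_add]; exact add_mem hy hz
  | smul c y _ hy => rw [smul_comm, map_smul]; exact Submodule.smul_mem _ c hy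

/-- an operator on the vertex model that keeps everything descends to `LL` -/
private theorem LMod_desc (χ : FM →ₗ[R] FM) (hρ : ∀ x w, χ (vρ MM x w) = vρ MM x (χ w))
    (hE : ∀ w ∈ ER, χ w ∈ ER) (hg : ∀ b, ER.mkQ (χ (vec b)) ∈ TN.Gn vecN Box.legs b.legs) :
    ∃ z : Module.End R LL, TL.Natl z ∧
      ∀ (v : LL) w, (v : NN) = ER.mkQ w → (z v : NN) = ER.mkQ (χ w) := by
  let χ' : NN →ₗ[R] NN := ER.mapQ ER χ hE
  have h₀ : ∀ w, χ' (ER.mkQ w) = ER.mkQ (χ w) := fun _ => rfl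
  have h₁ : ∀ x y, χ' (TN.ρ x y) = TN.ρ x (χ' y) := by
    intro x y
    obtain ⟨w, rfl⟩ := ER.mkQ_surjective y
    rw [TN_mk, h₀, h₀, TN_mk, hρ]
  have h₂ : ∀ m, TN.Gn vecN Box.legs m ≤ (TN.Gn vecN Box.legs m).comap χ' := by
    intro m
    refine Submodule.span_le.2 ?_
    rintro _ ⟨b, x, hx, rfl⟩
    change χ' (TN.ρ x (vecN b)) ∈ TN.Gn vecN Box.legs m
    rw [h₁]
    exact TM.Gn_loc hx (hg b)
  have h₃ : LS ≤ LS.comap χ' :=
    iSup_le fun m y hy => Submodule.mem_iSup_of_mem (p := fun m => TN.Gn vecN Box.legs m) m (h₂ m hy)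
  refine ⟨χ'.restrict h₃, ⟨fun x => ?_, fun m w hw => h₂ m hw⟩, fun v w h => ?_⟩
  · exact LinearMap.ext fun v => Subtype.ext (h₁ x v)
  · change χ' v = _
    rw [h, h₀]

private theorem LMod_unit {χ χ' : FM →ₗ[R] FM} (h₁ : ∀ w, χ (χ' w) = w) (h₂ : ∀ w, χ' (χ w) = w)
    (h : ∃ z : Module.End R LL, TL.Natl z ∧
      ∀ (v : LL) w, (v : NN) = ER.mkQ w → (z v : NN) = ER.mkQ (χ w))
    (h' : ∃ z : Module.End R LL, TL.Natl z ∧
      ∀ (v : LL) w, (v : NN) = ER.mkQ w → (z v : NN) = ER.mkQ (χ' w)) :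
    ∃ x : (Module.End R LL)ˣ, x ∈ TL.natU ∧
      (∀ (v : LL) w, (v : NN) = ER.mkQ w → (x.1 v : NN) = ER.mkQ (χ w)) ∧
      ∀ (v : LL) w, (v : NN) = ER.mkQ w → (x⁻¹.1 v : NN) = ER.mkQ (χ' w) := by
  obtain ⟨z, hz, hz'⟩ := h
  obtain ⟨y, hy, hy'⟩ := h'
  refine ⟨⟨z, y, ?_, ?_⟩, ⟨hz, hy⟩, hz', hy'⟩
  · refine LinearMap.ext fun v => Subtype.ext ?_
    obtain ⟨w, hw⟩ := ER.mkQ_surjective v
    exact (hz' _ _ (hy' v w hw.symm)).trans (by rw [h₁]; exact hw)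
  · refine LinearMap.ext fun v => Subtype.ext ?_
    obtain ⟨w, hw⟩ := ER.mkQ_surjective v
    exact (hy' _ _ (hz' v w hw.symm)).trans (by rw [h₂]; exact hw)

private theorem LMod_XX_G (j : ℤ) (k : ℕ) (n : ℤ) : XX j • vec (.G k n) = vec (.G k (n + j)) := by
  simp only [vec]
  rw [smul_smul, ← mul_assoc, ← XX_add, add_comm j n]

private theorem LMod_XX_t (j n : ℤ) : XX j • vec (.t n) = vec (.t (n + j)) := by
  simp only [vec]
  rw [smul_smul, mul_smul_comm, ← XX_add, add_comm j n]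

private theorem LMod_Yc_t (j n : ℤ) : cmap (Yc j) (vec (.t n)) = a (2 * j * n) • vec (.t n) := by
  simp only [vec]
  rw [cmap_smul_bas, map_smul, Yc_XX, smul_comm (f 0), smul_assoc]

private theorem LMod_desc_XX (j : ℤ) : ∃ z : Module.End R LL, TL.Natl z ∧
    ∀ (v : LL) w, (v : NN) = ER.mkQ w →
      (z v : NN) = ER.mkQ ((LinearMap.lsmul MM FM (XX j)).restrictScalars R w) := by
  refine LMod_desc _ (fun x w => (vρ_smul x _ w).symm) (fun w hw => LMod_smul_ER _ hw) fun b => ?_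
  change ER.mkQ (XX j • vec b) ∈ _
  cases b with
  | G k n => rw [LMod_XX_G]; exact TN.gen_mem_Gn vecN Box.legs (.G k (n + j))
  | t n => rw [LMod_XX_t]; exact TN.gen_mem_Gn vecN Box.legs (.t (n + j))

theorem exists_αL : ∃ α : V →ₗ[R] LL, GMap TV TL α ∧
    ∀ w, (α w : NN) = ER.mkQ (dl • (w : FM)) := by
  let φ : V →ₗ[R] NN := ER.mkQ ∘ₗ (LinearMap.lsmul MM FM dl).restrictScalars R ∘ₗ VS.subtype
  have hφ : ∀ w : V, φ w = ER.mkQ (dl • (w : FM)) := fun _ => rfl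
  have hm : ∀ w : V, φ w ∈ LS := by
    rintro ⟨w, hw⟩
    have : VS ≤ LS.comap (ER.mkQ ∘ₗ (LinearMap.lsmul MM FM dl).restrictScalars R) :=
      iSup_le fun m y hy =>
        Submodule.mem_iSup_of_mem (p := fun m => TN.Gn vecN Box.legs m) m (LMod_dl_mem hy)
    exact this hw
  have hn : ∀ (x : FA) (w : V), φ.codRestrict LS hm (TV.ρ x w) = TL.ρ x (φ.codRestrict LS hm w) := by
    intro x w
    refine Subtype.ext ?_
    change φ (TV.ρ x w) = TN.ρ x (φ w)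
    rw [hφ, hφ, TN_mk, vρ_smul, TV_coe]
  exact ⟨φ.codRestrict LS hm, ⟨fun hw => LMod_dl_mem hw, fun _ _ => hn _ _, fun _ _ => hn _ _⟩,
    fun _ => rfl⟩

theorem exists_xL : ∃ x : (Module.End R LL)ˣ, x ∈ TL.natU ∧
    (∀ (v : LL) w, (v : NN) = ER.mkQ w → (x.1 v : NN) = ER.mkQ (XX 1 • w)) ∧
    ∀ (v : LL) w, (v : NN) = ER.mkQ w → (x⁻¹.1 v : NN) = ER.mkQ (XX (-1) • w) := by
  refine LMod_unit (fun w => ?_) (fun w => ?_) (LMod_desc_XX 1) (LMod_desc_XX (-1))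
  · change XX 1 • XX (-1) • w = w
    rw [smul_smul, ← XX_add, add_neg_cancel, XX_zero, one_smul]
  · change XX (-1) • XX 1 • w = w
    rw [smul_smul, ← XX_add, neg_add_cancel, XX_zero, one_smul]

private theorem LMod_low_zero (k : ℕ) (n : ℤ) : ev (vρ MM) vec (low k 0 n) = vec (.G k n) := by
  rw [show low k 0 n = bx (.G k n) by cases k <;> rfl, ev_bx]

private theorem LMod_low_one (n : ℤ) : ev (vρ MM) vec (low 0 1 n) = vec (.t n) := by
  rw [show low 0 1 n = bx (.t n) from rfl, ev_bx]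

private theorem LMod_low_two (n : ℤ) : ev (vρ MM) vec (low 0 2 n) = 0 := by
  rw [show low 0 2 n = 0 from rfl, map_zero]

private theorem LMod_sph (k : ℕ) :
    f (k + 1) • eta MM (k + 1) (k + 1) - vρ MM (RtF k) (eta MM k k) ∈ ER := by
  have h : Et MM (eta MM k (k + 2)) ∈ ER := ⟨_, rfl⟩
  have h' := ER.smul_mem (a (-(2 * k - 4 * (k + 1)))) h
  rwa [Et_eta, smul_smul, mul_comm, a_mul_neg, one_smul] at h'

theorem Yc_low (k i : ℕ) (n : ℤ) (hi : i ≤ k + 1) :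
    cmap (Yc (-1)) (ev (vρ MM) vec (low k i n)) - a (-2 * (n + k - i + 1)) •
      (ev (vρ MM) vec (low k i n) + a (-4 * (k - i)) • ev (vρ MM) vec (low k (i + 1) (n - 1))) ∈
        ER := by
  induction i generalizing k with
  | zero =>
    cases k with
    | zero =>
      rw [LMod_low_zero, zero_add, LMod_low_one]
      simp only [vec, eta]
      rw [cmap_smul_bas, Yc_PP_zero]
      have e₁ : (-2 * (n + ((0 : ℕ) : ℤ) - ((0 : ℕ) : ℤ) + 1) : ℤ) = -2 * (n + 1) := by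
        push_cast; ring
      have e₂ : (-4 * (((0 : ℕ) : ℤ) - ((0 : ℕ) : ℤ)) : ℤ) = 0 := by simp
      rw [e₁, e₂, a_zero, one_smul, show etaW 0 0 = [] from rfl, ← add_smul, smul_assoc, sub_self]
      exact zero_mem _
    | succ k =>
      rw [LMod_low_zero, ev_low_succ, LMod_low_zero]
      have h := ER.smul_mem (a (-2 * (n + k + 2)) * a (-4 * (k + 1)))
        (LMod_smul_ER (XX (n - 1) * PP k) (LMod_sph k))
      have e₁ : (-2 * (n + ((k + 1 : ℕ) : ℤ) - ((0 : ℕ) : ℤ) + 1) : ℤ) = -2 * (n + k + 2) := by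
        push_cast; ring
      have e₂ : (-4 * (((k + 1 : ℕ) : ℤ) - ((0 : ℕ) : ℤ)) : ℤ) = -4 * (k + 1) := by
        push_cast; ring
      have e₃ : cmap (Yc (-1)) (vec (.G (k + 1) n)) =
          Yc (-1) (XX n * PP (k + 1)) • eta MM (k + 1) (k + 1) := cmap_smul_bas _ _ _
      rw [e₁, e₂, e₃, Yc_PP_succ]
      simp only [vec]
      rw [vρ_smul]
      convert h using 1
      simp only [smul_assoc, add_smul, smul_add, smul_sub, mul_smul]
      rw [smul_comm (PP k) (f (k + 1)), smul_comm (XX (n - 1)) (f (k + 1))]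
      abel
  | succ i ih =>
    cases k with
    | zero =>
      obtain rfl : i = 0 := by omega
      rw [zero_add, LMod_low_one, show 1 + 1 = 2 from rfl, LMod_low_two, LMod_Yc_t, smul_zero,
        add_zero]
      have e₁ : (-2 * (n + ((0 : ℕ) : ℤ) - ((1 : ℕ) : ℤ) + 1) : ℤ) = 2 * -1 * n := by
        push_cast; ring
      rw [e₁, sub_self]
      exact zero_mem _
    | succ k =>
      have h := ER_stable (RtF k) _ (ih k (by omega))
      have e₁ : (-2 * (n + ((k + 1 : ℕ) : ℤ) - ((i + 1 : ℕ) : ℤ) + 1) : ℤ) =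
          -2 * (n + k - i + 1) := by push_cast; ring
      have e₂ : (-4 * (((k + 1 : ℕ) : ℤ) - ((i + 1 : ℕ) : ℤ)) : ℤ) = -4 * (k - i) := by
        push_cast; ring
      rw [e₁, e₂, ev_low_succ, ev_low_succ, cmap_vρ]
      rwa [TF_ρ, map_sub, map_smul, map_add, map_smul] at h

private theorem LMod_t_mem (j n : ℤ) :
    ER.mkQ (cmap (Yc j) (vec (.t n))) ∈ TN.Gn vecN Box.legs 0 := by
  rw [LMod_Yc_t, map_smul]
  exact Submodule.smul_mem _ _ (TN.gen_mem_Gn vecN Box.legs (.t n))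

private theorem LMod_G_mem_neg (k : ℕ) (n : ℤ) :
    ER.mkQ (cmap (Yc (-1)) (vec (.G k n))) ∈ TN.Gn vecN Box.legs (2 * k) := by
  have h := (Submodule.Quotient.eq ER).2 (Yc_low k 0 n (by omega))
  rw [← LMod_low_zero]
  change ER.mkQ _ = ER.mkQ _ at h
  rw [h, map_smul, map_add, map_smul]
  exact Submodule.smul_mem _ _ (add_mem (LMod_ev_mem (low_mem_Rep _ _ _))
    (Submodule.smul_mem _ _ (LMod_ev_mem (low_mem_Rep _ _ _))))

private theorem LMod_Yc_Yc {i j : ℤ} (h : i + j = 0) (w : FM) : cmap (Yc i) (cmap (Yc j) w) = w := by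
  rw [cmap_cmap, Yc_comp, h, Yc_zero, cmap_id]

private theorem LMod_G_mem_step (k : ℕ) (n : ℤ)
    (hk : ER.mkQ (cmap (Yc 1) (ev (vρ MM) vec (low k 1 (n - 1)))) ∈ TN.Gn vecN Box.legs (2 * k)) :
    ER.mkQ (cmap (Yc 1) (vec (.G k n))) ∈ TN.Gn vecN Box.legs (2 * k) := by
  have h₀ := LMod_cmap_ER (Yc 1) (Yc_low k 0 n (by omega))
  rw [map_sub, LMod_Yc_Yc (add_neg_cancel 1), LMod_low_zero, map_smul, map_add, map_smul,
    zero_add] at h₀
  have h := (Submodule.Quotient.eq ER).2 h₀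
  change ER.mkQ _ = ER.mkQ _ at h
  rw [map_smul, map_add, map_smul] at h
  have h₁ : ER.mkQ (vec (.G k n)) ∈ TN.Gn vecN Box.legs (2 * k) :=
    TN.gen_mem_Gn vecN Box.legs (.G k n)
  rw [h] at h₁
  have h₂ := Submodule.smul_mem _ (a (-(-2 * (n + (k : ℤ) - ((0 : ℕ) : ℤ) + 1)))) h₁
  rw [smul_smul, ← a_add, neg_add_cancel, a_zero, one_smul] at h₂
  exact (Submodule.add_mem_iff_left _ (Submodule.smul_mem _ _ hk)).1 h₂

private theorem LMod_G_mem_pos (k : ℕ) (n : ℤ) :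
    ER.mkQ (cmap (Yc 1) (vec (.G k n))) ∈ TN.Gn vecN Box.legs (2 * k) := by
  induction k generalizing n with
  | zero =>
    refine LMod_G_mem_step 0 n ?_
    rw [LMod_low_one]
    exact LMod_t_mem _ _
  | succ k ih =>
    refine LMod_G_mem_step (k + 1) n ?_
    rw [show low (k + 1) 1 (n - 1) = low (k + 1) (0 + 1) (n - 1) from rfl, ev_low_succ,
      LMod_low_zero, cmap_vρ, ← TN_mk]
    exact TM.Gn_loc (loc_RtF k) (ih _)

private theorem LMod_desc_Yc (j : ℤ)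
    (hG : ∀ k n, ER.mkQ (cmap (Yc j) (vec (.G k n))) ∈ TN.Gn vecN Box.legs (2 * k)) :
    ∃ z : Module.End R LL, TL.Natl z ∧ ∀ (v : LL) w, (v : NN) = ER.mkQ w →
      (z v : NN) = ER.mkQ ((-cmap (Yc j) : FM →ₗ[R] FM) w) := by
  refine LMod_desc _ (fun x w => ?_) (fun w hw => neg_mem (LMod_cmap_ER _ hw)) fun b => ?_
  · rw [LinearMap.neg_apply, LinearMap.neg_apply, map_neg, cmap_vρ]
  · rw [LinearMap.neg_apply, map_neg]
    cases b with
    | G k n => exact neg_mem (hG k n)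
    | t n => exact neg_mem (LMod_t_mem j n)

theorem exists_yL : ∃ y : (Module.End R LL)ˣ, y ∈ TL.natU ∧
    (∀ (v : LL) w, (v : NN) = ER.mkQ w → (y.1 v : NN) = ER.mkQ (-cmap (Yc 1) w)) ∧
    ∀ (v : LL) w, (v : NN) = ER.mkQ w → (y⁻¹.1 v : NN) = ER.mkQ (-cmap (Yc (-1)) w) := by
  refine LMod_unit (fun w => ?_) (fun w => ?_) (LMod_desc_Yc 1 LMod_G_mem_pos)
    (LMod_desc_Yc (-1) LMod_G_mem_neg)
  · rw [LinearMap.neg_apply, LinearMap.neg_apply, map_neg, neg_neg, LMod_Yc_Yc (add_neg_cancel 1)]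
  · rw [LinearMap.neg_apply, LinearMap.neg_apply, map_neg, neg_neg, LMod_Yc_Yc (neg_add_cancel 1)]

def αL : V →ₗ[R] LL := exists_αL.choose
def xT : (Module.End R LL)ˣ := exists_xL.choose
def yT : (Module.End R LL)ˣ := exists_yL.choose

theorem αL_gmap : GMap TV TL αL := exists_αL.choose_spec.1
theorem αL_coe (w : V) : (αL w : NN) = ER.mkQ (dl • (w : FM)) := exists_αL.choose_spec.2 w
theorem xT_nat : xT ∈ TL.natU := exists_xL.choose_spec.1
theorem xT_coe {v : LL} {w : FM} (h : (v : NN) = ER.mkQ w) :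
    (xT.1 v : NN) = ER.mkQ (XX 1 • w) := exists_xL.choose_spec.2.1 v w h
theorem xT_inv_coe {v : LL} {w : FM} (h : (v : NN) = ER.mkQ w) :
    (xT⁻¹.1 v : NN) = ER.mkQ (XX (-1) • w) := exists_xL.choose_spec.2.2 v w h
theorem yT_nat : yT ∈ TL.natU := exists_yL.choose_spec.1
theorem yT_coe {v : LL} {w : FM} (h : (v : NN) = ER.mkQ w) :
    (yT.1 v : NN) = ER.mkQ (-cmap (Yc 1) w) := exists_yL.choose_spec.2.1 v w h
theorem yT_inv_coe {v : LL} {w : FM} (h : (v : NN) = ER.mkQ w) :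
    (yT⁻¹.1 v : NN) = ER.mkQ (-cmap (Yc (-1)) w) := exists_yL.choose_spec.2.2 v w h

theorem xT_zpow_coe (n : ℤ) {v : LL} {w : FM} (h : (v : NN) = ER.mkQ w) :
    ((xT ^ n).1 v : NN) = ER.mkQ (XX n • w) := by
  induction n using Int.induction_on with
  | zero => rw [zpow_zero, XX_zero, one_smul]; exact h
  | succ n ih =>
    rw [add_comm, zpow_add, zpow_one, XX_add, mul_smul]
    exact xT_coe ih
  | pred n ih =>
    rw [sub_eq_neg_add, zpow_add, zpow_neg_one, XX_add, mul_smul]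
    exact xT_inv_coe ih

theorem xT_G (k : ℕ) (n : ℤ) : xT.1 (bL (.G k n)) = bL (.G k (n + 1)) :=
  Subtype.ext ((xT_coe (bL_coe _)).trans (by rw [LMod_XX_G]; rfl))
theorem xT_t (n : ℤ) : xT.1 (bL (.t n)) = bL (.t (n + 1)) :=
  Subtype.ext ((xT_coe (bL_coe _)).trans (by rw [LMod_XX_t]; rfl))
theorem yT_inv_t (n : ℤ) : yT⁻¹.1 (bL (.t n)) = -(a (-2 * n) • bL (.t n)) := by
  refine Subtype.ext ((yT_inv_coe (bL_coe _)).trans ?_)
  rw [LMod_Yc_t, map_neg, map_smul, show (2 * -1 * n : ℤ) = -2 * n by ring]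
  rfl

theorem αL_om (l : ℕ) (n : ℤ) : (xT ^ n).1 (αL (om l)) = ev TL.ρ bL (Om l n) := by
  refine Subtype.ext ((xT_zpow_coe n (αL_coe _)).trans ?_)
  rw [ev_bL_coe (Om_mem_Rep l n), ev_Om, om_coe, mul_smul]

end Pool.Agent.P.MP_b3a239_gt
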