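import Pool.Agent.P.MP_b3a239_gt.VXh

/-! The two relations that hold modulo the image of `Et`. -/

set_option maxSynthPendingDepth 3

noncomputable section

namespace Pool.Agent.P.MP_b3a239_gt

/-- the inverse of `Xh` on positive levels -/
def Zh : FM →ₗ[MM] FM := (-a (-4)) • (Xh + (a 2 • zz) • LinearMap.id)

private def vV : MM := algebraMap R MM (a 2)
private def vW : MM := algebraMap R MM (a (-2))

private theorem hVW : vV * vW = 1 := by
  rw [vV, vW, ← map_mul, a_mul_neg, map_one]

private theorem hXX : XX 1 * XX (-1) = 1 := by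
  rw [← XX_add]; simp

private theorem alg_a2 : algebraMap R MM (a 2) = vV := rfl
private theorem alg_am2 : algebraMap R MM (a (-2)) = vW := rfl
private theorem alg_a4 : algebraMap R MM (a 4) = vV * vV := by
  rw [vV, ← map_mul, ← a_add]; norm_num
private theorem alg_am4 : algebraMap R MM (a (-4)) = vW * vW := by
  rw [vW, ← map_mul, ← a_add]; norm_num
private theorem alg_f0 : algebraMap R MM (f 0) = 1 - vV * vV := by
  rw [← alg_a4, f]; simp
private theorem XX_two : XX 2 = XX 1 * XX 1 := by
  rw [← XX_add]; norm_num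

private theorem smF (r : R) (w : FM) : r • w = algebraMap R MM r • w :=
  (algebraMap_smul MM r w).symm

private theorem cmapY (j : ℤ) (c : MM) (w : FM) :
    cmap (Yc j) (c • w) = Yc j c • cmap (Yc j) w :=
  cmap_smul (Yc j) (fun e => Yc_mul j c e) w

private theorem Yc_one (j : ℤ) : Yc j 1 = 1 := by
  have := Yc_XX j 0
  simpa using this

private theorem Yc_alg (j : ℤ) (r : R) : Yc j (algebraMap R MM r) = algebraMap R MM r := by
  rw [Algebra.algebraMap_eq_smul_one, map_smul, Yc_one]

private theorem Yc_V (j : ℤ) : Yc j vV = vV := Yc_alg j _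
private theorem Yc_W (j : ℤ) : Yc j vW = vW := Yc_alg j _

private theorem Ym_X : Yc (-1) (XX 1) = vW * XX 1 := by
  rw [Yc_XX, Algebra.smul_def]; norm_num [alg_am2]
private theorem Ym_Xi : Yc (-1) (XX (-1)) = vV * XX (-1) := by
  rw [Yc_XX, Algebra.smul_def]; norm_num [alg_a2]
private theorem Yp_X : Yc 1 (XX 1) = vV * XX 1 := by
  rw [Yc_XX, Algebra.smul_def]; norm_num [alg_a2]
private theorem Yp_Xi : Yc 1 (XX (-1)) = vW * XX (-1) := by
  rw [Yc_XX, Algebra.smul_def]; norm_num [alg_am2]

private theorem Ym_qX : Yc (-1) (a 4 • XX 2) = XX 2 := by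
  rw [map_smul, Yc_XX, smul_smul, ← a_add]; norm_num

private theorem Ym_om (l : ℕ) : cmap (Yc (-1)) (omF l) = KP MM (-2) l (omF l) := by
  rw [Yc_omF]; norm_num
private theorem Yp_om (l : ℕ) : cmap (Yc 1) (omF l) = KP MM 2 l (omF l) := by
  rw [Yc_omF]; norm_num

private theorem EE_wm (l : ℕ) : EE MM (KP MM (-2) l (omF l)) =
    (1 - XX 1 * XX 1) • EP MM l (KP MM (-2) l (omF l)) := by
  have h := congrArg (cmap (Yc (-1))) (EE_omF l)
  rwa [cmap_EE, cmapY, cmap_EP, Ym_om, map_sub, Yc_one, Ym_qX, XX_two] at h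

private theorem EE_FP_wm (l : ℕ) :
    (1 - vV * vV) • EE MM (FP MM l (KP MM (-2) l (omF l))) =
      ((1 - vV * vV) * (1 - XX 1 * XX 1)) • EP MM l (FP MM l (KP MM (-2) l (omF l))) +
        (XX 1 * XX 1) • (KP MM (-2) l (omF l) - KP MM 2 l (omF l)) := by
  have h := congrArg (cmap (Yc (-1))) (EE_FP_omF l)
  rw [map_smul, cmap_EE, cmap_FP, map_add, cmapY, cmapY, cmap_EP, cmap_FP, map_sub, cmap_KP,
    Ym_om, KP_KP, map_smul, map_sub, Yc_one, Ym_qX, XX_two, smF, Algebra.smul_def, alg_f0] at h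
  norm_num at h ⊢
  exact h

private theorem aY_eq (l : ℕ) : vρ MM (fin false 1 l * U 0) (omF l) =
    cons MM false (cons MM true (KP MM (-2) l (omF l)) +
        (vW * (1 - vV * vV)) • cons MM false (EP MM l (KP MM (-2) l (omF l)))) -
      vW • cons MM true (cons MM false (KP MM 2 l (omF l)) +
        (vV * (1 - vV * vV)) • cons MM true (FP MM l (KP MM (-2) l (omF l))) +
        ((1 - vV * vV) * (1 - vV * vV)) •
          cons MM false (EP MM l (FP MM l (KP MM (-2) l (omF l))))) := by
  have hl : l ≤ 2 * l := by omega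
  have hf : fin false 1 l = shn 1 (fin false 0 l) := by rw [shn_fin]
  rw [map_mul, Module.End.mul_apply, vρ_U_zero, map_sub, map_smul, hf, vρ_shn_cons, vρ_shn_cons,
    mon_true hl (omF_mem l), mon_false hl (omF_mem l)]
  simp only [smF, map_mul, alg_a2, alg_am2, alg_f0]

private theorem Et_eq (w : FM) : Et MM w = (1 - vV * vV) • EE MM w := by
  rw [Et_apply, smF, alg_f0]

private theorem C_zero (b c : Bool) (w : FM) : vρ MM (C 0) (cons MM b (cons MM c w)) =
    if b = c then 0 else if b then w else -(vV • w) := by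
  rw [vρ_C_zero, smF, alg_a2]

theorem GY_omF (l : ℕ) :
    dl • vρ MM (C 0 * fin false 1 l * U 0) (omF l) + cmap (Yc 1) (dl • omF l) +
      cmap (Yc (-1)) (dl • omF l) ∈ LinearMap.range (Et MM) := by
  refine ⟨(vW * XX (-1) * (1 - vV * vV)) • FP MM l (KP MM (-2) l (omF l)), ?_⟩
  rw [mul_assoc (C 0), map_mul, Module.End.mul_apply, aY_eq, cmapY, cmapY, Ym_om, Yp_om,
    map_smul, Et_eq, EE_FP_wm]
  simp only [map_add, map_sub, map_smul, vρ_smul, C_zero, dl, Ym_X, Ym_Xi, Yp_X, Yp_Xi]
  have h1 := hVW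
  have h2 := hXX
  simp only [Bool.false_eq_true, Bool.true_eq_false, if_true, if_false]
  match_scalars <;> grind

private theorem Zh_apply (y : FM) :
    Zh y = (-(vW * vW)) • (Xh y + (vV * (XX 1 + XX (-1))) • y) := by
  change (-a (-4)) • (Xh y + (a 2 • zz) • y) = _
  rw [smF, map_neg, alg_am4, Algebra.smul_def, alg_a2, zz]

private theorem Zh_false (y : FM) : Zh (cons MM false y) = (-(vW * XX 1)) • cons MM false y := by
  rw [Zh_apply, Xh_false, Algebra.smul_def, alg_a2]
  have h1 := hVW
  match_scalars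
  grind

private theorem Zh_true (y : FM) : Zh (cons MM true y) =
    (-(vW * XX (-1))) • cons MM true y - (vW * vW * XX (-1)) • cons MM false (Et MM y) := by
  rw [Zh_apply, Xh_true, Algebra.smul_def, alg_a2]
  have h1 := hVW
  match_scalars <;> grind

private theorem Et_false' (y : FM) : Et MM (cons MM false y) =
    (1 - vV * vV) • cons MM true y + vW • cons MM false (Et MM y) := by
  rw [Et_false, smF, smF (a (-2)), alg_f0, alg_am2]

private theorem J_third (w : FM) :
    (a 4 • dl) • Zh (vρ MM (U 0) w) + (a 2 • XX (-1) * dl) • vρ MM (U 0) w =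
      (dl * (vW * XX (-1) - vV * XX 1)) • cons MM false (cons MM true w) +
        (dl * (vW * vW * XX (-1))) • cons MM false (cons MM false (Et MM w)) := by
  rw [vρ_U_zero, smF, alg_am2]
  simp only [map_sub, map_smul, map_add, Zh_false, Zh_true, Et_false', Algebra.smul_def, alg_a4,
    alg_a2]
  have h1 := hVW
  match_scalars <;> grind

private theorem J_first (ym yp : FM) :
    dl • Zh (cons MM false ym - vW • cons MM true yp) +
      (a 2 • XX (-1) * dl) • (cons MM false ym - vW • cons MM true yp) =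
      Et MM ((vW * vW * XX (-1) * dl) • cons MM false yp) +
        (dl * (vV * XX (-1) - vW * XX 1)) • cons MM false ym := by
  simp only [map_sub, map_smul, Zh_false, Zh_true, Et_false', Algebra.smul_def, alg_a2]
  have h1 := hVW
  match_scalars <;> grind

theorem J_omF (l : ℕ) :
    dl • Zh (vρ MM (fin false 1 l * U 0) (omF l)) +
      (a 2 • XX (-1) * dl) • vρ MM (fin false 1 l * U 0) (omF l) -
      cmap (Yc (-1)) ((a 4 • dl) • Zh (vρ MM (U 0) (omF l)) +
        (a 2 • XX (-1) * dl) • vρ MM (U 0) (omF l)) ∈ LinearMap.range (Et MM) := by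
  rw [aY_eq, J_first, J_third, add_sub_assoc]
  refine add_mem ⟨_, rfl⟩ ?_
  convert zero_mem (LinearMap.range (Et MM)) using 1
  rw [map_add (cmap (Yc (-1))), cmapY, cmapY, cmap_cons, cmap_cons, cmap_cons, cmap_cons, cmap_Et,
    Ym_om, Et_eq, EE_wm]
  simp only [map_add, map_sub, map_smul, Yc_mul, Yc_V, Yc_W, dl, Ym_X, Ym_Xi]
  have h1 := hVW
  have h2 := hXX
  match_scalars <;> grind

end Pool.Agent.P.MP_b3a239_gt
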