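import Pool.Agent.P.MP_b3a239_gt.VOm
import Pool.Agent.P.MP_b3a239_gt.Kit2

/-! The longitudinal drag in the vertex model. -/

set_option maxSynthPendingDepth 3

noncomputable section

namespace Pool.Agent.P.MP_b3a239_gt

/-- the scalar `A` -/
def VXh_A : MM := algebraMap R MM (a 1)
/-- the scalar `A⁻¹` -/
def VXh_B : MM := algebraMap R MM (a (-1))

theorem VXh_AB : VXh_A * VXh_B = 1 := by
  rw [VXh_A, VXh_B, ← map_mul, a_mul_neg, map_one]

theorem VXh_XY : XX 1 * XX (-1) = 1 := by rw [← XX_add]; simp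

theorem VXh_pos (n : ℕ) : algebraMap R MM (a n) = VXh_A ^ n := by
  rw [VXh_A, ← map_pow, a_pow, mul_one]

theorem VXh_neg (n : ℕ) : algebraMap R MM (a (-n)) = VXh_B ^ n := by
  rw [VXh_B, ← map_pow, a_pow, mul_neg, mul_one]

theorem VXh_1 : algebraMap R MM (a 1) = VXh_A := rfl
theorem VXh_m1 : algebraMap R MM (a (-1)) = VXh_B := rfl
theorem VXh_2 : algebraMap R MM (a 2) = VXh_A ^ 2 := VXh_pos 2
theorem VXh_3 : algebraMap R MM (a 3) = VXh_A ^ 3 := VXh_pos 3
theorem VXh_4 : algebraMap R MM (a 4) = VXh_A ^ 4 := VXh_pos 4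
theorem VXh_m2 : algebraMap R MM (a (-2)) = VXh_B ^ 2 := VXh_neg 2
theorem VXh_f : algebraMap R MM (f 0) = 1 - VXh_A ^ 4 := by
  rw [← VXh_4, f, map_sub, map_one]; rfl

theorem VXh_sm (r : R) (w : FM) : r • w = algebraMap R MM r • w := (algebraMap_smul MM r w).symm

theorem Xh_nil : Xh (bas MM []) = bas MM [] := by simp [Xh, xL]
theorem Xh_false (w : FM) : Xh (cons MM false w) = (-(a 2 • XX (-1))) • cons MM false w := by
  have : Xh ∘ₗ cons MM false = (-(a 2 • XX (-1))) • cons MM false :=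
    F_ext fun u => by simp [Xh, xL]
  exact LinearMap.congr_fun this w
theorem Xh_true (w : FM) : Xh (cons MM true w) =
    (-(a 2 • XX 1)) • cons MM true w + XX (-1) • cons MM false (Et MM w) := by
  have : Xh ∘ₗ cons MM true =
      (-(a 2 • XX 1)) • cons MM true + XX (-1) • (cons MM false ∘ₗ Et MM) :=
    F_ext fun u => by simp [Xh, xL]
  exact LinearMap.congr_fun this w
theorem Xh_mem {m : ℕ} {w : FM} (hw : w ∈ vLv MM m) : Xh w ∈ vLv MM m := by
  cases m with
  | zero =>
    rw [eq_of_mem_vLv_zero hw, map_smul, Xh_nil]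
    exact smul_mem_vLv _ (bas_mem_vLv [])
  | succ m =>
    obtain ⟨u, hu, v, hv, rfl⟩ := exists_cons_of_mem_vLv hw
    rw [map_add, Xh_true, Xh_false, Et_apply]
    exact add_mem (add_mem (smul_mem_vLv _ (cons_mem_vLv _ hu)) (smul_mem_vLv _ (cons_mem_vLv _
      (Submodule.smul_mem _ _ (EE_mem hu))))) (smul_mem_vLv _ (cons_mem_vLv _ hv))

theorem VXh_nil (x : FA) : ∃ c : MM, vρ MM (shn 1 x) (bas MM []) = c • bas MM [] := by
  induction x using FreeAlgebra.induction with
  | grade0 r => exact ⟨algebraMap R MM r, by simp [Module.algebraMap_end_apply]⟩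
  | grade1 g =>
    cases g with
    | u l => exact ⟨0, by rw [zero_smul]; exact (congrArg (vρ MM · _) (shn_U 1 l)).trans (vρ_U_bas _ _)⟩
    | c l => exact ⟨0, by rw [zero_smul]; exact (congrArg (vρ MM · _) (shn_C 1 l)).trans (vρ_C_bas _ _)⟩
  | mul x y hx hy =>
    obtain ⟨c, hc⟩ := hx
    obtain ⟨e, he⟩ := hy
    exact ⟨e * c, by rw [map_mul, map_mul, Module.End.mul_apply, he, vρ_smul, hc, mul_smul]⟩
  | add x y hx hy =>
    obtain ⟨c, hc⟩ := hx
    obtain ⟨e, he⟩ := hy
    exact ⟨c + e, by rw [map_add, map_add, LinearMap.add_apply, he, hc, add_smul]⟩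

theorem Xh_shn (x : FA) (w : FM) : Xh (vρ MM (shn 1 x) w) = vρ MM (shn 1 x) (Xh w) := by
  have : Xh ∘ₗ vρk MM (shn 1 x) = vρk MM (shn 1 x) ∘ₗ Xh := F_ext fun u => by
    change Xh (vρ MM (shn 1 x) _) = vρ MM (shn 1 x) (Xh _)
    match u with
    | [] =>
      obtain ⟨c, hc⟩ := VXh_nil x
      rw [Xh_nil, hc, map_smul, Xh_nil]
    | false :: u => rw [← cons_bas, vρ_shn_cons, Xh_false, Xh_false, vρ_smul, vρ_shn_cons]
    | true :: u =>
      rw [← cons_bas, vρ_shn_cons, Xh_true, Xh_true, map_add, vρ_smul, vρ_smul, vρ_shn_cons,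
        vρ_shn_cons, Et_vρ]
  exact LinearMap.congr_fun this w

theorem VXh_false (w : FM) : Xh (cons MM false w) = (-(VXh_A ^ 2 * XX (-1))) • cons MM false w := by
  rw [Xh_false, Algebra.smul_def, VXh_2]
theorem VXh_true (w : FM) : Xh (cons MM true w) =
    (-(VXh_A ^ 2 * XX 1)) • cons MM true w + XX (-1) • cons MM false (Et MM w) := by
  rw [Xh_true, Algebra.smul_def, VXh_2]
theorem VXh_Et (w : FM) : Et MM (cons MM true w) = VXh_A ^ 2 • cons MM true (Et MM w) := by
  rw [Et_true, VXh_sm, VXh_2]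
theorem VXh_Ef (w : FM) : Et MM (cons MM false w) =
    (1 - VXh_A ^ 4) • cons MM true w + VXh_B ^ 2 • cons MM false (Et MM w) := by
  rw [Et_false, VXh_sm, VXh_sm (a (-2)), VXh_f, VXh_m2]
theorem VXh_U (w : FM) : vρk MM (U 0) w =
    cons MM false (cons MM true w) - VXh_B ^ 2 • cons MM true (cons MM false w) := by
  rw [← vρ_apply, vρ_U_zero, VXh_sm, VXh_m2]
theorem VXh_Ctt (w : FM) : vρk MM (C 0) (cons MM true (cons MM true w)) = 0 := by
  rw [← vρ_apply, vρ_C_zero]; simp
theorem VXh_Cff (w : FM) : vρk MM (C 0) (cons MM false (cons MM false w)) = 0 := by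
  rw [← vρ_apply, vρ_C_zero]; simp
theorem VXh_Ctf (w : FM) : vρk MM (C 0) (cons MM true (cons MM false w)) = w := by
  rw [← vρ_apply, vρ_C_zero]; simp
theorem VXh_Cft (w : FM) : vρk MM (C 0) (cons MM false (cons MM true w)) = -(VXh_A ^ 2 • w) := by
  rw [← vρ_apply, vρ_C_zero, VXh_sm, VXh_2]; simp
theorem VXh_sg (w : FM) : vρk MM (sg false 0) w =
    VXh_B • w + VXh_A • vρk MM (U 0) (vρk MM (C 0) w) := by
  rw [← VXh_m1, ← VXh_1, ← VXh_sm, ← VXh_sm]
  simp [sg]
theorem VXh_Stt (w : FM) : vρk MM (sg false 0) (cons MM true (cons MM true w)) =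
    VXh_B • cons MM true (cons MM true w) := by
  rw [VXh_sg, VXh_Ctt]; simp
theorem VXh_Sff (w : FM) : vρk MM (sg false 0) (cons MM false (cons MM false w)) =
    VXh_B • cons MM false (cons MM false w) := by
  rw [VXh_sg, VXh_Cff]; simp
theorem VXh_Stf (w : FM) : vρk MM (sg false 0) (cons MM true (cons MM false w)) =
    VXh_A • cons MM false (cons MM true w) := by
  have := VXh_AB
  rw [VXh_sg, VXh_Ctf, VXh_U]
  match_scalars <;> grind
theorem VXh_Sft (w : FM) : vρk MM (sg false 0) (cons MM false (cons MM true w)) =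
    VXh_A • cons MM true (cons MM false w) +
      (VXh_B - VXh_A ^ 3) • cons MM false (cons MM true w) := by
  have := VXh_AB
  rw [VXh_sg, VXh_Cft, map_neg, map_smul, VXh_U]
  match_scalars <;> grind

theorem VXh_two {m : ℕ} {w : FM} (hw : w ∈ vLv MM (m + 2)) : ∃ x y z t : FM,
    w = cons MM true (cons MM true x) + cons MM true (cons MM false y) +
      (cons MM false (cons MM true z) + cons MM false (cons MM false t)) := by
  obtain ⟨u, hu, v, hv, rfl⟩ := exists_cons_of_mem_vLv hw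
  obtain ⟨x, -, y, -, rfl⟩ := exists_cons_of_mem_vLv hu
  obtain ⟨z, -, t, -, rfl⟩ := exists_cons_of_mem_vLv hv
  exact ⟨x, y, z, t, by rw [map_add, map_add]⟩

theorem Xh_quad {m : ℕ} {w : FM} (hw : w ∈ vLv MM (m + 1)) :
    Xh (Xh w) + (a 2 • zz) • Xh w + a 4 • w = 0 := by
  have := VXh_XY
  obtain ⟨u, -, v, -, rfl⟩ := exists_cons_of_mem_vLv hw
  rw [VXh_sm, Algebra.smul_def, VXh_2, VXh_4, zz]
  simp only [map_add, map_smul, VXh_true, VXh_false]
  match_scalars <;> grind
theorem Xh_B1 {m : ℕ} {w : FM} (hw : w ∈ vLv MM (m + 2)) :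
    Xh (vρ MM (sg false 0) (Xh (vρ MM (sg false 0) w))) =
      vρ MM (sg false 0) (Xh (vρ MM (sg false 0) (Xh w))) := by
  have := VXh_XY
  have := VXh_AB
  obtain ⟨x, y, z, t, rfl⟩ := VXh_two hw
  simp only [vρ_apply, map_add, map_smul, VXh_true, VXh_false, VXh_Et, VXh_Ef, VXh_Stt, VXh_Stf,
    VXh_Sft, VXh_Sff]
  match_scalars <;> grind
theorem Xh_B5 {m : ℕ} {w : FM} (hw : w ∈ vLv MM (m + 2)) :
    vρ MM (C 0) (Xh (vρ MM (sg false 0) (Xh w))) = (-a 3) • vρ MM (C 0) w := by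
  have := VXh_XY
  have := VXh_AB
  obtain ⟨x, y, z, t, rfl⟩ := VXh_two hw
  rw [VXh_sm, map_neg, VXh_3]
  simp only [vρ_apply, map_add, map_smul, VXh_true, VXh_false, VXh_Et, VXh_Ef, VXh_Stt, VXh_Stf,
    VXh_Sft, VXh_Sff, VXh_Ctt, VXh_Ctf, VXh_Cft, VXh_Cff]
  match_scalars <;> grind
theorem Xh_gamma (w : FM) : vρ MM (C 0) (Xh (vρ MM (U 0) w)) = zz • w := by
  have := VXh_XY
  have := VXh_AB
  simp only [zz, vρ_apply, VXh_U, map_add, map_sub, map_smul, VXh_true, VXh_false, VXh_Ef,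
    VXh_Ctf, VXh_Cft, VXh_Cff]
  match_scalars <;> grind
theorem Xh_U_omF (l : ℕ) :
    Xh (vρ MM (U 0) (omF l)) = vρ MM (pL false 1 (2 * l)) (omF (l + 1)) := by
  have := VXh_XY
  have := VXh_AB
  have hw := omF_mem l
  have hK : ∀ n, KP MM n (2 * l) (omF l) = omF l := fun n => by
    rw [KP_of_prW hw (omF_wt l), mul_zero, a_zero, one_smul]
  have e : pL false 1 (2 * l) = shn 1 (pL false 0 (2 * l)) := by rw [shn_pL]
  rw [omF, Nn_apply, e, map_add, vρ_smul, vρ_smul, vρ_shn_cons, vρ_shn_cons, snoc_eq_insAt _ hw,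
    snoc_eq_insAt _ hw, pL_false_true le_rfl hw, pL_false_false le_rfl hw, hK, hK,
    ← EE_eq_EP le_rfl hw, VXh_sm, Algebra.smul_def, map_mul, VXh_m2, VXh_f]
  simp only [vρ_apply, VXh_U, map_add, map_sub, map_smul, VXh_true, VXh_false, VXh_Ef]
  rw [Et_apply, VXh_sm, VXh_f]
  simp only [map_smul]
  match_scalars <;> grind
theorem omF_succ (l : ℕ) :
    omF (l + 1) = vρ MM (pR true 1 (2 * l)) (Xh (vρ MM (U 0) (omF l))) := by
  rw [Xh_U_omF, ← Module.End.mul_apply, ← map_mul]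
  exact ((TF MM).transfer (.mul (loc_pR true (by omega)) (loc_pL false (by omega))) (.one _)
    ((pR_pL false 1 (2 * l)).trans (map_one mkT).symm) (omF_mem (l + 1))).trans (by simp) |>.symm

theorem VXh_tau (l : ℕ) : mkT (tau l * U 0) = mkT (pL false 1 l * pL false 0 l) := by
  rw [map_mul mkT (pL false 1 l), ← tauU_T, ← map_mul]
  simp only [tau, mul_assoc]

theorem Xh_U_omF' (l : ℕ) :
    Xh (vρ MM (U 0) (omF l)) = vρ MM (tau l) (vρ MM (U 0) (omF (l + 1))) := by
  have h := (TF MM).transfer (.mul (loc_tau (by omega)) (.u (Nat.zero_le _)))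
    (.mul (loc_pL false (by omega)) (loc_pL false (by omega))) (VXh_tau l) (omF_mem (l + 1))
  simp only [TF_ρ, map_mul, Module.End.mul_apply] at h
  rw [h, pL_omF, Xh_U_omF, two_mul, pL_add, map_mul, Module.End.mul_apply, add_comm 1 l]
/-- the commutator of the drags is inverse to the monodromy -/
theorem del_omF (l : ℕ) :
    vρ MM (a 6 • (fin true 1 (2 * l) * tau l * fin true 1 (l + 1) * U 0)) (omF (l + 1)) =
      vρ MM (fin true 1 l * tau l * U 0) (omF (l + 1)) := by
  have e1 : mkT (a 6 • (fin true 1 (2 * l) * tau l * fin true 1 (l + 1) * U 0)) =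
      mkT (fin true 1 (2 * l) * pL false 1 l * pL false 0 l * (pR false 0 l * pL false 0 l)) := by
    have h := del_T l
    simp only [map_mul, map_smul, mul_assoc, tau] at h ⊢
    rw [h, mul_smul_comm, mul_smul_comm, smul_smul, a_mul_neg, one_smul]
  have e2 : vρ MM (pR false 0 l * pL false 0 l) (omF (l + 1)) =
      vρ MM (fin false (l + 1) l) (omF (l + 1)) := by
    have h := vρ_wk (k := MM).far (loc_pR false (i := 0) (l := l) (m := l + 1) (by omega))
      (pL false 0 l)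
    rw [shn_pL, zero_add] at h
    rw [map_mul, Module.End.mul_apply, pL_omF, ← Module.End.mul_apply, h, Module.End.mul_apply,
      pR_omF, fin, map_mul, Module.End.mul_apply]
  have e3 : mkT (fin true 1 (2 * l) * pL false 1 l * pL false 0 l * fin false (l + 1) l) =
      mkT (fin true 1 l * tau l * U 0) := by
    have h := mkT_wk.far (loc_pL false (i := 0) (l := l) (m := l + 1) (by omega)) (fin false 0 l)
    have h1 := del_T' l
    have h2 := fin_inv false 1 (2 * l)
    have h3 := VXh_tau l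
    rw [shn_fin, zero_add] at h
    simp only [map_mul, mul_assoc, Bool.not_false] at h1 h2 h3 ⊢
    rw [h, h3, ← mul_assoc (mkT (pL false 1 l)), ← h1, ← mul_assoc, ← mul_assoc, h2, one_mul,
      mul_assoc]
  have t1 := (TF MM).transfer (.smul _ (.mul (.mul (.mul (loc_fin true (by omega))
    (loc_tau (by omega))) (loc_fin true (by omega))) (.u (Nat.zero_le _))))
    (.mul (.mul (.mul (loc_fin true (by omega)) (loc_pL false (by omega)))
      (loc_pL false (by omega))) (.mul (loc_pR false (by omega)) (loc_pL false (by omega)))) e1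
    (omF_mem (l + 1))
  have t3 := (TF MM).transfer (.mul (.mul (.mul (loc_fin true (by omega))
    (loc_pL false (by omega))) (loc_pL false (by omega))) (loc_fin false (by omega)))
    (.mul (.mul (loc_fin true (by omega)) (loc_tau (by omega))) (.u (Nat.zero_le _))) e3
    (omF_mem (l + 1))
  rw [TF_ρ] at t1 t3
  rw [t1, ← t3, map_mul, Module.End.mul_apply, e2, ← Module.End.mul_apply, ← map_mul]

end Pool.Agent.P.MP_b3a239_gt
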