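import Pool.Agent.P.MP_b3a239_gt.VLift
import Pool.Agent.P.MP_b3a239_gt.VXh
import Pool.Agent.P.MP_b3a239_gt.Alg1

/-! The two drags as natural automorphisms of `Q`. -/

set_option maxSynthPendingDepth 3

noncomputable section

namespace Pool.Agent.P.MP_b3a239_gt

private theorem Q_coe_inj {u w : Q} (h : ((u : V) : FM) = ((w : V) : FM)) : u = w :=
  Subtype.ext (Subtype.ext h)

private theorem Q_ind {P : Q → Prop} (hl : ∀ m, ∀ w ∈ TQ.Lv m, P w) (h0 : P 0)
    (ha : ∀ u w, P u → P w → P (u + w)) (w : Q) : P w := by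
  have hw : w ∈ ⨆ m, TQ.Lv m := by rw [TQ_strict.top]; trivial
  exact Submodule.iSup_induction TQ.Lv (motive := P) hw hl h0 ha

private theorem Q_of_Gn {m : ℕ} {y : FM} (hy : y ∈ (TF MM).Gn omF (fun l => 2 * l) (m + 1)) :
    ∃ w : Q, ((w : V) : FM) = y :=
  ⟨⟨⟨y, Submodule.mem_iSup_of_mem (m + 1) hy⟩, Submodule.mem_iSup_of_mem m hy⟩, rfl⟩

/-- restriction of an operator of the vertex model to `Q` -/
private theorem exists_res (φ : FM →ₗ[R] FM)
    (hm : ∀ m, ∀ w ∈ TQ.Lv m, φ ((w : V) : FM) ∈ (TF MM).Gn omF (fun l => 2 * l) (m + 1))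
    (hc : ∀ x w, φ (vρ MM (shn 1 x) w) = vρ MM (shn 1 x) (φ w)) :
    ∃ X : Module.End R Q, TQ.Natl X ∧ ∀ w, ((X w : V) : FM) = φ (w : V) := by
  have h1 : ∀ w : Q, ∃ w' : Q, ((w' : V) : FM) = φ (w : V) := by
    refine Q_ind (fun m w hw => Q_of_Gn (hm m w hw)) ⟨0, by simp⟩ ?_
    rintro u w ⟨u', hu⟩ ⟨w', hw⟩
    exact ⟨u' + w', by simp [hu, hw]⟩
  choose X hX using h1
  let X' : Module.End R Q :=
    { toFun := X
      map_add' := fun u w => Q_coe_inj (by simp [hX])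
      map_smul' := fun c w => Q_coe_inj (by simp [hX]) }
  have hX' : ∀ w, ((X' w : V) : FM) = φ (w : V) := hX
  refine ⟨X', ⟨fun y => LinearMap.ext fun w => Q_coe_inj ?_, fun m w hw => ?_⟩, hX'⟩
  · rw [Module.End.mul_apply, Module.End.mul_apply, hX', TQ_coe, TQ_coe, hX', hc]
  · change ((X' w : V) : FM) ∈ (TF MM).Gn omF (fun l => 2 * l) (m + 1)
    rw [hX']
    exact hm m w hw

private theorem Xh_Gn (m : ℕ) (w : Q) (hw : w ∈ TQ.Lv m) :
    Xh ((w : V) : FM) ∈ (TF MM).Gn omF (fun l => 2 * l) (m + 1) := by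
  have h := TQ_Lv_le m hw
  clear hw
  induction h using Submodule.span_induction with
  | mem y hy =>
    obtain ⟨l, x, hx, rfl⟩ := hy
    rw [TQ_coe, El_coe, Xh_shn, Xh_U_omF']
    have h1 := (TF MM).gen_mem_Gn omF (fun l => 2 * l) (l + 1)
    have h2 := TM.Gn_loc (Loc.u (Nat.zero_le _)) h1
    have h3 := TM.Gn_loc ((loc_tau (m := 2 * l + 1 + 1) (l := l) (by omega)).cast
      (by omega : _ = 2 * (l + 1) + 2) rfl) h2
    exact TM.Gn_loc (hx.shn 1) h3
  | zero => simp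
  | add u w _ _ hu hw => simpa using add_mem hu hw
  | smul c w _ hw =>
    have : Xh (((c • w : Q) : V) : FM) = c • Xh ((w : V) : FM) := by simp
    rw [this]
    exact Submodule.smul_mem _ c hw

private theorem Xh_quad_Q (w : Q) : Xh (Xh ((w : V) : FM)) + (a 2 • zz) • Xh ((w : V) : FM) +
    a 4 • ((w : V) : FM) = 0 := by
  induction w using Q_ind with
  | hl m w hw => exact Xh_quad (m := m) (TM.Gn_le (T := TF MM) omF_mem (m + 1) hw)
  | h0 => simp
  | ha u w hu hw =>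
    simp only [Submodule.coe_add, map_add, smul_add]
    linear_combination (norm := abel1) hu + hw

section Y
variable {B : Type} [AddCommGroup B] [Module R B]

private theorem natFin_T (T : TM B) {m n k : ℕ} {x : FA} (h : Loc m n x) (s : Bool) {w : B}
    (hw : w ∈ T.Lv (m + 2 + k)) :
    T.ρ (fin s 1 n) (T.ρ (shn 2 x) w) = T.ρ (shn 2 x) (T.ρ (fin s 1 m) w) := by
  have h1 := (h.shn 2).padR k
  have h2 := T.transfer ((loc_fin s (i := 1) (l := n) (by omega)).mul h1)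
    (h1.mul (loc_fin s (i := 1) (l := m) (by omega))) (natFin h s 1) hw
  simpa only [map_mul, Module.End.mul_apply] using h2

private theorem far_T (T : TM B) {m n : ℕ} {x : FA} (h : Loc m n x) (y : FA) (w : B) :
    T.ρ x (T.ρ (shn m y) w) = T.ρ (shn n y) (T.ρ x w) :=
  congr($(T.wk.far h y) w)

private theorem far_U (T : TM B) (y : FA) (w : B) :
    T.ρ (U 0) (T.ρ y w) = T.ρ (shn 2 y) (T.ρ (U 0) w) := by
  simpa using far_T T (Loc.u (le_refl 0)) y w

private theorem arcs_fin {T : TM B} {o : ℕ → B} (ho : T.Arcs o) (s : Bool) :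
    (T.shift 2).Arcs fun l => T.ρ (fin s 1 l) (T.ρ (U 0) (o l)) := by
  have hU : ∀ l, T.ρ (U 0) (o l) ∈ T.Lv (2 * l + 2) := fun l => T.memU (Nat.zero_le _) (ho.mem l)
  refine ⟨fun l => T.mem (loc_fin s (by omega)) (hU l), fun i l hi => ?_, fun i l hi => ?_⟩
  · change T.ρ (shn 2 (C i)) _ = T.ρ (shn 2 (U (2 * l - i))) _
    have h1 := hU (l + 2)
    rw [show 2 * (l + 2) + 2 = l + 2 + 2 + (l + 2) by omega] at h1
    rw [← natFin_T T (Loc.c hi) s h1, ← far_U, ho.left i l hi, far_U]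
    have h2 := far_T T (loc_fin s (m := l + 2) (i := 1) (l := l) (by omega)) (U (l - i))
      (T.ρ (U 0) (o l))
    rw [shn_U, show l - i + (l + 2) = 2 * l - i + 2 by omega] at h2
    rw [shn_U, h2]
  · change T.ρ (shn 2 (C (2 * l + 2 - i))) _ = T.ρ (shn 2 (U i)) _
    have h1 := hU l
    rw [show 2 * l + 2 = l + 2 + l by omega] at h1
    rw [← natFin_T T (Loc.u hi) s h1, ← far_U, ← ho.right i l hi, far_U]
    have h2 := far_T T (loc_fin s (m := l + 4) (i := 1) (l := l + 2) (by omega)) (C (l - i))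
      (T.ρ (U 0) (o (l + 2)))
    rw [shn_C, show l - i + (l + 4) = 2 * l + 2 - i + 2 by omega] at h2
    rw [shn_C, h2]

end Y

private theorem exists_Y (s : Bool) : ∃ Y : Module.End R Q, TQ.Natl Y ∧
    ∀ l, Y (El l) = TQ.ρ (fin s 0 l) (El l) := by
  obtain ⟨φ, hφ, hom⟩ := V_lift (arcs_fin arcs_om s)
  have hnat := hφ.nat_shift TV_strict TV_strict
  have hpos : ∀ w, φ w ∈ TV.pos := fun w => by
    have hw : w ∈ ⨆ m, TV.Lv m := by rw [TV_strict.top]; trivial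
    refine Submodule.iSup_induction TV.Lv (motive := fun w => φ w ∈ TV.pos) hw
      (fun m w hw => Submodule.mem_iSup_of_mem (m + 1) (hφ.mem hw)) (by simp) ?_
    intro u w hu hw
    rw [map_add]
    exact add_mem hu hw
  let Y : Module.End R Q := TQ.ρ (C 0) ∘ₗ (φ.codRestrict _ hpos) ∘ₗ TV.pos.subtype
  have hY : ∀ w : Q, (Y w : V) = TV.ρ (shn 1 (C 0)) (φ w) := fun w => rfl
  have hT : ∀ x (w : Q), (TQ.ρ x w : V) = TV.ρ (shn 1 x) w := fun x w => rfl
  refine ⟨Y, ⟨fun y => LinearMap.ext fun w => Subtype.ext ?_, fun m w hw => ?_⟩,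
    fun l => Subtype.ext ?_⟩
  · rw [Module.End.mul_apply, Module.End.mul_apply, hY, hT, hT, hY, hnat, shn_shn, shn_C]
    exact far_T TV (Loc.c (le_refl 1)) y _
  · change (Y w : V) ∈ TV.Lv (m + 1)
    rw [hY, shn_C]
    exact TV.memC (by omega) (hφ.mem (m := m + 1) hw)
  · have hE : (El l : V) = TV.ρ (U 0) (om l) := rfl
    rw [hY, hT, hE, hnat, hom, shn_C, shn_U, shn_fin]
    exact TV.zag (l := 1) (m := 2 * l + 2) (by omega)
      (TV.mem (loc_fin s (by omega)) (TV.memU (Nat.zero_le _) (om_mem l)))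

private theorem Y_inv (s : Bool) {Y Y' : Module.End R Q} (hY : TQ.Natl Y) (hY' : TQ.Natl Y')
    (h : ∀ l, Y (El l) = TQ.ρ (fin s 0 l) (El l))
    (h' : ∀ l, Y' (El l) = TQ.ρ (fin (!s) 0 l) (El l)) : Y * Y' = 1 := by
  refine Q_ext (hY.mul hY').gmap (TM.Natl.one TQ).gmap fun l => ?_
  have h1 : Y (TQ.ρ (fin (!s) 0 l) (El l)) = TQ.ρ (fin (!s) 0 l) (Y (El l)) :=
    congr($(hY.1 (fin (!s) 0 l)) (El l))
  have h2 := TQ.transfer ((loc_fin (!s) (i := 0) (l := l) (by omega)).mul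
    (loc_fin s (i := 0) (l := l) (by omega))) (Loc.one (2 * l + 1))
    ((fin_inv s 0 l).trans (map_one mkT).symm) (El_mem l)
  rw [Module.End.mul_apply, h', h1, h]
  simpa only [map_mul, Module.End.mul_apply, map_one] using h2

theorem exists_XQ : ∃ X : (Module.End R Q)ˣ, X ∈ TQ.natU ∧
    (∀ w, ((X.1 w : V) : FM) = Xh (w : V)) ∧
    ∀ w, ((X⁻¹.1 w : V) : FM) = (-a (-4)) • (Xh (w : V) + (a 2 • zz) • ((w : V) : FM)) := by
  obtain ⟨X, hX, hXc⟩ := exists_res (Xh.restrictScalars R) Xh_Gn Xh_shn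
  obtain ⟨Z, hZ, hZc⟩ := exists_res ((-a (-4)) • (Xh.restrictScalars R +
      (LinearMap.lsmul MM FM (a 2 • zz)).restrictScalars R))
    (fun m w hw => by
      refine Submodule.smul_mem _ _ (add_mem (Xh_Gn m w hw) ?_)
      change (a 2 • zz) • ((w : V) : FM) ∈ _
      rw [smul_assoc]
      exact Submodule.smul_mem _ _ (zz_smul_mem_Gn hw))
    (fun x w => by
      change (-a (-4)) • (Xh (vρ MM (shn 1 x) w) + (a 2 • zz) • vρ MM (shn 1 x) w) =
        vρ MM (shn 1 x) ((-a (-4)) • (Xh w + (a 2 • zz) • w))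
      rw [map_smul, map_add, vρ_smul, Xh_shn])
  have hXc' : ∀ w, ((X w : V) : FM) = Xh (w : V) := hXc
  have hZc' : ∀ w, ((Z w : V) : FM) =
      (-a (-4)) • (Xh (w : V) + (a 2 • zz) • ((w : V) : FM)) := hZc
  have key : ∀ w : Q, (-a (-4)) • (Xh (Xh ((w : V) : FM)) + (a 2 • zz) • Xh ((w : V) : FM)) =
      ((w : V) : FM) := fun w => by
    rw [eq_neg_of_add_eq_zero_left (Xh_quad_Q w), neg_smul, smul_neg, neg_neg, smul_smul,
      ← a_add]
    simp
  have h1 : X * Z = 1 := LinearMap.ext fun w => Q_coe_inj (by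
    rw [Module.End.mul_apply, hXc', hZc', LinearMap.map_smul_of_tower, map_add, map_smul, key]
    rfl)
  have h2 : Z * X = 1 := LinearMap.ext fun w => Q_coe_inj (by
    rw [Module.End.mul_apply, hZc', hXc', key]
    rfl)
  exact ⟨⟨X, Z, h1, h2⟩, ⟨hX, hZ⟩, hXc', hZc'⟩

theorem exists_YQ : ∃ Y : (Module.End R Q)ˣ, Y ∈ TQ.natU ∧
    (∀ l, Y.1 (El l) = TQ.ρ (fin false 0 l) (El l)) ∧
    ∀ l, Y⁻¹.1 (El l) = TQ.ρ (fin true 0 l) (El l) := by
  obtain ⟨Y, hY, h⟩ := exists_Y false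
  obtain ⟨Y', hY', h'⟩ := exists_Y true
  exact ⟨⟨Y, Y', Y_inv false hY hY' h h', Y_inv true hY' hY h' h⟩, ⟨hY, hY'⟩, h, h'⟩

def XQ : (Module.End R Q)ˣ := exists_XQ.choose
def YQ : (Module.End R Q)ˣ := exists_YQ.choose

theorem XQ_nat : XQ ∈ TQ.natU := exists_XQ.choose_spec.1
theorem XQ_coe (w : Q) : ((XQ.1 w : V) : FM) = Xh (w : V) := exists_XQ.choose_spec.2.1 w
theorem XQ_inv_coe (w : Q) :
    ((XQ⁻¹.1 w : V) : FM) = (-a (-4)) • (Xh (w : V) + (a 2 • zz) • ((w : V) : FM)) :=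
  exists_XQ.choose_spec.2.2 w
theorem YQ_nat : YQ ∈ TQ.natU := exists_YQ.choose_spec.1
theorem YQ_El (l : ℕ) : YQ.1 (El l) = TQ.ρ (fin false 0 l) (El l) := exists_YQ.choose_spec.2.1 l
theorem YQ_inv_El (l : ℕ) : YQ⁻¹.1 (El l) = TQ.ρ (fin true 0 l) (El l) :=
  exists_YQ.choose_spec.2.2 l

/-- `tau l` without the leftmost strand -/
def tau' (l : ℕ) : FA := pL false 0 l * C l * pR true 0 l

theorem shn_tau' (l : ℕ) : shn 1 (tau' l) = tau l := by
  simp only [tau', tau, map_mul, shn_pL, shn_pR, shn_C]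
theorem loc_tau' {l m : ℕ} (h : l + 1 ≤ m) : Loc (m + 2) m (tau' l) :=
  ((loc_pL false (by omega)).mul (Loc.c (by omega))).mul (loc_pR true (by omega))
theorem XQ_El (l : ℕ) : XQ.1 (El l) = TQ.ρ (tau' l) (El (l + 1)) :=
  Q_coe_inj (by rw [XQ_coe, TQ_coe, El_coe, El_coe, shn_tau', Xh_U_omF'])

end Pool.Agent.P.MP_b3a239_gt
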