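import Pool.Agent.P.MP_b3a239_gt.LMod
import Pool.Agent.P.MP_b3a239_gt.XY
import Pool.Agent.P.MP_b3a239_gt.VJ
import Pool.Agent.P.MP_b3a239_gt.Alg3

/-! The torus system of the solid torus. -/

set_option maxSynthPendingDepth 3

noncomputable section

namespace Pool.Agent.P.MP_b3a239_gt

theorem LSys_mk {u w : FM} (h : u - w ∈ LinearMap.range (Et MM)) : ER.mkQ u = ER.mkQ w :=
  (Submodule.Quotient.eq ER).2 h

theorem LSys_tor : yT * xT = sc _ 2 * xT * yT := by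
  refine Units.ext (LinearMap.ext fun v => Subtype.ext ?_)
  obtain ⟨w, hw⟩ := ER.mkQ_surjective v.1
  have h1 := yT_coe (xT_coe hw.symm)
  have h2 := xT_coe (yT_coe hw.symm)
  have h3 : cmap (Yc 1) (XX 1 • w) = (a 2 • XX 1) • cmap (Yc 1) w :=
    cmap_smul _ (fun e => by rw [Yc_mul, Yc_XX]; norm_num) w
  have h4 : (sc (Module.End R LL) 2 * xT * yT).1 v = a 2 • xT.1 (yT.1 v) :=
    sc_apply 2 (xT.1 (yT.1 v))
  rw [h4, Submodule.coe_smul, h2, ← map_smul]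
  refine h1.trans ?_
  rw [h3, smul_assoc, smul_neg, smul_neg]

theorem LSys_GX (w : V) : αL (bV.γ XQ w) = xT.1 (αL w) + xT⁻¹.1 (αL w) := by
  refine Subtype.ext ?_
  have h1 : ((bV.γ XQ w : V) : FM) = zz • (w : FM) := by
    change vρ MM (C 0) ((XQ.1 (bV.ι w) : V) : FM) = _
    rw [XQ_coe]
    exact Xh_gamma w
  rw [Submodule.coe_add, xT_coe (αL_coe w), xT_inv_coe (αL_coe w), αL_coe, h1, ← map_add,
    ← add_smul, smul_comm]
  rfl

theorem LSys_Y (l : ℕ) : ((YQ.1 (El l) : V) : FM) = vρ MM (fin false 1 l * U 0) (omF l) := by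
  rw [YQ_El, TQ_coe, shn_fin, El_coe, map_mul]
  rfl

theorem LSys_GY (w : V) : αL (bV.γ YQ w) = yT.1 (αL w) + yT⁻¹.1 (αL w) := by
  have h : αL ∘ₗ bV.γ YQ = (yT.1 + yT⁻¹.1) ∘ₗ αL := by
    refine V_ext (αL_gmap.comp (TM.base_γ_natl TV_strict YQ_nat.1).gmap)
      ((yT_nat.1.add yT_nat.2).gmap.comp αL_gmap) fun l => Subtype.ext ?_
    have h1 : ((bV.γ YQ (om l) : V) : FM) = vρ MM (C 0 * fin false 1 l * U 0) (omF l) := by
      change vρ MM (C 0) ((YQ.1 (El l) : V) : FM) = _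
      rw [LSys_Y, mul_assoc, map_mul (vρ MM) (C 0)]
      rfl
    change (αL (bV.γ YQ (om l)) : NN) = (yT.1 (αL (om l)) : NN) + (yT⁻¹.1 (αL (om l)) : NN)
    rw [yT_coe (αL_coe _), yT_inv_coe (αL_coe _), αL_coe, h1, ← map_add, om_coe]
    refine LSys_mk ?_
    rw [← neg_add, sub_neg_eq_add, ← add_assoc]
    exact GY_omF l
  exact LinearMap.congr_fun h w

theorem LSys_j : GMap TQ (TV.shift 1) bV.j := ⟨fun h => h, fun _ _ => rfl, fun _ _ => rfl⟩

theorem LSys_Z (w : Q) : ((XQ⁻¹.1 w : V) : FM) = Zh (w : V) := XQ_inv_coe w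

theorem LSys_alg (χ : FM →ₗ[R] FM) (c d : R) (p q : MM) (u Zu v Zv : FM) :
    q • Zu + c • p • q • u + d • -χ (q • Zv) + c • -χ (p • q • v) - 0 =
      q • Zu + (c • p * q) • u - χ ((d • q) • Zv + (c • p * q) • v) := by
  rw [χ.map_add, smul_mul_assoc, smul_assoc c (p * q) u, smul_assoc c (p * q) v,
    smul_assoc d q Zv, χ.map_smul, χ.map_smul, mul_smul p q u, mul_smul p q v, sub_zero, smul_neg,
    smul_neg, add_assoc, ← neg_add, ← sub_eq_add_neg]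

theorem LSys_J' (w : Q) : αL (bV.j (XQ⁻¹.1 (YQ.1 w))) + a 2 • xT⁻¹.1 (αL (bV.j (YQ.1 w))) +
    a 4 • yT⁻¹.1 (αL (bV.j (XQ⁻¹.1 w))) + a 2 • yT⁻¹.1 (xT⁻¹.1 (αL (bV.j w))) = 0 := by
  have hα : GMap TQ (TL.shift 1) (αL ∘ₗ bV.j) := (αL_gmap.shift 1).comp LSys_j
  have hx := xT_nat.2.gmap.shift 1
  have hy := yT_nat.2.gmap.shift 1
  have hX := XQ_nat.2.gmap
  have hY := YQ_nat.1.gmap
  have h := Q_ext ((((hα.comp (hX.comp hY)).add ((hx.comp (hα.comp hY)).smul (a 2))).add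
    ((hy.comp (hα.comp hX)).smul (a 4))).add ((hy.comp (hx.comp hα)).smul (a 2)))
    (GMap.zero _ _) fun l => Subtype.ext (by
      change (αL (XQ⁻¹.1 (YQ.1 (El l)) : V) : NN) + a 2 • (xT⁻¹.1 (αL (YQ.1 (El l) : V)) : NN) +
        a 4 • (yT⁻¹.1 (αL (XQ⁻¹.1 (El l) : V)) : NN) +
          a 2 • (yT⁻¹.1 (xT⁻¹.1 (αL (El l : V))) : NN) = ER.mkQ 0
      rw [yT_inv_coe (xT_inv_coe (αL_coe _)), yT_inv_coe (αL_coe _), xT_inv_coe (αL_coe _),
        αL_coe, LSys_Z, LSys_Z, LSys_Y, El_coe, ← map_smul ER.mkQ, ← map_smul ER.mkQ,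
        ← map_smul ER.mkQ, ← map_add ER.mkQ, ← map_add ER.mkQ, ← map_add ER.mkQ]
      refine LSys_mk ?_
      rw [LSys_alg]
      exact J_omF l)
  exact LinearMap.congr_fun h w

theorem LSys_nat {z : Module.End R LL} (h : TL.Natl z) (y : FA) (v : LL) :
    TL.ρ y (z v) = z (TL.ρ y v) := (LinearMap.congr_fun (h.1 y) v).symm

theorem sys_L : bV.Sys αL XQ YQ xT yT := by
  refine ⟨LSys_tor, LSys_GX, LSys_GY, fun w => ?_⟩
  have hκ : ∀ u : Q, αL (bV.κ u) = TL.ρ (C 0) (αL (bV.j u)) := fun u =>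
    αL_gmap.nat' TV_strict TL_strict (C 0) (bV.j u)
  have h := congrArg (TL.ρ (C 0)) (LSys_J' w)
  simp only [map_add, map_smul, map_zero, LSys_nat xT_nat.2, LSys_nat yT_nat.2] at h
  simp only [hκ]
  exact h

theorem t_eq (n : ℤ) :
    bL (.t n) = -(xT ^ (n + 1)).1 (a 2 • yT⁻¹.1 (αL (om 0)) + αL (om 0)) := by
  refine Subtype.ext ?_
  have h1 : ((a 2 • yT⁻¹.1 (αL (om 0)) + αL (om 0) : LL) : NN) =
      ER.mkQ (a 2 • -cmap (Yc (-1)) (dl • bas MM []) + dl • bas MM []) := by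
    rw [Submodule.coe_add, Submodule.coe_smul, yT_inv_coe (αL_coe _), αL_coe, map_add ER.mkQ,
      map_smul ER.mkQ]
    rfl
  rw [Submodule.coe_neg, xT_zpow_coe (n + 1) h1, bL_coe, ← map_neg]
  refine congrArg _ ?_
  have h2 : a 2 • Yc (-1) dl = XX 1 - a 4 • XX (-1) := by
    rw [dl, map_sub, Yc_XX, Yc_XX, smul_sub, smul_smul, smul_smul, ← a_add, ← a_add]
    norm_num
  have h3 : XX (n + 1) * XX (-1) = XX n := by rw [← XX_add]; norm_num
  have h4 : f 0 • XX n = XX n - a 4 • XX n := by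
    rw [f, sub_smul, one_smul]
    norm_num
  rw [cmap_smul_bas, smul_neg, ← smul_assoc, h2, ← neg_smul (XX 1 - a 4 • XX (-1)), ← add_smul,
    smul_smul, ← neg_smul, vec, h4, dl, ← h3]
  refine congrArg (· • bas MM []) ?_
  rw [← mul_smul_comm]
  ring

theorem LSys_G (k : ℕ) (n : ℤ) : bL (.G k n) ∈
    TL.Gn (fun i : ℕ × ℤ => (xT ^ i.2).1 (αL (om i.1))) (fun i => 2 * i.1) (2 * k) := by
  have key : ∀ z ∈ (TF MM).Gn (fun i : ℕ × ℤ => XX i.2 • omF i.1) (fun i => 2 * i.1) (2 * k),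
      ∃ v ∈ TL.Gn (fun i : ℕ × ℤ => (xT ^ i.2).1 (αL (om i.1))) (fun i => 2 * i.1) (2 * k),
        (v : NN) = ER.mkQ (dl • z) := by
    intro z hz
    induction hz using Submodule.span_induction with
    | mem z hz =>
      obtain ⟨i, x, hx, rfl⟩ := hz
      refine ⟨_, Submodule.subset_span ⟨i, x, hx, rfl⟩, ?_⟩
      rw [TL_coe, xT_zpow_coe i.2 (αL_coe _), TN_mk, om_coe, smul_comm, vρ_smul]
      rfl
    | zero => exact ⟨0, zero_mem _, by simp⟩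
    | add u w _ _ hu hw =>
      obtain ⟨u', h1, h2⟩ := hu
      obtain ⟨w', h3, h4⟩ := hw
      exact ⟨u' + w', add_mem h1 h3, by rw [Submodule.coe_add, h2, h4, smul_add, map_add]⟩
    | smul c u _ hu =>
      obtain ⟨u', h1, h2⟩ := hu
      exact ⟨c • u', Submodule.smul_mem _ c h1, by
        rw [Submodule.coe_smul, h2, smul_comm dl c u, map_smul ER.mkQ]⟩
  obtain ⟨v, hv, he⟩ := key _ (gF_mem_Vt k n)
  have : bL (.G k n) = v := Subtype.ext (by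
    rw [he, bL_coe, vec, gF, PP_eq, smul_smul, smul_smul, mul_assoc, mul_left_comm])
  rwa [this]

theorem genBy_L : GenBy αL xT yT := by
  intro S hα hx hx' hy hy'
  let S' : Submodule R LL := ⨅ z : FA, S.comap (TL.ρ z)
  have hS : ∀ v, v ∈ S' ↔ ∀ z, TL.ρ z v ∈ S := fun v => by
    simp only [S', Submodule.mem_iInf, Submodule.mem_comap]
  have h1 : ∀ w, αL w ∈ S' := fun w => (hS _).2 fun z =>
    hα ⟨TV.ρ z w, αL_gmap.nat' TV_strict TL_strict z w⟩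
  have h2 : ∀ {u : Module.End R LL}, TL.Natl u → (∀ w ∈ S, u w ∈ S) → ∀ w ∈ S', u w ∈ S' :=
    fun hu h w hw => (hS _).2 fun z => by
      rw [LSys_nat hu]
      exact h _ ((hS _).1 hw z)
  have h3 : ∀ (n : ℤ), ∀ w ∈ S', (xT ^ n).1 w ∈ S' := fun n => by
    induction n using Int.induction_on with
    | zero => exact fun w hw => hw
    | succ n ih =>
      intro w hw
      rw [zpow_add_one]
      exact ih _ (h2 xT_nat.1 hx w hw)
    | pred n ih =>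
      intro w hw
      rw [zpow_sub_one]
      exact ih _ (h2 xT_nat.2 hx' w hw)
  have h4 : ∀ {I : Type} (g : I → LL) (lv : I → ℕ) (m : ℕ), (∀ i, g i ∈ S') →
      TL.Gn g lv m ≤ S' := fun g lv m hg => Submodule.span_le.2 (by
    rintro _ ⟨i, x, -, rfl⟩
    exact (hS _).2 fun z => by
      have := (hS _).1 (hg i) (z * x)
      rwa [map_mul] at this)
  have h5 : ∀ b, bL b ∈ S' := by
    rintro (⟨k, n⟩ | n)
    · exact h4 _ _ _ (fun i => h3 _ _ (h1 _)) (LSys_G k n)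
    · rw [t_eq]
      exact neg_mem (h3 _ _ (add_mem (S'.smul_mem _ (h2 yT_nat.2 hy' _ (h1 _))) (h1 _)))
  rw [eq_top_iff, ← TL_strict.top]
  refine iSup_le fun m => (TL_Lv_le m).trans ((h4 _ _ _ h5).trans fun v hv => ?_)
  simpa using (hS v).1 hv 1

/-- it is enough to compare natural maps on the `x ^ n α (om l)` and on the `t n` -/
theorem L_ext' {B : Type} [AddCommGroup B] [Module R B] {T : TM B} {φ ψ : LL →ₗ[R] B}
    (hφ : GMap TL T φ) (hψ : GMap TL T ψ)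
    (h : ∀ l (n : ℤ), φ ((xT ^ n).1 (αL (om l))) = ψ ((xT ^ n).1 (αL (om l))))
    (ht : ∀ n, φ (bL (.t n)) = ψ (bL (.t n))) : φ = ψ := by
  refine L_ext hφ hψ ?_
  rintro (⟨k, n⟩ | n)
  · refine (Submodule.span_le (p := LinearMap.eqLocus φ ψ)).2 ?_ (LSys_G k n)
    rintro _ ⟨i, x, hx, rfl⟩
    have hm : (xT ^ i.2).1 (αL (om i.1)) ∈ TL.Lv (2 * i.1) :=
      (TL.natU.zpow_mem xT_nat i.2).1.2 _ _ (αL_gmap.mem (om_mem _))
    change φ _ = ψ _
    rw [hφ.nat hx hm, hψ.nat hx hm, h]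
  · exact ht n

end Pool.Agent.P.MP_b3a239_gt
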