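import Pool.Agent.P.MP_b3a239_gt.Hole
import Pool.Agent.P.MP_b3a239_gt.XY

/-! The drawn curves are the drags of the solid torus. -/

set_option maxSynthPendingDepth 3

open FreeAlgebra

noncomputable section

namespace Pool.Agent.P.MP_b3a239_gt

variable {O : Type} [AddCommGroup O] [Module R O]

/-- `e` evaluates slices by cups, caps, crossings and the hole operator of `ψ` -/
structure GT.Eval (Γ : GT O) (j : ℕ) (ψ : V →ₗ[R] Module.End R O)
    (e : FreeAlgebra R Sl →ₐ[R] Module.End R O) : Prop where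
  cup : ∀ l, e (ι R (.gen .cup l)) = Γ.ρ (U l)
  cap : ∀ l, e (ι R (.gen .cap l)) = Γ.ρ (C l)
  cr : ∀ s l m j', l + 2 ≤ m → ∀ w ∈ Γ.Cp m j', e (ι R (.gen (.cr s) l)) w = Γ.ρ (sg s l) w
  hole : ∀ l m, l ≤ m → ∀ w ∈ Γ.Cp m j, e (ι R (.hole l)) w = Γ.hole ψ l w

variable {Γ : GT O} {j : ℕ} {ψ : V →ₗ[R] Module.End R O}
  {e : FreeAlgebra R Sl →ₐ[R] Module.End R O}

private theorem memΓ {m n j' : ℕ} {x : FA} (h : Loc m n x) {w : O} (hw : w ∈ Γ.Cp m j') :
    Γ.ρ x w ∈ Γ.Cp n j' := (Γ.tm j').mem h hw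

/-- the word `z` is evaluated by the local morphism `x` -/
private def Ok (Γ : GT O) (e : FreeAlgebra R Sl →ₐ[R] Module.End R O) (m n : ℕ) (z : List Sl)
    (x : FA) : Prop :=
  Loc m n x ∧ ∀ d j', ∀ w ∈ Γ.Cp (m + d) j', e (wd z) w = Γ.ρ x w

private theorem Ok.nil (m : ℕ) : Ok Γ e m m [] 1 := ⟨.one m, fun _ _ _ _ => by simp⟩

private theorem Ok.append {m n k : ℕ} {z z' : List Sl} {x x' : FA} (h : Ok Γ e n k z x)
    (h' : Ok Γ e m n z' x') : Ok Γ e m k (z ++ z') (x * x') :=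
  ⟨h.1.mul h'.1, fun d j' w hw => by
    rw [wd_append, map_mul, map_mul, Module.End.mul_apply, Module.End.mul_apply, h'.2 d j' w hw,
      h.2 d j' _ (memΓ (h'.1.padR d) hw)]⟩

private theorem Ok.cup (he : Γ.Eval j ψ e) {l m : ℕ} (h : l ≤ m) :
    Ok Γ e m (m + 2) [.gen .cup l] (U l) :=
  ⟨.u h, fun _ _ _ _ => by rw [wd_cons, wd_nil, mul_one, he.cup]⟩

private theorem Ok.cap (he : Γ.Eval j ψ e) {l m : ℕ} (h : l ≤ m) :
    Ok Γ e (m + 2) m [.gen .cap l] (C l) :=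
  ⟨.c h, fun _ _ _ _ => by rw [wd_cons, wd_nil, mul_one, he.cap]⟩

private theorem Ok.cr (he : Γ.Eval j ψ e) (s : Bool) {l m : ℕ} (h : l + 2 ≤ m) :
    Ok Γ e m m [.gen (.cr s) l] (sg s l) :=
  ⟨loc_sg s h, fun d j' w hw => by
    rw [wd_cons, wd_nil, mul_one, he.cr s l (m + d) j' (by omega) w hw]⟩

private theorem Ok.passR (he : Γ.Eval j ψ e) (s : Bool) {i l m : ℕ} (h : i + l + 1 ≤ m) :
    Ok Γ e m m (passR s i l) (pR s i l) := by
  induction l with
  | zero => exact Ok.nil m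
  | succ l ih => exact (Ok.cr he s (by omega)).append (ih (by omega))

private theorem Ok.passL (he : Γ.Eval j ψ e) (s : Bool) {i l m : ℕ} (h : i + l + 1 ≤ m) :
    Ok Γ e m m (passL s i l) (pL s i l) := by
  induction l with
  | zero => exact Ok.nil m
  | succ l ih => exact (ih (by omega)).append (Ok.cr he s (by omega))

private theorem coe_mem {m : ℕ} {v : Q} (hv : v ∈ TQ.Lv m) : (v : V) ∈ TV.Lv (m + 1) := hv

private theorem psi_nat (hψ : GMap TV (Γ.hom j) ψ) {m n : ℕ} {x : FA} (hx : Loc m n x) {v : Q}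
    (hv : v ∈ TQ.Lv m) : ψ (TQ.ρ x v : V) = Γ.ρ (shn 1 x) * ψ (v : V) :=
  hψ.nat (hx.shn 1) (coe_mem hv)

private theorem key (he : Γ.Eval j ψ e) (hψ : GMap TV (Γ.hom j) ψ) (l : ℕ) (bs : List Bool) :
    ∃ r xt xb, (bs.foldr drag ([], l, [])).2.1 = l + r ∧
      Ok Γ e l (l + 2 * r) (bs.foldr drag ([], l, [])).2.2 xb ∧
      Ok Γ e (l + 2 * r + 2) (l + 2) (bs.foldr drag ([], l, [])).1 xt ∧
      ∀ M ∈ TQ.natU, ∀ d, ∀ w ∈ Γ.Cp (l + d) j,
        Γ.ρ xt (Γ.ρ (shn (l + r + 2) (capC (l + r))) (ψ (M.1 (El (l + r)) : V) (Γ.ρ xb w))) =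
          Γ.ρ (shn (l + 2) (capC l)) (ψ ((M * Mw XQ YQ bs).1 (El l) : V) w) := by
  induction bs with
  | nil => exact ⟨0, 1, 1, rfl, Ok.nil l, Ok.nil _, fun M _ d w _ => by simp [Mw]⟩
  | cons b bs ih =>
    obtain ⟨r, xt, xb, h₁, h₂, h₃, h₄⟩ := ih
    rw [List.foldr_cons]
    generalize bs.foldr drag ([], l, []) = tr at h₁ h₂ h₃
    obtain ⟨top, l', bot⟩ := tr
    simp only at h₁ h₂ h₃
    subst h₁
    have hM : ∀ M : (Module.End R Q)ˣ, M * Mw XQ YQ (b :: bs) =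
        M * (if b then XQ else YQ) * Mw XQ YQ bs := fun M => by simp [Mw, mul_assoc]
    cases b with
    | false =>
      refine ⟨r, xt * pL false 1 (l + r) * pR false 1 (l + r), xb, rfl, h₂,
        (h₃.append (Ok.passL he false (by omega))).append (Ok.passR he false (by omega)), ?_⟩
      intro M hMn d w hw
      have hE := hMn.1.2 _ _ (El_mem (l + r))
      have h₅ : (M * YQ).1 (El (l + r)) = TQ.ρ (fin false 0 (l + r)) (M.1 (El (l + r))) := by
        rw [Units.val_mul, Module.End.mul_apply, YQ_El]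
        exact congr($(hMn.1.1 _) _)
      have h₆ := Γ.wk.far (loc_fin false (i := 1) (l := l + r) (m := l + r + 2) (by omega))
        (capC (l + r))
      rw [hM, if_neg (by simp), ← h₄ _ (TQ.natU.mul_mem hMn YQ_nat) d w hw, h₅, psi_nat hψ (loc_fin false (by omega)) hE, shn_fin, Module.End.mul_apply,
        ← Module.End.mul_apply (Γ.ρ (shn _ _)) (Γ.ρ (fin _ _ _)), ← h₆, mul_assoc]
      simp only [map_mul, Module.End.mul_apply, fin]
    | true =>
      refine ⟨r + 1, xt * pL false 1 (l + r) * C (l + r + 1) * pR true 1 (l + r), U (l + r) * xb,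
        rfl, (Ok.cup he (m := l + 2 * r) (by omega)).append h₂,
        ((h₃.append (Ok.passL he false (by omega))).append (Ok.cap he (by omega))).append
          (Ok.passR he true (by omega)), ?_⟩
      intro M hMn d w hw
      have hE := hMn.1.2 _ _ (El_mem (l + r + 1))
      have h₅ : (M * XQ).1 (El (l + r)) = TQ.ρ (tau' (l + r)) (M.1 (El (l + r + 1))) := by
        rw [Units.val_mul, Module.End.mul_apply, XQ_El]
        exact congr($(hMn.1.1 _) _)
      have hψE := hψ.mem (coe_mem hE)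
      have hw₁ := memΓ (h₂.1.padR d) hw
      have hw₂ := hψE.2.1 _ _ hw₁
      have h₆ := congr($(hψE.2.2 (U (l + r))) (Γ.ρ xb w))
      have h₇ := (Γ.tm (j + 1)).transfer (m := l + 2 * r + d + (2 * (l + r + 1) + 1 + 1))
        (n := l + 2 * r + d + 2) ?_ ?_ (link_T (l + r)) hw₂
      · rw [hM, if_pos rfl, ← h₄ _ (TQ.natU.mul_mem hMn XQ_nat) d w hw, h₅, psi_nat hψ (loc_tau' (m := 2 * (l + r) + 1) (by omega)) hE, shn_tau']
        simp only [Module.End.mul_apply, shn_U] at h₆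
        simp only [map_mul, Module.End.mul_apply, tau, GT.tm] at h₇ ⊢
        rw [← h₇, ← add_assoc, h₆,
          show l + r + (2 * (l + r + 1) + 1 + 1) = 3 * (l + r) + 4 by omega]
      · refine (loc_tau (by omega)).mul ?_ |>.mul (.u (by omega))
        exact ((loc_capC (l + r + 1) (r + d + 1)).shn (l + r + 3)).cast (by omega) (by omega)
      · refine Loc.mul ?_ ((loc_tau (m := 3 * l + 4 * r + d + 2) (by omega)).cast (by omega) rfl)
        exact ((loc_capC (l + r) (r + d)).shn (l + r + 2)).cast (by omega) (by omega)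

theorem GT.Eval.link (he : Γ.Eval j ψ e) (hψ : GMap TV (Γ.hom j) ψ) (bs : List Bool) {l m : ℕ}
    (h : l ≤ m) {w : O} (hw : w ∈ Γ.Cp m j) :
    e (wd (close (bs.foldr drag ([], l, [])))) w =
      Γ.ρ (shn (l + 2) (capC l)) (ψ ((Mw XQ YQ bs).1 (El l) : V) w) := by
  obtain ⟨d, rfl⟩ := Nat.exists_eq_add_of_le h
  obtain ⟨r, xt, xb, h₁, h₂, h₃, h₄⟩ := key he hψ l bs
  have h₅ := h₄ 1 (one_mem _) d w hw
  rw [one_mul] at h₅
  rw [← h₅]
  generalize bs.foldr drag ([], l, []) = tr at h₁ h₂ h₃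
  obtain ⟨top, l', bot⟩ := tr
  simp only at h₁ h₂ h₃
  subst h₁
  have hw₁ := memΓ (h₂.1.padR d) hw
  have hw₂ := GT.hole_mem hψ (l := l + r) (by omega) hw₁
  have hw₃ := Γ.memU (l := 0) (by omega) hw₂
  rw [close, wd_append, wd_append, wd_cons, wd_cons, wd_nil, mul_one]
  simp only [map_mul, Module.End.mul_apply]
  rw [h₂.2 d j w hw, he.hole _ _ (by omega) _ hw₁, he.cup,
    h₃.2 d (j + 1) _ (by rwa [show l + 2 * r + 2 + d = l + 2 * r + d + 2 by omega])]
  congr 1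
  have h₆ : ψ (El (l + r) : V) = Γ.ρ (U 0) * ψ (om (l + r)) :=
    hψ.natU (l := 0) (by omega) (om_mem (l + r))
  have h₇ := Γ.wk.far (Loc.u (m := 0) (j := 0) le_rfl) (shn (l + r) (capC (l + r)))
  rw [shn_zero, shn_shn] at h₇
  rw [Units.val_one, Module.End.one_apply, h₆, GT.hole, ← Module.End.mul_apply, ← mul_assoc, h₇]
  rfl

end Pool.Agent.P.MP_b3a239_gt
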