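import Pool.Agent.P.MP_b3a239_gt.XY

/-! The relations between the two drags. -/

set_option maxSynthPendingDepth 3

noncomputable section

namespace Pool.Agent.P.MP_b3a239_gt

namespace XYPairAux

theorem coeQ (x : FA) (w : Q) : ((TQ.ρ x w : Q) : V) = TV.ρ (shn 1 x) (w : V) := rfl

theorem ρmul {B : Type} [AddCommGroup B] [Module R B] (T : TM B) (x y : FA) (w : B) :
    T.ρ (x * y) w = T.ρ x (T.ρ y w) := by
  rw [map_mul, Module.End.mul_apply]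

theorem far {B : Type} [AddCommGroup B] [Module R B] (T : TM B) {m n : ℕ} {x : FA} (h : Loc m n x)
    (y : FA) (w : B) : T.ρ x (T.ρ (shn m y) w) = T.ρ (shn n y) (T.ρ x w) :=
  congr($(T.wk.far h y) w)

theorem coe_σ (w : Q) : ((bV.σ w : Q) : V) = TV.ρ (sg false 0) (w : V) :=
  TM.base_σ_coe TV_strict w

theorem κ_eq (w : Q) : bV.κ w = TV.ρ (C 0) (w : V) := rfl

theorem coe_El (l : ℕ) : ((El l : Q) : V) = TV.ρ (U 0) (om l) := rfl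

theorem Dl_eq (l : ℕ) : Dl l = TQ.ρ (U 0) (El l) := rfl

theorem coe_Dl (l : ℕ) : ((Dl l : Q) : V) = TV.ρ (U 1) (TV.ρ (U 0) (om l)) := by
  rw [Dl_eq, coeQ, shn_U, coe_El]

theorem Dl_mem (l : ℕ) : ((Dl l : Q) : V) ∈ TV.Lv (2 * l + 2 + 2) := by
  rw [coe_Dl]
  exact TV.memU (by omega) (TV.memU (by omega) (om_mem l))

theorem Dl_vLv (l : ℕ) : (((Dl l : Q) : V) : FM) ∈ vLv MM (2 * l + 2 + 2) :=
  TM.Gn_le (T := TF MM) omF_mem _ (Dl_mem l)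

theorem X_ρ (x : FA) (w : Q) : XQ.1 (TQ.ρ x w) = TQ.ρ x (XQ.1 w) := congr($(XQ_nat.1.1 x) w)
theorem Y_ρ (x : FA) (w : Q) : YQ.1 (TQ.ρ x w) = TQ.ρ x (YQ.1 w) := congr($(YQ_nat.1.1 x) w)
theorem Xi_ρ (x : FA) (w : Q) : XQ⁻¹.1 (TQ.ρ x w) = TQ.ρ x (XQ⁻¹.1 w) :=
  congr($(XQ_nat.2.1 x) w)
theorem Yi_ρ (x : FA) (w : Q) : YQ⁻¹.1 (TQ.ρ x w) = TQ.ρ x (YQ⁻¹.1 w) :=
  congr($(YQ_nat.2.1 x) w)

theorem σ_ρ (x : FA) (w : Q) : bV.σ (TQ.ρ (shn 1 x) w) = TQ.ρ (shn 1 x) (bV.σ w) := by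
  apply Subtype.ext
  rw [coe_σ, coeQ, coeQ, coe_σ, shn_shn]
  exact far TV (loc_sg false (le_refl 2)) x _

theorem κ_ρ (x : FA) (w : Q) : bV.κ (TQ.ρ (shn 1 x) w) = TV.ρ x (bV.κ w) := by
  rw [κ_eq, κ_eq, coeQ, shn_shn]
  have h := far TV (Loc.c (le_refl 0)) x (w : V)
  rwa [shn_zero] at h

theorem U_ρ (x : FA) (w : Q) : TQ.ρ (U 0) (TQ.ρ x w) = TQ.ρ (shn 1 (shn 1 x)) (TQ.ρ (U 0) w) := by
  have h := far TQ (Loc.u (le_refl 0)) x w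
  rwa [shn_zero, ← shn_shn 1 1] at h

theorem Y_Dl (l : ℕ) : YQ.1 (Dl l) = TQ.ρ (shn 1 (fin false 1 l)) (Dl l) := by
  rw [Dl_eq, Y_ρ, YQ_El, U_ρ, shn_fin 1 false 0]

theorem X_Dl (l : ℕ) : XQ.1 (Dl l) = TQ.ρ (shn 1 (tau l)) (Dl (l + 1)) := by
  rw [Dl_eq, X_ρ, XQ_El, U_ρ, shn_tau', Dl_eq]

theorem σ_Dl (l : ℕ) : bV.σ (Dl l) = TQ.ρ (shn 1 (sg false 0)) (Dl l) := by
  apply Subtype.ext
  rw [coe_σ, coeQ, coe_Dl, shn_sg, shn_sg, ← ρmul, ← ρmul, ← ρmul, ← ρmul]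
  have hU : ∀ x, Loc (2 * l + 2 + 2) (2 * l + 2 + 2) x →
      Loc (2 * l) (2 * l + 2 + 2) (x * U 1 * U 0) := fun x hx =>
    .mul (.mul hx (.u (by omega))) (.u (by omega))
  exact TV.transfer (hU _ (loc_sg _ (by omega))) (hU _ (loc_sg _ (by omega))) (s0D_T false)
    (om_mem l)

theorem κ_Dl (l : ℕ) : bV.κ (Dl l) = TV.ρ (U 0) (om l) := bV.κu (El l)

theorem ext_Dl {B : Type} [AddCommGroup B] [Module R B] (φ ψ : Q →ₗ[R] B)
    (h₀ : ∀ l, φ (Dl l) = ψ (Dl l))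
    (h : ∀ x w, φ w = ψ w → φ (TQ.ρ (shn 1 x) w) = ψ (TQ.ρ (shn 1 x) w)) : φ = ψ := by
  have hS := Q_ind₂ (LinearMap.eqLocus φ ψ) h₀ h
  exact LinearMap.eqLocus_eq_top.1 hS

theorem drag_of {X : (Module.End R Q)ˣ} (hX : X ∈ TQ.natU)
    (h1 : ∀ l, X.1 (bV.σ (X.1 (bV.σ (Dl l)))) = bV.σ (X.1 (bV.σ (X.1 (Dl l)))))
    (h5 : ∀ l, bV.κ (X.1 (bV.σ (X.1 (Dl l)))) = (-a 3) • bV.κ (Dl l)) : bV.Drag X := by
  have hρ : ∀ (x : FA) (w : Q), X.1 (TQ.ρ x w) = TQ.ρ x (X.1 w) := fun x w =>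
    congr($(hX.1.1 x) w)
  refine ⟨hX.1.1 (U 0), hX.1.1 (C 0), ext_Dl _ _ h1 fun x w hw => ?_, fun w => ?_⟩
  · simp only [Module.End.mul_apply] at hw ⊢
    rw [σ_ρ, hρ, σ_ρ, hρ, hρ, σ_ρ, hρ, σ_ρ, hw]
  · have := ext_Dl (bV.κ ∘ₗ (X.1 * bV.σ * X.1)) ((-a 3) • bV.κ) h5 fun x w hw => by
      simp only [LinearMap.comp_apply, Module.End.mul_apply, LinearMap.smul_apply] at hw ⊢
      rw [hρ, σ_ρ, hρ, κ_ρ, κ_ρ, hw, map_smul]
    exact congr($this w)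

theorem drag_X : bV.Drag XQ := by
  refine drag_of XQ_nat (fun l => ?_) fun l => ?_
  · apply Subtype.ext
    apply Subtype.ext
    simp only [XQ_coe, coe_σ, TV_coe]
    exact Xh_B1 (Dl_vLv l)
  · apply Subtype.ext
    simp only [XQ_coe, coe_σ, TV_coe, κ_eq, Submodule.coe_smul]
    exact Xh_B5 (Dl_vLv l)

theorem drag_Y : bV.Drag YQ := by
  refine drag_of YQ_nat (fun l => ?_) fun l => ?_
  · simp only [σ_Dl, Y_Dl, σ_ρ, Y_ρ]
    apply Subtype.ext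
    simp only [coeQ]
    simp only [shn_sg, shn_fin, ← ρmul, ← mul_assoc]
    have hs : Loc (2 * l + 2 + 2) (2 * l + 2 + 2) (sg false 2) := loc_sg _ (by omega)
    have hf : Loc (2 * l + 2 + 2) (2 * l + 2 + 2) (fin false 3 l) := loc_fin _ (by omega)
    exact TV.transfer (.mul (.mul (.mul hs hf) hs) hf) (.mul (.mul (.mul hf hs) hf) hs) (B1Y_T l)
      (Dl_mem l)
  · simp only [σ_Dl, Y_Dl, σ_ρ, Y_ρ, κ_ρ, κ_Dl]
    simp only [← ρmul, ← mul_assoc]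
    have hs : Loc (2 * l + 2) (2 * l + 2) (sg false 0) := loc_sg _ (by omega)
    have hf : Loc (2 * l + 2) (2 * l + 2) (fin false 1 l) := loc_fin _ (by omega)
    have hU : Loc (2 * l) (2 * l + 2) (U 0) := .u (by omega)
    rw [TV.transfer (.mul (.mul (.mul hf hs) hf) hU) (.smul _ hU) (B5Y_T l) (om_mem l), map_smul,
      LinearMap.smul_apply]

theorem B3_XY : XQ.1 * bV.σ * YQ.1 = bV.σ * YQ.1 * bV.σ * XQ.1 * bV.σ := by
  refine ext_Dl _ _ (fun l => ?_) fun x w hw => ?_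
  · simp only [Module.End.mul_apply, σ_Dl, Y_Dl, X_Dl, σ_ρ, Y_ρ, X_ρ]
    apply Subtype.ext
    simp only [coeQ]
    simp only [shn_sg, shn_fin, shn_shn 1 1 (tau l), ← ρmul, ← mul_assoc]
    have hs : Loc (2 * l + 2 + 2) (2 * l + 2 + 2) (sg false 2) := loc_sg _ (by omega)
    have hf : Loc (2 * l + 2 + 2) (2 * l + 2 + 2) (fin false 3 l) := loc_fin _ (by omega)
    have hs' : Loc (2 * (l + 1) + 2 + 2) (2 * (l + 1) + 2 + 2) (sg false 2) := loc_sg _ (by omega)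
    have hf' : Loc (2 * (l + 1) + 2 + 2) (2 * (l + 1) + 2 + 2) (fin false 3 (l + 1)) :=
      loc_fin _ (by omega)
    have ht : Loc (2 * (l + 1) + 2 + 2) (2 * l + 2 + 2) (shn 2 (tau l)) :=
      ((loc_tau (m := 2 * l + 2) (by omega)).shn 2).cast (by omega) rfl
    exact TV.transfer (.mul (.mul hf hs) ht) (.mul (.mul (.mul (.mul hs ht) hs') hf') hs') (B3_T l)
      (Dl_mem (l + 1))
  · simp only [Module.End.mul_apply] at hw ⊢
    simp only [σ_ρ, Y_ρ, X_ρ, hw]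

theorem del_apply (w : Q) : (del XQ YQ).1 w = YQ.1 (XQ⁻¹.1 (YQ⁻¹.1 (XQ.1 w))) := rfl

theorem del_ρ (x : FA) (w : Q) : (del XQ YQ).1 (TQ.ρ x w) = TQ.ρ x ((del XQ YQ).1 w) := by
  simp only [del_apply, X_ρ, Y_ρ, Xi_ρ, Yi_ρ]

theorem del_El (l : ℕ) : (del XQ YQ).1 (a 6 • TQ.ρ (fin true 0 (2 * l)) (El l)) = El l := by
  have h : YQ⁻¹.1 (XQ.1 (a 6 • TQ.ρ (fin true 0 (2 * l)) (El l))) = XQ.1 (YQ⁻¹.1 (El l)) := by
    simp only [map_smul, X_ρ, Yi_ρ, XQ_El, YQ_inv_El]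
    apply Subtype.ext
    apply Subtype.ext
    have h := del_omF l
    simp only [map_smul, map_mul, LinearMap.smul_apply, Module.End.mul_apply] at h
    simp only [Submodule.coe_smul, coeQ, TV_coe, El_coe, shn_fin, shn_tau', zero_add]
    exact h
  have e1 : ∀ w, XQ⁻¹.1 (XQ.1 w) = w := fun w => congr($(XQ.inv_val) w)
  have e2 : ∀ w, YQ.1 (YQ⁻¹.1 w) = w := fun w => congr($(YQ.val_inv) w)
  rw [del_apply, h, e1, e2]

theorem mon_El (l : ℕ) : ((a 6 • TQ.ρ (fin true 0 (2 * l)) (El l) : Q) : V) =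
    TV.ρ (fin false 0 (2 * l + 1)) ((El l : Q) : V) := by
  have hU : Loc (2 * l) (2 * l + 2) (U 0) := .u (by omega)
  have h := TV.transfer (.mul (loc_fin false (i := 0) (l := 2 * l + 1) (by omega)) hU)
    (.smul (a 6) (.mul (loc_fin true (i := 1) (l := 2 * l) (by omega)) hU)) (monU_T (2 * l))
    (om_mem l)
  rw [Submodule.coe_smul, coeQ, coe_El, shn_fin, ← ρmul, ← ρmul, h, map_smul, LinearMap.smul_apply]

theorem del_ex {m : ℕ} {w : Q} (hw : w ∈ TQ.Lv m) :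
    ∃ w' : Q, (w' : V) = TV.ρ (fin false 0 m) (w : V) ∧ (del XQ YQ).1 w' = w := by
  have hw' := TQ_Lv_le m hw
  clear hw
  unfold TM.Gn at hw'
  induction hw' using Submodule.span_induction with
  | mem y hy =>
    obtain ⟨l, x, hx, rfl⟩ := hy
    refine ⟨TQ.ρ x (a 6 • TQ.ρ (fin true 0 (2 * l)) (El l)), ?_, by rw [del_ρ, del_El]⟩
    rw [coeQ, mon_El, coeQ, ← ρmul, ← ρmul]
    have hx' : Loc (2 * l + 1 + 1) (m + 1) (shn 1 x) := hx.shn 1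
    exact (TV.transfer (.mul (loc_fin false (i := 0) (l := m) (by omega)) hx')
      (.mul hx' (loc_fin false (i := 0) (l := 2 * l + 1) (by omega))) (natFin hx false 0)
      (El_mem l)).symm
  | zero => exact ⟨0, by simp, by simp⟩
  | add x y _ _ ihx ihy =>
    obtain ⟨x', hx, hx'⟩ := ihx
    obtain ⟨y', hy, hy'⟩ := ihy
    exact ⟨x' + y', by rw [Submodule.coe_add, Submodule.coe_add, map_add, hx, hy],
      by rw [map_add, hx', hy']⟩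
  | smul c x _ ih =>
    obtain ⟨x', hx, hx'⟩ := ih
    exact ⟨c • x', by rw [Submodule.coe_smul, Submodule.coe_smul, map_smul, hx],
      by rw [map_smul, hx']⟩

end XYPairAux

theorem pair_XY : bV.Pair XQ YQ := ⟨XYPairAux.drag_X, XYPairAux.drag_Y, XYPairAux.B3_XY⟩

/-- the boundary of the punctured torus is inverse to the monodromy -/
theorem del_mon {m : ℕ} {w w' : Q} (hw : w ∈ TQ.Lv m)
    (h : (w' : V) = TV.ρ (fin false 0 m) (w : V)) : (del XQ YQ).1 w' = w := by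
  obtain ⟨w'', h1, h2⟩ := XYPairAux.del_ex hw
  rw [Subtype.ext (h.trans h1.symm), h2]

end Pool.Agent.P.MP_b3a239_gt
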