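import Pool.Agent.P.MP_b3a239_gt.Univ
import Pool.Agent.P.MP_b3a239_gt.XYPair
import Pool.Agent.P.MP_b3a239_gt.Alg4

/-! One summand: the solid torus modulo slides is `LL` modulo the lens relations. -/

set_option maxSynthPendingDepth 3

noncomputable section

namespace Pool.Agent.P.MP_b3a239_gt

/-- the drag along the curve of `L(p, q)` -/
def CQ (p q : ℕ) : (Module.End R Q)ˣ := Mw XQ YQ (curve p q [true] [false])

def JL (p q : ℕ) : Submodule R LL := Jsub αL (euc tm p q xT yT).2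

def φL (p q : ℕ) : V →ₗ[R] LL := (euc tm p q xT yT).1⁻¹.1 ∘ₗ αL

variable {B : Type} [AddCommGroup B] [Module R B] {T : TM B} {p q : ℕ}

theorem Mw_nat (bs : List Bool) : Mw XQ YQ bs ∈ TQ.natU := by
  refine Subgroup.list_prod_mem _ fun z hz => ?_
  obtain ⟨b, -, rfl⟩ := List.mem_map.1 hz
  cases b
  · exact YQ_nat
  · exact XQ_nat

theorem φL_gmap (p q : ℕ) : GMap TV TL (φL p q) :=
  ((euc_tm_mem TL.natU TL.sc_mem_natU p q xT yT).2 ⟨xT_nat, yT_nat⟩).1.2.gmap.comp αL_gmap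

theorem Local_CQ (hp : 2 ≤ p) (hpq : p.Coprime q) (w : Q) :
    (CQ p q).1 w = (-a 3) ^ (p + q - 1) • (euc mv p q XQ YQ).2.1 w := by
  have hq : 1 ≤ q := by
    rcases Nat.eq_zero_or_pos q with rfl | h
    · rw [Nat.coprime_zero_right] at hpq
      omega
    · exact h
  rw [CQ, euc_mv_snd hq hpq, Units.val_mul, Units.val_pow_eq_pow_val, Units.val_neg, sc_val,
    ← map_neg, ← map_pow, Module.End.mul_apply, Module.algebraMap_end_apply]

theorem Local_inv {L L' : Type} [AddCommGroup L] [Module R L] [AddCommGroup L'] [Module R L']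
    {φ : L →ₗ[R] L'} {x : (Module.End R L)ˣ} {x' : (Module.End R L')ˣ}
    (h : ∀ w, φ (x.1 w) = x'.1 (φ w)) (w : L) : φ (x⁻¹.1 w) = x'⁻¹.1 (φ w) := by
  have h1 := congrArg x'⁻¹.1 (h (x⁻¹.1 w))
  rw [← Module.End.mul_apply, ← Module.End.mul_apply, Units.mul_inv, Units.inv_mul] at h1
  exact h1.symm

theorem local_slide (hp : 2 ≤ p) (hpq : p.Coprime q) (w : Q) :
    φL p q ((CQ p q).1 w : V) - (-a 3) ^ (p + q - 1) • φL p q (w : V) ∈ JL p q := by
  have h1 := ((Base.Sys.euc_iff pair_XY p q).2 sys_L).slide_mem (bV.u w)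
  have h2 : (euc mv p q XQ YQ).2.1 (bV.u w) = bV.u ((euc mv p q XQ YQ).2.1 w) :=
    LinearMap.congr_fun (pair_XY.euc p q).hY.cu w
  rw [h2, bV.κu, bV.κu] at h1
  rw [Local_CQ hp hpq, Submodule.coe_smul, map_smul, ← smul_sub]
  exact Submodule.smul_mem _ _ h1

theorem local_surj (p q : ℕ) (v : LL) : ∃ w, v - φL p q w ∈ JL p q :=
  ((Base.Sys.euc_iff pair_XY p q).2 sys_L).surj (genBy_L.euc p q) v

theorem local_theta (hp : 2 ≤ p) (hpq : p.Coprime q) {π : V →ₗ[R] B} (hπ : GMap TV T π)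
    (h : ∀ l, π ((CQ p q).1 (El l) : V) = (-a 3) ^ (p + q - 1) • π (El l : V)) :
    ∃ Θ : LL →ₗ[R] B, GMap TL T Θ ∧ (∀ w, Θ (φL p q w) = π w) ∧ ∀ v ∈ JL p q, Θ v = 0 := by
  have hpair := pair_XY.euc p q
  obtain ⟨hX, hY⟩ := euc_mv_mem TQ.natU TQ.sc_mem_natU TQ.neg_one_mem_natU p q XQ_nat YQ_nat
  have hdel := euc_del p q XQ YQ
  have hCQ := Local_CQ hp hpq
  have hiff := fun (α : V →ₗ[R] (ℤ → B)) x y =>
    (Base.Sys.euc_iff (α := α) (x := x) (y := y) pair_XY p q).1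
  generalize (euc mv p q XQ YQ).1 = X at hpair hX hdel hiff
  generalize (euc mv p q XQ YQ).2 = Y at hpair hY hdel hCQ hiff
  have hjg : GMap TQ (T.shift 1) (π ∘ₗ bV.j) :=
    (hπ.shift 1).comp ⟨fun hw => hw, fun _ _ => rfl, fun _ _ => rfl⟩
  have hj : ∀ w : Q, π (Y.1 w : V) = π (w : V) := by
    refine LinearMap.congr_fun (Q_ext (hjg.comp hY.1.gmap) hjg fun l => ?_)
    have h1 := h l
    rw [hCQ, Submodule.coe_smul, map_smul] at h1
    exact ((isUnit_a 3).neg.pow _).smul_left_cancel.1 h1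
  have hκ : ∀ w, π (bV.κ (Y.1 w)) = π (bV.κ w) := by
    intro w
    have hw : w ∈ ⨆ m, TQ.Lv m := TQ_strict.top ▸ Submodule.mem_top
    induction hw using Submodule.iSup_induction' with
    | mem m w hw =>
      have hw' : ((Y.1 w : Q) : V) ∈ TV.Lv (m + 1) := hY.1.2 m w hw
      replace hw : (w : V) ∈ TV.Lv (m + 1) := hw
      change π (TV.ρ (C 0) (Y.1 w : V)) = π (TV.ρ (C 0) (w : V))
      cases m with
      | zero => rw [TV_strict.C0 (by omega) hw, TV_strict.C0 (by omega) hw']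
      | succ m => rw [hπ.natC (Nat.zero_le m) hw, hπ.natC (Nat.zero_le m) hw', hj]
    | zero => simp only [map_zero]
    | add u v _ _ hu hv => simp only [map_add, hu, hv]
  obtain ⟨x, y, hxy⟩ := euc_tm_surj p q (xZ B) (yZ B)
  obtain ⟨hx, hy⟩ := (euc_tm_mem (T.pi ℤ).natU (T.pi ℤ).sc_mem_natU p q x y).1
    (by rw [hxy]; exact ⟨T.xZ_mem_natU, T.yZ_mem_natU⟩)
  have s := hiff (cheb π (bV.γ X)) x y (by rw [hxy]; exact hpair.sys_cheb hκ)
  have hγ : TV.Natl (bV.γ X) := TV.base_γ_natl TV_strict hX.1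
  have hα : GMap TV (T.pi ℤ) (cheb π (bV.γ X)) :=
    GMap.pi fun i => (hπ.comp (hγ.aeval _).gmap).neg
  have hm : ∀ m, ∀ w ∈ TV.Lv (m + 1), π (TV.ρ (fin false 0 m) w) = a 6 • π w := by
    intro m w hw
    have h1 := hpair.del_eq hκ ⟨TV.ρ (fin false 0 m) w, Submodule.mem_iSup_of_mem m
      (TV.mem (loc_fin false (by omega)) hw)⟩
    rw [hdel, del_mon (w := ⟨w, Submodule.mem_iSup_of_mem m hw⟩) hw rfl] at h1
    change π w = a (-6) • π (TV.ρ (fin false 0 m) w) at h1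
    rw [h1, smul_smul, a_mul_neg, one_smul]
  obtain ⟨φ, hφ, h1, h2, h3⟩ := univ_L hα hx hy s fun m w hw => funext fun i => by
    have h4 := hγ.aeval (Polynomial.Chebyshev.S R (i - 1))
    change -π (Polynomial.aeval (bV.γ X) _ (TV.ρ (fin false 0 m) w)) =
      a 6 • -π (Polynomial.aeval (bV.γ X) _ w)
    rw [← Module.End.mul_apply, h4.1, Module.End.mul_apply, hm m _ (h4.2 _ w hw), smul_neg]
  obtain ⟨h4, h5⟩ := euc_tm_map φ h2 h3 p q
  rw [hxy] at h4 h5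
  refine ⟨LinearMap.proj 0 ∘ₗ φ, (GMap.proj T 0).comp hφ, fun w => ?_, fun v hv => ?_⟩
  · change φ ((euc tm p q xT yT).1⁻¹.1 (αL w)) 0 = π w
    rw [Local_inv h4, h1]
    exact cheb_neg_one π _ w
  · obtain ⟨_, ⟨u, rfl⟩, _, ⟨w, rfl⟩, rfl⟩ := Submodule.mem_sup.1 hv
    change φ ((euc tm p q xT yT).2⁻¹.1 u + u + αL w) 0 = 0
    rw [map_add, map_add, Local_inv h5, h1, Pi.add_apply, Pi.add_apply, cheb_zero, add_zero]
    change (-a (2 * 0)) • φ u 0 + φ u 0 = 0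
    rw [mul_zero, a_zero, neg_smul, one_smul, neg_add_cancel]

end Pool.Agent.P.MP_b3a239_gt
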