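import Pool.Agent.P.MP_b3a239_gt.TLB

/-! Expressions with one box. -/

set_option maxSynthPendingDepth 3

noncomputable section

namespace Pool.Agent.P.MP_b3a239_gt

section Maps
variable {B B' B'' : Type} [AddCommGroup B] [Module R B] [AddCommGroup B'] [Module R B']
  [AddCommGroup B''] [Module R B''] {T : TM B} {T' : TM B'} {T'' : TM B''} {m n : ℕ} {x : FA}

@[simp] theorem emb_U (l : ℕ) : emb (U l) = cup l := by simp [emb, U]
@[simp] theorem emb_C (l : ℕ) : emb (C l) = cap l := by simp [emb, C]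
theorem emb_RtF (k : ℕ) : emb (RtF k) = Rt k := by simp [RtF, Rt, map_sum]
theorem emb_TtF (k : ℕ) : emb (TtF k) = Tt k := by simp [TtF, Tt, map_sum]
theorem nest_emb (y : FA) : nest (emb y) = emb (shn 1 y) := by
  have : nest.comp emb = emb.comp (shn 1) := by
    apply FreeAlgebra.hom_ext
    funext g
    cases g with
    | u l =>
      change nest (emb (U l)) = emb (shn 1 (U l))
      rw [shn_U, emb_U, emb_U]; simp [nest, cup]
    | c l =>
      change nest (emb (C l)) = emb (shn 1 (C l))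
      rw [shn_C, emb_C, emb_C]; simp [nest, cap]
  exact congr($this y)
theorem ev_emb_mul (ρ : FA →ₐ[R] Module.End R B) (g : Box → B) (y : FA) (x : PA) :
    ev ρ g (emb y * x) = ρ y (ev ρ g x) := by
  have key : ∀ z : B × R, (evAct ρ g (emb y) z).1 = ρ y z.1 := by
    induction y using FreeAlgebra.induction with
    | grade0 r =>
      intro z
      rw [AlgHom.commutes, AlgHom.commutes, AlgHom.commutes, Module.algebraMap_end_apply,
        Module.algebraMap_end_apply]
      rfl
    | grade1 t =>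
      intro z
      cases t with
      | u l =>
        change (evAct ρ g (emb (U l)) z).1 = ρ (U l) z.1
        rw [emb_U]; simp [evAct, cup]
      | c l =>
        change (evAct ρ g (emb (C l)) z).1 = ρ (C l) z.1
        rw [emb_C]; simp [evAct, cap]
    | mul y₁ y₂ h₁ h₂ =>
      intro z
      rw [map_mul, map_mul, map_mul, Module.End.mul_apply, Module.End.mul_apply, h₁, h₂]
    | add y₁ y₂ h₁ h₂ =>
      intro z
      rw [map_add, map_add, map_add, LinearMap.add_apply, LinearMap.add_apply, Prod.fst_add, h₁, h₂]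
  change (evAct ρ g (emb y * x) (0, 1)).1 = ρ y (evAct ρ g x (0, 1)).1
  rw [map_mul, Module.End.mul_apply, key]
@[simp] theorem ev_bx (ρ : FA →ₐ[R] Module.End R B) (g : Box → B) (b : Box) :
    ev ρ g (bx b) = g b := by
  change (evAct ρ g (bx b) (0, 1)).1 = g b
  simp [evAct, bx]
theorem bx_mem_Rep (b : Box) : bx b ∈ Rep b.legs :=   Submodule.subset_span ⟨1, b, Loc.one _, by simp⟩
theorem emb_mul_mem_Rep {y : FA} {x : PA} (hy : Loc m n y) (hx : x ∈ Rep m) : emb y * x ∈ Rep n := by
  induction hx using Submodule.span_induction with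
  | mem x hx =>
    obtain ⟨z, b, hz, rfl⟩ := hx
    exact Submodule.subset_span ⟨y * z, b, hy.mul hz, by rw [map_mul, mul_assoc]⟩
  | zero => simp
  | add x₁ x₂ _ _ h₁ h₂ => rw [mul_add]; exact add_mem h₁ h₂
  | smul c x _ h => rw [mul_smul_comm]; exact Submodule.smul_mem _ c h
theorem low_mem_Rep (k i : ℕ) (n : ℤ) : low k i n ∈ Rep (2 * k) := by
  induction k generalizing i with
  | zero =>
    cases i with
    | zero => exact bx_mem_Rep (.G 0 n)
    | succ i =>
      by_cases hi : i = 0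
      · simp only [low, hi, if_true]; exact bx_mem_Rep (.t n)
      · simp only [low, hi, if_false]; exact zero_mem _
  | succ k ih =>
    cases i with
    | zero => exact bx_mem_Rep (.G (k + 1) n)
    | succ i =>
      rw [low, ← emb_RtF]
      exact emb_mul_mem_Rep ((loc_RtF k).cast rfl (by ring)) (ih i)
/-- `Om k n` is `G k n` plus terms with smaller boxes -/
theorem Om_sub_mem (k : ℕ) (n : ℤ) : Om k n - G k n ∈
    Submodule.span R {x | ∃ y j n', j < k ∧ Loc (2 * j) (2 * k) y ∧ x = emb y * G j n'} := by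
  have hG : ∀ j n', nest (G j n') = G (j + 1) n' - a (-2) • (Tt j * G j (n' - 1)) := by
    intro j n'; simp [nest, G]
  induction k with
  | zero => simp [Om]
  | succ k ih =>
    have h1 : Om (k + 1) n = nest (Om k n - G k n) + nest (G k n) := by
      rw [← map_add, sub_add_cancel, Om, Function.iterate_succ_apply', Om]
    rw [h1, hG, show ∀ x y z : PA, x + (y - z) - y = x - z from fun x y z => by abel]
    refine sub_mem ?_ (Submodule.smul_mem _ _ (Submodule.subset_span
      ⟨TtF k, k, n - 1, by omega, (loc_TtF k).cast rfl (by ring), by rw [emb_TtF]⟩))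
    generalize Om k n - G k n = w at ih
    induction ih using Submodule.span_induction with
    | mem x hx =>
      obtain ⟨y, j, n', hj, hy, rfl⟩ := hx
      have hy' : Loc (2 * (j + 1)) (2 * (k + 1)) (shn 1 y) :=
        ((hy.shn 1).padR 1).cast (by ring) (by ring)
      rw [map_mul, nest_emb, hG, mul_sub, mul_smul_comm]
      refine sub_mem (Submodule.subset_span ⟨shn 1 y, j + 1, n', by omega, hy', rfl⟩)
        (Submodule.smul_mem _ _ (Submodule.subset_span
          ⟨shn 1 y * TtF j, j, n' - 1, by omega, hy'.mul ((loc_TtF j).cast rfl (by ring)), ?_⟩))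
      rw [map_mul, emb_TtF, mul_assoc]
    | zero => simp
    | add x₁ x₂ _ _ h₁ h₂ => rw [map_add]; exact add_mem h₁ h₂
    | smul c x _ h => rw [map_smul]; exact Submodule.smul_mem _ c h
theorem Om_mem_Rep (k : ℕ) (n : ℤ) : Om k n ∈ Rep (2 * k) := by
  have h1 : Om k n = (Om k n - G k n) + G k n := by abel
  rw [h1]
  refine add_mem ?_ (bx_mem_Rep (.G k n))
  refine (Submodule.span_le.2 ?_) (Om_sub_mem k n)
  rintro _ ⟨y, j, n', -, hy, rfl⟩
  exact emb_mul_mem_Rep hy (bx_mem_Rep (.G j n'))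
theorem BoxRel.rep {p q : ℕ} {x : PA} (h : BoxRel p q x) : ∃ m, x ∈ Rep m := by
  have hG : ∀ k n, G k n ∈ Rep (2 * k) := fun k n => bx_mem_Rep (.G k n)
  have ht : ∀ n, t n ∈ Rep 0 := fun n => bx_mem_Rep (.t n)
  cases h with
  | capG k i n hi _ =>
    refine ⟨2 * k - 2, ?_⟩
    rw [← emb_C]
    exact emb_mul_mem_Rep ((Loc.c (m := 2 * k - 2) (j := i) (by omega)).cast (by omega) rfl) (hG k n)
  | capMid k n =>
    refine ⟨2 * k, add_mem (sub_mem ?_ (hG k _)) (Submodule.smul_mem _ _ (hG k _))⟩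
    rw [← emb_C]
    exact emb_mul_mem_Rep ((Loc.c (m := 2 * k) (j := k) (by omega)).cast (by omega) rfl)
      (hG (k + 1) n)
  | sphere k n =>
    exact ⟨2 * k, add_mem (sub_mem (Submodule.smul_mem _ _ (hG k n)) (low_mem_Rep k 1 _))
      (Submodule.smul_mem _ _ (low_mem_Rep k 1 _))⟩
  | lensG k n =>
    exact ⟨2 * k, add_mem (hG k _) (Submodule.sum_mem _ fun i _ =>
      Submodule.smul_mem _ _ (low_mem_Rep k i _))⟩
  | lenst n => exact ⟨0, add_mem (ht _) (Submodule.smul_mem _ _ (ht _))⟩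
  | sym k n => exact ⟨2 * k, add_mem (Om_mem_Rep k n) (Om_mem_Rep k _)⟩
  | zero k => exact ⟨2 * k, Om_mem_Rep k 0⟩
theorem ev_mem {g : Box → B} (hg : ∀ b, g b ∈ T.Lv b.legs) {x : PA} (hx : x ∈ Rep m) :
    ev T.ρ g x ∈ T.Lv m := by
  induction hx using Submodule.span_induction with
  | mem x hx =>
    obtain ⟨y, b, hy, rfl⟩ := hx
    rw [ev_emb_mul, ev_bx]
    exact T.mem hy (hg b)
  | zero => simp
  | add x₁ x₂ _ _ h₁ h₂ => rw [map_add]; exact add_mem h₁ h₂
  | smul c x _ h => rw [map_smul]; exact Submodule.smul_mem _ c h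
theorem GMap.ev {φ : B →ₗ[R] B'} (hφ : GMap T T' φ) {g : Box → B} (hg : ∀ b, g b ∈ T.Lv b.legs)
    {x : PA} (hx : x ∈ Rep m) : φ (ev T.ρ g x) = ev T'.ρ (fun b => φ (g b)) x := by
  induction hx using Submodule.span_induction with
  | mem x hx =>
    obtain ⟨y, b, hy, rfl⟩ := hx
    rw [ev_emb_mul, ev_emb_mul, ev_bx, ev_bx, hφ.nat hy (hg b)]
  | zero => simp
  | add x₁ x₂ _ _ h₁ h₂ => rw [map_add, map_add, map_add, h₁, h₂]
  | smul c x _ h => rw [map_smul, map_smul, map_smul, h]

end Maps

end Pool.Agent.P.MP_b3a239_gt
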