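import Pool.Agent.P.MP_b3a239_gt.VX
import Pool.Agent.P.MP_b3a239_gt.TLBasic

/-! Algebra in `R[X, X⁻¹]`. -/

set_option maxSynthPendingDepth 3

noncomputable section

namespace Pool.Agent.P.MP_b3a239_gt

@[simp] theorem XXB_apply (n : ℤ) : XXB n = XX n :=
  rfl
theorem XX_add (m n : ℤ) : XX (m + n) = XX m * XX n :=
  LaurentPolynomial.T_add (R := R) m n
@[simp] theorem XX_zero : XX 0 = 1 :=
  rfl
theorem isUnit_XX (n : ℤ) : IsUnit (XX n) :=
  LaurentPolynomial.isUnit_T (R := R) n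
theorem pii_zero : pii 0 = dl := by simp [pii, dl]
theorem PP_zero : PP 0 = dl := by simp [PP, pii_zero]
theorem PP_succ (k : ℕ) : PP (k + 1) = PP k * pii (k + 1) :=
  Finset.prod_range_succ _ _
theorem PP_eq (k : ℕ) : PP k = dl * PQ k := by
  rw [PP, PQ, Finset.prod_range_succ', pii_zero, mul_comm]
@[simp] theorem PQ_zero : PQ 0 = 1 := by simp [PQ]
theorem PQ_succ (k : ℕ) : PQ (k + 1) = PQ k * pii (k + 1) :=
  Finset.prod_range_succ _ _
theorem pii_ne_zero (j : ℕ) : pii j ≠ 0 := by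
  intro h
  have h1 := congrArg (fun e => XXB.repr e 1) h
  simp only [pii, map_sub, map_smul, ← XXB_apply, Module.Basis.repr_self, map_zero] at h1
  simp at h1
theorem PP_ne_zero (k : ℕ) : PP k ≠ 0 :=
  Finset.prod_ne_zero_iff.mpr fun i _ => pii_ne_zero i
theorem PQ_ne_zero (k : ℕ) : PQ k ≠ 0 :=
  Finset.prod_ne_zero_iff.mpr fun i _ => pii_ne_zero (i + 1)

section Cf
variable {B B' : Type} [AddCommGroup B] [Module R B] [AddCommGroup B'] [Module R B']

@[simp] theorem cf_XX (μ : ℤ → B) (n : ℤ) : cf μ (XX n) = μ n := by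
  rw [cf, ← XXB_apply, Module.Basis.constr_basis]
theorem MM_ext {φ ψ : MM →ₗ[R] B} (h : ∀ n, φ (XX n) = ψ (XX n)) : φ = ψ :=
  XXB.ext fun n => by simpa using h n
theorem MM_span : Submodule.span R (Set.range XX) = ⊤ := by
  have : (XX : ℤ → MM) = XXB := funext fun n => (XXB_apply n).symm
  rw [this, XXB.span_eq]
theorem cf_XX_mul (μ : ℤ → B) (j : ℤ) (e : MM) : cf μ (XX j * e) = cf (fun n => μ (j + n)) e := by
  have : cf μ ∘ₗ LinearMap.mulLeft R (XX j) = cf (fun n => μ (j + n)) :=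
    MM_ext fun n => by simp [← XX_add]
  exact LinearMap.congr_fun this e
theorem map_cf (φ : B →ₗ[R] B') (μ : ℤ → B) (e : MM) : φ (cf μ e) = cf (fun n => φ (μ n)) e := by
  have : φ ∘ₗ cf μ = cf (fun n => φ (μ n)) := MM_ext fun n => by simp
  exact LinearMap.congr_fun this e

end Cf

theorem MMA_mul (φ : MM →ₗ[R] MM) (h : ∀ m n, φ (XX m * XX n) = φ (XX m) * φ (XX n))
    (e e' : MM) : φ (e * e') = φ e * φ e' := by
  have h1 : ∀ m, φ (XX m * e') = φ (XX m) * φ e' := by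
    intro m
    have : φ ∘ₗ LinearMap.mulLeft R (XX m) = LinearMap.mulLeft R (φ (XX m)) ∘ₗ φ :=
      MM_ext fun n => by simpa using h m n
    exact LinearMap.congr_fun this e'
  have : φ ∘ₗ LinearMap.mulRight R e' = LinearMap.mulRight R (φ e') ∘ₗ φ :=
    MM_ext fun n => by simpa using h1 n
  exact LinearMap.congr_fun this e

@[simp] theorem Yc_XX (j n : ℤ) : Yc j (XX n) = a (2 * j * n) • XX n :=
  cf_XX _ n
theorem Yc_mul (j : ℤ) (e e' : MM) : Yc j (e * e') = Yc j e * Yc j e' := by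
  refine MMA_mul (Yc j) (fun m n => ?_) e e'
  rw [← XX_add, Yc_XX, Yc_XX, Yc_XX, smul_mul_smul_comm, ← a_add, ← XX_add, mul_add]
theorem Yc_comp (i j : ℤ) : Yc i ∘ₗ Yc j = Yc (i + j) :=
  MM_ext fun n => by
  rw [LinearMap.comp_apply, Yc_XX, map_smul, Yc_XX, Yc_XX, smul_smul, ← a_add]
  congr 2
  ring
theorem Yc_zero : Yc 0 = LinearMap.id :=
  MM_ext fun n => by simp
theorem MMA_Yc_pii_zero : Yc (-1) (pii 0) = a (-2) • (XX 1 - a 4 • XX (-1)) := by
  rw [pii_zero, dl, map_sub, Yc_XX, Yc_XX, smul_sub, smul_smul, ← a_add]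
  rfl

theorem MMA_Yc_pii_succ (j : ℕ) : Yc (-1) (pii (j + 1)) = a (-2) • pii j := by
  rw [pii, pii, map_sub, map_smul, Yc_XX, Yc_XX, smul_sub, smul_smul, smul_smul, ← a_add, ← a_add]
  congr 3
  push_cast
  ring

theorem MMA_Yc_PP (k : ℕ) :
    Yc (-1) (PP (k + 1)) = a (-2 * (k + 2)) • ((XX 1 - a 4 • XX (-1)) * PP k) := by
  induction k with
  | zero =>
    rw [PP_succ, Yc_mul, MMA_Yc_pii_succ, PP_zero, ← pii_zero, MMA_Yc_pii_zero,
      smul_mul_smul_comm, ← a_add]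
    rfl
  | succ k ih =>
    rw [PP_succ, Yc_mul, ih, MMA_Yc_pii_succ, smul_mul_smul_comm, ← a_add, mul_assoc, ← PP_succ]
    congr 2

theorem Yc_PP_succ (k : ℕ) (n : ℤ) : Yc (-1) (XX n * PP (k + 1)) = a (-2 * (n + k + 2)) •
    (XX n * PP (k + 1) + (a (-4 * (k + 1)) * f (k + 1)) • (XX (n - 1) * PP k)) := by
  have h1 : XX (n - 1) = XX n * XX (-1) := by rw [← XX_add]; rfl
  have h2 : a (-4 * (k + 1)) * f (k + 1) = a (-4 * (k + 1)) - a 4 := by
    rw [f, mul_sub, mul_one, ← a_add]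
    congr 2
    push_cast
    ring
  have h3 : a (-2 * (n + k + 2)) = a (2 * -1 * n) * a (-2 * (k + 2)) := by
    rw [← a_add]
    congr 1
    ring
  rw [Yc_mul, MMA_Yc_PP, Yc_XX, h1, h2, h3, PP_succ, pii]
  push_cast
  simp only [Algebra.smul_def, map_mul, map_sub]
  ring
theorem Yc_PP_zero (n : ℤ) : Yc (-1) (XX n * PP 0) = a (-2 * (n + 1)) •
    (XX n * PP 0 + f 0 • XX (n - 1)) := by
  have h1 : XX (n - 1) = XX n * XX (-1) := by rw [← XX_add]; rfl
  have h3 : a (-2 * (n + 1)) = a (2 * -1 * n) * a (-2) := by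
    rw [← a_add]
    congr 1
    ring
  have h4 : f 0 = 1 - a 4 := by simp [f]
  rw [Yc_mul, PP_zero, ← pii_zero, MMA_Yc_pii_zero, Yc_XX, h1, h3, h4, pii_zero, dl]
  simp only [Algebra.smul_def, map_mul, map_sub, map_one]
  ring
theorem cinv_eq (p q : ℕ) (e : MM) :
    cinv p q e = ((-1) ^ q * a (-(p * q))) • Yc (-q) (XX (-p) * e) := by
  have : cinv p q = ((-1) ^ q * a (-(p * q))) • (Yc (-q) ∘ₗ LinearMap.mulLeft R (XX (-p))) := by
    refine MM_ext fun n => ?_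
    rw [cinv, cf_XX, LinearMap.smul_apply, LinearMap.comp_apply, LinearMap.mulLeft_apply,
      ← XX_add, Yc_XX, smul_smul, mul_assoc ((-1) ^ q), ← a_add, show -(p : ℤ) + n = n - p by ring]
    congr 3
    ring
  rw [this]
  rfl

/-- the action of `PP k` on functions -/
def pf {B : Type} [AddCommGroup B] [Module R B] : ℕ → (ℤ → B) → ℤ → B
  | 0, μ, n => μ (n + 1) - μ (n - 1)
  | k + 1, μ, n => pf k μ (n + 1) - a (-4 * (k + 1)) • pf k μ (n - 1)

theorem cf_PP {B : Type} [AddCommGroup B] [Module R B] (μ : ℤ → B) (k : ℕ) (n : ℤ) :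
    cf μ (XX n * PP k) = pf k μ n := by
  induction k generalizing n with
  | zero =>
    rw [PP_zero, dl, mul_sub, ← XX_add, ← XX_add, map_sub, cf_XX, cf_XX, pf]
    rfl
  | succ k ih =>
    have h : XX n * PP (k + 1) =
        XX (n + 1) * PP k - a (-4 * (k + 1)) • (XX (n - 1) * PP k) := by
      rw [PP_succ, pii, XX_add, sub_eq_add_neg n, XX_add]
      push_cast
      simp only [Algebra.smul_def]
      ring
    rw [h, map_sub, map_smul, ih, ih, pf]


/-- the substitution `X ↦ X⁻¹` -/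
def Xinv : MM →ₗ[R] MM := cf fun n => XX (-n)

@[simp] theorem Xinv_XX (n : ℤ) : Xinv (XX n) = XX (-n) :=
  cf_XX _ n
theorem Xinv_mul (e e' : MM) : Xinv (e * e') = Xinv e * Xinv e' := by
  refine MMA_mul Xinv (fun m n => ?_) e e'
  rw [← XX_add, Xinv_XX, Xinv_XX, Xinv_XX, ← XX_add, neg_add]
theorem Xinv_one : Xinv 1 = 1 := by
  rw [← XX_zero, Xinv_XX, neg_zero]
theorem Xinv_dl : Xinv dl = -dl := by simp [dl]
theorem Xinv_zz : Xinv zz = zz := by simp [zz, add_comm]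

end Pool.Agent.P.MP_b3a239_gt
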