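import Pool.Agent.P.MP_b3a239_gt.MMA

/-! Independence and divisibility in `R[X, X⁻¹]`. -/

set_option maxSynthPendingDepth 3

noncomputable section

namespace Pool.Agent.P.MP_b3a239_gt

private theorem indep_mul {I : Type} {v : I → MM} (hv : LinearIndependent R v) {e : MM}
    (he : e ≠ 0) : LinearIndependent R fun n => v n * e := by
  refine hv.map' (LinearMap.mulRight R e) (LinearMap.ker_eq_bot'.2 fun x hx => ?_)
  exact (mul_eq_zero.1 hx).resolve_right he

private theorem indep_tri {M : Type} [AddCommGroup M] [Module R M] {v : ℕ → M}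
    (c : ℕ → M →ₗ[R] R) (h₁ : ∀ n, c n (v n) = 1) (h₀ : ∀ n m, m < n → c n (v m) = 0) :
    LinearIndependent R v := by
  refine linearIndependent_iff'.2 fun s g => ?_
  induction s using Finset.induction_on_max with
  | empty => intro _ i hi; simp at hi
  | insert n s hs ih =>
    intro h
    have hn : n ∉ s := fun hn => lt_irrefl _ (hs n hn)
    rw [Finset.sum_insert hn] at h
    have hg : g n = 0 := by
      have h' := congrArg (c n) h
      rw [map_add, map_sum, map_smul, h₁, map_zero, Finset.sum_eq_zero, add_zero, smul_eq_mul,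
        mul_one] at h'
      · exact h'
      · intro i hi
        rw [map_smul, h₀ n i (hs i hi), smul_zero]
    rw [hg, zero_smul, zero_add] at h
    intro i hi
    rcases Finset.mem_insert.1 hi with rfl | hi
    · exact hg
    · exact ih h i hi

/-- the coefficient of `X ^ d` -/
private def co (d : ℤ) : MM →ₗ[R] R := cf fun n => if n = d then 1 else 0

private theorem co_XX_mul (d j : ℤ) (e : MM) : co d (XX j * e) = co (d - j) e := by
  rw [co, co, cf_XX_mul]
  congr 2
  funext n
  simp only [show j + n = d ↔ n = d - j by omega]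

private theorem co_zz (n : ℕ) : co n (zz ^ n) = 1 ∧ ∀ d : ℤ, n < d → co d (zz ^ n) = 0 := by
  induction n with
  | zero =>
    rw [pow_zero, ← XX_zero]
    refine ⟨by rw [co, cf_XX]; simp, fun d hd => ?_⟩
    rw [co, cf_XX, if_neg (by push_cast at hd; omega)]
  | succ n ih =>
    have h : ∀ d, co d (zz ^ (n + 1)) = co (d - 1) (zz ^ n) + co (d - -1) (zz ^ n) := fun d => by
      rw [pow_succ', ← co_XX_mul, ← co_XX_mul, ← map_add, ← add_mul]; rfl
    refine ⟨?_, fun d hd => ?_⟩
    · rw [h, ih.2 (_ - -1) (by push_cast; omega), add_zero]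
      simpa using ih.1
    · push_cast at hd
      rw [h, ih.2 _ (by omega), ih.2 _ (by omega), add_zero]

theorem XX_indep : LinearIndependent R XX := by
  have h := XXB.linearIndependent
  rwa [show ⇑XXB = XX from funext XXB_apply] at h
theorem XX_mul_indep {e : MM} (he : e ≠ 0) : LinearIndependent R fun n : ℤ => XX n * e :=
  indep_mul XX_indep he
theorem zz_pow_indep {e : MM} (he : e ≠ 0) : LinearIndependent R fun n : ℕ => zz ^ n * e :=
  indep_mul (indep_tri (fun n => co n) (fun n => (co_zz n).1)
    fun n m h => (co_zz m).2 n (by exact_mod_cast h)) he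

private theorem smul_eq_zero_MM {r : R} (hr : r ≠ 0) {e : MM} (h : r • e = 0) : e = 0 := by
  have h₁ : r • XXB.repr e = 0 := by rw [← map_smul, h, map_zero]
  exact XXB.repr.map_eq_zero_iff.1 ((smul_eq_zero.1 h₁).resolve_left hr)

/-- reduction modulo `pii j` -/
private def red (j : ℕ) : MM →ₗ[R] MM := cf fun n => a (-4 * j * (n / 2)) • XX (n % 2)

private theorem XX_mul_pii (j : ℕ) (n : ℤ) :
    XX n * pii j = XX (n + 1) - a (-4 * j) • XX (n - 1) := by
  rw [pii, mul_sub, mul_smul_comm, ← XX_add, ← XX_add, sub_eq_add_neg n 1]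

private theorem red_mul (j : ℕ) (e : MM) : red j (e * pii j) = 0 := by
  have : red j ∘ₗ LinearMap.mulRight R (pii j) = 0 := MM_ext fun n => by
    rw [LinearMap.comp_apply, LinearMap.mulRight_apply, XX_mul_pii, map_sub, map_smul, red, cf_XX,
      cf_XX, smul_smul, ← a_add, show (n + 1) / 2 = (n - 1) / 2 + 1 by omega,
      show (n + 1) % 2 = (n - 1) % 2 by omega, LinearMap.zero_apply, sub_eq_zero]
    congr 2
    ring
  exact congr($this e)

private theorem dvd_smul {x y : MM} (h : x ∣ y) (r : R) : x ∣ r • y := by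
  rw [Algebra.smul_def]; exact h.mul_left _

private theorem pii_dvd_XX (j : ℕ) (s m : ℤ) :
    pii j ∣ XX (2 * m + s) - a (-4 * j * m) • XX s := by
  induction m using Int.induction_on with
  | zero => simp
  | succ m ih =>
    have : XX (2 * (m + 1) + s) - a (-4 * j * (m + 1)) • XX s = XX (2 * m + s + 1) * pii j +
        a (-4 * j) • (XX (2 * m + s) - a (-4 * j * m) • XX s) := by
      rw [XX_mul_pii, smul_sub, smul_smul, ← a_add, show 2 * ((m : ℤ) + 1) + s = 2 * m + s + 1 + 1 by ring,
        add_sub_cancel_right, show -4 * (j : ℤ) * (m + 1) = -4 * j + -4 * j * m by ring]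
      abel
    rw [this]
    exact (dvd_mul_left _ _).add (dvd_smul ih _)
  | pred m ih =>
    have : XX (2 * (-m - 1) + s) - a (-4 * j * (-m - 1)) • XX s = a (4 * j) •
        (XX (2 * -m + s) - a (-4 * j * -m) • XX s - XX (2 * -m + s - 1) * pii j) := by
      rw [XX_mul_pii, sub_add_cancel, smul_sub, smul_sub, smul_sub, smul_smul, smul_smul, ← a_add,
        ← a_add, show 4 * (j : ℤ) + -4 * j = 0 by ring, a_zero, one_smul,
        show 2 * (-(m : ℤ) - 1) + s = 2 * -m + s - 1 - 1 by ring,
        show -4 * (j : ℤ) * (-m - 1) = 4 * j + -4 * j * -m by ring]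
      abel
    rw [this]
    exact dvd_smul (ih.sub (dvd_mul_left _ _)) _

private theorem pii_dvd_sub (j : ℕ) (e : MM) : pii j ∣ e - red j e := by
  have he : e ∈ Submodule.span R (Set.range XX) := MM_span ▸ Submodule.mem_top
  induction he using Submodule.span_induction with
  | mem x hx =>
    obtain ⟨n, rfl⟩ := hx
    have h := pii_dvd_XX j (n % 2) (n / 2)
    rwa [show 2 * (n / 2) + n % 2 = n by omega, ← cf_XX (fun n => a (-4 * j * (n / 2)) • XX (n % 2)) n]
      at h
  | zero => simp
  | add x y _ _ hx hy => rw [map_add, add_sub_add_comm]; exact hx.add hy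
  | smul r x _ hx => rw [map_smul, ← smul_sub]; exact dvd_smul hx r

private theorem pii_dvd_of_smul {r : R} (hr : r ≠ 0) (j : ℕ) {e : MM} (h : pii j ∣ r • e) :
    pii j ∣ e := by
  obtain ⟨y, hy⟩ := h
  have h₁ : r • red j e = 0 := by rw [← map_smul, hy, mul_comm, red_mul]
  simpa [smul_eq_zero_MM hr h₁] using pii_dvd_sub j e

/-- a basis of the ideal generated by `X - X⁻¹` and `1 - A ^ 4` -/
theorem dl_f_indep : LinearIndependent R
    (Sum.elim (fun n : ℤ => XX n * PP 0) fun b : Bool => f 0 • XX (if b then 1 else 0)) := by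
  have hb : LinearIndependent R fun b : Bool => XX (if b then 1 else 0) :=
    XX_indep.comp (fun b : Bool => if b then (1 : ℤ) else 0) fun b b' h => by
      cases b <;> cases b' <;> simp_all
  refine (XX_mul_indep (PP_ne_zero 0)).sum_type ?_ ?_
  · have h := hb.map' (f 0 • (LinearMap.id : MM →ₗ[R] MM))
      (LinearMap.ker_eq_bot'.2 fun x hx => smul_eq_zero_MM (f_ne_zero 0) (by
        rwa [LinearMap.smul_apply, LinearMap.id_apply] at hx))
    simpa only [Function.comp_def, LinearMap.smul_apply, LinearMap.id_apply] using h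
  · refine Submodule.disjoint_def.2 fun x h₁ h₂ => ?_
    have h₃ : red 0 x = 0 := by
      refine (Submodule.span_le (p := LinearMap.ker (red 0))).2 ?_ h₁
      rintro _ ⟨n, rfl⟩
      show red 0 (XX n * PP 0) = 0
      rw [PP_zero, ← pii_zero, red_mul]
    have h₄ : red 0 x = x := by
      refine (Submodule.span_le (p := LinearMap.eqLocus (red 0) LinearMap.id)).2 ?_ h₂
      rintro _ ⟨b, rfl⟩
      show red 0 (f 0 • XX (if b then 1 else 0)) = f 0 • XX (if b then 1 else 0)
      rw [map_smul, red, cf_XX]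
      cases b <;> simp
    rw [← h₄, h₃]
theorem PP_dvd_of_smul {r : R} (hr : r ≠ 0) (k : ℕ) {e : MM} (h : PP k ∣ r • e) : PP k ∣ e := by
  induction k with
  | zero => rw [PP_zero, ← pii_zero] at h ⊢; exact pii_dvd_of_smul hr 0 h
  | succ k ih =>
    rw [PP_succ] at h ⊢
    obtain ⟨y, rfl⟩ := ih ((dvd_mul_right _ _).trans h)
    rw [← mul_smul_comm, mul_dvd_mul_iff_left (PP_ne_zero k)] at h
    exact mul_dvd_mul_left _ (pii_dvd_of_smul hr _ h)

end Pool.Agent.P.MP_b3a239_gt
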