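import Pool.Agent.P.MP_b3a239_gt.Lens
import Pool.Agent.P.MP_b3a239_gt.CxDef

/-! Evaluation of one summand at `A = i`. -/

set_option maxSynthPendingDepth 3

noncomputable section

namespace Pool.Agent.P.MP_b3a239_gt

section NTVecAux
variable {k : Type} [CommRing k] {E : F k →ₗ[k] F k} {b : Bool} {α β : k}

/-- the coefficient of the mixed term -/
def NTVec_cc (α β : k) : ℕ → k
  | 0 => 1
  | n + 1 => β ^ (n + 1) + NTVec_cc α β n * α

theorem NTVec_cc_neg (n : ℕ) : NTVec_cc (-1 : k) (-1) n = (n + 1) * (-1) ^ n := by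
  induction n with
  | zero => simp [NTVec_cc]
  | succ n ih => rw [NTVec_cc, ih]; push_cast; ring

theorem NTVec_pow_fix (h1 : ∀ x, E (cons k b x) = α • cons k b (E x)) (n : ℕ) (x : F k) :
    (E ^ n) (cons k b x) = α ^ n • cons k b ((E ^ n) x) := by
  induction n with
  | zero => simp
  | succ n ih =>
    rw [pow_succ' E, Module.End.mul_apply, Module.End.mul_apply, ih, map_smul, h1, smul_smul,
      pow_succ]

theorem NTVec_pow_mov (h1 : ∀ x, E (cons k b x) = α • cons k b (E x))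
    (h2 : ∀ x, E (cons k (!b) x) = cons k b x + β • cons k (!b) (E x)) (n : ℕ) (x : F k) :
    (E ^ (n + 1)) (cons k (!b) x) =
      β ^ (n + 1) • cons k (!b) ((E ^ (n + 1)) x) + NTVec_cc α β n • cons k b ((E ^ n) x) := by
  induction n with
  | zero => simp [NTVec_cc, h2, add_comm]
  | succ n ih =>
    rw [pow_succ' E (n + 1), Module.End.mul_apply, Module.End.mul_apply, ih, map_add, map_smul,
      map_smul, h1, h2, NTVec_cc, ← Module.End.mul_apply E (E ^ n), ← pow_succ']
    module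

theorem NTVec_zero (h0 : E (bas k []) = 0) (h1 : ∀ x, E (cons k b x) = α • cons k b (E x))
    (h2 : ∀ x, E (cons k (!b) x) = cons k b x + β • cons k (!b) (E x)) {w : List Bool} {K : ℕ}
    (h : w.count (!b) < K) : (E ^ K) (bas k w) = 0 := by
  induction w generalizing K with
  | nil =>
    obtain ⟨n, rfl⟩ : ∃ n, K = n + 1 := ⟨K - 1, by omega⟩
    rw [pow_succ, Module.End.mul_apply, h0, map_zero]
  | cons c w ih =>
    rw [← cons_bas]
    by_cases e : c = b
    · subst e
      rw [NTVec_pow_fix h1, ih (by simpa using h), map_zero, smul_zero]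
    · have e' : c = !b := Bool.eq_not_iff.2 e
      subst e'
      rw [List.count_cons_self] at h
      obtain ⟨n, rfl⟩ : ∃ n, K = n + 1 := ⟨K - 1, by omega⟩
      rw [NTVec_pow_mov h1 h2, ih (by omega), ih (by omega)]
      simp

theorem NTVec_front (h0 : E (bas k []) = 0)
    (h1 : ∀ x, E (cons k b x) = (-1 : k) • cons k b (E x))
    (h2 : ∀ x, E (cons k (!b) x) = cons k b x + (-1 : k) • cons k (!b) (E x)) (x y : ℕ) :
    (E ^ y) (bas k (List.replicate y (!b) ++ List.replicate x b)) =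
      ((-1) ^ y.choose 2 * y.factorial : k) • bas k (List.replicate (y + x) b) := by
  induction y with
  | zero => simp
  | succ y ih =>
    rw [List.replicate_succ, List.cons_append, ← cons_bas, NTVec_pow_mov h1 h2, ih,
      NTVec_zero h0 h1 h2 (by simp [List.count_replicate]), map_zero, smul_zero, zero_add,
      map_smul, cons_bas, smul_smul, NTVec_cc_neg, ← List.replicate_succ, Nat.add_right_comm,
      Nat.choose_succ_succ' y 1, Nat.choose_one_right, Nat.factorial_succ]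
    congr 1
    push_cast
    ring

theorem NTVec_sign (K : ℕ) : (-1 : k) ^ (2 * K).choose 2 = (-1) ^ K := by
  induction K with
  | zero => simp
  | succ K ih =>
    rw [show 2 * (K + 1) = 2 * K + 1 + 1 by ring, Nat.choose_succ_succ' _ 1,
      Nat.choose_succ_succ' _ 1, Nat.choose_one_right, Nat.choose_one_right, pow_add, pow_add,
      pow_add, ih, pow_mul]
    simp [pow_succ]

theorem NTVec_even (h0 : E (bas k []) = 0)
    (h1 : ∀ x, E (cons k b x) = (-1 : k) • cons k b (E x))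
    (h2 : ∀ x, E (cons k (!b) x) = cons k b x + (-1 : k) • cons k (!b) (E x)) (K : ℕ) :
    (E ^ (2 * K)) (bas k (List.replicate (2 * K) b ++ List.replicate (2 * K) (!b))) =
        ((-1) ^ K * (2 * K).factorial : k) • bas k (List.replicate (4 * K) b) ∧
      (E ^ (2 * K)) (bas k (List.replicate (2 * K) (!b) ++ List.replicate (2 * K) b)) =
        ((-1) ^ K * (2 * K).factorial : k) • bas k (List.replicate (4 * K) b) := by
  have e : 4 * K = 2 * K + 2 * K := by ring
  refine ⟨?_, by rw [NTVec_front h0 h1 h2, NTVec_sign, e]⟩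
  have key : ∀ x, (E ^ (2 * K)) (bas k (List.replicate x b ++ List.replicate (2 * K) (!b))) =
      ((-1) ^ K * (2 * K).factorial : k) • bas k (List.replicate (2 * K + x) b) := by
    intro x
    induction x with
    | zero => simpa [NTVec_sign] using NTVec_front h0 h1 h2 0 (2 * K)
    | succ x ih =>
      rw [List.replicate_succ, List.cons_append, ← cons_bas, NTVec_pow_fix h1, ih, map_smul,
        cons_bas, pow_mul, neg_one_sq, one_pow, one_smul]
      rfl
  rw [key, e]

theorem NTVec_swp_cons (c : Bool) (w : F k) : swp k (cons k c w) = cons k (!c) (swp k w) :=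
  DFunLike.congr_fun (F_ext (φ := swp k ∘ₗ cons k c) (ψ := cons k (!c) ∘ₗ swp k)
    fun u => by simp) w

theorem NTVec_swp_snoc (c : Bool) (w : F k) : swp k (snoc k c w) = snoc k (!c) (swp k w) :=
  DFunLike.congr_fun (F_ext (φ := swp k ∘ₗ snoc k c) (ψ := snoc k (!c) ∘ₗ swp k)
    fun u => by simp) w

variable [Algebra R k]

theorem NTVec_neg_two (h : algebraMap R k (a 2) = -1) : algebraMap R k (a (-2)) = -1 := by
  have h1 := congrArg (algebraMap R k) (a_mul_neg 2)
  rw [map_mul, h, map_one] at h1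
  linear_combination -h1

end NTVecAux

section Powers
variable {k : Type} [CommRing k] [Algebra R k]

theorem EE_pow_eq_zero {K : ℕ} {w : List Bool} (h : w.count false < K) :
    (EE k ^ K) (bas k w) = 0 :=
  NTVec_zero (b := true) EE_nil (fun x => (EE_true x).trans (algebraMap_smul k _ _).symm)
    (fun x => (EE_false x).trans (by rw [← algebraMap_smul k]; rfl)) h
theorem FF_pow_eq_zero {K : ℕ} {w : List Bool} (h : w.count true < K) :
    (FF k ^ K) (bas k w) = 0 :=
  NTVec_zero (b := false) FF_nil (fun x => (FF_false x).trans (algebraMap_smul k _ _).symm)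
    (fun x => (FF_true x).trans (by rw [← algebraMap_smul k]; rfl)) h
theorem EE_pow_even (h : algebraMap R k (a 2) = -1) (K : ℕ) :
    (EE k ^ (2 * K)) (eta k (2 * K) (2 * K)) =
        ((-1) ^ K * (2 * K).factorial : k) • bas k (List.replicate (4 * K) true) ∧
      (EE k ^ (2 * K)) (swp k (eta k (2 * K) (2 * K))) =
        ((-1) ^ K * (2 * K).factorial : k) • bas k (List.replicate (4 * K) true) := by
  have := NTVec_even (k := k) (b := true) EE_nil
    (fun x => (EE_true x).trans (by rw [← algebraMap_smul k, h]))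
    (fun x => (EE_false x).trans (by rw [← algebraMap_smul k, NTVec_neg_two h]; rfl)) K
  simpa [eta, etaW] using this
theorem FF_pow_even (h : algebraMap R k (a 2) = -1) (K : ℕ) :
    (FF k ^ (2 * K)) (eta k (2 * K) (2 * K)) =
        ((-1) ^ K * (2 * K).factorial : k) • bas k (List.replicate (4 * K) false) ∧
      (FF k ^ (2 * K)) (swp k (eta k (2 * K) (2 * K))) =
        ((-1) ^ K * (2 * K).factorial : k) • bas k (List.replicate (4 * K) false) := by
  have := NTVec_even (k := k) (b := false) FF_nil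
    (fun x => (FF_false x).trans (by rw [← algebraMap_smul k, NTVec_neg_two h]))
    (fun x => (FF_true x).trans (by rw [← algebraMap_smul k, h]; rfl)) K
  simpa [eta, etaW] using this.symm
theorem capC_replicate (l : ℕ) :
    vρ k (capC l) (bas k (List.replicate l true ++ List.replicate l false)) = bas k [] := by
  change vρ k (capC l) (eta k l l) = _
  induction l with
  | zero => simp [capC, eta, etaW]
  | succ l ih =>
    rw [capC, map_mul, Module.End.mul_apply, C_eta, if_pos ⟨rfl, by omega⟩]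
    exact ih

end Powers

theorem NTVec_mu {p q : ℕ} (hp : 2 ≤ p) (hpq : p.Coprime q) : ∃ (μ : ℤ → ℂ) (s : ℂ) (n₀ : ℤ),
    (∀ n, μ (n + p) = -((-1) ^ q * Complex.I ^ (-(p * q) - 2 * q * n : ℤ)) * μ n) ∧ s ≠ 0 ∧
      s ≠ 1 ∧ (∀ n, μ (n + 2) = s * μ n) ∧ μ (n₀ - 1) ≠ μ (-n₀ - 1) := by
  obtain ⟨x, hx⟩ : ∃ x : ℂ, IsPrimitiveRoot x (2 * p) :=
    ⟨_, Complex.isPrimitiveRoot_exp (2 * p) (by omega)⟩
  have x0 : x ≠ 0 := hx.ne_zero (by omega)
  have xp : x ^ p = -1 := (hx.pow (by omega) (mul_comm 2 p)).eq_neg_one_of_two_right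
  have x2 : x ^ 2 ≠ 1 := hx.pow_ne_one_of_pos_of_lt (by omega) (by omega)
  have I2 : ∀ m : ℤ, Complex.I ^ (2 * m) = (-1) ^ m := fun m => by
    rw [zpow_mul, zpow_ofNat, Complex.I_sq]
  set κ : ℂ := (-1) ^ q * Complex.I ^ (-(p * q) : ℤ) with hκ
  have main : ∀ (c : ℤ → ℂ) (n₀ : ℤ), (∀ n, c (n + 2) = c n) →
      (∀ n, c (n + p) = κ * (-1) ^ (q * n) * c n) →
      c (n₀ - 1) * x ^ (n₀ - 1) ≠ c (-n₀ - 1) * x ^ (-n₀ - 1) → ∃ (μ : ℤ → ℂ) (s : ℂ) (n₀ : ℤ),
      (∀ n, μ (n + p) = -((-1) ^ q * Complex.I ^ (-(p * q) - 2 * q * n : ℤ)) * μ n) ∧ s ≠ 0 ∧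
        s ≠ 1 ∧ (∀ n, μ (n + 2) = s * μ n) ∧ μ (n₀ - 1) ≠ μ (-n₀ - 1) := by
    intro c n₀ c2 cp h
    refine ⟨fun n => c n * x ^ n, x ^ 2, n₀, fun n => ?_, pow_ne_zero _ x0, x2, fun n => ?_, h⟩
    · have e : Complex.I ^ (-(p * q) - 2 * q * n : ℤ) =
          Complex.I ^ (-(p * q) : ℤ) * (-1) ^ (q * n) := by
        rw [show (-(p * q) - 2 * q * n : ℤ) = -(p * q) + 2 * -(q * n) by ring,
          zpow_add₀ Complex.I_ne_zero, I2, zpow_neg (-1 : ℂ), ← inv_zpow, inv_neg_one]
      beta_reduce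
      rw [cp, zpow_add₀ x0, zpow_natCast, xp, e, hκ]
      ring
    · beta_reduce
      rw [c2, zpow_add₀ x0, zpow_ofNat]
      ring
  rcases Nat.even_or_odd p with ⟨r, hr⟩ | hpo
  · have hq : Odd q := by
      refine Nat.not_even_iff_odd.1 fun hq => ?_
      have := Nat.dvd_gcd (show 2 ∣ p from ⟨r, by omega⟩) hq.two_dvd
      rw [hpq] at this
      omega
    have hq' : Odd (q : ℤ) := hq.natCast
    have hp' : Even (p : ℤ) := ⟨r, by exact_mod_cast hr⟩
    have e : κ = -(-1) ^ (-(r * q) : ℤ) := by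
      rw [hκ, hq.neg_one_pow, ← I2, hr]
      push_cast
      rw [show (-((r + r) * q) : ℤ) = 2 * -(r * q) by ring, neg_one_mul]
    refine main (fun n => if Even (n + r + 1) then 1 else 0) r (fun n => ?_) (fun n => ?_) ?_
    · simp [show n + 2 + r + 1 = n + r + 1 + 2 by ring]
    · have e1 : Even (n + p + r + 1) ↔ Even (n + r + 1) := by
        rw [show n + p + r + 1 = n + r + 1 + p by ring, Int.even_add (n := p)]
        simp [hp']
      simp only [e1]
      split_ifs with h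
      · have : Odd (-(r * q) + q * n : ℤ) := by
          rw [show (-(r * q) + q * n : ℤ) = q * (n - r) by ring]
          refine hq'.mul ?_
          obtain ⟨m, hm⟩ := h
          exact ⟨m - r - 1, by linear_combination hm⟩
        rw [e, neg_mul, ← zpow_add₀ (by norm_num), this.neg_one_zpow]
        norm_num
      · rw [mul_zero]
    · rw [if_pos ⟨r, by ring⟩, if_pos ⟨0, by ring⟩, one_mul, one_mul,
        show (r : ℤ) - 1 = -r - 1 + p by rw [hr]; push_cast; ring, zpow_add₀ x0, zpow_natCast, xp]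
      intro h
      exact zpow_ne_zero (-r - 1 : ℤ) x0 (by linear_combination (-1 / 2 : ℂ) * h)
  · have hp' : Odd (p : ℤ) := hpo.natCast
    have e : κ * (-1) ^ q * κ = 1 := by
      have h1 : Complex.I ^ (-(p * q) : ℤ) * Complex.I ^ (-(p * q) : ℤ) = (-1) ^ q := by
        rw [← zpow_add₀ Complex.I_ne_zero, ← two_mul, I2, zpow_neg, zpow_mul, hp'.neg_one_zpow,
          ← inv_zpow, inv_neg_one, zpow_natCast]
      have h2 : (-1 : ℂ) ^ q * (-1) ^ q = 1 := by rw [← mul_pow]; simp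
      rw [hκ]
      linear_combination ((-1) ^ q * (-1) ^ q * (-1) ^ q) * h1 + ((-1) ^ q * (-1) ^ q + 1) * h2
    refine main (fun n => if Even n then 1 else κ) 1 (fun n => ?_) (fun n => ?_) ?_
    · simp
    · by_cases h : Even n
      · rw [if_pos h, if_neg (Int.not_even_iff_odd.2 (h.add_odd hp')),
          (h.mul_left _).neg_one_zpow, mul_one, mul_one]
      · have h' := Int.not_even_iff_odd.1 h
        rw [if_neg h, if_pos (h'.add_odd hp'), mul_comm (q : ℤ), zpow_mul, h'.neg_one_zpow,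
          zpow_natCast, e]
    · rw [if_pos (by decide), if_pos (by decide), one_mul, one_mul]
      intro h
      refine x2 ?_
      have h1 : x ^ (-1 - 1 + 2 : ℤ) = x ^ (-1 - 1 : ℤ) * x ^ 2 := by
        rw [zpow_add₀ x0, zpow_ofNat]
      rw [← h] at h1
      simpa using h1.symm

theorem NTVec_a (n : ℤ) : algebraMap R Ci (a n) = (Complex.I ^ n : ℂ) := evC_a iU n

theorem NTVec_a2 : algebraMap R Ci (a 2) = -1 := by
  rw [NTVec_a, zpow_ofNat]
  exact Complex.I_sq

theorem NTVec_a4 (n : ℤ) : algebraMap R Ci (a (4 * n)) = 1 := by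
  rw [NTVec_a, zpow_mul, zpow_ofNat, Complex.I_pow_four, one_zpow]
  rfl

/-- a quasi-periodic function at `A = i` -/
theorem exists_mu {p q : ℕ} (hp : 2 ≤ p) (hpq : p.Coprime q) : ∃ (μ : ℤ → Ci) (s : Ci) (n₀ : ℤ),
    (∀ n, μ (n + p) = -((-1) ^ q * a (-(p * q) - 2 * q * n)) • μ n) ∧ s ≠ 0 ∧ s ≠ 1 ∧
      (∀ n, μ (n + 2) = s * μ n) ∧ μ (n₀ - 1) ≠ μ (-n₀ - 1) := by
  obtain ⟨μ, s, n₀, h, h'⟩ := NTVec_mu hp hpq
  refine ⟨μ, s, n₀, fun n => ?_, h'⟩
  refine Eq.trans ?_ (Algebra.smul_def (A := Ci) _ _).symm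
  rw [map_neg, map_mul, map_pow, map_neg, map_one, NTVec_a]
  exact h n

theorem NTVec_swp_om (χ : MM →ₗ[R] Ci) (l : ℕ) (c : MM) :
    swp Ci (cmap (χ ∘ₗ Xinv) (c • omF l)) = cmap χ (Xinv c • omF l) := by
  have h2 : ∀ (e : MM) (w : FM), cmap χ ((-(a (-2) • e)) • w) = cmap χ (e • w) := fun e w => by
    rw [neg_smul, smul_assoc, map_neg, map_smul, ← algebraMap_smul Ci, NTVec_neg_two NTVec_a2,
      neg_one_smul, neg_neg]
  have h3 : ∀ (c : MM) (w : FM), c • Nn w =
      cons MM false (snoc MM true ((-(a (-2) • (c * XX (-1)))) • w)) +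
        cons MM true (snoc MM false ((c * XX 1) • w)) := fun c w => by
    simp only [Nn, LinearMap.add_apply, LinearMap.smul_apply, LinearMap.comp_apply, map_smul,
      smul_add, smul_smul, mul_neg, mul_smul_comm]
  induction l generalizing c with
  | zero => rw [omF, cmap_smul_bas, cmap_smul_bas, map_smul, swp_bas]; rfl
  | succ l ih =>
    rw [omF, h3, h3]
    simp only [map_add, cmap_cons, cmap_snoc, NTVec_swp_cons, NTVec_swp_snoc, ih, h2,
      Bool.not_true, Bool.not_false]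
    rw [map_neg Xinv, map_smul Xinv, h2, Xinv_mul, Xinv_mul, Xinv_XX, Xinv_XX, neg_neg, add_comm]

theorem NTVec_PP (ψ : MM →ₗ[R] Ci) (j : ℕ) (e : MM) : ψ (e * PP j) = ψ (e * dl ^ (j + 1)) := by
  induction j generalizing e with
  | zero => rw [PP_zero, zero_add, pow_one]
  | succ j ih =>
    have h : ∀ e' : MM, ψ (e' * pii (j + 1)) = ψ (e' * dl) := fun e' => by
      rw [pii, dl, mul_sub, mul_sub, mul_smul_comm, map_sub, map_sub, map_smul,
        ← algebraMap_smul Ci, show (-4 * ((j + 1 : ℕ) : ℤ)) = 4 * -((j + 1 : ℕ) : ℤ) by ring,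
        NTVec_a4, one_smul]
    rw [PP_succ, ← mul_assoc, h, mul_right_comm, ih, mul_assoc, ← pow_succ']

theorem NTVec_dl {μ : ℤ → Ci} {s : Ci} (s0 : s ≠ 0) (h : ∀ n, μ (n + 2) = s * μ n) (K : ℕ)
    (e : MM) : cf μ (e * dl ^ (2 * K)) = ((s - 1) ^ 2 / s) ^ K * cf μ e := by
  have h1 : ∀ e : MM, cf μ (XX 2 * e) = s * cf μ e := fun e =>
    DFunLike.congr_fun (MM_ext (φ := cf μ ∘ₗ LinearMap.mulLeft R (XX 2))
      (ψ := LinearMap.mulLeft R s ∘ₗ cf μ) fun n => by simp [← XX_add, add_comm 2 n, h]) e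
  have h2 : ∀ e : MM, cf μ (e * dl ^ 2) = (s - 1) ^ 2 / s * cf μ e := fun e => by
    have e1 : XX 1 * XX (-1) = 1 := by rw [← XX_add]; simp
    have e2 : XX 2 = XX 1 * XX 1 := by rw [← XX_add]; rfl
    have e3 : XX 2 * (e * dl ^ 2) = XX 2 * (XX 2 * e) - XX 2 * e - XX 2 * e + e := by
      rw [e2, dl]
      linear_combination e * (XX 1 * XX (-1) + 1 - 2 * XX 1 * XX 1) * e1
    have e4 := congrArg (cf μ) e3
    simp only [map_add, map_sub, h1] at e4
    field_simp
    linear_combination e4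
  induction K with
  | zero => simp
  | succ K ih => rw [Nat.mul_succ, pow_add, ← mul_assoc, h2, ih, pow_succ' _ K, mul_assoc]

theorem exists_boxes_Ci {p q : ℕ} (hp : 2 ≤ p) (hpq : p.Coprime q) :
    ∃ (Θ : FM →ₗ[R] F Ci) (n₀ : ℤ) (c c' : ℕ → Ci), GMap (TF MM) (TF Ci) Θ ∧
      (∀ w, Θ (Et MM w) = 0) ∧ (∀ w, Θ (cmap (cinv p q) w) = -Θ w) ∧ (∀ l, Θ (dl • omF l) = 0) ∧
      (∀ k, Θ (vec (.G k n₀)) = c k • eta Ci k k + c' k • swp Ci (eta Ci k k)) ∧
      ∀ K, c (2 * K) + c' (2 * K) ≠ 0 := by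
  obtain ⟨μ, s, n₀, hμ, s0, s1, h2, hn⟩ := exists_mu hp hpq
  have neg : ∀ (χ : MM →ₗ[R] Ci) (w : FM), cmap (-χ) w = -cmap χ w := fun χ w => by
    ext u
    simp [cmap]
  have c1 : cf μ ∘ₗ cinv p q = -cf μ := MM_ext fun n => by
    have := hμ (n - p)
    rw [sub_add_cancel] at this
    simp only [cinv, LinearMap.comp_apply, cf_XX, map_smul, LinearMap.neg_apply, this, neg_smul,
      neg_neg]
  have c2 : (cf μ ∘ₗ Xinv) ∘ₗ cinv p q = -(cf μ ∘ₗ Xinv) := MM_ext fun n => by
    have h1 : ((-1) ^ q * a (-(p * q) - 2 * q * (n - p))) *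
        -((-1) ^ q * a (-(p * q) - 2 * q * -n)) = -1 := by
      have h3 : (-1 : R) ^ q * (-1) ^ q = 1 := by rw [← mul_pow]; simp
      have h4 := a_mul_neg (-(p * q) - 2 * q * (n - p))
      rw [show -(-(p * q) - 2 * q * (n - p) : ℤ) = -(p * q) - 2 * q * -n by ring] at h4
      linear_combination -((-1) ^ q * (-1) ^ q) * h4 - h3
    simp only [cinv, LinearMap.comp_apply, cf_XX, map_smul, LinearMap.neg_apply, Xinv_XX]
    rw [show -(n - p) = -n + p by ring, hμ, smul_smul, h1, neg_one_smul]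
  refine ⟨cmap (cf μ) + (swp Ci).restrictScalars R ∘ₗ cmap (cf μ ∘ₗ Xinv), n₀,
    fun j => cf μ (XX n₀ * PP j), fun j => (cf μ ∘ₗ Xinv) (XX n₀ * PP j),
    ⟨fun hw => add_mem (cmap_mem_vLv _ hw) (swp_mem_vLv (cmap_mem_vLv _ hw)),
      fun _ _ => ?_, fun _ _ => ?_⟩, fun w => ?_, fun w => ?_, fun l => ?_, fun j => ?_,
    fun K => ?_⟩
  · simp [cmap_vρ, swp_vρ NTVec_a2]
  · simp [cmap_vρ, swp_vρ NTVec_a2]
  · have h0 : algebraMap R Ci (f 0) = 0 := by
      have := NTVec_a4 1
      rw [f, map_sub, map_one, sub_eq_zero]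
      exact this.symm
    rw [Et_apply, map_smul, ← algebraMap_smul Ci, h0, zero_smul]
  · simp only [LinearMap.add_apply, LinearMap.comp_apply, LinearMap.restrictScalars_apply,
      cmap_cmap, c1, c2, neg, map_neg, neg_add]
  · simp only [LinearMap.add_apply, LinearMap.comp_apply, LinearMap.restrictScalars_apply]
    rw [NTVec_swp_om, Xinv_dl, neg_smul, map_neg, add_neg_cancel]
  · simp only [LinearMap.add_apply, LinearMap.comp_apply, LinearMap.restrictScalars_apply, vec,
      eta, cmap_smul_bas, map_smul]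
  · have e1 : ∀ m : ℕ, Xinv (dl ^ m) = (-dl) ^ m := fun m => by
      induction m with
      | zero => exact Xinv_one
      | succ m ih => rw [pow_succ, pow_succ, Xinv_mul, ih, Xinv_dl]
    have e2 : ∀ n, cf μ (XX n * dl) = (s - 1) * μ (n - 1) := fun n => by
      rw [dl, mul_sub, ← XX_add, ← XX_add, map_sub, cf_XX, cf_XX,
        show n + 1 = n - 1 + 2 by ring, h2, ← sub_eq_add_neg]
      ring
    beta_reduce
    rw [NTVec_PP, NTVec_PP, LinearMap.comp_apply, Xinv_mul, e1, Xinv_XX,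
      (odd_two_mul_add_one K).neg_pow, mul_neg, map_neg, pow_succ', ← mul_assoc, ← mul_assoc,
      NTVec_dl s0 h2, NTVec_dl s0 h2, e2, e2, ← sub_eq_add_neg, ← mul_sub, ← mul_sub]
    have s2 := sub_ne_zero.2 s1
    exact mul_ne_zero (pow_ne_zero _ (div_ne_zero (pow_ne_zero _ s2) s0))
      (mul_ne_zero s2 (sub_ne_zero.2 hn))

end Pool.Agent.P.MP_b3a239_gt
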