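import Pool.Agent.P.MP_b3a239_gt.Open1

/-! Evaluation of open words. -/

set_option maxSynthPendingDepth 3

open FreeAlgebra

noncomputable section

namespace Pool.Agent.P.MP_b3a239_gt

variable {σ : Type} {step : σ → ℕ × ℕ → Option (ℕ × ℕ)} {rel : ℕ → ℕ → FreeAlgebra R σ → Prop}
  {mk : σ → Bool} {B : Type} [AddCommGroup B] [Module R B]

theorem Open_core (h : Marked step rel mk) (op : ℕ → σ → Module.End R B)
    (N : ℕ × ℕ → Submodule R B) (e : B) (he : e ∈ N (0, 0))
    (hop : ∀ j s, mk s = false → op j s = op 0 s)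
    (hmem : ∀ s t t', step s t = some t' → ∀ w ∈ N t, op t.2 s w ∈ N t')
    (hnone : ∀ s t, step s t = none → ∀ w ∈ N t, op t.2 s w = 0)
    (hrel : ∀ m j ρ, rel m j ρ → ∀ w ∈ N (m, j), lift R (op j) ρ w = 0) :
    ∃ Φ : Op step rel →ₗ[R] (ℕ →₀ B), Φ (mkO step rel 1) = Finsupp.single 0 e ∧
      ∀ s y j b, Φ y = Finsupp.single j b → Φ (lm step rel (ι R s) y) =
        Finsupp.single (j + if mk s then 1 else 0) (op j s b) := by
  obtain ⟨act, hact⟩ : ∃ act : FreeAlgebra R σ →ₐ[R] Module.End R (ℕ →₀ B), ∀ s j b,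
      act (ι R s) (Finsupp.single j b) = Finsupp.single (j + if mk s then 1 else 0) (op j s b) :=
    ⟨lift R fun s => Finsupp.lsum R fun j =>
      Finsupp.lsingle (j + if mk s then 1 else 0) ∘ₗ op j s, fun s j b => by
        rw [lift_ι_apply, Finsupp.lsum_single]
        rfl⟩
  have hA : ∀ w : List σ, (ty step w = none → act (wd w) (Finsupp.single 0 e) = 0) ∧
      ∀ t, ty step w = some t → ∃ b ∈ N t,
        act (wd w) (Finsupp.single 0 e) = Finsupp.single t.2 b := by
    intro w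
    induction w with
    | nil =>
      refine ⟨fun h => by simp [ty] at h, fun t ht => ?_⟩
      obtain rfl : (0, 0) = t := Option.some.inj ht
      exact ⟨e, he, by simp⟩
    | cons s w ih =>
      rw [wd_cons, map_mul, Module.End.mul_apply, ty]
      cases hw : ty step w with
      | none => exact ⟨fun _ => by rw [ih.1 hw, map_zero], fun t ht => by simp at ht⟩
      | some t =>
        obtain ⟨b, hb, eb⟩ := ih.2 t hw
        rw [eb, hact, Option.bind_some]
        exact ⟨fun h0 => by rw [hnone s t h0 b hb, Finsupp.single_zero],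
          fun t' ht => ⟨_, hmem s t t' ht b hb, by rw [h.step s t t' ht]⟩⟩
  have hB : ∀ (r : List σ) (j : ℕ) (b : B), r.countP mk ≤ 1 → act (wd r) (Finsupp.single j b) =
      Finsupp.single (j + r.countP mk) (lift R (op j) (wd r) b) := by
    intro r j b
    induction r with
    | nil => intro _; simp
    | cons s r ih =>
      intro hr
      rw [List.countP_cons] at hr
      rw [wd_cons, map_mul, map_mul, Module.End.mul_apply, Module.End.mul_apply, ih (by omega),
        hact, lift_ι_apply, List.countP_cons, add_assoc]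
      cases hs : mk s with
      | false => rw [hop _ s hs, hop j s hs]
      | true =>
        rw [hs, if_pos rfl] at hr
        rw [show r.countP mk = 0 by omega, add_zero]
  have hC : ∀ c ≤ 1, ∀ x ∈ Mk mk c, ∀ j b, act x (Finsupp.single j b) =
      Finsupp.single (j + c) (lift R (op j) x b) := by
    intro c hc x hx j b
    induction hx using Submodule.span_induction with
    | mem x hx =>
      obtain ⟨r, rfl, rfl⟩ := hx
      exact hB r j b hc
    | zero => simp
    | add x y _ _ hx hy => simp [hx, hy]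
    | smul c x _ hx => simp [hx]
  refine ⟨(IOp step rel).liftQ (LinearMap.applyₗ (Finsupp.single 0 e) ∘ₗ act.toLinearMap)
    (Submodule.span_le.2 ?_), ?_, fun s y j b hy => ?_⟩
  · rintro x (⟨w, hw, rfl⟩ | ⟨u, w, m, j, ρ, hw, hρ, rfl⟩)
    · exact (hA w).1 hw
    · obtain ⟨b, hb, eb⟩ := (hA w).2 _ hw
      change act (wd u * ρ * wd w) (Finsupp.single 0 e) = 0
      rw [map_mul, map_mul, Module.End.mul_apply, Module.End.mul_apply, eb]
      rcases h.rel m j ρ hρ with h0 | h0 <;>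
        rw [hC _ (by omega) ρ h0, hrel m j ρ hρ b hb, Finsupp.single_zero, map_zero]
  · change act 1 (Finsupp.single 0 e) = _
    rw [map_one, Module.End.one_apply]
  · obtain ⟨x, rfl⟩ := (IOp step rel).mkQ_surjective y
    change act (ι R s * x) (Finsupp.single 0 e) = _
    rw [map_mul, Module.End.mul_apply, show act x (Finsupp.single 0 e) = _ from hy, hact]

theorem exists_pr (h : Marked step rel mk) (j : ℕ) : ∃ π : Module.End R (Op step rel),
    ∀ t, ∀ y ∈ Cp step rel t, π y = if t.2 = j then y else 0 := by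
  obtain ⟨Φ, h1, h2⟩ := Open_core h (fun _ s => lm step rel (ι R s)) (Cp step rel) (mkO step rel 1)
    one_mem_Cp (fun _ _ _ => rfl) (fun s t t' ht w hw => lm_mem ht hw)
    (fun s t ht w hw => lm_none ht hw) (fun m j ρ hρ w hw => by
      have e : (lift R fun s => lm step rel (ι R s)) = lm step rel :=
        hom_ext (funext fun s => lift_ι_apply _ s)
      rw [e]
      exact lm_rel hρ hw)
  refine ⟨Finsupp.lapply j ∘ₗ Φ, fun t y hy => ?_⟩
  have h3 : Φ y = Finsupp.single t.2 y :=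
    Cp_ind (fun t => LinearMap.eqLocus Φ (Finsupp.lsingle t.2)) h1 (fun s t t' y ht _ hy => by
      have h4 := h2 s y _ _ hy
      rwa [← h.step s t t' ht] at h4) t hy
  rw [LinearMap.comp_apply, h3, Finsupp.lapply_apply, Finsupp.single_apply]

theorem pres_lift (h : Marked step rel mk) (n : ℕ) (φ : Op step rel →ₗ[R] B)
    (hφ : ∀ m, m ≠ 0 → ∀ y ∈ Cp step rel (m, n), φ y = 0) :
    ∃ Φ : Pres step rel n →ₗ[R] B, ∀ m, ∀ y ∈ Cp step rel (m, n), Φ (toPres step rel n y) = φ y := by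
  obtain ⟨π, hπ⟩ := exists_pr h n
  refine ⟨Submodule.liftQ _ (φ ∘ₗ π ∘ₗ mkO step rel) (Submodule.span_le.2 ?_), fun m y hy => ?_⟩
  · rintro x (⟨w, hw, rfl⟩ | hx)
    · change φ (π (mkO step rel (wd w))) = 0
      cases ht : ty step w with
      | none =>
        have h0 : mkO step rel (wd w) = 0 := (Submodule.Quotient.mk_eq_zero _).2
          (Submodule.subset_span (Or.inl ⟨w, ht, rfl⟩))
        rw [h0, map_zero, map_zero]
      | some t =>
        have h1 : mkO step rel (wd w) ∈ Cp step rel t := Submodule.subset_span ⟨w, ht, rfl⟩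
        rw [hπ t _ h1]
        split_ifs with h2
        · obtain ⟨m, j⟩ := t
          obtain rfl : j = n := h2
          exact hφ m (fun h3 => hw (by rw [ht, h3])) _ h1
        · exact map_zero _
    · have h0 : mkO step rel x = 0 := (Submodule.Quotient.mk_eq_zero _).2
        (Submodule.subset_span (Or.inr hx))
      change φ (π (mkO step rel x)) = 0
      rw [h0, map_zero, map_zero]
  · have h1 := hπ _ y hy
    rw [if_pos rfl] at h1
    obtain ⟨x, rfl⟩ := (IOp step rel).mkQ_surjective y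
    exact congrArg φ h1

/-- Evaluation of open words by operators; the operator of a marked slice may depend on the number
of marked slices below it. -/
theorem open_lift (h : Marked step rel mk) (op : ℕ → σ → Module.End R B)
    (N : ℕ × ℕ → Submodule R B) (e : B) (he : e ∈ N (0, 0))
    (hop : ∀ j s, mk s = false → op j s = op 0 s)
    (hmem : ∀ s t t', step s t = some t' → ∀ w ∈ N t, op t.2 s w ∈ N t')
    (hnone : ∀ s t, step s t = none → ∀ w ∈ N t, op t.2 s w = 0)
    (hrel : ∀ m j ρ, rel m j ρ → ∀ w ∈ N (m, j), lift R (op j) ρ w = 0) :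
    ∃ φ : Op step rel →ₗ[R] B, φ (mkO step rel 1) = e ∧
      (∀ t, ∀ y ∈ Cp step rel t, φ y ∈ N t) ∧
      ∀ s t, ∀ y ∈ Cp step rel t, φ (lm step rel (ι R s) y) = op t.2 s (φ y) := by
  obtain ⟨Φ, h1, h2⟩ := Open_core h op N e he hop hmem hnone hrel
  obtain ⟨S, hS⟩ : ∃ S : (ℕ →₀ B) →ₗ[R] B, ∀ j b, S (Finsupp.single j b) = b :=
    ⟨Finsupp.lsum R fun _ => LinearMap.id, fun j b => by rw [Finsupp.lsum_single]; rfl⟩
  have h3 : ∀ t, ∀ y ∈ Cp step rel t, ∃ b ∈ N t, Finsupp.single t.2 b = Φ y := fun t y hy =>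
    Cp_ind (fun t => ((N t).map (Finsupp.lsingle t.2)).comap Φ) ⟨e, he, h1.symm⟩
      (fun s t t' y ht _ ⟨b, hb, hy⟩ => ⟨_, hmem s t t' ht b hb, by
        rw [h.step s t t' ht]
        exact (h2 s y _ _ hy.symm).symm⟩) t hy
  refine ⟨S ∘ₗ Φ, by rw [LinearMap.comp_apply, h1, hS], fun t y hy => ?_, fun s t y hy => ?_⟩
  · obtain ⟨b, hb, e⟩ := h3 t y hy
    rwa [LinearMap.comp_apply, ← e, hS]
  · obtain ⟨b, hb, e⟩ := h3 t y hy
    rw [LinearMap.comp_apply, LinearMap.comp_apply, h2 s y _ _ e.symm, ← e, hS, hS]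

theorem pres_equiv {σ' : Type} {step' : σ' → ℕ × ℕ → Option (ℕ × ℕ)}
    {rel' : ℕ → ℕ → FreeAlgebra R σ' → Prop} {mk' : σ' → Bool} (h : Marked step rel mk)
    (h' : Marked step' rel' mk') (n : ℕ) (φ : Op step rel →ₗ[R] Op step' rel')
    (ψ : Op step' rel' →ₗ[R] Op step rel)
    (hφ : ∀ t, ∀ y ∈ Cp step rel t, φ y ∈ Cp step' rel' t)
    (hψ : ∀ t, ∀ y ∈ Cp step' rel' t, ψ y ∈ Cp step rel t)
    (h₁ : ∀ m, ∀ y ∈ Cp step rel (m, n), ψ (φ y) = y)
    (h₂ : ∀ m, ∀ y ∈ Cp step' rel' (m, n), φ (ψ y) = y) :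
    Nonempty (Pres step rel n ≃ₗ[R] Pres step' rel' n) := by
  obtain ⟨Φ, hΦ⟩ := pres_lift h n (toPres step' rel' n ∘ₗ φ) fun m hm y hy =>
    toPres_of_ne (fun e => hm (congrArg Prod.fst e)) (hφ _ y hy)
  obtain ⟨Ψ, hΨ⟩ := pres_lift h' n (toPres step rel n ∘ₗ ψ) fun m hm y hy =>
    toPres_of_ne (fun e => hm (congrArg Prod.fst e)) (hψ _ y hy)
  refine ⟨LinearEquiv.ofLinearMap Φ Ψ (LinearMap.ext fun x => ?_) (LinearMap.ext fun x => ?_)⟩
  · obtain ⟨y, hy, rfl⟩ := toPres_surj n x
    rw [LinearMap.comp_apply, hΨ 0 y hy, LinearMap.comp_apply, hΦ 0 _ (hψ _ y hy),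
      LinearMap.comp_apply, h₂ 0 y hy, LinearMap.id_apply]
  · obtain ⟨y, hy, rfl⟩ := toPres_surj n x
    rw [LinearMap.comp_apply, hΦ 0 y hy, LinearMap.comp_apply, hΨ 0 _ (hφ _ y hy),
      LinearMap.comp_apply, h₁ 0 y hy, LinearMap.id_apply]

end Pool.Agent.P.MP_b3a239_gt
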