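import Pool.Agent.P.MP_b3a239_gt.TLBasic

/-! Open words modulo local relations. -/

set_option maxSynthPendingDepth 3

open FreeAlgebra

noncomputable section

namespace Pool.Agent.P.MP_b3a239_gt

variable {σ : Type}

@[simp] theorem wd_nil : wd ([] : List σ) = 1 := rfl
theorem wd_cons (s : σ) (w : List σ) : wd (s :: w) = ι R s * wd w := by
  simp only [wd, List.map_cons, List.prod_cons]

theorem wd_append (u w : List σ) : wd (u ++ w) = wd u * wd w := by
  simp only [wd, List.map_append, List.prod_append]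

theorem wd_span : Submodule.span R (Set.range (wd : List σ → FreeAlgebra R σ)) = ⊤ := by
  refine eq_top_iff.2 (fun x hx => ?_)
  clear hx
  induction x using FreeAlgebra.induction with
  | grade0 r =>
    rw [Algebra.algebraMap_eq_smul_one]
    exact Submodule.smul_mem _ _ (Submodule.subset_span ⟨[], rfl⟩)
  | grade1 s => exact Submodule.subset_span ⟨[s], by rw [wd_cons, wd_nil, mul_one]⟩
  | mul x y hx hy =>
    refine Submodule.span_induction₂ (p := fun x y _ _ => x * y ∈
      Submodule.span R (Set.range (wd : List σ → FreeAlgebra R σ))) ?_ ?_ ?_ ?_ ?_ ?_ ?_ hx hy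
    · rintro _ _ ⟨u, rfl⟩ ⟨w, rfl⟩
      exact Submodule.subset_span ⟨u ++ w, wd_append u w⟩
    · intro y _
      rw [zero_mul]
      exact Submodule.zero_mem _
    · intro x _
      rw [mul_zero]
      exact Submodule.zero_mem _
    · intro x y z _ _ _ h1 h2
      rw [add_mul]
      exact Submodule.add_mem _ h1 h2
    · intro x y z _ _ _ h1 h2
      rw [mul_add]
      exact Submodule.add_mem _ h1 h2
    · intro r x y _ _ h1
      rw [smul_mul_assoc]
      exact Submodule.smul_mem _ _ h1
    · intro r x y _ _ h1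
      rw [mul_smul_comm]
      exact Submodule.smul_mem _ _ h1
  | add x y hx hy => exact Submodule.add_mem _ hx hy

/-- combinations of words with exactly `e` marked slices -/
def Mk (mk : σ → Bool) (e : ℕ) : Submodule R (FreeAlgebra R σ) :=
  Submodule.span R {x | ∃ r : List σ, r.countP mk = e ∧ x = wd r}

theorem wd_mem_Mk (mk : σ → Bool) (r : List σ) : wd r ∈ Mk mk (r.countP mk) :=
  Submodule.subset_span ⟨r, rfl, rfl⟩

theorem mul_mem_Mk {mk : σ → Bool} {e e' : ℕ} {x y : FreeAlgebra R σ} (hx : x ∈ Mk mk e)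
    (hy : y ∈ Mk mk e') : x * y ∈ Mk mk (e + e') := by
  refine Submodule.span_induction₂ (p := fun x y _ _ => x * y ∈ Mk mk (e + e'))
    ?_ ?_ ?_ ?_ ?_ ?_ ?_ hx hy
  · rintro _ _ ⟨u, hu, rfl⟩ ⟨w, hw, rfl⟩
    exact Submodule.subset_span ⟨u ++ w, by rw [List.countP_append, hu, hw], (wd_append u w).symm⟩
  · intro y _
    rw [zero_mul]
    exact Submodule.zero_mem _
  · intro x _
    rw [mul_zero]
    exact Submodule.zero_mem _
  · intro x y z _ _ _ h1 h2
    rw [add_mul]
    exact Submodule.add_mem _ h1 h2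
  · intro x y z _ _ _ h1 h2
    rw [mul_add]
    exact Submodule.add_mem _ h1 h2
  · intro r x y _ _ h1
    rw [smul_mul_assoc]
    exact Submodule.smul_mem _ _ h1
  · intro r x y _ _ h1
    rw [mul_smul_comm]
    exact Submodule.smul_mem _ _ h1

variable (step : σ → ℕ × ℕ → Option (ℕ × ℕ)) (rel : ℕ → ℕ → FreeAlgebra R σ → Prop)

def IOp : Submodule R (FreeAlgebra R σ) := Submodule.span R
  ({x | ∃ w, ty step w = none ∧ x = wd w} ∪
    {x | ∃ u w m j ρ, ty step w = some (m, j) ∧ rel m j ρ ∧ x = wd u * ρ * wd w})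

theorem IOp_mul (x : FreeAlgebra R σ) :
    ∀ y ∈ IOp step rel, Algebra.lmul R (FreeAlgebra R σ) x y ∈ IOp step rel := by
  have h1 : ∀ s : σ, ∀ y ∈ IOp step rel, ι R s * y ∈ IOp step rel := by
    intro s y hy
    induction hy using Submodule.span_induction with
    | mem y hy =>
      rcases hy with ⟨w, hw, rfl⟩ | ⟨u, w, m, j, ρ, hw, hρ, rfl⟩
      · refine Submodule.subset_span (Or.inl ⟨s :: w, ?_, (wd_cons s w).symm⟩)
        rw [ty, hw]
        rfl
      · refine Submodule.subset_span (Or.inr ⟨s :: u, w, m, j, ρ, hw, hρ, ?_⟩)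
        rw [wd_cons, mul_assoc, mul_assoc, mul_assoc]
    | zero =>
      rw [mul_zero]
      exact Submodule.zero_mem _
    | add y z _ _ h1 h2 =>
      rw [mul_add]
      exact Submodule.add_mem _ h1 h2
    | smul r y _ h1 =>
      rw [mul_smul_comm]
      exact Submodule.smul_mem _ _ h1
  show ∀ y ∈ IOp step rel, x * y ∈ IOp step rel
  induction x using FreeAlgebra.induction with
  | grade0 r =>
    intro y hy
    rw [← Algebra.smul_def]
    exact Submodule.smul_mem _ _ hy
  | grade1 s => exact h1 s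
  | mul x x' hx hx' =>
    intro y hy
    rw [mul_assoc]
    exact hx _ (hx' y hy)
  | add x x' hx hx' =>
    intro y hy
    rw [add_mul]
    exact Submodule.add_mem _ (hx y hy) (hx' y hy)

/-- all words modulo the words that do not fit together and the local relations -/
def Op : Type := FreeAlgebra R σ ⧸ IOp step rel

instance : AddCommGroup (Op step rel) :=
  inferInstanceAs (AddCommGroup (FreeAlgebra R σ ⧸ IOp step rel))
instance : Module R (Op step rel) := inferInstanceAs (Module R (FreeAlgebra R σ ⧸ IOp step rel))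

def mkO : FreeAlgebra R σ →ₗ[R] Op step rel := (IOp step rel).mkQ

/-- put a piece of diagram on top -/
def lm : FreeAlgebra R σ →ₐ[R] Module.End R (Op step rel) where
  toFun x := (IOp step rel).mapQ _ (Algebra.lmul R _ x) (IOp_mul step rel x)
  map_one' := Submodule.linearMap_qext _ (by ext1 w; simp; rfl)
  map_mul' x y := Submodule.linearMap_qext _ (by ext1 w; simp [mul_assoc]; rfl)
  map_zero' := Submodule.linearMap_qext _ (by ext1 w; simp; rfl)
  map_add' x y := Submodule.linearMap_qext _ (by ext1 w; simp; rfl)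
  commutes' r := Submodule.linearMap_qext _ (by ext1 w; simp; rfl)

/-- the words with `t.1` strands on top and `t.2` marked slices -/
def Cp (t : ℕ × ℕ) : Submodule R (Op step rel) :=
  Submodule.span R {y | ∃ w, ty step w = some t ∧ y = mkO step rel (wd w)}

theorem IOp_le (n : ℕ) : IOp step rel ≤ Submodule.span R
    ({x | ∃ w, ty step w ≠ some (0, n) ∧ x = wd w} ∪
      {x | ∃ u w m j ρ, ty step w = some (m, j) ∧ rel m j ρ ∧ x = wd u * ρ * wd w}) := by
  refine Submodule.span_mono (Set.union_subset_union_left _ ?_)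
  rintro _ ⟨w, hw, rfl⟩
  exact ⟨w, by rw [hw]; exact nofun, rfl⟩

def toPres (n : ℕ) : Op step rel →ₗ[R] Pres step rel n :=
  (IOp step rel).mapQ _ LinearMap.id (IOp_le step rel n)

/-- marks are counted by the type and relations are homogeneous -/
structure Marked (mk : σ → Bool) : Prop where
  step : ∀ s t t', step s t = some t' → t'.2 = t.2 + if mk s then 1 else 0
  rel : ∀ m j ρ, rel m j ρ → ρ ∈ Mk mk 0 ∨ ρ ∈ Mk mk 1

variable {step rel}

theorem lm_mkO (x y : FreeAlgebra R σ) : lm step rel x (mkO step rel y) = mkO step rel (x * y) :=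
  rfl
theorem toPres_mkO (n : ℕ) (x : FreeAlgebra R σ) :
    toPres step rel n (mkO step rel x) = Submodule.Quotient.mk x := rfl

theorem Open1_zero {x : FreeAlgebra R σ} (h : x ∈ IOp step rel) : mkO step rel x = 0 :=
  (Submodule.Quotient.mk_eq_zero _).2 h

theorem Open1_map {M : Type} [AddCommGroup M] [Module R M] (φ : Op step rel →ₗ[R] M)
    (S : Submodule R M) {t : ℕ × ℕ}
    (h : ∀ w, ty step w = some t → φ (mkO step rel (wd w)) ∈ S) {y : Op step rel}
    (hy : y ∈ Cp step rel t) : φ y ∈ S := by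
  have : Cp step rel t ≤ S.comap φ := by
    refine Submodule.span_le.2 ?_
    rintro _ ⟨w, hw, rfl⟩
    exact h w hw
  exact this hy

theorem one_mem_Cp : mkO step rel 1 ∈ Cp step rel (0, 0) :=
  Submodule.subset_span ⟨[], rfl, rfl⟩

theorem Cp_top : ⨆ t, Cp step rel t = ⊤ := by
  refine eq_top_iff.2 (fun y hy => ?_)
  clear hy
  obtain ⟨x, rfl⟩ : ∃ x, mkO step rel x = y := Submodule.mkQ_surjective (IOp step rel) y
  have hx : x ∈ Submodule.span R (Set.range (wd : List σ → FreeAlgebra R σ)) := by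
    rw [wd_span]
    exact Submodule.mem_top
  induction hx using Submodule.span_induction with
  | mem x hx =>
    obtain ⟨w, rfl⟩ := hx
    cases hw : ty step w with
    | none =>
      rw [Open1_zero (Submodule.subset_span (Or.inl ⟨w, hw, rfl⟩))]
      exact Submodule.zero_mem _
    | some t => exact Submodule.mem_iSup_of_mem t (Submodule.subset_span ⟨w, hw, rfl⟩)
  | zero =>
    rw [map_zero]
    exact Submodule.zero_mem _
  | add y z _ _ h1 h2 =>
    rw [map_add]
    exact Submodule.add_mem _ h1 h2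
  | smul r y _ h1 =>
    rw [map_smul]
    exact Submodule.smul_mem _ _ h1

theorem lm_mem {s : σ} {t t' : ℕ × ℕ} (h : step s t = some t') {y : Op step rel}
    (hy : y ∈ Cp step rel t) : lm step rel (ι R s) y ∈ Cp step rel t' := by
  refine Open1_map (lm step rel (ι R s)) _ (fun w hw => ?_) hy
  refine Submodule.subset_span ⟨s :: w, ?_, by rw [lm_mkO, wd_cons]⟩
  rw [ty, hw]
  exact h

theorem lm_none {s : σ} {t : ℕ × ℕ} (h : step s t = none) {y : Op step rel}
    (hy : y ∈ Cp step rel t) : lm step rel (ι R s) y = 0 := by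
  refine Open1_map (lm step rel (ι R s)) ⊥ (fun w hw => ?_) hy
  rw [lm_mkO, ← wd_cons]
  refine Open1_zero (Submodule.subset_span (Or.inl ⟨s :: w, ?_, rfl⟩))
  rw [ty, hw]
  exact h

theorem lm_rel {m j : ℕ} {ρ : FreeAlgebra R σ} (h : rel m j ρ) {y : Op step rel}
    (hy : y ∈ Cp step rel (m, j)) : lm step rel ρ y = 0 := by
  refine Open1_map (lm step rel ρ) ⊥ (fun w hw => ?_) hy
  rw [lm_mkO]
  exact Open1_zero (Submodule.subset_span (Or.inr ⟨[], w, m, j, ρ, hw, h, by
    rw [wd_nil, one_mul]⟩))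

/-- induction over words -/
theorem Cp_ind (S : ℕ × ℕ → Submodule R (Op step rel)) (h₀ : mkO step rel 1 ∈ S (0, 0))
    (h : ∀ s t t' y, step s t = some t' → y ∈ Cp step rel t → y ∈ S t →
      lm step rel (ι R s) y ∈ S t') (t : ℕ × ℕ) : Cp step rel t ≤ S t := by
  have key : ∀ (w : List σ) (t : ℕ × ℕ), ty step w = some t → mkO step rel (wd w) ∈ S t := by
    intro w
    induction w with
    | nil =>
      intro t ht
      obtain rfl : ((0, 0) : ℕ × ℕ) = t := Option.some.inj ht
      exact h₀
    | cons s w ih =>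
      intro t' ht'
      rw [ty] at ht'
      obtain ⟨t, h1, h2⟩ := Option.bind_eq_some_iff.1 ht'
      rw [wd_cons, ← lm_mkO]
      exact h s t t' _ h2 (Submodule.subset_span ⟨w, h1, rfl⟩) (ih t h1)
  refine Submodule.span_le.2 ?_
  rintro _ ⟨w, hw, rfl⟩
  exact key w t hw

theorem toPres_of_ne {n : ℕ} {t : ℕ × ℕ} (h : t ≠ (0, n)) {y : Op step rel}
    (hy : y ∈ Cp step rel t) : toPres step rel n y = 0 := by
  refine Open1_map (toPres step rel n) ⊥ (fun w hw => ?_) hy
  rw [toPres_mkO]
  refine (Submodule.Quotient.mk_eq_zero _).2 (Submodule.subset_span (Or.inl ⟨w, ?_, rfl⟩))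
  rw [hw]
  exact fun e => h (Option.some.inj e)

theorem toPres_surj (n : ℕ) (x : Pres step rel n) :
    ∃ y ∈ Cp step rel (0, n), toPres step rel n y = x := by
  obtain ⟨x, rfl⟩ := Submodule.Quotient.mk_surjective _ x
  rw [← toPres_mkO]
  have hx : mkO step rel x ∈ ⨆ t, Cp step rel t := by
    rw [Cp_top]
    exact Submodule.mem_top
  generalize mkO step rel x = z at hx ⊢
  induction hx using Submodule.iSup_induction' with
  | mem t z hz =>
    by_cases ht : t = (0, n)
    · exact ⟨z, ht ▸ hz, rfl⟩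
    · exact ⟨0, Submodule.zero_mem _, by rw [map_zero, toPres_of_ne ht hz]⟩
  | zero => exact ⟨0, Submodule.zero_mem _, rfl⟩
  | add y z _ _ h1 h2 =>
    obtain ⟨y', a1, a2⟩ := h1
    obtain ⟨z', b1, b2⟩ := h2
    exact ⟨y' + z', Submodule.add_mem _ a1 b1, by rw [map_add, map_add, a2, b2]⟩

end Pool.Agent.P.MP_b3a239_gt
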