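import Pool.Agent.P.MP_b3a239_gt.Lens
import Pool.Agent.P.MP_b3a239_gt.Normal

/-! Evaluation of one summand in the invariant vectors over the fraction field. -/

set_option maxSynthPendingDepth 3

noncomputable section

namespace Pool.Agent.P.MP_b3a239_gt

abbrev KK : Type := FractionRing R

/-- the invariant part of `+ ⋯ + - ⋯ -` -/
def io : ℕ → F KK
  | 0 => bas KK []
  | k + 1 => (algebraMap R KK (f (k + 1)))⁻¹ • vρ KK (RtF k) (io k)

theorem Phi_ne {r : R} (h : r ≠ 0) : algebraMap R KK r ≠ 0 :=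
  (map_ne_zero_iff _ (IsFractionRing.injective R KK)).2 h

theorem Phi_rep (k : ℕ) : ∃ (c : KK) (x : FA), Loc 0 (2 * k) x ∧ io k = c • vρ KK x (bas KK []) := by
  induction k with
  | zero => exact ⟨1, 1, .one 0, by rw [one_smul, map_one]; rfl⟩
  | succ k ih =>
    obtain ⟨c, x, hx, e⟩ := ih
    refine ⟨(algebraMap R KK (f (k + 1)))⁻¹ * c, RtF k * x, .mul (loc_RtF k) hx, ?_⟩
    rw [io, e, vρ_smul, map_mul, mul_smul]
    rfl

theorem Phi_range (x : FA) {w : F KK} (h : w ∈ LinearMap.range (Et KK)) :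
    vρ KK x w ∈ LinearMap.range (Et KK) := by
  obtain ⟨y, rfl⟩ := h
  exact ⟨_, Et_vρ x y⟩

theorem Phi_gmap {k : Type} [CommRing k] [Algebra R k] (z : F k →ₗ[k] F k)
    (h : ∀ x w, z (vρ k x w) = vρ k x (z w)) (hm : ∀ m, ∀ w ∈ vLv k m, z w ∈ vLv k m) :
    GMap (TF k) (TF k) (z.restrictScalars R) :=
  ⟨fun hw => hm _ _ hw, fun _ _ => h _ _, fun _ _ => h _ _⟩

theorem Phi_prW {k : Type} [CommRing k] [Algebra R k] (n : ℤ) :
    GMap (TF k) (TF k) ((prW k n).restrictScalars R) := by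
  refine Phi_gmap _ (prW_vρ n) fun m w hw => ?_
  refine vLv_ind (P := fun w => prW k n w ∈ vLv k m) ?_ (fun u hu => ?_) (fun c w _ h => ?_)
    (fun u w _ _ h h' => ?_) hw
  · rw [map_zero]
    exact zero_mem _
  · rw [prW, lin_bas]
    split_ifs
    · exact hu ▸ bas_mem_vLv u
    · exact zero_mem _
  · rw [map_smul]
    exact smul_mem_vLv c h
  · rw [map_add]
    exact add_mem h h'

theorem Phi_prW_eta {k : Type} [CommRing k] [Algebra R k] (n : ℤ) (x y : ℕ) :
    prW k n (eta k x y) = if (x : ℤ) - y = n then eta k x y else 0 := by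
  rw [eta, prW, lin_bas, wt_eq_core, core_etaW]

theorem io_mem (k : ℕ) : io k ∈ vLv KK (2 * k) := by
  obtain ⟨c, x, hx, e⟩ := Phi_rep k
  exact e ▸ smul_mem_vLv c ((TF KK).mem hx (bas_mem_vLv []))

theorem io_inv (k : ℕ) :
    io k ∈ Submodule.span KK {y | ∃ m x, Loc 0 m x ∧ y = vρ KK x (bas KK [])} := by
  obtain ⟨c, x, hx, e⟩ := Phi_rep k
  exact e ▸ Submodule.smul_mem _ c (Submodule.subset_span ⟨_, x, hx, rfl⟩)

theorem io_sub_mem (k : ℕ) : io k - eta KK k k ∈ LinearMap.range (Et KK) := by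
  induction k with
  | zero => exact ⟨0, by rw [map_zero]; exact (sub_self _).symm⟩
  | succ k ih =>
    have h1 : f (k + 1) • eta KK (k + 1) (k + 1) - vρ KK (RtF k) (eta KK k k) ∈
        LinearMap.range (Et KK) :=
      ⟨a (-(2 * k - 4 * (k + 1))) • eta KK k (k + 2), by
        rw [LinearMap.map_smul_of_tower, Et_eta, smul_smul, mul_comm, a_mul_neg, one_smul]⟩
    have h2 := Submodule.smul_mem _ (algebraMap R KK (f (k + 1)))⁻¹
      (sub_mem (Phi_range (RtF k) ih) h1)
    rw [map_sub, sub_sub_sub_comm, sub_self, sub_zero, smul_sub, ← algebraMap_smul KK (f (k + 1)),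
      smul_smul, inv_mul_cancel₀ (Phi_ne (f_ne_zero _)), one_smul] at h2
    exact h2

theorem C_io {k l : ℕ} (h : l + 2 ≤ 2 * k) :
    vρ KK (C l) (io k) = if l + 1 = k then io (k - 1) else 0 := by
  refine sub_eq_zero.1 (inv_inter_Et (fun j c e => ?_) (sub_mem ?_ ?_) ?_)
  · rw [Algebra.smul_def] at e
    exact (mul_eq_zero.1 e).resolve_left (Phi_ne (f_ne_zero j))
  · obtain ⟨c, x, hx, e⟩ := Phi_rep k
    rw [e, vρ_smul]
    refine Submodule.smul_mem _ c (Submodule.subset_span ⟨2 * k - 2, C l * x,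
      .mul (.c (by omega)) (hx.cast rfl (by omega)), ?_⟩)
    rw [map_mul]
    rfl
  · split_ifs
    · exact io_inv _
    · exact zero_mem _
  · have h1 := Phi_range (C l) (io_sub_mem k)
    rw [map_sub, C_eta] at h1
    split_ifs with h2
    · rw [if_pos ⟨h2, by omega⟩] at h1
      have := sub_mem h1 (io_sub_mem (k - 1))
      rwa [sub_sub_sub_cancel_right] at this
    · rwa [if_neg fun e => h2 e.1] at h1

theorem exists_proj (χ : MM →ₗ[R] KK) : ∃ Ψ : FM →ₗ[R] F KK, GMap (TF MM) (TF KK) Ψ ∧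
    (∀ x y c, Ψ (c • eta MM x y) = if x = y then χ c • io x else 0) ∧ ∀ w, Ψ (Et MM w) = 0 := by
  obtain ⟨Ψ, hΨ, h⟩ := FM_lift (T := TF KK) (fun x y => if x = y then χ.smulRight (io x) else 0)
    (fun x y c => by
      split_ifs with e
      · exact smul_mem_vLv _ (by rw [← e, ← two_mul]; exact io_mem x)
      · exact zero_mem _)
    fun l x y c hl => by
      by_cases e : x = y
      · subst e
        rw [if_pos rfl, if_pos rfl, LinearMap.smulRight_apply, LinearMap.smulRight_apply, TF_ρ,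
          vρ_smul, C_io (by omega), smul_ite, smul_zero]
      · rw [if_neg e, LinearMap.zero_apply, map_zero]
        split_ifs with e1 e2
        · omega
        · rfl
        · rfl
  have h' : ∀ x y c, Ψ (c • eta MM x y) = if x = y then χ c • io x else 0 := fun x y c => by
    rw [h]
    split_ifs <;> rfl
  have h0 : Ψ ∘ₗ (prW MM 0).restrictScalars R = Ψ := FM_ext (hΨ.comp (Phi_prW 0)) hΨ fun x y c => by
    change Ψ (prW MM 0 _) = _
    rw [map_smul, Phi_prW_eta]
    split_ifs with e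
    · rfl
    · rw [smul_zero, map_zero, h', if_neg (by omega)]
  have hE : GMap (TF MM) (TF MM) ((Et MM).restrictScalars R) :=
    Phi_gmap _ Et_vρ fun m w hw => Submodule.smul_mem _ _ (EE_mem hw)
  refine ⟨Ψ, hΨ, h', fun w => DFunLike.congr_fun
    (FM_ext (hΨ.comp hE) (GMap.zero _ _) fun x y c => ?_) w⟩
  change Ψ (Et MM _) = 0
  by_cases e : y = x + 2
  · subst e
    rw [map_smul, Et_eta, smul_comm, map_smul, smul_sub, map_sub, smul_comm, map_smul, h',
      if_pos rfl, ← vρ_smul, ← TF_ρ, hΨ.nat (loc_RtF x)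
        (smul_mem_vLv c (by rw [two_mul]; exact eta_mem_vLv x x)), h', if_pos rfl, TF_ρ, vρ_smul,
      io, smul_comm (f (x + 1)), ← algebraMap_smul KK (f (x + 1)), smul_smul _ _⁻¹,
      mul_inv_cancel₀ (Phi_ne (f_ne_zero _)), one_smul, sub_self, smul_zero]
  · rw [← h0]
    change Ψ (prW MM (-2 + 2) (f 0 • _)) = 0
    rw [LinearMap.map_smul_of_tower, prW_EE, map_smul (prW MM (-2)), Phi_prW_eta, if_neg (by omega), smul_zero,
      map_zero, smul_zero, map_zero]

theorem boxes_chi {p q : ℕ} (hp : 2 ≤ p) (hpq : p.Coprime q) (r : ℤ) : ∃ g : Box → F KK,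
    (TF KK).Boxes p q g ∧ ∀ n, g (.t n) = algebraMap R KK (chi p q r n) • bas KK [] := by
  obtain ⟨χ, hχ⟩ : ∃ χ : MM →ₗ[R] KK,
      ∀ n, χ (XX n) = algebraMap R KK (chi p q r n) * (algebraMap R KK (f 0))⁻¹ :=
    ⟨cf _, cf_XX _⟩
  obtain ⟨Ψ, hΨ, h, hE⟩ := exists_proj χ
  have h0 : ∀ c : MM, Ψ (c • bas MM []) = χ c • bas KK [] := fun c => h 0 0 c
  have c1 : χ ∘ₗ cinv p q = -χ := MM_ext fun n => by
    have := chi_add hp hpq r (n - p)
    rw [sub_add_cancel] at this
    rw [LinearMap.comp_apply, cinv, cf_XX, map_smul, LinearMap.neg_apply, hχ, hχ, this,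
      Algebra.smul_def, neg_mul, map_neg, neg_mul, neg_neg, map_mul _ _ (chi _ _ _ _)]
    exact (mul_assoc _ _ _).symm
  have c2 : χ ∘ₗ Xinv = χ := MM_ext fun n => by
    rw [LinearMap.comp_apply, Xinv_XX, hχ, hχ, chi_neg]
  have c3 : ∀ n : ℕ, Xinv (zz ^ n) = zz ^ n := fun n => by
    induction n with
    | zero => rw [pow_zero, Xinv_one]
    | succ n ih => rw [pow_succ, Xinv_mul, ih, Xinv_zz]
  have c4 : ∀ n : ℕ, χ (dl * zz ^ n) = 0 := fun n => by
    have := DFunLike.congr_fun c2 (dl * zz ^ n)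
    rw [LinearMap.comp_apply, Xinv_mul, Xinv_dl, c3, neg_mul, map_neg] at this
    have h2 : (2 : R) ≠ 0 := fun e => two_ne_zero (α := Polynomial ℤ)
      (Polynomial.toLaurent_injective (by rw [map_ofNat, map_zero, e]))
    refine (mul_eq_zero.1 ?_).resolve_left (Phi_ne h2)
    rw [map_ofNat]
    linear_combination -this
  have inv : ∀ z : F KK →ₗ[KK] F KK, (∀ x w, z (vρ KK x w) = vρ KK x (z w)) →
      GMap (TF KK) (TF KK) (z.restrictScalars R) → z (bas KK []) = 0 → ∀ w, z (Ψ w) = 0 :=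
    fun z h1 h2 h3 w => DFunLike.congr_fun (FM_ext (h2.comp hΨ) (GMap.zero _ _) fun x y c => by
      change z (Ψ _) = 0
      rw [h]
      split_ifs
      · obtain ⟨c, x, -, e⟩ := Phi_rep x
        rw [e, map_smul, map_smul, h1, h3, map_zero, smul_zero, smul_zero]
      · exact map_zero _) w
  have hφ : GMap TV (TF KK) (Ψ ∘ₗ (LinearMap.lsmul MM FM dl).restrictScalars R ∘ₗ VS.subtype) :=
    hΨ.comp ((smul_natl dl).gmap.comp TM.gen_gmap)
  have hV := GMap.vanish (fun s y hs e => by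
      rw [← algebraMap_smul KK] at e
      exact (smul_eq_zero.1 e).resolve_left (Phi_ne hs)) TV_strict.top hφ
    (fun m w hw => mon_inv (hφ.mem hw)
      (sub_eq_zero.1 (inv (prW KK 0 - LinearMap.id)
        (fun x w => by simp only [LinearMap.sub_apply, LinearMap.id_apply, prW_vρ, map_sub])
        ((Phi_prW 0).sub (GMap.id _)) (sub_eq_zero.2 (Phi_prW_eta 0 0 0)) _))
      (inv _ EE_vρ (Phi_gmap _ EE_vρ fun _ _ => EE_mem) EE_nil _)
      (inv _ FF_vρ (Phi_gmap _ FF_vρ fun _ _ => FF_mem) FF_nil _))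
    fun w hw => (Submodule.span_le (p := LinearMap.ker
      (Ψ ∘ₗ (LinearMap.lsmul MM FM dl).restrictScalars R))).2 (by
        rintro _ ⟨n, rfl⟩
        change Ψ (dl • zz ^ n • bas MM []) = 0
        rw [smul_smul, h0, c4, zero_smul]) (TV_Lv_zero hw)
  refine ⟨_, boxes_of_kill hp hpq hΨ hE (fun w => DFunLike.congr_fun
    (FM_ext (hΨ.comp (cmap_gmap (cinv p q))) hΨ.neg fun x y c => ?_) w)
    fun l => DFunLike.congr_fun hV (om l), fun n => ?_⟩
  · rw [LinearMap.comp_apply, LinearMap.neg_apply, h, eta, cmap_smul_bas, ← eta, h]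
    split_ifs
    · rw [← neg_smul]
      exact congrArg (· • io x) (DFunLike.congr_fun c1 c)
    · exact neg_zero.symm
  · rw [vec, h0, map_smul, hχ, Algebra.smul_def, mul_comm, mul_assoc,
      inv_mul_cancel₀ (Phi_ne (f_ne_zero 0)), mul_one]

end Pool.Agent.P.MP_b3a239_gt
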