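import Pool.Agent.P.MP_b3a239_gt.Roots1

/-! An integral antisymmetric functional for equal orientations. -/

set_option maxSynthPendingDepth 3

noncomputable section

namespace Pool.Agent.P.MP_b3a239_gt

private theorem evC_chi (ζ : ℂˣ) (p q : ℕ) (r n : ℤ) :
    evC ζ (chi p q r n) = if (p : ℤ) ∣ n - r ∨ (p : ℤ) ∣ n + r then
      (-1 : ℂ) ^ ((q + 1) * (n - r)) * (ζ : ℂ) ^ (-(q * ((n ^ 2 - r ^ 2) / p))) else 0 := by
  unfold chi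
  split_ifs
  · rw [Units.smul_def, map_zsmul, evC_a, zsmul_eq_mul, Int.cast_negOnePow]
  · exact map_zero _

private theorem neg_one_zpow_add (m n : ℤ) : (-1 : ℂ) ^ (m + 2 * n) = (-1) ^ m := by
  rw [zpow_add₀ (by norm_num), zpow_mul]
  norm_num

private theorem case_one (ζ : ℂˣ) (q : ℕ) (N : ℤ) (h3 : 3 ∣ N) (hN : (ζ : ℂ) ^ (4 * N) = 1)
    (n : ℤ) : evC ζ (chi 3 q 0 (n + N)) = evC ζ (chi 3 q 0 (n - N)) := by
  obtain ⟨M, rfl⟩ := h3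
  rw [evC_chi, evC_chi]
  simp only [sub_zero, add_zero, or_self, Nat.cast_ofNat]
  by_cases hn : (3 : ℤ) ∣ n
  · obtain ⟨m, rfl⟩ := hn
    rw [if_pos ⟨m + M, by ring⟩, if_pos ⟨m - M, by ring⟩]
    have e1 : ((3 * m + 3 * M) ^ 2 - 0 ^ 2 : ℤ) / 3 = 3 * (m + M) ^ 2 :=
      Int.ediv_eq_of_eq_mul_right (by norm_num) (by ring)
    have e2 : ((3 * m - 3 * M) ^ 2 - 0 ^ 2 : ℤ) / 3 = 3 * (m - M) ^ 2 :=
      Int.ediv_eq_of_eq_mul_right (by norm_num) (by ring)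
    have e3 : ((q : ℤ) + 1) * (3 * m + 3 * M) =
        (q + 1) * (3 * m - 3 * M) + 2 * ((q + 1) * (3 * M)) := by ring
    have e4 : -((q : ℤ) * (3 * (m + M) ^ 2)) =
        -(q * (3 * (m - M) ^ 2)) + (4 * (3 * M)) * (-(q * m)) := by ring
    rw [e1, e2, e3, neg_one_zpow_add, e4, zpow_add₀ ζ.ne_zero, zpow_mul _ (4 * (3 * M)), hN,
      one_zpow, mul_one]
  · rw [if_neg (by omega), if_neg (by omega)]

private theorem kappa_eq (ζ : ℂˣ) (B : ℂ) (hB : B ^ (3 : ℤ) = ζ) (q : ℕ) (n : ℤ) :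
    evC ζ (chi 3 q 0 n) + (-1) ^ ((q : ℤ) + 1) * B ^ (-(q : ℤ)) * evC ζ (chi 3 q 1 n) =
      (-1) ^ (((q : ℤ) + 1) * n) * B ^ (-(q * n ^ 2)) := by
  have hB0 : B ≠ 0 := by
    rintro rfl
    exact ζ.ne_zero (by rw [← hB]; norm_num)
  rw [evC_chi, evC_chi]
  simp only [sub_zero, add_zero, or_self, Nat.cast_ofNat]
  by_cases hn : (3 : ℤ) ∣ n
  · rw [if_pos hn, if_neg (by omega)]
    obtain ⟨m, rfl⟩ := hn
    have e1 : ((3 * m) ^ 2 - 0 ^ 2 : ℤ) / 3 = 3 * m ^ 2 :=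
      Int.ediv_eq_of_eq_mul_right (by norm_num) (by ring)
    rw [e1, ← hB, ← zpow_mul, mul_zero, add_zero]
    congr 2
    ring
  · have h1 : (3 : ℤ) ∣ n - 1 ∨ (3 : ℤ) ∣ n + 1 := by omega
    rw [if_neg hn, if_pos h1, zero_add]
    have h2 : (3 : ℤ) ∣ n ^ 2 - 1 ^ 2 := by
      have e : n ^ 2 - 1 ^ 2 = (n - 1) * (n + 1) := by ring
      rw [e]
      exact h1.elim (fun h => h.mul_right _) fun h => h.mul_left _
    obtain ⟨m, hm⟩ := h2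
    rw [hm, Int.mul_ediv_cancel_left _ (by norm_num), ← hB, ← zpow_mul]
    have e1 : ((q : ℤ) + 1) * n = (q + 1) + (q + 1) * (n - 1) := by ring
    have e2 : -((q : ℤ) * n ^ 2) = -(q : ℤ) + 3 * -(q * m) := by
      linear_combination (-(q : ℤ)) * hm
    rw [e1, e2, zpow_add₀ (a := (-1 : ℂ)) (by norm_num) (q + 1), zpow_add₀ hB0]
    ring

private theorem exists_c (ζ : ℂˣ) (q : ℕ) (N : ℕ) (hN : (ζ : ℂ) ^ (4 * N) = 1) :
    ∃ c : ℂ, ∀ n : ℤ, evC ζ (chi 3 q 0 (n + N)) + c * evC ζ (chi 3 q 1 (n + N)) =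
      evC ζ (chi 3 q 0 (n - N)) + c * evC ζ (chi 3 q 1 (n - N)) := by
  have hN' : (ζ : ℂ) ^ (4 * (N : ℤ)) = 1 := by exact_mod_cast hN
  by_cases h3 : (3 : ℤ) ∣ N
  · exact ⟨0, fun n => by rw [case_one ζ q N h3 hN' n, zero_mul, zero_mul]⟩
  · obtain ⟨t, s, hts⟩ : ∃ t s : ℤ, t * 3 = 1 + 4 * N * s := by
      have h : (3 : ℤ) ∣ N - 1 ∨ (3 : ℤ) ∣ N + 1 := by omega
      rcases h with ⟨m, hm⟩ | ⟨m, hm⟩
      · exact ⟨8 * m + 3, 2, by omega⟩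
      · exact ⟨4 * m - 1, 1, by omega⟩
    have hB : ((ζ : ℂ) ^ t) ^ (3 : ℤ) = ζ := by
      rw [← zpow_mul, hts, zpow_add₀ ζ.ne_zero, zpow_mul _ (4 * (N : ℤ)), hN', one_zpow, mul_one,
        zpow_one]
    have hB0 : (ζ : ℂ) ^ t ≠ 0 := zpow_ne_zero _ ζ.ne_zero
    have hB1 : ((ζ : ℂ) ^ t) ^ (4 * (N : ℤ)) = 1 := by
      rw [← zpow_mul, mul_comm t, zpow_mul, hN', one_zpow]
    refine ⟨(-1) ^ ((q : ℤ) + 1) * ((ζ : ℂ) ^ t) ^ (-(q : ℤ)), fun n => ?_⟩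
    · rw [kappa_eq ζ _ hB, kappa_eq ζ _ hB]
      have e3 : ((q : ℤ) + 1) * (n + N) = (q + 1) * (n - N) + 2 * ((q + 1) * N) := by ring
      have e4 : -((q : ℤ) * (n + N) ^ 2) = -(q * (n - N) ^ 2) + (4 * N) * (-(q * n)) := by ring
      rw [e3, neg_one_zpow_add, e4, zpow_add₀ hB0, zpow_mul _ (4 * (N : ℤ)), hB1, one_zpow,
        mul_one]

theorem f_dvd_det {q : ℕ} (hq : q = 1 ∨ q = 2) (k : ℕ) (n n' : ℤ) :
    f k ∣ pf k (chi 3 q 0) n * pf k (chi 3 q 1) n' - pf k (chi 3 q 1) n * pf k (chi 3 q 0) n' := by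
  refine f_dvd_of_roots k fun ζ hζ => ?_
  have h1 : ((ζ : ℂ) ^ 4) ^ (k + 1) = 1 := by
    rw [← pow_mul]
    exact hζ
  have h2 : orderOf ((ζ : ℂ) ^ 4) ∣ k + 1 := orderOf_dvd_of_pow_eq_one h1
  have h3 : 0 < orderOf ((ζ : ℂ) ^ 4) := Nat.pos_of_dvd_of_pos h2 (Nat.succ_pos k)
  obtain ⟨N, hN⟩ : ∃ N, orderOf ((ζ : ℂ) ^ 4) = N + 1 := ⟨_, (Nat.succ_pred_eq_of_pos h3).symm⟩
  have hp : IsPrimitiveRoot ((ζ : ℂ) ^ 4) (N + 1) := hN ▸ IsPrimitiveRoot.orderOf _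
  have hle : N ≤ k := by
    have := Nat.le_of_dvd (Nat.succ_pos k) h2
    omega
  obtain ⟨c, hc⟩ := exists_c ζ q (N + 1) (by rw [pow_mul]; exact hp.pow_eq_one)
  have key : ∀ j, N ≤ j → ∀ m : ℤ,
      evC ζ (pf j (chi 3 q 0) m) + c * evC ζ (pf j (chi 3 q 1) m) = 0 := by
    intro j hj
    induction j, hj using Nat.le_induction with
    | base =>
      intro m
      rw [evC_pf hp, evC_pf hp]
      have := hc m
      push_cast at this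
      linear_combination this
    | succ j hj ih =>
      intro m
      simp only [pf, map_sub, smul_eq_mul, map_mul]
      linear_combination ih (m + 1) - evC ζ (a (-4 * (j + 1))) * ih (m - 1)
  rw [map_sub, map_mul, map_mul]
  linear_combination evC ζ (pf k (chi 3 q 1) n') * key k hle n -
    evC ζ (pf k (chi 3 q 1) n) * key k hle n'

end Pool.Agent.P.MP_b3a239_gt
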