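import Pool.Agent.P.MP_b3a239_gt.Link
import Pool.Agent.P.MP_b3a239_gt.Local

/-! Evaluation of link diagrams in a tower. -/

set_option maxSynthPendingDepth 3

open FreeAlgebra

noncomputable section

namespace Pool.Agent.P.MP_b3a239_gt

variable {O : Type} [AddCommGroup O] [Module R O]

/-- the Temperley-Lieb element of a tangle -/
def SkLift_tg : Gen → ℕ → FA
  | .cup, l => U l
  | .cap, l => C l
  | .cr s, l => sg s l

theorem SkLift_shn (γ : Gen) (i k : ℕ) : shn k (SkLift_tg γ i) = SkLift_tg γ (k + i) := by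
  rw [add_comm]
  cases γ with
  | cup => exact shn_U k i
  | cap => exact shn_C k i
  | cr s => exact shn_sg k s i

theorem SkLift_loc (γ : Gen) {i m : ℕ} (h : i + γ.src ≤ m) :
    Loc m (m - γ.src + γ.tgt) (SkLift_tg γ i) := by
  cases γ with
  | cup => exact Loc.u h
  | cap =>
    have h' : i + 2 ≤ m := h
    exact (Loc.c (m := m - 2) (j := i) (by omega)).cast (by omega) rfl
  | cr s =>
    have h' : i + 2 ≤ m := h
    exact (loc_sg s h').cast rfl (by change m = m - 2 + 2; omega)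

theorem SkLift_gen {Γ : GT O} {j : ℕ} {ψ : V →ₗ[R] Module.End R O}
    {e : FreeAlgebra R Sl →ₐ[R] Module.End R O} (he : Γ.Eval j ψ e) (γ : Gen) {i m j' : ℕ}
    (h : i + γ.src ≤ m) {w : O} (hw : w ∈ Γ.Cp m j') :
    e (ι R (.gen γ i)) w = Γ.ρ (SkLift_tg γ i) w := by
  cases γ with
  | cup => rw [he.cup]; rfl
  | cap => rw [he.cap]; rfl
  | cr s => exact he.cr s i m j' h w hw

theorem SkLift_mem (Γ : GT O) {m n j : ℕ} {x : FA} (h : Loc m n x) {w : O} (hw : w ∈ Γ.Cp m j) :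
    Γ.ρ x w ∈ Γ.Cp n j := (Γ.tm j).mem h hw

theorem SkLift_tr (Γ : GT O) {m n j : ℕ} {x y : FA} (hx : Loc m n x) (hy : Loc m n y)
    (h : mkT x = mkT y) {w : O} (hw : w ∈ Γ.Cp m j) : Γ.ρ x w = Γ.ρ y w :=
  (Γ.tm j).transfer hx hy h hw

theorem SkLift_slide {Γ : GT O} {j : ℕ} {ψ : V →ₗ[R] Module.End R O}
    {e : FreeAlgebra R Sl →ₐ[R] Module.End R O} (he : Γ.Eval j ψ e) (hψ : GMap TV (Γ.hom j) ψ)
    (p q : ℕ) (c : R) {l m : ℕ} (h : l ≤ m) {w : O} (hw : w ∈ Γ.Cp m j) :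
    e (wd (close ((curve p q [true] [false]).foldr drag ([], l, []))) -
      c • wd (close ([], l, []))) w = Γ.ρ (shn (l + 2) (capC l))
        ((ψ ((CQ p q).1 (El l) : V) - c • ψ (El l : V)) w) := by
  have h1 := he.link hψ (curve p q [true] [false]) h hw
  have h2 : e (wd (close ([], l, []))) w = Γ.ρ (shn (l + 2) (capC l)) (ψ (El l : V) w) :=
    he.link hψ [] h hw
  rw [map_sub, map_smul, LinearMap.sub_apply, LinearMap.smul_apply, h1, h2, LinearMap.sub_apply,
    LinearMap.smul_apply, map_sub, map_smul]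
  rfl

/-- the operators of the slices -/
def SkLift_op (Γ : GT O) (ψ : V →ₗ[R] Module.End R O) : Sl → Module.End R O
  | .gen .cup l => Γ.ρ (U l)
  | .gen .cap l => Γ.ρ (C l)
  | .gen (.cr s) l => Γ.ρ (sg s l) * Γ.ρ (C (l + 1 + 1)) * Γ.ρ (U (l + 1))
  | .hole l => Γ.hole ψ l

theorem SkLift_eval (Γ : GT O) (j : ℕ) (ψ : V →ₗ[R] Module.End R O) :
    Γ.Eval j ψ (lift R (SkLift_op Γ ψ)) := by
  refine ⟨fun l => lift_ι_apply _ _, fun l => lift_ι_apply _ _, fun s l m j' h w hw => ?_,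
    fun l m h w hw => by rw [lift_ι_apply]; rfl⟩
  rw [lift_ι_apply]
  exact congrArg (Γ.ρ (sg s l)) (Γ.zig h hw)

theorem GT.Eval.move {Γ : GT O} {j : ℕ} {ψ : V →ₗ[R] Module.End R O}
    {e : FreeAlgebra R Sl →ₐ[R] Module.End R O} (he : Γ.Eval j ψ e) (hψ : GMap TV (Γ.hom j) ψ)
    {m : ℕ} {x y : List Sl} (h : Move m x y) {w : O} (hw : w ∈ Γ.Cp m j) :
    e (wd x) w = e (wd y) w := by
  cases h with
  | comm γ η i k h =>
    have m1 := SkLift_mem Γ (SkLift_loc γ (i := i) (by omega)) hw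
    have m2 := SkLift_mem Γ (SkLift_loc η h) hw
    have f := LinearMap.congr_fun (Γ.wk.far (SkLift_loc γ (i := i) le_rfl) (SkLift_tg η k)) w
    rw [SkLift_shn, SkLift_shn, Nat.add_sub_cancel] at f
    simp only [wd_cons, wd_nil, mul_one, map_mul, Module.End.mul_apply]
    rw [SkLift_gen he γ (by omega) hw, SkLift_gen he η h hw, SkLift_gen he η (by omega) m1,
      SkLift_gen he γ (by omega) m2]
    exact f.symm
  | holeL γ i k h =>
    have m1 := SkLift_mem Γ (SkLift_loc γ (i := i) (by omega)) hw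
    simp only [wd_cons, wd_nil, mul_one, map_mul, Module.End.mul_apply]
    rw [SkLift_gen he γ (by omega) hw, he.hole _ _ h _ hw, he.hole _ _ (by omega) _ m1,
      SkLift_gen he γ (by omega) (GT.hole_mem hψ h hw)]
    cases γ with
    | cup =>
      have h' : i + k ≤ m := h
      have := GT.hole_U hψ (Nat.le_add_right i k) h' hw
      rw [add_right_comm] at this
      exact this
    | cap =>
      have h' : i + 2 + k ≤ m := h
      have := GT.hole_C hψ (Nat.le_add_right i k) (by omega) hw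
      rw [add_right_comm] at this
      exact this
    | cr s => exact GT.hole_sg hψ s (Nat.le_add_right _ k) h hw
  | holeR γ l k h =>
    have m1 := SkLift_mem Γ (SkLift_loc γ h) hw
    simp only [wd_cons, wd_nil, mul_one, map_mul, Module.End.mul_apply]
    rw [SkLift_gen he γ h hw, he.hole l _ (by omega) _ hw, he.hole l _ (by omega) _ m1,
      SkLift_gen he γ h (GT.hole_mem hψ (l := l) (by omega) hw), ← SkLift_shn]
    exact GT.hole_far hψ l _ w
  | zig i h =>
    simp only [wd_cons, wd_nil, mul_one, map_mul, map_one, Module.End.mul_apply, he.cup, he.cap]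
    exact Γ.zig h hw
  | zag i h =>
    simp only [wd_cons, wd_nil, mul_one, map_mul, map_one, Module.End.mul_apply, he.cup, he.cap]
    exact Γ.zag h hw
  | cupSlide s i h =>
    have f := SkLift_tr Γ (Loc.mul (loc_sg s (by omega)) (Loc.u h))
      (Loc.mul (loc_sg (!s) (by omega)) (Loc.u (by omega))) (sg_cupSlide s i) hw
    simp only [wd_cons, wd_nil, mul_one, map_mul, Module.End.mul_apply, he.cup] at f ⊢
    rw [he.cr _ _ _ _ (by omega) _ (Γ.memU h hw),
      he.cr _ _ _ _ (by omega) _ (Γ.memU (l := i) (by omega) hw), f]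
  | capSlide s i h =>
    obtain ⟨m, rfl⟩ : ∃ k, m = k + 2 := ⟨m - 2, by omega⟩
    have f := SkLift_tr Γ (Loc.mul (Loc.c (by omega)) (loc_sg s (by omega)))
      (Loc.mul (Loc.c (by omega)) (loc_sg (!s) (by omega))) (sg_capSlide s i) hw
    simp only [wd_cons, wd_nil, mul_one, map_mul, Module.End.mul_apply, he.cap] at f ⊢
    rw [he.cr _ _ _ _ (by omega) _ hw, he.cr _ _ _ _ (by omega) _ hw, f]
  | reid2 s i h =>
    have f := SkLift_tr Γ (Loc.mul (loc_sg (!s) h) (loc_sg s h)) (Loc.one m)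
      ((sg_inv s i).trans (map_one mkT).symm) hw
    simp only [wd_cons, wd_nil, mul_one, map_mul, map_one, Module.End.mul_apply] at f ⊢
    rw [he.cr _ _ _ _ h _ hw, he.cr _ _ _ _ h _ (SkLift_mem Γ (loc_sg s h) hw), f]
  | reid3 r s t i hr h =>
    have h0 : i + 2 ≤ m := by omega
    have h1 : i + 1 + 2 ≤ m := h
    have f := SkLift_tr Γ (Loc.mul (Loc.mul (loc_sg t h0) (loc_sg s h1)) (loc_sg r h0))
      (Loc.mul (Loc.mul (loc_sg r h1) (loc_sg s h0)) (loc_sg t h1)) (sg_r3 r s t hr i) hw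
    have m1 := SkLift_mem Γ (loc_sg r h0) hw
    have m2 := SkLift_mem Γ (loc_sg t h1) hw
    simp only [wd_cons, wd_nil, mul_one, map_mul, Module.End.mul_apply] at f ⊢
    rw [he.cr _ _ _ _ h0 _ hw, he.cr _ _ _ _ h1 _ hw, he.cr _ _ _ _ h1 _ m1, he.cr _ _ _ _ h0 _ m2,
      he.cr _ _ _ _ h0 _ (SkLift_mem Γ (loc_sg s h1) m1),
      he.cr _ _ _ _ h1 _ (SkLift_mem Γ (loc_sg s h0) m2), f]

theorem skein_lift (L : List (ℕ × ℕ)) (Γ : GT O) (ψ : ℕ → V →ₗ[R] Module.End R O)
    (hψ : ∀ j, GMap TV (Γ.hom j) (ψ j))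
    (hs : ∀ j l, ψ j ((CQ (par L j).1 (par L j).2).1 (El l) : V) =
      (-a 3) ^ ((par L j).1 + (par L j).2 - 1) • ψ j (El l : V))
    (e : O) (he : e ∈ Γ.Cp 0 0) : ∃ φ : OS L →ₗ[R] O, φ (mkO _ _ 1) = e ∧
      (∀ m j, ∀ y ∈ (ΓS L).Cp m j, φ y ∈ Γ.Cp m j) ∧ (∀ x y, φ ((ΓS L).ρ x y) = Γ.ρ x (φ y)) ∧
      ∀ j l m, l ≤ m → ∀ y ∈ (ΓS L).Cp m j,
        φ (lm _ _ (ι R (Sl.hole l)) y) = Γ.hole (ψ j) l (φ y) := by
  have H := open_lift (cupCap_S L).marked (fun j => SkLift_op Γ (ψ j))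
    (fun t => Γ.Cp t.1 t.2) e he ?_ ?_ ?_ ?_
  · obtain ⟨φ, h1, h2, h3⟩ := H
    refine ⟨φ, h1, fun m j y hy => h2 (m, j) y (ΓS_Cp L m j ▸ hy), fun x => ?_,
      fun j l m _ y hy => h3 (.hole l) (m, j) y (ΓS_Cp L m j ▸ hy)⟩
    induction x using FreeAlgebra.induction with
    | grade0 r => intro y; simp
    | grade1 g =>
      refine LinearMap.congr_fun (f := φ ∘ₗ (ΓS L).ρ (ι R g)) (g := Γ.ρ (ι R g) ∘ₗ φ)
        ((ΓS L).ext fun m j y hy => ?_)
      cases g with
      | u l =>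
        have := h3 (.gen .cup l) (m, j) y (ΓS_Cp L m j ▸ hy)
        rw [← ΓS_U] at this
        exact this
      | c l =>
        have := h3 (.gen .cap l) (m, j) y (ΓS_Cp L m j ▸ hy)
        rw [← ΓS_C] at this
        exact this
    | mul x z hx hz => intro y; simp only [map_mul, Module.End.mul_apply, hx, hz]
    | add x z hx hz => intro y; simp only [map_add, LinearMap.add_apply, hx, hz]
  · rintro j (⟨γ, l⟩ | l) h
    · cases γ <;> rfl
    · exact absurd h (by simp [Sl.mk])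
  · rintro (⟨γ, l⟩ | l) ⟨m, j⟩ t' h w hw
    · simp only [Sl.step] at h
      split_ifs at h with hl
      obtain rfl := Option.some.inj h
      have := SkLift_gen (SkLift_eval Γ j (ψ j)) γ hl hw
      rw [lift_ι_apply] at this
      exact this ▸ SkLift_mem Γ (SkLift_loc γ hl) hw
    · simp only [Sl.step] at h
      split_ifs at h with hl
      obtain rfl := Option.some.inj h
      exact GT.hole_mem (hψ j) hl hw
  · rintro (⟨γ, l⟩ | l) ⟨m, j⟩ h w hw
    · simp only [Sl.step] at h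
      split_ifs at h with hl
      cases γ with
      | cup => exact Γ.U0 (not_le.1 hl) hw
      | cap => exact Γ.C0 (not_le.1 hl) hw
      | cr s =>
        have h' : m < l + 2 := not_le.1 hl
        show Γ.ρ (sg s l) (Γ.ρ (C (l + 1 + 1)) (Γ.ρ (U (l + 1)) w)) = 0
        rcases lt_or_ge m (l + 1) with h1 | h1
        · rw [Γ.U0 h1 hw, map_zero, map_zero]
        · rw [Γ.C0 (by omega) (Γ.memU h1 hw), map_zero]
    · simp only [Sl.step] at h
      split_ifs at h with hl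
      exact GT.hole_none (hψ j) (not_le.1 hl) hw
  · intro m j ρ h w hw
    have ev := SkLift_eval Γ j (ψ j)
    cases h with
    | isotopy x y h => rw [map_sub, LinearMap.sub_apply, ev.move (hψ j) h hw, sub_self]
    | skein s i h =>
      simp only [wd_cons, wd_nil, mul_one, map_mul, map_sub, map_smul, map_one, ev.cup, ev.cap,
        LinearMap.sub_apply]
      rw [ev.cr _ _ _ _ h _ hw, sg, map_add, map_smul, map_smul, map_one, map_mul,
        LinearMap.add_apply, add_sub_cancel_left, sub_self]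
    | loop i h =>
      simp only [wd_cons, wd_nil, mul_one, map_mul, map_add, map_smul, map_one, ev.cup, ev.cap,
        LinearMap.add_apply, Module.End.mul_apply, LinearMap.smul_apply, Module.End.one_apply]
      rw [Γ.loop h hw, dd, neg_smul, neg_add_cancel]
    | slide l h => rw [SkLift_slide ev (hψ j) _ _ _ h hw, hs, sub_self, LinearMap.zero_apply, map_zero]

theorem exists_ΨS (L : List (ℕ × ℕ)) (j : ℕ) : ∃ ψ : V →ₗ[R] Module.End R (OS L),
    GMap TV ((ΓS L).hom j) ψ ∧ (∀ l, ψ (om l) = oS L j l) ∧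
      ∀ l, ψ ((CQ (par L j).1 (par L j).2).1 (El l) : V) =
        (-a 3) ^ ((par L j).1 + (par L j).2 - 1) • ψ (El l : V) := by
  obtain ⟨ψ, hψ, ho⟩ := V_lift (arcs_oS L j)
  refine ⟨ψ, hψ, ho, fun l => sub_eq_zero.1 ?_⟩
  have ev : (ΓS L).Eval j ψ (lm _ _) := ⟨fun l => (ΓS_U L l).symm, fun l => (ΓS_C L l).symm,
    fun s _ _ _ h _ hw => ΓS_cr L s h hw, fun _ _ h _ hw => (hole_oS L ho h hw).symm⟩
  have hm : ∀ {v : Q}, v ∈ TQ.Lv (2 * l + 1) → ψ (v : V) ∈ (ΓS L).homLv j (l + 2 + l) :=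
    fun {v} hv => by
      have h1 : (v : V) ∈ TV.Lv (2 * l + 1 + 1) := hv
      rw [show l + 2 + l = 2 * l + 1 + 1 by omega]
      exact hψ.mem h1
  refine GT.eq_zero_of_cap (Submodule.sub_mem _ (hm ((Mw_nat _).1.2 _ _ (El_mem l)))
    (Submodule.smul_mem _ _ (hm (El_mem l)))) fun m h w hw => ?_
  rw [← SkLift_slide ev hψ _ _ _ h hw]
  exact lm_rel (SkeinRel.slide l h) (ΓS_Cp L m j ▸ hw)

end Pool.Agent.P.MP_b3a239_gt
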