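import Pool.Agent.P.MP_b3a239_gt.TLBasic

/-! Matched pairs in words. -/

set_option maxSynthPendingDepth 3

noncomputable section

namespace Pool.Agent.P.MP_b3a239_gt

theorem SpanW_core_mid (u v : List Bool) : core (u ++ false :: true :: v) = core (u ++ v) := by
  induction u with
  | nil => simp [core]
  | cons b u ih => cases b <;> simp only [List.cons_append, core, ih]

@[simp] theorem core_ins (i : ℕ) (w : List Bool) : core (ins i w) = core w := by
  rw [ins, SpanW_core_mid, List.take_append_drop]
theorem length_ins (i : ℕ) (w : List Bool) : (ins i w).length = w.length + 2 := by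
  simp only [ins, List.length_append, List.length_cons, List.length_take, List.length_drop]
  omega
@[simp] theorem core_etaW (x y : ℕ) : core (etaW x y) = (x, y) := by
  induction x with
  | zero =>
    induction y with
    | zero => rfl
    | succ y ih =>
      have : etaW 0 (y + 1) = false :: etaW 0 y := rfl
      simp [this, core, ih]
  | succ x ih =>
    have : etaW (x + 1) y = true :: etaW x y := rfl
    simp [this, core, ih]
@[simp] theorem cups_etaW (x y : ℕ) : cups (etaW x y) = 1 := by
  induction x with
  | zero =>
    induction y with
    | zero => rfl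
    | succ y ih =>
      have : etaW 0 (y + 1) = false :: etaW 0 y := rfl
      simp [this, cups, ih]
  | succ x ih =>
    have : etaW (x + 1) y = true :: etaW x y := rfl
    simp [this, cups, ih]
@[simp] theorem length_etaW (x y : ℕ) : (etaW x y).length = x + y := by simp [etaW]
theorem wt_eq_core (w : List Bool) : wt w = (core w).1 - (core w).2 := by
  induction w with
  | nil => rfl
  | cons b w ih =>
    cases b
    · by_cases h : (core w).1 = 0 <;> simp [wt, core, ih, h] <;> omega
    · simp [wt, core, ih]
      omega
theorem wt_append (u w : List Bool) : wt (u ++ w) = wt u + wt w := by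
  induction u with
  | nil => simp [wt]
  | cons b u ih => simp only [List.cons_append, wt, ih, add_assoc]
theorem cupW_cups (w : List Bool) : CupW ((core w).1 + (core w).2) w.length (cups w) := by
  induction w with
  | nil => exact .one _
  | cons b w ih =>
    have h1 := ih.shn 1
    cases b
    · by_cases h : (core w).1 = 0
      · simp only [core, cups, if_pos h, List.length_cons]
        rw [h] at h1
        exact h1
      · simp only [core, cups, if_neg h, List.length_cons]
        have h2 := (CupW.one ((core w).1 - 1 + (core w).2)).cons (Nat.zero_le _)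
        rw [mul_one, show (core w).1 - 1 + (core w).2 + 2 = (core w).1 + (core w).2 + 1 by omega]
          at h2
        exact h1.mul h2
    · simp only [core, cups, List.length_cons]
      rw [add_right_comm]
      exact h1
theorem Wk.cups_ins {A : Type} [Semiring A] [Algebra R A] {ρ : FA →ₐ[R] A} (hρ : Wk ρ) {i : ℕ}
    {w : List Bool} (h : i ≤ w.length) : ρ (cups (ins i w)) = ρ (U i) * ρ (cups w) := by
  induction i generalizing w ρ with
  | zero =>
    have h1 : cups (ins 0 w) = shn 1 (shn 1 (cups w)) * U 0 := by simp [ins, cups, core]
    have h2 := hρ.far (Loc.u (le_refl 0)) (cups w)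
    rw [shn_zero] at h2
    rw [h1, shn_shn, map_mul, h2]
  | succ i ih =>
    obtain _ | ⟨b, w⟩ := w
    · simp at h
    have h1 : ins (i + 1) (b :: w) = b :: ins i w := rfl
    have h2 := ih (hρ.shift 1) (w := w) (by simpa using h)
    simp only [AlgHom.comp_apply, shn_U] at h2
    rw [h1]
    cases b
    · by_cases h3 : (core w).1 = 0
      · simp only [cups, core_ins, if_pos h3, h2]
      · simp only [cups, core_ins, if_neg h3, map_mul, h2, mul_assoc]
    · simp only [cups, h2]
/-- a product of cups on top of `cups w` is `cups w'` with the same core -/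
theorem CupW.exists_word {m : ℕ} {x : FA} (w : List Bool) (h : CupW w.length m x) :
    ∃ w' : List Bool, core w' = core w ∧ w'.length = m ∧ ∀ (A : Type) [Semiring A] [Algebra R A]
      (ρ : FA →ₐ[R] A), Wk ρ → ρ (cups w') = ρ x * ρ (cups w) := by
  induction h with
  | one => exact ⟨w, rfl, rfl, fun A _ _ ρ _ => by rw [map_one, one_mul]⟩
  | @cons n i x _ hi ih =>
    obtain ⟨w', h1, h2, h3⟩ := ih
    refine ⟨ins i w', by rw [core_ins, h1], by rw [length_ins, h2], fun A _ _ ρ hρ => ?_⟩
    rw [hρ.cups_ins (h2 ▸ hi), h3 A ρ hρ, map_mul, mul_assoc]

/-- the first unmatched `-` becomes `+` -/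
def upW : List Bool → List Bool
  | [] => []
  | true :: w => true :: upW w
  | false :: w => if (core w).1 = 0 then true :: w else false :: upW w

theorem core_upW {w : List Bool} {x y : ℕ} (h : core w = (x, y + 1)) : core (upW w) = (x + 1, y) := by
  induction w generalizing x y with
  | nil => simp [core] at h
  | cons b w ih =>
    rcases hc : core w with ⟨c₁, c₂⟩
    cases b
    · by_cases h1 : c₁ = 0
      · simp only [core, upW, hc, if_pos h1, Prod.mk.injEq] at h ⊢
        omega
      · simp only [core, hc, if_neg h1, Prod.mk.injEq] at h
        rw [h.2] at hc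
        simp only [upW, hc, if_neg h1, core, ih hc]
        simp only [Nat.add_eq_zero_iff, one_ne_zero, and_false, if_false, Prod.mk.injEq, and_true]
        omega
    · simp only [core, hc, Prod.mk.injEq] at h
      rw [h.2] at hc
      simp only [upW, core, ih hc, h.1]
theorem cups_upW {w : List Bool} {x y : ℕ} (h : core w = (x, y + 1)) : cups (upW w) = cups w := by
  induction w generalizing x y with
  | nil => rfl
  | cons b w ih =>
    rcases hc : core w with ⟨c₁, c₂⟩
    cases b
    · by_cases h1 : c₁ = 0
      · simp only [upW, cups, hc, if_pos h1]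
      · simp only [core, hc, if_neg h1, Prod.mk.injEq] at h
        rw [h.2] at hc
        simp only [upW, hc, if_neg h1, cups, core_upW hc, ih hc]
        simp
    · simp only [core, hc, Prod.mk.injEq] at h
      rw [h.2] at hc
      simp only [upW, cups, ih hc]
theorem length_upW (w : List Bool) : (upW w).length = w.length := by
  induction w with
  | nil => rfl
  | cons b w ih =>
    cases b
    · by_cases h1 : (core w).1 = 0 <;> simp [upW, h1, ih]
    · simp [upW, ih]
theorem upW_inj {w w' : List Bool} {x y : ℕ} (h : core w = (x, y + 1)) (h' : core w' = (x, y + 1))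
    (e : upW w = upW w') : w = w' := by
  induction w generalizing w' x y with
  | nil => simp [core] at h
  | cons b w ih =>
    obtain _ | ⟨b', w'⟩ := w'
    · simp [core] at h'
    rcases hc : core w with ⟨c₁, c₂⟩
    rcases hc' : core w' with ⟨c₁', c₂'⟩
    cases b <;> cases b' <;> by_cases h1 : c₁ = 0 <;> by_cases h2 : c₁' = 0 <;>
      simp [core, upW, hc, hc', h1, h2] at h h' e ⊢ <;>
      first
        | exact e
        | omega
        | exact ih (x := c₁) (y := y) (by rw [hc, h.2]) (by rw [hc', h'.2]; congr 1; omega) e

end Pool.Agent.P.MP_b3a239_gt
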