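import Pool.Agent.P.MP_b3a239_gt.Defs

/-!
Temperley-Lieb words, modules with levels, natural maps, stable equality of words.
Products are compositions: the right factor is applied first (it is lower in the picture).
`U l` creates the strands number `l, l+1`; `C l` caps off the strands number `l, l+1`.
-/

open FreeAlgebra

set_option maxSynthPendingDepth 3

noncomputable section

namespace Pool.Agent.P.MP_b3a239_gt

inductive Tg where
  | u (l : ℕ) | c (l : ℕ)

abbrev FA : Type := FreeAlgebra R Tg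

def U (l : ℕ) : FA := ι R (.u l)
def C (l : ℕ) : FA := ι R (.c l)

/-- put `k` more strands on the left -/
def shn (k : ℕ) : FA →ₐ[R] FA := lift R fun
  | .u l => U (l + k)
  | .c l => C (l + k)

/-- loop value -/
def dd : R := -(a 2 + a (-2))

/-- crossing of the strands `l, l+1` -/
def sg (s : Bool) (l : ℕ) : FA :=
  a (if s then 1 else -1) • (1 : FA) + a (if s then -1 else 1) • (U l * C l)

/-- strand `i` moves to the right across `l` strands -/
def pR (s : Bool) (i : ℕ) : ℕ → FA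
  | 0 => 1
  | l + 1 => sg s (i + l) * pR s i l

/-- strand `i + l` moves to the left across `l` strands -/
def pL (s : Bool) (i : ℕ) : ℕ → FA
  | 0 => 1
  | l + 1 => pL s i l * sg s (i + l)

/-- strand `i` goes around the `l` strands on its right -/
def fin (s : Bool) (i l : ℕ) : FA := pL s i l * pR s i l

/-- `l` nested cups -/
def cupC : ℕ → FA
  | 0 => 1
  | l + 1 => U l * cupC l

/-- `l` nested caps -/
def capC : ℕ → FA
  | 0 => 1
  | l + 1 => capC l * C l

/-- a word of caps, the last one is applied first -/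
def capw (d : List ℕ) : FA := (d.map C).prod

/-- the longitudinal drag of strand `1` -/
def tau (l : ℕ) : FA := pL false 1 l * C (l + 1) * pR true 1 l

def RtF (k : ℕ) : FA := -∑ j ∈ Finset.range (k + 1), (a (2 * j + 2) * f (k - j)) • U (k + j)

def TtF (k : ℕ) : FA :=
  ∑ j ∈ Finset.range (k + 1), a (2 * j - 4 * k) • U (k + j) +
    ∑ i ∈ Finset.range k, a (-2 * i - 2 * k) • U i +
    ∑ i ∈ Finset.range k, ∑ j ∈ Finset.range k,
      a (2 * (j - i - k + 1)) • (U i * U (k - 1 + j) * C (k - 1))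

/-- `x` is a Temperley-Lieb morphism from the `m` leftmost strands to `n` strands -/
inductive Loc : ℕ → ℕ → FA → Prop
  | one (m : ℕ) : Loc m m 1
  | u {m j : ℕ} : j ≤ m → Loc m (m + 2) (U j)
  | c {m j : ℕ} : j ≤ m → Loc (m + 2) m (C j)
  | mul {m n k : ℕ} {x y : FA} : Loc n k y → Loc m n x → Loc m k (y * x)
  | add {m n : ℕ} {x y : FA} : Loc m n x → Loc m n y → Loc m n (x + y)
  | smul {m n : ℕ} {x : FA} (c : R) : Loc m n x → Loc m n (c • x)
  | zero (m n : ℕ) : Loc m n 0

/-- `x` is a product of cups from `m` to `n` strands -/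
inductive CupW : ℕ → ℕ → FA → Prop
  | one (m : ℕ) : CupW m m 1
  | cons {m n i : ℕ} {x : FA} : CupW m n x → i ≤ n → CupW m (n + 2) (U i * x)

/-- the four exchanges of heights -/
structure Wk {A : Type} [Semiring A] [Algebra R A] (ρ : FA →ₐ[R] A) : Prop where
  uu : ∀ i j, i ≤ j → ρ (U (j + 2)) * ρ (U i) = ρ (U i) * ρ (U j)
  cc : ∀ i j, i ≤ j → ρ (C j) * ρ (C i) = ρ (C i) * ρ (C (j + 2))
  cu : ∀ i j, i ≤ j → ρ (C (j + 2)) * ρ (U i) = ρ (U i) * ρ (C j)
  uc : ∀ i j, i ≤ j → ρ (C i) * ρ (U (j + 2)) = ρ (U j) * ρ (C i)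

/-- A module over the Temperley-Lieb category: `Lv m` is the part with `m` strands. -/
structure TM (B : Type) [AddCommGroup B] [Module R B] where
  ρ : FA →ₐ[R] Module.End R B
  Lv : ℕ → Submodule R B
  wk : Wk ρ
  memU : ∀ {l m : ℕ} {w : B}, l ≤ m → w ∈ Lv m → ρ (U l) w ∈ Lv (m + 2)
  memC : ∀ {l m : ℕ} {w : B}, l ≤ m → w ∈ Lv (m + 2) → ρ (C l) w ∈ Lv m
  loop : ∀ {l m : ℕ} {w : B}, l ≤ m → w ∈ Lv m → ρ (C l) (ρ (U l) w) = dd • w
  zig : ∀ {l m : ℕ} {w : B}, l + 1 ≤ m → w ∈ Lv m → ρ (C (l + 1)) (ρ (U l) w) = w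
  zag : ∀ {l m : ℕ} {w : B}, l + 1 ≤ m → w ∈ Lv m → ρ (C l) (ρ (U (l + 1)) w) = w

@[simp] theorem shn_U (k l : ℕ) : shn k (U l) = U (l + k) := by simp [shn, U]
@[simp] theorem shn_C (k l : ℕ) : shn k (C l) = C (l + k) := by simp [shn, C]

theorem Wk.shift {A : Type} [Semiring A] [Algebra R A] {ρ : FA →ₐ[R] A} (h : Wk ρ) (k : ℕ) :
    Wk (ρ.comp (shn k)) := by
  refine ⟨fun i j hij => ?_, fun i j hij => ?_, fun i j hij => ?_, fun i j hij => ?_⟩ <;>
    simp only [AlgHom.comp_apply, shn_U, shn_C, show j + 2 + k = j + k + 2 by omega]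
  · exact h.uu _ _ (by omega)
  · exact h.cc _ _ (by omega)
  · exact h.cu _ _ (by omega)
  · exact h.uc _ _ (by omega)

theorem Wk.comp {A A' : Type} [Semiring A] [Algebra R A] [Semiring A'] [Algebra R A'] {ρ : FA →ₐ[R] A}
    (h : Wk ρ) (φ : A →ₐ[R] A') : Wk (φ.comp ρ) := by
  refine ⟨fun i j hij => ?_, fun i j hij => ?_, fun i j hij => ?_, fun i j hij => ?_⟩ <;>
    simp only [AlgHom.comp_apply, ← map_mul φ]
  · rw [h.uu _ _ hij]
  · rw [h.cc _ _ hij]
  · rw [h.cu _ _ hij]
  · rw [h.uc _ _ hij]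

section Constructions
variable {B B' : Type} [AddCommGroup B] [Module R B] [AddCommGroup B'] [Module R B']

namespace TM

/-- cups and caps out of range act by zero, and the levels span -/
structure Strict (T : TM B) : Prop where
  U0 : ∀ {l m : ℕ} {w : B}, m < l → w ∈ T.Lv m → T.ρ (U l) w = 0
  C0 : ∀ {l m : ℕ} {w : B}, m < l + 2 → w ∈ T.Lv m → T.ρ (C l) w = 0
  top : ⨆ m, T.Lv m = ⊤

/-- forget the `k` leftmost strands -/
def shift (T : TM B) (k : ℕ) : TM B where
  ρ := T.ρ.comp (shn k)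
  Lv m := T.Lv (m + k)
  wk := T.wk.shift k
  memU := by
    intro l m w h hw
    simpa [show m + 2 + k = m + k + 2 by omega] using T.memU (l := l + k) (by omega) hw
  memC := by
    intro l m w h hw
    rw [show m + 2 + k = m + k + 2 by omega] at hw
    simpa using T.memC (l := l + k) (by omega) hw
  loop := by intro l m w h hw; simpa using T.loop (l := l + k) (by omega) hw
  zig := by
    intro l m w h hw
    simpa [show l + 1 + k = l + k + 1 by omega] using T.zig (l := l + k) (by omega) hw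
  zag := by
    intro l m w h hw
    simpa [show l + 1 + k = l + k + 1 by omega] using T.zag (l := l + k) (by omega) hw

/-- forget the `k` rightmost strands -/
def up (T : TM B) (k : ℕ) : TM B where
  ρ := T.ρ
  Lv m := T.Lv (m + k)
  wk := T.wk
  memU := by
    intro l m w h hw
    simpa [show m + 2 + k = m + k + 2 by omega] using T.memU (l := l) (by omega) hw
  memC := by
    intro l m w h hw
    rw [show m + 2 + k = m + k + 2 by omega] at hw
    exact T.memC (by omega) hw
  loop := fun h hw => T.loop (by omega) hw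
  zig := fun h hw => T.zig (by omega) hw
  zag := fun h hw => T.zag (by omega) hw

def prod (T : TM B) (T' : TM B') : TM (B × B') where
  ρ := (LinearMap.prodMapAlgHom R B B').comp (T.ρ.prod T'.ρ)
  Lv m := (T.Lv m).prod (T'.Lv m)
  wk := by
    refine ⟨fun i j h => ?_, fun i j h => ?_, fun i j h => ?_, fun i j h => ?_⟩ <;>
      simp only [AlgHom.comp_apply, ← map_mul (LinearMap.prodMapAlgHom R B B'), AlgHom.prod_apply,
        Prod.mk_mul_mk]
    · rw [T.wk.uu _ _ h, T'.wk.uu _ _ h]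
    · rw [T.wk.cc _ _ h, T'.wk.cc _ _ h]
    · rw [T.wk.cu _ _ h, T'.wk.cu _ _ h]
    · rw [T.wk.uc _ _ h, T'.wk.uc _ _ h]
  memU := fun h hw => ⟨T.memU h hw.1, T'.memU h hw.2⟩
  memC := fun h hw => ⟨T.memC h hw.1, T'.memC h hw.2⟩
  loop := fun h hw => Prod.ext (T.loop h hw.1) (T'.loop h hw.2)
  zig := fun h hw => Prod.ext (T.zig h hw.1) (T'.zig h hw.2)
  zag := fun h hw => Prod.ext (T.zag h hw.1) (T'.zag h hw.2)

@[simp] theorem prod_ρ (T : TM B) (T' : TM B') (x : FA) (w : B × B') :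
    (T.prod T').ρ x w = (T.ρ x w.1, T'.ρ x w.2) := rfl

/-- componentwise action -/
def piHom (B I : Type) [AddCommGroup B] [Module R B] :
    Module.End R B →ₐ[R] Module.End R (I → B) where
  toFun x := x.compLeft I
  map_one' := rfl
  map_mul' _ _ := rfl
  map_zero' := rfl
  map_add' _ _ := rfl
  commutes' _ := rfl

def pi (T : TM B) (I : Type) : TM (I → B) where
  ρ := (piHom B I).comp T.ρ
  Lv m := Submodule.pi Set.univ fun _ => T.Lv m
  wk := T.wk.comp _
  memU := fun h hw i _ => T.memU h (hw i trivial)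
  memC := fun h hw i _ => T.memC h (hw i trivial)
  loop := fun h hw => funext fun i => T.loop h (hw i trivial)
  zig := fun h hw => funext fun i => T.zig h (hw i trivial)
  zag := fun h hw => funext fun i => T.zag h (hw i trivial)

@[simp] theorem pi_ρ (T : TM B) (I : Type) (x : FA) (w : I → B) (i : I) :
    (T.pi I).ρ x w i = T.ρ x (w i) := rfl

/-- restriction of an action to a stable submodule -/
def resHom (ρ : FA →ₐ[R] Module.End R B) (S : Submodule R B) (hS : ∀ x, ∀ w ∈ S, ρ x w ∈ S) :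
    FA →ₐ[R] Module.End R S where
  toFun x := (ρ x).restrict (hS x)
  map_one' := by ext w; simp
  map_mul' x y := by ext w; simp
  map_zero' := by ext w; simp
  map_add' x y := by ext w; simp
  commutes' r := by ext w; simp

@[simp] theorem resHom_coe (ρ : FA →ₐ[R] Module.End R B) (S : Submodule R B)
    (hS : ∀ x, ∀ w ∈ S, ρ x w ∈ S) (x : FA) (w : S) : (resHom ρ S hS x w : B) = ρ x w := rfl

/-- a stable submodule `S` with its own levels `N m` -/
def sub (T : TM B) (S : Submodule R B) (hS : ∀ x, ∀ w ∈ S, T.ρ x w ∈ S) (N : ℕ → Submodule R B)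
    (hN : ∀ m, N m ≤ T.Lv m)
    (hU : ∀ {l m : ℕ} {w : B}, l ≤ m → w ∈ N m → T.ρ (U l) w ∈ N (m + 2))
    (hC : ∀ {l m : ℕ} {w : B}, l ≤ m → w ∈ N (m + 2) → T.ρ (C l) w ∈ N m) : TM S where
  ρ := resHom T.ρ S hS
  Lv m := (N m).comap S.subtype
  wk := by
    refine ⟨fun i j h => ?_, fun i j h => ?_, fun i j h => ?_, fun i j h => ?_⟩ <;> ext w
    · exact congr($(T.wk.uu _ _ h) w)
    · exact congr($(T.wk.cc _ _ h) w)
    · exact congr($(T.wk.cu _ _ h) w)
    · exact congr($(T.wk.uc _ _ h) w)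
  memU := fun h hw => hU h hw
  memC := fun h hw => hC h hw
  loop := fun h hw => Subtype.ext (T.loop h (hN _ hw))
  zig := fun h hw => Subtype.ext (T.zig h (hN _ hw))
  zag := fun h hw => Subtype.ext (T.zag h (hN _ hw))

/-- action on the quotient by a stable submodule -/
def quoHom (ρ : FA →ₐ[R] Module.End R B) (S : Submodule R B) (hS : ∀ x, ∀ w ∈ S, ρ x w ∈ S) :
    FA →ₐ[R] Module.End R (B ⧸ S) where
  toFun x := S.mapQ S (ρ x) (hS x)
  map_one' := by ext w; simp
  map_mul' x y := by ext w; simp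
  map_zero' := by ext w; simp
  map_add' x y := by ext w; simp
  commutes' r := by ext w; simp

@[simp] theorem quoHom_mk (ρ : FA →ₐ[R] Module.End R B) (S : Submodule R B)
    (hS : ∀ x, ∀ w ∈ S, ρ x w ∈ S) (x : FA) (w : B) :
    quoHom ρ S hS x (S.mkQ w) = S.mkQ (ρ x w) := rfl

def quo (T : TM B) (S : Submodule R B) (hS : ∀ x, ∀ w ∈ S, T.ρ x w ∈ S) : TM (B ⧸ S) where
  ρ := quoHom T.ρ S hS
  Lv m := (T.Lv m).map S.mkQ
  wk := by
    refine ⟨fun i j h => ?_, fun i j h => ?_, fun i j h => ?_, fun i j h => ?_⟩ <;> ext w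
    · exact congr(S.mkQ ($(T.wk.uu _ _ h) w))
    · exact congr(S.mkQ ($(T.wk.cc _ _ h) w))
    · exact congr(S.mkQ ($(T.wk.cu _ _ h) w))
    · exact congr(S.mkQ ($(T.wk.uc _ _ h) w))
  memU := by rintro l m _ h ⟨w, hw, rfl⟩; exact ⟨_, T.memU h hw, rfl⟩
  memC := by rintro l m _ h ⟨w, hw, rfl⟩; exact ⟨_, T.memC h hw, rfl⟩
  loop := by
    rintro l m _ h ⟨w, hw, rfl⟩
    rw [quoHom_mk, quoHom_mk, T.loop h hw, map_smul]
  zig := by
    rintro l m _ h ⟨w, hw, rfl⟩
    rw [quoHom_mk, quoHom_mk, T.zig h hw]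
  zag := by
    rintro l m _ h ⟨w, hw, rfl⟩
    rw [quoHom_mk, quoHom_mk, T.zag h hw]

/-- an operator that commutes with the whole action and keeps the levels -/
def Natl (T : TM B) (x : Module.End R B) : Prop :=
  (∀ y, x * T.ρ y = T.ρ y * x) ∧ ∀ m, ∀ w ∈ T.Lv m, x w ∈ T.Lv m

theorem Natl.mul {T : TM B} {x y : Module.End R B} (hx : T.Natl x) (hy : T.Natl y) : T.Natl (x * y) :=
  ⟨fun z => by rw [mul_assoc, hy.1, ← mul_assoc, hx.1, mul_assoc],
    fun m w hw => hx.2 m _ (hy.2 m w hw)⟩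

theorem Natl.one (T : TM B) : T.Natl 1 := ⟨fun z => by simp, fun _ _ hw => hw⟩

/-- natural automorphisms -/
def natU (T : TM B) : Subgroup (Module.End R B)ˣ where
  carrier := {x | T.Natl x ∧ T.Natl ↑x⁻¹}
  mul_mem' := by
    rintro x y ⟨h₁, h₂⟩ ⟨h₃, h₄⟩
    exact ⟨by simpa using h₁.mul h₃, by simpa using h₄.mul h₂⟩
  one_mem' := ⟨by simpa using Natl.one T, by simpa using Natl.one T⟩
  inv_mem' := by rintro x ⟨h₁, h₂⟩; exact ⟨h₂, by simpa using h₁⟩

/-- the submodule of level `m` spanned by cups applied to the generators `g i` of level `lv i` -/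
def N (T : TM B) {I : Type} (g : I → B) (lv : I → ℕ) (m : ℕ) : Submodule R B :=
  Submodule.span R {y | ∃ i x, CupW (lv i) m x ∧ y = T.ρ x (g i)}

/-- the generators have the right levels and caps of generators are in the span -/
structure Fam (T : TM B) {I : Type} (g : I → B) (lv : I → ℕ) : Prop where
  mem : ∀ i, g i ∈ T.Lv (lv i)
  cap : ∀ i l n, lv i = n + 2 → l ≤ n → T.ρ (C l) (g i) ∈ T.N g lv n

/-- the submodule of level `m` generated by the `g i` -/
def Gn (T : TM B) {I : Type} (g : I → B) (lv : I → ℕ) (m : ℕ) : Submodule R B :=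
  Submodule.span R {y | ∃ i x, Loc (lv i) m x ∧ y = T.ρ x (g i)}

end TM

/-- a map of modules over the Temperley-Lieb category -/
structure GMap (T : TM B) (T' : TM B') (φ : B →ₗ[R] B') : Prop where
  mem : ∀ {m : ℕ} {w : B}, w ∈ T.Lv m → φ w ∈ T'.Lv m
  natU : ∀ {l m : ℕ} {w : B}, l ≤ m → w ∈ T.Lv m → φ (T.ρ (U l) w) = T'.ρ (U l) (φ w)
  natC : ∀ {l m : ℕ} {w : B}, l ≤ m → w ∈ T.Lv (m + 2) → φ (T.ρ (C l) w) = T'.ρ (C l) (φ w)

end Constructions

/-- `x` and `y` act in the same way on all large levels of all modules -/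
def StEq (x y : FA) : Prop :=
  ∃ M, ∀ (B : Type) [AddCommGroup B] [Module R B] (T : TM B) (m : ℕ), M ≤ m →
    ∀ w ∈ T.Lv m, T.ρ x w = T.ρ y w

theorem StEq.mul_right {x y : FA} (h : StEq x y) (z : FA) : StEq (x * z) (y * z) := by
  induction z using FreeAlgebra.induction generalizing x y with
  | grade0 r =>
    obtain ⟨M, h⟩ := h
    refine ⟨M, fun B _ _ T m hm w hw => ?_⟩
    simp [h B T m hm w hw]
  | grade1 g =>
    obtain ⟨M, h⟩ := h
    cases g with
    | u l =>
      refine ⟨M + l, fun B _ _ T m hm w hw => ?_⟩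
      simpa [U] using h B T (m + 2) (by omega) _ (T.memU (l := l) (by omega) hw)
    | c l =>
      refine ⟨M + l + 2, fun B _ _ T m hm w hw => ?_⟩
      obtain ⟨m, rfl⟩ : ∃ k, m = k + 2 := ⟨m - 2, by omega⟩
      simpa [C] using h B T m (by omega) _ (T.memC (l := l) (by omega) hw)
  | mul z₁ z₂ h₁ h₂ => simpa only [mul_assoc] using h₂ (h₁ h)
  | add z₁ z₂ h₁ h₂ =>
    obtain ⟨M₁, h₁⟩ := h₁ h
    obtain ⟨M₂, h₂⟩ := h₂ h
    refine ⟨M₁ + M₂, fun B _ _ T m hm w hw => ?_⟩
    simp only [mul_add, map_add, LinearMap.add_apply, h₁ B T m (by omega) w hw,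
      h₂ B T m (by omega) w hw]

theorem StEq.trans {x y z : FA} (h₁ : StEq x y) (h₂ : StEq y z) : StEq x z := by
  obtain ⟨M₁, h₁⟩ := h₁
  obtain ⟨M₂, h₂⟩ := h₂
  exact ⟨M₁ + M₂, fun B _ _ T m hm w hw =>
    (h₁ B T m (by omega) w hw).trans (h₂ B T m (by omega) w hw)⟩

/-- stable equality as a congruence -/
def TE : RingCon FA where
  r := StEq
  iseqv := ⟨fun _ => ⟨0, fun _ _ _ _ _ _ _ _ => rfl⟩,
    fun ⟨M, h⟩ => ⟨M, fun B _ _ T m hm w hw => (h B T m hm w hw).symm⟩, StEq.trans⟩
  mul' := by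
    intro w x y z h₁ h₂
    refine (StEq.mul_right h₁ y).trans ?_
    obtain ⟨M, h₂⟩ := h₂
    exact ⟨M, fun B _ _ T m hm v hv => by simp [h₂ B T m hm v hv]⟩
  add' := by
    rintro w x y z ⟨M₁, h₁⟩ ⟨M₂, h₂⟩
    exact ⟨M₁ + M₂, fun B _ _ T m hm v hv => by
      simp [h₁ B T m (by omega) v hv, h₂ B T m (by omega) v hv]⟩

/-- the Temperley-Lieb algebra on infinitely many strands -/
def TT : Type := TE.Quotient

instance : Ring TT := inferInstanceAs (Ring TE.Quotient)
instance : Algebra R TT := inferInstanceAs (Algebra R TE.Quotient)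

def mkT : FA →ₐ[R] TT := TE.mkₐ R

theorem mkT_eq_iff {x y : FA} : mkT x = mkT y ↔ StEq x y := TE.eq

/-! ### Words in two letters: `true` is `+`, `false` is `-` -/

/-- the numbers of `+` and `-` that remain after all pairs `- +` have been matched -/
def core : List Bool → ℕ × ℕ
  | [] => (0, 0)
  | true :: w => ((core w).1 + 1, (core w).2)
  | false :: w => if (core w).1 = 0 then (0, (core w).2 + 1) else ((core w).1 - 1, (core w).2)

/-- the cups of the matched pairs -/
def cups : List Bool → FA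
  | [] => 1
  | true :: w => shn 1 (cups w)
  | false :: w => if (core w).1 = 0 then shn 1 (cups w) else shn 1 (cups w) * U 0

/-- insert a matched pair at position `i` -/
def ins (i : ℕ) (w : List Bool) : List Bool := w.take i ++ false :: true :: w.drop i

def etaW (x y : ℕ) : List Bool := List.replicate x true ++ List.replicate y false

/-- number of `+` minus number of `-` -/
def wt : List Bool → ℤ
  | [] => 0
  | b :: w => (if b then 1 else -1) + wt w

/-! ### Expressions with one box -/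

def emb : FA →ₐ[R] PA := lift R fun
  | .u l => cup l
  | .c l => cap l

def bx (b : Box) : PA := ι R (.box b)

/-- `x` is a combination of Temperley-Lieb morphisms on top of one box, with `m` legs -/
def Rep (m : ℕ) : Submodule R PA :=
  Submodule.span R {x | ∃ y b, Loc (Box.legs b) m y ∧ x = emb y * bx b}

section Ev
variable {B : Type} [AddCommGroup B] [Module R B]

def evAct (ρ : FA →ₐ[R] Module.End R B) (g : Box → B) : PA →ₐ[R] Module.End R (B × R) :=
  lift R fun
    | .u l => (ρ (U l)).prodMap 0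
    | .c l => (ρ (C l)).prodMap 0
    | .box b => (LinearMap.inl R B R) ∘ₗ (LinearMap.toSpanSingleton R B (g b)) ∘ₗ
        LinearMap.snd R B R

/-- the value of an expression with one box when the box `b` is replaced by `g b` -/
def ev (ρ : FA →ₐ[R] Module.End R B) (g : Box → B) : PA →ₗ[R] B :=
  LinearMap.fst R B R ∘ₗ LinearMap.applyₗ ((0, 1) : B × R) ∘ₗ (evAct ρ g).toLinearMap

/-- the family `g` has the right levels and satisfies the relations of `L(p, q)` -/
structure TM.Boxes (T : TM B) (p q : ℕ) (g : Box → B) : Prop where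
  mem : ∀ b, g b ∈ T.Lv b.legs
  rel : ∀ x, BoxRel p q x → ev T.ρ g x = 0

end Ev

end Pool.Agent.P.MP_b3a239_gt
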