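import Pool.Agent.P.MP_b3a239_gt.TL

/-! Scalars, shifts, locality, far commutation. -/

set_option maxSynthPendingDepth 3

noncomputable section

namespace Pool.Agent.P.MP_b3a239_gt

theorem a_add (m n : ℤ) : a (m + n) = a m * a n := LaurentPolynomial.T_add m n
@[simp] theorem a_zero : a 0 = 1 := LaurentPolynomial.T_zero
theorem a_mul_neg (n : ℤ) : a n * a (-n) = 1 := by rw [← a_add, add_neg_cancel, a_zero]
theorem a_pow (m : ℤ) (n : ℕ) : a m ^ n = a (n * m) := LaurentPolynomial.T_pow m n
theorem isUnit_a (n : ℤ) : IsUnit (a n) := LaurentPolynomial.isUnit_T n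
theorem f_ne_zero (k : ℕ) : f k ≠ 0 := by
  intro h
  have h₁ : (a 0).coeff 0 = (a (4 * k + 4)).coeff 0 := by
    rw [a_zero, sub_eq_zero.1 h]
  rw [a, a, LaurentPolynomial.T_apply, LaurentPolynomial.T_apply, if_pos rfl,
    if_neg (by omega)] at h₁
  exact one_ne_zero h₁
theorem dd_ne_zero : dd ≠ 0 := by
  intro h
  have h₁ : (a 2 + a (-2)).coeff 2 = 0 := by rw [neg_eq_zero.1 h]; rfl
  simp [a] at h₁

@[simp] theorem shn_zero (x : FA) : shn 0 x = x := by
  have : shn 0 = AlgHom.id R FA := by
    ext g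
    cases g <;> simp [shn, U, C]
  rw [this]; rfl
theorem shn_shn (j k : ℕ) (x : FA) : shn j (shn k x) = shn (k + j) x := by
  have : (shn j).comp (shn k) = shn (k + j) := by
    ext g
    cases g with
    | u l => exact (congrArg (shn j) (shn_U k l)).trans (by rw [shn_U, add_assoc, ← shn_U]; rfl)
    | c l => exact (congrArg (shn j) (shn_C k l)).trans (by rw [shn_C, add_assoc, ← shn_C]; rfl)
  exact congr($this x)
theorem shn_sg (k : ℕ) (s : Bool) (l : ℕ) : shn k (sg s l) = sg s (l + k) := by simp [sg]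
theorem shn_pR (k : ℕ) (s : Bool) (i l : ℕ) : shn k (pR s i l) = pR s (i + k) l := by
  induction l with
  | zero => simp [pR]
  | succ l ih => rw [pR, pR, map_mul, ih, shn_sg, add_right_comm]
theorem shn_pL (k : ℕ) (s : Bool) (i l : ℕ) : shn k (pL s i l) = pL s (i + k) l := by
  induction l with
  | zero => simp [pL]
  | succ l ih => rw [pL, pL, map_mul, ih, shn_sg, add_right_comm]
theorem shn_fin (k : ℕ) (s : Bool) (i l : ℕ) : shn k (fin s i l) = fin s (i + k) l := by
  rw [fin, fin, map_mul, shn_pL, shn_pR]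
theorem pR_add (s : Bool) (i l k : ℕ) : pR s i (l + k) = pR s (i + l) k * pR s i l := by
  induction k with
  | zero => simp [pR]
  | succ k ih => rw [← add_assoc, pR, pR, ih, mul_assoc, add_assoc]
theorem pL_add (s : Bool) (i l k : ℕ) : pL s i (l + k) = pL s i l * pL s (i + l) k := by
  induction k with
  | zero => simp [pL]
  | succ k ih => rw [← add_assoc, pL, pL, ih, mul_assoc, add_assoc]
theorem pR_succ' (s : Bool) (i l : ℕ) : pR s i (l + 1) = pR s (i + 1) l * sg s i := by
  rw [add_comm l 1, pR_add]; simp [pR]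
theorem pL_succ' (s : Bool) (i l : ℕ) : pL s i (l + 1) = sg s i * pL s (i + 1) l := by
  rw [add_comm l 1, pL_add]; simp [pL]
theorem fin_succ (s : Bool) (i l : ℕ) : fin s i (l + 1) = sg s i * fin s (i + 1) l * sg s i := by
  simp only [fin, pR_succ', pL_succ', mul_assoc]
theorem cupC_succ' (l : ℕ) : cupC (l + 1) = shn 1 (cupC l) * U 0 := by
  induction l with
  | zero => simp [cupC]
  | succ l ih =>
    show U (l + 1) * cupC (l + 1) = shn 1 (U l * cupC l) * U 0
    rw [ih, map_mul, shn_U, mul_assoc]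
theorem capC_succ' (l : ℕ) : capC (l + 1) = C 0 * shn 1 (capC l) := by
  induction l with
  | zero => simp [capC]
  | succ l ih =>
    show capC (l + 1) * C (l + 1) = C 0 * shn 1 (capC l * C l)
    rw [ih, map_mul, shn_C, mul_assoc]
theorem capC_eq (l : ℕ) : capC l = capw (List.range l) := by
  induction l with
  | zero => rfl
  | succ l ih => simp [capC, ih, capw, List.range_succ]
@[simp] theorem capw_nil : capw [] = 1 := rfl
theorem capw_cons (i : ℕ) (d : List ℕ) : capw (i :: d) = C i * capw d := by simp [capw]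

section Loc
variable {m n m' n' k : ℕ} {x y : FA}

theorem Loc.cast (h : Loc m n x) (hm : m = m') (hn : n = n') : Loc m' n' x := hm ▸ hn ▸ h
theorem Loc.padR (h : Loc m n x) (j : ℕ) : Loc (m + j) (n + j) x := by
  induction h with
  | one m => exact .one _
  | u h => exact (Loc.u (by omega)).cast rfl (by omega)
  | c h => exact (Loc.c (by omega)).cast (by omega) rfl
  | mul _ _ h₁ h₂ => exact h₁.mul h₂
  | add _ _ h₁ h₂ => exact h₁.add h₂
  | smul c _ h => exact h.smul c
  | zero => exact .zero _ _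
theorem Loc.shn (h : Loc m n x) (j : ℕ) : Loc (m + j) (n + j) (shn j x) := by
  induction h with
  | one m => rw [map_one]; exact .one _
  | u h => rw [shn_U]; exact (Loc.u (by omega)).cast rfl (by omega)
  | c h => rw [shn_C]; exact (Loc.c (by omega)).cast (by omega) rfl
  | mul _ _ h₁ h₂ => rw [map_mul]; exact h₁.mul h₂
  | add _ _ h₁ h₂ => rw [map_add]; exact h₁.add h₂
  | smul c _ h => rw [map_smul]; exact h.smul c
  | zero => rw [map_zero]; exact .zero _ _
theorem Loc.neg (h : Loc m n x) : Loc m n (-x) := by simpa using h.smul (-1)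
theorem Loc.sub (h : Loc m n x) (h' : Loc m n y) : Loc m n (x - y) := by
  rw [sub_eq_add_neg]; exact h.add h'.neg
theorem Loc.sum {I : Type} (s : Finset I) (z : I → FA) (h : ∀ i ∈ s, Loc m n (z i)) :
    Loc m n (∑ i ∈ s, z i) :=
  Finset.sum_induction z (Loc m n) (fun _ _ => Loc.add) (.zero _ _) h
theorem Loc.eq_zero_of_odd (h : Loc m n x) (ho : (m + n) % 2 = 1) : x = 0 := by
  induction h with
  | one m => omega
  | u h => omega
  | c h => omega
  | @mul m n k x y _ _ h₁ h₂ =>
    by_cases hn : (n + k) % 2 = 1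
    · rw [h₁ hn, zero_mul]
    · rw [h₂ (by omega), mul_zero]
  | add _ _ h₁ h₂ => rw [h₁ ho, h₂ ho, add_zero]
  | smul c _ h => rw [h ho, smul_zero]
  | zero => rfl
theorem loc_sg (s : Bool) {i : ℕ} (h : i + 2 ≤ m) : Loc m m (sg s i) := by
  obtain ⟨m, rfl⟩ : ∃ k, m = k + 2 := ⟨m - 2, by omega⟩
  exact ((Loc.one _).smul _).add (((Loc.u (by omega)).mul (.c (by omega))).smul _)
theorem loc_pR (s : Bool) {i l : ℕ} (h : i + l + 1 ≤ m) : Loc m m (pR s i l) := by
  induction l with
  | zero => exact .one _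
  | succ l ih => exact (loc_sg s (by omega)).mul (ih (by omega))
theorem loc_pL (s : Bool) {i l : ℕ} (h : i + l + 1 ≤ m) : Loc m m (pL s i l) := by
  induction l with
  | zero => exact .one _
  | succ l ih => exact (ih (by omega)).mul (loc_sg s (by omega))
theorem loc_fin (s : Bool) {i l : ℕ} (h : i + l + 1 ≤ m) : Loc m m (fin s i l) :=
  (loc_pL s h).mul (loc_pR s h)
theorem loc_cupC (l m : ℕ) : Loc m (m + 2 * l) (cupC l) := by
  induction l with
  | zero => exact .one _
  | succ l ih => exact (Loc.u (m := m + 2 * l) (by omega)).mul ih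
theorem loc_capC (l m : ℕ) : Loc (m + 2 * l) m (capC l) := by
  induction l with
  | zero => exact .one _
  | succ l ih => exact ih.mul (Loc.c (m := m + 2 * l) (by omega))
theorem loc_tau {l : ℕ} (h : l + 2 ≤ m) : Loc (m + 2) m (tau l) :=
  ((loc_pL false (by omega)).mul (.c (by omega))).mul (loc_pR true (by omega))
theorem loc_RtF (k : ℕ) : Loc (2 * k) (2 * k + 2) (RtF k) :=
  (Loc.sum _ _ fun j hj => (Loc.u (by have := Finset.mem_range.1 hj; omega)).smul _).neg
theorem loc_TtF (k : ℕ) : Loc (2 * k) (2 * k + 2) (TtF k) := by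
  refine ((Loc.sum _ _ fun j hj => (Loc.u ?_).smul _).add
    (Loc.sum _ _ fun j hj => (Loc.u ?_).smul _)).add
    (Loc.sum _ _ fun i hi => Loc.sum _ _ fun j hj => Loc.smul _ ?_)
  · have := Finset.mem_range.1 hj; omega
  · have := Finset.mem_range.1 hj; omega
  · have h₁ := Finset.mem_range.1 hi
    have h₂ := Finset.mem_range.1 hj
    obtain ⟨k, rfl⟩ : ∃ k', k = k' + 1 := ⟨k - 1, by omega⟩
    exact ((Loc.u (m := 2 * k + 2) (by omega)).mul (.u (m := 2 * k) (by omega))).mul
      (.c (m := 2 * k) (by omega))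

theorem CupW.loc (h : CupW m n x) : Loc m n x := by
  induction h with
  | one => exact .one _
  | cons _ hi ih => exact (Loc.u hi).mul ih
theorem CupW.le (h : CupW m n x) : m ≤ n := by
  induction h with
  | one => exact le_rfl
  | cons _ _ ih => omega
theorem CupW.eq_one (h : CupW m m x) : x = 1 := by
  have : ∀ {n}, CupW m n x → n = m → x = 1 := by
    intro n h
    induction h with
    | one => intro _; rfl
    | cons h₁ _ _ => intro hn; have := h₁.le; omega
  exact this h rfl
theorem CupW.shn (h : CupW m n x) (j : ℕ) : CupW (m + j) (n + j) (shn j x) := by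
  induction h with
  | one => rw [map_one]; exact .one _
  | @cons n i x _ hi ih =>
    rw [map_mul, shn_U, show n + 2 + j = n + j + 2 by omega]
    exact ih.cons (by omega)
theorem CupW.mul (h : CupW n k y) (h' : CupW m n x) : CupW m k (y * x) := by
  induction h with
  | one => rwa [one_mul]
  | cons _ hi ih => rw [mul_assoc]; exact ih.cons hi

private theorem far_gen {A : Type} [Semiring A] [Algebra R A] {ρ : FA →ₐ[R] A} {z : A}
    (hU : ∀ i, z * ρ (U (i + m)) = ρ (U (i + n)) * z)
    (hC : ∀ i, z * ρ (C (i + m)) = ρ (C (i + n)) * z) (y : FA) :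
    z * ρ (shn m y) = ρ (shn n y) * z := by
  induction y using FreeAlgebra.induction with
  | grade0 r => simp [Algebra.commutes]
  | grade1 g =>
    cases g with
    | u i =>
      show z * ρ (shn m (U i)) = ρ (shn n (U i)) * z
      rw [shn_U, shn_U]; exact hU i
    | c i =>
      show z * ρ (shn m (C i)) = ρ (shn n (C i)) * z
      rw [shn_C, shn_C]; exact hC i
  | mul y₁ y₂ h₁ h₂ => simp only [map_mul]; rw [← mul_assoc, h₁, mul_assoc, h₂, mul_assoc]
  | add y₁ y₂ h₁ h₂ => simp only [map_add, mul_add, add_mul, h₁, h₂]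

/-- far commutation -/
theorem Wk.far {A : Type} [Semiring A] [Algebra R A] {ρ : FA →ₐ[R] A} (hρ : Wk ρ) (h : Loc m n x)
    (y : FA) : ρ x * ρ (shn m y) = ρ (shn n y) * ρ x := by
  induction h with
  | one m => simp
  | @u m j h =>
    exact far_gen (fun i => (hρ.uu j (i + m) (by omega)).symm)
      (fun i => (hρ.cu j (i + m) (by omega)).symm) y
  | @c m j h =>
    exact far_gen (fun i => hρ.uc j (i + m) (by omega))
      (fun i => (hρ.cc j (i + m) (by omega)).symm) y
  | mul _ _ h₁ h₂ => rw [map_mul, mul_assoc, h₂, ← mul_assoc, h₁, mul_assoc]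
  | add _ _ h₁ h₂ => rw [map_add, add_mul, mul_add, h₁, h₂]
  | smul c _ h => rw [map_smul, smul_mul_assoc, mul_smul_comm, h]
  | zero => simp

end Loc

end Pool.Agent.P.MP_b3a239_gt
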