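import Pool.Agent.P.MP_b3a239_gt.TLA

/-! Natural maps. -/

set_option maxSynthPendingDepth 3

noncomputable section

namespace Pool.Agent.P.MP_b3a239_gt

section Maps
variable {B B' B'' : Type} [AddCommGroup B] [Module R B] [AddCommGroup B'] [Module R B']
  [AddCommGroup B''] [Module R B''] {T : TM B} {T' : TM B'} {T'' : TM B''} {m n : ℕ} {x : FA}

theorem TM.mem (T : TM B) (h : Loc m n x) {w : B} (hw : w ∈ T.Lv m) : T.ρ x w ∈ T.Lv n := by
  induction h generalizing w with
  | one m => simpa using hw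
  | u hj => exact T.memU hj hw
  | c hj => exact T.memC hj hw
  | mul _ _ ih₁ ih₂ => rw [map_mul, Module.End.mul_apply]; exact ih₁ (ih₂ hw)
  | add _ _ ih₁ ih₂ => rw [map_add, LinearMap.add_apply]; exact add_mem (ih₁ hw) (ih₂ hw)
  | smul c _ ih => rw [map_smul, LinearMap.smul_apply]; exact Submodule.smul_mem _ _ (ih hw)
  | zero m n => simp

theorem GMap.nat {φ : B →ₗ[R] B'} (hφ : GMap T T' φ) (h : Loc m n x) {w : B} (hw : w ∈ T.Lv m) :
    φ (T.ρ x w) = T'.ρ x (φ w) := by
  induction h generalizing w with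
  | one m => simp
  | u hj => exact hφ.natU hj hw
  | c hj => exact hφ.natC hj hw
  | mul _ hx ih₁ ih₂ =>
    rw [map_mul, map_mul, Module.End.mul_apply, Module.End.mul_apply, ih₁ (T.mem hx hw), ih₂ hw]
  | add _ _ ih₁ ih₂ =>
    rw [map_add, map_add T'.ρ, LinearMap.add_apply, LinearMap.add_apply, map_add, ih₁ hw, ih₂ hw]
  | smul c _ ih =>
    rw [map_smul, map_smul T'.ρ, LinearMap.smul_apply, LinearMap.smul_apply, map_smul, ih hw]
  | zero m n => simp

theorem GMap.id (T : TM B) : GMap T T LinearMap.id := ⟨fun h => h, fun _ _ => rfl, fun _ _ => rfl⟩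
theorem GMap.comp {φ : B →ₗ[R] B'} {ψ : B' →ₗ[R] B''} (hψ : GMap T' T'' ψ) (hφ : GMap T T' φ) :
    GMap T T'' (ψ ∘ₗ φ) :=   ⟨fun h => hψ.mem (hφ.mem h),
    fun hl hw => by
      rw [LinearMap.comp_apply, LinearMap.comp_apply, hφ.natU hl hw, hψ.natU hl (hφ.mem hw)],
    fun hl hw => by
      rw [LinearMap.comp_apply, LinearMap.comp_apply, hφ.natC hl hw, hψ.natC hl (hφ.mem hw)]⟩
theorem GMap.add {φ ψ : B →ₗ[R] B'} (hφ : GMap T T' φ) (hψ : GMap T T' ψ) : GMap T T' (φ + ψ) :=   ⟨fun h => add_mem (hφ.mem h) (hψ.mem h),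
    fun hl hw => by simp only [LinearMap.add_apply, map_add, hφ.natU hl hw, hψ.natU hl hw],
    fun hl hw => by simp only [LinearMap.add_apply, map_add, hφ.natC hl hw, hψ.natC hl hw]⟩
theorem GMap.sub {φ ψ : B →ₗ[R] B'} (hφ : GMap T T' φ) (hψ : GMap T T' ψ) : GMap T T' (φ - ψ) :=   ⟨fun h => sub_mem (hφ.mem h) (hψ.mem h),
    fun hl hw => by simp only [LinearMap.sub_apply, map_sub, hφ.natU hl hw, hψ.natU hl hw],
    fun hl hw => by simp only [LinearMap.sub_apply, map_sub, hφ.natC hl hw, hψ.natC hl hw]⟩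
theorem GMap.neg {φ : B →ₗ[R] B'} (hφ : GMap T T' φ) : GMap T T' (-φ) :=   ⟨fun h => neg_mem (hφ.mem h),
    fun hl hw => by simp only [LinearMap.neg_apply, map_neg, hφ.natU hl hw],
    fun hl hw => by simp only [LinearMap.neg_apply, map_neg, hφ.natC hl hw]⟩
theorem GMap.smul {φ : B →ₗ[R] B'} (hφ : GMap T T' φ) (c : R) : GMap T T' (c • φ) :=   ⟨fun h => Submodule.smul_mem _ c (hφ.mem h),
    fun hl hw => by simp only [LinearMap.smul_apply, map_smul, hφ.natU hl hw],
    fun hl hw => by simp only [LinearMap.smul_apply, map_smul, hφ.natC hl hw]⟩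
theorem GMap.zero (T : TM B) (T' : TM B') : GMap T T' 0 :=   ⟨fun _ => zero_mem _, fun _ _ => by simp, fun _ _ => by simp⟩
theorem GMap.shift {φ : B →ₗ[R] B'} (hφ : GMap T T' φ) (k : ℕ) :
    GMap (T.shift k) (T'.shift k) φ :=   ⟨fun h => hφ.mem h,
    fun {l m w} hl hw => by
      have := hφ.natU (l := l + k) (m := m + k) (by omega) hw
      simpa [TM.shift] using this,
    fun {l m w} hl hw => by
      have hw' : w ∈ T.Lv (m + k + 2) := by
        rw [show m + k + 2 = m + 2 + k by omega]; exact hw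
      have := hφ.natC (l := l + k) (m := m + k) (by omega) hw'
      simpa [TM.shift] using this⟩
theorem GMap.pi {I : Type} {φ : I → B →ₗ[R] B'} (hφ : ∀ i, GMap T T' (φ i)) :
    GMap T (T'.pi I) (LinearMap.pi φ) :=   ⟨fun h i _ => (hφ i).mem h,
    fun hl hw => funext fun i => (hφ i).natU hl hw,
    fun hl hw => funext fun i => (hφ i).natC hl hw⟩
theorem GMap.proj {I : Type} (T : TM B) (i : I) : GMap (T.pi I) T (LinearMap.proj i) :=   ⟨fun h => h i trivial, fun _ _ => rfl, fun _ _ => rfl⟩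
theorem TM.Natl.gmap {z : Module.End R B} (h : T.Natl z) : GMap T T z :=   ⟨fun hw => h.2 _ _ hw, fun {l _ w} _ _ => congr($(h.1 (U l)) w),
    fun {l _ w} _ _ => congr($(h.1 (C l)) w)⟩
theorem TM.Natl.add {z z' : Module.End R B} (h : T.Natl z) (h' : T.Natl z') : T.Natl (z + z') :=   ⟨fun y => by rw [add_mul, mul_add, h.1, h'.1],
    fun m w hw => add_mem (h.2 m w hw) (h'.2 m w hw)⟩
theorem TM.Natl.smul {z : Module.End R B} (h : T.Natl z) (c : R) : T.Natl (c • z) :=   ⟨fun y => by rw [smul_mul_assoc, mul_smul_comm, h.1],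
    fun m w hw => Submodule.smul_mem _ c (h.2 m w hw)⟩
theorem TM.Natl.aeval {z : Module.End R B} (h : T.Natl z) (P : Polynomial R) :
    T.Natl (Polynomial.aeval z P) := by
  induction P using Polynomial.induction_on' with
  | add p q hp hq => rw [map_add]; exact hp.add hq
  | monomial n c =>
    rw [Polynomial.aeval_monomial, Algebra.algebraMap_eq_smul_one, smul_mul_assoc, one_mul]
    refine TM.Natl.smul ?_ c
    induction n with
    | zero => simpa using TM.Natl.one T
    | succ n ih => rw [pow_succ]; exact ih.mul h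
/-- it is enough to commute with cups and caps -/
theorem TM.natl_of {z : Module.End R B} (hU : ∀ l, z * T.ρ (U l) = T.ρ (U l) * z)
    (hC : ∀ l, z * T.ρ (C l) = T.ρ (C l) * z) (hm : ∀ m, ∀ w ∈ T.Lv m, z w ∈ T.Lv m) : T.Natl z := by
  refine ⟨fun y => ?_, hm⟩
  induction y using FreeAlgebra.induction with
  | grade0 r => rw [AlgHom.commutes]; exact (Algebra.commutes r z).symm
  | grade1 g =>
    cases g with
    | u l => exact hU l
    | c l => exact hC l
  | mul y₁ y₂ h₁ h₂ => rw [map_mul, ← mul_assoc, h₁, mul_assoc, h₂, mul_assoc]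
  | add y₁ y₂ h₁ h₂ => rw [map_add, mul_add, add_mul, h₁, h₂]
private theorem TLB_nat_aux {φ : B →ₗ[R] B'} {k : ℕ} (hφ : GMap T (T'.shift k) φ) (hT : T.Strict)
    (hT' : T'.Strict) (x : FA) (w : B) : φ (T.ρ x w) = T'.ρ (shn k x) (φ w) := by
  have top : ∀ w : B, w ∈ ⨆ m, T.Lv m := fun w => by rw [hT.top]; trivial
  induction x using FreeAlgebra.induction generalizing w with
  | grade0 r =>
    rw [AlgHom.commutes, AlgHom.commutes, AlgHom.commutes, Module.algebraMap_end_apply,
      Module.algebraMap_end_apply, map_smul]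
  | grade1 g =>
    have hw := top w
    cases g with
    | u l =>
      change φ (T.ρ (U l) w) = T'.ρ (shn k (U l)) (φ w)
      induction hw using Submodule.iSup_induction' with
      | mem m w hw =>
        by_cases hl : l ≤ m
        · exact hφ.natU hl hw
        · rw [hT.U0 (by omega) hw, shn_U, hT'.U0 (m := m + k) (by omega) (hφ.mem hw), map_zero]
      | zero => simp
      | add w₁ w₂ _ _ h₁ h₂ => simp only [map_add, h₁, h₂]
    | c l =>
      change φ (T.ρ (C l) w) = T'.ρ (shn k (C l)) (φ w)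
      induction hw using Submodule.iSup_induction' with
      | mem m w hw =>
        by_cases hl : l + 2 ≤ m
        · obtain ⟨m, rfl⟩ : ∃ j, m = j + 2 := ⟨m - 2, by omega⟩
          exact hφ.natC (by omega) hw
        · rw [hT.C0 (by omega) hw, shn_C, hT'.C0 (m := m + k) (by omega) (hφ.mem hw), map_zero]
      | zero => simp
      | add w₁ w₂ _ _ h₁ h₂ => simp only [map_add, h₁, h₂]
  | mul y₁ y₂ h₁ h₂ =>
    rw [map_mul, map_mul, map_mul, Module.End.mul_apply, Module.End.mul_apply, h₁, h₂]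
  | add y₁ y₂ h₁ h₂ =>
    rw [map_add, map_add (shn k), map_add T'.ρ, LinearMap.add_apply, LinearMap.add_apply, map_add,
      h₁, h₂]

/-- between strict modules a natural map commutes with everything -/
theorem GMap.nat' {φ : B →ₗ[R] B'} (hφ : GMap T T' φ) (hT : T.Strict) (hT' : T'.Strict) (x : FA)
    (w : B) : φ (T.ρ x w) = T'.ρ x (φ w) := by
  simpa using TLB_nat_aux (k := 0) (T' := T') (φ := φ)
    ⟨fun h => hφ.mem h, fun hl hw => by simpa [TM.shift] using hφ.natU hl hw,
      fun hl hw => by simpa [TM.shift] using hφ.natC hl hw⟩ hT hT' x w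
theorem GMap.nat_shift {φ : B →ₗ[R] B'} {k : ℕ} (hφ : GMap T (T'.shift k) φ) (hT : T.Strict)
    (hT' : T'.Strict) (x : FA) (w : B) : φ (T.ρ x w) = T'.ρ (shn k x) (φ w) := TLB_nat_aux hφ hT hT' x w
/-- a submodule that is stable under all cups and caps is stable under everything -/
theorem stable_of {ρ : FA →ₐ[R] Module.End R B} {S : Submodule R B}
    (hU : ∀ l, ∀ w ∈ S, ρ (U l) w ∈ S) (hC : ∀ l, ∀ w ∈ S, ρ (C l) w ∈ S) (x : FA) :
    ∀ w ∈ S, ρ x w ∈ S := by
  induction x using FreeAlgebra.induction with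
  | grade0 r =>
    intro w hw
    rw [AlgHom.commutes, Module.algebraMap_end_apply]
    exact S.smul_mem r hw
  | grade1 g =>
    cases g with
    | u l => exact hU l
    | c l => exact hC l
  | mul y₁ y₂ h₁ h₂ =>
    intro w hw
    rw [map_mul, Module.End.mul_apply]
    exact h₁ _ (h₂ w hw)
  | add y₁ y₂ h₁ h₂ =>
    intro w hw
    rw [map_add, LinearMap.add_apply]
    exact add_mem (h₁ w hw) (h₂ w hw)
/-- in a strict module the sum of a family of levels that is stable in range is stable -/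
theorem TM.Strict.stable (hT : T.Strict) {N : ℕ → Submodule R B} (hN : ∀ m, N m ≤ T.Lv m)
    (hU : ∀ {l m : ℕ} {w : B}, l ≤ m → w ∈ N m → T.ρ (U l) w ∈ N (m + 2))
    (hC : ∀ {l m : ℕ} {w : B}, l ≤ m → w ∈ N (m + 2) → T.ρ (C l) w ∈ N m) (x : FA) :
    ∀ w ∈ ⨆ m, N m, T.ρ x w ∈ ⨆ m, N m := by
  refine stable_of (fun l w hw => ?_) (fun l w hw => ?_) x
  · induction hw using Submodule.iSup_induction' with
    | mem m w hw =>
      by_cases hl : l ≤ m
      · exact Submodule.mem_iSup_of_mem _ (hU hl hw)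
      · rw [hT.U0 (by omega) (hN m hw)]; exact zero_mem _
    | zero => simp
    | add w₁ w₂ _ _ h₁ h₂ => rw [map_add]; exact add_mem h₁ h₂
  · induction hw using Submodule.iSup_induction' with
    | mem m w hw =>
      by_cases hl : l + 2 ≤ m
      · obtain ⟨m, rfl⟩ : ∃ k, m = k + 2 := ⟨m - 2, by omega⟩
        exact Submodule.mem_iSup_of_mem _ (hC (by omega) hw)
      · rw [hT.C0 (by omega) (hN m hw)]; exact zero_mem _
    | zero => simp
    | add w₁ w₂ _ _ h₁ h₂ => rw [map_add]; exact add_mem h₁ h₂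

end Maps

end Pool.Agent.P.MP_b3a239_gt
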