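import Pool.Agent.P.MP_b3a239_gt.Open

/-! Towers of modules indexed by the number of marks and operators between consecutive floors. -/

set_option maxSynthPendingDepth 3

open FreeAlgebra

noncomputable section

namespace Pool.Agent.P.MP_b3a239_gt

/-- `Cp m j` is the part with `m` strands and `j` marks, `pr j` the projection to `j` marks -/
structure GT (O : Type) [AddCommGroup O] [Module R O] where
  ρ : FA →ₐ[R] Module.End R O
  Cp : ℕ → ℕ → Submodule R O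
  pr : ℕ → Module.End R O
  wk : Wk ρ
  memU : ∀ {l m j : ℕ} {w : O}, l ≤ m → w ∈ Cp m j → ρ (U l) w ∈ Cp (m + 2) j
  memC : ∀ {l m j : ℕ} {w : O}, l ≤ m → w ∈ Cp (m + 2) j → ρ (C l) w ∈ Cp m j
  loop : ∀ {l m j : ℕ} {w : O}, l ≤ m → w ∈ Cp m j → ρ (C l) (ρ (U l) w) = dd • w
  zig : ∀ {l m j : ℕ} {w : O}, l + 1 ≤ m → w ∈ Cp m j → ρ (C (l + 1)) (ρ (U l) w) = w
  zag : ∀ {l m j : ℕ} {w : O}, l + 1 ≤ m → w ∈ Cp m j → ρ (C l) (ρ (U (l + 1)) w) = w
  U0 : ∀ {l m j : ℕ} {w : O}, m < l → w ∈ Cp m j → ρ (U l) w = 0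
  C0 : ∀ {l m j : ℕ} {w : O}, m < l + 2 → w ∈ Cp m j → ρ (C l) w = 0
  top : ⨆ t : ℕ × ℕ, Cp t.1 t.2 = ⊤
  pr_eq : ∀ {m j j' : ℕ} {w : O}, w ∈ Cp m j' → pr j w = if j' = j then w else 0

namespace GT
variable {O : Type} [AddCommGroup O] [Module R O] (Γ : GT O)

def tm (j : ℕ) : TM O where
  ρ := Γ.ρ
  Lv m := Γ.Cp m j
  wk := Γ.wk
  memU := Γ.memU
  memC := Γ.memC
  loop := Γ.loop
  zig := Γ.zig
  zag := Γ.zag

theorem ext {B : Type} [AddCommGroup B] [Module R B] {φ ψ : O →ₗ[R] B}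
    (h : ∀ m j, ∀ w ∈ Γ.Cp m j, φ w = ψ w) : φ = ψ := by
  refine LinearMap.ext fun w => ?_
  have hw : w ∈ ⨆ t : ℕ × ℕ, Γ.Cp t.1 t.2 := by rw [Γ.top]; trivial
  have hle : (⨆ t : ℕ × ℕ, Γ.Cp t.1 t.2) ≤ LinearMap.eqLocus φ ψ :=
    iSup_le fun t v hv => h t.1 t.2 v hv
  exact hle hw

theorem Tower1_exU (l : ℕ) {m j : ℕ} {w : O} (hw : w ∈ Γ.Cp m j) :
    ∃ m', Γ.ρ (U l) w ∈ Γ.Cp m' j := by
  by_cases h : l ≤ m
  · exact ⟨_, Γ.memU h hw⟩
  · rw [Γ.U0 (by omega) hw]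
    exact ⟨0, zero_mem _⟩

theorem Tower1_exC (l : ℕ) {m j : ℕ} {w : O} (hw : w ∈ Γ.Cp m j) :
    ∃ m', Γ.ρ (C l) w ∈ Γ.Cp m' j := by
  by_cases h : l + 2 ≤ m
  · obtain ⟨m', rfl⟩ : ∃ m', m = m' + 2 := ⟨m - 2, by omega⟩
    exact ⟨_, Γ.memC (by omega) hw⟩
  · rw [Γ.C0 (by omega) hw]
    exact ⟨0, zero_mem _⟩

theorem Tower1_pr (j : ℕ) (z : Module.End R O)
    (hz : ∀ m j', ∀ w ∈ Γ.Cp m j', ∃ m', z w ∈ Γ.Cp m' j') : Γ.pr j * z = z * Γ.pr j := by
  refine Γ.ext fun m j' w hw => ?_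
  obtain ⟨m', h'⟩ := hz m j' w hw
  rw [Module.End.mul_apply, Module.End.mul_apply, Γ.pr_eq hw, Γ.pr_eq h']
  split_ifs
  · rfl
  · rw [map_zero]

theorem pr_comm (j : ℕ) (x : FA) : Γ.pr j * Γ.ρ x = Γ.ρ x * Γ.pr j := by
  induction x using FreeAlgebra.induction with
  | grade0 r => rw [AlgHom.commutes]; exact (Algebra.commutes r _).symm
  | grade1 g =>
    cases g with
    | u l => exact Γ.Tower1_pr j _ fun m j' w hw => Γ.Tower1_exU l hw
    | c l => exact Γ.Tower1_pr j _ fun m j' w hw => Γ.Tower1_exC l hw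
  | mul x y hx hy => rw [map_mul, ← mul_assoc, hx, mul_assoc, hy, mul_assoc]
  | add x y hx hy => rw [map_add, mul_add, add_mul, hx, hy]

/-- operators from `j` to `j + 1` marks that create `k` strands on the left -/
def homLv (j k : ℕ) : Submodule R (Module.End R O) where
  carrier := {φ | (∀ m j', j' ≠ j → ∀ w ∈ Γ.Cp m j', φ w = 0) ∧
    (∀ m, ∀ w ∈ Γ.Cp m j, φ w ∈ Γ.Cp (m + k) (j + 1)) ∧ ∀ x, φ * Γ.ρ x = Γ.ρ (shn k x) * φ}
  add_mem' := by
    rintro φ ψ ⟨h₁, h₂, h₃⟩ ⟨h₄, h₅, h₆⟩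
    exact ⟨fun m j' h w hw => by simp [h₁ m j' h w hw, h₄ m j' h w hw],
      fun m w hw => add_mem (h₂ m w hw) (h₅ m w hw), fun x => by rw [add_mul, mul_add, h₃, h₆]⟩
  zero_mem' := ⟨fun _ _ _ _ _ => rfl, fun _ _ _ => zero_mem _, fun x => by simp⟩
  smul_mem' := by
    rintro c φ ⟨h₁, h₂, h₃⟩
    exact ⟨fun m j' h w hw => by simp [h₁ m j' h w hw],
      fun m w hw => Submodule.smul_mem _ c (h₂ m w hw),
      fun x => by rw [smul_mul_assoc, mul_smul_comm, h₃]⟩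

theorem mem_homLv {j k : ℕ} {φ : Module.End R O} : φ ∈ Γ.homLv j k ↔
    (∀ m j', j' ≠ j → ∀ w ∈ Γ.Cp m j', φ w = 0) ∧
    (∀ m, ∀ w ∈ Γ.Cp m j, φ w ∈ Γ.Cp (m + k) (j + 1)) ∧ ∀ x, φ * Γ.ρ x = Γ.ρ (shn k x) * φ :=
  Iff.rfl

def homρ : FA →ₐ[R] Module.End R (Module.End R O) :=
  (Algebra.lmul R (Module.End R O)).comp Γ.ρ

theorem homρ_apply (x : FA) (φ : Module.End R O) : Γ.homρ x φ = Γ.ρ x * φ := rfl

theorem hom_memU {j l k : ℕ} {φ : Module.End R O} (h : l ≤ k) (hφ : φ ∈ Γ.homLv j k) :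
    Γ.homρ (U l) φ ∈ Γ.homLv j (k + 2) := by
  obtain ⟨h₁, h₂, h₃⟩ := hφ
  rw [homρ_apply]
  refine ⟨fun m j' hj w hw => ?_, fun m w hw => ?_, fun x => ?_⟩
  · rw [Module.End.mul_apply, h₁ m j' hj w hw, map_zero]
  · exact Γ.memU (m := m + k) (by omega) (h₂ m w hw)
  · rw [mul_assoc, h₃, ← mul_assoc, Γ.wk.far (Loc.u h), mul_assoc]
theorem hom_memC {j l k : ℕ} {φ : Module.End R O} (h : l ≤ k) (hφ : φ ∈ Γ.homLv j (k + 2)) :
    Γ.homρ (C l) φ ∈ Γ.homLv j k := by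
  obtain ⟨h₁, h₂, h₃⟩ := hφ
  rw [homρ_apply]
  refine ⟨fun m j' hj w hw => ?_, fun m w hw => ?_, fun x => ?_⟩
  · rw [Module.End.mul_apply, h₁ m j' hj w hw, map_zero]
  · exact Γ.memC (m := m + k) (by omega) (h₂ m w hw)
  · rw [mul_assoc, h₃, ← mul_assoc, Γ.wk.far (Loc.c h), mul_assoc]
theorem hom_loop {j l k : ℕ} {φ : Module.End R O} (h : l ≤ k) (hφ : φ ∈ Γ.homLv j k) :
    Γ.homρ (C l) (Γ.homρ (U l) φ) = dd • φ := by
  obtain ⟨h₁, h₂, -⟩ := hφ
  refine Γ.ext fun m j' w hw => ?_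
  change Γ.ρ (C l) (Γ.ρ (U l) (φ w)) = dd • φ w
  by_cases hj : j' = j
  · subst hj
    exact Γ.loop (by omega) (h₂ m w hw)
  · rw [h₁ m j' hj w hw, map_zero, map_zero, smul_zero]
theorem hom_zig {j l k : ℕ} {φ : Module.End R O} (h : l + 1 ≤ k) (hφ : φ ∈ Γ.homLv j k) :
    Γ.homρ (C (l + 1)) (Γ.homρ (U l) φ) = φ := by
  obtain ⟨h₁, h₂, -⟩ := hφ
  refine Γ.ext fun m j' w hw => ?_
  change Γ.ρ (C (l + 1)) (Γ.ρ (U l) (φ w)) = φ w
  by_cases hj : j' = j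
  · subst hj
    exact Γ.zig (by omega) (h₂ m w hw)
  · rw [h₁ m j' hj w hw, map_zero, map_zero]
theorem hom_zag {j l k : ℕ} {φ : Module.End R O} (h : l + 1 ≤ k) (hφ : φ ∈ Γ.homLv j k) :
    Γ.homρ (C l) (Γ.homρ (U (l + 1)) φ) = φ := by
  obtain ⟨h₁, h₂, -⟩ := hφ
  refine Γ.ext fun m j' w hw => ?_
  change Γ.ρ (C l) (Γ.ρ (U (l + 1)) (φ w)) = φ w
  by_cases hj : j' = j
  · subst hj
    exact Γ.zag (by omega) (h₂ m w hw)
  · rw [h₁ m j' hj w hw, map_zero, map_zero]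

def hom (j : ℕ) : TM (Module.End R O) where
  ρ := Γ.homρ
  Lv := Γ.homLv j
  wk := Γ.wk.comp _
  memU := Γ.hom_memU
  memC := Γ.hom_memC
  loop := Γ.hom_loop
  zig := Γ.hom_zig
  zag := Γ.hom_zag

theorem hom_ρ (j : ℕ) (x : FA) (φ : Module.End R O) : (Γ.hom j).ρ x φ = Γ.ρ x * φ := rfl
theorem hom_Lv (j k : ℕ) : (Γ.hom j).Lv k = Γ.homLv j k := rfl

/-- operators of some level are determined on the floor `j` -/
theorem hom_ext {j k k' : ℕ} {φ ψ : Module.End R O} (hφ : φ ∈ Γ.homLv j k) (hψ : ψ ∈ Γ.homLv j k')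
    (h : ∀ m, ∀ w ∈ Γ.Cp m j, φ w = ψ w) : φ = ψ := by
  refine Γ.ext fun m j' w hw => ?_
  by_cases hj : j' = j
  · subst hj
    exact h m w hw
  · rw [hφ.1 m j' hj w hw, hψ.1 m j' hj w hw]

end GT

/-- a tower from open words in which two families of slices are cups and caps -/
structure CupCap {σ : Type} (step : σ → ℕ × ℕ → Option (ℕ × ℕ))
    (rel : ℕ → ℕ → FreeAlgebra R σ → Prop) (mk : σ → Bool) (u c : ℕ → σ) : Prop where
  marked : Marked step rel mk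
  stepU : ∀ l m j, step (u l) (m, j) = if l ≤ m then some (m + 2, j) else none
  stepC : ∀ l m j, step (c l) (m, j) = if l + 2 ≤ m then some (m - 2, j) else none
  uu : ∀ i l m j, i ≤ l → l ≤ m →
    ∀ y ∈ Cp step rel (m, j), lm step rel (wd [u (l + 2), u i]) y = lm step rel (wd [u i, u l]) y
  cc : ∀ i l m j, i ≤ l → l + 4 ≤ m →
    ∀ y ∈ Cp step rel (m, j), lm step rel (wd [c l, c i]) y = lm step rel (wd [c i, c (l + 2)]) y
  cu : ∀ i l m j, i ≤ l → l + 2 ≤ m →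
    ∀ y ∈ Cp step rel (m, j), lm step rel (wd [c (l + 2), u i]) y = lm step rel (wd [u i, c l]) y
  uc : ∀ i l m j, i ≤ l → l + 2 ≤ m →
    ∀ y ∈ Cp step rel (m, j), lm step rel (wd [c i, u (l + 2)]) y = lm step rel (wd [u l, c i]) y
  loop : ∀ l m j, l ≤ m → ∀ y ∈ Cp step rel (m, j), lm step rel (wd [c l, u l]) y = dd • y
  zig : ∀ l m j, l + 1 ≤ m → ∀ y ∈ Cp step rel (m, j), lm step rel (wd [c (l + 1), u l]) y = y
  zag : ∀ l m j, l + 1 ≤ m → ∀ y ∈ Cp step rel (m, j), lm step rel (wd [c l, u (l + 1)]) y = y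

section
variable {σ : Type} {step : σ → ℕ × ℕ → Option (ℕ × ℕ)}
  {rel : ℕ → ℕ → FreeAlgebra R σ → Prop} {mk : σ → Bool} {u c : ℕ → σ}

theorem Tower1_wd2 (s t : σ) (y : Op step rel) :
    lm step rel (wd [s, t]) y = lm step rel (ι R s) (lm step rel (ι R t) y) := by
  rw [wd_cons, wd_cons, wd_nil, mul_one, map_mul, Module.End.mul_apply]

theorem Tower1_ext {φ ψ : Module.End R (Op step rel)}
    (h : ∀ m j, ∀ w ∈ Cp step rel (m, j), φ w = ψ w) : φ = ψ := by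
  refine LinearMap.ext fun w => ?_
  have hw : w ∈ ⨆ t : ℕ × ℕ, Cp step rel t := by rw [Cp_top]; trivial
  have hle : (⨆ t : ℕ × ℕ, Cp step rel t) ≤ LinearMap.eqLocus φ ψ :=
    iSup_le fun t v hv => h t.1 t.2 v hv
  exact hle hw

theorem CupCap.Tower1_memU (h : CupCap step rel mk u c) {l m j : ℕ} {y : Op step rel}
    (hl : l ≤ m) (hy : y ∈ Cp step rel (m, j)) :
    lm step rel (ι R (u l)) y ∈ Cp step rel (m + 2, j) :=
  lm_mem (by rw [h.stepU, if_pos hl]) hy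

theorem CupCap.Tower1_memC (h : CupCap step rel mk u c) {l m j : ℕ} {y : Op step rel}
    (hl : l + 2 ≤ m) (hy : y ∈ Cp step rel (m, j)) :
    lm step rel (ι R (c l)) y ∈ Cp step rel (m - 2, j) :=
  lm_mem (by rw [h.stepC, if_pos hl]) hy

theorem CupCap.Tower1_U0 (h : CupCap step rel mk u c) {l m j : ℕ} {y : Op step rel}
    (hl : m < l) (hy : y ∈ Cp step rel (m, j)) : lm step rel (ι R (u l)) y = 0 :=
  lm_none (by rw [h.stepU, if_neg (by omega)]) hy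

theorem CupCap.Tower1_C0 (h : CupCap step rel mk u c) {l m j : ℕ} {y : Op step rel}
    (hl : m < l + 2) (hy : y ∈ Cp step rel (m, j)) : lm step rel (ι R (c l)) y = 0 :=
  lm_none (by rw [h.stepC, if_neg (by omega)]) hy

theorem CupCap.Tower1_wk (h : CupCap step rel mk u c) {ρ : FA →ₐ[R] Module.End R (Op step rel)}
    (hU : ∀ l, ρ (U l) = lm step rel (ι R (u l))) (hC : ∀ l, ρ (C l) = lm step rel (ι R (c l))) :
    Wk ρ := by
  refine ⟨fun i l hi => ?_, fun i l hi => ?_, fun i l hi => ?_, fun i l hi => ?_⟩ <;>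
    refine Tower1_ext fun m j y hy => ?_ <;>
    simp only [hU, hC, Module.End.mul_apply]
  · by_cases hl : l ≤ m
    · simpa only [Tower1_wd2] using h.uu i l m j hi hl y hy
    · rw [h.Tower1_U0 (l := l) (by omega) hy, map_zero]
      by_cases hm : i ≤ m
      · exact h.Tower1_U0 (by omega) (h.Tower1_memU hm hy)
      · rw [h.Tower1_U0 (l := i) (by omega) hy, map_zero]
  · by_cases hl : l + 4 ≤ m
    · simpa only [Tower1_wd2] using h.cc i l m j hi hl y hy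
    · rw [h.Tower1_C0 (l := l + 2) (by omega) hy, map_zero]
      by_cases hm : i + 2 ≤ m
      · exact h.Tower1_C0 (by omega) (h.Tower1_memC hm hy)
      · rw [h.Tower1_C0 (l := i) (by omega) hy, map_zero]
  · by_cases hl : l + 2 ≤ m
    · simpa only [Tower1_wd2] using h.cu i l m j hi hl y hy
    · rw [h.Tower1_C0 (l := l) (by omega) hy, map_zero]
      by_cases hm : i ≤ m
      · exact h.Tower1_C0 (by omega) (h.Tower1_memU hm hy)
      · rw [h.Tower1_U0 (l := i) (by omega) hy, map_zero]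
  · by_cases hl : l + 2 ≤ m
    · simpa only [Tower1_wd2] using h.uc i l m j hi hl y hy
    · rw [h.Tower1_U0 (l := l + 2) (by omega) hy, map_zero]
      by_cases hm : i + 2 ≤ m
      · exact (h.Tower1_U0 (by omega) (h.Tower1_memC hm hy)).symm
      · rw [h.Tower1_C0 (l := i) (by omega) hy, map_zero]

end

theorem CupCap.exists_gt {σ : Type} {step : σ → ℕ × ℕ → Option (ℕ × ℕ)}
    {rel : ℕ → ℕ → FreeAlgebra R σ → Prop} {mk : σ → Bool} {u c : ℕ → σ}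
    (h : CupCap step rel mk u c) : ∃ Γ : GT (Op step rel),
      (∀ l, Γ.ρ (U l) = lm step rel (ι R (u l))) ∧ (∀ l, Γ.ρ (C l) = lm step rel (ι R (c l))) ∧
      ∀ m j, Γ.Cp m j = Cp step rel (m, j) := by
  choose π hπ using exists_pr h.marked
  obtain ⟨ρ, hU, hC⟩ : ∃ ρ : FA →ₐ[R] Module.End R (Op step rel),
      (∀ l, ρ (U l) = lm step rel (ι R (u l))) ∧ ∀ l, ρ (C l) = lm step rel (ι R (c l)) :=
    ⟨lift R fun
      | .u l => lm step rel (ι R (u l))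
      | .c l => lm step rel (ι R (c l)), fun l => lift_ι_apply _ _, fun l => lift_ι_apply _ _⟩
  refine ⟨{ ρ := ρ
            Cp := fun m j => Cp step rel (m, j)
            pr := π
            wk := h.Tower1_wk hU hC
            memU := fun hl hw => by rw [hU]; exact h.Tower1_memU hl hw
            memC := fun {l m j w} hl hw => by
              have := h.Tower1_memC (l := l) (m := m + 2) (by omega) hw
              rw [Nat.add_sub_cancel] at this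
              rw [hC]; exact this
            loop := fun hl hw => by rw [hU, hC, ← Tower1_wd2]; exact h.loop _ _ _ hl _ hw
            zig := fun hl hw => by rw [hU, hC, ← Tower1_wd2]; exact h.zig _ _ _ hl _ hw
            zag := fun hl hw => by rw [hU, hC, ← Tower1_wd2]; exact h.zag _ _ _ hl _ hw
            U0 := fun hl hw => by rw [hU]; exact h.Tower1_U0 hl hw
            C0 := fun hl hw => by rw [hC]; exact h.Tower1_C0 hl hw
            top := Cp_top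
            pr_eq := fun hw => hπ _ _ _ hw }, hU, hC, fun _ _ => rfl⟩

end Pool.Agent.P.MP_b3a239_gt
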