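import Pool.Agent.P.MP_b3a239_gt.Rank
import Pool.Agent.P.MP_b3a239_gt.Transfer

/-! Two summands: nested words. -/

set_option maxSynthPendingDepth 3

noncomputable section

namespace Pool.Agent.P.MP_b3a239_gt

variable (x y : ℕ × ℕ)

/-- the box `b₀` of the first summand, the box `b₁` of the second one and the caps `d` -/
def w2 (b₀ b₁ : Box) (d : List ℕ) : Model [x, y] := word [x, y] ![b₀, b₁] d

/-- two boxes joined by `2 k` nested arcs -/
def T2 (k : ℕ) (n n' : ℤ) : Model [x, y] := w2 x y (.G k n) (.G k n') (List.range (2 * k))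

section TwoAux

variable {O : Type} [AddCommGroup O] [Module R O] {Γ : GT O} {g₀ g₁ : Box → Module.End R O} {e : O}

theorem two_mem₀ (h₀ : (Γ.hom 0).Sph g₀) (he : e ∈ Γ.Cp 0 0) (b : Box) :
    g₀ b e ∈ Γ.Cp b.legs 1 := by
  simpa using (h₀.mem b).2.1 0 e he

theorem two_mem₁ (h₁ : (Γ.hom 1).Sph g₁) (b : Box) {m : ℕ} {w : O} (hw : w ∈ Γ.Cp m 1) :
    g₁ b w ∈ Γ.Cp (m + b.legs) 2 := (h₁.mem b).2.1 m w hw

theorem two_pass (h₁ : (Γ.hom 1).Sph g₁) (b : Box) (i : ℕ) (w : O) :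
    Γ.ρ (C (i + b.legs)) (g₁ b w) = g₁ b (Γ.ρ (C i) w) := by
  have := congr($((h₁.mem b).2.2 (C i)) w)
  rw [shn_C] at this
  exact this.symm

theorem two_capG {j : ℕ} {g : Box → Module.End R O} (h : (Γ.hom j).Sph g) {k i : ℕ} (n : ℤ)
    (h1 : i + 2 ≤ 2 * k) (h2 : i + 1 ≠ k) (w : O) : Γ.ρ (C i) (g (.G k n) w) = 0 :=
  congr($(h.capG k i n h1 h2) w)

theorem two_capMid {j : ℕ} {g : Box → Module.End R O} (h : (Γ.hom j).Sph g) (k : ℕ) (n : ℤ)
    (w : O) : Γ.ρ (C k) (g (.G (k + 1) n) w) =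
      g (.G k (n + 1)) w - a (-4 * (k + 1)) • g (.G k (n - 1)) w :=
  congr($(h.capMid k n) w)

theorem two_rot (h₀ : (Γ.hom 0).Sph g₀) (h₁ : (Γ.hom 1).Sph g₁) (he : e ∈ Γ.Cp 0 0) (k : ℕ)
    (n m : ℤ) : Γ.ρ (capC (2 * (k + 1))) (Γ.ρ (RtF k) (g₁ (.G k m) (g₀ (.G (k + 1) n) e))) =
      (-(a 2 * f k)) • Γ.ρ (capC (2 * k)) (g₁ (.G k m)
        (g₀ (.G k (n + 1)) e - a (-4 * (k + 1)) • g₀ (.G k (n - 1)) e)) := by
  have hw := two_mem₁ h₁ (.G k m) (two_mem₀ h₀ he (.G (k + 1) n))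
  have key : ∀ j ≤ k, Γ.ρ (capC (2 * (k + 1))) (Γ.ρ (U (k + j))
      (g₁ (.G k m) (g₀ (.G (k + 1) n) e))) =
      Γ.ρ (capC (2 * k)) (g₁ (.G k m) (Γ.ρ (C (k - j)) (g₀ (.G (k + 1) n) e))) := by
    intro j hj
    have h1 := rot_capC_U' (i := k - j) (l := 2 * k) (by omega)
    rw [show 2 * k - (k - j) = k + j by omega] at h1
    have l1 : Loc (2 * (k + 1) + 2 * k) 0 (capC (2 * k + 2) * U (k + j)) :=
      ((loc_capC (2 * k + 2) 0).cast (by omega) rfl).mul (Loc.u (by omega))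
    have l2 : Loc (2 * (k + 1) + 2 * k) 0 (capC (2 * k) * C (2 * k + (k - j))) :=
      (loc_capC (2 * k) 0).mul ((Loc.c (m := 0 + 2 * (2 * k)) (by omega)).cast (by omega) rfl)
    have h2 := (Γ.tm 2).transfer l1 l2 h1 hw
    rw [← two_pass h₁, add_comm (k - j)]
    simp only [map_mul, Module.End.mul_apply] at h2
    exact h2
  rw [RtF]
  simp only [map_neg, map_sum, map_smul, LinearMap.neg_apply, LinearMap.sum_apply,
    LinearMap.smul_apply]
  rw [Finset.sum_eq_single 0]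
  · rw [key 0 (Nat.zero_le k), Nat.sub_zero, two_capMid h₀, neg_smul]
    simp
  · intro j hj h0
    have hj' : j ≤ k := Nat.lt_succ_iff.1 (Finset.mem_range.1 hj)
    rw [key j hj', two_capG h₀ n (by omega) (by omega)]
    simp
  · simp

/-- two boxes joined by nested arcs -/
def twoGen (Γ : GT O) (g₀ g₁ : Box → Module.End R O) (e : O) : Submodule R O :=
  Submodule.span R {z | ∃ (b₀ b₁ : Box) (i j : ℕ), j ≤ b₀.legs ∧ b₁.legs = i + j ∧
    z = Γ.ρ (shn i (capC j)) (g₁ b₁ (g₀ b₀ e))}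

theorem two_gen_mem (b₀ b₁ : Box) {i j : ℕ} (h0 : j ≤ b₀.legs) (h1 : b₁.legs = i + j) :
    Γ.ρ (shn i (capC j)) (g₁ b₁ (g₀ b₀ e)) ∈ twoGen Γ g₀ g₁ e :=
  Submodule.subset_span ⟨b₀, b₁, i, j, h0, h1, rfl⟩

theorem two_gen_lv (h₀ : (Γ.hom 0).Sph g₀) (h₁ : (Γ.hom 1).Sph g₁) (he : e ∈ Γ.Cp 0 0)
    (b₀ b₁ : Box) {i j : ℕ} (h0 : j ≤ b₀.legs) (h1 : b₁.legs = i + j) :
    Γ.ρ (shn i (capC j)) (g₁ b₁ (g₀ b₀ e)) ∈ Γ.Cp (b₀.legs - j + i) 2 :=
  (Γ.tm 2).mem (((loc_capC j (b₀.legs - j)).shn i).cast (by omega) rfl)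
    (two_mem₁ h₁ b₁ (two_mem₀ h₀ he b₀))

theorem two_cap_mem (h₀ : (Γ.hom 0).Sph g₀) (h₁ : (Γ.hom 1).Sph g₁) (he : e ∈ Γ.Cp 0 0) (l : ℕ)
    {z : O} (hz : z ∈ twoGen Γ g₀ g₁ e) : Γ.ρ (C l) z ∈ twoGen Γ g₀ g₁ e := by
  refine (Submodule.span_le (p := (twoGen Γ g₀ g₁ e).comap (Γ.ρ (C l)))).2 ?_ hz
  rintro _ ⟨b₀, b₁, i, j, h0, h1, rfl⟩
  change Γ.ρ (C l) _ ∈ twoGen Γ g₀ g₁ e
  by_cases hl : b₀.legs - j + i < l + 2
  · rw [Γ.C0 hl (two_gen_lv h₀ h₁ he b₀ b₁ h0 h1)]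
    exact zero_mem _
  rcases lt_trichotomy (l + 1) i with h | h | h
  · obtain ⟨i, rfl⟩ : ∃ i', i = i' + 2 := ⟨i - 2, by omega⟩
    have h2 := congr($(Γ.wk.far (Loc.c (m := i) (j := l) (by omega)) (capC j)) (g₁ b₁ (g₀ b₀ e)))
    simp only [Module.End.mul_apply] at h2
    rw [h2]
    rcases b₁ with ⟨k, n⟩ | n
    · change 2 * k = _ at h1
      by_cases hk : l + 1 = k
      · subst hk
        rw [two_capMid h₁, map_sub, map_smul]
        exact sub_mem (two_gen_mem _ _ h0 (by change 2 * l = _; omega))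
          (Submodule.smul_mem _ _ (two_gen_mem _ _ h0 (by change 2 * l = _; omega)))
      · rw [two_capG h₁ n (by omega) hk, map_zero]
        exact zero_mem _
    · change 0 = _ at h1
      omega
  · subst h
    have h2 : Γ.ρ (shn l (capC (j + 1))) = Γ.ρ (C l) * Γ.ρ (shn (l + 1) (capC j)) := by
      rw [capC_succ', map_mul, map_mul, shn_C, shn_shn, zero_add, add_comm 1]
    have h3 := two_gen_mem (Γ := Γ) (g₀ := g₀) (g₁ := g₁) (e := e) b₀ b₁ (i := l) (j := j + 1)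
      (by omega) (by omega)
    rwa [h2] at h3
  · obtain ⟨s, rfl⟩ : ∃ s, l = s + i := ⟨l - i, by omega⟩
    have h2 := congr($((Γ.wk.shift i).far (loc_capC j 0) (C s)) (g₁ b₁ (g₀ b₀ e)))
    simp only [Module.End.mul_apply, AlgHom.comp_apply, shn_C, add_zero] at h2
    rw [← h2, show s + (0 + 2 * j) + i = s + j + b₁.legs by omega, two_pass h₁]
    rcases b₀ with ⟨k, n⟩ | n
    · change j ≤ 2 * k at h0
      change ¬ 2 * k - j + i < _ at hl
      by_cases hk : s + j + 1 = k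
      · subst hk
        rw [two_capMid h₀, map_sub, map_smul, map_sub, map_smul]
        exact sub_mem (two_gen_mem _ _ (by change j ≤ 2 * (s + j); omega) h1)
          (Submodule.smul_mem _ _ (two_gen_mem _ _ (by change j ≤ 2 * (s + j); omega) h1))
      · rw [two_capG h₀ n (by omega) hk, map_zero, map_zero]
        exact zero_mem _
    · change ¬ 0 - j + i < _ at hl
      omega

theorem two_capw_mem (h₀ : (Γ.hom 0).Sph g₀) (h₁ : (Γ.hom 1).Sph g₁) (he : e ∈ Γ.Cp 0 0)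
    (b₀ b₁ : Box) (d : List ℕ) : Γ.ρ (capw d) (g₁ b₁ (g₀ b₀ e)) ∈ twoGen Γ g₀ g₁ e := by
  induction d with
  | nil =>
    have := two_gen_mem (Γ := Γ) (g₀ := g₀) (g₁ := g₁) (e := e) b₀ b₁ (i := b₁.legs) (j := 0)
      (Nat.zero_le _) rfl
    rwa [capC, map_one, ← capw_nil] at this
  | cons i d ih =>
    rw [capw_cons, map_mul]
    exact two_cap_mem h₀ h₁ he i ih

end TwoAux

theorem two_w2_eq (b₀ b₁ : Box) (d : List ℕ) : w2 x y b₀ b₁ d = toPres _ _ [x, y].length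
    ((ΓP [x, y]).ρ (capw d) (gP [x, y] 1 b₁ (gP [x, y] 0 b₀ (Bx [x, y] [])))) := by
  rw [w2, word_eq]
  have : (List.ofFn (n := [x, y].length) ![b₀, b₁]).reverse = [b₁, b₀] := rfl
  rw [this, Bx_cons, Bx_cons]
  rfl

theorem two_T2_eq (k : ℕ) (n n' : ℤ) : T2 x y k n n' = toPres _ _ [x, y].length
    ((ΓP [x, y]).ρ (capC (2 * k))
      (gP [x, y] 1 (.G k n') (gP [x, y] 0 (.G k n) (Bx [x, y] [])))) := by
  rw [T2, two_w2_eq, capC_eq]

theorem two_t_eq (hx : 2 ≤ x.1 ∧ x.1.Coprime x.2) (hy : 2 ≤ y.1 ∧ y.1.Coprime y.2) (n n' : ℤ) :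
    w2 x y (.t n) (.t n') [] = ∑ r : Fin (x.1 / 2 + 1), ∑ s : Fin (y.1 / 2 + 1),
      (chi x.1 x.2 r n * chi y.1 y.2 s n') • w2 x y (.t r) (.t s) [] := by
  have h₀ : gP [x, y] 0 (.t n) = ∑ r : Fin (x.1 / 2 + 1), chi x.1 x.2 r n • gP [x, y] 0 (.t r) :=
    (boxes_gP [x, y] 0).t_eq hx.1 hx.2 n
  have h₁ : gP [x, y] 1 (.t n') = ∑ s : Fin (y.1 / 2 + 1), chi y.1 y.2 s n' • gP [x, y] 1 (.t s) :=
    (boxes_gP [x, y] 1).t_eq hy.1 hy.2 n'
  simp only [two_w2_eq]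
  rw [h₀, h₁]
  simp only [map_sum, map_smul, LinearMap.sum_apply, LinearMap.smul_apply, Finset.smul_sum,
    smul_smul]

theorem T2_succ (k : ℕ) (n n' : ℤ) : f (k + 1) • T2 x y (k + 1) n n' = (-(a 2 * f k)) •
    (T2 x y k (n + 1) (n' + 1) - a (-4 * (k + 1)) • T2 x y k (n - 1) (n' + 1) -
      a (-4 * (k + 1)) • T2 x y k (n + 1) (n' - 1) + a (-8 * (k + 1)) • T2 x y k (n - 1) (n' - 1)) :=
  by
  have h₀ := (boxes_gP [x, y] 0).sph
  have h₁ := (boxes_gP [x, y] 1).sph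
  have he : Bx [x, y] [] ∈ (ΓP [x, y]).Cp 0 0 := Bx_mem _ []
  have h2 := congr($(h₁.sph k n') (gP [x, y] 0 (.G (k + 1) n) (Bx [x, y] [])))
  simp only [GT.hom_ρ, Module.End.mul_apply, LinearMap.smul_apply, LinearMap.sub_apply, map_sub,
    map_smul] at h2
  have h3 : a (-8 * (k + 1)) = a (-4 * (k + 1)) * a (-4 * (k + 1)) := by
    rw [← a_add]
    congr 1
    ring
  simp only [two_T2_eq]
  rw [← map_smul, ← map_smul, h2, map_sub, map_smul, two_rot h₀ h₁ he, two_rot h₀ h₁ he, h3]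
  simp only [map_sub, map_smul]
  module

theorem w2_G_t (n : ℤ) (b : Box) (d : List ℕ) :
    f 0 • w2 x y (.G 0 n) b d = w2 x y (.t (n + 1)) b d - w2 x y (.t (n - 1)) b d := by
  simp only [two_w2_eq]
  rw [← map_smul, ← map_smul, ← map_smul, ← LinearMap.smul_apply, (boxes_gP [x, y] 0).sph.sph₀]
  simp only [map_sub, LinearMap.sub_apply]

theorem w2_t_G (n : ℤ) (b : Box) (d : List ℕ) :
    f 0 • w2 x y b (.G 0 n) d = w2 x y b (.t (n + 1)) d - w2 x y b (.t (n - 1)) d := by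
  simp only [two_w2_eq]
  rw [← map_smul, ← map_smul, ← LinearMap.smul_apply, (boxes_gP [x, y] 1).sph.sph₀]
  simp only [map_sub, LinearMap.sub_apply]

theorem T2_eq (hx : 2 ≤ x.1 ∧ x.1.Coprime x.2) (hy : 2 ≤ y.1 ∧ y.1.Coprime y.2) (k : ℕ)
    (n n' : ℤ) : (f 0 * f k) • T2 x y k n n' = (-a 2) ^ k •
      ∑ r : Fin (x.1 / 2 + 1), ∑ s : Fin (y.1 / 2 + 1),
        (pf k (chi x.1 x.2 r) n * pf k (chi y.1 y.2 s) n') • w2 x y (.t r) (.t s) [] := by
  induction k generalizing n n' with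
  | zero =>
    rw [pow_zero, one_smul, mul_smul, T2, Nat.mul_zero, List.range_zero, w2_G_t, smul_sub, w2_t_G,
      w2_t_G]
    simp only [two_t_eq x y hx hy (n + 1), two_t_eq x y hx hy (n - 1), ← Finset.sum_sub_distrib,
      pf]
    refine Finset.sum_congr rfl fun r _ => Finset.sum_congr rfl fun s _ => ?_
    module
  | succ k ih =>
    have h3 : a (-8 * (k + 1)) = a (-4 * (k + 1)) * a (-4 * (k + 1)) := by
      rw [← a_add]
      congr 1
      ring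
    have h4 : (f 0 * f (k + 1)) • T2 x y (k + 1) n n' = (-a 2) •
        ((f 0 * f k) • T2 x y k (n + 1) (n' + 1) -
          a (-4 * (k + 1)) • (f 0 * f k) • T2 x y k (n - 1) (n' + 1) -
          a (-4 * (k + 1)) • (f 0 * f k) • T2 x y k (n + 1) (n' - 1) +
          a (-8 * (k + 1)) • (f 0 * f k) • T2 x y k (n - 1) (n' - 1)) := by
      rw [mul_smul, T2_succ]
      module
    rw [h4, ih, ih, ih, ih, h3]
    simp only [Finset.smul_sum, ← Finset.sum_sub_distrib, ← Finset.sum_add_distrib, pf]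
    refine Finset.sum_congr rfl fun r _ => Finset.sum_congr rfl fun s _ => ?_
    simp only [smul_eq_mul]
    module

theorem two_w2_mem {S : Submodule R (Model [x, y])} (hT : ∀ k n n', T2 x y k n n' ∈ S)
    (hw : ∀ b₀ b₁ : Box, b₀.legs = 0 → b₁.legs = 0 → w2 x y b₀ b₁ [] ∈ S) (b₀ b₁ : Box)
    (d : List ℕ) : w2 x y b₀ b₁ d ∈ S := by
  have h₀ := (boxes_gP [x, y] 0).sph
  have h₁ := (boxes_gP [x, y] 1).sph
  have he : Bx [x, y] [] ∈ (ΓP [x, y]).Cp 0 0 := Bx_mem _ []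
  have key : twoGen (ΓP [x, y]) (gP [x, y] 0) (gP [x, y] 1) (Bx [x, y] []) ≤
      S.comap (toPres Pl.step (relP [x, y]) [x, y].length) := by
    refine Submodule.span_le.2 ?_
    rintro _ ⟨b₀, b₁, i, j, h0, h1, rfl⟩
    rw [SetLike.mem_coe, Submodule.mem_comap]
    by_cases hl : b₀.legs - j + i = 0
    · obtain rfl : i = 0 := by omega
      have h2 : b₀.legs = j := by omega
      rw [zero_add] at h1
      rw [shn_zero, capC_eq, ← two_w2_eq]
      by_cases hj : j = 0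
      · subst hj
        exact hw b₀ b₁ h2 h1
      · rcases b₀ with ⟨k, n⟩ | n
        · rcases b₁ with ⟨k', n'⟩ | n'
          · change 2 * k = j at h2
            change 2 * k' = j at h1
            obtain rfl : k' = k := by omega
            subst h2
            exact hT k' n n'
          · exact absurd h1.symm hj
        · exact absurd h2.symm hj
    · have h2 := two_gen_lv h₀ h₁ he b₀ b₁ h0 h1
      rw [ΓP_Cp] at h2
      rw [toPres_of_ne (fun h => hl (congrArg Prod.fst h)) h2]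
      exact zero_mem _
  rw [two_w2_eq]
  exact key (two_capw_mem h₀ h₁ he b₀ b₁ d)

theorem span_two : Submodule.span R ({z | ∃ k n n', z = T2 x y k n n'} ∪
    {z | ∃ b₀ b₁ : Box, b₀.legs = 0 ∧ b₁.legs = 0 ∧ z = w2 x y b₀ b₁ []}) = ⊤ := by
  refine eq_top_iff.2 fun z _ => ?_
  obtain ⟨r, hr, hz⟩ := span_words [x, y] ⊥ (fun _ _ => True) (fun j b => ⟨1, one_mem _, by
    rw [one_smul]
    exact TM.gen_mem_Gn _ _ _ (⟨b, trivial⟩ : {_b' : Box // True})⟩) z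
  rw [Submonoid.mem_bot.1 hr, one_smul] at hz
  refine Submodule.span_le.2 ?_ hz
  rintro _ ⟨b, d, -, rfl⟩
  have hb : b = ![b ⟨0, by simp⟩, b ⟨1, by simp⟩] := by
    funext i
    fin_cases i <;> rfl
  rw [hb]
  exact two_w2_mem x y (fun k n n' => Submodule.subset_span (Or.inl ⟨k, n, n', rfl⟩))
    (fun b₀ b₁ h0 h1 => Submodule.subset_span (Or.inr ⟨b₀, b₁, h0, h1, rfl⟩)) _ _ d

end Pool.Agent.P.MP_b3a239_gt
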