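import Pool.Agent.P.MP_b3a239_gt.Univ1

/-! `LL` is the universal torus system on which the monodromy is `A ^ 6`. -/

set_option maxSynthPendingDepth 3

noncomputable section

namespace Pool.Agent.P.MP_b3a239_gt

variable {B : Type} [AddCommGroup B] [Module R B] {T : TM B} {α : V →ₗ[R] B}
  {x y : (Module.End R B)ˣ}

private theorem cancel_a {n : ℤ} {w : B} (h : a n • w = 0) : w = 0 := by
  rw [← one_smul R w, ← a_mul_neg (-n), neg_neg, mul_smul, h, smul_zero]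

private theorem zp_succ (x : (Module.End R B)ˣ) (n : ℤ) (w : B) :
    (x ^ (n + 1)).1 w = x.1 ((x ^ n).1 w) := by
  rw [add_comm, zpow_add, zpow_one]; rfl

private theorem zp_pred (x : (Module.End R B)ˣ) (n : ℤ) (w : B) :
    (x ^ (n - 1)).1 w = x⁻¹.1 ((x ^ n).1 w) := by
  rw [sub_eq_neg_add, zpow_add, zpow_neg_one]; rfl

private theorem tor_one (h : y * x = sc _ 2 * x * y) (w : B) :
    y⁻¹.1 (x.1 w) = a (-2) • x.1 (y⁻¹.1 w) := by
  have h₁ : y⁻¹ * x = sc _ (-2) * (x * y⁻¹) := by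
    rw [← sc_inv, eq_inv_mul_iff_mul_eq]
    calc sc _ 2 * (y⁻¹ * x) = y⁻¹ * (sc _ 2 * x * y) * y⁻¹ := by
          rw [← mul_assoc, sc_comm]; group
      _ = x * y⁻¹ := by rw [← h]; group
  rw [← sc_apply]
  exact congr(($h₁).1 w)

private theorem tor_neg (h : y * x = sc _ 2 * x * y) (w : B) :
    y⁻¹.1 (x⁻¹.1 w) = a 2 • x⁻¹.1 (y⁻¹.1 w) := by
  have h₁ := congrArg x⁻¹.1 (tor_one h (x⁻¹.1 w))
  rw [Alg1Aux.app_inv, map_smul, Alg1Aux.inv_app] at h₁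
  rw [h₁, smul_smul, a_mul_neg, one_smul]

private theorem tor_zpow (h : y * x = sc _ 2 * x * y) (n : ℤ) (w : B) :
    y⁻¹.1 ((x ^ n).1 w) = a (-2 * n) • (x ^ n).1 (y⁻¹.1 w) := by
  induction n using Int.induction_on with
  | zero => simp
  | succ n ih =>
    rw [zp_succ, zp_succ, tor_one h, ih, map_smul, smul_smul, ← a_add]
    congr 2; ring
  | pred n ih =>
    rw [zp_pred, zp_pred, tor_neg h, ih, map_smul, smul_smul, ← a_add]
    congr 2; ring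

private theorem y_zero (s : bV.Sys α XQ YQ x y) :
    y⁻¹.1 (a 2 • y⁻¹.1 (α (om 0)) + α (om 0)) = -(a 2 • (a 2 • y⁻¹.1 (α (om 0)) + α (om 0))) := by
  have hY : YQ.1 (El 0) = El 0 := by
    rw [YQ_El]
    simp [fin, pL, pR]
  have hκ : bV.κ (El 0) = dd • om 0 := bV.κι _
  have h : α (bV.κ (YQ.1 (El 0))) = _ := s.GY (om 0)
  rw [hY, hκ] at h
  have h₁ := congrArg y⁻¹.1 h
  have hv : a 2 * a (-2) = 1 := a_mul_neg 2
  simp only [map_add, map_smul, Alg1Aux.inv_app, dd] at h₁ ⊢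
  linear_combination (norm := module) -(a 2 • h₁) - hv • y⁻¹.1 (α (om 0))

private theorem om_succ (l : ℕ) : om (l + 1) = TV.ρ (pR true 1 (2 * l)) (bV.j (XQ.1 (El l))) := by
  apply Subtype.ext
  change omF (l + 1) = vρ MM _ ((XQ.1 (El l) : V) : FM)
  rw [XQ_coe, El_coe, omF_succ]

theorem univ_L (hα : GMap TV T α) (hx : x ∈ T.natU) (hy : y ∈ T.natU) (s : bV.Sys α XQ YQ x y)
    (hM : ∀ m, ∀ w ∈ TV.Lv (m + 1), α (TV.ρ (fin false 0 m) w) = a 6 • α w) :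
    ∃ φ : LL →ₗ[R] B, GMap TL T φ ∧ (∀ w, φ (αL w) = α w) ∧ (∀ v, φ (xT.1 v) = x.1 (φ v)) ∧
      ∀ v, φ (yT.1 v) = y.1 (φ v) := by
  obtain ⟨φ, hφ, h₁, h₂⟩ := univ_exists hα hx hy s hM
  have eα : ∀ w, φ (αL w) = α w := fun w =>
    congr($(V_ext (hφ.comp αL_gmap) hα fun l => by simpa using h₁ l 0) w)
  have ex : ∀ v, φ (xT.1 v) = x.1 (φ v) := fun v =>
    congr($(L_ext' (hφ.comp xT_nat.1.gmap) (hx.1.gmap.comp hφ)
      (fun l n => by
        show φ (xT.1 _) = x.1 (φ _)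
        rw [← zp_succ, h₁, h₁, zp_succ])
      fun n => by
        show φ (xT.1 _) = x.1 (φ _)
        rw [xT_t, h₂, h₂, zp_succ x (n + 1), map_neg]) v)
  have ex' : ∀ v, φ (xT⁻¹.1 v) = x⁻¹.1 (φ v) := fun v => by
    rw [← Alg1Aux.inv_app x (φ (xT⁻¹.1 v)), ← ex, Alg1Aux.app_inv]
  have exn : ∀ (n : ℤ) v, φ ((xT ^ n).1 v) = (x ^ n).1 (φ v) := by
    intro n v
    induction n using Int.induction_on with
    | zero => simp
    | succ n ih => rw [zp_succ, zp_succ, ex, ih]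
    | pred n ih => rw [zp_pred, zp_pred, ex', ih]
  let Δ : V →ₗ[R] B := φ ∘ₗ yT⁻¹.1 ∘ₗ αL - y⁻¹.1 ∘ₗ α
  have hΔ : GMap TV T Δ := (hφ.comp (yT_nat.2.gmap.comp αL_gmap)).sub (hy.2.gmap.comp hα)
  have Δa : ∀ w, Δ w = φ (yT⁻¹.1 (αL w)) - y⁻¹.1 (α w) := fun _ => rfl
  have hκ : ∀ w, Δ (bV.κ (XQ⁻¹.1 w)) = -x⁻¹.1 (Δ (bV.κ w)) := by
    intro w
    have h₃ := congrArg φ (sys_L.J w)
    have h₄ := s.J w
    have h4 : a 4 = a 2 * a 2 := a_add 2 2
    rw [tor_neg sys_L.tor] at h₃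
    rw [tor_neg s.tor] at h₄
    simp only [map_add, map_smul, map_zero, eα, ex'] at h₃
    rw [← sub_eq_zero]
    apply cancel_a (n := 4)
    simp only [Δa, map_sub, h4] at h₃ h₄ ⊢
    linear_combination (norm := module) h₃ - h₄
  have hj : ∀ w, Δ (bV.j w) = 0 → Δ (bV.j (XQ.1 w)) = 0 := by
    intro w hw
    have h₃ := hκ (XQ.1 (bV.u w))
    rw [Alg1Aux.inv_app, bV.κu, hw, Alg1Aux.comm_app pair_XY.hX.cu, bV.κu] at h₃
    rw [← Alg1Aux.app_inv x (Δ _), neg_eq_zero.1 h₃.symm, map_zero]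
  have hom : ∀ l, Δ (om l) = 0 := by
    intro l
    induction l with
    | zero =>
      have h₃ := congrArg φ (t_eq (-1))
      rw [h₂] at h₃
      simp only [neg_add_cancel, zpow_zero, Units.val_one, Module.End.one_apply, map_neg, map_add,
        map_smul, eα, neg_inj, add_left_inj] at h₃
      apply cancel_a (n := 2)
      rw [Δa, smul_sub, h₃, sub_self]
    | succ l ih =>
      have h₃ : Δ (bV.j (El l)) = 0 := by
        show Δ (TV.ρ (U 0) (om l)) = 0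
        rw [hΔ.natU (Nat.zero_le _) (om_mem l), ih, map_zero]
      have h₄ : bV.j (XQ.1 (El l)) ∈ TV.Lv (2 * l + 1 + 1) := XQ_nat.1.2 _ _ (El_mem l)
      rw [om_succ, hΔ.nat (loc_pR true (by omega)) h₄, hj _ h₃, map_zero]
  have ey' : ∀ v, φ (yT⁻¹.1 v) = y⁻¹.1 (φ v) := fun v =>
    congr($(L_ext' (hφ.comp yT_nat.2.gmap) (hy.2.gmap.comp hφ)
      (fun l n => by
        show φ (yT⁻¹.1 _) = y⁻¹.1 (φ _)
        rw [tor_zpow sys_L.tor, h₁, tor_zpow s.tor, map_smul, exn, sub_eq_zero.1 ((Δa _).symm.trans (hom l))])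
      fun n => by
        show φ (yT⁻¹.1 _) = y⁻¹.1 (φ _)
        rw [yT_inv_t, map_neg, map_smul, h₂, map_neg, tor_zpow s.tor, y_zero s, map_neg, map_smul,
          smul_neg, smul_neg, smul_smul, ← a_add]
        congr 4
        ring) v)
  refine ⟨φ, hφ, eα, ex, fun v => ?_⟩
  rw [← Alg1Aux.app_inv y (φ (yT.1 v)), ← ey', Alg1Aux.inv_app]

end Pool.Agent.P.MP_b3a239_gt
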