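import Pool.Agent.P.MP_b3a239_gt.LSys
import Pool.Agent.P.MP_b3a239_gt.LLift
import Pool.Agent.P.MP_b3a239_gt.XYPair

/-! Construction of the comparison map out of `LL`. -/

set_option maxSynthPendingDepth 3

noncomputable section

namespace Pool.Agent.P.MP_b3a239_gt

variable {B : Type} [AddCommGroup B] [Module R B] {T : TM B} {α : V →ₗ[R] B}
  {x y : (Module.End R B)ˣ}

private def gt (i : ℕ × ℤ) : FM := XX i.2 • omF i.1

private theorem gt_mem (i : ℕ × ℤ) : gt i ∈ (TF MM).Lv (2 * i.1) :=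
  smul_mem_vLv _ (omF_mem _)

private def VtS : Submodule R FM := ⨆ m, (TF MM).Gn gt (fun i => 2 * i.1) m

private abbrev Vt : Type := ↥VtS

private instance : AddCommGroup Vt := Submodule.addCommGroup VtS
private instance : Module R Vt := Submodule.module VtS

private def TVt : TM Vt := (TF MM).gen TF_strict gt (fun i => 2 * i.1) gt_mem

private def ot (i : ℕ × ℤ) : Vt := (TF MM).genEl gt (fun i => 2 * i.1) i

private def gG (k : ℕ) (n : ℤ) : Vt :=
  ⟨XX n • gF k, Submodule.mem_iSup_of_mem (2 * k) (gF_mem_Vt k n)⟩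

private theorem gG_mem (k : ℕ) (n : ℤ) : gG k n ∈ TVt.Lv (2 * k) := gF_mem_Vt k n

private theorem ot_mem (i : ℕ × ℤ) : ot i ∈ TVt.Lv (2 * i.1) := TM.genEl_mem i

private theorem TVt_coe (z : FA) (w : Vt) : (TVt.ρ z w : FM) = vρ MM z w := rfl

private theorem gG_coe (k : ℕ) (n : ℤ) : (gG k n : FM) = (XX n * PQ k) • eta MM k k := by
  rw [mul_smul]; rfl

private theorem gG_mid (k : ℕ) (n : ℤ) :
    ((gG k (n + 1) - a (-4 * (k + 1)) • gG k (n - 1) : Vt) : FM) =
      (XX n * PQ (k + 1)) • eta MM k k := by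
  rw [Submodule.coe_sub, Submodule.coe_smul, gG_coe, gG_coe, ← smul_assoc, ← sub_smul, PQ_succ]
  congr 1
  rw [pii, XX_add, sub_eq_add_neg n, XX_add]
  push_cast
  simp only [Algebra.smul_def]
  ring

private theorem gG_zero (n : ℤ) : gG 0 n = ot (0, n) := by
  apply Subtype.ext
  rw [gG_coe, PQ_zero, mul_one]
  rfl

private theorem ev_Om_congr {B : Type} [AddCommGroup B] [Module R B]
    (ρ : FA →ₐ[R] Module.End R B) {g g' : Box → B} (h : ∀ k n, g (.G k n) = g' (.G k n))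
    (l : ℕ) (n : ℤ) : ev ρ g (Om l n) = ev ρ g' (Om l n) := by
  have h1 : ∀ k n, ev ρ g (G k n) = ev ρ g' (G k n) := fun k n =>
    (ev_bx ρ g (.G k n)).trans ((h k n).trans (ev_bx ρ g' (.G k n)).symm)
  have h2 : ∀ z ∈ Submodule.span R
      {x | ∃ y j n', j < l ∧ Loc (2 * j) (2 * l) y ∧ x = emb y * G j n'},
      ev ρ g z = ev ρ g' z := by
    intro z hz
    induction hz using Submodule.span_induction with
    | mem z hz =>
      obtain ⟨y, j, n', -, -, rfl⟩ := hz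
      rw [ev_emb_mul, ev_emb_mul, h1]
    | zero => simp
    | add u v _ _ hu hv => rw [map_add, map_add, hu, hv]
    | smul c u _ hu => rw [map_smul, map_smul, hu]
  have h3 := h2 _ (Om_sub_mem l n)
  rwa [map_sub, map_sub, h1, sub_left_inj] at h3

private def gB : Box → Vt
  | .G k n => gG k n
  | .t _ => 0

private theorem gB_mem (b : Box) : gB b ∈ TVt.Lv b.legs := by
  cases b with
  | G k n => exact gG_mem k n
  | t n => exact zero_mem _

private theorem ev_gB (l : ℕ) (n : ℤ) : ev TVt.ρ gB (Om l n) = ot (l, n) := by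
  apply Subtype.ext
  have h1 : ((ev TVt.ρ gB (Om l n) : Vt) : FM) = ev (vρ MM) (fun b => (gB b : FM)) (Om l n) :=
    GMap.ev (T := TVt) (T' := TF MM) (φ := VtS.subtype) TM.gen_gmap gB_mem (Om_mem_Rep l n)
  have hm : ∀ b, (gB b : FM) ∈ (TF MM).Lv b.legs := fun b =>
    GMap.mem (T := TVt) (T' := TF MM) (φ := VtS.subtype) TM.gen_gmap (gB_mem b)
  have h2 : dl • ev (vρ MM) (fun b => (gB b : FM)) (Om l n) =
      ev (vρ MM) (fun b => dl • (gB b : FM)) (Om l n) :=
    GMap.ev (smul_natl dl).gmap hm (Om_mem_Rep l n)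
  have h3 : ev (vρ MM) (fun b => dl • (gB b : FM)) (Om l n) = ev (vρ MM) vec (Om l n) := by
    refine ev_Om_congr _ (fun k n => ?_) l n
    change dl • (gG k n : FM) = (XX n * PP k) • eta MM k k
    rw [gG_coe, smul_smul, PP_eq]
    congr 1
    ring
  have hdl : dl ≠ 0 := pii_zero ▸ pii_ne_zero 0
  rw [h1]
  apply smul_right_injective FM hdl
  change dl • _ = dl • XX n • omF l
  rw [h2, h3, ev_Om, smul_smul, mul_comm]

private theorem C_om (l : ℕ) : TV.ρ (C l) (om (l + 1)) = bV.γ XQ (om l) := by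
  apply Subtype.ext
  change vρ MM (C l) (omF (l + 1)) = vρ MM (C 0) ((XQ.1 (El l) : V) : FM)
  rw [XQ_coe, El_coe, Xh_gamma, C_omF_mid]

private theorem zp_add (x : (Module.End R B)ˣ) (m n : ℤ) (w : B) :
    (x ^ (m + n)).1 w = (x ^ m).1 ((x ^ n).1 w) := by
  rw [zpow_add]; rfl

private theorem key_zero (s : bV.Sys α XQ YQ x y) :
    x.1 (a 2 • y⁻¹.1 (α (om 0)) + α (om 0)) - x⁻¹.1 (a 2 • y⁻¹.1 (α (om 0)) + α (om 0)) =
      -(f 0 • x⁻¹.1 (α (om 0))) := by
  have hY : YQ.1 (El 0) = El 0 := by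
    rw [YQ_El]
    simp [fin, pL, pR]
  have hκ : bV.κ (El 0) = dd • om 0 := bV.κι _
  have hX : bV.κ (XQ⁻¹.1 (El 0)) = bV.γ XQ (om 0) := by
    rw [← pair_XY.hX.γ_inv]; rfl
  have hJ := s.J (El 0)
  rw [hY, hX, hκ, s.GX] at hJ
  have t1 : ∀ w, x.1 (y⁻¹.1 w) = a 2 • y⁻¹.1 (x.1 w) := by
    intro w
    have h : x * y⁻¹ = sc _ 2 * (y⁻¹ * x) := by
      have := s.tor
      calc x * y⁻¹ = y⁻¹ * (y * x) * y⁻¹ := by group
        _ = y⁻¹ * (sc _ 2 * x * y) * y⁻¹ := by rw [this]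
        _ = (y⁻¹ * sc _ 2) * x := by group
        _ = _ := by rw [← sc_comm, mul_assoc]
    rw [← sc_apply]
    exact congr(($h).1 w)
  have t2 : ∀ w, y⁻¹.1 (x⁻¹.1 w) = a 2 • x⁻¹.1 (y⁻¹.1 w) := by
    intro w
    have h : y⁻¹ * x⁻¹ = sc _ 2 * (x⁻¹ * y⁻¹) := by
      have := s.tor
      calc y⁻¹ * x⁻¹ = (sc _ 2 * x * y)⁻¹ * sc _ 2 := by group
        _ = (x⁻¹ * y⁻¹) * sc _ 2 := by rw [← this, mul_inv_rev]
        _ = _ := (sc_comm _ _).symm
    rw [← sc_apply]
    exact congr(($h).1 w)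
  have h4 : a 4 = a 2 * a 2 := a_add 2 2
  have hf : f 0 = 1 - a 2 * a 2 := by rw [← h4]; simp [f]
  have hv : a 2 * a (-2) = 1 := a_mul_neg 2
  simp only [map_add, map_smul, t2, h4, dd] at hJ
  simp only [map_add, map_smul, t1, hf]
  linear_combination (norm := module) hJ + hv • x⁻¹.1 (α (om 0)) +
    hv • a 2 • x⁻¹.1 (y⁻¹.1 (α (om 0)))

theorem univ_exists (hα : GMap TV T α) (hx : x ∈ T.natU) (hy : y ∈ T.natU)
    (s : bV.Sys α XQ YQ x y)
    (hM : ∀ m, ∀ w ∈ TV.Lv (m + 1), α (TV.ρ (fin false 0 m) w) = a 6 • α w) :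
    ∃ φ : LL →ₗ[R] B, GMap TL T φ ∧
      (∀ l (n : ℤ), φ ((xT ^ n).1 (αL (om l))) = (x ^ n).1 (α (om l))) ∧
      ∀ n, φ (bL (.t n)) = -(x ^ (n + 1)).1 (a 2 • y⁻¹.1 (α (om 0)) + α (om 0)) := by
  have hxn : ∀ n : ℤ, T.Natl (x ^ n).1 := fun n => (T.natU.zpow_mem hx n).1
  have hg : ∀ n : ℤ, GMap TV T ((x ^ n).1 ∘ₗ α) := fun n => (hxn n).gmap.comp hα
  have harc : ∀ n : ℤ, T.Arcs fun l => (x ^ n).1 (α (om l)) := fun n => (hg n).arcs arcs_om
  obtain ⟨jj, hjj, hjo⟩ : ∃ jj : Vt →ₗ[R] B, GMap TVt T jj ∧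
      ∀ i, jj (ot i) = (x ^ i.2).1 (α (om i.1)) := by
    refine TM.gen_lift (g' := fun i : ℕ × ℤ => (x ^ i.2).1 (α (om i.1)))
      (fun i => (harc i.2).mem i.1) (Vt_graph harc fun l n => ?_)
    have h1 := (hg n).natC (l := l) (m := 2 * l) (by omega) (om_mem (l + 1))
    rw [C_om] at h1
    refine h1.symm.trans ?_
    rw [LinearMap.comp_apply, s.GX, map_add, zp_add, sub_eq_add_neg, zp_add]
    simp
  have hmon : ∀ m, ∀ w ∈ TVt.Lv (m + 1), T.ρ (fin false 0 m) (jj w) = a 6 • jj w := by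
    intro m w hw
    have hw' : w ∈ TVt.Gn ot (fun i => 2 * i.1) (m + 1) := TM.gen_Lv_le (m + 1) hw
    clear hw
    induction hw' using Submodule.span_induction with
    | mem w hw =>
      obtain ⟨i, z, hz, rfl⟩ := hw
      have h1 := TV.mem hz (om_mem i.1)
      have h2 := (hg i.2).nat hz (om_mem i.1)
      have h3 := (hg i.2).nat (loc_fin false (i := 0) (l := m) (m := m + 1) (by omega)) h1
      rw [hjj.nat hz (ot_mem i), hjo]
      simp only [LinearMap.comp_apply] at h2 h3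
      rw [← h2, ← h3, hM _ _ h1, map_smul]
    | zero => simp
    | add u v _ _ hu hv => rw [map_add, map_add, hu, hv, smul_add]
    | smul c u _ hu => rw [map_smul, map_smul, hu, smul_comm]
  let g : Box → B := fun b => match b with
    | .G k n => jj (gG k n)
    | .t n => -(x ^ (n + 1)).1 (a 2 • y⁻¹.1 (α (om 0)) + α (om 0))
  have hsph : T.Sph g := by
    refine ⟨fun b => ?_, fun k i n h1 h2 => ?_, fun k n => ?_, fun n => ?_, fun k n => ?_⟩
    · cases b with
      | G k n => exact hjj.mem (gG_mem k n)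
      | t n =>
        have h0 : α (om 0) ∈ T.Lv 0 := hα.mem (om_mem 0)
        exact neg_mem ((hxn _).2 0 _ (add_mem (Submodule.smul_mem _ _ (hy.2.2 0 _ h0)) h0))
    · obtain ⟨m, hm⟩ : ∃ m, 2 * k = m + 2 := ⟨2 * k - 2, by omega⟩
      have h3 := gG_mem k n
      rw [hm] at h3
      have h4 : TVt.ρ (C i) (gG k n) = 0 := by
        apply Subtype.ext
        rw [TVt_coe, gG_coe, vρ_smul, C_eta, if_neg (fun h => h2 h.1), smul_zero]
        rfl
      change T.ρ (C i) (jj (gG k n)) = 0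
      rw [← hjj.natC (by omega) h3, h4, map_zero]
    · have h4 : TVt.ρ (C k) (gG (k + 1) n) =
          gG k (n + 1) - a (-4 * (k + 1)) • gG k (n - 1) := by
        apply Subtype.ext
        rw [TVt_coe, gG_coe, vρ_smul, C_eta, if_pos ⟨rfl, by omega⟩, gG_mid]
        rfl
      change T.ρ (C k) (jj (gG (k + 1) n)) =
        jj (gG k (n + 1)) - a (-4 * (k + 1)) • jj (gG k (n - 1))
      rw [← hjj.natC (m := 2 * k) (by omega) (gG_mem (k + 1) n), h4, map_sub, map_smul]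
    · change f 0 • jj (gG 0 n) = -(x ^ (n + 1 + 1)).1 _ - -(x ^ (n - 1 + 1)).1 _
      have h1 := congrArg (x ^ (n + 1)).1 (key_zero s)
      have e1 : ∀ w, (x ^ (n + 1)).1 (x.1 w) = (x ^ (n + 1 + 1)).1 w := fun w => by
        rw [zp_add x (n + 1) 1, zpow_one]
      have e2 : ∀ w, (x ^ (n + 1)).1 (x⁻¹.1 w) = (x ^ n).1 w := fun w => by
        rw [← zpow_neg_one, ← zp_add, add_neg_cancel_right]
      rw [map_sub, map_neg, map_smul, e1, e2, e2] at h1
      rw [gG_zero, hjo, sub_add_cancel, neg_sub_neg, ← neg_sub, h1, neg_neg]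
    · have hw : gG k (n + 1) - a (-4 * (k + 1)) • gG k (n - 1) ∈ TVt.Lv (2 * k) :=
        sub_mem (gG_mem _ _) (Submodule.smul_mem _ _ (gG_mem _ _))
      have h4 : f (k + 1) • gG (k + 1) n -
          TVt.ρ (RtF k) (gG k (n + 1) - a (-4 * (k + 1)) • gG k (n - 1)) =
          a (3 * k + 2) • TVt.ρ (pR true 0 k)
            (TVt.ρ (fin false 0 (2 * k + 1)) (gG (k + 1) n) - a 6 • gG (k + 1) n) := by
        apply Subtype.ext
        have h5 := congrArg (fun w => (XX n * PQ (k + 1)) • w) (sphere_eq_mon (k := MM) k)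
        rw [Submodule.coe_sub, Submodule.coe_smul, TVt_coe, gG_mid, Submodule.coe_smul, TVt_coe,
          Submodule.coe_sub, Submodule.coe_smul, TVt_coe, gG_coe, vρ_smul, vρ_smul,
          smul_comm (f (k + 1)), smul_comm (a 6), ← smul_sub, ← smul_sub, vρ_smul,
          smul_comm (a (3 * k + 2))]
        simpa using h5
      have hl : gG (k + 1) n ∈ TVt.Lv (2 * k + 1 + 1) := gG_mem (k + 1) n
      have hf : Loc (2 * k + 1 + 1) (2 * k + 1 + 1) (fin false 0 (2 * k + 1)) :=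
        loc_fin false (by omega)
      have h6 := congrArg jj h4
      rw [map_sub, map_smul, hjj.nat (loc_RtF k) hw, map_smul,
        hjj.nat (loc_pR true (i := 0) (l := k) (m := 2 * k + 1 + 1) (by omega))
          (sub_mem (TVt.mem hf hl) (Submodule.smul_mem _ _ hl)), map_sub jj, map_smul,
        map_sub jj, map_smul, hjj.nat hf hl, hmon _ _ hl, sub_self, map_zero, smul_zero,
        sub_eq_zero] at h6
      exact h6
  obtain ⟨φ, hφ, hφb⟩ := L_lift hsph
  refine ⟨φ, hφ, fun l n => ?_, fun n => hφb (.t n)⟩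
  rw [αL_om, hφ.ev bL_mem (Om_mem_Rep l n), ← hjo (l, n), ← ev_gB,
    hjj.ev gB_mem (Om_mem_Rep l n)]
  exact ev_Om_congr _ (fun k n => hφb (.G k n)) l n

end Pool.Agent.P.MP_b3a239_gt
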