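import Pool.Agent.P.MP_b3a239_gt.VE1

/-! Raising, lowering and weight operators are natural. -/

set_option maxSynthPendingDepth 3

noncomputable section

namespace Pool.Agent.P.MP_b3a239_gt

variable {k : Type} [CommRing k] [Algebra R k]

omit [Algebra R k] in
theorem VE_ind {P : F k → Prop} (h0 : P 0) (hb : ∀ (c : k) (u : List Bool), P (c • bas k u))
    (ha : ∀ x y, P x → P y → P (x + y)) (w : F k) : P w := by
  induction w using Finsupp.induction_linear with
  | zero => exact h0
  | add x y hx hy => exact ha x y hx hy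
  | single u c =>
    have h : (Finsupp.single u c : F k) = c • bas k u := by
      rw [bas, Finsupp.smul_single, smul_eq_mul, mul_one]
    rw [h]
    exact hb c u

theorem VE_comm (T : F k →ₗ[k] F k)
    (hU : ∀ l u, T (vρ k (U l) (bas k u)) = vρ k (U l) (T (bas k u)))
    (hC : ∀ l u, T (vρ k (C l) (bas k u)) = vρ k (C l) (T (bas k u))) (x : FA) (w : F k) :
    T (vρ k x w) = vρ k x (T w) := by
  induction x using FreeAlgebra.induction generalizing w with
  | grade0 r =>
    rw [AlgHom.commutes, Module.algebraMap_end_apply, Module.algebraMap_end_apply,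
      LinearMap.map_smul_of_tower]
  | grade1 g =>
    have h : T ∘ₗ vρk k (FreeAlgebra.ι R g) = vρk k (FreeAlgebra.ι R g) ∘ₗ T := by
      refine F_ext fun u => ?_
      cases g with
      | u l => exact hU l u
      | c l => exact hC l u
    exact LinearMap.congr_fun h w
  | mul x y hx hy => rw [map_mul, Module.End.mul_apply, Module.End.mul_apply, hx, hy]
  | add x y hx hy => rw [map_add, LinearMap.add_apply, LinearMap.add_apply, map_add, hx, hy]

theorem VE_U_succ (l : ℕ) (b : Bool) (w : F k) :
    vρ k (U (l + 1)) (cons k b w) = cons k b (vρ k (U l) w) := by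
  rw [← shn_U 1 l, vρ_shn_cons]

theorem VE_C_succ (l : ℕ) (b : Bool) (w : F k) :
    vρ k (C (l + 1)) (cons k b w) = cons k b (vρ k (C l) w) := by
  rw [← shn_C 1 l, vρ_shn_cons]

theorem VE_U_nil (l : ℕ) : vρ k (U (l + 1)) (bas k []) = 0 := by rw [vρ_U_bas]; rfl

theorem VE_C_nil (l : ℕ) : vρ k (C l) (bas k []) = 0 := by
  rw [vρ_C_bas]
  cases l <;> rfl

theorem VE_C_one (b : Bool) : vρ k (C 0) (cons k b (bas k [])) = 0 := by
  rw [cons_bas, vρ_C_bas]
  cases b <;> rfl

theorem VE_smul1 (w : F k) : a (-2) • a 2 • w = w := by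
  rw [smul_smul, ← a_add, neg_add_cancel, a_zero, one_smul]

theorem VE_smul2 (w : F k) : a 2 • a (-2) • w = w := by
  rw [smul_smul, ← a_add, add_neg_cancel, a_zero, one_smul]

theorem VE_prW_bas (n : ℤ) (u : List Bool) :
    prW k n (bas k u) = if wt u = n then bas k u else 0 := lin_bas _ u

theorem VE_wt_snoc (b : Bool) (u : List Bool) : wt (u ++ [b]) = wt u + if b then 1 else -1 := by
  induction u with
  | nil => simp [wt]
  | cons c u ih => rw [List.cons_append, wt, wt, ih, add_assoc]

theorem VE_prW_cons (n : ℤ) (b : Bool) (w : F k) :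
    prW k (n + if b then 1 else -1) (cons k b w) = cons k b (prW k n w) := by
  have h : prW k (n + if b then 1 else -1) ∘ₗ cons k b = cons k b ∘ₗ prW k n := by
    refine F_ext fun u => ?_
    rw [LinearMap.comp_apply, LinearMap.comp_apply, cons_bas, VE_prW_bas, VE_prW_bas, wt]
    by_cases hu : wt u = n
    · rw [if_pos hu, if_pos (by rw [hu, add_comm]), cons_bas]
    · rw [if_neg hu, if_neg (fun h => hu (by omega)), map_zero]
  exact LinearMap.congr_fun h w

theorem VE_prW_true (n : ℤ) (w : F k) :
    prW k n (cons k true w) = cons k true (prW k (n - 1) w) := by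
  rw [← VE_prW_cons, if_pos rfl, sub_add_cancel]

theorem VE_prW_false (n : ℤ) (w : F k) :
    prW k n (cons k false w) = cons k false (prW k (n + 1) w) := by
  rw [← VE_prW_cons, if_neg Bool.false_ne_true, add_neg_cancel_right]

theorem VE_prW_nil {T : F k →ₗ[R] F k} (h : T (bas k []) = 0) (n : ℤ) :
    T (prW k n (bas k [])) = 0 := by
  rw [VE_prW_bas]
  split_ifs
  · exact h
  · exact map_zero T

theorem VE_prW_U (l : ℕ) : ∀ (n : ℤ) (u : List Bool),
    prW k n (vρ k (U l) (bas k u)) = vρ k (U l) (prW k n (bas k u)) := by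
  induction l with
  | zero =>
    intro n u
    rw [vρ_U_zero, vρ_U_zero, map_sub, LinearMap.map_smul_of_tower, VE_prW_false, VE_prW_true,
      VE_prW_true, VE_prW_false, add_sub_cancel_right, sub_add_cancel]
  | succ l ih =>
    intro n u
    rcases u with _ | ⟨b, u⟩
    · rw [VE_prW_nil (VE_U_nil l), VE_U_nil, map_zero]
    · rw [← cons_bas, VE_U_succ]
      cases b
      · rw [VE_prW_false, VE_prW_false, VE_U_succ, ih]
      · rw [VE_prW_true, VE_prW_true, VE_U_succ, ih]

theorem VE_prW_C (l : ℕ) : ∀ (n : ℤ) (u : List Bool),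
    prW k n (vρ k (C l) (bas k u)) = vρ k (C l) (prW k n (bas k u)) := by
  induction l with
  | zero =>
    intro n u
    rcases u with _ | ⟨b, _ | ⟨c, u⟩⟩
    · rw [VE_prW_nil (VE_C_nil 0), VE_C_nil, map_zero]
    · rw [VE_prW_bas, ← cons_bas, VE_C_one, map_zero]
      split_ifs
      · rw [VE_C_one]
      · rw [map_zero]
    · rw [← cons_bas, ← cons_bas c]
      cases b <;> cases c <;>
        simp [VE_prW_true, VE_prW_false, vρ_C_zero, LinearMap.map_smul_of_tower, -cons_bas]
  | succ l ih =>
    intro n u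
    rcases u with _ | ⟨b, u⟩
    · rw [VE_prW_nil (VE_C_nil _), VE_C_nil, map_zero]
    · rw [← cons_bas, VE_C_succ]
      cases b
      · rw [VE_prW_false, VE_prW_false, VE_C_succ, ih]
      · rw [VE_prW_true, VE_prW_true, VE_C_succ, ih]

theorem EE_vρ (x : FA) (w : F k) : EE k (vρ k x w) = vρ k x (EE k w) := by
  refine VE_comm (EE k) (fun l => ?_) (fun l => ?_) x w
  · induction l with
    | zero =>
      intro u
      simp only [vρ_U_zero, map_sub, map_add, LinearMap.map_smul_of_tower, EE_true, EE_false,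
        smul_add, VE_smul1, VE_smul2]
      abel
    | succ l ih =>
      rintro (_ | ⟨b, u⟩)
      · rw [VE_U_nil, EE_nil, map_zero, map_zero]
      · rw [← cons_bas, VE_U_succ]
        cases b <;> simp only [EE_true, EE_false, map_add, map_smul, VE_U_succ, ih]
  · induction l with
    | zero =>
      rintro (_ | ⟨b, _ | ⟨c, u⟩⟩)
      · rw [VE_C_nil, EE_nil, map_zero, map_zero]
      · rw [← cons_bas, VE_C_one]
        cases b <;>
          simp only [EE_true, EE_false, EE_nil, map_add, map_zero, smul_zero, VE_C_one, add_zero]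
      · rw [← cons_bas, ← cons_bas c]
        cases b <;> cases c <;>
          simp [EE_true, EE_false, vρ_C_zero, LinearMap.map_smul_of_tower, VE_smul1, VE_smul2,
            -cons_bas]
    | succ l ih =>
      rintro (_ | ⟨b, u⟩)
      · rw [VE_C_nil, EE_nil, map_zero, map_zero]
      · rw [← cons_bas, VE_C_succ]
        cases b <;> simp only [EE_true, EE_false, map_add, map_smul, VE_C_succ, ih]
theorem FF_vρ (x : FA) (w : F k) : FF k (vρ k x w) = vρ k x (FF k w) := by
  refine VE_comm (FF k) (fun l => ?_) (fun l => ?_) x w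
  · induction l with
    | zero =>
      intro u
      simp only [vρ_U_zero, map_sub, map_add, LinearMap.map_smul_of_tower, FF_true, FF_false,
        smul_add, VE_smul1, VE_smul2]
      abel
    | succ l ih =>
      rintro (_ | ⟨b, u⟩)
      · rw [VE_U_nil, FF_nil, map_zero, map_zero]
      · rw [← cons_bas, VE_U_succ]
        cases b <;> simp only [FF_true, FF_false, map_add, map_smul, VE_U_succ, ih]
  · induction l with
    | zero =>
      rintro (_ | ⟨b, _ | ⟨c, u⟩⟩)
      · rw [VE_C_nil, FF_nil, map_zero, map_zero]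
      · rw [← cons_bas, VE_C_one]
        cases b <;>
          simp only [FF_true, FF_false, FF_nil, map_add, map_zero, smul_zero, VE_C_one, add_zero]
      · rw [← cons_bas, ← cons_bas c]
        cases b <;> cases c <;>
          simp [FF_true, FF_false, vρ_C_zero, LinearMap.map_smul_of_tower, VE_smul1, VE_smul2,
            -cons_bas]
    | succ l ih =>
      rintro (_ | ⟨b, u⟩)
      · rw [VE_C_nil, FF_nil, map_zero, map_zero]
      · rw [← cons_bas, VE_C_succ]
        cases b <;> simp only [FF_true, FF_false, map_add, map_smul, VE_C_succ, ih]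
theorem Et_vρ (x : FA) (w : F k) : Et k (vρ k x w) = vρ k x (Et k w) := by
  rw [Et_apply, Et_apply, EE_vρ, map_smul]
theorem prW_vρ (n : ℤ) (x : FA) (w : F k) : prW k n (vρ k x w) = vρ k x (prW k n w) :=
  VE_comm (prW k n) (fun l u => VE_prW_U l n u) (fun l u => VE_prW_C l n u) x w
theorem prW_EE (n : ℤ) (w : F k) : prW k (n + 2) (EE k w) = EE k (prW k n w) := by
  have h : ∀ (u : List Bool) (n : ℤ),
      prW k (n + 2) (EE k (bas k u)) = EE k (prW k n (bas k u)) := by
    intro u
    induction u with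
    | nil =>
      intro n
      rw [EE_nil, map_zero, VE_prW_bas]
      split_ifs
      · rw [EE_nil]
      · rw [map_zero]
    | cons b u ih =>
      intro n
      rw [← cons_bas]
      cases b
      · rw [EE_false, map_add, LinearMap.map_smul_of_tower, VE_prW_true, VE_prW_false,
          VE_prW_false, EE_false, ← ih, add_right_comm n 2 1,
          show n + 2 - 1 = n + 1 by omega]
      · rw [EE_true, LinearMap.map_smul_of_tower, VE_prW_true, VE_prW_true, EE_true, ← ih,
          show n + 2 - 1 = n - 1 + 2 by omega]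
  have h' : prW k (n + 2) ∘ₗ EE k = EE k ∘ₗ prW k n := F_ext fun u => h u n
  exact LinearMap.congr_fun h' w
theorem KP_of_prW {n j : ℤ} {m : ℕ} {w : F k} (hw : w ∈ vLv k m) (h : prW k j w = w) :
    KP k n m w = a (n * j) • w := by
  have key : KP k n m (prW k j w) = a (n * j) • prW k j w := by
    clear h
    refine vLv_ind (P := fun w => KP k n m (prW k j w) = a (n * j) • prW k j w) ?_ ?_ ?_ ?_ hw
    · simp only [map_zero, smul_zero]
    · intro u hu
      rw [VE_prW_bas]
      split_ifs with hj
      · rw [KP, lin_bas, ← hu, List.take_length, hj]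
      · rw [map_zero, smul_zero]
    · intro c w _ hw
      rw [map_smul, map_smul, hw, smul_comm]
    · intro u w _ _ hu hw
      rw [map_add, map_add, hu, hw, smul_add]
  rwa [h] at key
theorem prW_cons (n : ℤ) (b : Bool) (w : F k) :
    prW k (n + if b then 1 else -1) (cons k b w) = cons k b (prW k n w) :=
  VE_prW_cons n b w
theorem prW_snoc (n : ℤ) (b : Bool) (w : F k) :
    prW k (n + if b then 1 else -1) (snoc k b w) = snoc k b (prW k n w) := by
  have h : prW k (n + if b then 1 else -1) ∘ₗ snoc k b = snoc k b ∘ₗ prW k n := by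
    refine F_ext fun u => ?_
    rw [LinearMap.comp_apply, LinearMap.comp_apply, snoc_bas, VE_prW_bas, VE_prW_bas, VE_wt_snoc]
    by_cases hu : wt u = n
    · rw [if_pos hu, if_pos (by rw [hu]), snoc_bas]
    · rw [if_neg hu, if_neg (fun h => hu (by omega)), map_zero]
  exact LinearMap.congr_fun h w

section Cmap
variable {k' : Type} [CommRing k'] [Algebra R k'] (χ : k →ₗ[R] k')

/-- two vectors with the same coefficients from the ground ring -/
def VE_Rel (x : F k) (y : F k') : Prop := ∀ c : k, cmap χ (c • x) = χ c • y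

theorem VE_Rel_zero : VE_Rel χ 0 0 := fun c => by rw [smul_zero, smul_zero, map_zero]

theorem VE_Rel_bas (u : List Bool) : VE_Rel χ (bas k u) (bas k' u) := fun c => cmap_smul_bas χ c u

theorem VE_Rel_add {x x' : F k} {y y' : F k'} (h : VE_Rel χ x y) (h' : VE_Rel χ x' y') :
    VE_Rel χ (x + x') (y + y') := fun c => by rw [smul_add, smul_add, map_add, h c, h' c]

theorem VE_Rel_smul (r : R) {x : F k} {y : F k'} (h : VE_Rel χ x y) :
    VE_Rel χ (r • x) (r • y) := fun c => by rw [smul_comm c r x, map_smul, h c, smul_comm]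

theorem VE_Rel_cons (b : Bool) {x : F k} {y : F k'} (h : VE_Rel χ x y) :
    VE_Rel χ (cons k b x) (cons k' b y) := fun c => by
  rw [← map_smul, cmap_cons, h c, map_smul]

theorem VE_Rel_eL (l : ℕ) : ∀ u : List Bool, VE_Rel χ (eL k l u) (eL k' l u) := by
  induction l with
  | zero => exact fun _ => VE_Rel_zero χ
  | succ l ih =>
    rintro (_ | ⟨_ | _, u⟩)
    · exact VE_Rel_zero χ
    · exact VE_Rel_add χ (VE_Rel_bas χ _) (VE_Rel_smul χ _ (VE_Rel_cons χ _ (ih u)))
    · exact VE_Rel_smul χ _ (VE_Rel_cons χ _ (ih u))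

theorem VE_Rel_fL (l : ℕ) : ∀ u : List Bool, VE_Rel χ (fL k l u) (fL k' l u) := by
  induction l with
  | zero => exact fun _ => VE_Rel_zero χ
  | succ l ih =>
    rintro (_ | ⟨_ | _, u⟩)
    · exact VE_Rel_zero χ
    · exact VE_Rel_smul χ _ (VE_Rel_cons χ _ (ih u))
    · exact VE_Rel_add χ (VE_Rel_bas χ _) (VE_Rel_smul χ _ (VE_Rel_cons χ _ (ih u)))

theorem VE_cmap_lin {φ : List Bool → F k} {φ' : List Bool → F k'}
    (h : ∀ u, VE_Rel χ (φ u) (φ' u)) (w : F k) : cmap χ (lin φ w) = lin φ' (cmap χ w) := by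
  induction w using VE_ind with
  | h0 => rw [map_zero, map_zero, map_zero]
  | hb c u => rw [map_smul (lin φ), lin_bas, h u c, cmap_smul_bas, map_smul, lin_bas]
  | ha x y hx hy => rw [map_add, map_add, map_add, map_add, hx, hy]

theorem cmap_EE (w : F k) : cmap χ (EE k w) = EE k' (cmap χ w) :=
  VE_cmap_lin χ (fun u => VE_Rel_eL χ u.length u) w
theorem cmap_FF (w : F k) : cmap χ (FF k w) = FF k' (cmap χ w) :=
  VE_cmap_lin χ (fun u => VE_Rel_fL χ u.length u) w
theorem cmap_Et (w : F k) : cmap χ (Et k w) = Et k' (cmap χ w) := by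
  rw [Et_apply, Et_apply, map_smul, cmap_EE]
theorem cmap_EP (l : ℕ) (w : F k) : cmap χ (EP k l w) = EP k' l (cmap χ w) :=
  VE_cmap_lin χ (VE_Rel_eL χ l) w
theorem cmap_FP (l : ℕ) (w : F k) : cmap χ (FP k l w) = FP k' l (cmap χ w) :=
  VE_cmap_lin χ (VE_Rel_fL χ l) w
theorem cmap_KP (n : ℤ) (l : ℕ) (w : F k) : cmap χ (KP k n l w) = KP k' n l (cmap χ w) :=
  VE_cmap_lin χ (fun u => VE_Rel_smul χ _ (VE_Rel_bas χ u)) w

end Cmap

end Pool.Agent.P.MP_b3a239_gt
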