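import Pool.Agent.P.MP_b3a239_gt.VRel

/-! Raising, lowering and weight operators. -/

set_option maxSynthPendingDepth 3

noncomputable section

namespace Pool.Agent.P.MP_b3a239_gt

variable {k : Type} [CommRing k] [Algebra R k]

private theorem split (w : F k) :
    ∃ (c : k) (u v : F k), w = c • bas k [] + cons k true u + cons k false v := by
  induction w using Finsupp.induction_linear with
  | zero => exact ⟨0, 0, 0, by simp⟩
  | add x y hx hy =>
    obtain ⟨c, u, v, rfl⟩ := hx
    obtain ⟨c', u', v', rfl⟩ := hy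
    exact ⟨c + c', u + u', v + v', by simp only [add_smul, map_add]; abel⟩
  | single x c =>
    have h : Finsupp.single x c = c • bas k x := by simp [bas]
    rw [h]
    rcases x with _ | ⟨_ | _, x⟩
    · exact ⟨c, 0, 0, by simp⟩
    · exact ⟨0, 0, c • bas k x, by simp⟩
    · exact ⟨0, c • bas k x, 0, by simp⟩

private theorem EP_nil (l : ℕ) : EP k l (bas k []) = 0 := by cases l <;> simp [EP, eL]
private theorem FP_nil (l : ℕ) : FP k l (bas k []) = 0 := by cases l <;> simp [FP, fL]
private theorem KP_nil (n : ℤ) (l : ℕ) : KP k n l (bas k []) = bas k [] := by simp [KP, wt]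
private theorem KP_bas (n : ℤ) (l : ℕ) (u : List Bool) :
    KP k n l (bas k u) = a (n * wt (u.take l)) • bas k u := lin_bas _ _
private theorem snoc_nil (b : Bool) : snoc k b (bas k []) = cons k b (bas k []) := by simp

@[simp] theorem EP_zero : EP k 0 = 0 := F_ext fun u => by simp [EP, eL]
@[simp] theorem FP_zero : FP k 0 = 0 := F_ext fun u => by simp [FP, fL]
@[simp] theorem KP_zero (n : ℤ) : KP k n 0 = LinearMap.id := F_ext fun u => by simp [KP, wt]
theorem EP_true (l : ℕ) (w : F k) :
    EP k (l + 1) (cons k true w) = a 2 • cons k true (EP k l w) :=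
  LinearMap.congr_fun (F_ext (φ := EP k (l + 1) ∘ₗ cons k true)
    (ψ := a 2 • (cons k true ∘ₗ EP k l)) fun u => by simp [EP, eL]) w
theorem EP_false (l : ℕ) (w : F k) :
    EP k (l + 1) (cons k false w) = cons k true w + a (-2) • cons k false (EP k l w) :=
  LinearMap.congr_fun (F_ext (φ := EP k (l + 1) ∘ₗ cons k false)
    (ψ := cons k true + a (-2) • (cons k false ∘ₗ EP k l)) fun u => by simp [EP, eL]) w
theorem FP_true (l : ℕ) (w : F k) :
    FP k (l + 1) (cons k true w) = cons k false w + a 2 • cons k true (FP k l w) :=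
  LinearMap.congr_fun (F_ext (φ := FP k (l + 1) ∘ₗ cons k true)
    (ψ := cons k false + a 2 • (cons k true ∘ₗ FP k l)) fun u => by simp [FP, fL]) w
theorem FP_false (l : ℕ) (w : F k) :
    FP k (l + 1) (cons k false w) = a (-2) • cons k false (FP k l w) :=
  LinearMap.congr_fun (F_ext (φ := FP k (l + 1) ∘ₗ cons k false)
    (ψ := a (-2) • (cons k false ∘ₗ FP k l)) fun u => by simp [FP, fL]) w
theorem KP_cons (n : ℤ) (l : ℕ) (b : Bool) (w : F k) :
    KP k n (l + 1) (cons k b w) = a (if b then n else -n) • cons k b (KP k n l w) :=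
  LinearMap.congr_fun (F_ext (φ := KP k n (l + 1) ∘ₗ cons k b)
    (ψ := a (if b then n else -n) • (cons k b ∘ₗ KP k n l)) fun u => by 
      cases b <;> simp [KP_bas, wt, smul_smul, ← a_add, mul_add]) w
@[simp] theorem EE_nil : EE k (bas k []) = 0 := by simp [EE, eL]
@[simp] theorem FF_nil : FF k (bas k []) = 0 := by simp [FF, fL]
theorem EE_true (w : F k) : EE k (cons k true w) = a 2 • cons k true (EE k w) :=
  LinearMap.congr_fun (F_ext (φ := EE k ∘ₗ cons k true)
    (ψ := a 2 • (cons k true ∘ₗ EE k)) fun u => by simp [EE, eL]) w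
theorem EE_false (w : F k) :
    EE k (cons k false w) = cons k true w + a (-2) • cons k false (EE k w) :=
  LinearMap.congr_fun (F_ext (φ := EE k ∘ₗ cons k false)
    (ψ := cons k true + a (-2) • (cons k false ∘ₗ EE k)) fun u => by simp [EE, eL]) w
theorem FF_true (w : F k) :
    FF k (cons k true w) = cons k false w + a 2 • cons k true (FF k w) :=
  LinearMap.congr_fun (F_ext (φ := FF k ∘ₗ cons k true)
    (ψ := cons k false + a 2 • (cons k true ∘ₗ FF k)) fun u => by simp [FF, fL]) w
theorem FF_false (w : F k) : FF k (cons k false w) = a (-2) • cons k false (FF k w) :=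
  LinearMap.congr_fun (F_ext (φ := FF k ∘ₗ cons k false)
    (ψ := a (-2) • (cons k false ∘ₗ FF k)) fun u => by simp [FF, fL]) w
theorem Et_apply (w : F k) : Et k w = f 0 • EE k w := rfl
theorem Et_true (w : F k) : Et k (cons k true w) = a 2 • cons k true (Et k w) := by
  rw [Et_apply, Et_apply, EE_true, LinearMap.map_smul_of_tower, smul_comm]
theorem Et_false (w : F k) :
    Et k (cons k false w) = f 0 • cons k true w + a (-2) • cons k false (Et k w) := by
  rw [Et_apply, Et_apply, EE_false, LinearMap.map_smul_of_tower, smul_add, smul_comm (f 0) (a (-2))]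

theorem EE_eq_EP {l m : ℕ} (h : m ≤ l) {w : F k} (hw : w ∈ vLv k m) : EE k w = EP k l w := by
  induction m generalizing l w with
  | zero => rw [eq_of_mem_vLv_zero hw, map_smul, map_smul, EE_nil, EP_nil]
  | succ m ih =>
    obtain ⟨l, rfl⟩ : ∃ l', l = l' + 1 := ⟨l - 1, by omega⟩
    obtain ⟨u, hu, v, hv, rfl⟩ := exists_cons_of_mem_vLv hw
    simp only [map_add, EE_true, EE_false, EP_true, EP_false, ih (Nat.le_of_succ_le_succ h) hu,
      ih (Nat.le_of_succ_le_succ h) hv]
theorem FF_eq_FP {l m : ℕ} (h : m ≤ l) {w : F k} (hw : w ∈ vLv k m) : FF k w = FP k l w := by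
  induction m generalizing l w with
  | zero => rw [eq_of_mem_vLv_zero hw, map_smul, map_smul, FF_nil, FP_nil]
  | succ m ih =>
    obtain ⟨l, rfl⟩ : ∃ l', l = l' + 1 := ⟨l - 1, by omega⟩
    obtain ⟨u, hu, v, hv, rfl⟩ := exists_cons_of_mem_vLv hw
    simp only [map_add, FF_true, FF_false, FP_true, FP_false, ih (Nat.le_of_succ_le_succ h) hu,
      ih (Nat.le_of_succ_le_succ h) hv]
theorem EP_mem {l m : ℕ} {w : F k} (hw : w ∈ vLv k m) : EP k l w ∈ vLv k m := by
  induction m generalizing l w with
  | zero =>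
    rw [eq_of_mem_vLv_zero hw, map_smul, EP_nil, smul_zero]
    exact zero_mem _
  | succ m ih =>
    rcases l with _ | l
    · simp
    obtain ⟨u, hu, v, hv, rfl⟩ := exists_cons_of_mem_vLv hw
    rw [map_add, EP_true, EP_false]
    exact add_mem (Submodule.smul_mem _ _ (cons_mem_vLv _ (ih hu)))
      (add_mem (cons_mem_vLv _ hv) (Submodule.smul_mem _ _ (cons_mem_vLv _ (ih hv))))
theorem FP_mem {l m : ℕ} {w : F k} (hw : w ∈ vLv k m) : FP k l w ∈ vLv k m := by
  induction m generalizing l w with
  | zero =>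
    rw [eq_of_mem_vLv_zero hw, map_smul, FP_nil, smul_zero]
    exact zero_mem _
  | succ m ih =>
    rcases l with _ | l
    · simp
    obtain ⟨u, hu, v, hv, rfl⟩ := exists_cons_of_mem_vLv hw
    rw [map_add, FP_true, FP_false]
    exact add_mem (add_mem (cons_mem_vLv _ hu) (Submodule.smul_mem _ _ (cons_mem_vLv _ (ih hu))))
      (Submodule.smul_mem _ _ (cons_mem_vLv _ (ih hv)))
theorem KP_mem {n : ℤ} {l m : ℕ} {w : F k} (hw : w ∈ vLv k m) : KP k n l w ∈ vLv k m := by
  refine vLv_ind (P := fun w => KP k n l w ∈ vLv k m) (by simp) (fun u hu => ?_)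
    (fun c w _ h => ?_) (fun u w _ _ h h' => ?_) hw
  · rw [KP_bas, ← hu]
    exact Submodule.smul_mem _ _ (bas_mem_vLv u)
  · rw [map_smul]
    exact smul_mem_vLv c h
  · rw [map_add]
    exact add_mem h h'
theorem EE_mem {m : ℕ} {w : F k} (hw : w ∈ vLv k m) : EE k w ∈ vLv k m := by
  rw [EE_eq_EP le_rfl hw]
  exact EP_mem hw
theorem FF_mem {m : ℕ} {w : F k} (hw : w ∈ vLv k m) : FF k w ∈ vLv k m := by
  rw [FF_eq_FP le_rfl hw]
  exact FP_mem hw

theorem KP_KP (n n' : ℤ) (l : ℕ) (w : F k) : KP k n l (KP k n' l w) = KP k (n + n') l w :=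
  LinearMap.congr_fun (F_ext (φ := KP k n l ∘ₗ KP k n' l)
    (ψ := KP k (n + n') l) fun u => by 
      simp [KP_bas, smul_smul, ← a_add, add_mul, add_comm]) w
theorem KP_zero' (l : ℕ) (w : F k) : KP k 0 l w = w :=
  LinearMap.congr_fun (F_ext (φ := KP k 0 l)
    (ψ := LinearMap.id) fun u => by simp [KP_bas]) w
theorem KP_EP (n : ℤ) (l : ℕ) (w : F k) :
    KP k n l (EP k l w) = a (2 * n) • EP k l (KP k n l w) := by
  induction l generalizing w with
  | zero => simp
  | succ l ih =>
    obtain ⟨c, u, v, rfl⟩ := split w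
    simp only [map_add, map_smul, EP_nil, KP_nil, EP_true, EP_false, KP_cons, ih, smul_zero,
      map_zero, zero_add, LinearMap.map_smul_of_tower, smul_add, smul_smul, ← a_add, if_true,
      Bool.false_eq_true, if_false]
    ring_nf
theorem KP_FP (n : ℤ) (l : ℕ) (w : F k) :
    KP k n l (FP k l w) = a (-(2 * n)) • FP k l (KP k n l w) := by
  induction l generalizing w with
  | zero => simp
  | succ l ih =>
    obtain ⟨c, u, v, rfl⟩ := split w
    simp only [map_add, map_smul, FP_nil, KP_nil, FP_true, FP_false, KP_cons, ih, smul_zero,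
      map_zero, zero_add, LinearMap.map_smul_of_tower, smul_add, smul_smul, ← a_add, if_true,
      Bool.false_eq_true, if_false]
    ring_nf
theorem EP_FP (l : ℕ) (w : F k) :
    f 0 • (EP k l (FP k l w) - a (-4) • FP k l (EP k l w)) = w - KP k 4 l w := by
  induction l generalizing w with
  | zero => simp
  | succ l ih =>
    obtain ⟨c, u, v, rfl⟩ := split w
    have hu := congrArg (cons k true) (ih u)
    have hv := congrArg (cons k false) (ih v)
    have h1 : a 2 * a (-2) = 1 := a_mul_neg 2
    have h2 : a 4 = a 2 * a 2 := by rw [← a_add]; rfl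
    have h3 : a (-4) = a (-2) * a (-2) := by rw [← a_add]; rfl
    have h4 : f 0 = 1 - a 2 * a 2 := by rw [← h2]; rfl
    simp only [map_add, map_sub, map_smul, EP_nil, FP_nil, KP_nil, EP_true, EP_false, FP_true,
      FP_false, KP_cons, smul_zero, map_zero, zero_add, LinearMap.map_smul_of_tower, if_true,
      Bool.false_eq_true, if_false, h2, h3, h4] at hu hv ⊢
    linear_combination (norm := skip) (a 2 * a 2) • hu + (a (-2) * a (-2)) • hv
    generalize c • bas k [] = z
    match_scalars <;> grind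

/-- operators on the first `l` letters do not see a letter added at the right end -/
theorem EP_snoc {l m : ℕ} (h : l ≤ m) (b : Bool) {w : F k} (hw : w ∈ vLv k m) :
    EP k l (snoc k b w) = snoc k b (EP k l w) := by
  induction l generalizing m w with
  | zero => simp
  | succ l ih =>
    obtain ⟨m, rfl⟩ : ∃ m', m = m' + 1 := ⟨m - 1, by omega⟩
    obtain ⟨u, hu, v, hv, rfl⟩ := exists_cons_of_mem_vLv hw
    simp only [map_add, ← cons_snoc, EP_true, EP_false, LinearMap.map_smul_of_tower,
      ih (Nat.le_of_succ_le_succ h) hu, ih (Nat.le_of_succ_le_succ h) hv]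
theorem FP_snoc {l m : ℕ} (h : l ≤ m) (b : Bool) {w : F k} (hw : w ∈ vLv k m) :
    FP k l (snoc k b w) = snoc k b (FP k l w) := by
  induction l generalizing m w with
  | zero => simp
  | succ l ih =>
    obtain ⟨m, rfl⟩ : ∃ m', m = m' + 1 := ⟨m - 1, by omega⟩
    obtain ⟨u, hu, v, hv, rfl⟩ := exists_cons_of_mem_vLv hw
    simp only [map_add, ← cons_snoc, FP_true, FP_false, LinearMap.map_smul_of_tower,
      ih (Nat.le_of_succ_le_succ h) hu, ih (Nat.le_of_succ_le_succ h) hv]
theorem KP_snoc {l m : ℕ} (h : l ≤ m) (n : ℤ) (b : Bool) {w : F k} (hw : w ∈ vLv k m) :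
    KP k n l (snoc k b w) = snoc k b (KP k n l w) := by
  induction l generalizing m w with
  | zero => simp
  | succ l ih =>
    obtain ⟨m, rfl⟩ : ∃ m', m = m' + 1 := ⟨m - 1, by omega⟩
    obtain ⟨u, hu, v, hv, rfl⟩ := exists_cons_of_mem_vLv hw
    simp only [map_add, ← cons_snoc, KP_cons, LinearMap.map_smul_of_tower,
      ih (Nat.le_of_succ_le_succ h) hu, ih (Nat.le_of_succ_le_succ h) hv]
theorem EE_snoc {m : ℕ} (b : Bool) {w : F k} (hw : w ∈ vLv k m) : EE k (snoc k b w) =
    snoc k b (EE k w) + if b then 0 else snoc k true (KP k 2 m w) := by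
  induction m generalizing w with
  | zero =>
    rw [eq_of_mem_vLv_zero hw]
    cases b <;> simp only [map_smul, snoc_nil, EE_true, EE_false, EE_nil, KP_nil] <;> simp
  | succ m ih =>
    obtain ⟨u, hu, v, hv, rfl⟩ := exists_cons_of_mem_vLv hw
    cases b <;> simp only [map_add, ← cons_snoc, EE_true, EE_false, KP_cons, ih hu, ih hv,
      LinearMap.map_smul_of_tower, smul_add, if_true, Bool.false_eq_true, if_false, add_zero] <;>
      abel
theorem FF_snoc {m : ℕ} (b : Bool) {w : F k} (hw : w ∈ vLv k m) : FF k (snoc k b w) =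
    snoc k b (FF k w) + if b then snoc k false (KP k 2 m w) else 0 := by
  induction m generalizing w with
  | zero =>
    rw [eq_of_mem_vLv_zero hw]
    cases b <;> simp only [map_smul, snoc_nil, FF_true, FF_false, FF_nil, KP_nil] <;> simp
  | succ m ih =>
    obtain ⟨u, hu, v, hv, rfl⟩ := exists_cons_of_mem_vLv hw
    cases b <;> simp only [map_add, ← cons_snoc, FF_true, FF_false, KP_cons, ih hu, ih hv,
      LinearMap.map_smul_of_tower, smul_add, if_true, Bool.false_eq_true, if_false, add_zero] <;>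
      abel

end Pool.Agent.P.MP_b3a239_gt
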