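import Pool.Agent.P.MP_b3a239_gt.VE
import Pool.Agent.P.MP_b3a239_gt.Span

/-! The normal forms are a basis of the vertex model. -/

set_option maxSynthPendingDepth 3

noncomputable section

namespace Pool.Agent.P.MP_b3a239_gt

variable {k : Type} [CommRing k] [Algebra R k]

omit [Algebra R k] in
theorem VNF_eta_true (x y : ℕ) : eta k (x + 1) y = cons k true (eta k x y) := by
  rw [eta, eta, cons_bas]
  rfl

omit [Algebra R k] in
theorem VNF_eta_false (y : ℕ) : eta k 0 (y + 1) = cons k false (eta k 0 y) := by
  rw [eta, eta, cons_bas]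
  rfl

theorem VNF_nil : NF k [] = bas k [] := by
  show vρ k 1 (eta k 0 0) = bas k []
  rw [map_one]
  rfl

theorem VNF_true (w : List Bool) : NF k (true :: w) = cons k true (NF k w) := by
  show vρ k (shn 1 (cups w)) (eta k ((core w).1 + 1) (core w).2) = _
  rw [VNF_eta_true, vρ_shn_cons]
  rfl

theorem VNF_false (w : List Bool) :
    ∃ z ∈ vLv k w.length, NF k (false :: w) = cons k false (NF k w) + cons k true z := by
  by_cases h : (core w).1 = 0
  · refine ⟨0, Submodule.zero_mem _, ?_⟩
    have h1 : core (false :: w) = (0, (core w).2 + 1) := by simp only [core, if_pos h]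
    have h2 : cups (false :: w) = shn 1 (cups w) := by simp only [cups, if_pos h]
    rw [NF, h1, h2, map_zero, add_zero]
    show vρ k (shn 1 (cups w)) (eta k 0 ((core w).2 + 1)) = _
    rw [VNF_eta_false, vρ_shn_cons, NF, h]
  · obtain ⟨x, hx⟩ := Nat.exists_eq_succ_of_ne_zero h
    have h1 : core (false :: w) = (x, (core w).2) := by
      simp only [core, if_neg h]
      rw [hx]
      rfl
    have h2 : cups (false :: w) = shn 1 (cups w) * U 0 := by simp only [cups, if_neg h]
    refine ⟨-(a (-2) • vρ k (cups w) (cons k false (eta k x (core w).2))), ?_, ?_⟩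
    · apply Submodule.neg_mem
      apply Submodule.smul_mem
      apply (TF k).mem (cupW_cups w).loc
      have h3 := cons_mem_vLv false (eta_mem_vLv (k := k) x (core w).2)
      rw [hx, show x.succ + (core w).2 = x + (core w).2 + 1 by omega]
      exact h3
    · rw [NF, h1, h2]
      show vρ k (shn 1 (cups w) * U 0) (eta k x (core w).2) = _
      rw [map_mul, Module.End.mul_apply, vρ_U_zero, map_sub, map_smul, vρ_shn_cons, vρ_shn_cons,
        ← VNF_eta_true, map_neg, LinearMap.map_smul_of_tower, NF, hx, sub_eq_add_neg]

omit [Algebra R k] in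
theorem VNF_cons_nil (b : Bool) (u : F k) : cons k b u [] = 0 := by
  apply Finsupp.mapDomain_of_notMem_range
  rintro ⟨w, hw⟩
  cases hw

omit [Algebra R k] in
theorem VNF_cons_same (b : Bool) (u : F k) (w : List Bool) : cons k b u (b :: w) = u w :=
  Finsupp.mapDomain_apply (f := fun w : List Bool => b :: w) (fun _ _ h => by simpa using h) u w

omit [Algebra R k] in
theorem VNF_cons_ne {b c : Bool} (h : b ≠ c) (u : F k) (w : List Bool) :
    cons k b u (c :: w) = 0 := by
  apply Finsupp.mapDomain_of_notMem_range
  rintro ⟨w', hw⟩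
  exact h (List.cons.inj hw).1

omit [Algebra R k] in
theorem VNF_split (l : F k) : ∃ u v : F k, (∀ w, u w = l (true :: w)) ∧ (∀ w, v w = l (false :: w)) ∧
    l = l [] • bas k [] + cons k true u + cons k false v := by
  have hinj : ∀ b : Bool, Function.Injective fun w : List Bool => b :: w :=
    fun b _ _ h => by simpa using h
  refine ⟨Finsupp.comapDomain _ l (hinj true).injOn, Finsupp.comapDomain _ l (hinj false).injOn,
    fun _ => rfl, fun _ => rfl, ?_⟩
  ext w
  rw [Finsupp.add_apply, Finsupp.add_apply, Finsupp.smul_apply]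
  rcases w with _ | ⟨b, w⟩
  · rw [VNF_cons_nil, VNF_cons_nil]
    simp [bas]
  · cases b
    · rw [VNF_cons_same, VNF_cons_ne (by simp)]
      simp [bas]
    · rw [VNF_cons_same, VNF_cons_ne (by simp)]
      simp [bas]

theorem VNF_inj (n : ℕ) : ∀ l : F k, (∀ w : List Bool, n ≤ w.length → l w = 0) →
    lin (NF k) l = 0 → l = 0 := by
  choose z _ hz using VNF_false (k := k)
  have ht : ∀ u : F k, lin (NF k) (cons k true u) = cons k true (lin (NF k) u) := by
    intro u
    have h : lin (NF k) ∘ₗ cons k true = cons k true ∘ₗ lin (NF k) := by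
      apply F_ext
      intro w
      simp only [LinearMap.comp_apply, cons_bas, lin_bas, VNF_true]
    exact LinearMap.congr_fun h u
  have hf : ∀ u : F k, lin (NF k) (cons k false u) =
      cons k false (lin (NF k) u) + cons k true (lin z u) := by
    intro u
    have h : lin (NF k) ∘ₗ cons k false = cons k false ∘ₗ lin (NF k) + cons k true ∘ₗ lin z := by
      apply F_ext
      intro w
      simp only [LinearMap.comp_apply, LinearMap.add_apply, cons_bas, lin_bas, hz]
    exact LinearMap.congr_fun h u
  induction n with
  | zero =>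
    intro l hl _
    ext w
    exact hl w (Nat.zero_le _)
  | succ n ih =>
    intro l hl h0
    obtain ⟨u, v, hu, hv, hl'⟩ := VNF_split l
    rw [hl', map_add, map_add, map_smul, lin_bas, VNF_nil, ht, hf] at h0
    have hv0 : v = 0 := by
      apply ih v
      · intro w hw
        rw [hv]
        exact hl _ (by simpa using hw)
      · ext w
        have h1 := DFunLike.congr_fun h0 (false :: w)
        simp only [Finsupp.add_apply, Finsupp.smul_apply, VNF_cons_same,
          VNF_cons_ne (show true ≠ false by simp)] at h1
        simpa [bas] using h1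
    rw [hv0, map_zero, map_zero, map_zero, map_zero, add_zero, add_zero] at h0
    have hu0 : u = 0 := by
      apply ih u
      · intro w hw
        rw [hu]
        exact hl _ (by simpa using hw)
      · ext w
        have h1 := DFunLike.congr_fun h0 (true :: w)
        simp only [Finsupp.add_apply, Finsupp.smul_apply, VNF_cons_same] at h1
        simpa [bas] using h1
    have h2 : l [] = 0 := by
      have h1 := DFunLike.congr_fun h0 []
      simp only [Finsupp.add_apply, Finsupp.smul_apply, VNF_cons_nil] at h1
      simpa [bas] using h1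
    rw [hl', h2, hu0, hv0, zero_smul, map_zero, map_zero, add_zero, add_zero]

theorem VNF_cupW {n : ℕ} {x : FA} (u : List Bool) (hx : CupW u.length n x) :
    ∃ w' : List Bool, core w' = core u ∧ vρ k x (NF k u) = NF k w' := by
  obtain ⟨w', h1, _, h3⟩ := CupW.exists_word u hx
  refine ⟨w', h1, ?_⟩
  rw [NF, NF, h1, h3 _ (vρ k) vρ_wk, Module.End.mul_apply]

theorem NF_mem (w : List Bool) : NF k w ∈ vLv k w.length :=
  (TF k).mem (cupW_cups w).loc (eta_mem_vLv _ _)
theorem NF_etaW (x y : ℕ) : NF k (etaW x y) = eta k x y := by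
  rw [NF, cups_etaW, core_etaW, map_one, Module.End.one_apply]
theorem U_NF {i : ℕ} {w : List Bool} (h : i ≤ w.length) : vρ k (U i) (NF k w) = NF k (ins i w) := by
  rw [NF, NF, core_ins, vρ_wk.cups_ins h, Module.End.mul_apply]
theorem prW_NF (n : ℤ) (w : List Bool) : prW k n (NF k w) = if wt w = n then NF k w else 0 := by
  have h1 : wt (etaW (core w).1 (core w).2) = wt w := by
    rw [wt_eq_core, core_etaW, wt_eq_core]
  rw [NF, prW_vρ, eta, prW, lin_bas, h1]
  split_ifs
  · rfl
  · rw [map_zero]
theorem NF_indep : LinearIndependent k (NF k) := by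
  rw [linearIndependent_iff]
  intro l hl
  apply VNF_inj (l.support.sup List.length + 1) l _ hl
  intro w hw
  by_contra h
  have h1 : w.length ≤ l.support.sup List.length :=
    Finset.le_sup (f := List.length) (Finsupp.mem_support_iff.mpr h)
  omega
theorem NF_span_level {m : ℕ} {w : F k} (hw : w ∈ vLv k m) :
    w ∈ Submodule.span k {y | ∃ u : List Bool, u.length = m ∧ y = NF k u} := by
  induction m generalizing w with
  | zero =>
    rw [eq_of_mem_vLv_zero hw]
    exact Submodule.smul_mem _ _ (Submodule.subset_span ⟨[], rfl, VNF_nil.symm⟩)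
  | succ m ih =>
    have ht : ∀ u ∈ vLv k m, cons k true u ∈
        Submodule.span k {y | ∃ u : List Bool, u.length = m + 1 ∧ y = NF k u} := by
      intro u hu
      have h1 := ih hu
      clear hu
      induction h1 using Submodule.span_induction with
      | mem y hy =>
        obtain ⟨v, hv, rfl⟩ := hy
        exact Submodule.subset_span ⟨true :: v, by simp [hv], (VNF_true v).symm⟩
      | zero =>
        rw [map_zero]
        exact Submodule.zero_mem _
      | add y z _ _ hy hz =>
        rw [map_add]
        exact Submodule.add_mem _ hy hz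
      | smul c y _ hy =>
        rw [map_smul]
        exact Submodule.smul_mem _ _ hy
    have hf : ∀ u ∈ vLv k m, cons k false u ∈
        Submodule.span k {y | ∃ u : List Bool, u.length = m + 1 ∧ y = NF k u} := by
      intro u hu
      have h1 := ih hu
      clear hu
      induction h1 using Submodule.span_induction with
      | mem y hy =>
        obtain ⟨v, hv, rfl⟩ := hy
        obtain ⟨z, hz, hz'⟩ := VNF_false (k := k) v
        rw [hv] at hz
        rw [← sub_eq_iff_eq_add.mpr hz']
        exact Submodule.sub_mem _ (Submodule.subset_span ⟨false :: v, by simp [hv], rfl⟩) (ht z hz)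
      | zero =>
        rw [map_zero]
        exact Submodule.zero_mem _
      | add y z _ _ hy hz =>
        rw [map_add]
        exact Submodule.add_mem _ hy hz
      | smul c y _ hy =>
        rw [map_smul]
        exact Submodule.smul_mem _ _ hy
    obtain ⟨u, hu, v, hv, rfl⟩ := exists_cons_of_mem_vLv hw
    exact Submodule.add_mem _ (ht u hu) (hf v hv)
theorem NF_span : ⊤ ≤ Submodule.span k (Set.range (NF k)) := by
  intro w hw
  clear hw
  induction w using Finsupp.induction_linear with
  | zero => exact Submodule.zero_mem _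
  | add u v hu hv => exact Submodule.add_mem _ hu hv
  | single u c =>
    have h1 : (Finsupp.single u c : F k) = c • bas k u := by simp [bas]
    rw [h1]
    apply Submodule.smul_mem
    refine Submodule.span_mono ?_ (NF_span_level (bas_mem_vLv u))
    rintro y ⟨v, _, rfl⟩
    exact ⟨v, rfl⟩

variable (k) in
/-- the basis of normal forms -/
def nfB : Module.Basis (List Bool) k (F k) := Module.Basis.mk NF_indep NF_span

@[simp] theorem nfB_apply (w : List Bool) : nfB k w = NF k w := Module.Basis.mk_apply _ _ _

variable (k) in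
/-- normal forms with fewer than `s` unmatched letters -/
def Fil (s : ℕ) : Submodule k (F k) :=
  Submodule.span k {y | ∃ u : List Bool, (core u).1 + (core u).2 < s ∧ y = NF k u}

variable (k) in
/-- vectors of level `m` that start with a cup -/
def Low (m : ℕ) : Submodule k (F k) :=
  Submodule.span k {y | ∃ i n w, m = n + 2 ∧ i ≤ n ∧ w ∈ vLv k n ∧ y = vρ k (U i) w}

theorem repr_of_mem_Fil {s : ℕ} {y : F k} (hy : y ∈ Fil k s) {u : List Bool}
    (hu : s ≤ (core u).1 + (core u).2) : (nfB k).repr y u = 0 := by
  classical
  induction hy using Submodule.span_induction with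
  | mem y hy =>
    obtain ⟨v, hv, rfl⟩ := hy
    rw [← nfB_apply, Module.Basis.repr_self, Finsupp.single_apply, if_neg]
    rintro rfl
    omega
  | zero => rw [map_zero, Finsupp.zero_apply]
  | add y z _ _ hy hz => rw [map_add, Finsupp.add_apply, hy, hz, add_zero]
  | smul c y _ hy => rw [map_smul, Finsupp.smul_apply, hy, smul_zero]

theorem cupW_Low_mem_Fil {m n : ℕ} {x : FA} (hx : CupW m n x) {y : F k} (hy : y ∈ Low k m) :
    vρ k x y ∈ Fil k m := by
  induction hy using Submodule.span_induction with
  | mem y hy =>
    obtain ⟨i, n', w, hm, hi, hw, rfl⟩ := hy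
    have h1 := NF_span_level hw
    clear hw
    induction h1 using Submodule.span_induction with
    | mem y hy =>
      obtain ⟨u, hu, rfl⟩ := hy
      have h2 : (ins i u).length = m := by rw [length_ins, hu, hm]
      obtain ⟨w', h3, h4⟩ := VNF_cupW (k := k) (ins i u) (h2 ▸ hx)
      rw [U_NF (hu ▸ hi), h4]
      refine Submodule.subset_span ⟨w', ?_, rfl⟩
      have h5 := (cupW_cups u).le
      rw [h3, core_ins]
      omega
    | zero =>
      rw [map_zero, map_zero]
      exact Submodule.zero_mem _
    | add y z _ _ hy hz =>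
      rw [map_add, map_add]
      exact Submodule.add_mem _ hy hz
    | smul c y _ hy =>
      rw [vρ_smul, vρ_smul]
      exact Submodule.smul_mem _ _ hy
  | zero =>
    rw [map_zero]
    exact Submodule.zero_mem _
  | add y z _ _ hy hz =>
    rw [map_add]
    exact Submodule.add_mem _ hy hz
  | smul c y _ hy =>
    rw [vρ_smul]
    exact Submodule.smul_mem _ _ hy

/-- triangular families stay independent after adding cups -/
theorem tri_indep {I : Type} (cr : I → ℕ × ℕ) (c : I → k) (g : I → F k)
    (hg : ∀ i, g i - c i • eta k (cr i).1 (cr i).2 ∈ Low k ((cr i).1 + (cr i).2))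
    (hc : ∀ s : ℕ × ℕ, LinearIndependent R fun i : {i // cr i = s} => c i.1) :
    LinearIndependent R
      fun p : {p : List Bool × I // core p.1 = cr p.2} => vρ k (cups p.1.1) (g p.1.2) := by
  classical
  rw [linearIndependent_iff']
  intro s r hs p hp
  by_contra hr
  obtain ⟨p0, hp0, hmax⟩ := Finset.exists_max_image (s.filter fun q => r q ≠ 0)
    (fun q => (core q.1.1).1 + (core q.1.1).2) ⟨p, Finset.mem_filter.mpr ⟨hp, hr⟩⟩
  have hcoord : ∀ q : {p : List Bool × I // core p.1 = cr p.2},
      (core q.1.1).1 + (core q.1.1).2 ≤ (core p0.1.1).1 + (core p0.1.1).2 →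
      (nfB k).coord p0.1.1 (vρ k (cups q.1.1) (g q.1.2)) =
        if q.1.1 = p0.1.1 then c q.1.2 else 0 := by
    intro q hq
    have h1 := hg q.1.2
    rw [← q.2] at h1
    have h2 := repr_of_mem_Fil (cupW_Low_mem_Fil (cupW_cups q.1.1) h1) hq
    rw [map_sub, vρ_smul, map_sub, Finsupp.sub_apply, sub_eq_zero] at h2
    rw [Module.Basis.coord_apply, h2]
    show (nfB k).repr (c q.1.2 • NF k q.1.1) p0.1.1 = _
    rw [map_smul, Finsupp.smul_apply, ← nfB_apply, Module.Basis.repr_self, Finsupp.single_apply]
    split_ifs
    · rw [smul_eq_mul, mul_one]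
    · rw [smul_zero]
  have hind : LinearIndependent R
      fun q : {q : {p : List Bool × I // core p.1 = cr p.2} // q.1.1 = p0.1.1} => c q.1.1.2 := by
    refine (hc (core p0.1.1)).comp
      (fun q : {q : {p : List Bool × I // core p.1 = cr p.2} // q.1.1 = p0.1.1} =>
        (⟨q.1.1.2, by rw [← q.1.2, q.2]⟩ : {i // cr i = core p0.1.1})) ?_
    intro q q' h
    have h1 : q.1.1.2 = q'.1.1.2 := congrArg Subtype.val h
    exact Subtype.ext (Subtype.ext (Prod.ext (q.2.trans q'.2.symm) h1))
  have hsum : ∑ q ∈ s.subtype (fun q => q.1.1 = p0.1.1), r q.1 • c q.1.1.2 = 0 := by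
    rw [Finset.sum_subtype_eq_sum_filter (fun q => r q • c q.1.2), Finset.sum_filter]
    have h1 := congrArg ((nfB k).coord p0.1.1) hs
    rw [map_sum, map_zero] at h1
    refine Eq.trans ?_ h1
    apply Finset.sum_congr rfl
    intro q hq
    rw [LinearMap.map_smul_of_tower]
    by_cases h2 : r q = 0
    · rw [h2, zero_smul, zero_smul, ite_self]
    · rw [hcoord q (hmax q (Finset.mem_filter.mpr ⟨hq, h2⟩))]
      split_ifs
      · rfl
      · rw [smul_zero]
  exact (Finset.mem_filter.mp hp0).2 (linearIndependent_iff'.mp hind _ (fun q => r q.1) hsum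
    ⟨p0, rfl⟩ (Finset.mem_subtype.mpr (Finset.mem_filter.mp hp0).1))

end Pool.Agent.P.MP_b3a239_gt
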