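import Pool.Agent.P.MP_b3a239_gt.VPass
import Pool.Agent.P.MP_b3a239_gt.VNF

/-! Computations with the words `+ ⋯ + - ⋯ -`. -/

set_option maxSynthPendingDepth 3

noncomputable section

namespace Pool.Agent.P.MP_b3a239_gt

section Generic
variable {k : Type} [CommRing k] [Algebra R k]

private theorem aa {m n p : ℤ} (h : p = m + n) : a p = a m * a n := h ▸ a_add m n

omit [Algebra R k] in
private theorem eta_t (x y : ℕ) : eta k (x + 1) y = cons k true (eta k x y) := by
  simp [eta, etaW, List.replicate_succ]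

omit [Algebra R k] in
private theorem eta_f (y : ℕ) : eta k 0 (y + 1) = cons k false (eta k 0 y) := by
  simp [eta, etaW, List.replicate_succ]

private theorem cons_U (b : Bool) (i : ℕ) (w : F k) :
    cons k b (vρ k (U i) w) = vρ k (U (i + 1)) (cons k b w) := by
  rw [← vρ_shn_cons, shn_U]

private theorem ft (w : F k) : cons k false (cons k true w) =
    vρ k (U 0) w + a (-2) • cons k true (cons k false w) := by
  rw [vρ_U_zero, sub_add_cancel]

private theorem Et0 (n : ℕ) : Et k (eta k 0 (n + 1)) = (a (-4 * n) * f n) • eta k 1 n +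
    ∑ i ∈ Finset.range n, (a (2 * i + 2 - 4 * n) * f (n - 1 - i)) • vρ k (U i) (eta k 0 (n - 1)) := by
  induction n with
  | zero =>
    rw [eta_f, Et_false, eta_t, Et_apply]
    simp [eta, etaW]
  | succ n ih =>
    have hs : a (-2) • cons k false (∑ i ∈ Finset.range n,
        (a (2 * i + 2 - 4 * n) * f (n - 1 - i)) • vρ k (U i) (eta k 0 (n - 1))) =
        ∑ i ∈ Finset.range n, (a (2 * (i + 1 : ℕ) + 2 - 4 * (n + 1 : ℕ)) * f (n + 1 - 1 - (i + 1))) •
          vρ k (U (i + 1)) (eta k 0 (n + 1 - 1)) := by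
      rw [map_sum, Finset.smul_sum]
      refine Finset.sum_congr rfl fun i hi => ?_
      obtain ⟨n, rfl⟩ : ∃ m, n = m + 1 := ⟨n - 1, by have := Finset.mem_range.1 hi; omega⟩
      rw [LinearMap.map_smul_of_tower, cons_U, smul_smul, ← mul_assoc, ← a_add]
      simp only [Nat.add_sub_cancel, ← eta_f, Nat.add_sub_add_right]
      congr 3
      push_cast
      ring
    have c1 : a (-4 * (n + 1 : ℕ)) * f (n + 1) = f 0 + a (-2) * (a (-4 * n) * f n) * a (-2) := by
      simp only [f, mul_sub, sub_mul, mul_one, ← a_add]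
      push_cast
      ring_nf
      rw [a_zero]
      ring
    have c2 : a (2 * (0 : ℕ) + 2 - 4 * (n + 1 : ℕ)) = a (-2) * a (-4 * n) := aa (by push_cast; ring)
    rw [eta_f, Et_false, ih, map_add, smul_add, hs, Finset.sum_range_succ', c1, c2,
      LinearMap.map_smul_of_tower, eta_t 0 n, ft, eta_t 0 (n + 1), eta_f]
    simp only [Nat.add_sub_cancel, Nat.sub_zero]
    module

private theorem EtE (x n : ℕ) :
    Et k (eta k x (n + 1)) = (a (2 * x - 4 * n) * f n) • eta k (x + 1) n +
      ∑ i ∈ Finset.range n, (a (2 * x - 4 * n) * (a (2 * i + 2) * f (n - 1 - i))) •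
        vρ k (U (x + i)) (eta k x (n - 1)) := by
  induction x with
  | zero =>
    rw [Et0]
    congr 1
    · simp
    · refine Finset.sum_congr rfl fun i _ => ?_
      rw [← mul_assoc, ← a_add, Nat.zero_add]
      congr 3
      push_cast
      ring
  | succ x ih =>
    have c : a (2 * (x + 1 : ℕ) - 4 * n) = a 2 * a (2 * x - 4 * n) := aa (by push_cast; ring)
    rw [eta_t, Et_true, ih, map_add, map_sum, smul_add, Finset.smul_sum, c,
      LinearMap.map_smul_of_tower, ← eta_t, smul_smul, mul_assoc]
    congr 1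
    refine Finset.sum_congr rfl fun i _ => ?_
    rw [LinearMap.map_smul_of_tower, cons_U, ← eta_t, smul_smul, mul_assoc, Nat.add_right_comm]

private theorem sn0 (y : ℕ) : snoc k true (eta k 0 y) = a (-2 * y) • eta k 1 y +
    ∑ i ∈ Finset.range y, a (2 * (i + 1 - y)) • vρ k (U i) (eta k 0 (y - 1)) := by
  induction y with
  | zero => simp [eta, etaW]
  | succ n ih =>
    have hs : cons k false (∑ i ∈ Finset.range n,
        a (2 * (i + 1 - n)) • vρ k (U i) (eta k 0 (n - 1))) =
        ∑ i ∈ Finset.range n, a (2 * ((i + 1 : ℕ) + 1 - (n + 1 : ℕ))) •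
          vρ k (U (i + 1)) (eta k 0 (n + 1 - 1)) := by
      rw [map_sum]
      refine Finset.sum_congr rfl fun i hi => ?_
      obtain ⟨n, rfl⟩ : ∃ m, n = m + 1 := ⟨n - 1, by have := Finset.mem_range.1 hi; omega⟩
      rw [LinearMap.map_smul_of_tower, cons_U]
      simp only [Nat.add_sub_cancel, ← eta_f]
      congr 2
      push_cast
      ring
    have c1 : a (-2 * (n + 1 : ℕ)) = a (-2 * n) * a (-2) := aa (by push_cast; ring)
    have c2 : a (2 * ((0 : ℕ) + 1 - (n + 1 : ℕ))) = a (-2 * n) := by
      congr 1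
      push_cast
      ring
    rw [eta_f, ← cons_snoc, ih, map_add, hs, Finset.sum_range_succ', c1, c2,
      LinearMap.map_smul_of_tower, eta_t 0 n, ft, eta_t 0 (n + 1), eta_f]
    simp only [Nat.add_sub_cancel]
    module

private theorem snE (x y : ℕ) : snoc k true (eta k x y) = a (-2 * y) • eta k (x + 1) y +
    ∑ i ∈ Finset.range y, a (2 * (i + 1 - y)) • vρ k (U (x + i)) (eta k x (y - 1)) := by
  induction x with
  | zero => simpa only [Nat.zero_add] using sn0 y
  | succ x ih =>
    rw [eta_t, ← cons_snoc, ih, map_add, map_sum, LinearMap.map_smul_of_tower, ← eta_t]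
    congr 1
    refine Finset.sum_congr rfl fun i _ => ?_
    rw [LinearMap.map_smul_of_tower, cons_U, ← eta_t, Nat.add_right_comm]

private theorem cfE (x y : ℕ) : cons k false (eta k x y) = a (-2 * x) • eta k x (y + 1) +
    ∑ i ∈ Finset.range x, a (-2 * i) • vρ k (U i) (eta k (x - 1) y) := by
  induction x with
  | zero => simp [eta_f]
  | succ n ih =>
    have hs : a (-2) • cons k true (∑ i ∈ Finset.range n,
        a (-2 * i) • vρ k (U i) (eta k (n - 1) y)) =
        ∑ i ∈ Finset.range n, a (-2 * (i + 1 : ℕ)) • vρ k (U (i + 1)) (eta k (n + 1 - 1) y) := by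
      rw [map_sum, Finset.smul_sum]
      refine Finset.sum_congr rfl fun i hi => ?_
      obtain ⟨n, rfl⟩ : ∃ m, n = m + 1 := ⟨n - 1, by have := Finset.mem_range.1 hi; omega⟩
      rw [LinearMap.map_smul_of_tower, cons_U, smul_smul, ← a_add]
      simp only [Nat.add_sub_cancel, ← eta_t]
      congr 2
      push_cast
      ring
    have c1 : a (-2 * (n + 1 : ℕ)) = a (-2) * a (-2 * n) := aa (by push_cast; ring)
    rw [eta_t, ft, ih, map_add, smul_add, hs, Finset.sum_range_succ', c1,
      LinearMap.map_smul_of_tower, ← eta_t]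
    simp only [Nat.add_sub_cancel, Nat.cast_zero, mul_zero, a_zero]
    module

private theorem wt_eta (x y : ℕ) : wt (etaW x y) = x - y := by
  induction x with
  | zero =>
    induction y with
    | zero => rfl
    | succ y ih =>
      change -1 + wt (etaW 0 y) = _
      rw [ih]
      push_cast
      ring
  | succ x ih =>
    change 1 + wt (etaW x y) = _
    rw [ih]
    push_cast
    ring

private theorem U_mem {i n : ℕ} (h : i ≤ n) {w : F k} (hw : w ∈ vLv k n) (c : R) :
    vρ k (c • U i) w ∈ Low k (n + 2) := by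
  rw [map_smul, LinearMap.smul_apply]
  exact Submodule.smul_of_tower_mem _ _ (Submodule.subset_span ⟨i, n, w, rfl, h, hw, rfl⟩)

theorem C_eta (l x y : ℕ) :
    vρ k (C l) (eta k x y) = if l + 1 = x ∧ 1 ≤ y then eta k (x - 1) (y - 1) else 0 := by
  induction l generalizing x y with
  | zero =>
    rcases x with _ | _ | x <;> rcases y with _ | _ | y <;>
      simp [eta, etaW, List.replicate_succ, cL]
  | succ l ih =>
    have hc : ∀ b w, vρ k (C (l + 1)) (cons k b w) = cons k b (vρ k (C l) w) := fun b w => by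
      rw [← vρ_shn_cons, shn_C]
    rcases x with _ | x
    · rcases y with _ | y
      · simp [eta, etaW, cL]
      · rw [eta_f, hc, ih]
        simp
    · rw [eta_t, hc, ih]
      by_cases h : l + 1 = x ∧ 1 ≤ y
      · obtain ⟨rfl, hy⟩ := h
        simp [hy, eta_t]
      · simp only [h, Nat.add_right_cancel_iff, if_false, map_zero]

theorem Et_eta (j : ℕ) : Et k (eta k j (j + 2)) =
    a (2 * j - 4 * (j + 1)) • (f (j + 1) • eta k (j + 1) (j + 1) - vρ k (RtF j) (eta k j j)) := by
  rw [EtE, RtF, map_neg, map_sum, LinearMap.neg_apply, LinearMap.sum_apply, sub_neg_eq_add,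
    smul_add, Finset.smul_sum, smul_smul]
  simp only [map_smul, LinearMap.smul_apply, smul_smul, Nat.add_sub_cancel, Nat.cast_add,
    Nat.cast_one]

theorem RtF_mem_Low (j : ℕ) {w : F k} (hw : w ∈ vLv k (2 * j)) :
    vρ k (RtF j) w ∈ Low k (2 * j + 2) := by
  rw [RtF, map_neg, map_sum, LinearMap.neg_apply, LinearMap.sum_apply]
  exact neg_mem (sum_mem fun i hi => U_mem (by have := Finset.mem_range.1 hi; omega) hw _)

theorem TtF_mem_Low (j : ℕ) {w : F k} (hw : w ∈ vLv k (2 * j)) :
    vρ k (TtF j) w ∈ Low k (2 * j + 2) := by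
  simp only [TtF, map_add, map_sum, LinearMap.add_apply, LinearMap.sum_apply]
  refine add_mem (add_mem
    (sum_mem fun i hi => U_mem (by have := Finset.mem_range.1 hi; omega) hw _)
    (sum_mem fun i hi => U_mem (by have := Finset.mem_range.1 hi; omega) hw _))
    (sum_mem fun i hi => sum_mem fun i' _ => ?_)
  have hi' := Finset.mem_range.1 hi
  obtain ⟨j, rfl⟩ : ∃ m, j = m + 1 := ⟨j - 1, by omega⟩
  rw [mul_assoc, ← smul_mul_assoc, map_mul, map_mul]
  exact U_mem (n := 2 * (j + 1)) (by omega) (vρ_memU (vρ_memC hw)) _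

theorem nest_eta (j : ℕ) : cons k false (snoc k true (eta k j j)) =
    a (-4 * j - 2) • eta k (j + 1) (j + 1) + vρ k (TtF j) (eta k j j) := by
  have h1 : a (-2 * j) • ∑ i ∈ Finset.range j, a (-2 * i) • vρ k (U i) (eta k j j) =
      ∑ i ∈ Finset.range j, a (-2 * i - 2 * j) • vρ k (U i) (eta k j j) := by
    rw [Finset.smul_sum]
    refine Finset.sum_congr rfl fun i _ => ?_
    rw [smul_smul, ← a_add]
    congr 2
    ring
  have h2 : cons k false (∑ i ∈ Finset.range j,
      a (2 * (i + 1 - j)) • vρ k (U (j + i)) (eta k j (j - 1))) =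
      ∑ i ∈ Finset.range j, a (2 * (i + 1 : ℕ) - 4 * j) • vρ k (U (j + (i + 1))) (eta k j j) +
      ∑ i ∈ Finset.range j, ∑ i' ∈ Finset.range j, a (2 * (i' - i - j + 1)) •
        vρ k (U i * U (j - 1 + i') * C (j - 1)) (eta k j j) := by
    rw [map_sum, Finset.sum_comm, ← Finset.sum_add_distrib]
    refine Finset.sum_congr rfl fun i hi => ?_
    obtain ⟨j, rfl⟩ : ∃ m, j = m + 1 := ⟨j - 1, by have := Finset.mem_range.1 hi; omega⟩
    rw [LinearMap.map_smul_of_tower, cons_U, cfE, map_add, map_sum, smul_add, Finset.smul_sum,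
      map_smul, smul_smul, ← a_add]
    congr 1
    · congr 2
      push_cast
      ring
    · refine Finset.sum_congr rfl fun i' hi' => ?_
      have := Finset.mem_range.1 hi'
      rw [map_smul, smul_smul, ← a_add, map_mul, map_mul, Nat.add_sub_cancel,
        ← vρ_wk.uu i' (j + i) (by omega), Module.End.mul_apply, Module.End.mul_apply, C_eta,
        if_pos ⟨rfl, by omega⟩, Nat.add_sub_cancel, show j + 1 + i + 1 = j + i + 2 by omega]
      congr 2
      ring
  have c1 : a (-4 * j - 2) = a (-2 * j) * a (-2 * (j + 1 : ℕ)) := aa (by push_cast; ring)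
  have c2 : a (2 * (0 : ℕ) - 4 * j) = a (-2 * j) * a (-2 * j) := aa (by push_cast; ring)
  rw [snE, map_add, h2, LinearMap.map_smul_of_tower, cfE, Finset.sum_range_succ, smul_add, smul_add,
    Nat.add_sub_cancel, h1, TtF, Finset.sum_range_succ', c1, c2]
  simp only [map_add, map_sum, map_smul, LinearMap.add_apply, LinearMap.sum_apply,
    LinearMap.smul_apply, Nat.add_zero]
  module

set_option linter.unusedSectionVars false in
theorem nest_eta' (j : ℕ) : cons k true (snoc k false (eta k j j)) = eta k (j + 1) (j + 1) := by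
  rw [eta_t]
  simp [eta, etaW, List.replicate_succ']

/-- the sphere relation is a passed monodromy relation -/
theorem sphere_eq_mon (j : ℕ) :
    f (j + 1) • eta k (j + 1) (j + 1) - vρ k (RtF j) (eta k j j) =
      a (3 * j + 2) • vρ k (pR true 0 j * (fin false 0 (2 * j + 1) - a 6 • 1))
        (eta k (j + 1) (j + 1)) := by
  have hw : eta k j (j + 1) ∈ vLv k (2 * j + 1) := by
    have := eta_mem_vLv (k := k) j (j + 1)
    rwa [show j + (j + 1) = 2 * j + 1 by omega] at this
  have h0 : prW k (-1) (eta k j (j + 1)) = eta k j (j + 1) := by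
    simp [prW, eta, wt_eta]
  have h1 : KP k (-1) j (eta k j (j + 1)) = a (-j) • eta k j (j + 1) := by
    have := wt_eta j 0
    simp only [etaW, List.replicate_zero, List.append_nil] at this
    simp [KP, eta, etaW, this]
  have h2 : insAt k j false (eta k j (j + 1)) = eta k j (j + 2) := by
    simp [eta, etaW, List.replicate_succ]
  have h3 : vρ k (fin false 0 (2 * j + 1) - a 6 • 1) (eta k (j + 1) (j + 1)) =
      a 2 • Et k (cons k false (eta k j (j + 1))) := by
    rw [eta_t, ← mon_true_wt hw h0]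
    simp
  rw [map_mul, Module.End.mul_apply, h3, map_smul, ← Et_vρ, pR_true_false (by omega) hw, h1,
    LinearMap.map_smul_of_tower, LinearMap.map_smul_of_tower, h2, Et_eta, smul_smul, smul_smul,
    smul_smul, ← a_add, ← a_add, ← a_add,
    show (3 * j + 2 + 2 + -j + (2 * j - 4 * (j + 1)) : ℤ) = 0 by ring, a_zero, one_smul]

end Generic

theorem Nn_gF (j : ℕ) : Nn (gF j) = gF (j + 1) - (a (-2) • XX (-1)) • vρ MM (TtF j) (gF j) := by
  have c : a (-4 * (j + 1 : ℕ)) = a (-2) * a (-4 * j - 2) := aa (by push_cast; ring)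
  rw [gF, gF, map_smul, vρ_smul, PQ, PQ, Finset.prod_range_succ, pii, c, Nn]
  simp only [LinearMap.add_apply, LinearMap.smul_apply, LinearMap.comp_apply, nest_eta, nest_eta']
  match_scalars <;> simp only [Algebra.smul_def, map_mul] <;> ring

end Pool.Agent.P.MP_b3a239_gt
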