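import Pool.Agent.P.MP_b3a239_gt.VMod

/-! Universal property of `V`. -/

set_option maxSynthPendingDepth 3

noncomputable section

namespace Pool.Agent.P.MP_b3a239_gt

variable {B : Type} [AddCommGroup B] [Module R B]

/-- the relations between the arcs around the hole -/
structure TM.Arcs (T : TM B) (o : ℕ → B) : Prop where
  mem : ∀ l, o l ∈ T.Lv (2 * l)
  left : ∀ i l, i ≤ l → T.ρ (C i) (o (l + 2)) = T.ρ (U (2 * l - i)) (o l)
  right : ∀ i l, i ≤ l → T.ρ (C (2 * l + 2 - i)) (o (l + 2)) = T.ρ (U i) (o l)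

theorem arcs_om : TV.Arcs om :=
  ⟨om_mem, fun _ _ h => Subtype.ext (C_omF_left h), fun _ _ h => Subtype.ext (C_omF_right h)⟩

theorem GMap.arcs {B' : Type} [AddCommGroup B'] [Module R B'] {T : TM B} {T' : TM B'}
    {φ : B →ₗ[R] B'} (hφ : GMap T T' φ) {o : ℕ → B} (ho : T.Arcs o) : T'.Arcs fun l => φ (o l) := by
  refine ⟨fun l => hφ.mem (ho.mem l), fun i l h => ?_, fun i l h => ?_⟩
  · rw [← hφ.natC (m := 2 * l + 2) (by omega) (ho.mem (l + 2)), ho.left i l h,
      hφ.natU (by omega) (ho.mem l)]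
  · rw [← hφ.natC (m := 2 * l + 2) (by omega) (ho.mem (l + 2)), ho.right i l h,
      hφ.natU (by omega) (ho.mem l)]

/-- close the innermost arc -/
private def VLift1_step (T : TM B) (o : ℕ → B) (l : ℕ) : B := T.ρ (C l) (o (l + 1))

private theorem VLift1_arcs {T : TM B} {o : ℕ → B} (ho : T.Arcs o) (n : ℕ) :
    T.Arcs ((VLift1_step T)^[n] o) := by
  induction n with
  | zero => exact ho
  | succ n ih =>
    rw [Function.iterate_succ_apply']
    generalize (VLift1_step T)^[n] o = o at ih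
    refine ⟨fun l => T.memC (by omega) (ih.mem (l + 1)), fun i l h => ?_, fun i l h => ?_⟩
    · have h1 := ih.left i (l + 1) (by omega)
      rw [show 2 * (l + 1) - i = 2 * l - i + 2 by omega] at h1
      have h2 := congr($(T.wk.cc i l h) (o (l + 1 + 2)))
      have h3 := congr($(T.wk.uc l (2 * l - i) (by omega)) (o (l + 1)))
      simp only [Module.End.mul_apply] at h2 h3
      exact h2.symm.trans (by rw [h1]; exact h3)
    · have h1 := ih.right i (l + 1) (by omega)
      rw [show 2 * (l + 1) + 2 - i = 2 * l + 2 - i + 2 by omega] at h1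
      have h2 := congr($(T.wk.cc (l + 2) (2 * l + 2 - i) (by omega)) (o (l + 1 + 2)))
      have h3 := congr($(T.wk.cu i l h) (o (l + 1)))
      simp only [Module.End.mul_apply] at h2 h3
      exact h2.trans (by rw [h1]; exact h3)

private theorem VLift1_fam {T : TM B} {o : ℕ → B} (ho : T.Arcs o) :
    T.Fam (fun p : ℕ × ℕ => (VLift1_step T)^[p.2] o p.1) fun p => p.1 + p.1 := by
  refine ⟨fun p => two_mul p.1 ▸ (VLift1_arcs ho p.2).mem p.1, ?_⟩
  rintro ⟨l, n⟩ j m hm hj
  obtain ⟨l, rfl⟩ : ∃ k, l = k + 1 := ⟨l - 1, by omega⟩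
  obtain rfl : m = l + l := by omega
  have hN := T.gen_mem_N (fun p : ℕ × ℕ => (VLift1_step T)^[p.2] o p.1) fun p => p.1 + p.1
  by_cases e : j = l
  · have h1 := hN (l, n + 1)
    rw [Function.iterate_succ_apply'] at h1
    exact e ▸ h1
  obtain ⟨l, rfl⟩ : ∃ k, l = k + 1 := ⟨l - 1, by omega⟩
  rw [show l + 1 + (l + 1) = l + l + 2 by omega]
  by_cases c : j ≤ l
  · exact ((VLift1_arcs ho n).left j l c) ▸ TM.N_U (by omega) (hN (l, n))
  · obtain ⟨i, hi, rfl⟩ : ∃ i ≤ l, j = 2 * l + 2 - i := ⟨2 * l + 2 - j, by omega, by omega⟩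
    exact ((VLift1_arcs ho n).right i l hi) ▸ TM.N_U (by omega) (hN (l, n))

private theorem VLift1_le (T : TM B) (o : ℕ → B) (m : ℕ) :
    T.Gn o (fun l => 2 * l) m ≤
      T.Gn (fun p : ℕ × ℕ => (VLift1_step T)^[p.2] o p.1) (fun p => p.1 + p.1) m := by
  refine Submodule.span_mono ?_
  rintro _ ⟨i, x, hx, rfl⟩
  exact ⟨(i, 0), x, hx.cast (two_mul i) rfl, rfl⟩

private theorem VLift1_omF : (TF MM).Arcs omF :=
  ⟨omF_mem, fun _ _ h => C_omF_left h, fun _ _ h => C_omF_right h⟩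

private theorem VLift1_zz (n l : ℕ) : (VLift1_step (TF MM))^[n] omF l = zz ^ n • omF l := by
  induction n generalizing l with
  | zero => simp
  | succ n ih =>
    rw [Function.iterate_succ_apply', VLift1_step, ih, TF_ρ, vρ_smul, C_omF_mid, smul_smul,
      pow_succ]

private theorem VLift1_fst (T : TM B) (o : ℕ → B) (n l : ℕ) :
    ((VLift1_step ((TF MM).prod T))^[n] (fun l => (omF l, o l)) l).1 = zz ^ n • omF l := by
  rw [← VLift1_zz]
  induction n generalizing l with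
  | zero => rfl
  | succ n ih =>
    rw [Function.iterate_succ_apply', Function.iterate_succ_apply', VLift1_step, VLift1_step,
      TM.prod_ρ, ih]

private theorem VLift1_indep : LinearIndependent R
    fun p : {p : List Bool × ℕ × ℕ // core p.1 = (p.2.1, p.2.1)} =>
      vρ MM (cups p.1.1) (zz ^ p.1.2.2 • omF p.1.2.1) := by
  refine tri_indep (fun p : ℕ × ℕ => (p.1, p.1)) (fun p => zz ^ p.2 * PQ p.1)
    (fun p => zz ^ p.2 • omF p.1) (fun p => ?_) fun s => ?_
  · rw [mul_smul, ← smul_sub, ← two_mul]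
    exact Submodule.smul_mem _ _ (omF_tri p.1)
  · have h := (zz_pow_indep (PQ_ne_zero s.1)).comp
      (fun i : {i : ℕ × ℕ // (i.1, i.1) = s} => i.1.2) fun i j e => Subtype.ext
        (Prod.ext (Prod.ext_iff.mp (i.2.trans j.2.symm)).1 e)
    convert h using 2 with i
    exact congrArg (fun t => zz ^ i.1.2 * PQ t) (Prod.ext_iff.mp i.2).1

theorem V_lift {T : TM B} {o : ℕ → B} (ho : T.Arcs o) :
    ∃ φ : V →ₗ[R] B, GMap TV T φ ∧ ∀ l, φ (om l) = o l := by
  have hp : ((TF MM).prod T).Arcs fun l => (omF l, o l) :=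
    ⟨fun l => ⟨omF_mem l, ho.mem l⟩, fun i l h => Prod.ext (C_omF_left h) (ho.left i l h),
      fun i l h => Prod.ext (C_omF_right h) (ho.right i l h)⟩
  have h1 := VLift1_fam hp
  have h2 := VLift1_le ((TF MM).prod T) fun l => (omF l, o l)
  have h3 := VLift1_fst T o
  have e : (fun p : ℕ × ℕ => (VLift1_step ((TF MM).prod T))^[p.2] (fun l => (omF l, o l)) p.1) =
      fun p : ℕ × ℕ => (zz ^ p.2 • omF p.1,
        ((VLift1_step ((TF MM).prod T))^[p.2] (fun l => (omF l, o l)) p.1).2) :=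
    funext fun p => Prod.ext (h3 p.2 p.1) rfl
  rw [e] at h1 h2
  exact TM.gen_lift ho.mem fun y hy =>
    graph_of_indep (fun p : ℕ × ℕ => (p.1, p.1)) h1 VLift1_indep y (iSup_mono h2 hy)

theorem V_ext {T : TM B} {φ ψ : V →ₗ[R] B} (hφ : GMap TV T φ) (hψ : GMap TV T ψ)
    (h : ∀ l, φ (om l) = ψ (om l)) : φ = ψ :=
  GMap.ext_gen om_mem TV_Lv_le TV_strict.top hφ hψ h

theorem zz_smul_mem_Gn {m : ℕ} {w : FM} (hw : w ∈ (TF MM).Gn omF (fun l => 2 * l) m) :
    zz • w ∈ (TF MM).Gn omF (fun l => 2 * l) m := by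
  induction hw using Submodule.span_induction with
  | mem y hy =>
    obtain ⟨l, x, hx, rfl⟩ := hy
    rw [TF_ρ, ← vρ_smul, ← C_omF_mid]
    exact TM.Gn_loc (T := TF MM) hx (TM.Gn_loc (T := TF MM) (.c (show l ≤ 2 * l by omega))
      ((TF MM).gen_mem_Gn omF (fun l => 2 * l) (l + 1)))
  | zero => simp
  | add x y _ _ hx hy => exact smul_add zz x y ▸ add_mem hx hy
  | smul c x _ hx => exact smul_comm c zz x ▸ Submodule.smul_mem _ c hx

theorem sym_smul_mem_Gn (n : ℤ) {m : ℕ} {w : FM} (hw : w ∈ (TF MM).Gn omF (fun l => 2 * l) m) :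
    (XX n + XX (-n)) • w ∈ (TF MM).Gn omF (fun l => 2 * l) m := by
  have key : ∀ k : ℕ, (XX k + XX (-k)) • w ∈ (TF MM).Gn omF (fun l => 2 * l) m := by
    intro k
    induction k using Nat.twoStepInduction with
    | zero => simpa [add_smul] using add_mem hw hw
    | one => exact zz_smul_mem_Gn hw
    | more k h0 h1 =>
      have e : XX (k + 2 : ℕ) + XX (-(k + 2 : ℕ)) =
          zz * (XX (k + 1 : ℕ) + XX (-(k + 1 : ℕ))) - (XX k + XX (-k)) := by
        simp only [zz, mul_add, add_mul, ← XX_add]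
        push_cast
        ring_nf
      rw [e, sub_smul, mul_smul]
      exact sub_mem (zz_smul_mem_Gn h1) h0
  obtain ⟨k, rfl | rfl⟩ := n.eq_nat_or_neg
  · exact key k
  · rw [neg_neg, add_comm]
    exact key k

theorem TV_Lv_zero {w : V} (hw : w ∈ TV.Lv 0) :
    (w : FM) ∈ Submodule.span R (Set.range fun n : ℕ => zz ^ n • bas MM []) := by
  have h := VLift1_le (TF MM) omF 0 hw
  rw [(VLift1_fam VLift1_omF).Gn_eq] at h
  refine Submodule.span_mono ?_ h
  rintro _ ⟨⟨l, n⟩, x, hx, rfl⟩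
  obtain rfl : l = 0 := by have : l + l ≤ 0 := hx.le; omega
  exact ⟨n, by rw [hx.eq_one, map_one, Module.End.one_apply]; exact (VLift1_zz n 0).symm⟩

end Pool.Agent.P.MP_b3a239_gt
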