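import Pool.Agent.P.MP_b3a239_gt.VLift1

/-! Universal properties of two more modules in the vertex model. -/

set_option maxSynthPendingDepth 3

noncomputable section

namespace Pool.Agent.P.MP_b3a239_gt

variable {B : Type} [AddCommGroup B] [Module R B]

theorem VLift2_fam {T : TM B} {o : ℕ × ℤ → B} (ho : ∀ n, T.Arcs fun l => o (l, n))
    (hmid : ∀ l n, T.ρ (C l) (o (l + 1, n)) = o (l, n + 1) + o (l, n - 1)) :
    T.Fam o fun i => 2 * i.1 := by
  refine ⟨fun i => (ho i.2).mem i.1, ?_⟩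
  rintro ⟨l, n⟩ j m hm hj
  obtain ⟨l, rfl⟩ : ∃ l', l = l' + 1 := ⟨l - 1, by simp only at hm; omega⟩
  obtain rfl : m = 2 * l := by simp only at hm; omega
  rcases lt_trichotomy j l with h | rfl | h
  · obtain ⟨l, rfl⟩ : ∃ l', l = l' + 1 := ⟨l - 1, by omega⟩
    rw [(ho n).left j l (by omega)]
    exact TM.N_U (Nat.sub_le _ _) (T.gen_mem_N o (fun i => 2 * i.1) (l, n))
  · rw [hmid]
    exact add_mem (T.gen_mem_N o (fun i => 2 * i.1) (j, n + 1))
      (T.gen_mem_N o (fun i => 2 * i.1) (j, n - 1))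
  · obtain ⟨l, rfl⟩ : ∃ l', l = l' + 1 := ⟨l - 1, by omega⟩
    obtain ⟨i, hi, rfl⟩ : ∃ i, i ≤ l ∧ j = 2 * l + 2 - i := ⟨2 * l + 2 - j, by omega, by omega⟩
    rw [(ho n).right i l hi]
    exact TM.N_U (m := 2 * l) (by omega) (T.gen_mem_N o (fun i => 2 * i.1) (l, n))

theorem VLift2_graph {I : Type} {T : TM B} {g : I → FM} {g' : I → B} (cr : I → ℕ × ℕ)
    (c : I → MM) (hF : ((TF MM).prod T).Fam (fun i => (g i, g' i)) fun i => (cr i).1 + (cr i).2)
    (hg : ∀ i, g i - c i • eta MM (cr i).1 (cr i).2 ∈ Low MM ((cr i).1 + (cr i).2))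
    (hc : ∀ s : ℕ × ℕ, LinearIndependent R fun i : {i // cr i = s} => c i.1) (y : B)
    (hy : ((0, y) : FM × B) ∈ ⨆ m, ((TF MM).prod T).Gn (fun i => (g i, g' i))
      (fun i => (cr i).1 + (cr i).2) m) : y = 0 := by
  refine graph_of_indep cr hF ?_ y hy
  rw [TF_ρ]
  exact tri_indep cr c g hg hc

/-- universal property of the module generated by the `X ^ n • omF l` -/
theorem Vt_graph {T : TM B} {o : ℕ × ℤ → B} (ho : ∀ n, T.Arcs fun l => o (l, n))
    (hmid : ∀ l n, T.ρ (C l) (o (l + 1, n)) = o (l, n + 1) + o (l, n - 1)) (y : B)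
    (hy : ((0, y) : FM × B) ∈ ⨆ m, ((TF MM).prod T).Gn (fun i => (XX i.2 • omF i.1, o i))
      (fun i => 2 * i.1) m) : y = 0 := by
  have hF : ((TF MM).prod T).Fam (fun i : ℕ × ℤ => (XX i.2 • omF i.1, o i)) fun i => 2 * i.1 := by
    refine VLift2_fam (fun n => ⟨fun l => ⟨smul_mem_vLv _ (omF_mem l), (ho n).mem l⟩,
      fun i l h => Prod.ext ?_ ((ho n).left i l h),
      fun i l h => Prod.ext ?_ ((ho n).right i l h)⟩) fun l n => Prod.ext ?_ (hmid l n)
    · change vρ MM _ (XX n • omF (l + 2)) = vρ MM _ (XX n • omF l)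
      rw [vρ_smul, vρ_smul, C_omF_left h]
    · change vρ MM _ (XX n • omF (l + 2)) = vρ MM _ (XX n • omF l)
      rw [vρ_smul, vρ_smul, C_omF_right h]
    · change vρ MM _ (XX n • omF (l + 1)) = XX (n + 1) • omF l + XX (n - 1) • omF l
      rw [vρ_smul, C_omF_mid, smul_smul, zz, mul_add, add_smul, ← XX_add, ← XX_add, sub_eq_add_neg]
  have e : (fun i : ℕ × ℤ => 2 * i.1) = fun i => i.1 + i.1 := funext fun i => two_mul _
  rw [e] at hF hy
  refine VLift2_graph (fun i : ℕ × ℤ => (i.1, i.1)) (fun i => XX i.2 * PQ i.1) hF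
    (fun i => ?_) (fun s => ?_) y hy
  · rw [mul_smul, ← smul_sub, ← two_mul]
    exact Submodule.smul_mem _ _ (omF_tri i.1)
  · have h1 := (XX_mul_indep (PQ_ne_zero s.1)).comp
      (fun i : {i : ℕ × ℤ // (i.1, i.1) = s} => i.1.2) (by
        rintro ⟨⟨l, n⟩, h⟩ ⟨⟨l', n'⟩, h'⟩ hn
        obtain rfl : l = l' := congrArg Prod.fst (h.trans h'.symm)
        obtain rfl : n = n' := hn
        rfl)
    convert h1 using 1
    funext i
    have h2 : i.1.1 = s.1 := congrArg Prod.fst i.2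
    rw [Function.comp_apply, h2]

theorem VLift2_Nn {m : ℕ} {w : FM}
    (hw : w ∈ (TF MM).Gn (fun i : ℕ × ℤ => XX i.2 • omF i.1) (fun i => 2 * i.1) m) :
    Nn w ∈ (TF MM).Gn (fun i : ℕ × ℤ => XX i.2 • omF i.1) (fun i => 2 * i.1) (m + 2) := by
  induction hw using Submodule.span_induction with
  | mem w hw =>
    obtain ⟨i, x, hx, rfl⟩ := hw
    rw [TF_ρ, Nn_loc hx (smul_mem_vLv _ (omF_mem i.1)), map_smul]
    exact Submodule.subset_span ⟨(i.1 + 1, i.2), shn 1 x, (hx.shn 1).padR 1, rfl⟩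
  | zero => rw [map_zero]; exact zero_mem _
  | add u w _ _ hu hw => rw [map_add]; exact add_mem hu hw
  | smul c w _ hw => rw [LinearMap.map_smul_of_tower]; exact Submodule.smul_mem _ _ hw

theorem gF_mem_Vt (k : ℕ) (n : ℤ) : XX n • gF k ∈
    (TF MM).Gn (fun i : ℕ × ℤ => XX i.2 • omF i.1) (fun i => 2 * i.1) (2 * k) := by
  induction k generalizing n with
  | zero =>
    have h : gF 0 = omF 0 := by
      rw [gF, PQ_zero, one_smul]
      rfl
    rw [h]
    exact (TF MM).gen_mem_Gn (fun i : ℕ × ℤ => XX i.2 • omF i.1) (fun i => 2 * i.1) (0, n)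
  | succ k ih =>
    have h : XX n • gF (k + 1) =
        Nn (XX n • gF k) + a (-2) • vρ MM (TtF k) (XX (n + -1) • gF k) := by
      rw [map_smul, Nn_gF, vρ_smul, smul_sub, smul_smul, mul_smul_comm, ← XX_add, smul_assoc,
        sub_add_cancel]
    rw [h]
    exact add_mem (VLift2_Nn (ih n))
      (Submodule.smul_mem _ _ (TM.Gn_loc (T := TF MM) (loc_TtF k) (ih _)))

theorem VLift2_lv (m : ℕ) : (TF MM).Lv m ≤
    (TF MM).Gn (fun i : (ℕ × ℕ) × ℤ => XX i.2 • eta MM i.1.1 i.1.2) (fun i => i.1.1 + i.1.2) m := by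
  intro w hw
  have h : ∀ c : MM, c • w ∈ (TF MM).Gn (fun i : (ℕ × ℕ) × ℤ => XX i.2 • eta MM i.1.1 i.1.2)
      (fun i => i.1.1 + i.1.2) m := by
    have h1 := NF_span_level (k := MM) hw
    clear hw
    induction h1 using Submodule.span_induction with
    | mem w hw =>
      obtain ⟨u, rfl, rfl⟩ := hw
      intro c
      rw [NF, ← vρ_smul]
      refine TM.Gn_loc (T := TF MM) (cupW_cups u).loc ?_
      have hc : c ∈ Submodule.span R (Set.range XX) := MM_span ▸ Submodule.mem_top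
      induction hc using Submodule.span_induction with
      | mem c hc =>
        obtain ⟨n, rfl⟩ := hc
        exact (TF MM).gen_mem_Gn (fun i : (ℕ × ℕ) × ℤ => XX i.2 • eta MM i.1.1 i.1.2)
          (fun i => i.1.1 + i.1.2) (core u, n)
      | zero => rw [zero_smul]; exact zero_mem _
      | add c d _ _ hc hd => rw [add_smul]; exact add_mem hc hd
      | smul r c _ hc => rw [smul_assoc]; exact Submodule.smul_mem _ _ hc
    | zero => intro c; rw [smul_zero]; exact zero_mem _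
    | add u w _ _ hu hw => intro c; rw [smul_add]; exact add_mem (hu c) (hw c)
    | smul d w _ hw => intro c; rw [smul_smul]; exact hw _
  simpa using h 1

/-- universal property of the whole vertex model over `R[X, X⁻¹]` -/
theorem FM_lift {T : TM B} (e : ℕ → ℕ → MM →ₗ[R] B) (he : ∀ x y c, e x y c ∈ T.Lv (x + y))
    (hC : ∀ l x y c, l + 2 ≤ x + y →
      T.ρ (C l) (e x y c) = if l + 1 = x then e (x - 1) (y - 1) c else 0) :
    ∃ φ : FM →ₗ[R] B, GMap (TF MM) T φ ∧ ∀ x y c, φ (c • eta MM x y) = e x y c := by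
  have hF : ((TF MM).prod T).Fam (fun i : (ℕ × ℕ) × ℤ =>
      (XX i.2 • eta MM i.1.1 i.1.2, e i.1.1 i.1.2 (XX i.2))) fun i => i.1.1 + i.1.2 := by
    refine ⟨fun i => ⟨smul_mem_vLv _ (eta_mem_vLv _ _), he _ _ _⟩, ?_⟩
    rintro ⟨⟨x, y⟩, n⟩ l m hm hl
    simp only at hm
    rw [TM.prod_ρ, TF_ρ]
    simp only
    rw [vρ_smul, C_eta, hC l x y _ (by omega)]
    by_cases h : l + 1 = x
    · rw [if_pos ⟨h, by omega⟩, if_pos h]
      obtain rfl : m = x - 1 + (y - 1) := by omega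
      exact ((TF MM).prod T).gen_mem_N (fun i : (ℕ × ℕ) × ℤ =>
        (XX i.2 • eta MM i.1.1 i.1.2, e i.1.1 i.1.2 (XX i.2))) (fun i => i.1.1 + i.1.2)
        ((x - 1, y - 1), n)
    · rw [if_neg fun h' => h h'.1, if_neg h, smul_zero]
      exact zero_mem _
  obtain ⟨φ, h1, h2⟩ := lift_of_graph (T := TF MM) (T' := T)
    (g := fun i : (ℕ × ℕ) × ℤ => XX i.2 • eta MM i.1.1 i.1.2)
    (g' := fun i => e i.1.1 i.1.2 (XX i.2)) (lv := fun i => i.1.1 + i.1.2)
    (fun i => smul_mem_vLv _ (eta_mem_vLv _ _)) (fun i => he _ _ _) VLift2_lv TF_strict.top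
    (VLift2_graph (fun i : (ℕ × ℕ) × ℤ => i.1) (fun i => XX i.2) hF
      (fun i => by rw [sub_self]; exact zero_mem _) fun s =>
        XX_indep.comp (fun i : {i : (ℕ × ℕ) × ℤ // i.1 = s} => i.1.2) (by
          rintro ⟨⟨l, n⟩, rfl⟩ ⟨⟨l', n'⟩, h'⟩ hn
          obtain rfl : l' = l := h'
          obtain rfl : n = n' := hn
          rfl))
  refine ⟨φ, h1, fun x y c => ?_⟩
  exact LinearMap.congr_fun (MM_ext
    (φ := φ ∘ₗ (LinearMap.toSpanSingleton MM FM (eta MM x y)).restrictScalars R) (ψ := e x y)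
    fun n => h2 ((x, y), n)) c


theorem FM_ext {T : TM B} {φ ψ : FM →ₗ[R] B} (hφ : GMap (TF MM) T φ) (hψ : GMap (TF MM) T ψ)
    (h : ∀ x y (c : MM), φ (c • eta MM x y) = ψ (c • eta MM x y)) : φ = ψ :=
  GMap.ext_gen (T := TF MM) (g := fun i : (ℕ × ℕ) × ℤ => XX i.2 • eta MM i.1.1 i.1.2)
    (lv := fun i => i.1.1 + i.1.2) (fun _ => smul_mem_vLv _ (eta_mem_vLv _ _)) VLift2_lv
    TF_strict.top hφ hψ fun _ => h _ _ _

end Pool.Agent.P.MP_b3a239_gt
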