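import Pool.Agent.P.MP_b3a239_gt.VX
import Pool.Agent.P.MP_b3a239_gt.TLBasic

/-! Linear algebra of words. -/

set_option maxSynthPendingDepth 3

noncomputable section

namespace Pool.Agent.P.MP_b3a239_gt

section Plain
variable {k : Type} [CommRing k]

@[simp] theorem lin_bas (φ : List Bool → F k) (w : List Bool) : lin φ (bas k w) = φ w := by simp [lin, bas]
@[simp] theorem cons_bas (b : Bool) (w : List Bool) : cons k b (bas k w) = bas k (b :: w) := by simp [cons, bas]
@[simp] theorem snoc_bas (b : Bool) (w : List Bool) : snoc k b (bas k w) = bas k (w ++ [b]) := by simp [snoc, bas]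
@[simp] theorem insAt_bas (l : ℕ) (b : Bool) (w : List Bool) :
    insAt k l b (bas k w) = bas k (w.take l ++ b :: w.drop l) := by simp [insAt, bas]
@[simp] theorem swp_bas (w : List Bool) : swp k (bas k w) = bas k (w.map not) := by simp [swp, bas]
@[simp] theorem app_bas (u w : List Bool) : app k (bas k u) (bas k w) = bas k (u ++ w) := by simp [app, bas]
private theorem VLin_ext {M : Type} [AddCommGroup M] [Module k M] {φ ψ : F k →ₗ[k] M}
    (h : ∀ w, φ (bas k w) = ψ (bas k w)) : φ = ψ := by
  apply Finsupp.lhom_ext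
  intro w c
  have : (Finsupp.single w c : F k) = c • bas k w := by simp [bas]
  rw [this, map_smul, map_smul, h]

private theorem VLin_ind {P : F k → Prop} (h₀ : P 0) (hb : ∀ u : List Bool, P (bas k u))
    (hs : ∀ (c : k) w, P w → P (c • w)) (ha : ∀ u w, P u → P w → P (u + w)) (w : F k) : P w := by
  induction w using Finsupp.induction_linear with
  | zero => exact h₀
  | add u w hu hw => exact ha u w hu hw
  | single u c =>
    have : (Finsupp.single u c : F k) = c • bas k u := by simp [bas]
    rw [this]; exact hs _ _ (hb u)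

@[simp] theorem app_nil_left (w : F k) : app k (bas k []) w = w := by
  induction w using VLin_ind with
  | h₀ => simp
  | hb u => simp
  | hs c w h => rw [map_smul, h]
  | ha u w hu hw => rw [map_add, hu, hw]
@[simp] theorem app_nil_right (w : F k) : app k w (bas k []) = w := by
  induction w using VLin_ind with
  | h₀ => simp
  | hb u => simp
  | hs c w h => rw [map_smul, LinearMap.smul_apply, h]
  | ha u w hu hw => rw [map_add, LinearMap.add_apply, hu, hw]
theorem app_cons (b : Bool) (u w : F k) : app k (cons k b u) w = cons k b (app k u w) := by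
  induction u using VLin_ind with
  | h₀ => simp
  | hb u =>
    induction w using VLin_ind with
    | h₀ => simp
    | hb w => simp
    | hs c w h => simp only [map_smul, h]
    | ha w₁ w₂ h₁ h₂ => simp only [map_add, h₁, h₂]
  | hs c u h => simp only [map_smul, LinearMap.smul_apply, h]
  | ha u₁ u₂ h₁ h₂ => simp only [map_add, LinearMap.add_apply, h₁, h₂]
theorem app_assoc (u v w : F k) : app k (app k u v) w = app k u (app k v w) := by
  induction u using VLin_ind with
  | h₀ => simp
  | hb u =>
    induction v using VLin_ind with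
    | h₀ => simp
    | hb v =>
      induction w using VLin_ind with
      | h₀ => simp
      | hb w => simp
      | hs c w h => simp only [map_smul, h]
      | ha w₁ w₂ h₁ h₂ => simp only [map_add, h₁, h₂]
    | hs c v h => simp only [map_smul, LinearMap.smul_apply, h]
    | ha v₁ v₂ h₁ h₂ => simp only [map_add, LinearMap.add_apply, h₁, h₂]
  | hs c u h => simp only [map_smul, LinearMap.smul_apply, h]
  | ha u₁ u₂ h₁ h₂ => simp only [map_add, LinearMap.add_apply, h₁, h₂]
theorem snoc_eq_app (b : Bool) (w : F k) : snoc k b w = app k w (bas k [b]) := by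
  induction w using VLin_ind with
  | h₀ => simp
  | hb u => simp
  | hs c w h => simp only [map_smul, LinearMap.smul_apply, h]
  | ha u w hu hw => simp only [map_add, LinearMap.add_apply, hu, hw]
theorem cons_snoc (b c : Bool) (w : F k) : cons k b (snoc k c w) = snoc k c (cons k b w) := by
  induction w using VLin_ind with
  | h₀ => simp
  | hb u => simp
  | hs c w h => simp only [map_smul, h]
  | ha u w hu hw => simp only [map_add, hu, hw]
theorem insAt_zero (b : Bool) : insAt k 0 b = cons k b := VLin_ext fun w => by simp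
theorem insAt_succ_cons (l : ℕ) (b c : Bool) (w : F k) :
    insAt k (l + 1) b (cons k c w) = cons k c (insAt k l b w) := by
  induction w using VLin_ind with
  | h₀ => simp
  | hb u => simp
  | hs c w h => simp only [map_smul, h]
  | ha u w hu hw => simp only [map_add, hu, hw]
theorem cons_injective (b : Bool) : Function.Injective (cons k b) :=   Finsupp.mapDomain_injective (List.cons_injective (a := b))
theorem F_ext {M : Type} [AddCommGroup M] [Module k M] {φ ψ : F k →ₗ[k] M}
    (h : ∀ w, φ (bas k w) = ψ (bas k w)) : φ = ψ := VLin_ext h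

end Plain

variable {k : Type} [CommRing k] [Algebra R k]

theorem vρ_apply (x : FA) (w : F k) : vρ k x w = vρk k x w := rfl
theorem vρ_smul (x : FA) (c : k) (w : F k) : vρ k x (c • w) = c • vρ k x w := map_smul (vρk k x) c w
@[simp] theorem vρ_U_bas (l : ℕ) (w : List Bool) : vρ k (U l) (bas k w) = uL k l w := by
  rw [vρ_apply]; simp [vρk, U]
@[simp] theorem vρ_C_bas (l : ℕ) (w : List Bool) : vρ k (C l) (bas k w) = cL k l w := by
  rw [vρ_apply]; simp [vρk, C]
theorem vρ_shn_cons (x : FA) (b : Bool) (w : F k) :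
    vρ k (shn 1 x) (cons k b w) = cons k b (vρ k x w) := by
  induction x using FreeAlgebra.induction generalizing w with
  | grade0 r =>
    rw [AlgHom.commutes, AlgHom.commutes, Module.algebraMap_end_apply,
      Module.algebraMap_end_apply, LinearMap.map_smul_of_tower]
  | grade1 g =>
    cases g with
    | u l =>
      change vρ k (shn 1 (U l)) (cons k b w) = cons k b (vρ k (U l) w)
      rw [shn_U]
      induction w using VLin_ind with
      | h₀ => simp
      | hb u => simp [uL]
      | hs c w h => simp only [map_smul, vρ_smul, h]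
      | ha u w hu hw => simp only [map_add, hu, hw]
    | c l =>
      change vρ k (shn 1 (C l)) (cons k b w) = cons k b (vρ k (C l) w)
      rw [shn_C]
      induction w using VLin_ind with
      | h₀ => simp
      | hb u => simp [cL]
      | hs c w h => simp only [map_smul, vρ_smul, h]
      | ha u w hu hw => simp only [map_add, hu, hw]
  | mul y₁ y₂ h₁ h₂ =>
    rw [map_mul, map_mul, map_mul, Module.End.mul_apply, Module.End.mul_apply, h₂, h₁]
  | add y₁ y₂ h₁ h₂ =>
    rw [map_add, map_add, map_add (vρ k), LinearMap.add_apply, LinearMap.add_apply, map_add, h₁, h₂]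
theorem vρ_U_zero (w : F k) : vρ k (U 0) w =
    cons k false (cons k true w) - a (-2) • cons k true (cons k false w) := by
  induction w using VLin_ind with
  | h₀ => simp
  | hb u => simp [uL]
  | hs c w h => simp only [map_smul, vρ_smul, h, smul_sub, smul_comm c (a (-2))]
  | ha u w hu hw => simp only [map_add, hu, hw, smul_add]; abel
theorem vρ_C_zero (b c : Bool) (w : F k) : vρ k (C 0) (cons k b (cons k c w)) =
    if b = c then 0 else if b then w else -(a 2 • w) := by
  induction w using VLin_ind with
  | h₀ => simp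
  | hb u => cases b <;> cases c <;> simp [cL]
  | hs d w h =>
    simp only [map_smul, vρ_smul, h]
    cases b <;> cases c <;> simp [smul_comm d (a 2)]
  | ha u w hu hw =>
    simp only [map_add, hu, hw]
    cases b <;> cases c <;> simp [add_comm]

theorem mem_vLv {m : ℕ} {w : F k} : w ∈ vLv k m ↔ ∀ u, w u ≠ 0 → u.length = m := by
  rw [vLv, Finsupp.mem_supported]
  constructor
  · intro h u hu
    exact h (Finsupp.mem_support_iff.2 hu)
  · intro h u hu
    exact h u (Finsupp.mem_support_iff.1 hu)
theorem bas_mem_vLv (w : List Bool) : bas k w ∈ vLv k w.length := by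
  rw [mem_vLv]
  intro u hu
  have := Finsupp.single_apply_ne_zero.1 hu
  rw [this.1]
theorem smul_mem_vLv {m : ℕ} (c : k) {w : F k} (h : w ∈ vLv k m) : c • w ∈ vLv k m := by
  rw [mem_vLv] at h ⊢
  intro u hu
  apply h u
  intro h0
  exact hu (by simp [h0])
private theorem VLin_lv {m : ℕ} {P : F k → Prop} (h₀ : P 0)
    (hb : ∀ u : List Bool, u.length = m → P (bas k u))
    (hs : ∀ (c : k) w, w ∈ vLv k m → P w → P (c • w))
    (ha : ∀ u w, u ∈ vLv k m → w ∈ vLv k m → P u → P w → P (u + w)) {w : F k}
    (hw : w ∈ vLv k m) : P w := by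
  have key : ∀ s : Finset (List Bool), (∀ u ∈ s, u.length = m) →
      (∑ u ∈ s, w u • bas k u) ∈ vLv k m ∧ P (∑ u ∈ s, w u • bas k u) := by
    intro s
    induction s using Finset.induction_on with
    | empty => intro _; simpa using h₀
    | insert u s hu ih =>
      intro h
      rw [Finset.sum_insert hu]
      obtain ⟨h₁, h₂⟩ := ih fun v hv => h v (Finset.mem_insert_of_mem hv)
      have hl := h u (Finset.mem_insert_self u s)
      have hb' : bas k u ∈ vLv k m := hl ▸ bas_mem_vLv u
      exact ⟨add_mem (smul_mem_vLv _ hb') h₁,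
        ha _ _ (smul_mem_vLv _ hb') h₁ (hs _ _ hb' (hb u hl)) h₂⟩
  have e : w = ∑ u ∈ w.support, w u • bas k u := by
    conv_lhs => rw [← Finsupp.sum_single w]
    simp [Finsupp.sum, bas]
  rw [e]
  exact (key _ fun u hu => mem_vLv.1 hw u (Finsupp.mem_support_iff.1 hu)).2

theorem cons_mem_vLv {m : ℕ} (b : Bool) {w : F k} (h : w ∈ vLv k m) :
    cons k b w ∈ vLv k (m + 1) := by
  refine VLin_lv (P := fun w => cons k b w ∈ vLv k (m + 1)) (by simp) (fun u hu => ?_)
    (fun c w _ h => ?_) (fun u w _ _ hu hw => ?_) h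
  · rw [cons_bas, ← hu]; exact bas_mem_vLv (b :: u)
  · rw [map_smul]; exact smul_mem_vLv c h
  · rw [map_add]; exact add_mem hu hw
theorem snoc_mem_vLv {m : ℕ} (b : Bool) {w : F k} (h : w ∈ vLv k m) :
    snoc k b w ∈ vLv k (m + 1) := by
  refine VLin_lv (P := fun w => snoc k b w ∈ vLv k (m + 1)) (by simp) (fun u hu => ?_)
    (fun c w _ h => ?_) (fun u w _ _ hu hw => ?_) h
  · rw [snoc_bas, ← hu]; simpa using bas_mem_vLv (k := k) (u ++ [b])
  · rw [map_smul]; exact smul_mem_vLv c h
  · rw [map_add]; exact add_mem hu hw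
theorem app_mem_vLv {m n : ℕ} {u w : F k} (hu : u ∈ vLv k m) (hw : w ∈ vLv k n) :
    app k u w ∈ vLv k (n + m) := by
  refine VLin_lv (P := fun u => app k u w ∈ vLv k (n + m)) (by simp) (fun u hu => ?_)
    (fun c w _ h => ?_) (fun u w _ _ hu hw => ?_) hu
  · refine VLin_lv (P := fun w => app k (bas k u) w ∈ vLv k (n + m)) (by simp) (fun v hv => ?_)
      (fun c w _ h => ?_) (fun u w _ _ hu hw => ?_) hw
    · rw [app_bas, ← hu, ← hv, add_comm, ← List.length_append]; exact bas_mem_vLv _
    · rw [map_smul]; exact smul_mem_vLv c h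
    · rw [map_add]; exact add_mem hu hw
  · rw [map_smul, LinearMap.smul_apply]; exact smul_mem_vLv c h
  · rw [map_add, LinearMap.add_apply]; exact add_mem hu hw
theorem eta_mem_vLv (x y : ℕ) : eta k x y ∈ vLv k (x + y) := by
  have := bas_mem_vLv (k := k) (etaW x y)
  simpa [etaW, eta] using this
theorem snoc_eq_insAt {m : ℕ} (b : Bool) {w : F k} (h : w ∈ vLv k m) :
    snoc k b w = insAt k m b w := by
  refine VLin_lv (P := fun w => snoc k b w = insAt k m b w) (by simp) (fun u hu => ?_)
    (fun c w _ h => ?_) (fun u w _ _ hu hw => ?_) h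
  · subst hu; simp
  · rw [map_smul, map_smul, h]
  · rw [map_add, map_add, hu, hw]
theorem eq_of_mem_vLv_zero {w : F k} (h : w ∈ vLv k 0) : w = w [] • bas k [] := by
  refine VLin_lv (P := fun w => w = w [] • bas k []) (by simp) (fun u hu => ?_)
    (fun c w _ h => ?_) (fun u w _ _ hu hw => ?_) h
  · obtain rfl := List.length_eq_zero_iff.1 hu
    simp [bas]
  · rw [Finsupp.smul_apply, smul_eq_mul, mul_smul, ← h]
  · rw [Finsupp.add_apply, add_smul, ← hu, ← hw]
theorem exists_cons_of_mem_vLv {m : ℕ} {w : F k} (h : w ∈ vLv k (m + 1)) :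
    ∃ u ∈ vLv k m, ∃ v ∈ vLv k m, w = cons k true u + cons k false v := by
  refine VLin_lv (P := fun w => ∃ u ∈ vLv k m, ∃ v ∈ vLv k m, w = cons k true u + cons k false v)
    ⟨0, zero_mem _, 0, zero_mem _, by simp⟩ (fun u hu => ?_)
    (fun c w _ h => ?_) (fun u w _ _ hu hw => ?_) h
  · cases u with
    | nil => simp at hu
    | cons b u =>
      have hl : u.length = m := by simpa using hu
      have hb : bas k u ∈ vLv k m := hl ▸ bas_mem_vLv u
      cases b
      · exact ⟨0, zero_mem _, _, hb, by simp⟩
      · exact ⟨_, hb, 0, zero_mem _, by simp⟩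
  · obtain ⟨u, hu, v, hv, rfl⟩ := h
    exact ⟨_, smul_mem_vLv c hu, _, smul_mem_vLv c hv, by simp⟩
  · obtain ⟨u₁, hu₁, v₁, hv₁, rfl⟩ := hu
    obtain ⟨u₂, hu₂, v₂, hv₂, rfl⟩ := hw
    exact ⟨_, add_mem hu₁ hu₂, _, add_mem hv₁ hv₂, by simp only [map_add]; abel⟩
/-- induction over a level -/
theorem vLv_ind {m : ℕ} {P : F k → Prop} (h₀ : P 0) (hb : ∀ u : List Bool, u.length = m → P (bas k u))
    (hs : ∀ (c : k) w, w ∈ vLv k m → P w → P (c • w))
    (ha : ∀ u w, u ∈ vLv k m → w ∈ vLv k m → P u → P w → P (u + w)) {w : F k}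
    (hw : w ∈ vLv k m) : P w := VLin_lv h₀ hb hs ha hw

end Pool.Agent.P.MP_b3a239_gt
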