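import Pool.Agent.P.MP_b3a239_gt.VOm
import Pool.Agent.P.MP_b3a239_gt.Alg

/-! The skein module `V` of the solid torus with marked points, inside the vertex model. -/

set_option maxSynthPendingDepth 3

noncomputable section

namespace Pool.Agent.P.MP_b3a239_gt

section Sub
variable {B I : Type} [AddCommGroup B] [Module R B] {T : TM B}

/-- the submodule generated by a family in a strict module -/
def TM.gen (T : TM B) (hT : T.Strict) (g : I → B) (lv : I → ℕ) (hg : ∀ i, g i ∈ T.Lv (lv i)) :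
    TM ↥(⨆ m, T.Gn g lv m) :=
  T.sub _ (hT.stable (TM.Gn_le hg) (fun h hw => TM.Gn_loc (.u h) hw) fun h hw => TM.Gn_loc (.c h) hw)
    (T.Gn g lv) (TM.Gn_le hg) (fun h hw => TM.Gn_loc (.u h) hw) fun h hw => TM.Gn_loc (.c h) hw

/-- the generators as elements of the generated submodule -/
def TM.genEl (T : TM B) (g : I → B) (lv : I → ℕ) (i : I) : ↥(⨆ m, T.Gn g lv m) :=
  ⟨g i, Submodule.mem_iSup_of_mem (lv i) (T.gen_mem_Gn g lv i)⟩

variable {hT : T.Strict} {g : I → B} {lv : I → ℕ} {hg : ∀ i, g i ∈ T.Lv (lv i)}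

theorem TM.gen_coe (x : FA) (w : ↥(⨆ m, T.Gn g lv m)) :
    ((T.gen hT g lv hg).ρ x w : B) = T.ρ x w := rfl
theorem TM.mem_gen_Lv {m : ℕ} {w : ↥(⨆ m, T.Gn g lv m)} :
    w ∈ (T.gen hT g lv hg).Lv m ↔ (w : B) ∈ T.Gn g lv m := Iff.rfl
theorem TM.gen_strict : (T.gen hT g lv hg).Strict := by
  refine ⟨fun h hw => Subtype.ext (hT.U0 h (TM.Gn_le hg _ hw)),
    fun h hw => Subtype.ext (hT.C0 h (TM.Gn_le hg _ hw)), eq_top_iff.2 ?_⟩
  rintro ⟨y, hy⟩ -
  induction hy using Submodule.iSup_induction' with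
  | mem m y hy => exact Submodule.mem_iSup_of_mem m hy
  | zero => exact zero_mem _
  | add u w hu hw h₁ h₂ => exact add_mem h₁ h₂
theorem TM.genEl_mem (i : I) : T.genEl g lv i ∈ (T.gen hT g lv hg).Lv (lv i) :=
  T.gen_mem_Gn g lv i
theorem TM.gen_Lv_le (m : ℕ) :
    (T.gen hT g lv hg).Lv m ≤ (T.gen hT g lv hg).Gn (T.genEl g lv) lv m := by
  rintro ⟨y, hy⟩ hw
  have hle : T.Gn g lv m ≤ ⨆ m, T.Gn g lv m := le_iSup (T.Gn g lv) m
  change y ∈ T.Gn g lv m at hw
  induction hw using Submodule.span_induction with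
  | mem y h =>
    obtain ⟨i, x, hx, rfl⟩ := h
    exact Submodule.subset_span ⟨i, x, hx, rfl⟩
  | zero => exact zero_mem _
  | add u w hu hw h₁ h₂ => exact add_mem (h₁ (hle hu)) (h₂ (hle hw))
  | smul c w hw h => exact Submodule.smul_mem _ c (h (hle hw))
theorem TM.gen_gmap : GMap (T.gen hT g lv hg) T (Submodule.subtype _) :=
  ⟨fun hw => TM.Gn_le hg _ hw, fun _ _ => rfl, fun _ _ => rfl⟩
/-- the graph condition can be checked in the ambient module -/
theorem TM.gen_lift {B' : Type} [AddCommGroup B'] [Module R B'] {T' : TM B'} {g' : I → B'}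
    (hg' : ∀ i, g' i ∈ T'.Lv (lv i))
    (h : ∀ y : B', ((0, y) : B × B') ∈ ⨆ m, (T.prod T').Gn (fun i => (g i, g' i)) lv m → y = 0) :
    ∃ φ : ↥(⨆ m, T.Gn g lv m) →ₗ[R] B', GMap (T.gen hT g lv hg) T' φ ∧
      ∀ i, φ (T.genEl g lv i) = g' i := by
  refine lift_of_graph TM.genEl_mem hg' TM.gen_Lv_le TM.gen_strict.top fun y hy => h y ?_
  have hle : (⨆ m, ((T.gen hT g lv hg).prod T').Gn (fun i => (T.genEl g lv i, g' i)) lv m) ≤
      (⨆ m, (T.prod T').Gn (fun i => (g i, g' i)) lv m).comap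
        ((Submodule.subtype _).prodMap LinearMap.id) := by
    refine iSup_le fun m => Submodule.span_le.2 ?_
    rintro _ ⟨i, x, hx, rfl⟩
    exact Submodule.mem_iSup_of_mem m (Submodule.subset_span ⟨i, x, hx, rfl⟩)
  exact hle hy

/-- the positive levels -/
def TM.pos (T : TM B) : Submodule R B := ⨆ m, T.Lv (m + 1)

private theorem pos_ind {P : B → Prop} (hl : ∀ m, ∀ w ∈ T.Lv (m + 1), P w) (h0 : P 0)
    (ha : ∀ u w, P u → P w → P (u + w)) {w : B} (hw : w ∈ T.pos) : P w :=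
  Submodule.iSup_induction (fun m => T.Lv (m + 1)) (motive := P) hw hl h0 ha

private theorem top_ind (hT : T.Strict) {P : B → Prop} (hl : ∀ m, ∀ w ∈ T.Lv m, P w) (h0 : P 0)
    (ha : ∀ u w, P u → P w → P (u + w)) (w : B) : P w := by
  have hw : w ∈ ⨆ m, T.Lv m := by rw [hT.top]; trivial
  exact Submodule.iSup_induction T.Lv (motive := P) hw hl h0 ha

private theorem mem_pos {m : ℕ} {w : B} (hw : w ∈ T.Lv (m + 1)) : w ∈ T.pos :=
  Submodule.mem_iSup_of_mem m hw

theorem TM.Strict.pos_stable (hT : T.Strict) (x : FA) : ∀ w ∈ T.pos, T.ρ (shn 1 x) w ∈ T.pos := by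
  refine stable_of (ρ := T.ρ.comp (shn 1)) (fun l w hw => ?_) (fun l w hw => ?_) x
  · rw [AlgHom.comp_apply, shn_U]
    refine pos_ind (P := fun w => T.ρ (U (l + 1)) w ∈ T.pos) (fun m w hw => ?_) (by simp)
      (fun u w hu hw => by rw [map_add]; exact add_mem hu hw) hw
    by_cases h : l ≤ m
    · exact mem_pos (m := m + 2) (T.memU (by omega) hw)
    · rw [hT.U0 (by omega) hw]
      exact zero_mem _
  · rw [AlgHom.comp_apply, shn_C]
    refine pos_ind (P := fun w => T.ρ (C (l + 1)) w ∈ T.pos) (fun m w hw => ?_) (by simp)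
      (fun u w hu hw => by rw [map_add]; exact add_mem hu hw) hw
    by_cases h : l + 2 ≤ m
    · obtain ⟨n, rfl⟩ : ∃ n, m = n + 2 := ⟨m - 2, by omega⟩
      exact mem_pos (m := n) (T.memC (m := n + 1) (by omega) hw)
    · rw [hT.C0 (by omega) hw]
      exact zero_mem _

theorem TM.Strict.U_zero_mem (hT : T.Strict) (w : B) : T.ρ (U 0) w ∈ T.pos :=
  top_ind hT (P := fun w => T.ρ (U 0) w ∈ T.pos)
    (fun m _ hw => mem_pos (m := m + 1) (T.memU (Nat.zero_le _) hw)) (by simp)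
    (fun u w hu hw => by rw [map_add]; exact add_mem hu hw) w

/-- the positive levels as a module for the strands `1, 2, …` -/
def TM.tq (T : TM B) (hT : T.Strict) : TM T.pos :=
  (T.shift 1).sub _ hT.pos_stable (T.shift 1).Lv (fun _ => le_rfl) (T.shift 1).memU (T.shift 1).memC

theorem TM.tq_coe (hT : T.Strict) (x : FA) (w : T.pos) :
    ((T.tq hT).ρ x w : B) = T.ρ (shn 1 x) w := rfl
theorem TM.mem_tq_Lv (hT : T.Strict) {m : ℕ} {w : T.pos} :
    w ∈ (T.tq hT).Lv m ↔ (w : B) ∈ T.Lv (m + 1) := Iff.rfl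
theorem TM.tq_strict (hT : T.Strict) : (T.tq hT).Strict := by
  refine ⟨fun {l m w} h hw => Subtype.ext ?_, fun {l m w} h hw => Subtype.ext ?_, eq_top_iff.2 ?_⟩
  · rw [TM.tq_coe, shn_U]
    exact hT.U0 (m := m + 1) (by omega) hw
  · rw [TM.tq_coe, shn_C]
    exact hT.C0 (m := m + 1) (by omega) hw
  · rintro ⟨y, hy⟩ -
    induction hy using Submodule.iSup_induction' with
    | mem m y hy => exact Submodule.mem_iSup_of_mem m hy
    | zero => exact zero_mem _
    | add u w hu hw h₁ h₂ => exact add_mem h₁ h₂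

theorem TM.Strict.base_loop (hT : T.Strict) (w : B) : T.ρ (C 0) (T.ρ (U 0) w) = dd • w :=
  top_ind hT (P := fun w => T.ρ (C 0) (T.ρ (U 0) w) = dd • w)
    (fun _ _ hw => T.loop (Nat.zero_le _) hw) (by simp)
    (fun u w hu hw => by rw [map_add, map_add, hu, hw, smul_add]) w
theorem TM.Strict.base_zag (hT : T.Strict) (w : T.pos) : T.ρ (C 0) (T.ρ (shn 1 (U 0)) w) = w := by
  rw [shn_U]
  exact pos_ind (P := fun w => T.ρ (C 0) (T.ρ (U (0 + 1)) w) = w)
    (fun _ _ hw => T.zag (by omega) hw) (by simp)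
    (fun u w hu hw => by rw [map_add, map_add, hu, hw]) w.2
theorem TM.Strict.base_zig (hT : T.Strict) (w : T.pos) : T.ρ (shn 1 (C 0)) (T.ρ (U 0) w) = w := by
  rw [shn_C]
  exact pos_ind (P := fun w => T.ρ (C (0 + 1)) (T.ρ (U 0) w) = w)
    (fun _ _ hw => T.zig (by omega) hw) (by simp)
    (fun u w hu hw => by rw [map_add, map_add, hu, hw]) w.2
theorem TM.Strict.base_loop' (hT : T.Strict) (w : T.pos) :
    T.ρ (shn 1 (C 0)) (T.ρ (shn 1 (U 0)) w) = dd • w := by
  rw [shn_C, shn_U]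
  exact pos_ind (P := fun w => T.ρ (C (0 + 1)) (T.ρ (U (0 + 1)) w) = dd • w)
    (fun _ _ hw => T.loop (by omega) hw) (by simp)
    (fun u w hu hw => by rw [map_add, map_add, hu, hw, smul_add]) w.2

def TM.base (T : TM B) (hT : T.Strict) : Base B T.pos where
  κ := T.ρ (C 0) ∘ₗ T.pos.subtype
  ι := (T.ρ (U 0)).codRestrict _ hT.U_zero_mem
  j := T.pos.subtype
  u := (T.tq hT).ρ (U 0)
  c := (T.tq hT).ρ (C 0)
  κι := hT.base_loop
  κu := hT.base_zag
  cι w := Subtype.ext (hT.base_zig w)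
  cu w := Subtype.ext (hT.base_loop' w)

theorem TM.base_σ_coe (hT : T.Strict) (w : T.pos) :
    ((T.base hT).σ w : B) = T.ρ (sg false 0) w := by
  have h : T.ρ (sg false 0) w = a (-1) • (w : B) + a 1 • T.ρ (U 0) (T.ρ (C 0) w) := by
    simp [sg]
  rw [h]
  rfl

/-- the loop along a natural drag is natural -/
theorem TM.base_γ_natl (hT : T.Strict) {X : Module.End R T.pos} (hX : (T.tq hT).Natl X) :
    T.Natl ((T.base hT).γ X) := by
  have hγ : ∀ w, (T.base hT).γ X w = T.ρ (C 0) (X ((T.base hT).ι w)) := fun _ => rfl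
  have hι : ∀ w, ((T.base hT).ι w : B) = T.ρ (U 0) w := fun _ => rfl
  refine ⟨fun y => LinearMap.ext fun w => ?_, fun m w hw => ?_⟩
  · have h1 : (T.base hT).ι (T.ρ y w) = (T.tq hT).ρ (shn 1 y) ((T.base hT).ι w) := by
      refine Subtype.ext ?_
      have h := congr($(T.wk.far (Loc.u (le_refl 0)) y) w)
      rw [shn_zero] at h
      rw [TM.tq_coe, hι, hι, shn_shn]
      exact h
    have h2 : X ((T.tq hT).ρ (shn 1 y) ((T.base hT).ι w)) =
        (T.tq hT).ρ (shn 1 y) (X ((T.base hT).ι w)) := congr($(hX.1 (shn 1 y)) _)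
    have h3 := congr($(T.wk.far (Loc.c (le_refl 0)) y) (X ((T.base hT).ι w)))
    rw [shn_zero] at h3
    rw [Module.End.mul_apply, Module.End.mul_apply, hγ, hγ, h1, h2, TM.tq_coe, shn_shn]
    exact h3
  · rw [hγ]
    exact T.memC (Nat.zero_le _) (hX.2 (m + 1) _ (T.memU (Nat.zero_le _) hw))

private theorem natl_algebraMap (T : TM B) (c : R) : T.Natl (algebraMap R _ c) :=
  ⟨fun y => Algebra.commutes c _, fun _ _ hw => Submodule.smul_mem _ c hw⟩

theorem TM.sc_mem_natU (T : TM B) (n : ℤ) : sc _ n ∈ T.natU :=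
  ⟨natl_algebraMap T _, natl_algebraMap T _⟩
theorem TM.neg_one_mem_natU (T : TM B) : -1 ∈ T.natU := by
  have h : T.Natl (-1) := by simpa using natl_algebraMap T (-1)
  exact ⟨h, h⟩
theorem TM.xZ_mem_natU (T : TM B) : xZ B ∈ (T.pi ℤ).natU :=
  ⟨⟨fun _ => rfl, fun _ _ hw i _ => hw (i + 1) trivial⟩,
    ⟨fun _ => rfl, fun _ _ hw i _ => hw (i - 1) trivial⟩⟩
theorem TM.yZ_mem_natU (T : TM B) : yZ B ∈ (T.pi ℤ).natU :=
  ⟨⟨fun y => LinearMap.ext fun w => funext fun i => ((T.ρ y).map_smul _ (w i)).symm,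
      fun _ _ hw i _ => Submodule.smul_mem _ _ (hw i trivial)⟩,
    ⟨fun y => LinearMap.ext fun w => funext fun i => ((T.ρ y).map_smul _ (w i)).symm,
      fun _ _ hw i _ => Submodule.smul_mem _ _ (hw i trivial)⟩⟩

end Sub

def VS : Submodule R FM := ⨆ m, (TF MM).Gn omF (fun l => 2 * l) m

abbrev V : Type := ↥VS

instance : AddCommGroup V := Submodule.addCommGroup VS
instance : Module R V := Submodule.module VS

def TV : TM V := (TF MM).gen TF_strict omF (fun l => 2 * l) omF_mem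

def om (l : ℕ) : V := (TF MM).genEl omF (fun l => 2 * l) l

theorem TV_strict : TV.Strict := TM.gen_strict
theorem TV_coe (x : FA) (w : V) : (TV.ρ x w : FM) = vρ MM x w := rfl
theorem om_coe (l : ℕ) : (om l : FM) = omF l := rfl
theorem om_mem (l : ℕ) : om l ∈ TV.Lv (2 * l) := TM.genEl_mem l
theorem TV_Lv_le (m : ℕ) : TV.Lv m ≤ TV.Gn om (fun l => 2 * l) m := TM.gen_Lv_le m

abbrev Q : Type := ↥TV.pos

instance : AddCommGroup Q := Submodule.addCommGroup TV.pos
instance : Module R Q := Submodule.module TV.pos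

def TQ : TM Q := TV.tq TV_strict

def bV : Base V Q := TV.base TV_strict

/-- a small cup next to `l` arcs around the hole -/
def El (l : ℕ) : Q := bV.ι (om l)

/-- two small cups next to `l` arcs around the hole -/
def Dl (l : ℕ) : Q := bV.u (El l)

end Pool.Agent.P.MP_b3a239_gt
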