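import Pool.Agent.P.MP_b3a239_gt.VOm1

/-! Raising and lowering operators on the arcs; the expressions `Om`. -/

set_option maxSynthPendingDepth 3

noncomputable section

namespace Pool.Agent.P.MP_b3a239_gt

private def al (n : ℤ) : MM := algebraMap R MM (a n)

private theorem al_smul (n : ℤ) (w : FM) : a n • w = al n • w := (algebraMap_smul MM _ w).symm
private theorem al_mul (n : ℤ) (e : MM) : a n • e = al n * e := Algebra.smul_def _ _
private theorem al_add (m n : ℤ) : al (m + n) = al m * al n := by rw [al, a_add, map_mul]; rfl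
private theorem al_four : al 4 = al 2 * al 2 := al_add 2 2
private theorem al_nfour : al (-4) = al (-2) * al (-2) := by rw [← al_add]; rfl
private theorem al_inv : al 2 * al (-2) = 1 := by
  rw [← al_add, al, show (2 : ℤ) + -2 = 0 from rfl, a_zero, map_one]
private theorem XX_two : XX 2 = XX 1 * XX 1 := XX_add 1 1
private theorem XX_ntwo : XX (-2) = XX (-1) * XX (-1) := by rw [← XX_add]; rfl
private theorem XX_inv : XX 1 * XX (-1) = 1 := by rw [← XX_add]; exact XX_zero
private theorem f0_smul (w : FM) : f 0 • w = (1 - al 4) • w := by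
  rw [← algebraMap_smul MM, f, map_sub, map_one]; rfl
private theorem f0_mul (e : MM) : f 0 • e = (1 - al 4) * e := by
  rw [Algebra.smul_def, f, map_sub, map_one]; rfl

private theorem omF_succ' (l : ℕ) : omF (l + 1) =
    (-(a (-2) • XX (-1))) • cons MM false (snoc MM true (omF l)) +
      XX 1 • cons MM true (snoc MM false (omF l)) := Nn_apply _

private theorem KP_omF (l : ℕ) : KP MM 2 (2 * l) (omF l) = omF l := by
  rw [KP_of_prW (omF_mem l) (omF_wt l), mul_zero, a_zero, one_smul]

private theorem FP_omF_succ (l : ℕ) : FP MM (l + 1) (omF (l + 1)) =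
    (-(al (-2) * al (-2) * XX (-1))) • cons MM false (snoc MM true (FP MM l (omF l))) +
      XX 1 • cons MM false (snoc MM false (omF l)) +
      (al 2 * XX 1) • cons MM true (snoc MM false (FP MM l (omF l))) := by
  have h : l ≤ 2 * l := by omega
  rw [omF_succ', map_add, map_smul, map_smul, FP_true, FP_false, FP_snoc h _ (omF_mem l),
    FP_snoc h _ (omF_mem l)]
  simp only [al_smul, al_mul]
  match_scalars <;> ring

private theorem FP_omF_wt (l : ℕ) : prW MM (-2) (FP MM l (omF l)) = FP MM l (omF l) := by
  induction l with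
  | zero => simp
  | succ l ih =>
    have c1 := fun w => prW_cons (k := MM) (-1) false w
    have c2 := fun w => prW_cons (k := MM) (-3) true w
    have s1 := fun w => prW_snoc (k := MM) (-2) true w
    have s2 := fun w => prW_snoc (k := MM) 0 false w
    have s3 := fun w => prW_snoc (k := MM) (-2) false w
    norm_num at c1 c2 s1 s2 s3
    rw [FP_omF_succ, map_add, map_add, map_smul, map_smul, map_smul, c1, c1, c2, s1, s2, s3, ih,
      omF_wt]

theorem Yc_omF (j : ℤ) (l : ℕ) : cmap (Yc j) (omF l) = KP MM (2 * j) l (omF l) := by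
  induction l with
  | zero =>
    have h := cmap_smul_bas (Yc j) (XX 0) []
    rw [Yc_XX, mul_zero, a_zero, one_smul, XX_zero, one_smul] at h
    rw [KP_zero]
    exact h
  | succ l ih =>
    have h : l ≤ 2 * l := by omega
    rw [omF_succ', map_add, map_add, cmap_smul (Yc j) (Yc_mul j _),
      cmap_smul (Yc j) (Yc_mul j _), map_smul, map_smul, cmap_cons, cmap_cons, cmap_snoc, cmap_snoc, ih, KP_cons,
      KP_cons, KP_snoc h _ _ (omF_mem l), KP_snoc h _ _ (omF_mem l), map_neg, map_smul, Yc_XX,
      Yc_XX, mul_one, mul_neg_one]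
    simp only [al_smul, al_mul, if_true, Bool.false_eq_true, if_false]
    match_scalars <;> ring
theorem EE_omF (l : ℕ) : EE MM (omF l) = (1 - a 4 • XX 2) • EP MM l (omF l) := by
  induction l with
  | zero => rw [EP_zero, LinearMap.zero_apply, smul_zero]; exact EE_nil
  | succ l ih =>
    have h : l ≤ 2 * l := by omega
    rw [omF_succ', map_add, map_add, map_smul, map_smul, map_smul, map_smul, EE_true, EE_false,
      EP_true, EP_false, EE_snoc _ (omF_mem l), EE_snoc _ (omF_mem l), EP_snoc h _ (omF_mem l),
      EP_snoc h _ (omF_mem l), KP_omF, ih]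
    simp only [al_smul, al_mul, if_true, Bool.false_eq_true, if_false, map_add, map_smul,
      add_zero, al_four, XX_two]
    match_scalars
    · linear_combination (-(al 2 * XX 1 * (XX 1 * XX (-1)))) * al_inv - al 2 * XX 1 * XX_inv
    · ring
    · ring
theorem FF_omF (l : ℕ) : FF MM (omF l) = (1 - a (-4) • XX (-2)) • FP MM l (omF l) := by
  induction l with
  | zero => rw [FP_zero, LinearMap.zero_apply, smul_zero]; exact FF_nil
  | succ l ih =>
    rw [FP_omF_succ, omF_succ', map_add, map_smul, map_smul, FF_true, FF_false,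
      FF_snoc _ (omF_mem l), FF_snoc _ (omF_mem l), KP_omF, ih]
    simp only [al_smul, al_mul, if_true, Bool.false_eq_true, if_false, map_add, map_smul,
      add_zero, al_nfour, XX_ntwo]
    match_scalars
    · ring
    · linear_combination (al (-2) * al (-2) * XX (-1)) * XX_inv
    · ring
theorem EE_FP_omF (l : ℕ) : f 0 • EE MM (FP MM l (omF l)) =
    (f 0 • (1 - a 4 • XX 2 : MM)) • EP MM l (FP MM l (omF l)) +
      (a 4 • XX 2) • (omF l - KP MM 4 l (omF l)) := by
  induction l with
  | zero => simp
  | succ l ih =>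
    have h : l ≤ 2 * l := by omega
    have hφ : FP MM l (omF l) ∈ vLv MM (2 * l) := FP_mem (omF_mem l)
    have hK := KP_of_prW (n := 2) hφ (FP_omF_wt l)
    have i1 := congrArg (fun w => cons MM false (snoc MM true w)) ih
    have i2 := congrArg (fun w => cons MM true (snoc MM false w)) ih
    rw [FP_omF_succ, omF_succ']
    simp only [map_add, map_smul, EE_true, EE_false, EP_true, EP_false, KP_cons,
      EE_snoc _ (omF_mem l), EE_snoc _ hφ, EP_snoc h _ (omF_mem l), EP_snoc h _ hφ,
      KP_snoc h _ _ (omF_mem l), KP_omF, hK, EE_omF, show (2 : ℤ) * -2 = -4 from rfl]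
    simp only [al_smul, al_mul, f0_smul, f0_mul, if_true, Bool.false_eq_true, if_false, map_add,
      map_sub, map_smul, map_zero, al_four, al_nfour, XX_two] at i1 i2 ⊢
    linear_combination (norm := skip)
      (-(al (-2) * al (-2) * al (-2) * XX (-1))) • i1 + (al 2 * al 2 * XX 1) • i2
    have h1 := al_inv
    have h2 := XX_inv
    clear i1 i2 ih hK hφ
    match_scalars <;> grind

/-- the expressions `Om` in the vertex model -/
theorem ev_Om (k : ℕ) (n : ℤ) : ev (vρ MM) vec (Om k n) = (XX n * dl) • omF k := by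
  have hG : ∀ j n', ev (vρ MM) vec (G j n') = (XX n' * dl) • gF j := fun j n' => by
    rw [gF, smul_smul, mul_assoc, ← PP_eq]
    exact ev_bx (vρ MM) vec (.G j n')
  have key : ∀ {y : FA} {j m : ℕ} (n' : ℤ), Loc (2 * j) m y →
      ev (vρ MM) vec (nest (emb y * G j n')) = Nn (ev (vρ MM) vec (emb y * G j n')) := by
    intro y j m n' hy
    have e : nest (G j n') = G (j + 1) n' - a (-2) • (Tt j * G j (n' - 1)) := by
      rw [G, nest, FreeAlgebra.lift_ι_apply]
    rw [map_mul, nest_emb, ev_emb_mul, ev_emb_mul, hG,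
      Nn_loc hy (smul_mem_vLv _ (gF_mem j)), e, map_sub, map_smul, ← emb_TtF, ev_emb_mul, hG, hG,
      vρ_smul, map_smul Nn, Nn_gF, sub_eq_add_neg n', XX_add]
    congr 1
    simp only [al_smul, al_mul]
    match_scalars <;> ring
  induction k with
  | zero => exact hG 0 n |>.trans (by rw [gF, PQ_zero, one_smul]; rfl)
  | succ k ih =>
    have e1 : Om (k + 1) n = nest (Om k n) := Function.iterate_succ_apply' _ _ _
    have e2 : ∀ x ∈ Submodule.span R
        {x | ∃ y j n', j < k ∧ Loc (2 * j) (2 * k) y ∧ x = emb y * G j n'},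
        ev (vρ MM) vec (nest x) = Nn (ev (vρ MM) vec x) := by
      intro x hx
      induction hx using Submodule.span_induction with
      | mem x hx =>
        obtain ⟨y, j, n', -, hy, rfl⟩ := hx
        exact key n' hy
      | zero => simp
      | add x y _ _ hx hy => simp only [map_add, hx, hy]
      | smul c x _ hx => rw [map_smul, map_smul, map_smul, hx, LinearMap.map_smul_of_tower]
    have e3 := key n (Loc.one (2 * k))
    have e4 := e2 _ (Om_sub_mem k n)
    rw [map_one, one_mul] at e3
    rw [map_sub, map_sub, map_sub, map_sub, e3, sub_left_inj] at e4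
    rw [e1, e4, ih, map_smul]
    rfl

theorem ev_low_succ (k i : ℕ) (n : ℤ) :
    ev (vρ MM) vec (low (k + 1) (i + 1) n) = vρ MM (RtF k) (ev (vρ MM) vec (low k i n)) := by
  rw [low, ← emb_RtF, ev_emb_mul]

end Pool.Agent.P.MP_b3a239_gt
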