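import Pool.Agent.P.MP_b3a239_gt.VEta
import Pool.Agent.P.MP_b3a239_gt.MMAlg
import Pool.Agent.P.MP_b3a239_gt.Transfer

/-! The arcs around the hole in the vertex model. -/

set_option maxSynthPendingDepth 3

noncomputable section

namespace Pool.Agent.P.MP_b3a239_gt

theorem Nn_apply (w : FM) : Nn w = (-(a (-2) • XX (-1))) • cons MM false (snoc MM true w) +
    XX 1 • cons MM true (snoc MM false w) := rfl
theorem Nn_mem {m : ℕ} {w : FM} (hw : w ∈ vLv MM m) : Nn w ∈ vLv MM (m + 2) := by
  rw [Nn_apply]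
  exact Submodule.add_mem _ (smul_mem_vLv _ (cons_mem_vLv _ (snoc_mem_vLv _ hw)))
    (smul_mem_vLv _ (cons_mem_vLv _ (snoc_mem_vLv _ hw)))
theorem Nn_loc {m n : ℕ} {x : FA} (h : Loc m n x) {w : FM} (hw : w ∈ vLv MM m) :
    Nn (vρ MM x w) = vρ MM (shn 1 x) (Nn w) := by
  rw [Nn_apply, Nn_apply, map_add, vρ_smul, vρ_smul, vρ_shn_cons, vρ_shn_cons]
  simp only [snoc_eq_app, vρ_app_left h hw]
theorem Nn_Low {m : ℕ} {w : FM} (hw : w ∈ Low MM m) : Nn w ∈ Low MM (m + 2) := by
  induction hw using Submodule.span_induction with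
  | mem y hy =>
    obtain ⟨i, n, w, rfl, hi, hw, rfl⟩ := hy
    rw [Nn_loc (Loc.u hi) hw, shn_U]
    exact Submodule.subset_span ⟨i + 1, n + 2, Nn w, rfl, by omega, Nn_mem hw, rfl⟩
  | zero => rw [map_zero]; exact Submodule.zero_mem _
  | add x y _ _ hx hy => rw [map_add]; exact Submodule.add_mem _ hx hy
  | smul c x _ hx => rw [map_smul]; exact Submodule.smul_mem _ _ hx

theorem VOm1_wt (w : List Bool) (b : Bool) : wt (w ++ [b]) = wt w + if b then 1 else -1 := by
  induction w with
  | nil => simp [wt]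
  | cons c w ih => rw [List.cons_append, wt, wt, ih, add_assoc]

theorem VOm1_prW (w : FM) : prW MM 0 (Nn w) = Nn (prW MM 0 w) := by
  have h : prW MM 0 ∘ₗ Nn = Nn ∘ₗ prW MM 0 := by
    refine F_ext fun u => ?_
    simp only [LinearMap.comp_apply, Nn_apply, map_add, map_smul, snoc_bas, cons_bas, prW, lin_bas,
      wt, VOm1_wt]
    by_cases hu : wt u = 0
    · simp [hu]
    · simp [hu]
  exact congr($h w)

theorem omF_mem (l : ℕ) : omF l ∈ vLv MM (2 * l) := by
  induction l with
  | zero => exact bas_mem_vLv []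
  | succ l ih => exact Nn_mem ih
theorem gF_mem (l : ℕ) : gF l ∈ vLv MM (2 * l) := by
  rw [two_mul]
  exact smul_mem_vLv _ (eta_mem_vLv l l)
theorem vec_mem (b : Box) : vec b ∈ vLv MM b.legs := by
  cases b with
  | G k n =>
    change _ ∈ vLv MM (2 * k)
    rw [two_mul]
    exact smul_mem_vLv _ (eta_mem_vLv k k)
  | t n => exact smul_mem_vLv _ (bas_mem_vLv [])
theorem omF_wt (l : ℕ) : prW MM 0 (omF l) = omF l := by
  induction l with
  | zero => simp [omF, prW, wt]
  | succ l ih => rw [omF, VOm1_prW, ih]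
theorem omF_tri (l : ℕ) : omF l - PQ l • eta MM l l ∈ Low MM (2 * l) := by
  induction l with
  | zero => simp [omF, eta, etaW]
  | succ l ih =>
    have h1 : Nn (omF l - gF l) ∈ Low MM (2 * l + 2) := Nn_Low ih
    have h2 := (Low MM (2 * l + 2)).smul_mem (a (-2) • XX (-1)) (TtF_mem_Low l (gF_mem l))
    have h3 := (Low MM (2 * l + 2)).sub_mem h1 h2
    rw [map_sub, Nn_gF] at h3
    have e : omF (l + 1) - PQ (l + 1) • eta MM (l + 1) (l + 1) =
        Nn (omF l) - (gF (l + 1) - (a (-2) • XX (-1)) • vρ MM (TtF l) (gF l)) -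
          (a (-2) • XX (-1)) • vρ MM (TtF l) (gF l) := by
      rw [omF, gF]
      abel
    rw [e]
    exact h3

theorem VOm1_a : algebraMap R MM (a (-2)) * algebraMap R MM (a 2) = 1 := by
  rw [← map_mul, ← a_add]
  simp

theorem VOm1_X : XX (-1) * XX 1 = 1 := by
  rw [← XX_add]
  simp

theorem VOm1_c1 : a (-2) • XX (-1) = algebraMap R MM (a (-2)) * XX (-1) := Algebra.smul_def _ _

theorem VOm1_left {m : ℕ} {w : FM} (hw : w ∈ vLv MM m) :
    vρ MM (C 0) (Nn (Nn w)) = vρ MM (U m) w := by
  have h1 : vρ MM (U m) w =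
      snoc MM true (snoc MM false w) - a (-2) • snoc MM false (snoc MM true w) := by
    have h2 := vρ_app_right (U 0) hw (bas MM [])
    rw [shn_U, zero_add, app_nil_right, vρ_U_zero] at h2
    rw [h2]
    simp only [snoc_eq_app, app_assoc, app_bas, cons_bas, map_sub, List.cons_append,
      List.nil_append, LinearMap.map_smul_of_tower]
  rw [h1, Nn_apply, Nn_apply]
  simp only [map_add, map_smul, vρ_smul, ← cons_snoc, vρ_C_zero, VOm1_c1]
  simp only [Bool.false_eq_true, Bool.true_eq_false, if_false, if_true]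
  have h := VOm1_a
  have h' := VOm1_X
  match_scalars
  · linear_combination (XX (-1) * XX 1) * h + h'
  · linear_combination (-algebraMap R MM (a (-2))) * h'

theorem VOm1_right {m : ℕ} {w : FM} (hw : w ∈ vLv MM m) :
    vρ MM (C (m + 2)) (Nn (Nn w)) = vρ MM (U 0) w := by
  have h1 : ∀ b c d e, vρ MM (C (m + 2)) (cons MM b (cons MM c (snoc MM e (snoc MM d w)))) =
      if d = e then 0 else if d then cons MM b (cons MM c w)
        else -(a 2 • cons MM b (cons MM c w)) := by
    intro b c d e
    have h2 := vρ_app_right (C 0) (cons_mem_vLv b (cons_mem_vLv c hw))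
      (cons MM d (cons MM e (bas MM [])))
    rw [shn_C, zero_add, vρ_C_zero] at h2
    have h3 : cons MM b (cons MM c (snoc MM e (snoc MM d w))) =
        app MM (cons MM b (cons MM c w)) (cons MM d (cons MM e (bas MM []))) := by
      simp only [snoc_eq_app, app_assoc, app_bas, cons_bas, app_cons, List.cons_append,
        List.nil_append]
    rw [h3, h2]
    split_ifs
    · rw [map_zero]
    · rw [app_nil_right]
    · rw [map_neg, LinearMap.map_smul_of_tower, app_nil_right]
  rw [vρ_U_zero, Nn_apply, Nn_apply]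
  simp only [map_add, map_smul, vρ_smul, ← cons_snoc, h1, VOm1_c1]
  simp only [Bool.false_eq_true, Bool.true_eq_false, if_false, if_true]
  have h := VOm1_a
  have h' := VOm1_X
  match_scalars
  · linear_combination (XX (-1) * XX 1) * h + h'
  · linear_combination (-algebraMap R MM (a (-2))) * h'

theorem C_omF_left {i l : ℕ} (h : i ≤ l) :
    vρ MM (C i) (omF (l + 2)) = vρ MM (U (2 * l - i)) (omF l) := by
  induction i generalizing l with
  | zero => exact VOm1_left (omF_mem l)
  | succ i ih =>
    obtain ⟨l, rfl⟩ : ∃ l', l = l' + 1 := ⟨l - 1, by omega⟩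
    have h1 := Nn_loc (Loc.c (m := 2 * l + 2) (j := i) (by omega)) (omF_mem (l + 2))
    have h2 := Nn_loc (Loc.u (m := 2 * l) (j := 2 * l - i) (by omega)) (omF_mem l)
    rw [ih (by omega), h2, shn_U, shn_C] at h1
    rw [show 2 * (l + 1) - (i + 1) = 2 * l - i + 1 by omega]
    exact h1.symm
theorem C_omF_right {i l : ℕ} (h : i ≤ l) :
    vρ MM (C (2 * l + 2 - i)) (omF (l + 2)) = vρ MM (U i) (omF l) := by
  induction i generalizing l with
  | zero => exact VOm1_right (omF_mem l)
  | succ i ih =>
    obtain ⟨l, rfl⟩ : ∃ l', l = l' + 1 := ⟨l - 1, by omega⟩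
    have h1 := Nn_loc (Loc.c (m := 2 * l + 2) (j := 2 * l + 2 - i) (by omega)) (omF_mem (l + 2))
    have h2 := Nn_loc (Loc.u (m := 2 * l) (j := i) (by omega)) (omF_mem l)
    rw [ih (by omega), h2, shn_U, shn_C] at h1
    rw [show 2 * (l + 1) + 2 - (i + 1) = 2 * l + 2 - i + 1 by omega]
    exact h1.symm
theorem C_omF_mid (l : ℕ) : vρ MM (C l) (omF (l + 1)) = zz • omF l := by
  induction l with
  | zero =>
    have e1 : snoc MM true (bas MM []) = cons MM true (bas MM []) := by simp
    have e2 : snoc MM false (bas MM []) = cons MM false (bas MM []) := by simp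
    change vρ MM (C 0) (Nn (bas MM [])) = zz • bas MM []
    rw [Nn_apply, map_add, vρ_smul, vρ_smul, e1, e2, vρ_C_zero, vρ_C_zero, VOm1_c1, zz]
    simp only [Bool.false_eq_true, Bool.true_eq_false, if_false, if_true]
    have h := VOm1_a
    match_scalars
    linear_combination (XX (-1)) * h
  | succ l ih =>
    have h1 := Nn_loc (Loc.c (m := 2 * l) (j := l) (by omega)) (omF_mem (l + 1))
    rw [ih, shn_C, map_smul] at h1
    exact h1.symm

theorem VOm1_mirror (s : Bool) {i l : ℕ} (h : i + 1 ≤ l) :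
    vρ MM (sg s i) (omF (l + 1)) = vρ MM (sg s (2 * l - i)) (omF (l + 1)) := by
  obtain ⟨l, rfl⟩ : ∃ l', l = l' + 1 := ⟨l - 1, by omega⟩
  have h1 := congr($((vρ_wk (k := MM)).uu i (2 * l - i) (by omega)) (omF l))
  simp only [Module.End.mul_apply] at h1
  have h2 := C_omF_right (i := i) (l := l) (by omega)
  rw [show 2 * l + 2 - i = 2 * l - i + 2 by omega] at h2
  rw [show 2 * (l + 1) - i = 2 * l - i + 2 by omega]
  simp only [sg, map_add, map_smul, map_mul, LinearMap.add_apply, LinearMap.smul_apply,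
    Module.End.mul_apply]
  rw [C_omF_left (by omega), h2, h1]

theorem pL_omF (s : Bool) (l : ℕ) :
    vρ MM (pL s 0 l) (omF (l + 1)) = vρ MM (pL s (l + 1) l) (omF (l + 1)) := by
  have key : ∀ j i, i + j = l → vρ MM (pL s 0 l) (omF (l + 1)) =
      vρ MM (pL s (l + 1) j) (vρ MM (pL s 0 i) (omF (l + 1))) := by
    intro j
    induction j with
    | zero =>
      intro i hi
      obtain rfl : i = l := hi
      simp [pL]
    | succ j ih =>
      intro i hi
      have h1 := congr($((vρ_wk (k := MM)).far (loc_pL (m := i + 1) s (i := 0) (l := i) (by omega))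
        (sg s (2 * j + 1))) (omF (l + 1)))
      rw [shn_sg, show 2 * j + 1 + (i + 1) = l + 1 + j by omega] at h1
      simp only [Module.End.mul_apply] at h1
      rw [ih (i + 1) (by omega), pL, pL, map_mul, map_mul, Module.End.mul_apply,
        Module.End.mul_apply, zero_add, VOm1_mirror s (by omega),
        show 2 * l - i = l + 1 + j by omega, h1]
  rw [key l 0 (by omega)]
  simp [pL]
theorem pR_omF (s : Bool) (l : ℕ) :
    vρ MM (pR s 0 l) (omF (l + 1)) = vρ MM (pR s (l + 1) l) (omF (l + 1)) := by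
  have key : ∀ j i, i + j = l → vρ MM (pR s 0 l) (omF (l + 1)) =
      vρ MM (pR s (l + 1 + i) j) (vρ MM (pR s j i) (omF (l + 1))) := by
    intro j
    induction j with
    | zero =>
      intro i hi
      obtain rfl : i = l := hi
      simp [pR]
    | succ j ih =>
      intro i hi
      have h1 := congr($((vρ_wk (k := MM)).far
        (loc_pR (m := l + 1) s (i := j + 1) (l := i) (by omega)) (sg s i)) (omF (l + 1)))
      rw [shn_sg, show i + (l + 1) = l + 1 + i by omega] at h1
      simp only [Module.End.mul_apply] at h1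
      rw [ih (i + 1) (by omega), pR_succ', pR_succ', map_mul, map_mul, Module.End.mul_apply,
        Module.End.mul_apply, VOm1_mirror s (by omega),
        show 2 * l - j = l + 1 + i by omega, h1]
      rfl
  rw [key l 0 (by omega)]
  simp [pR]

end Pool.Agent.P.MP_b3a239_gt
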