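import Pool.Agent.P.MP_b3a239_gt.VLin

/-! The vertex model is a strict module over the Temperley-Lieb category. -/

set_option maxSynthPendingDepth 3

noncomputable section

namespace Pool.Agent.P.MP_b3a239_gt

variable {k : Type} [CommRing k] [Algebra R k]

private theorem Us (l : ℕ) (b : Bool) (w : F k) :
    vρ k (U (l + 1)) (cons k b w) = cons k b (vρ k (U l) w) := by
  rw [← vρ_shn_cons, shn_U]

private theorem Cs (l : ℕ) (b : Bool) (w : F k) :
    vρ k (C (l + 1)) (cons k b w) = cons k b (vρ k (C l) w) := by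
  rw [← vρ_shn_cons, shn_C]

private theorem Un (l : ℕ) : vρ k (U (l + 1)) (bas k []) = 0 := by rw [vρ_U_bas]; rfl

private theorem Cn (l : ℕ) : vρ k (C l) (bas k []) = 0 := by
  rw [vρ_C_bas]
  cases l <;> rfl

private theorem C1 (b : Bool) : vρ k (C 0) (cons k b (bas k [])) = 0 := by
  rw [cons_bas, vρ_C_bas]
  cases b <;> rfl

private theorem consR (b : Bool) (c : R) (w : F k) : cons k b (c • w) = c • cons k b w :=
  LinearMap.map_smul_of_tower _ _ _

private theorem ext1 {x y : FA} (h0 : vρ k x (bas k []) = vρ k y (bas k []))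
    (h1 : ∀ b w, vρ k x (cons k b w) = vρ k y (cons k b w)) : vρ k x = vρ k y := by
  have h : vρk k x = vρk k y := by
    refine F_ext fun w => ?_
    cases w with
    | nil => exact h0
    | cons b w => rw [← cons_bas]; exact h1 b _
  exact congrArg (resR k) h

private theorem ext2 {x y : FA} (h0 : vρ k x (bas k []) = vρ k y (bas k []))
    (h1 : ∀ b, vρ k x (cons k b (bas k [])) = vρ k y (cons k b (bas k [])))
    (h2 : ∀ b c w, vρ k x (cons k b (cons k c w)) = vρ k y (cons k b (cons k c w))) :
    vρ k x = vρ k y := by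
  have h : vρk k x = vρk k y := by
    refine F_ext fun w => ?_
    match w with
    | [] => exact h0
    | [b] => rw [← cons_bas]; exact h1 b
    | b :: c :: w => rw [← cons_bas, ← cons_bas]; exact h2 b c _
  exact congrArg (resR k) h

private theorem wk_uu (i j : ℕ) (h : i ≤ j) :
    vρ k (U (j + 2)) * vρ k (U i) = vρ k (U i) * vρ k (U j) := by
  induction i generalizing j with
  | zero =>
    refine LinearMap.ext fun w => ?_
    simp only [Module.End.mul_apply, vρ_U_zero, map_sub, map_smul, Us]
  | succ i ih =>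
    obtain ⟨j, rfl⟩ : ∃ j', j = j' + 1 := ⟨j - 1, by omega⟩
    rw [← map_mul, ← map_mul]
    refine ext1 ?_ fun b w => ?_
    · simp only [map_mul, Module.End.mul_apply, Un, map_zero]
    · have := congr($(ih j (by omega)) w)
      simp only [Module.End.mul_apply] at this
      simp only [map_mul, Module.End.mul_apply, Us, this]

private theorem wk_cc (i j : ℕ) (h : i ≤ j) :
    vρ k (C j) * vρ k (C i) = vρ k (C i) * vρ k (C (j + 2)) := by
  induction i generalizing j with
  | zero =>
    rw [← map_mul, ← map_mul]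
    refine ext2 ?_ (fun b => ?_) fun b c w => ?_
    · simp only [map_mul, Module.End.mul_apply, Cn, map_zero]
    · simp only [map_mul, Module.End.mul_apply, Cs, Cn, C1, map_zero]
    · simp only [map_mul, Module.End.mul_apply, Cs, vρ_C_zero]
      cases b <;> cases c <;> simp
  | succ i ih =>
    obtain ⟨j, rfl⟩ : ∃ j', j = j' + 1 := ⟨j - 1, by omega⟩
    rw [← map_mul, ← map_mul]
    refine ext1 ?_ fun b w => ?_
    · simp only [map_mul, Module.End.mul_apply, Cn, map_zero]
    · have := congr($(ih j (by omega)) w)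
      simp only [Module.End.mul_apply] at this
      simp only [map_mul, Module.End.mul_apply, Cs, this]

private theorem wk_cu (i j : ℕ) (h : i ≤ j) :
    vρ k (C (j + 2)) * vρ k (U i) = vρ k (U i) * vρ k (C j) := by
  induction i generalizing j with
  | zero =>
    refine LinearMap.ext fun w => ?_
    simp only [Module.End.mul_apply, vρ_U_zero, map_sub, map_smul, Cs]
  | succ i ih =>
    obtain ⟨j, rfl⟩ : ∃ j', j = j' + 1 := ⟨j - 1, by omega⟩
    rw [← map_mul, ← map_mul]
    refine ext1 ?_ fun b w => ?_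
    · simp only [map_mul, Module.End.mul_apply, Un, Cn, map_zero]
    · have := congr($(ih j (by omega)) w)
      simp only [Module.End.mul_apply] at this
      simp only [map_mul, Module.End.mul_apply, Us, Cs, this]

private theorem wk_uc (i j : ℕ) (h : i ≤ j) :
    vρ k (C i) * vρ k (U (j + 2)) = vρ k (U j) * vρ k (C i) := by
  induction i generalizing j with
  | zero =>
    rw [← map_mul, ← map_mul]
    refine ext2 ?_ (fun b => ?_) fun b c w => ?_
    · simp only [map_mul, Module.End.mul_apply, Un, Cn, map_zero]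
    · simp only [map_mul, Module.End.mul_apply, Us, Un, C1, map_zero]
    · simp only [map_mul, Module.End.mul_apply, Us, vρ_C_zero]
      cases b <;> cases c <;> simp
  | succ i ih =>
    obtain ⟨j, rfl⟩ : ∃ j', j = j' + 1 := ⟨j - 1, by omega⟩
    rw [← map_mul, ← map_mul]
    refine ext1 ?_ fun b w => ?_
    · simp only [map_mul, Module.End.mul_apply, Un, Cn, map_zero]
    · have := congr($(ih j (by omega)) w)
      simp only [Module.End.mul_apply] at this
      simp only [map_mul, Module.End.mul_apply, Us, Cs, this]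

private theorem strU {l m : ℕ} {w : F k} (h : m < l) (hw : w ∈ vLv k m) : vρ k (U l) w = 0 := by
  induction m generalizing l w with
  | zero =>
    obtain ⟨l, rfl⟩ : ∃ l', l = l' + 1 := ⟨l - 1, by omega⟩
    rw [eq_of_mem_vLv_zero hw, vρ_smul, Un, smul_zero]
  | succ m ih =>
    obtain ⟨l, rfl⟩ : ∃ l', l = l' + 1 := ⟨l - 1, by omega⟩
    obtain ⟨u, hu, v, hv, rfl⟩ := exists_cons_of_mem_vLv hw
    rw [map_add, Us, Us, ih (by omega) hu, ih (by omega) hv, map_zero, map_zero, add_zero]

private theorem strC {l m : ℕ} {w : F k} (h : m < l + 2) (hw : w ∈ vLv k m) :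
    vρ k (C l) w = 0 := by
  induction m generalizing l w with
  | zero => rw [eq_of_mem_vLv_zero hw, vρ_smul, Cn, smul_zero]
  | succ m ih =>
    obtain ⟨u, hu, v, hv, rfl⟩ := exists_cons_of_mem_vLv hw
    cases l with
    | zero =>
      obtain rfl : m = 0 := by omega
      rw [eq_of_mem_vLv_zero hu, eq_of_mem_vLv_zero hv, map_add, (cons k true).map_smul,
        (cons k false).map_smul, vρ_smul, vρ_smul, C1, C1, smul_zero, smul_zero, add_zero]
    | succ l =>
      rw [map_add, Cs, Cs, ih (by omega) hu, ih (by omega) hv, map_zero, map_zero, add_zero]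

private theorem aa (w : F k) : a (-2) • a 2 • w = w := by
  rw [smul_smul, mul_comm, a_mul_neg, one_smul]

theorem vρ_wk : Wk (vρ k) := ⟨wk_uu, wk_cc, wk_cu, wk_uc⟩
theorem vρ_memU {l m : ℕ} {w : F k} (hw : w ∈ vLv k m) : vρ k (U l) w ∈ vLv k (m + 2) := by
  induction l generalizing m w with
  | zero =>
    rw [vρ_U_zero]
    exact sub_mem (cons_mem_vLv _ (cons_mem_vLv _ hw))
      (Submodule.smul_mem _ _ (cons_mem_vLv _ (cons_mem_vLv _ hw)))
  | succ l ih =>
    cases m with
    | zero => rw [strU (by omega) hw]; exact zero_mem _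
    | succ m =>
      obtain ⟨u, hu, v, hv, rfl⟩ := exists_cons_of_mem_vLv hw
      rw [map_add, Us, Us]
      exact add_mem (cons_mem_vLv _ (ih hu)) (cons_mem_vLv _ (ih hv))
theorem vρ_memC {l m : ℕ} {w : F k} (hw : w ∈ vLv k (m + 2)) : vρ k (C l) w ∈ vLv k m := by
  induction l generalizing m w with
  | zero =>
    have key : ∀ (b : Bool) (u : F k), u ∈ vLv k (m + 1) → vρ k (C 0) (cons k b u) ∈ vLv k m := by
      intro b u hu
      obtain ⟨x, hx, y, hy, rfl⟩ := exists_cons_of_mem_vLv hu
      rw [map_add, map_add, vρ_C_zero, vρ_C_zero]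
      cases b
      · simpa using Submodule.smul_mem _ (a 2) hx
      · simpa using hy
    obtain ⟨u, hu, v, hv, rfl⟩ := exists_cons_of_mem_vLv hw
    rw [map_add]
    exact add_mem (key _ _ hu) (key _ _ hv)
  | succ l ih =>
    cases m with
    | zero => rw [strC (by omega) hw]; exact zero_mem _
    | succ m =>
      obtain ⟨u, hu, v, hv, rfl⟩ := exists_cons_of_mem_vLv hw
      rw [map_add, Cs, Cs]
      exact add_mem (cons_mem_vLv _ (ih hu)) (cons_mem_vLv _ (ih hv))
theorem vρ_loop {l m : ℕ} {w : F k} (h : l ≤ m) (hw : w ∈ vLv k m) :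
    vρ k (C l) (vρ k (U l) w) = dd • w := by
  induction l generalizing m w with
  | zero =>
    rw [vρ_U_zero, map_sub, map_smul, vρ_C_zero, vρ_C_zero, dd, neg_smul, add_smul]
    simp only [Bool.false_eq_true, Bool.true_eq_false, if_true, if_false]
    abel
  | succ l ih =>
    obtain ⟨m, rfl⟩ : ∃ m', m = m' + 1 := ⟨m - 1, by omega⟩
    obtain ⟨u, hu, v, hv, rfl⟩ := exists_cons_of_mem_vLv hw
    rw [map_add, map_add, Us, Us, Cs, Cs, ih (by omega) hu, ih (by omega) hv, consR, consR,
      smul_add]
theorem vρ_zig {l m : ℕ} {w : F k} (h : l + 1 ≤ m) (hw : w ∈ vLv k m) :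
    vρ k (C (l + 1)) (vρ k (U l) w) = w := by
  induction l generalizing m w with
  | zero =>
    obtain ⟨m, rfl⟩ : ∃ m', m = m' + 1 := ⟨m - 1, by omega⟩
    obtain ⟨u, hu, v, hv, rfl⟩ := exists_cons_of_mem_vLv hw
    simp only [map_add, vρ_U_zero, map_sub, map_smul, Cs, vρ_C_zero, Bool.false_eq_true,
      Bool.true_eq_false, if_true, if_false, map_zero, map_neg, consR, smul_neg, aa, smul_zero]
    abel
  | succ l ih =>
    obtain ⟨m, rfl⟩ : ∃ m', m = m' + 1 := ⟨m - 1, by omega⟩
    obtain ⟨u, hu, v, hv, rfl⟩ := exists_cons_of_mem_vLv hw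
    rw [map_add, map_add, Us, Us, Cs, Cs, ih (by omega) hu, ih (by omega) hv]
theorem vρ_zag {l m : ℕ} {w : F k} (h : l + 1 ≤ m) (hw : w ∈ vLv k m) :
    vρ k (C l) (vρ k (U (l + 1)) w) = w := by
  induction l generalizing m w with
  | zero =>
    obtain ⟨m, rfl⟩ : ∃ m', m = m' + 1 := ⟨m - 1, by omega⟩
    obtain ⟨u, hu, v, hv, rfl⟩ := exists_cons_of_mem_vLv hw
    simp only [map_add, Us, vρ_U_zero, map_sub, map_smul, vρ_C_zero, Bool.false_eq_true,
      Bool.true_eq_false, if_true, if_false, consR, smul_neg, aa, smul_zero]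
    abel
  | succ l ih =>
    obtain ⟨m, rfl⟩ : ∃ m', m = m' + 1 := ⟨m - 1, by omega⟩
    obtain ⟨u, hu, v, hv, rfl⟩ := exists_cons_of_mem_vLv hw
    rw [map_add, map_add, Us, Us, Cs, Cs, ih (by omega) hu, ih (by omega) hv]

variable (k) in
/-- the vertex model -/
def TF : TM (F k) where
  ρ := vρ k
  Lv := vLv k
  wk := vρ_wk
  memU := fun _ hw => vρ_memU hw
  memC := fun _ hw => vρ_memC hw
  loop := vρ_loop
  zig := vρ_zig
  zag := vρ_zag

@[simp] theorem TF_ρ : (TF k).ρ = vρ k := rfl
@[simp] theorem TF_Lv : (TF k).Lv = vLv k := rfl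

theorem TF_strict : (TF k).Strict := by
  refine ⟨strU, strC, eq_top_iff.2 fun w _ => ?_⟩
  induction w using Finsupp.induction_linear with
  | zero => exact zero_mem _
  | add u v hu hv => exact add_mem (hu trivial) (hv trivial)
  | single u c =>
    have h : (Finsupp.single u c : F k) = c • bas k u := by simp [bas]
    rw [h]
    exact Submodule.mem_iSup_of_mem u.length (smul_mem_vLv c (bas_mem_vLv u))

end Pool.Agent.P.MP_b3a239_gt
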