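import Pool.Agent.P.MP_b3a239_gt.TL

/-!
The vertex model: words in `+` (`true`) and `-` (`false`) with coefficients in an `R`-algebra `k`.
-/

open FreeAlgebra

set_option maxSynthPendingDepth 3

noncomputable section

namespace Pool.Agent.P.MP_b3a239_gt

abbrev F (k : Type) [CommRing k] : Type := List Bool →₀ k

section Generic
variable (k : Type) [CommRing k]

def bas (w : List Bool) : F k := Finsupp.single w 1

def eta (x y : ℕ) : F k := bas k (etaW x y)

/-- a new letter at the left end -/
def cons (b : Bool) : F k →ₗ[k] F k := Finsupp.lmapDomain k k (b :: ·)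

/-- a new letter at position `l` -/
def insAt (l : ℕ) (b : Bool) : F k →ₗ[k] F k :=
  Finsupp.lmapDomain k k fun w => w.take l ++ b :: w.drop l

/-- a new letter at the right end -/
def snoc (b : Bool) : F k →ₗ[k] F k := Finsupp.lmapDomain k k (· ++ [b])

/-- exchange of the two letters -/
def swp : F k →ₗ[k] F k := Finsupp.lmapDomain k k (List.map not)

variable {k}

/-- the linear map with given values on words -/
def lin (φ : List Bool → F k) : F k →ₗ[k] F k := Finsupp.linearCombination k φ

variable (k)

/-- concatenation -/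
def app : F k →ₗ[k] F k →ₗ[k] F k :=
  Finsupp.linearCombination k fun u => Finsupp.lmapDomain k k (u ++ ·)

variable [Algebra R k]

def uL : ℕ → List Bool → F k
  | 0, w => bas k (false :: true :: w) - a (-2) • bas k (true :: false :: w)
  | _ + 1, [] => 0
  | l + 1, x :: w => cons k x (uL l w)

def cL : ℕ → List Bool → F k
  | 0, true :: false :: w => bas k w
  | 0, false :: true :: w => -(a 2 • bas k w)
  | 0, _ => 0
  | _ + 1, [] => 0
  | l + 1, x :: w => cons k x (cL l w)

/-- the action of Temperley-Lieb words, linear over `k` -/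
def vρk : FA →ₐ[R] Module.End k (F k) := lift R fun
  | .u l => lin (uL k l)
  | .c l => lin (cL k l)

/-- forget the `k`-linearity -/
def resR : Module.End k (F k) →ₐ[R] Module.End R (F k) where
  toFun x := x.restrictScalars R
  map_one' := rfl
  map_mul' _ _ := rfl
  map_zero' := rfl
  map_add' _ _ := rfl
  commutes' _ := rfl

def vρ : FA →ₐ[R] Module.End R (F k) := (resR k).comp (vρk k)

/-- words of length `m` -/
def vLv (m : ℕ) : Submodule R (F k) := Finsupp.supported k R {w | w.length = m}

/-- raising operator on the first `l` letters -/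
def eL : ℕ → List Bool → F k
  | 0, _ => 0
  | _ + 1, [] => 0
  | l + 1, true :: w => a 2 • cons k true (eL l w)
  | l + 1, false :: w => bas k (true :: w) + a (-2) • cons k false (eL l w)

/-- lowering operator on the first `l` letters -/
def fL : ℕ → List Bool → F k
  | 0, _ => 0
  | _ + 1, [] => 0
  | l + 1, true :: w => bas k (false :: w) + a 2 • cons k true (fL l w)
  | l + 1, false :: w => a (-2) • cons k false (fL l w)

def EP (l : ℕ) : F k →ₗ[k] F k := lin (eL k l)
def FP (l : ℕ) : F k →ₗ[k] F k := lin (fL k l)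
def EE : F k →ₗ[k] F k := lin fun w => eL k w.length w
def FF : F k →ₗ[k] F k := lin fun w => fL k w.length w

/-- `(1 - A ^ 4) E` -/
def Et : F k →ₗ[k] F k := f 0 • EE k

/-- `A ^ (n * weight of the first l letters)` -/
def KP (n : ℤ) (l : ℕ) : F k →ₗ[k] F k := lin fun w => a (n * wt (w.take l)) • bas k w

/-- projection to the words of weight `n` -/
def prW (n : ℤ) : F k →ₗ[k] F k := lin fun w => if wt w = n then bas k w else 0

/-- normal forms -/
def NF (w : List Bool) : F k := vρ k (cups w) (eta k (core w).1 (core w).2)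

variable {k}

/-- apply a linear map to all coefficients -/
def cmap {k' : Type} [CommRing k'] [Algebra R k'] (χ : k →ₗ[R] k') : F k →ₗ[R] F k' :=
  Finsupp.mapRange.linearMap χ

/-- concatenation of a list of vectors -/
def cat (l : List (F k)) : F k := l.foldr (fun x y => app k x y) (bas k [])

end Generic

/-! ### Coefficients `R[X, X⁻¹]` -/

def MM : Type := LaurentPolynomial R

instance : CommRing MM := inferInstanceAs (CommRing (LaurentPolynomial R))
instance : Algebra R MM := inferInstanceAs (Algebra R (LaurentPolynomial R))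
instance : IsDomain MM := inferInstanceAs (IsDomain (LaurentPolynomial R))

abbrev FM : Type := F MM

def XX (n : ℤ) : MM := (LaurentPolynomial.T n : LaurentPolynomial R)

/-- the basis of monomials -/
def XXB : Module.Basis ℤ R MM := AddMonoidAlgebra.basis ℤ R

def zz : MM := XX 1 + XX (-1)
def dl : MM := XX 1 - XX (-1)
def pii (j : ℕ) : MM := XX 1 - a (-4 * j) • XX (-1)
/-- `pii 0 ⋯ pii k` -/
def PP (k : ℕ) : MM := ∏ i ∈ Finset.range (k + 1), pii i
/-- `pii 1 ⋯ pii k` -/
def PQ (k : ℕ) : MM := ∏ i ∈ Finset.range k, pii (i + 1)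

/-- the linear map `X ^ n ↦ μ n` -/
def cf {B : Type} [AddCommGroup B] [Module R B] (μ : ℤ → B) : MM →ₗ[R] B :=
  XXB.constr R μ

/-- the substitution `X ↦ A ^ (2 j) X` -/
def Yc (j : ℤ) : MM →ₗ[R] MM := cf fun n => a (2 * j * n) • XX n

/-- the inverse of the torus element `A ^ (p q) x ^ p y ^ q` on coefficients -/
def cinv (p q : ℕ) : MM →ₗ[R] MM :=
  cf fun n => ((-1) ^ q * a (-(p * q) - 2 * q * (n - p))) • XX (n - p)

/-- nesting -/
def Nn : FM →ₗ[MM] FM :=
  (-(a (-2) • XX (-1))) • (cons MM false ∘ₗ snoc MM true) + XX 1 • (cons MM true ∘ₗ snoc MM false)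

/-- `l` arcs around the hole -/
def omF : ℕ → FM
  | 0 => bas MM []
  | l + 1 => Nn (omF l)

def gF (k : ℕ) : FM := PQ k • eta MM k k

/-- the boxes in the vertex model -/
def vec : Box → FM
  | .G k n => (XX n * PP k) • eta MM k k
  | .t n => (f 0 • XX n) • bas MM []

def xL : List Bool → FM
  | [] => bas MM []
  | false :: w => (-(a 2 • XX (-1))) • bas MM (false :: w)
  | true :: w => (-(a 2 • XX 1)) • bas MM (true :: w) + XX (-1) • cons MM false (Et MM (bas MM w))

/-- the longitudinal drag of strand `0` -/
def Xh : FM →ₗ[MM] FM := lin xL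

end Pool.Agent.P.MP_b3a239_gt
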